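import Pool.Agent.MP_49383f_gt.Defs

/-!
# MP_49383f_gt : elementary facts used by many modules
-/

namespace Pool.Agent.MP_49383f_gt

open scoped ContDiff ComplexConjugate
open MeasureTheory Metric Set

/-! ## the Moebius map -/

theorem sg_sub (r : ℝ) (a b z : ℂ) : sg r a b z - b = -((r : ℂ) ^ 2 / (z - a)) := by
  rw [sg]; ring

theorem norm_sg_sub {r : ℝ} (a b z : ℂ) : ‖sg r a b z - b‖ = r ^ 2 / ‖z - a‖ := by
  rw [sg_sub, norm_neg, norm_div, norm_pow, Complex.norm_real, Real.norm_eq_abs, sq_abs]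

theorem sg_sg {r : ℝ} (hr : r ≠ 0) (a b : ℂ) {z : ℂ} (hz : z ≠ a) :
    sg r b a (sg r a b z) = z := by
  have h1 : z - a ≠ 0 := sub_ne_zero.2 hz
  have h2 : (r : ℂ) ≠ 0 := by exact_mod_cast hr
  rw [sg, sg_sub]
  field_simp
  ring

theorem sg_ne {r : ℝ} (hr : r ≠ 0) (a b : ℂ) {z : ℂ} (hz : z ≠ a) : sg r a b z ≠ b := by
  have h1 : z - a ≠ 0 := sub_ne_zero.2 hz
  have h2 : (r : ℂ) ≠ 0 := by exact_mod_cast hr
  rw [← sub_ne_zero, sg_sub]
  exact neg_ne_zero.2 (div_ne_zero (pow_ne_zero 2 h2) h1)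

/-- the difference quotient of the Moebius map -/
theorem sg_sub_sg {r : ℝ} (a b : ℂ) {z w : ℂ} (hz : z ≠ a) (hw : w ≠ a) :
    sg r a b z - sg r a b w = (r : ℂ) ^ 2 * (z - w) / ((z - a) * (w - a)) := by
  have h1 : z - a ≠ 0 := sub_ne_zero.2 hz
  have h2 : w - a ≠ 0 := sub_ne_zero.2 hw
  rw [sg, sg]
  field_simp
  ring

theorem sg_conj (r : ℝ) {a b : ℂ} (ha : conj a = a) (hb : conj b = b) (z : ℂ) :
    sg r a b (conj z) = conj (sg r a b z) := by
  simp [sg, ha, hb]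

theorem hasDerivAt_sg (r : ℝ) (a b : ℂ) {z : ℂ} (hz : z ≠ a) :
    HasDerivAt (sg r a b) ((r : ℂ) ^ 2 / (z - a) ^ 2) z := by
  have h1 : z - a ≠ 0 := sub_ne_zero.2 hz
  have h2 : HasDerivAt (fun w : ℂ => w - a) 1 z := (hasDerivAt_id z).sub_const a
  have h3 := (h2.fun_inv h1).const_mul ((r : ℂ) ^ 2)
  have h4 := h3.const_sub b
  have e : sg r a b = fun w => b - (r : ℂ) ^ 2 * (w - a)⁻¹ := by
    funext w; rw [sg, div_eq_mul_inv]
  rw [e]
  refine h4.congr_deriv ?_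
  field_simp

@[simp] theorem conj_aa : conj aa = aa := by
  rw [Complex.conj_eq_iff_im, aa]; simp

@[simp] theorem conj_bb : conj bb = bb := by
  rw [Complex.conj_eq_iff_im, bb]; simp

@[simp] theorem aa_re : aa.re = 3 / 2 := by rw [aa]; simp
@[simp] theorem aa_im : aa.im = 0 := by rw [aa]; simp
@[simp] theorem bb_re : bb.re = 1 / 2 := by rw [bb]; simp
@[simp] theorem bb_im : bb.im = 0 := by rw [bb]; simp

theorem aa_sub_bb : aa - bb = 1 := by rw [aa, bb]; norm_num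
theorem norm_aa_sub_bb : ‖aa - bb‖ = 1 := by rw [aa_sub_bb]; simp
theorem norm_bb_sub_aa : ‖bb - aa‖ = 1 := by rw [norm_sub_rev, norm_aa_sub_bb]
theorem aa_add_bb : aa + bb = 2 := by rw [aa, bb]; norm_num
theorem norm_aa : ‖aa‖ = 3 / 2 := by rw [aa]; norm_num
theorem norm_bb : ‖bb‖ = 1 / 2 := by rw [bb]; norm_num

/-! ## the map `J` and the right-hand side `mu` -/

@[simp] theorem JJ_fst (p : ℂ × ℂ) : (JJ p).1 = p.2 := rfl
@[simp] theorem JJ_snd (p : ℂ × ℂ) : (JJ p).2 = -p.1 := rfl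

theorem JJ_JJ (p : ℂ × ℂ) : JJ (JJ p) = -p := by
  ext <;> simp [JJ]

theorem JJ_add (p q : ℂ × ℂ) : JJ (p + q) = JJ p + JJ q := by
  ext
  · simp [JJ]
  · simp [JJ]; ring

theorem JJ_sub (p q : ℂ × ℂ) : JJ (p - q) = JJ p - JJ q := by
  ext
  · simp [JJ]
  · simp [JJ]; ring

theorem JJ_smul (c : ℂ) (p : ℂ × ℂ) : JJ (c • p) = c • JJ p := by
  ext <;> simp [JJ]

theorem norm_JJ (p : ℂ × ℂ) : ‖JJ p‖ = ‖p‖ := by
  simp [JJ, Prod.norm_def, max_comm]

theorem continuous_JJ : Continuous JJ := by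
  unfold JJ; fun_prop

theorem norm_cconj (p : ℂ × ℂ) : ‖cconj p‖ = ‖p‖ := by
  simp [cconj, Prod.norm_def]

theorem continuous_cconj : Continuous cconj := by
  unfold cconj; fun_prop

theorem continuous_mu (ε : ℝ) : Continuous (mu ε) := by
  unfold mu; fun_prop

theorem contDiff_mu (ε : ℝ) : ContDiff ℝ ∞ (mu ε) := by
  unfold mu
  have h1 : ContDiff ℝ ∞ (fun p : ℂ × ℂ => ((ε * (‖p.1‖ ^ 2 + ‖p.2‖ ^ 2) : ℝ) : ℂ)) := by
    apply Complex.ofRealCLM.contDiff.comp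
    exact contDiff_const.mul ((contDiff_fst.norm_sq ℝ).add (contDiff_snd.norm_sq ℝ))
  have h2 : ContDiff ℝ ∞ (fun p : ℂ × ℂ => conj p.2) :=
    Complex.conjCLE.contDiff.comp contDiff_snd
  have h3 : ContDiff ℝ ∞ (fun p : ℂ × ℂ => conj p.1) :=
    Complex.conjCLE.contDiff.comp contDiff_fst
  exact (h1.mul h2).prodMk (h1.mul h3).neg

/-- `μ` commutes with the gluing -/
theorem mu_smul_JJ (ε : ℝ) (c : ℂ) (p : ℂ × ℂ) :
    mu ε (c • JJ p) = (c * conj c ^ 2) • JJ (mu ε p) := by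
  have hc : c * conj c = ((‖c‖ ^ 2 : ℝ) : ℂ) := by rw [Complex.mul_conj, Complex.normSq_eq_norm_sq]
  ext
  · simp only [mu, JJ, Prod.smul_mk, smul_eq_mul, norm_mul, norm_neg, mul_pow, map_mul, map_neg]
    rw [show c * conj c ^ 2 = (c * conj c) * conj c by ring, hc]
    push_cast
    ring
  · simp only [mu, JJ, Prod.smul_mk, smul_eq_mul, norm_mul, norm_neg, mul_pow, map_mul, map_neg]
    rw [show c * conj c ^ 2 = (c * conj c) * conj c by ring, hc]
    push_cast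
    ring

/-- `Sol` and `PHI` are symmetric in the two necks -/
theorem PHI_swap (r : ℝ) (a b : ℂ) (h p q : ℂ → ℂ × ℂ) : PHI r b a h q p = PHI r a b h p q := by
  funext z
  rw [PHI, PHI]; abel

theorem GG_swap (r : ℝ) (a b : ℂ) : GG r b a = GG r a b := by
  ext z; simp only [GG, mem_ofPred_eq]; tauto

theorem Sol.swap {ε : ℝ} {E : ℂ → ℂ × ℂ} {a b : ℂ} {h p q : ℂ → ℂ × ℂ} (s : Sol ε E a b h p q) :
    Sol ε E b a h q p where
  h_cont := s.h_cont
  p_cont := s.q_cont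
  q_cont := s.p_cont
  h_eq := fun z => by rw [GG_swap, PHI_swap]; exact s.h_eq z
  p_eq := s.q_eq
  q_eq := s.p_eq
  bd := fun z hz => by rw [PHI_swap]; exact s.bd z (by rwa [GG_swap] at hz)

theorem isClosed_GG (r : ℝ) (a b : ℂ) : IsClosed (GG r a b) := by
  have h1 : IsClosed {z : ℂ | ‖z‖ ≤ 4} := isClosed_le (by fun_prop) (by fun_prop)
  have h2 : IsClosed {z : ℂ | r ≤ ‖z - a‖} := isClosed_le (by fun_prop) (by fun_prop)
  have h3 : IsClosed {z : ℂ | r ≤ ‖z - b‖} := isClosed_le (by fun_prop) (by fun_prop)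
  exact h1.inter (h2.inter h3)

theorem isCompact_GG (r : ℝ) (a b : ℂ) : IsCompact (GG r a b) :=
  (isCompact_closedBall (0 : ℂ) 4).of_isClosed_subset (isClosed_GG r a b)
    (fun z hz => by simpa using hz.1)

theorem isOpen_Om0 (ε : ℝ) : IsOpen (Om0 ε) := by
  have h1 : IsOpen {z : ℂ | ‖z‖ < 4} := isOpen_lt (by fun_prop) (by fun_prop)
  have h2 : IsOpen {z : ℂ | ε ^ 2 / 8 < ‖z - aa‖} := isOpen_lt (by fun_prop) (by fun_prop)
  have h3 : IsOpen {z : ℂ | ε ^ 2 / 8 < ‖z - bb‖} := isOpen_lt (by fun_prop) (by fun_prop)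
  exact h1.inter (h2.inter h3)

/-! ## geometry -/

theorem isOpen_Rect : IsOpen Rect := by
  have h1 : IsOpen {z : ℂ | 1 / 20 < z.re} := isOpen_lt (by fun_prop) (by fun_prop)
  have h2 : IsOpen {z : ℂ | z.re < 33 / 10} := isOpen_lt (by fun_prop) (by fun_prop)
  have h3 : IsOpen {z : ℂ | |z.im| < 19 / 10} := isOpen_lt (by fun_prop) (by fun_prop)
  exact h1.inter (h2.inter h3)

theorem isOpen_Om (ε : ℝ) : IsOpen (Om ε) := by
  have h2 : IsOpen {z : ℂ | ε ^ 2 / 4 < ‖z - aa‖} := isOpen_lt (by fun_prop) (by fun_prop)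
  have h3 : IsOpen {z : ℂ | ε ^ 2 / 4 < ‖z - bb‖} := isOpen_lt (by fun_prop) (by fun_prop)
  exact isOpen_Rect.inter (h2.inter h3)

theorem isOpen_VP : IsOpen VP := by
  have h1 : IsOpen {z : ℂ | 1 / 10 < z.re} := isOpen_lt (by fun_prop) (by fun_prop)
  have h2 : IsOpen {z : ℂ | z.re < 32 / 10} := isOpen_lt (by fun_prop) (by fun_prop)
  have h3 : IsOpen {z : ℂ | |z.im| < 18 / 10} := isOpen_lt (by fun_prop) (by fun_prop)
  have h4 : IsOpen {z : ℂ | 1 / 15 < ‖z - aa‖} := isOpen_lt (by fun_prop) (by fun_prop)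
  have h5 : IsOpen {z : ℂ | 1 / 15 < ‖z - bb‖} := isOpen_lt (by fun_prop) (by fun_prop)
  exact h1.inter (h2.inter (h3.inter (h4.inter h5)))

theorem convex_Rect : Convex ℝ Rect := by
  have h1 : Convex ℝ {z : ℂ | 1 / 20 < z.re} :=
    convex_halfSpace_gt Complex.reCLM.isBoundedLinearMap.toIsLinearMap _
  have h2 : Convex ℝ {z : ℂ | z.re < 33 / 10} :=
    convex_halfSpace_lt Complex.reCLM.isBoundedLinearMap.toIsLinearMap _
  have h3 : Convex ℝ {z : ℂ | z.im < 19 / 10} :=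
    convex_halfSpace_lt Complex.imCLM.isBoundedLinearMap.toIsLinearMap _
  have h4 : Convex ℝ {z : ℂ | -(19 / 10) < z.im} :=
    convex_halfSpace_gt Complex.imCLM.isBoundedLinearMap.toIsLinearMap _
  have : Rect = {z : ℂ | 1 / 20 < z.re} ∩ ({z : ℂ | z.re < 33 / 10} ∩
      ({z : ℂ | -(19 / 10) < z.im} ∩ {z : ℂ | z.im < 19 / 10})) := by
    ext z; simp only [Rect, mem_ofPred_eq, mem_inter_iff, abs_lt]
  rw [this]
  exact h1.inter (h2.inter (h4.inter h3))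

theorem norm_le_of_mem_Rect {z : ℂ} (hz : z ∈ Rect) : ‖z‖ ≤ 39 / 10 := by
  obtain ⟨h1, h2, h3⟩ := hz
  rw [abs_lt] at h3
  have : ‖z‖ ^ 2 = z.re ^ 2 + z.im ^ 2 := by
    rw [← Complex.normSq_eq_norm_sq, Complex.normSq_apply]; ring
  nlinarith [norm_nonneg z]

theorem RR_RR (h₀ : ℝ) (p : R3) : RR h₀ (RR h₀ p) = p := by
  ext i
  fin_cases i <;> simp [RR]

theorem RL_RL (p : R3) : RL (RL p) = p := by
  ext i
  fin_cases i <;> simp [RL]

theorem RR_continuous (h₀ : ℝ) : Continuous (RR h₀) := by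
  unfold RR
  refine (PiLp.continuous_toLp 2 _).comp ?_
  refine continuous_pi fun i => ?_
  fin_cases i <;> simp <;> fun_prop

theorem Xm_continuousOn {Z : ℂ → ℂ} {t : ℂ → ℝ} {s : Set ℂ} (hZ : ContinuousOn Z s)
    (ht : ContinuousOn t s) : ContinuousOn (Xm Z t) s := by
  unfold Xm
  refine (PiLp.continuous_toLp 2 _).comp_continuousOn ?_
  refine continuousOn_pi.2 fun i => ?_
  fin_cases i
  · exact Complex.continuous_re.comp_continuousOn hZ
  · exact Complex.continuous_im.comp_continuousOn hZ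
  · exact ht

@[simp] theorem pl_Xm (Z : ℂ → ℂ) (t : ℂ → ℝ) (z : ℂ) : pl (Xm Z t z) = Z z := by
  simp [pl, Xm]

@[simp] theorem Xm_two (Z : ℂ → ℂ) (t : ℂ → ℝ) (z : ℂ) : Xm Z t z 2 = t z := by
  simp [Xm]

theorem Xm_eq_iff {Z : ℂ → ℂ} {t : ℂ → ℝ} {z z' : ℂ} :
    Xm Z t z = Xm Z t z' ↔ Z z = Z z' ∧ t z = t z' := by
  constructor
  · intro h
    exact ⟨by rw [← pl_Xm Z t z, h, pl_Xm], by rw [← Xm_two Z t z, h, Xm_two]⟩
  · rintro ⟨h1, h2⟩
    simp [Xm, h1, h2]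

/-- `X z = R X w` in terms of `Z` and `t` -/
theorem Xm_eq_RR_iff {Z : ℂ → ℂ} {t : ℂ → ℝ} {h₀ : ℝ} {z w : ℂ} :
    Xm Z t z = RR h₀ (Xm Z t w) ↔ Z z + conj (Z w) = 2 ∧ t z + t w = h₀ := by
  constructor
  · intro h
    have h0 := congrArg (fun p : R3 => p 0) h
    have h1 := congrArg (fun p : R3 => p 1) h
    have h2 := congrArg (fun p : R3 => p 2) h
    simp [Xm, RR] at h0 h1 h2
    refine ⟨?_, by linarith⟩
    apply Complex.ext
    · simp; linarith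
    · simp [h1]
  · rintro ⟨h1, h2⟩
    have hre := congrArg Complex.re h1
    have him := congrArg Complex.im h1
    simp only [Complex.add_re, Complex.conj_re, Complex.re_ofNat, Complex.add_im, Complex.conj_im,
      Complex.im_ofNat] at hre him
    ext i
    fin_cases i
    · simp [RR, Xm]; linarith
    · simp [RR, Xm]; linarith
    · simp [RR, Xm]; linarith

theorem WW_subset_Om {ε : ℝ} (hε : 0 < ε) : WW ε ⊆ Om ε := by
  intro z hz
  have : 0 < ε ^ 2 := by positivity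
  exact ⟨hz.1, by linarith [hz.2.1], by linarith [hz.2.2]⟩

theorem TT_add_TT (z : ℂ) : TT z + TT (2 - conj z) = 4 / 3 - 4 * z.im ^ 2 := by
  simp only [TT, Complex.sub_re, Complex.conj_re, Complex.re_ofNat, Complex.sub_im,
    Complex.conj_im, Complex.im_ofNat]
  ring

end Pool.Agent.MP_49383f_gt
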