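import Pool.Agent.MP_49383f_gt.CauchyInt

/-!
# MP_49383f_gt, module M02: bounds for the Cauchy transform
-/

set_option linter.unusedSectionVars false
set_option linter.unusedVariables false

namespace Pool.Agent.MP_49383f_gt

open scoped ContDiff ComplexConjugate
open MeasureTheory Metric Set

namespace CauchyBd

/-- the dominating function -/
noncomputable def gg (z₀ p : ℂ) (R α : ℝ) (ζ : ℂ) : ℝ :=
  (closedBall p 1).indicator (fun ζ : ℂ => ‖ζ - p‖ ^ (-α)) ζ +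
    (closedBall z₀ R).indicator (fun _ => (1 : ℝ)) ζ

lemma gg_integrable (z₀ p : ℂ) (R : ℝ) {α : ℝ} (hα : α < 2) : Integrable (gg z₀ p R α) := by
  refine ((integrableOn_rpow_norm p 1 hα).integrable_indicator measurableSet_closedBall).add ?_
  exact (integrable_indicator_iff measurableSet_closedBall).2
    (integrableOn_const (hs := measure_closedBall_lt_top.ne))

lemma gg_integral (z₀ p : ℂ) {R : ℝ} (hR : 0 ≤ R) {α : ℝ} (hα : α < 2) :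
    ∫ ζ, gg z₀ p R α ζ = 2 * Real.pi / (2 - α) + Real.pi * R ^ 2 := by
  have h1 : ∫ ζ, gg z₀ p R α ζ = (∫ ζ, (closedBall p 1).indicator
      (fun ζ : ℂ => ‖ζ - p‖ ^ (-α)) ζ) + ∫ ζ, (closedBall z₀ R).indicator (fun _ => (1 : ℝ)) ζ := by
    refine integral_add
      ((integrableOn_rpow_norm p 1 hα).integrable_indicator measurableSet_closedBall) ?_
    exact (integrable_indicator_iff measurableSet_closedBall).2
      (integrableOn_const (hs := measure_closedBall_lt_top.ne))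
  rw [h1, integral_indicator measurableSet_closedBall,
    setIntegral_rpow_norm p (by norm_num) hα, integral_indicator measurableSet_closedBall,
    setIntegral_const]
  simp only [Measure.real, Complex.volume_closedBall, Real.one_rpow, mul_one, smul_eq_mul,
    ENNReal.toReal_mul, ENNReal.toReal_pow, ENNReal.toReal_ofReal hR]
  simp
  ring

lemma rpow_nonneg' (ζ p : ℂ) (α : ℝ) : 0 ≤ ‖ζ - p‖ ^ (-α) := Real.rpow_nonneg (norm_nonneg _) _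

lemma gg_nonneg (z₀ p : ℂ) (R α : ℝ) (ζ : ℂ) : 0 ≤ gg z₀ p R α ζ := by
  apply add_nonneg
  · exact indicator_nonneg (fun x _ => rpow_nonneg' x p α) ζ
  · exact indicator_nonneg (fun x _ => zero_le_one) ζ

lemma le_gg {z₀ p ζ : ℂ} {R α : ℝ} (hα : 0 ≤ α) (hζ : ζ ∈ closedBall z₀ R) :
    ‖ζ - p‖ ^ (-α) ≤ gg z₀ p R α ζ := by
  simp only [gg, indicator, mem_closedBall, dist_eq_norm] at *
  rw [if_pos hζ]
  split_ifs with h
  · linarith
  · push Not at h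
    have := Real.rpow_le_one_of_one_le_of_nonpos h.le (neg_nonpos.2 hα)
    linarith

lemma inv_eq (z ζ : ℂ) : ‖z - ζ‖⁻¹ = ‖ζ - z‖ ^ (-(1 : ℝ)) := by
  rw [Real.rpow_neg_one, norm_sub_rev]

/-- from a pointwise bound by dominating functions to a bound for the Cauchy transform -/
lemma cauchyT_bound {V : Type*} [NormedAddCommGroup V] [NormedSpace ℂ V]
    {F : ℂ → V} {z₀ p p' : ℂ} {R C : ℝ} (hR : 0 ≤ R)
    (h : ∀ᵐ ζ, ‖F ζ‖ ≤ C * (gg z₀ p R (3 / 2) ζ + gg z₀ p' R (3 / 2) ζ)) :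
    ‖(Real.pi : ℂ)⁻¹ • ∫ ζ, F ζ‖ ≤ (8 + 2 * R ^ 2) * C := by
  have h1 : (3 / 2 : ℝ) < 2 := by norm_num
  have hi : Integrable (fun ζ => C * (gg z₀ p R (3 / 2) ζ + gg z₀ p' R (3 / 2) ζ)) :=
    ((gg_integrable z₀ p R h1).add (gg_integrable z₀ p' R h1)).const_mul C
  have h2 := norm_integral_le_of_norm_le hi h
  rw [integral_const_mul, integral_add (gg_integrable z₀ p R h1) (gg_integrable z₀ p' R h1),
    gg_integral z₀ p hR h1, gg_integral z₀ p' hR h1] at h2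
  rw [norm_smul, norm_inv, Complex.norm_real, Real.norm_eq_abs, abs_of_pos Real.pi_pos]
  calc Real.pi⁻¹ * ‖∫ ζ, F ζ‖ ≤ Real.pi⁻¹ * (C * (2 * Real.pi / (2 - 3 / 2) + Real.pi * R ^ 2 +
        (2 * Real.pi / (2 - 3 / 2) + Real.pi * R ^ 2))) :=
        mul_le_mul_of_nonneg_left h2 (inv_nonneg.2 Real.pi_pos.le)
    _ = (8 + 2 * R ^ 2) * C := by
        have := Real.pi_pos.ne'
        field_simp
        ring

lemma elem1 {x y : ℝ} (hx : 0 < x) (hy : 0 < y) :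
    y⁻¹ * x ^ (-(1 / 2) : ℝ) ≤ x ^ (-(3 / 2) : ℝ) + y ^ (-(3 / 2) : ℝ) := by
  set s : ℝ := x ^ (-(1 / 2) : ℝ) with hs
  set t : ℝ := y ^ (-(1 / 2) : ℝ) with ht
  have hs0 : 0 < s := Real.rpow_pos_of_pos hx _
  have ht0 : 0 < t := Real.rpow_pos_of_pos hy _
  have h1 : x ^ (-(3 / 2) : ℝ) = s ^ 3 := by
    rw [hs, ← Real.rpow_natCast, ← Real.rpow_mul hx.le]
    norm_num
  have h2 : y ^ (-(3 / 2) : ℝ) = t ^ 3 := by
    rw [ht, ← Real.rpow_natCast, ← Real.rpow_mul hy.le]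
    norm_num
  have h3 : y⁻¹ = t ^ 2 := by
    rw [ht, ← Real.rpow_natCast, ← Real.rpow_mul hy.le, ← Real.rpow_neg_one]
    norm_num
  rw [h1, h2, h3]
  nlinarith [mul_nonneg (add_pos hs0 ht0).le (sq_nonneg (s - t)), mul_pos hs0 ht0,
    mul_pos (mul_pos hs0 hs0) ht0]

lemma elem2 {x y : ℝ} (hx : 0 < x) (hy : 0 < y) :
    x⁻¹ * y ^ (-(1 / 2) : ℝ) + y⁻¹ * x ^ (-(1 / 2) : ℝ) ≤
      x ^ (-(3 / 2) : ℝ) + y ^ (-(3 / 2) : ℝ) := by
  set s : ℝ := x ^ (-(1 / 2) : ℝ) with hs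
  set t : ℝ := y ^ (-(1 / 2) : ℝ) with ht
  have hs0 : 0 < s := Real.rpow_pos_of_pos hx _
  have ht0 : 0 < t := Real.rpow_pos_of_pos hy _
  have h1 : x ^ (-(3 / 2) : ℝ) = s ^ 3 := by
    rw [hs, ← Real.rpow_natCast, ← Real.rpow_mul hx.le]
    norm_num
  have h2 : y ^ (-(3 / 2) : ℝ) = t ^ 3 := by
    rw [ht, ← Real.rpow_natCast, ← Real.rpow_mul hy.le]
    norm_num
  have h3 : y⁻¹ = t ^ 2 := by
    rw [ht, ← Real.rpow_natCast, ← Real.rpow_mul hy.le, ← Real.rpow_neg_one]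
    norm_num
  have h4 : x⁻¹ = s ^ 2 := by
    rw [hs, ← Real.rpow_natCast, ← Real.rpow_mul hx.le, ← Real.rpow_neg_one]
    norm_num
  rw [h1, h2, h3, h4]
  nlinarith [mul_nonneg (add_pos hs0 ht0).le (sq_nonneg (s - t))]

end CauchyBd

open CauchyBd

section
variable {V : Type*} [NormedAddCommGroup V] [NormedSpace ℂ V] [CompleteSpace V]

theorem cauchy_integrable {ν : ℂ → V} {z₀ : ℂ} {M R : ℝ} (hν : AEStronglyMeasurable ν)
    (hb : ∀ ζ, ‖ν ζ‖ ≤ M) (hs : ∀ ζ ∉ closedBall z₀ R, ν ζ = 0) (z : ℂ) :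
    Integrable (fun ζ => (z - ζ)⁻¹ • ν ζ) := by
  have hM : 0 ≤ M := (norm_nonneg _).trans (hb 0)
  refine ((gg_integrable z₀ z R (by norm_num : (1 : ℝ) < 2)).mul_const M).mono' ?_ ?_
  · exact ((measurable_const.sub measurable_id).inv).aestronglyMeasurable.smul hν
  · refine Filter.Eventually.of_forall fun ζ => ?_
    rw [norm_smul, norm_inv]
    by_cases h : ζ ∈ closedBall z₀ R
    · rw [inv_eq]
      exact mul_le_mul (le_gg zero_le_one h) (hb ζ) (norm_nonneg _) (gg_nonneg _ _ _ _ _)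
    · rw [hs ζ h, norm_zero, mul_zero]
      exact mul_nonneg (gg_nonneg _ _ _ _ _) hM

theorem norm_cauchyT_le {ν : ℂ → V} {z₀ : ℂ} {M R : ℝ} (hR : 0 ≤ R)
    (hν : AEStronglyMeasurable ν)
    (hb : ∀ ζ, ‖ν ζ‖ ≤ M) (hs : ∀ ζ ∉ closedBall z₀ R, ν ζ = 0) (z : ℂ) :
    ‖cauchyT ν z‖ ≤ (2 + R ^ 2) * M := by
  have hM : 0 ≤ M := (norm_nonneg _).trans (hb 0)
  have h12 : (1 : ℝ) < 2 := by norm_num
  have h2 := norm_integral_le_of_norm_le (μ := volume) (f := fun ζ => (z - ζ)⁻¹ • ν ζ)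
    ((gg_integrable z₀ z R h12).mul_const M)
    (Filter.Eventually.of_forall fun ζ => by
      rw [norm_smul, norm_inv]
      by_cases h : ζ ∈ closedBall z₀ R
      · rw [inv_eq]
        exact mul_le_mul (le_gg zero_le_one h) (hb ζ) (norm_nonneg _) (gg_nonneg _ _ _ _ _)
      · rw [hs ζ h, norm_zero, mul_zero]
        exact mul_nonneg (gg_nonneg _ _ _ _ _) hM)
  rw [integral_mul_const, gg_integral z₀ z hR h12] at h2
  rw [cauchyT, norm_smul, norm_inv, Complex.norm_real, Real.norm_eq_abs, abs_of_pos Real.pi_pos]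
  calc Real.pi⁻¹ * ‖∫ ζ, (z - ζ)⁻¹ • ν ζ‖
      ≤ Real.pi⁻¹ * ((2 * Real.pi / (2 - 1) + Real.pi * R ^ 2) * M) :=
        mul_le_mul_of_nonneg_left h2 (inv_nonneg.2 Real.pi_pos.le)
    _ = (2 + R ^ 2) * M := by
        have := Real.pi_pos.ne'
        field_simp
        ring

/-- weighted bound -/
theorem norm_cauchyT_le_weight {ν : ℂ → V} {z₀ a : ℂ} {M R r : ℝ} (hR : 0 ≤ R) (hr : 0 < r)
    (hM : 0 ≤ M) (hν : AEStronglyMeasurable ν)
    (hb : ∀ ζ, r ≤ ‖ζ - a‖ → ‖ν ζ‖ ≤ M * (r / ‖ζ - a‖) ^ (1 / 2 : ℝ))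
    (hb' : ∀ ζ, ‖ζ - a‖ < r → ν ζ = 0)
    (hs : ∀ ζ ∉ closedBall z₀ R, ν ζ = 0) (z : ℂ) :
    ‖cauchyT ν z‖ ≤ (8 + 2 * R ^ 2) * M * r ^ (1 / 2 : ℝ) := by
  rw [cauchyT, mul_assoc]
  refine cauchyT_bound (z₀ := z₀) (p := a) (p' := z) hR (Filter.Eventually.of_forall fun ζ => ?_)
  have hr2 : 0 ≤ r ^ (1 / 2 : ℝ) := Real.rpow_nonneg hr.le _
  have hpos : 0 ≤ M * r ^ (1 / 2 : ℝ) *
      (gg z₀ a R (3 / 2) ζ + gg z₀ z R (3 / 2) ζ) :=
    mul_nonneg (mul_nonneg hM hr2) (add_nonneg (gg_nonneg _ _ _ _ _) (gg_nonneg _ _ _ _ _))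
  by_cases h : ζ ∈ closedBall z₀ R
  · rcases lt_or_ge ‖ζ - a‖ r with h1 | h1
    · rw [hb' ζ h1, smul_zero, norm_zero]
      exact hpos
    · rcases eq_or_ne z ζ with h2 | h2
      · rw [h2, sub_self, inv_zero, zero_smul, norm_zero]
        rw [← h2] at hpos ⊢
        exact hpos
      · have hx : 0 < ‖ζ - a‖ := lt_of_lt_of_le hr h1
        have hy : 0 < ‖ζ - z‖ := norm_pos_iff.2 (sub_ne_zero.2 h2.symm)
        rw [norm_smul, norm_inv, norm_sub_rev z ζ]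
        have h3 := hb ζ h1
        rw [Real.div_rpow hr.le hx.le] at h3
        have h4 : r ^ (1 / 2 : ℝ) / ‖ζ - a‖ ^ (1 / 2 : ℝ) =
            r ^ (1 / 2 : ℝ) * ‖ζ - a‖ ^ (-(1 / 2) : ℝ) := by
          rw [Real.rpow_neg hx.le, div_eq_mul_inv]
        rw [h4] at h3
        calc ‖ζ - z‖⁻¹ * ‖ν ζ‖
            ≤ ‖ζ - z‖⁻¹ * (M * (r ^ (1 / 2 : ℝ) * ‖ζ - a‖ ^ (-(1 / 2) : ℝ))) :=
              mul_le_mul_of_nonneg_left h3 (inv_nonneg.2 hy.le)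
          _ = M * r ^ (1 / 2 : ℝ) * (‖ζ - z‖⁻¹ * ‖ζ - a‖ ^ (-(1 / 2) : ℝ)) := by ring
          _ ≤ M * r ^ (1 / 2 : ℝ) * (‖ζ - a‖ ^ (-(3 / 2) : ℝ) + ‖ζ - z‖ ^ (-(3 / 2) : ℝ)) :=
              mul_le_mul_of_nonneg_left (elem1 hx hy) (mul_nonneg hM hr2)
          _ ≤ _ := by
              apply mul_le_mul_of_nonneg_left _ (mul_nonneg hM hr2)
              exact add_le_add (le_gg (by norm_num) h) (le_gg (by norm_num) h)
  · rw [hs ζ h, smul_zero, norm_zero]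
    exact hpos

/-- Hoelder continuity -/
theorem cauchyT_holder {ν : ℂ → V} {z₀ : ℂ} {M R : ℝ} (hR : 0 ≤ R) (hν : AEStronglyMeasurable ν)
    (hb : ∀ ζ, ‖ν ζ‖ ≤ M) (hs : ∀ ζ ∉ closedBall z₀ R, ν ζ = 0) (z z' : ℂ) :
    ‖cauchyT ν z - cauchyT ν z'‖ ≤ (8 + 2 * R ^ 2) * M * ‖z - z'‖ ^ (1 / 2 : ℝ) := by
  have hM : 0 ≤ M := (norm_nonneg _).trans (hb 0)
  rw [cauchyT, cauchyT, ← smul_sub, ← integral_sub (cauchy_integrable hν hb hs z)
    (cauchy_integrable hν hb hs z'), mul_assoc]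
  refine cauchyT_bound (z₀ := z₀) (p := z) (p' := z') hR ?_
  have hae : ∀ᵐ ζ : ℂ, ζ ∉ ({z, z'} : Set ℂ) := by
    have : (volume : Measure ℂ) {z, z'} = 0 := (Set.toFinite _).measure_zero _
    exact measure_eq_zero_iff_ae_notMem.1 this
  filter_upwards [hae] with ζ hζ
  simp only [mem_insert_iff, mem_singleton_iff, not_or] at hζ
  have hD : 0 ≤ ‖z - z'‖ ^ (1 / 2 : ℝ) := Real.rpow_nonneg (norm_nonneg _) _
  have hpos : 0 ≤ M * ‖z - z'‖ ^ (1 / 2 : ℝ) *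
      (gg z₀ z R (3 / 2) ζ + gg z₀ z' R (3 / 2) ζ) :=
    mul_nonneg (mul_nonneg hM hD) (add_nonneg (gg_nonneg _ _ _ _ _) (gg_nonneg _ _ _ _ _))
  by_cases h : ζ ∈ closedBall z₀ R
  · have hx : 0 < ‖ζ - z‖ := norm_pos_iff.2 (sub_ne_zero.2 hζ.1)
    have hy : 0 < ‖ζ - z'‖ := norm_pos_iff.2 (sub_ne_zero.2 hζ.2)
    rw [← sub_smul, norm_smul]
    have h1 : (z - ζ)⁻¹ - (z' - ζ)⁻¹ = (z' - z) * ((z - ζ)⁻¹ * (z' - ζ)⁻¹) := by
      have e1 : z - ζ ≠ 0 := sub_ne_zero.2 (Ne.symm hζ.1)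
      have e2 : z' - ζ ≠ 0 := sub_ne_zero.2 (Ne.symm hζ.2)
      field_simp
      ring
    rw [h1, norm_mul, norm_mul, norm_inv, norm_inv, norm_sub_rev z ζ, norm_sub_rev z' ζ,
      norm_sub_rev z' z]
    set x := ‖ζ - z‖ with hxd
    set y := ‖ζ - z'‖ with hyd
    set d := ‖z - z'‖ with hdd
    have hd0 : 0 ≤ d := norm_nonneg _
    have hdxy : d ≤ x + y := by
      have : z - z' = (ζ - z') - (ζ - z) := by ring
      rw [hdd, this]
      refine (norm_sub_le _ _).trans (le_of_eq ?_)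
      rw [← hxd, ← hyd]
      ring
    have hd2 : d = d ^ (1 / 2 : ℝ) * d ^ (1 / 2 : ℝ) := by
      rw [← Real.sqrt_eq_rpow, Real.mul_self_sqrt hd0]
    have hd3 : d ^ (1 / 2 : ℝ) ≤ x ^ (1 / 2 : ℝ) + y ^ (1 / 2 : ℝ) := by
      rw [← Real.sqrt_eq_rpow, ← Real.sqrt_eq_rpow, ← Real.sqrt_eq_rpow]
      refine (Real.sqrt_le_sqrt hdxy).trans ?_
      rw [Real.sqrt_le_left (by positivity)]
      nlinarith [Real.sq_sqrt hx.le, Real.sq_sqrt hy.le, Real.sqrt_nonneg x, Real.sqrt_nonneg y,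
        mul_nonneg (Real.sqrt_nonneg x) (Real.sqrt_nonneg y)]
    have hsx : x ^ (1 / 2 : ℝ) * x⁻¹ = x ^ (-(1 / 2) : ℝ) := by
      rw [← Real.rpow_neg_one, ← Real.rpow_add hx]
      norm_num
    have hsy : y ^ (1 / 2 : ℝ) * y⁻¹ = y ^ (-(1 / 2) : ℝ) := by
      rw [← Real.rpow_neg_one, ← Real.rpow_add hy]
      norm_num
    have hmain : d * (x⁻¹ * y⁻¹) ≤ d ^ (1 / 2 : ℝ) *
        (x ^ (-(3 / 2) : ℝ) + y ^ (-(3 / 2) : ℝ)) := by
      calc d * (x⁻¹ * y⁻¹) = d ^ (1 / 2 : ℝ) * (d ^ (1 / 2 : ℝ) * (x⁻¹ * y⁻¹)) := by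
            rw [← mul_assoc (d ^ (1 / 2 : ℝ)) (d ^ (1 / 2 : ℝ)), ← hd2]
        _ ≤ d ^ (1 / 2 : ℝ) * ((x ^ (1 / 2 : ℝ) + y ^ (1 / 2 : ℝ)) * (x⁻¹ * y⁻¹)) := by
            apply mul_le_mul_of_nonneg_left _ hD
            exact mul_le_mul_of_nonneg_right hd3 (by positivity)
        _ = d ^ (1 / 2 : ℝ) * (x⁻¹ * (y ^ (1 / 2 : ℝ) * y⁻¹) +
              y⁻¹ * (x ^ (1 / 2 : ℝ) * x⁻¹)) := by ring
        _ ≤ _ := by
            rw [hsx, hsy]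
            exact mul_le_mul_of_nonneg_left (elem2 hx hy) hD
    calc d * (x⁻¹ * y⁻¹) * ‖ν ζ‖ ≤ (d ^ (1 / 2 : ℝ) *
          (x ^ (-(3 / 2) : ℝ) + y ^ (-(3 / 2) : ℝ))) * M :=
          mul_le_mul hmain (hb ζ) (norm_nonneg _) (by positivity)
      _ = M * d ^ (1 / 2 : ℝ) * (x ^ (-(3 / 2) : ℝ) + y ^ (-(3 / 2) : ℝ)) := by ring
      _ ≤ _ := by
          apply mul_le_mul_of_nonneg_left _ (mul_nonneg hM hD)
          exact add_le_add (le_gg (by norm_num) h) (le_gg (by norm_num) h)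
  · rw [hs ζ h, smul_zero, smul_zero, sub_zero, norm_zero]
    exact hpos

theorem cauchyT_continuous {ν : ℂ → V} {z₀ : ℂ} {M R : ℝ} (hR : 0 ≤ R)
    (hν : AEStronglyMeasurable ν)
    (hb : ∀ ζ, ‖ν ζ‖ ≤ M) (hs : ∀ ζ ∉ closedBall z₀ R, ν ζ = 0) :
    Continuous (cauchyT ν) := by
  rw [continuous_iff_continuousAt]
  intro z
  rw [ContinuousAt, tendsto_iff_norm_sub_tendsto_zero]
  have h0 : Filter.Tendsto (fun w : ℂ => (8 + 2 * R ^ 2) * M * ‖w - z‖ ^ (1 / 2 : ℝ)) (nhds z)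
      (nhds 0) := by
    have : Continuous (fun w : ℂ => (8 + 2 * R ^ 2) * M * ‖w - z‖ ^ (1 / 2 : ℝ)) :=
      continuous_const.mul ((continuous_id.sub continuous_const).norm.rpow_const
        (fun _ => Or.inr (by norm_num)))
    have h1 := this.tendsto z
    simp only [sub_self, norm_zero] at h1
    rw [Real.zero_rpow (by norm_num), mul_zero] at h1
    exact h1
  exact squeeze_zero (fun _ => norm_nonneg _) (fun w => cauchyT_holder hR hν hb hs w z) h0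

/-- linearity -/
theorem cauchyT_add {ν ν' : ℂ → V} {z : ℂ} (h : Integrable (fun ζ => (z - ζ)⁻¹ • ν ζ))
    (h' : Integrable (fun ζ => (z - ζ)⁻¹ • ν' ζ)) :
    cauchyT (fun ζ => ν ζ + ν' ζ) z = cauchyT ν z + cauchyT ν' z := by
  simp only [cauchyT, smul_add]
  rw [integral_add h h', smul_add]

theorem cauchyT_sub {ν ν' : ℂ → V} {z : ℂ} (h : Integrable (fun ζ => (z - ζ)⁻¹ • ν ζ))
    (h' : Integrable (fun ζ => (z - ζ)⁻¹ • ν' ζ)) :
    cauchyT (fun ζ => ν ζ - ν' ζ) z = cauchyT ν z - cauchyT ν' z := by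
  simp only [cauchyT, smul_sub]
  rw [integral_sub h h', smul_sub]

theorem cauchyT_fst {ν : ℂ → ℂ × ℂ} {z : ℂ} (h : Integrable (fun ζ => (z - ζ)⁻¹ • ν ζ)) :
    (cauchyT ν z).1 = cauchyT (fun ζ => (ν ζ).1) z := by
  have h1 := (ContinuousLinearMap.fst ℂ ℂ ℂ).integral_comp_comm h
  simp only [cauchyT, Prod.smul_fst]
  congr 1
  exact h1.symm

theorem cauchyT_snd {ν : ℂ → ℂ × ℂ} {z : ℂ} (h : Integrable (fun ζ => (z - ζ)⁻¹ • ν ζ)) :
    (cauchyT ν z).2 = cauchyT (fun ζ => (ν ζ).2) z := by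
  have h1 := (ContinuousLinearMap.snd ℂ ℂ ℂ).integral_comp_comm h
  simp only [cauchyT, Prod.smul_snd]
  congr 1
  exact h1.symm

end

end Pool.Agent.MP_49383f_gt
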