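import Pool.Agent.MP_49383f_gt.Basic

/-!
# MP_49383f_gt, module M01: radial integrals
-/

namespace Pool.Agent.MP_49383f_gt

open MeasureTheory Metric Set

namespace CauchyInt

/-- the radial profile -/
noncomputable def prof (R α : ℝ) : ℝ → ℝ := (Iic R).indicator (fun y => y ^ (-α))

lemma indicator_eq (p : ℂ) (R α : ℝ) :
    (closedBall p R).indicator (fun ζ : ℂ => ‖ζ - p‖ ^ (-α)) = fun ζ => prof R α ‖ζ - p‖ := by
  funext ζ
  simp only [prof, indicator, mem_closedBall, mem_Iic, dist_eq_norm]

lemma mul_prof (R α : ℝ) :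
    EqOn (fun y : ℝ => y ^ (Module.finrank ℝ ℂ - 1) • prof R α y)
      ((Iic R).indicator (fun y => y ^ (1 - α))) (Ioi 0) := by
  intro y hy
  have hy' : (0 : ℝ) < y := hy
  simp only [prof, indicator, Complex.finrank_real_complex, mem_Iic, smul_eq_mul]
  split_ifs with h
  · rw [show (2 - 1 : ℕ) = 1 by norm_num, pow_one, show (1 - α : ℝ) = 1 + (-α) by ring,
      Real.rpow_add hy', Real.rpow_one]
  · rw [mul_zero]

lemma integrableOn_rpow {R α : ℝ} (hα : α < 2) :
    IntegrableOn (fun y : ℝ => y ^ (1 - α)) (Ioc 0 R) := by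
  rcases le_or_gt 0 R with hR | hR
  · have := intervalIntegral.intervalIntegrable_rpow' (a := 0) (b := R) (r := 1 - α) (by linarith)
    rwa [intervalIntegrable_iff_integrableOn_Ioc_of_le hR] at this
  · rw [Ioc_eq_empty (by linarith)]
    exact integrableOn_empty

lemma integrable_prof {R α : ℝ} (hα : α < 2) : Integrable (fun ζ : ℂ => prof R α ‖ζ‖) := by
  rw [integrable_fun_norm_addHaar (μ := (volume : Measure ℂ)) (f := prof R α)]
  refine (integrableOn_congr_fun (mul_prof R α) measurableSet_Ioi).2 ?_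
  rw [integrableOn_indicator_iff measurableSet_Iic, inter_comm, Ioi_inter_Iic]
  exact integrableOn_rpow hα

end CauchyInt

open CauchyInt

theorem integrableOn_rpow_norm (p : ℂ) (R : ℝ) {α : ℝ} (hα : α < 2) :
    IntegrableOn (fun ζ : ℂ => ‖ζ - p‖ ^ (-α)) (closedBall p R) := by
  rw [← integrable_indicator_iff measurableSet_closedBall, indicator_eq]
  exact (integrable_prof (R := R) hα).comp_sub_right p

theorem setIntegral_rpow_norm (p : ℂ) {R : ℝ} (hR : 0 ≤ R) {α : ℝ} (hα : α < 2) :
    ∫ ζ in closedBall p R, ‖ζ - p‖ ^ (-α) = 2 * Real.pi * R ^ (2 - α) / (2 - α) := by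
  rw [← integral_indicator measurableSet_closedBall, indicator_eq,
    integral_sub_right_eq_self (fun ζ : ℂ => prof R α ‖ζ‖) p,
    integral_fun_norm_addHaar (volume : Measure ℂ) (prof R α),
    setIntegral_congr_fun measurableSet_Ioi (mul_prof R α),
    setIntegral_indicator measurableSet_Iic, Ioi_inter_Iic,
    ← intervalIntegral.integral_of_le hR, integral_rpow (Or.inl (by linarith))]
  have h1 : (volume : Measure ℂ).real (ball 0 1) = Real.pi := by
    simp [Measure.real, Complex.volume_ball]
  rw [h1, Complex.finrank_real_complex, Real.zero_rpow (by linarith),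
    show (1 - α + 1 : ℝ) = 2 - α by ring]
  simp only [nsmul_eq_mul, smul_eq_mul, sub_zero, Nat.cast_ofNat]
  ring

end Pool.Agent.MP_49383f_gt
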