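import Pool.Agent.MP_49383f_gt.CauchyInt

/-!
# MP_49383f_gt, module M03: the Cauchy transform of the indicator of a disc
-/

namespace Pool.Agent.MP_49383f_gt

open scoped ContDiff ComplexConjugate
open MeasureTheory Metric Set

namespace DiscFormula

/-- the angular integral -/
theorem angular (u : ℂ) {s : ℝ} (hs : 0 < s) (hne : s ≠ ‖u‖) :
    ∫ θ in (0 : ℝ)..2 * Real.pi, (u - circleMap 0 s θ)⁻¹ =
      if s < ‖u‖ then 2 * Real.pi / u else 0 := by
  have h1 : ∫ θ in (0 : ℝ)..2 * Real.pi, (u - circleMap 0 s θ)⁻¹ =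
      ∮ w in C(0, s), (Complex.I * w)⁻¹ * (u - w)⁻¹ := by
    rw [circleIntegral]
    refine intervalIntegral.integral_congr fun θ _ => ?_
    have hne' : circleMap 0 s θ ≠ 0 := circleMap_ne_center hs.ne'
    simp only [deriv_circleMap, smul_eq_mul]
    have hI := Complex.I_ne_zero
    rw [mul_inv]
    field_simp
  rw [h1]
  have h2 : ∮ w in C(0, s), (Complex.I * w)⁻¹ * (u - w)⁻¹ =
      Complex.I⁻¹ * ∮ w in C(0, s), w⁻¹ * (u - w)⁻¹ := by
    rw [← circleIntegral.integral_const_mul]
    refine circleIntegral.integral_congr hs.le fun w _ => ?_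
    simp only [mul_inv]
    ring
  rw [h2]
  have hI := Complex.I_ne_zero
  split_ifs with h
  · have hu : u ≠ 0 := by
      rintro rfl
      rw [norm_zero] at h
      linarith
    have hd : DifferentiableOn ℂ (fun w : ℂ => (u - w)⁻¹) (closedBall 0 s) := by
      intro w hw
      have hw' : u - w ≠ 0 := by
        intro h'
        rw [mem_closedBall, dist_zero_right] at hw
        rw [sub_eq_zero.1 h'] at h
        linarith
      exact (((hasDerivAt_id w).const_sub u).fun_inv hw').differentiableAt.differentiableWithinAt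
    have h3 : ∮ w in C(0, s), w⁻¹ * (u - w)⁻¹ = (2 * Real.pi * Complex.I) * (u - 0)⁻¹ := by
      have h4 := (hd.diffContOnCl_ball (Subset.refl _)).circleIntegral_sub_inv_smul
        (mem_ball_self hs)
      simpa [smul_eq_mul] using h4
    rw [h3, sub_zero]
    field_simp
  · have hlt : ‖u‖ < s := lt_of_le_of_ne (not_lt.1 h) hne.symm
    have h3 : ∮ w in C(0, s), w⁻¹ * (u - w)⁻¹ = 0 := by
      rcases eq_or_ne u 0 with rfl | hu
      · have h4 : ∮ w in C((0 : ℂ), s), w⁻¹ * (0 - w)⁻¹ =
            ∮ w in C((0 : ℂ), s), (-1 : ℂ) * (w - 0) ^ (-2 : ℤ) := by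
          refine circleIntegral.integral_congr hs.le fun w hw => ?_
          have hw' : w ≠ 0 := by
            rintro rfl
            rw [mem_sphere, dist_self] at hw
            linarith
          have e : w ^ (-2 : ℤ) = (w ^ 2)⁻¹ := by
            rw [zpow_neg]; norm_cast
          simp only [zero_sub, sub_zero]
          rw [e, inv_neg]
          field_simp
        rw [h4, circleIntegral.integral_const_mul,
          circleIntegral.integral_sub_zpow_of_ne (by norm_num), mul_zero]
      · have h4 : ∮ w in C((0 : ℂ), s), w⁻¹ * (u - w)⁻¹ =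
            ∮ w in C((0 : ℂ), s), u⁻¹ * ((w - 0)⁻¹ - (w - u)⁻¹) := by
          refine circleIntegral.integral_congr hs.le fun w hw => ?_
          rw [mem_sphere, dist_zero_right] at hw
          have hw' : w ≠ 0 := by
            rintro rfl
            rw [norm_zero] at hw
            linarith
          have hw'' : w - u ≠ 0 := by
            intro h'
            rw [sub_eq_zero.1 h'] at hw
            linarith
          have hw3 : u - w ≠ 0 := by
            intro h'
            exact hw'' (by rw [← neg_sub, h', neg_zero])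
          simp only [sub_zero]
          field_simp
          ring
        have i1 : CircleIntegrable (fun w : ℂ => (w - 0)⁻¹) 0 s := by
          rw [circleIntegrable_sub_inv_iff]
          right
          rw [mem_sphere, dist_self, abs_of_pos hs]
          exact hs.ne
        have i2 : CircleIntegrable (fun w : ℂ => (w - u)⁻¹) 0 s := by
          rw [circleIntegrable_sub_inv_iff]
          right
          rw [mem_sphere, dist_zero_right, abs_of_pos hs]
          exact hne.symm
        rw [h4, circleIntegral.integral_const_mul, circleIntegral.integral_sub i1 i2,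
          circleIntegral.integral_sub_inv_of_mem_ball (mem_ball_self hs),
          circleIntegral.integral_sub_inv_of_mem_ball (by rwa [mem_ball, dist_zero_right]),
          sub_self, mul_zero]
    rw [h3, mul_zero]

/-- the angular integral over `(-π, π)` -/
theorem angular' (u : ℂ) {s : ℝ} (hs : 0 < s) (hne : s ≠ ‖u‖) :
    ∫ θ in Ioo (-Real.pi) Real.pi, (u - circleMap 0 s θ)⁻¹ =
      if s < ‖u‖ then 2 * Real.pi / u else 0 := by
  rw [← angular u hs hne, ← integral_Ioc_eq_integral_Ioo,
    ← intervalIntegral.integral_of_le (by linarith [Real.pi_pos])]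
  have hp : Function.Periodic (fun θ => (u - circleMap 0 s θ)⁻¹) (2 * Real.pi) := by
    intro θ
    simp only
    rw [periodic_circleMap 0 s θ]
  have := hp.intervalIntegral_add_eq (-Real.pi) 0
  rw [zero_add] at this
  rw [← this]
  congr 1
  ring

/-- integrability in polar coordinates -/
theorem integrableOn_polar {f : ℂ → ℂ} (hfm : Measurable f) (hf : Integrable f) :
    IntegrableOn (fun p : ℝ × ℝ => p.1 • f (Complex.polarCoord.symm p)) polarCoord.target := by
  have hm : Measurable (fun p : ℝ × ℝ => Complex.polarCoord.symm p) := by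
    have : (fun p : ℝ × ℝ => Complex.polarCoord.symm p) =
        fun p : ℝ × ℝ => (p.1 : ℂ) * (Real.cos p.2 + Real.sin p.2 * Complex.I) := by
      funext p
      rw [Complex.polarCoord_symm_apply]
    rw [this]
    fun_prop
  refine ⟨(measurable_fst.smul (hfm.comp hm)).aestronglyMeasurable, ?_⟩
  rw [hasFiniteIntegral_iff_enorm]
  have h1 := Complex.lintegral_comp_polarCoord_symm (fun w => ‖f w‖ₑ)
  have h2 : ∫⁻ p in polarCoord.target, ‖p.1 • f (Complex.polarCoord.symm p)‖ₑ =
      ∫⁻ p in polarCoord.target, ENNReal.ofReal p.1 • ‖f (Complex.polarCoord.symm p)‖ₑ := by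
    refine setLIntegral_congr_fun polarCoord.open_target.measurableSet fun p hp => ?_
    have hp1 : 0 < p.1 := hp.1
    rw [enorm_smul, Real.enorm_eq_ofReal hp1.le, smul_eq_mul]
  rw [h2, h1]
  exact hf.hasFiniteIntegral

/-- the integral over a centred disc, given integrability -/
theorem disc (u : ℂ) {R : ℝ} (hR : 0 < R)
    (hint : Integrable ((ball (0 : ℂ) R).indicator (fun w => (u - w)⁻¹))) :
    ∫ w, (ball (0 : ℂ) R).indicator (fun w => (u - w)⁻¹) w =
      Real.pi * (if ‖u‖ ≤ R then conj u else (R : ℂ) ^ 2 / u) := by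
  have hfm : Measurable ((ball (0 : ℂ) R).indicator (fun w : ℂ => (u - w)⁻¹)) :=
    ((measurable_const.sub measurable_id).inv).indicator measurableSet_ball
  rw [← Complex.integral_comp_polarCoord_symm]
  have hi := integrableOn_polar hfm hint
  rw [show polarCoord.target = Ioi (0 : ℝ) ×ˢ Ioo (-Real.pi) Real.pi from rfl] at hi ⊢
  rw [Measure.volume_eq_prod, setIntegral_prod _ (by rwa [Measure.volume_eq_prod] at hi)]
  have hsymm : ∀ s θ : ℝ, Complex.polarCoord.symm (s, θ) = circleMap 0 s θ := by
    intro s θ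
    rw [Complex.polarCoord_symm_apply, circleMap_zero, Complex.exp_mul_I]
    push_cast
    ring
  have h1 : ∀ s ∈ Ioi (0 : ℝ), s ≠ ‖u‖ → ∫ θ in Ioo (-Real.pi) Real.pi,
      (s, θ).1 • (ball (0 : ℂ) R).indicator (fun w => (u - w)⁻¹) (Complex.polarCoord.symm (s, θ)) =
      (Iio (min R ‖u‖)).indicator (fun s : ℝ => (s : ℂ) * (2 * Real.pi / u)) s := by
    intro s hs hne
    have hs' : 0 < s := hs
    have h2 : ∀ θ : ℝ, (ball (0 : ℂ) R).indicator (fun w => (u - w)⁻¹)
        (Complex.polarCoord.symm (s, θ)) = if s < R then (u - circleMap 0 s θ)⁻¹ else 0 := by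
      intro θ
      have hmem : circleMap 0 s θ ∈ ball (0 : ℂ) R ↔ s < R := by
        rw [mem_ball, dist_zero_right, norm_circleMap_zero, abs_of_pos hs']
      rw [hsymm]
      by_cases hsR : s < R
      · rw [indicator_of_mem (hmem.2 hsR), if_pos hsR]
      · rw [indicator_of_notMem (fun h => hsR (hmem.1 h)), if_neg hsR]
    simp only [h2]
    rw [integral_smul]
    by_cases hsR : s < R
    · simp only [hsR, if_true]
      rw [angular' u hs' hne, indicator_apply]
      by_cases hsu : s < ‖u‖
      · rw [if_pos hsu, if_pos (by rw [mem_Iio]; exact lt_min hsR hsu), Complex.real_smul]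
      · rw [if_neg hsu, if_neg (by rw [mem_Iio, lt_min_iff]; tauto), smul_zero]
    · simp only [hsR, if_false]
      rw [integral_zero, smul_zero, indicator_apply, if_neg (by rw [mem_Iio, lt_min_iff]; tauto)]
  have h2 : ∫ s in Ioi (0 : ℝ), ∫ θ in Ioo (-Real.pi) Real.pi,
      (s, θ).1 • (ball (0 : ℂ) R).indicator (fun w => (u - w)⁻¹) (Complex.polarCoord.symm (s, θ)) =
      ∫ s in Ioi (0 : ℝ), (Iio (min R ‖u‖)).indicator
        (fun s : ℝ => (s : ℂ) * (2 * Real.pi / u)) s := by
    refine setIntegral_congr_ae measurableSet_Ioi ?_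
    have hnull : ∀ᵐ s : ℝ, s ≠ ‖u‖ := by
      rw [ae_iff]
      simp
    filter_upwards [hnull] with s hs hs'
    exact h1 s hs' hs
  rw [h2, setIntegral_indicator measurableSet_Iio]
  have h3 : Ioi (0 : ℝ) ∩ Iio (min R ‖u‖) = Ioo 0 (min R ‖u‖) := rfl
  have hmin : 0 ≤ min R ‖u‖ := le_min hR.le (norm_nonneg u)
  rw [h3, ← integral_Ioc_eq_integral_Ioo, ← intervalIntegral.integral_of_le hmin,
    intervalIntegral.integral_mul_const]
  have h4 : ∫ s in (0 : ℝ)..min R ‖u‖, (s : ℂ) = ((min R ‖u‖ ^ 2 / 2 : ℝ) : ℂ) := by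
    rw [intervalIntegral.integral_ofReal, integral_id]
    simp
  rw [h4]
  rcases eq_or_ne u 0 with rfl | hu
  · simp
  have hu2 : u * conj u = ((‖u‖ ^ 2 : ℝ) : ℂ) := by
    rw [Complex.mul_conj, Complex.normSq_eq_norm_sq]
  split_ifs with h
  · rw [min_eq_right h]
    push_cast
    push_cast at hu2
    rw [← hu2]
    field_simp
  · rw [min_eq_left (not_le.1 h).le]
    push_cast
    field_simp

theorem integrable_disc (u : ℂ) (R : ℝ) :
    Integrable ((ball (0 : ℂ) R).indicator (fun w => (u - w)⁻¹)) := by
  rw [integrable_indicator_iff measurableSet_ball]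
  have h1 := (integrableOn_rpow_norm u (R + ‖u‖) (α := 1) (by norm_num)).mono_set
    (show ball (0 : ℂ) R ⊆ closedBall u (R + ‖u‖) from fun w hw => by
      rw [mem_ball, dist_zero_right] at hw
      rw [mem_closedBall, dist_eq_norm]
      linarith [norm_sub_le w u])
  refine Integrable.mono' h1 (measurable_const.sub measurable_id).inv.aestronglyMeasurable ?_
  refine Filter.Eventually.of_forall fun w => ?_
  rw [norm_inv, Real.rpow_neg_one, norm_sub_rev]

end DiscFormula

section
variable {V : Type*} [NormedAddCommGroup V] [NormedSpace ℂ V] [CompleteSpace V]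

/-- The Cauchy transform of the indicator of a disc. -/
theorem cauchyT_indicator_ball (p : ℂ) {R : ℝ} (hR : 0 < R) (v : V) (z : ℂ) :
    cauchyT ((ball p R).indicator (fun _ => v)) z =
      (if ‖z - p‖ ≤ R then conj (z - p) else (R : ℂ) ^ 2 / (z - p)) • v := by
  have h1 : ∀ ζ : ℂ, (z - ζ)⁻¹ • (ball p R).indicator (fun _ => v) ζ =
      ((ball (0 : ℂ) R).indicator (fun w => (z - p - w)⁻¹) (ζ - p)) • v := by
    intro ζ
    by_cases h : ζ ∈ ball p R
    · have h' : ζ - p ∈ ball (0 : ℂ) R := by
        rw [mem_ball, dist_zero_right, ← dist_eq_norm]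
        exact h
      rw [indicator_of_mem h, indicator_of_mem h', sub_sub_sub_cancel_right]
    · have h' : ζ - p ∉ ball (0 : ℂ) R := by
        rw [mem_ball, dist_zero_right, ← dist_eq_norm]
        exact h
      rw [indicator_of_notMem h, indicator_of_notMem h', smul_zero, zero_smul]
  rw [cauchyT]
  simp only [h1]
  rw [integral_smul_const, integral_sub_right_eq_self
    (fun w => (ball (0 : ℂ) R).indicator (fun w => (z - p - w)⁻¹) w) p,
    DiscFormula.disc (z - p) hR (DiscFormula.integrable_disc _ _), smul_smul, ← mul_assoc,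
    inv_mul_cancel₀ (by exact_mod_cast Real.pi_ne_zero), one_mul]

end

end Pool.Agent.MP_49383f_gt
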