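import Pool.Agent.MP_49383f_gt.Basic
import Pool.Agent.MP_49383f_gt.CauchyInt
import Pool.Agent.MP_49383f_gt.DiscFormula

/-!
# Module M05: the Cauchy transform of a Hoelder function is `C¹`
-/

namespace Pool.Agent.MP_49383f_gt

open scoped ContDiff ComplexConjugate Topology
open MeasureTheory Metric Set Filter

namespace CauchyC1

variable {V : Type*} [NormedAddCommGroup V] [NormedSpace ℂ V] [CompleteSpace V]

/-- the coefficient of `dz` -/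
noncomputable def DD1 (g : ℂ → V) (ρ : ℝ) (z : ℂ) : V :=
  -((Real.pi : ℂ)⁻¹ • ∫ w in ball (0 : ℂ) ρ, (w ^ 2)⁻¹ • (g (z - w) - g z))

/-- the derivative -/
noncomputable def TT1 (g : ℂ → V) (ρ : ℝ) (z : ℂ) : ℂ →L[ℝ] V :=
  (ContinuousLinearMap.id ℝ ℂ).smulRight (DD1 g ρ z) +
    (Complex.conjCLE : ℂ →L[ℝ] ℂ).smulRight (g z)

theorem TT1_apply (g : ℂ → V) (ρ : ℝ) (z u : ℂ) :
    TT1 g ρ z u = u • DD1 g ρ z + conj u • g z := by
  simp [TT1]

theorem L_nonneg {g : ℂ → V} {L : ℝ} (hg : ∀ z w, ‖g z - g w‖ ≤ L * ‖z - w‖ ^ (1 / 2 : ℝ)) :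
    0 ≤ L := by
  have := hg 1 0
  simp at this
  exact le_trans (norm_nonneg _) this

theorem continuous_of_holder {g : ℂ → V} {L : ℝ}
    (hg : ∀ z w, ‖g z - g w‖ ≤ L * ‖z - w‖ ^ (1 / 2 : ℝ)) : Continuous g := by
  rw [continuous_iff_continuousAt]
  intro z
  rw [ContinuousAt, tendsto_iff_norm_sub_tendsto_zero]
  have h1 : Tendsto (fun w : ℂ => L * ‖w - z‖ ^ (1 / 2 : ℝ)) (𝓝 z) (𝓝 0) := by
    have : Continuous (fun w : ℂ => L * ‖w - z‖ ^ (1 / 2 : ℝ)) := by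
      refine continuous_const.mul ?_
      exact (continuous_norm.comp (continuous_id.sub continuous_const)).rpow_const
        (fun _ => Or.inr (by norm_num))
    have h2 := this.tendsto z
    simpa using h2
  exact squeeze_zero (fun _ => norm_nonneg _) (fun w => hg w z) h1

theorem integrableOn_ball (p : ℂ) (ρ : ℝ) {α : ℝ} (hα : α < 2) :
    IntegrableOn (fun ζ : ℂ => ‖ζ - p‖ ^ (-α)) (ball (0 : ℂ) ρ) := by
  refine (integrableOn_rpow_norm p (ρ + ‖p‖) hα).mono_set ?_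
  intro w hw
  rw [mem_ball_zero_iff] at hw
  rw [mem_closedBall, dist_eq_norm]
  calc ‖w - p‖ ≤ ‖w‖ + ‖p‖ := norm_sub_le _ _
    _ ≤ ρ + ‖p‖ := by linarith

theorem integral_ball_le (p : ℂ) {ρ : ℝ} (hρ : 0 ≤ ρ) {α : ℝ} (hα : α < 2) (hp : ‖p‖ ≤ 1) :
    ∫ ζ in ball (0 : ℂ) ρ, ‖ζ - p‖ ^ (-α) ≤ 2 * Real.pi * (ρ + 1) ^ (2 - α) / (2 - α) := by
  rw [← setIntegral_rpow_norm p (by linarith : (0 : ℝ) ≤ ρ + 1) hα]
  refine setIntegral_mono_set (integrableOn_rpow_norm p (ρ + 1) hα) ?_ ?_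
  · exact Eventually.of_forall fun ζ => Real.rpow_nonneg (norm_nonneg _) _
  · refine LE.le.eventuallyLE ?_
    intro w hw
    rw [mem_ball_zero_iff] at hw
    rw [mem_closedBall, dist_eq_norm]
    calc ‖w - p‖ ≤ ‖w‖ + ‖p‖ := norm_sub_le _ _
      _ ≤ ρ + 1 := by linarith

theorem prod_le {x y a b : ℝ} (hx : 0 < x) (hy : 0 < y) (ha : 0 ≤ a) (hb : 0 ≤ b) :
    x ^ (-a) * y ^ (-b) ≤ x ^ (-(a + b)) + y ^ (-(a + b)) := by
  rcases le_total x y with h | h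
  · have h1 : y ^ (-b) ≤ x ^ (-b) := Real.rpow_le_rpow_of_nonpos hx h (by linarith)
    have h2 : x ^ (-a) * y ^ (-b) ≤ x ^ (-a) * x ^ (-b) :=
      mul_le_mul_of_nonneg_left h1 (Real.rpow_nonneg hx.le _)
    rw [← Real.rpow_add hx] at h2
    have h3 : 0 ≤ y ^ (-(a + b)) := Real.rpow_nonneg hy.le _
    have h4 : -a + -b = -(a + b) := by ring
    rw [h4] at h2
    linarith
  · have h1 : x ^ (-a) ≤ y ^ (-a) := Real.rpow_le_rpow_of_nonpos hy h (by linarith)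
    have h2 : x ^ (-a) * y ^ (-b) ≤ y ^ (-a) * y ^ (-b) :=
      mul_le_mul_of_nonneg_right h1 (Real.rpow_nonneg hy.le _)
    rw [← Real.rpow_add hy] at h2
    have h3 : 0 ≤ x ^ (-(a + b)) := Real.rpow_nonneg hx.le _
    have h4 : -a + -b = -(a + b) := by ring
    rw [h4] at h2
    linarith

/-- the pointwise bound of the remainder kernel -/
theorem kernel_le {w h : ℂ} (hw : w ≠ 0) (hwh : w + h ≠ 0) :
    ‖h‖ ^ 2 * (‖w + h‖⁻¹ * (‖w‖ ^ 2)⁻¹) * ‖w‖ ^ (1 / 2 : ℝ) ≤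
      2 * ‖h‖ ^ (5 / 4 : ℝ) * (‖w‖ ^ (-(7 / 4) : ℝ) + ‖w + h‖ ^ (-(7 / 4) : ℝ)) := by
  have hx : 0 < ‖w‖ := norm_pos_iff.2 hw
  have hy : 0 < ‖w + h‖ := norm_pos_iff.2 hwh
  rcases eq_or_ne h 0 with rfl | hh
  · simp
  have hh' : 0 < ‖h‖ := norm_pos_iff.2 hh
  set x := ‖w‖
  set y := ‖w + h‖
  set t := ‖h‖
  have ht : t ≤ x + y := by
    have : h = (w + h) - w := by ring
    calc t = ‖(w + h) - w‖ := by rw [← this]
      _ ≤ y + x := norm_sub_le _ _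
      _ = x + y := by ring
  have e1 : t ^ 2 = t ^ (5 / 4 : ℝ) * t ^ (3 / 4 : ℝ) := by
    rw [← Real.rpow_add hh', ← Real.rpow_natCast]; norm_num
  have e2 : t ^ (3 / 4 : ℝ) ≤ x ^ (3 / 4 : ℝ) + y ^ (3 / 4 : ℝ) := by
    calc t ^ (3 / 4 : ℝ) ≤ (x + y) ^ (3 / 4 : ℝ) :=
          Real.rpow_le_rpow hh'.le ht (by norm_num)
      _ ≤ x ^ (3 / 4 : ℝ) + y ^ (3 / 4 : ℝ) :=
          Real.rpow_add_le_add_rpow hx.le hy.le (by norm_num) (by norm_num)
  have e3 : (y⁻¹ * (x ^ 2)⁻¹) * x ^ (1 / 2 : ℝ) = x ^ (-(3 / 2) : ℝ) * y ^ (-1 : ℝ) := by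
    rw [Real.rpow_neg_one, ← Real.rpow_natCast x 2, ← Real.rpow_neg hx.le, mul_assoc,
      ← Real.rpow_add hx]
    norm_num
    ring
  have hA : 0 ≤ x ^ (-(3 / 2) : ℝ) * y ^ (-1 : ℝ) := by positivity
  calc t ^ 2 * (y⁻¹ * (x ^ 2)⁻¹) * x ^ (1 / 2 : ℝ)
      = t ^ (5 / 4 : ℝ) * (t ^ (3 / 4 : ℝ) * (x ^ (-(3 / 2) : ℝ) * y ^ (-1 : ℝ))) := by
        rw [← e3, e1]; ring
    _ ≤ t ^ (5 / 4 : ℝ) * ((x ^ (3 / 4 : ℝ) + y ^ (3 / 4 : ℝ)) *
          (x ^ (-(3 / 2) : ℝ) * y ^ (-1 : ℝ))) := by gcongr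
    _ = t ^ (5 / 4 : ℝ) * (x ^ (-(3 / 4) : ℝ) * y ^ (-1 : ℝ) +
          x ^ (-(3 / 2) : ℝ) * y ^ (-(1 / 4) : ℝ)) := by
        congr 1
        have f1 : x ^ (3 / 4 : ℝ) * x ^ (-(3 / 2) : ℝ) = x ^ (-(3 / 4) : ℝ) := by
          rw [← Real.rpow_add hx]; norm_num
        have f2 : y ^ (3 / 4 : ℝ) * y ^ (-1 : ℝ) = y ^ (-(1 / 4) : ℝ) := by
          rw [← Real.rpow_add hy]; norm_num
        rw [← f1, ← f2]
        ring
    _ ≤ t ^ (5 / 4 : ℝ) * ((x ^ (-(7 / 4) : ℝ) + y ^ (-(7 / 4) : ℝ)) +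
          (x ^ (-(7 / 4) : ℝ) + y ^ (-(7 / 4) : ℝ))) := by
        have g1 := prod_le (a := 3 / 4) (b := 1) hx hy (by norm_num) (by norm_num)
        have g2 := prod_le (a := 3 / 2) (b := 1 / 4) hx hy (by norm_num) (by norm_num)
        have n1 : (3 / 4 + 1 : ℝ) = 7 / 4 := by norm_num
        have n2 : (3 / 2 + 1 / 4 : ℝ) = 7 / 4 := by norm_num
        rw [n1] at g1
        rw [n2] at g2
        gcongr
    _ = 2 * t ^ (5 / 4 : ℝ) * (x ^ (-(7 / 4) : ℝ) + y ^ (-(7 / 4) : ℝ)) := by ring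

/-- the three kernels are integrable against bounded functions -/
theorem integrableOn_inv_smul (ρ : ℝ) (h : ℂ) {F : ℂ → V} (hF : Continuous F) :
    IntegrableOn (fun w => (w + h)⁻¹ • F w) (ball (0 : ℂ) ρ) := by
  obtain ⟨M, hM⟩ := (isCompact_closedBall (0 : ℂ) ρ).exists_bound_of_continuousOn hF.continuousOn
  have h1 : IntegrableOn (fun ζ : ℂ => M * ‖ζ - (-h)‖ ^ (-1 : ℝ)) (ball (0 : ℂ) ρ) :=
    (integrableOn_ball (-h) ρ (by norm_num)).const_mul M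
  refine Integrable.mono' h1 ?_ ?_
  · have : Measurable (fun w : ℂ => (w + h)⁻¹) := (measurable_id.add_const h).inv
    exact this.aestronglyMeasurable.smul hF.aestronglyMeasurable
  · rw [ae_restrict_iff' measurableSet_ball]
    refine Eventually.of_forall fun w hw => ?_
    rw [norm_smul, norm_inv, sub_neg_eq_add, Real.rpow_neg_one, mul_comm]
    exact mul_le_mul_of_nonneg_right (hM w (ball_subset_closedBall hw)) (by positivity)

theorem integrableOn_inv_sq_smul (ρ : ℝ) {F : ℂ → V} (hF : Continuous F) {L : ℝ}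
    (hL : ∀ w, ‖F w‖ ≤ L * ‖w‖ ^ (1 / 2 : ℝ)) :
    IntegrableOn (fun w => (w ^ 2)⁻¹ • F w) (ball (0 : ℂ) ρ) := by
  have h1 : IntegrableOn (fun ζ : ℂ => L * ‖ζ - 0‖ ^ (-(3 / 2) : ℝ)) (ball (0 : ℂ) ρ) :=
    (integrableOn_ball 0 ρ (by norm_num)).const_mul L
  refine Integrable.mono' h1 ?_ ?_
  · have : Measurable (fun w : ℂ => (w ^ 2)⁻¹) := (measurable_id.pow_const 2).inv
    exact this.aestronglyMeasurable.smul hF.aestronglyMeasurable
  · refine Eventually.of_forall fun w => ?_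
    rw [norm_smul, norm_inv, norm_pow, sub_zero]
    rcases eq_or_ne w 0 with rfl | hw
    · have := hL 0
      simp at this
      simp
    · have hx : 0 < ‖w‖ := norm_pos_iff.2 hw
      calc (‖w‖ ^ 2)⁻¹ * ‖F w‖ ≤ (‖w‖ ^ 2)⁻¹ * (L * ‖w‖ ^ (1 / 2 : ℝ)) := by
            gcongr; exact hL w
        _ = L * ((‖w‖ ^ 2)⁻¹ * ‖w‖ ^ (1 / 2 : ℝ)) := by ring
        _ = L * ‖w‖ ^ (-(3 / 2) : ℝ) := by
            rw [← Real.rpow_natCast ‖w‖ 2, ← Real.rpow_neg hx.le, ← Real.rpow_add hx]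
            norm_num

/-- the Cauchy transform in the translated variable -/
theorem cauchyT_add (g : ℂ → V) {ρ : ℝ} (z h : ℂ) (hz : ∀ w ∉ ball (0 : ℂ) ρ, g (z - w) = 0) :
    cauchyT g (z + h) = (Real.pi : ℂ)⁻¹ • ∫ w in ball (0 : ℂ) ρ, (w + h)⁻¹ • g (z - w) := by
  rw [cauchyT]
  congr 1
  rw [setIntegral_eq_integral_of_forall_compl_eq_zero (fun w hw => by rw [hz w hw, smul_zero])]
  rw [← integral_sub_left_eq_self (fun ζ => (z + h - ζ)⁻¹ • g ζ) volume z]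
  congr 1
  funext w
  congr 2
  ring

/-- the disc formula in the translated variable -/
theorem disc_formula {ρ : ℝ} (hρ : 0 < ρ) (v : V) {h : ℂ} (hh : ‖h‖ ≤ ρ) :
    (Real.pi : ℂ)⁻¹ • ∫ w in ball (0 : ℂ) ρ, (w + h)⁻¹ • v = conj h • v := by
  have h1 := cauchyT_indicator_ball (0 : ℂ) hρ v h
  rw [sub_zero, if_pos hh] at h1
  rw [← h1, cauchyT]
  congr 1
  rw [← integral_indicator measurableSet_ball, ← integral_neg_eq_self]
  congr 1
  funext w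
  by_cases hw : w ∈ ball (0 : ℂ) ρ
  · have hw' : -w ∈ ball (0 : ℂ) ρ := by simpa using hw
    rw [indicator_of_mem hw', indicator_of_mem hw]
    congr 2
    ring
  · have hw' : -w ∉ ball (0 : ℂ) ρ := by simpa using hw
    rw [indicator_of_notMem hw', indicator_of_notMem hw, smul_zero]

/-- the expansion of the Cauchy transform -/
theorem expansion {g : ℂ → V} {L ρ : ℝ} (hρ : 0 < ρ)
    (hg : ∀ z w, ‖g z - g w‖ ≤ L * ‖z - w‖ ^ (1 / 2 : ℝ)) (z : ℂ)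
    (hz : ∀ w ∉ ball (0 : ℂ) ρ, g (z - w) = 0) {h : ℂ} (hh : ‖h‖ ≤ ρ) (hh1 : ‖h‖ ≤ 1) :
    ‖cauchyT g (z + h) - cauchyT g z - TT1 g ρ z h‖ ≤
      (Real.pi⁻¹ * (2 * L * (2 * (2 * Real.pi * (ρ + 1) ^ (2 - 7 / 4 : ℝ) / (2 - 7 / 4))))) *
        ‖h‖ ^ (5 / 4 : ℝ) := by
  have hL := L_nonneg hg
  have hgc := continuous_of_holder hg
  have hgc' : Continuous fun w => g (z - w) := hgc.comp (continuous_const.sub continuous_id)
  have hF : Continuous fun w => g (z - w) - g z := hgc'.sub continuous_const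
  have hFL : ∀ w, ‖g (z - w) - g z‖ ≤ L * ‖w‖ ^ (1 / 2 : ℝ) := by
    intro w
    have := hg (z - w) z
    rwa [show z - w - z = -w by ring, norm_neg] at this
  have key : ∀ k : ℂ, ‖k‖ ≤ ρ → cauchyT g (z + k) =
      (Real.pi : ℂ)⁻¹ • (∫ w in ball (0 : ℂ) ρ, (w + k)⁻¹ • (g (z - w) - g z)) + conj k • g z := by
    intro k hk
    rw [cauchyT_add g z k hz, ← disc_formula hρ (g z) hk, ← smul_add]
    congr 1
    rw [← integral_add (integrableOn_inv_smul ρ k hF) (integrableOn_inv_smul ρ k continuous_const)]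
    congr 1
    funext w
    rw [← smul_add, sub_add_cancel]
  have k1 := key h hh
  have k0 := key 0 (by simpa using hρ.le)
  rw [add_zero, map_zero, zero_smul, add_zero] at k0
  have k2 : cauchyT g (z + h) - cauchyT g z - TT1 g ρ z h =
      (Real.pi : ℂ)⁻¹ • (∫ w in ball (0 : ℂ) ρ,
        ((w + h)⁻¹ - (w + 0)⁻¹ + h * (w ^ 2)⁻¹) • (g (z - w) - g z)) := by
    rw [k1, k0, TT1_apply, DD1]
    have e : ∫ w in ball (0 : ℂ) ρ,
        ((w + h)⁻¹ - (w + 0)⁻¹ + h * (w ^ 2)⁻¹) • (g (z - w) - g z) =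
        (∫ w in ball (0 : ℂ) ρ, (w + h)⁻¹ • (g (z - w) - g z)) -
        (∫ w in ball (0 : ℂ) ρ, (w + 0)⁻¹ • (g (z - w) - g z)) +
        h • ∫ w in ball (0 : ℂ) ρ, (w ^ 2)⁻¹ • (g (z - w) - g z) := by
      rw [← integral_smul, ← integral_sub (integrableOn_inv_smul ρ h hF)
        (integrableOn_inv_smul ρ 0 hF), ← integral_add]
      · congr 1
        funext w
        rw [add_smul, sub_smul, mul_smul]
      · exact (integrableOn_inv_smul ρ h hF).sub (integrableOn_inv_smul ρ 0 hF)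
      · exact (integrableOn_inv_sq_smul ρ hF hFL).smul h
    rw [e, smul_add, smul_sub, smul_neg, smul_comm h]
    abel
  rw [k2, norm_smul, norm_inv, Complex.norm_real, Real.norm_of_nonneg Real.pi_pos.le, mul_assoc]
  refine mul_le_mul_of_nonneg_left ?_ (inv_nonneg.2 Real.pi_pos.le)
  have hae : ∀ᵐ w ∂(volume.restrict (ball (0 : ℂ) ρ)),
      ‖((w + h)⁻¹ - (w + 0)⁻¹ + h * (w ^ 2)⁻¹) • (g (z - w) - g z)‖ ≤
        2 * L * ‖h‖ ^ (5 / 4 : ℝ) *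
          (‖w - 0‖ ^ (-(7 / 4) : ℝ) + ‖w - (-h)‖ ^ (-(7 / 4) : ℝ)) := by
    have a1 : ∀ᵐ w ∂(volume.restrict (ball (0 : ℂ) ρ)), w ≠ 0 := by
      refine ae_restrict_of_ae ?_
      exact Measure.ae_ne volume 0
    have a2 : ∀ᵐ w ∂(volume.restrict (ball (0 : ℂ) ρ)), w ≠ -h := by
      refine ae_restrict_of_ae ?_
      exact Measure.ae_ne volume (-h)
    filter_upwards [a1, a2] with w hw hw'
    have hwh : w + h ≠ 0 := fun hc => hw' (eq_neg_of_add_eq_zero_left hc)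
    have e : (w + h)⁻¹ - (w + 0)⁻¹ + h * (w ^ 2)⁻¹ = h ^ 2 * ((w + h)⁻¹ * (w ^ 2)⁻¹) := by
      rw [add_zero]
      field_simp
      ring
    rw [e, norm_smul, norm_mul, norm_mul, norm_pow, norm_inv, norm_inv, norm_pow]
    calc ‖h‖ ^ 2 * (‖w + h‖⁻¹ * (‖w‖ ^ 2)⁻¹) * ‖g (z - w) - g z‖
        ≤ ‖h‖ ^ 2 * (‖w + h‖⁻¹ * (‖w‖ ^ 2)⁻¹) * (L * ‖w‖ ^ (1 / 2 : ℝ)) := by
          gcongr
          exact hFL w
      _ = L * (‖h‖ ^ 2 * (‖w + h‖⁻¹ * (‖w‖ ^ 2)⁻¹) * ‖w‖ ^ (1 / 2 : ℝ)) := by ring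
      _ ≤ L * (2 * ‖h‖ ^ (5 / 4 : ℝ) *
            (‖w‖ ^ (-(7 / 4) : ℝ) + ‖w + h‖ ^ (-(7 / 4) : ℝ))) := by
          exact mul_le_mul_of_nonneg_left (kernel_le hw hwh) hL
      _ = _ := by rw [sub_zero, sub_neg_eq_add]; ring
  have i1 := integrableOn_ball 0 ρ (α := 7 / 4) (by norm_num)
  have i2 := integrableOn_ball (-h) ρ (α := 7 / 4) (by norm_num)
  calc ‖∫ w in ball (0 : ℂ) ρ, ((w + h)⁻¹ - (w + 0)⁻¹ + h * (w ^ 2)⁻¹) • (g (z - w) - g z)‖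
      ≤ ∫ w in ball (0 : ℂ) ρ, 2 * L * ‖h‖ ^ (5 / 4 : ℝ) *
          (‖w - 0‖ ^ (-(7 / 4) : ℝ) + ‖w - (-h)‖ ^ (-(7 / 4) : ℝ)) :=
        norm_integral_le_of_norm_le ((i1.add i2).const_mul _) hae
    _ = 2 * L * ‖h‖ ^ (5 / 4 : ℝ) * ((∫ w in ball (0 : ℂ) ρ, ‖w - 0‖ ^ (-(7 / 4) : ℝ)) +
          ∫ w in ball (0 : ℂ) ρ, ‖w - (-h)‖ ^ (-(7 / 4) : ℝ)) := by
        rw [integral_const_mul, integral_add i1 i2]
    _ ≤ 2 * L * ‖h‖ ^ (5 / 4 : ℝ) *
          (2 * Real.pi * (ρ + 1) ^ (2 - 7 / 4 : ℝ) / (2 - 7 / 4) +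
           2 * Real.pi * (ρ + 1) ^ (2 - 7 / 4 : ℝ) / (2 - 7 / 4)) := by
        have j1 := integral_ball_le 0 hρ.le (α := 7 / 4) (by norm_num) (by simp)
        have j2 := integral_ball_le (-h) hρ.le (α := 7 / 4) (by norm_num) (by simpa using hh1)
        gcongr
    _ = _ := by ring

theorem hasFDerivAt {g : ℂ → V} {L ρ : ℝ} (hρ : 0 < ρ)
    (hg : ∀ z w, ‖g z - g w‖ ≤ L * ‖z - w‖ ^ (1 / 2 : ℝ)) (z : ℂ)
    (hz : ∀ w ∉ ball (0 : ℂ) ρ, g (z - w) = 0) : HasFDerivAt (cauchyT g) (TT1 g ρ z) z := by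
  rw [hasFDerivAt_iff_isLittleO_nhds_zero, Asymptotics.isLittleO_iff]
  intro c hc
  set C : ℝ := Real.pi⁻¹ *
    (2 * L * (2 * (2 * Real.pi * (ρ + 1) ^ (2 - 7 / 4 : ℝ) / (2 - 7 / 4)))) with hC
  have h1 : Tendsto (fun h : ℂ => C * ‖h‖ ^ (1 / 4 : ℝ)) (𝓝 0) (𝓝 0) := by
    have : Continuous (fun w : ℂ => C * ‖w‖ ^ (1 / 4 : ℝ)) := by
      refine continuous_const.mul ?_
      exact continuous_norm.rpow_const (fun _ => Or.inr (by norm_num))
    have h2 := this.tendsto 0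
    simpa using h2
  have h2 : ∀ᶠ h : ℂ in 𝓝 0, C * ‖h‖ ^ (1 / 4 : ℝ) < c := h1.eventually (gt_mem_nhds hc)
  have h3 : ∀ᶠ h : ℂ in 𝓝 0, ‖h‖ < min ρ 1 := by
    have : Tendsto (fun h : ℂ => ‖h‖) (𝓝 0) (𝓝 0) := by
      simpa using continuous_norm.tendsto (0 : ℂ)
    exact this.eventually (gt_mem_nhds (lt_min hρ one_pos))
  filter_upwards [h2, h3] with h k2 k3
  have k4 := expansion hρ hg z hz (k3.le.trans (min_le_left _ _)) (k3.le.trans (min_le_right _ _))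
  refine k4.trans ?_
  rcases eq_or_ne h 0 with rfl | hh
  · simp
  have hh' : 0 < ‖h‖ := norm_pos_iff.2 hh
  have e : ‖h‖ ^ (5 / 4 : ℝ) = ‖h‖ ^ (1 / 4 : ℝ) * ‖h‖ := by
    rw [← Real.rpow_add_one hh'.ne']; norm_num
  rw [e, ← mul_assoc]
  exact mul_le_mul_of_nonneg_right k2.le (norm_nonneg _)

theorem continuous_DD1 {g : ℂ → V} {L : ℝ} (ρ : ℝ)
    (hg : ∀ z w, ‖g z - g w‖ ≤ L * ‖z - w‖ ^ (1 / 2 : ℝ)) : Continuous (DD1 g ρ) := by
  have hgc := continuous_of_holder hg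
  unfold DD1
  refine (Continuous.const_smul ?_ _).neg
  refine continuous_of_dominated (bound := fun w : ℂ => L * ‖w - 0‖ ^ (-(3 / 2) : ℝ)) ?_ ?_ ?_ ?_
  · intro z
    have hF : Continuous fun w => g (z - w) - g z :=
      (hgc.comp (continuous_const.sub continuous_id)).sub continuous_const
    have : Measurable (fun w : ℂ => (w ^ 2)⁻¹) := (measurable_id.pow_const 2).inv
    exact this.aestronglyMeasurable.smul hF.aestronglyMeasurable
  · intro z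
    refine Eventually.of_forall fun w => ?_
    have hFL : ‖g (z - w) - g z‖ ≤ L * ‖w‖ ^ (1 / 2 : ℝ) := by
      have := hg (z - w) z
      rwa [show z - w - z = -w by ring, norm_neg] at this
    rw [norm_smul, norm_inv, norm_pow, sub_zero]
    rcases eq_or_ne w 0 with rfl | hw
    · simp
    · have hx : 0 < ‖w‖ := norm_pos_iff.2 hw
      calc (‖w‖ ^ 2)⁻¹ * ‖g (z - w) - g z‖ ≤ (‖w‖ ^ 2)⁻¹ * (L * ‖w‖ ^ (1 / 2 : ℝ)) := by
            gcongr
        _ = L * ((‖w‖ ^ 2)⁻¹ * ‖w‖ ^ (1 / 2 : ℝ)) := by ring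
        _ = L * ‖w‖ ^ (-(3 / 2) : ℝ) := by
            rw [← Real.rpow_natCast ‖w‖ 2, ← Real.rpow_neg hx.le, ← Real.rpow_add hx]
            norm_num
  · exact (integrableOn_ball 0 ρ (by norm_num)).const_mul L
  · refine Eventually.of_forall fun w => ?_
    exact ((hgc.comp (continuous_id.sub continuous_const)).sub hgc).const_smul _

theorem norm_DD1_le {g : ℂ → V} {L ρ : ℝ} (hρ : 0 < ρ)
    (hg : ∀ z w, ‖g z - g w‖ ≤ L * ‖z - w‖ ^ (1 / 2 : ℝ)) (z : ℂ) :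
    ‖DD1 g ρ z‖ ≤ 4 * L * ρ ^ (1 / 2 : ℝ) := by
  have hL := L_nonneg hg
  have i1 := integrableOn_ball 0 ρ (α := 3 / 2) (by norm_num)
  have h1 : ‖∫ w in ball (0 : ℂ) ρ, (w ^ 2)⁻¹ • (g (z - w) - g z)‖ ≤
      ∫ w in ball (0 : ℂ) ρ, L * ‖w - 0‖ ^ (-(3 / 2) : ℝ) := by
    refine norm_integral_le_of_norm_le (i1.const_mul L) ?_
    refine Eventually.of_forall fun w => ?_
    have hFL : ‖g (z - w) - g z‖ ≤ L * ‖w‖ ^ (1 / 2 : ℝ) := by
      have := hg (z - w) z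
      rwa [show z - w - z = -w by ring, norm_neg] at this
    rw [norm_smul, norm_inv, norm_pow, sub_zero]
    rcases eq_or_ne w 0 with rfl | hw
    · simp
    · have hx : 0 < ‖w‖ := norm_pos_iff.2 hw
      calc (‖w‖ ^ 2)⁻¹ * ‖g (z - w) - g z‖ ≤ (‖w‖ ^ 2)⁻¹ * (L * ‖w‖ ^ (1 / 2 : ℝ)) := by
            gcongr
        _ = L * ((‖w‖ ^ 2)⁻¹ * ‖w‖ ^ (1 / 2 : ℝ)) := by ring
        _ = L * ‖w‖ ^ (-(3 / 2) : ℝ) := by
            rw [← Real.rpow_natCast ‖w‖ 2, ← Real.rpow_neg hx.le, ← Real.rpow_add hx]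
            norm_num
  have h2 : ∫ w in ball (0 : ℂ) ρ, ‖w - 0‖ ^ (-(3 / 2) : ℝ) ≤
      2 * Real.pi * ρ ^ (2 - 3 / 2 : ℝ) / (2 - 3 / 2) := by
    rw [← setIntegral_rpow_norm 0 hρ.le (by norm_num : (3 / 2 : ℝ) < 2)]
    refine setIntegral_mono_set (integrableOn_rpow_norm 0 ρ (by norm_num)) ?_ ?_
    · exact Eventually.of_forall fun ζ => Real.rpow_nonneg (norm_nonneg _) _
    · exact ball_subset_closedBall.eventuallyLE
  rw [integral_const_mul] at h1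
  rw [DD1, norm_neg, norm_smul, norm_inv, Complex.norm_real, Real.norm_of_nonneg Real.pi_pos.le]
  have hpi := Real.pi_pos
  calc Real.pi⁻¹ * ‖∫ w in ball (0 : ℂ) ρ, (w ^ 2)⁻¹ • (g (z - w) - g z)‖
      ≤ Real.pi⁻¹ * (L * (2 * Real.pi * ρ ^ (2 - 3 / 2 : ℝ) / (2 - 3 / 2))) := by
        refine mul_le_mul_of_nonneg_left (h1.trans ?_) (inv_nonneg.2 hpi.le)
        exact mul_le_mul_of_nonneg_left h2 hL
    _ = 4 * L * ρ ^ (1 / 2 : ℝ) := by
        have : (2 - 3 / 2 : ℝ) = 1 / 2 := by norm_num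
        rw [this]
        field_simp
        ring

end CauchyC1

open CauchyC1

/-- The Cauchy transform of a compactly supported Hoelder-1/2 function is `C¹`. -/
theorem cauchyT_C1 {V : Type*} [NormedAddCommGroup V] [NormedSpace ℂ V] [CompleteSpace V]
    {g : ℂ → V} {z₀ : ℂ} {L R : ℝ} (hR : 0 < R)
    (hg : ∀ z w, ‖g z - g w‖ ≤ L * ‖z - w‖ ^ (1 / 2 : ℝ))
    (hs : ∀ ζ ∉ closedBall z₀ R, g ζ = 0) :
    ContDiff ℝ 1 (cauchyT g) ∧ (∀ z, dbar (cauchyT g) z = g z) ∧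
      ∀ z ∈ closedBall z₀ R, ‖fderiv ℝ (cauchyT g) z‖ ≤ 8 * L * R ^ (1 / 2 : ℝ) := by
  have hL := L_nonneg hg
  have hgc := continuous_of_holder hg
  -- support condition
  have hsupp : ∀ (z : ℂ) (ρ : ℝ), ‖z - z₀‖ + R < ρ → ∀ w ∉ ball (0 : ℂ) ρ, g (z - w) = 0 := by
    intro z ρ hρ w hw
    apply hs
    rw [mem_ball_zero_iff, not_lt] at hw
    rw [mem_closedBall, dist_eq_norm, not_le]
    have h1 : ‖w‖ ≤ ‖z - w - z₀‖ + ‖z - z₀‖ := by
      have : w = (z - z₀) - (z - w - z₀) := by ring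
      calc ‖w‖ = ‖(z - z₀) - (z - w - z₀)‖ := by rw [← this]
        _ ≤ ‖z - z₀‖ + ‖z - w - z₀‖ := norm_sub_le _ _
        _ = _ := by ring
    linarith
  have hder : ∀ (z : ℂ) (ρ : ℝ), ‖z - z₀‖ + R < ρ →
      HasFDerivAt (cauchyT g) (TT1 g ρ z) z := by
    intro z ρ hρ
    have : 0 < ρ := by linarith [norm_nonneg (z - z₀)]
    exact CauchyC1.hasFDerivAt this hg z (hsupp z ρ hρ)
  refine ⟨?_, ?_, ?_⟩
  · rw [contDiff_one_iff_fderiv]
    refine ⟨fun z => (hder z (‖z - z₀‖ + R + 1) (by linarith)).differentiableAt, ?_⟩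
    rw [continuous_iff_continuousAt]
    intro z₁
    set ρ := ‖z₁ - z₀‖ + R + 1 with hρ
    have hT : Continuous (TT1 g ρ) := by
      rw [continuous_clm_apply]
      intro y
      simp only [TT1_apply]
      exact ((continuous_DD1 ρ hg).const_smul y).add (hgc.const_smul (conj y))
    refine hT.continuousAt.congr ?_
    have : ball z₁ 1 ∈ 𝓝 z₁ := ball_mem_nhds z₁ one_pos
    filter_upwards [this] with z hz
    rw [mem_ball, dist_eq_norm] at hz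
    have h1 : ‖z - z₀‖ + R < ρ := by
      have : ‖z - z₀‖ ≤ ‖z - z₁‖ + ‖z₁ - z₀‖ := by
        have : z - z₀ = (z - z₁) + (z₁ - z₀) := by ring
        rw [this]
        exact norm_add_le _ _
      linarith
    exact ((hder z ρ h1).fderiv).symm
  · intro z
    have h1 := (hder z (‖z - z₀‖ + R + 1) (by linarith)).fderiv
    rw [dbar, h1, TT1_apply, TT1_apply, map_one, one_smul, one_smul, Complex.conj_I]
    have e2 : ∀ D G : V, Complex.I • (Complex.I • D + -Complex.I • G) = -D + G := by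
      intro D G
      rw [smul_add, smul_smul, smul_smul, mul_neg, Complex.I_mul_I, neg_neg, one_smul, neg_smul,
        one_smul]
    have e3 : ∀ a b : V, a + b + (-a + b) = (2 : ℂ) • b := by
      intro a b
      rw [two_smul]
      abel
    rw [e2, e3, smul_smul]
    norm_num
  · intro z hz
    rw [mem_closedBall, dist_eq_norm] at hz
    set ρ := 9 / 4 * R with hρ
    have hρ0 : 0 < ρ := by positivity
    have h1 := (hder z ρ (by linarith)).fderiv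
    have e1 : ρ ^ (1 / 2 : ℝ) = 3 / 2 * R ^ (1 / 2 : ℝ) := by
      rw [hρ, Real.mul_rpow (by norm_num) hR.le]
      congr 1
      rw [show (9 / 4 : ℝ) = (3 / 2) ^ (2 : ℝ) by norm_num, ← Real.rpow_mul (by norm_num)]
      norm_num
    have hD := norm_DD1_le hρ0 hg z
    -- the bound for g
    obtain ⟨p, hp1, hp2⟩ : ∃ p : ℂ, ‖z - p‖ = ρ ∧ R < ‖p - z₀‖ := by
      rcases le_total 0 (z - z₀).re with h | h
      · refine ⟨z + ρ, ?_, ?_⟩
        · rw [show z - (z + (ρ : ℂ)) = -(ρ : ℂ) by ring, norm_neg, Complex.norm_real,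
            Real.norm_of_nonneg hρ0.le]
        · have h3 := Complex.abs_re_le_norm (z + ρ - z₀)
          have h4 : (z + (ρ : ℂ) - z₀).re = (z - z₀).re + ρ := by
            simp
            ring
          rw [h4, abs_of_nonneg (by linarith)] at h3
          linarith
      · refine ⟨z - ρ, ?_, ?_⟩
        · rw [show z - (z - (ρ : ℂ)) = (ρ : ℂ) by ring, Complex.norm_real,
            Real.norm_of_nonneg hρ0.le]
        · have h3 := Complex.abs_re_le_norm (z - ρ - z₀)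
          have h4 : (z - (ρ : ℂ) - z₀).re = (z - z₀).re - ρ := by
            simp
            ring
          rw [h4, abs_of_nonpos (by linarith)] at h3
          linarith
    have hgz : ‖g z‖ ≤ L * ρ ^ (1 / 2 : ℝ) := by
      have h3 := hg z p
      rw [hs p (by rw [mem_closedBall, dist_eq_norm, not_le]; exact hp2), sub_zero, hp1] at h3
      exact h3
    rw [h1]
    refine ContinuousLinearMap.opNorm_le_bound _ (by positivity) ?_
    intro u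
    rw [TT1_apply]
    calc ‖u • DD1 g ρ z + conj u • g z‖ ≤ ‖u‖ * ‖DD1 g ρ z‖ + ‖u‖ * ‖g z‖ := by
          refine (norm_add_le _ _).trans ?_
          rw [norm_smul, norm_smul, RCLike.norm_conj]
      _ ≤ ‖u‖ * (4 * L * ρ ^ (1 / 2 : ℝ)) + ‖u‖ * (L * ρ ^ (1 / 2 : ℝ)) := by gcongr
      _ = (5 * (3 / 2)) * L * R ^ (1 / 2 : ℝ) * ‖u‖ := by rw [e1]; ring
      _ ≤ 8 * L * R ^ (1 / 2 : ℝ) * ‖u‖ := by
          have : 0 ≤ L * R ^ (1 / 2 : ℝ) * ‖u‖ := by positivity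
          nlinarith

end Pool.Agent.MP_49383f_gt
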