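import Pool.Agent.MP_49383f_gt.CauchyInt

/-!
# MP_49383f_gt, module M06: derivative of the Cauchy transform of a `C¹` function
-/

namespace Pool.Agent.MP_49383f_gt

open scoped ContDiff ComplexConjugate Convolution
open MeasureTheory Metric Set

namespace CauchyDeriv

/-- The Cauchy kernel is locally integrable. -/
theorem locallyIntegrable_inv : LocallyIntegrable (fun ζ : ℂ => ζ⁻¹) := by
  intro x
  refine ⟨closedBall x 1, closedBall_mem_nhds x one_pos, ?_⟩
  have h := integrableOn_rpow_norm (0 : ℂ) (‖x‖ + 1) (α := 1) (by norm_num)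
  have h2 : IntegrableOn (fun ζ : ℂ => ζ⁻¹) (closedBall 0 (‖x‖ + 1)) := by
    refine h.mono' ?_ ?_
    · exact (measurable_inv (G := ℂ)).aestronglyMeasurable
    · refine Filter.Eventually.of_forall fun ζ => ?_
      simp only [sub_zero]
      rw [Real.rpow_neg_one, norm_inv]
  refine h2.mono_set fun y hy => ?_
  rw [mem_closedBall, dist_eq_norm] at hy
  rw [mem_closedBall, dist_zero_right]
  calc ‖y‖ = ‖x + (y - x)‖ := by rw [add_sub_cancel]
    _ ≤ ‖x‖ + ‖y - x‖ := norm_add_le _ _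
    _ ≤ ‖x‖ + 1 := by gcongr

variable {V : Type*} [NormedAddCommGroup V] [NormedSpace ℂ V] [CompleteSpace V]

/-- The Cauchy transform as a convolution. -/
theorem cauchyT_eq (g : ℂ → V) (z : ℂ) :
    cauchyT g z = (Real.pi : ℂ)⁻¹ •
      ((fun ζ : ℂ => ζ⁻¹) ⋆[ContinuousLinearMap.lsmul ℝ ℂ, volume] g) z := by
  rw [cauchyT, convolution_def]
  congr 1
  rw [← integral_sub_left_eq_self (fun ζ => (z - ζ)⁻¹ • g ζ) volume z]
  refine integral_congr_ae (Filter.Eventually.of_forall fun t => ?_)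
  simp

end CauchyDeriv

section
variable {V : Type*} [NormedAddCommGroup V] [NormedSpace ℂ V] [CompleteSpace V]

theorem fderiv_cauchyT {g : ℂ → V} (hg : ContDiff ℝ 1 g) (hs : HasCompactSupport g) :
    Differentiable ℝ (cauchyT g) ∧
      ∀ z u, fderiv ℝ (cauchyT g) z u = cauchyT (fun ζ => fderiv ℝ g ζ u) z := by
  have key : ∀ z, HasFDerivAt (cauchyT g) ((Real.pi : ℂ)⁻¹ •
      ((fun ζ : ℂ => ζ⁻¹) ⋆[(ContinuousLinearMap.lsmul ℝ ℂ).precompR ℂ, volume] fderiv ℝ g) z)
      z := by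
    intro z
    have h1 := hs.hasFDerivAt_convolution_right (ContinuousLinearMap.lsmul ℝ ℂ)
      CauchyDeriv.locallyIntegrable_inv hg z
    have h2 := h1.const_smul ((Real.pi : ℂ)⁻¹)
    refine h2.congr_of_eventuallyEq (Filter.Eventually.of_forall fun w => ?_)
    exact CauchyDeriv.cauchyT_eq g w
  refine ⟨fun z => (key z).differentiableAt, fun z u => ?_⟩
  rw [(key z).fderiv, CauchyDeriv.cauchyT_eq]
  have hc : HasCompactSupport (fderiv ℝ g) := hs.fderiv (𝕜 := ℝ)
  have hcont : Continuous (fderiv ℝ g) := hg.continuous_fderiv (by norm_num)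
  have hex : ConvolutionExistsAt (fun ζ : ℂ => ζ⁻¹) (fderiv ℝ g) z
      ((ContinuousLinearMap.lsmul ℝ ℂ).precompR ℂ : ℂ →L[ℝ] (ℂ →L[ℝ] V) →L[ℝ] (ℂ →L[ℝ] V))
      volume :=
    hc.convolutionExists_right _ CauchyDeriv.locallyIntegrable_inv hcont z
  rw [smul_apply]
  congr 1
  rw [convolution_def, convolution_def]
  rw [ContinuousLinearMap.integral_apply hex]
  rfl

end

end Pool.Agent.MP_49383f_gt
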