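import Pool.Agent.MP_49383f_gt.Defs

/-!
# MP_49383f_gt, module M04: the Cauchy transform is holomorphic off the support
-/

namespace Pool.Agent.MP_49383f_gt

open scoped ContDiff ComplexConjugate
open MeasureTheory Metric Set

section
variable {V : Type*} [NormedAddCommGroup V] [NormedSpace ℂ V] [CompleteSpace V]

/-- holomorphy off the support -/
theorem cauchyT_differentiableOn {ν : ℂ → V} {z₀ : ℂ} {ρ : ℝ} (hν : Integrable ν)
    (h0 : ∀ ζ ∈ ball z₀ ρ, ν ζ = 0) : DifferentiableOn ℂ (cauchyT ν) (ball z₀ ρ) := by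
  intro z hz
  have hδ : 0 < ρ - dist z z₀ := by rw [mem_ball] at hz; linarith
  set δ : ℝ := (ρ - dist z z₀) / 2 with hδdef
  have hδ' : 0 < δ := by positivity
  -- points near `z` are at distance at least `δ` from the support
  have far : ∀ w ∈ ball z δ, ∀ ζ, ν ζ ≠ 0 → δ ≤ ‖w - ζ‖ := by
    intro w hw ζ hζ
    have h1 : ρ ≤ dist ζ z₀ := by
      by_contra hcon
      exact hζ (h0 ζ (by rw [mem_ball]; linarith))
    have h2 : dist ζ z₀ ≤ dist ζ w + dist w z + dist z z₀ := by
      linarith [dist_triangle ζ w z₀, dist_triangle w z z₀]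
    rw [mem_ball] at hw
    have h3 : dist ζ w = ‖w - ζ‖ := by rw [dist_comm, dist_eq_norm]
    linarith
  have hmeas : ∀ w : ℂ, AEStronglyMeasurable (fun ζ => (w - ζ)⁻¹ • ν ζ) := fun w =>
    ((measurable_const.sub measurable_id).inv.aestronglyMeasurable).smul hν.aestronglyMeasurable
  have key : HasDerivAt (fun w => ∫ ζ, (w - ζ)⁻¹ • ν ζ)
      (∫ ζ, (-((z - ζ) ^ 2)⁻¹) • ν ζ) z := by
    refine (hasDerivAt_integral_of_dominated_loc_of_deriv_le
      (F := fun w ζ => (w - ζ)⁻¹ • ν ζ) (F' := fun w ζ => (-((w - ζ) ^ 2)⁻¹) • ν ζ)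
      (bound := fun ζ => (δ ^ 2)⁻¹ * ‖ν ζ‖) (ball_mem_nhds z hδ')
      (Filter.Eventually.of_forall hmeas) ?_ ?_ ?_ ?_ ?_).2
    · refine Integrable.mono' (g := fun ζ => δ⁻¹ * ‖ν ζ‖) (hν.norm.const_mul _) (hmeas z) ?_
      refine Filter.Eventually.of_forall fun ζ => ?_
      rcases eq_or_ne (ν ζ) 0 with h | h
      · simp [h]
      · rw [norm_smul, norm_inv]
        gcongr
        exact far z (mem_ball_self hδ') ζ h
    · exact (((measurable_const.sub measurable_id).pow_const 2).inv.neg.aestronglyMeasurable).smul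
        hν.aestronglyMeasurable
    · refine Filter.Eventually.of_forall fun ζ w hw => ?_
      rcases eq_or_ne (ν ζ) 0 with h | h
      · simp [h]
      · rw [norm_smul, norm_neg, norm_inv, norm_pow]
        gcongr
        exact far w hw ζ h
    · exact hν.norm.const_mul _
    · refine Filter.Eventually.of_forall fun ζ w hw => ?_
      rcases eq_or_ne (ν ζ) 0 with h | h
      · simp only [h, smul_zero]
        exact hasDerivAt_const _ _
      · have hne : w - ζ ≠ 0 := by
          intro h'
          have := far w hw ζ h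
          rw [h', norm_zero] at this
          linarith
        have h1 : HasDerivAt (fun w : ℂ => w - ζ) 1 w := (hasDerivAt_id w).sub_const ζ
        have h2 := (h1.fun_inv hne).smul_const (ν ζ)
        refine h2.congr_deriv ?_
        congr 1
        rw [neg_div, one_div]
  exact ((key.const_smul ((Real.pi : ℂ)⁻¹)).differentiableAt).differentiableWithinAt

end

end Pool.Agent.MP_49383f_gt
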