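import Pool.Agent.MP_49383f_gt.Basic

/-!
# MP_49383f_gt, module G01: the mean curvature
-/

set_option linter.unusedSimpArgs false

namespace Pool.Agent.MP_49383f_gt

open scoped ContDiff ComplexConjugate
open MeasureTheory Metric Set

namespace MeanCurv

lemma fderiv_R3 {X : ℂ → R3} {z : ℂ} {A B C : ℂ →L[ℝ] ℝ}
    (h0 : HasFDerivAt (fun w => X w 0) A z) (h1 : HasFDerivAt (fun w => X w 1) B z)
    (h2 : HasFDerivAt (fun w => X w 2) C z) (u : ℂ) :
    DifferentiableAt ℝ X z ∧ fderiv ℝ X z u = !₂[A u, B u, C u] := by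
  have hd : DifferentiableAt ℝ X z := by
    rw [differentiableAt_euclidean]
    intro i
    fin_cases i
    · exact h0.differentiableAt
    · exact h1.differentiableAt
    · exact h2.differentiableAt
  refine ⟨hd, ?_⟩
  have hf := hd.hasFDerivAt
  rw [← hasFDerivWithinAt_univ, hasFDerivWithinAt_euclidean] at hf
  have g0 := (hasFDerivWithinAt_univ.1 (hf 0)).unique h0
  have g1 := (hasFDerivWithinAt_univ.1 (hf 1)).unique h1
  have g2 := (hasFDerivWithinAt_univ.1 (hf 2)).unique h2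
  ext i
  fin_cases i
  · simpa using congrArg (fun L : ℂ →L[ℝ] ℝ => L u) g0
  · simpa using congrArg (fun L : ℂ →L[ℝ] ℝ => L u) g1
  · simpa using congrArg (fun L : ℂ →L[ℝ] ℝ => L u) g2

/-- the algebra behind the formula for the mean curvature -/
lemma alg (a b c d ax ay bx by' cx cy dx dy ε : ℝ)
    (e1 : ax - by' = 2 * (ε * ((a ^ 2 + b ^ 2) + (c ^ 2 + d ^ 2))) * c)
    (e2 : bx + ay = -(2 * (ε * ((a ^ 2 + b ^ 2) + (c ^ 2 + d ^ 2))) * d))
    (e3 : cx - dy = -(2 * (ε * ((a ^ 2 + b ^ 2) + (c ^ 2 + d ^ 2))) * a))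
    (e4 : dx + cy = 2 * (ε * ((a ^ 2 + b ^ 2) + (c ^ 2 + d ^ 2))) * b) :
    (2 * a * ax - 2 * b * bx - 2 * c * cx + 2 * d * dx
      + (-2 * (ay * b + a * by') + 2 * (cy * d + c * dy))) * (-2 * (a * c + b * d))
    + (2 * (ax * b + a * bx) + 2 * (cx * d + c * dx)
      + (2 * a * ay - 2 * b * by' + 2 * c * cy - 2 * d * dy)) * (-2 * (b * c - a * d))
    + (2 * (ax * c + a * cx) - 2 * (bx * d + b * dx)
      + (-2 * (ay * d + a * dy) - 2 * (by' * c + b * cy))) * (a ^ 2 + b ^ 2 - (c ^ 2 + d ^ 2))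
    = -4 * ε * ((a ^ 2 + b ^ 2) + (c ^ 2 + d ^ 2)) ^ 3 := by
  have h1 : ax = by' + 2 * (ε * ((a ^ 2 + b ^ 2) + (c ^ 2 + d ^ 2))) * c := by linarith
  have h2 : bx = -ay - 2 * (ε * ((a ^ 2 + b ^ 2) + (c ^ 2 + d ^ 2))) * d := by linarith
  have h3 : cx = dy - 2 * (ε * ((a ^ 2 + b ^ 2) + (c ^ 2 + d ^ 2))) * a := by linarith
  have h4 : dx = -cy + 2 * (ε * ((a ^ 2 + b ^ 2) + (c ^ 2 + d ^ 2))) * b := by linarith
  rw [h1, h2, h3, h4]
  ring

lemma inner3 (x0 x1 x2 y0 y1 y2 : ℝ) :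
    inner ℝ (!₂[x0, x1, x2] : R3) !₂[y0, y1, y2] = x0 * y0 + x1 * y1 + x2 * y2 := by
  simp [PiLp.inner_apply, Fin.sum_univ_three]
  ring

lemma inner3_smul (k x0 x1 x2 y0 y1 y2 : ℝ) :
    inner ℝ (!₂[x0, x1, x2] : R3) (k • !₂[y0, y1, y2]) =
      k * (x0 * y0 + x1 * y1 + x2 * y2) := by
  rw [inner_smul_right, inner3]

lemma dbar_re_im {φ : ℂ → ℂ} {z w : ℂ} (hd : DifferentiableAt ℝ φ z) (h : dbar φ z = w) :
    (fderiv ℝ φ z 1).re - (fderiv ℝ φ z Complex.I).im = 2 * w.re ∧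
    (fderiv ℝ φ z 1).im + (fderiv ℝ φ z Complex.I).re = 2 * w.im := by
  have h1 := congrArg Complex.re h
  have h2 := congrArg Complex.im h
  simp [dbar] at h1 h2
  constructor <;> linarith

lemma dform_eq (α β : ℂ) : dform α β = ContinuousLinearMap.mul ℝ ℂ α +
    (ContinuousLinearMap.mul ℝ ℂ β).comp (Complex.conjCLE : ℂ →L[ℝ] ℂ) := by
  ext <;> simp [dform]

lemma reform_eq (α : ℂ) :
    reform α = (2 : ℝ) • (Complex.reCLM.comp (ContinuousLinearMap.mul ℝ ℂ α)) := by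
  ext <;> simp [reform]

lemma contDiffOn_dform {Ω : Set ℂ} {f g : ℂ → ℂ} (hf : ContDiffOn ℝ ∞ f Ω)
    (hg : ContDiffOn ℝ ∞ g Ω) : ContDiffOn ℝ ∞ (fun z => dform (f z) (g z)) Ω := by
  simp only [dform_eq]
  refine ((ContinuousLinearMap.mul ℝ ℂ).contDiff.comp_contDiffOn hf).add ?_
  exact ((ContinuousLinearMap.mul ℝ ℂ).contDiff.comp_contDiffOn hg).clm_comp contDiffOn_const

lemma contDiffOn_reform {Ω : Set ℂ} {f : ℂ → ℂ} (hf : ContDiffOn ℝ ∞ f Ω) :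
    ContDiffOn ℝ ∞ (fun z => reform (f z)) Ω := by
  simp only [reform_eq]
  have h : ContDiffOn ℝ ∞ (fun z => Complex.reCLM.comp (ContinuousLinearMap.mul ℝ ℂ (f z))) Ω :=
    (contDiffOn_const (c := Complex.reCLM)).clm_comp
      ((ContinuousLinearMap.mul ℝ ℂ).contDiff.comp_contDiffOn hf)
  exact h.const_smul (2 : ℝ)

end MeanCurv

open MeanCurv

theorem meanCurvature {ε : ℝ} {Ω : Set ℂ} (hΩ : IsOpen Ω) {φ₁ φ₂ Z : ℂ → ℂ} {t : ℂ → ℝ}
    (h1 : ContDiffOn ℝ ∞ φ₁ Ω) (h2 : ContDiffOn ℝ ∞ φ₂ Ω)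
    (pde₁ : ∀ z ∈ Ω, dbar φ₁ z = ((ε * (‖φ₁ z‖ ^ 2 + ‖φ₂ z‖ ^ 2) : ℝ) : ℂ) * conj (φ₂ z))
    (pde₂ : ∀ z ∈ Ω, dbar φ₂ z = -(((ε * (‖φ₁ z‖ ^ 2 + ‖φ₂ z‖ ^ 2) : ℝ) : ℂ) * conj (φ₁ z)))
    (dZ : ∀ z ∈ Ω, HasFDerivAt Z (dform (φ₁ z ^ 2) (-(conj (φ₂ z)) ^ 2)) z)
    (dt : ∀ z ∈ Ω, HasFDerivAt t (reform (φ₁ z * φ₂ z)) z)
    (h0 : ∀ z ∈ Ω, 0 < ‖φ₁ z‖ ^ 2 + ‖φ₂ z‖ ^ 2) :
    ContDiffOn ℝ ∞ Z Ω ∧ ContDiffOn ℝ ∞ t Ω ∧ ContDiffOn ℝ ∞ (Xm Z t) Ω ∧
    (∀ z ∈ Ω, Function.Injective (fderiv ℝ (Xm Z t) z)) ∧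
    ∀ z ∈ Ω, HasMeanCurvatureAt (Xm Z t) (Nm φ₁ φ₂ z) (-2 * ε) z := by
  -- smoothness
  have hc2 : ContDiffOn ℝ ∞ (fun z => conj (φ₂ z)) Ω :=
    Complex.conjCLE.contDiff.comp_contDiffOn h2
  have hZ : ContDiffOn ℝ ∞ Z Ω := by
    rw [contDiffOn_infty_iff_fderiv_of_isOpen hΩ]
    refine ⟨fun z hz => (dZ z hz).differentiableAt.differentiableWithinAt, ?_⟩
    have h : ContDiffOn ℝ ∞ (fun z => dform (φ₁ z ^ 2) (-(conj (φ₂ z)) ^ 2)) Ω :=
      contDiffOn_dform (h1.pow 2) ((hc2.pow 2).neg)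
    exact h.congr fun z hz => (dZ z hz).fderiv
  have ht : ContDiffOn ℝ ∞ t Ω := by
    rw [contDiffOn_infty_iff_fderiv_of_isOpen hΩ]
    refine ⟨fun z hz => (dt z hz).differentiableAt.differentiableWithinAt, ?_⟩
    have h : ContDiffOn ℝ ∞ (fun z => reform (φ₁ z * φ₂ z)) Ω :=
      contDiffOn_reform (h1.mul h2)
    exact h.congr fun z hz => (dt z hz).fderiv
  have hX : ContDiffOn ℝ ∞ (Xm Z t) Ω := by
    rw [contDiffOn_euclidean]
    intro i
    fin_cases i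
    · exact Complex.reCLM.contDiff.comp_contDiffOn hZ
    · exact Complex.imCLM.contDiff.comp_contDiffOn hZ
    · exact ht
  -- the real and imaginary parts
  set a : ℂ → ℝ := fun z => (φ₁ z).re with ha
  set b : ℂ → ℝ := fun z => (φ₁ z).im with hb
  set c : ℂ → ℝ := fun z => (φ₂ z).re with hc
  set d : ℂ → ℝ := fun z => (φ₂ z).im with hd
  have hφ₁ : ∀ z ∈ Ω, DifferentiableAt ℝ φ₁ z := fun z hz =>
    (h1.differentiableOn (by simp)).differentiableAt (hΩ.mem_nhds hz)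
  have hφ₂ : ∀ z ∈ Ω, DifferentiableAt ℝ φ₂ z := fun z hz =>
    (h2.differentiableOn (by simp)).differentiableAt (hΩ.mem_nhds hz)
  have da : ∀ z ∈ Ω, HasFDerivAt a (Complex.reCLM.comp (fderiv ℝ φ₁ z)) z := fun z hz =>
    Complex.reCLM.hasFDerivAt.comp z (hφ₁ z hz).hasFDerivAt
  have db : ∀ z ∈ Ω, HasFDerivAt b (Complex.imCLM.comp (fderiv ℝ φ₁ z)) z := fun z hz =>
    Complex.imCLM.hasFDerivAt.comp z (hφ₁ z hz).hasFDerivAt
  have dc : ∀ z ∈ Ω, HasFDerivAt c (Complex.reCLM.comp (fderiv ℝ φ₂ z)) z := fun z hz =>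
    Complex.reCLM.hasFDerivAt.comp z (hφ₂ z hz).hasFDerivAt
  have dd : ∀ z ∈ Ω, HasFDerivAt d (Complex.imCLM.comp (fderiv ℝ φ₂ z)) z := fun z hz =>
    Complex.imCLM.hasFDerivAt.comp z (hφ₂ z hz).hasFDerivAt
  -- first derivatives of X
  have hXd : ∀ z ∈ Ω, ∀ u : ℂ, fderiv ℝ (Xm Z t) z u =
      !₂[(φ₁ z ^ 2 * u + -(conj (φ₂ z)) ^ 2 * conj u).re,
        (φ₁ z ^ 2 * u + -(conj (φ₂ z)) ^ 2 * conj u).im, 2 * (φ₁ z * φ₂ z * u).re] := by
    intro z hz u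
    have g0 : HasFDerivAt (fun w => Xm Z t w 0)
        (Complex.reCLM.comp (dform (φ₁ z ^ 2) (-(conj (φ₂ z)) ^ 2))) z :=
      Complex.reCLM.hasFDerivAt.comp z (dZ z hz)
    have g1 : HasFDerivAt (fun w => Xm Z t w 1)
        (Complex.imCLM.comp (dform (φ₁ z ^ 2) (-(conj (φ₂ z)) ^ 2))) z :=
      Complex.imCLM.hasFDerivAt.comp z (dZ z hz)
    have g2 : HasFDerivAt (fun w => Xm Z t w 2) (reform (φ₁ z * φ₂ z)) z := dt z hz
    rw [(fderiv_R3 g0 g1 g2 u).2]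
    simp [dform, reform]
  have hpx : ∀ z ∈ Ω, px (Xm Z t) z =
      !₂[a z * a z - b z * b z - c z * c z + d z * d z, 2 * (a z * b z) + 2 * (c z * d z),
        2 * (a z * c z) - 2 * (b z * d z)] := by
    intro z hz
    rw [px, hXd z hz]
    ext i
    fin_cases i
    · simp [ha, hb, hc, hd, pow_two]
      ring
    · simp [ha, hb, hc, hd, pow_two]
      ring
    · simp [ha, hb, hc, hd, pow_two]
      ring
  have hpy : ∀ z ∈ Ω, py (Xm Z t) z =
      !₂[-2 * (a z * b z) + 2 * (c z * d z), a z * a z - b z * b z + c z * c z - d z * d z,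
        -2 * (a z * d z) - 2 * (b z * c z)] := by
    intro z hz
    rw [py, hXd z hz]
    ext i
    fin_cases i
    · simp [ha, hb, hc, hd, pow_two]
      ring
    · simp [ha, hb, hc, hd, pow_two]
      ring
    · simp [ha, hb, hc, hd, pow_two]
      ring
  have hnorm₁ : ∀ z, ‖φ₁ z‖ ^ 2 = a z ^ 2 + b z ^ 2 := by
    intro z
    rw [← Complex.normSq_eq_norm_sq, Complex.normSq_apply]
    ring
  have hnorm₂ : ∀ z, ‖φ₂ z‖ ^ 2 = c z ^ 2 + d z ^ 2 := by
    intro z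
    rw [← Complex.normSq_eq_norm_sq, Complex.normSq_apply]
    ring
  have hpos : ∀ z ∈ Ω, 0 < (a z ^ 2 + b z ^ 2) + (c z ^ 2 + d z ^ 2) := by
    intro z hz
    have := h0 z hz
    rwa [hnorm₁, hnorm₂] at this
  refine ⟨hZ, ht, hX, ?_, ?_⟩
  · -- injectivity
    intro z hz
    rw [injective_iff_map_eq_zero]
    intro u hu
    have hp := hpos z hz
    have hu' : fderiv ℝ (Xm Z t) z u = u.re • px (Xm Z t) z + u.im • py (Xm Z t) z := by
      rw [px, py, ← map_smul, ← map_smul, ← map_add]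
      congr 1
      apply Complex.ext <;> simp
    rw [hu', hpx z hz, hpy z hz] at hu
    have k0 := congrArg (fun p : R3 => p 0) hu
    have k1 := congrArg (fun p : R3 => p 1) hu
    have k2 := congrArg (fun p : R3 => p 2) hu
    simp at k0 k1 k2
    have key : ((a z ^ 2 + b z ^ 2) + (c z ^ 2 + d z ^ 2)) ^ 2 * (u.re ^ 2 + u.im ^ 2) = 0 := by
      linear_combination (u.re * (a z * a z - b z * b z - c z * c z + d z * d z) +
          u.im * (-2 * (a z * b z) + 2 * (c z * d z))) * k0 +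
        (u.re * (2 * (a z * b z) + 2 * (c z * d z)) +
          u.im * (a z * a z - b z * b z + c z * c z - d z * d z)) * k1 +
        (u.re * (2 * (a z * c z) - 2 * (b z * d z)) +
          u.im * (-2 * (a z * d z) - 2 * (b z * c z))) * k2
    have h3 : u.re ^ 2 + u.im ^ 2 = 0 := by
      rcases mul_eq_zero.1 key with h | h
      · exact absurd h (by positivity)
      · exact h
    have h4 : u.re = 0 := by nlinarith [sq_nonneg u.re, sq_nonneg u.im]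
    have h5 : u.im = 0 := by nlinarith [sq_nonneg u.re, sq_nonneg u.im]
    exact Complex.ext h4 h5
  · intro z hz
    have hp := hpos z hz
    set ρ : ℝ := (a z ^ 2 + b z ^ 2) + (c z ^ 2 + d z ^ 2) with hρ
    have hN : Nm φ₁ φ₂ z = ρ⁻¹ • !₂[-2 * (a z * c z + b z * d z), -2 * (b z * c z - a z * d z),
        a z ^ 2 + b z ^ 2 - (c z ^ 2 + d z ^ 2)] := by
      rw [Nm, hnorm₁, hnorm₂]
      congr 1
      ext i
      fin_cases i
      · simp [ha, hb, hc, hd]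
        ring
      · simp [ha, hb, hc, hd]
        ring
      · simp
    -- second derivatives
    have hnear : ∀ᶠ w in nhds z, w ∈ Ω := hΩ.mem_nhds hz
    have epx : px (Xm Z t) =ᶠ[nhds z] fun z =>
      !₂[a z * a z - b z * b z - c z * c z + d z * d z, 2 * (a z * b z) + 2 * (c z * d z),
        2 * (a z * c z) - 2 * (b z * d z)] := hnear.mono hpx
    have epy : py (Xm Z t) =ᶠ[nhds z] fun z =>
      !₂[-2 * (a z * b z) + 2 * (c z * d z), a z * a z - b z * b z + c z * c z - d z * d z,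
        -2 * (a z * d z) - 2 * (b z * c z)] := hnear.mono hpy
    have Da := da z hz
    have Db := db z hz
    have Dc := dc z hz
    have Dd := dd z hz
    have dpx : ∀ u, fderiv ℝ (px (Xm Z t)) z u =
        !₂[2 * a z * (fderiv ℝ φ₁ z u).re - 2 * b z * (fderiv ℝ φ₁ z u).im
            - 2 * c z * (fderiv ℝ φ₂ z u).re + 2 * d z * (fderiv ℝ φ₂ z u).im,
          2 * ((fderiv ℝ φ₁ z u).re * b z + a z * (fderiv ℝ φ₁ z u).im)
            + 2 * ((fderiv ℝ φ₂ z u).re * d z + c z * (fderiv ℝ φ₂ z u).im),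
          2 * ((fderiv ℝ φ₁ z u).re * c z + a z * (fderiv ℝ φ₂ z u).re)
            - 2 * ((fderiv ℝ φ₁ z u).im * d z + b z * (fderiv ℝ φ₂ z u).im)] := by
      intro u
      rw [epx.fderiv_eq, (fderiv_R3 (X := fun z =>
        !₂[a z * a z - b z * b z - c z * c z + d z * d z, 2 * (a z * b z) + 2 * (c z * d z),
          2 * (a z * c z) - 2 * (b z * d z)])
        ((((Da.mul Da).sub (Db.mul Db)).sub (Dc.mul Dc)).add (Dd.mul Dd))
        (((Da.mul Db).const_mul 2).add ((Dc.mul Dd).const_mul 2))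
        (((Da.mul Dc).const_mul 2).sub ((Db.mul Dd).const_mul 2)) u).2]
      ext i
      fin_cases i
      · simp
        ring
      · simp
        ring
      · simp
        ring
    have dpy : ∀ u, fderiv ℝ (py (Xm Z t)) z u =
        !₂[-2 * ((fderiv ℝ φ₁ z u).re * b z + a z * (fderiv ℝ φ₁ z u).im)
            + 2 * ((fderiv ℝ φ₂ z u).re * d z + c z * (fderiv ℝ φ₂ z u).im),
          2 * a z * (fderiv ℝ φ₁ z u).re - 2 * b z * (fderiv ℝ φ₁ z u).im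
            + 2 * c z * (fderiv ℝ φ₂ z u).re - 2 * d z * (fderiv ℝ φ₂ z u).im,
          -2 * ((fderiv ℝ φ₁ z u).re * d z + a z * (fderiv ℝ φ₂ z u).im)
            - 2 * ((fderiv ℝ φ₁ z u).im * c z + b z * (fderiv ℝ φ₂ z u).re)] := by
      intro u
      rw [epy.fderiv_eq, (fderiv_R3 (X := fun z =>
        !₂[-2 * (a z * b z) + 2 * (c z * d z), a z * a z - b z * b z + c z * c z - d z * d z,
          -2 * (a z * d z) - 2 * (b z * c z)])
        (((Da.mul Db).const_mul (-2)).add ((Dc.mul Dd).const_mul 2))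
        ((((Da.mul Da).sub (Db.mul Db)).add (Dc.mul Dc)).sub (Dd.mul Dd))
        (((Da.mul Dd).const_mul (-2)).sub ((Db.mul Dc).const_mul 2)) u).2]
      ext i
      fin_cases i
      · simp
        ring
      · simp
        ring
      · simp
        ring
    obtain ⟨q1, q2⟩ := dbar_re_im (hφ₁ z hz) (pde₁ z hz)
    obtain ⟨q3, q4⟩ := dbar_re_im (hφ₂ z hz) (pde₂ z hz)
    rw [hnorm₁, hnorm₂, ← hρ] at q1 q2 q3 q4
    simp only [Complex.mul_re, Complex.mul_im, Complex.ofReal_re, Complex.ofReal_im,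
      Complex.conj_re, Complex.conj_im, Complex.neg_re, Complex.neg_im, zero_mul, sub_zero,
      add_zero] at q1 q2 q3 q4
    set ax := (fderiv ℝ φ₁ z 1).re
    set ay := (fderiv ℝ φ₁ z Complex.I).re
    set bx := (fderiv ℝ φ₁ z 1).im
    set by' := (fderiv ℝ φ₁ z Complex.I).im
    set cx := (fderiv ℝ φ₂ z 1).re
    set cy := (fderiv ℝ φ₂ z Complex.I).re
    set dx := (fderiv ℝ φ₂ z 1).im
    set dy := (fderiv ℝ φ₂ z Complex.I).im
    have A := alg (a z) (b z) (c z) (d z) ax ay bx by' cx cy dx dy ε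
      (by rw [← hρ]; linarith) (by rw [← hρ]; linarith) (by rw [← hρ]; linarith)
      (by rw [← hρ]; linarith)
    have hρ0 : ρ ≠ 0 := hp.ne'
    refine ⟨?_, ?_, ?_, ?_⟩
    · rw [hN, norm_smul, EuclideanSpace.norm_eq, Fin.sum_univ_three]
      have e : ‖(!₂[-2 * (a z * c z + b z * d z), -2 * (b z * c z - a z * d z),
          a z ^ 2 + b z ^ 2 - (c z ^ 2 + d z ^ 2)] : R3) 0‖ ^ 2 +
          ‖(!₂[-2 * (a z * c z + b z * d z), -2 * (b z * c z - a z * d z),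
          a z ^ 2 + b z ^ 2 - (c z ^ 2 + d z ^ 2)] : R3) 1‖ ^ 2 +
          ‖(!₂[-2 * (a z * c z + b z * d z), -2 * (b z * c z - a z * d z),
          a z ^ 2 + b z ^ 2 - (c z ^ 2 + d z ^ 2)] : R3) 2‖ ^ 2 = ρ ^ 2 := by
        simp only [Real.norm_eq_abs, sq_abs, hρ]
        simp
        ring
      rw [e, Real.sqrt_sq hp.le, norm_inv, Real.norm_eq_abs, abs_of_pos hp,
        inv_mul_cancel₀ hρ0]
    · rw [hN, hpx z hz, inner3_smul]
      ring
    · rw [hN, hpy z hz, inner3_smul]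
      ring
    · have i1 : inner ℝ (px (Xm Z t) z) (px (Xm Z t) z) = ρ ^ 2 := by
        rw [hpx z hz, inner3, hρ]
        ring
      have i2 : inner ℝ (py (Xm Z t) z) (py (Xm Z t) z) = ρ ^ 2 := by
        rw [hpy z hz, inner3, hρ]
        ring
      have i3 : inner ℝ (px (Xm Z t) z) (py (Xm Z t) z) = 0 := by
        rw [hpx z hz, hpy z hz, inner3]
        ring
      rw [i1, i2, i3, px, py, py, dpx 1, dpy Complex.I, hN, inner3_smul, inner3_smul]
      have hfin : ρ ^ 2 * (ρ⁻¹ * (-4 * ε * ρ ^ 3)) = 2 * (-2 * ε) * (ρ ^ 2 * ρ ^ 2 - 0 ^ 2) := by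
        field_simp
        ring
      rw [← hfin, hρ, ← A, ← hρ]
      ring

end Pool.Agent.MP_49383f_gt
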