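import Pool.Agent.MP_49383f_gt.Normal
import Pool.Agent.MP_49383f_gt.MeanCurv

/-!
# MP_49383f_gt, module G16 : charts of the surface at the points of the lower sheet
-/

namespace Pool.Agent.MP_49383f_gt

open scoped ContDiff ComplexConjugate
open MeasureTheory Metric Set

namespace ChartAux

/-- The set-theoretic part of the construction of the charts. -/
theorem sets {K V V' : Set ℂ} {X : ℂ → R3} {R : R3 → R3} {ρ : ℂ → ℝ} {G : Set ℂ} (hGK : G ⊆ K)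
    (H1 : ∀ z ∈ V, 0 ≤ ρ z → z ∈ K ∨ ∃ w ∈ K, X z = R (X w))
    (H2 : ∀ z ∈ K, z ∈ V → 0 ≤ ρ z)
    (H3 : ∀ w ∈ K, w ∈ V' → ∃ z ∈ V, 0 ≤ ρ z ∧ X z = R (X w))
    (H4 : ∀ z ∈ V, 0 ≤ ρ z → ∀ z' ∈ K, X z = X z' → z' ∈ V)
    (H5 : ∀ z ∈ V, 0 ≤ ρ z → ∀ w ∈ K, X z = R (X w) → w ∈ V')
    (H6 : ∀ z ∈ G, z ∈ V → ρ z = 0) (H7 : ∀ z ∈ V, ρ z = 0 → z ∈ G)
    (H8 : ∀ w ∈ G, w ∉ V') :
    (X '' K ∪ R '' (X '' K)) ∩ (X '' (K \ V) ∪ R '' (X '' (K \ V')))ᶜ = X '' {z ∈ V | 0 ≤ ρ z} ∧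
    (X '' G ∪ R '' (X '' G)) ∩ (X '' (K \ V) ∪ R '' (X '' (K \ V')))ᶜ = X '' {z ∈ V | ρ z = 0} ∧
    ∀ z ∈ V, 0 ≤ ρ z → X z ∈ (X '' (K \ V) ∪ R '' (X '' (K \ V')))ᶜ := by
  have key : ∀ z ∈ V, 0 ≤ ρ z → X z ∈ (X '' (K \ V) ∪ R '' (X '' (K \ V')))ᶜ := by
    rintro z hz h0 (⟨z', ⟨hz', hz'V⟩, e⟩ | ⟨_, ⟨w, ⟨hw, hwV⟩, rfl⟩, e⟩)
    · exact hz'V (H4 z hz h0 z' hz' e.symm)
    · exact hwV (H5 z hz h0 w hw e.symm)
  refine ⟨?_, ?_, key⟩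
  · ext p
    constructor
    · rintro ⟨⟨z, hz, rfl⟩ | ⟨_, ⟨w, hw, rfl⟩, rfl⟩, hU⟩
      · have hzV : z ∈ V := by
          by_contra h
          exact hU (Or.inl ⟨z, ⟨hz, h⟩, rfl⟩)
        exact ⟨z, ⟨hzV, H2 z hz hzV⟩, rfl⟩
      · have hwV : w ∈ V' := by
          by_contra h
          exact hU (Or.inr ⟨_, ⟨w, ⟨hw, h⟩, rfl⟩, rfl⟩)
        obtain ⟨z, hz, h0, e⟩ := H3 w hw hwV
        exact ⟨z, ⟨hz, h0⟩, e⟩
    · rintro ⟨z, ⟨hz, h0⟩, rfl⟩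
      refine ⟨?_, key z hz h0⟩
      rcases H1 z hz h0 with h | ⟨w, hw, e⟩
      · exact Or.inl ⟨z, h, rfl⟩
      · exact Or.inr ⟨_, ⟨w, hw, rfl⟩, e.symm⟩
  · ext p
    constructor
    · rintro ⟨⟨z, hz, rfl⟩ | ⟨_, ⟨w, hw, rfl⟩, rfl⟩, hU⟩
      · have hzV : z ∈ V := by
          by_contra h
          exact hU (Or.inl ⟨z, ⟨hGK hz, h⟩, rfl⟩)
        exact ⟨z, ⟨hzV, H6 z hz hzV⟩, rfl⟩
      · exact absurd (Or.inr ⟨_, ⟨w, ⟨hGK hw, H8 w hw⟩, rfl⟩, rfl⟩) hU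
    · rintro ⟨z, ⟨hz, h0⟩, rfl⟩
      exact ⟨Or.inl ⟨z, H7 z hz h0, rfl⟩, key z hz h0.ge⟩

/-- injective and continuous on a compact set containing `V` implies embedding of `V` -/
theorem embedding {X : ℂ → R3} {V B : Set ℂ} (hB : IsCompact B) (hVB : V ⊆ B)
    (hX : ContinuousOn X B) (hinj : InjOn X B) : Topology.IsEmbedding (fun z : V => X z) := by
  have : CompactSpace B := isCompact_iff_compactSpace.1 hB
  have h1 : Topology.IsClosedEmbedding (fun z : B => X z) :=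
    (continuousOn_iff_continuous_domRestrict.1 hX).isClosedEmbedding
      (fun z z' h => Subtype.ext (hinj z.2 z'.2 h))
  have h2 : Topology.IsEmbedding (inclusion hVB) := Topology.IsEmbedding.inclusion hVB
  exact h1.isEmbedding.comp h2

/-- The chart from the data. -/
theorem chart {ε h₀ : ℝ} {φ₁ φ₂ Z : ℂ → ℂ} {t : ℂ → ℝ} {n : R3 → R3} {K V V' G : Set ℂ}
    {ρ : ℂ → ℝ} {B : Set ℂ} (hK : IsCompact K) (hB : IsCompact B) (hV : IsOpen V) (hV' : IsOpen V')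
    (hVB : V ⊆ B) (hBOm : B ⊆ Om ε) (hKOm : K ⊆ Om ε)
    (hXs : ContDiffOn ℝ ∞ (Xm Z t) (Om ε))
    (hXi : ∀ z ∈ Om ε, Function.Injective (fderiv ℝ (Xm Z t) z))
    (hmc : ∀ z ∈ Om ε, HasMeanCurvatureAt (Xm Z t) (Nm φ₁ φ₂ z) (-2 * ε) z)
    (hρ : ContDiffOn ℝ ∞ ρ V) (hρ0 : ∀ z ∈ V, ρ z = 0 → fderiv ℝ ρ z ≠ 0)
    (hn : ∀ z ∈ V, 0 ≤ ρ z → n (Xm Z t z) = Nm φ₁ φ₂ z)
    (hinj : InjOn (Xm Z t) B)
    {z₀ : ℂ} (hz₀ : z₀ ∈ V) (hz₀K : z₀ ∈ K) (hGK : G ⊆ K)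
    (H1 : ∀ z ∈ V, 0 ≤ ρ z → z ∈ K ∨ ∃ w ∈ K, Xm Z t z = RR h₀ (Xm Z t w))
    (H2 : ∀ z ∈ K, z ∈ V → 0 ≤ ρ z)
    (H3 : ∀ w ∈ K, w ∈ V' → ∃ z ∈ V, 0 ≤ ρ z ∧ Xm Z t z = RR h₀ (Xm Z t w))
    (H4 : ∀ z ∈ V, 0 ≤ ρ z → ∀ z' ∈ K, Xm Z t z = Xm Z t z' → z' ∈ V)
    (H5 : ∀ z ∈ V, 0 ≤ ρ z → ∀ w ∈ K, Xm Z t z = RR h₀ (Xm Z t w) → w ∈ V')
    (H6 : ∀ z ∈ G, z ∈ V → ρ z = 0) (H7 : ∀ z ∈ V, ρ z = 0 → z ∈ G)
    (H8 : ∀ w ∈ G, w ∉ V') :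
    HasChartAt (Xm Z t '' K ∪ RR h₀ '' (Xm Z t '' K)) (Xm Z t '' G ∪ RR h₀ '' (Xm Z t '' G)) n
      (-2 * ε) (Xm Z t z₀) := by
  obtain ⟨e1, e2, e3⟩ := sets (R := RR h₀) hGK H1 H2 H3 H4 H5 H6 H7 H8
  have hXc : ContinuousOn (Xm Z t) (Om ε) := hXs.continuousOn
  have c1 : IsCompact (K \ V) := hK.diff hV
  have c2 : IsCompact (K \ V') := hK.diff hV'
  have cl1 : IsClosed (Xm Z t '' (K \ V)) :=
    (c1.image_of_continuousOn (hXc.mono (sdiff_subset.trans hKOm))).isClosed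
  have cl2 : IsClosed (RR h₀ '' (Xm Z t '' (K \ V'))) :=
    ((c2.image_of_continuousOn (hXc.mono (sdiff_subset.trans hKOm))).image (RR_continuous h₀)).isClosed
  have hVOm : V ⊆ Om ε := hVB.trans hBOm
  exact ⟨V, _, Xm Z t, ρ, hV, (cl1.union cl2).isOpen_compl, e3 z₀ hz₀ (H2 z₀ hz₀K hz₀),
    hXs.mono hVOm, hρ, embedding hB hVB (hXc.mono hBOm) hinj, fun z hz => hXi z (hVOm hz), hρ0, e1,
    e2, fun z hz h0 => by rw [hn z hz h0]; exact hmc z (hVOm hz)⟩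

/-- The chart at a point of a neck.  `(a, b)` is `(aa, bb)` or `(bb, aa)`. -/
theorem neck {ε h₀ r : ℝ} (hε : 0 < ε) (hr : 0 < r) (hr1 : r < 1 / 100) (hrε : r = ε ^ 2)
    {φ₁ φ₂ Z : ℂ → ℂ} {t : ℂ → ℝ}
    {n : R3 → R3} {K : Set ℂ} {a b : ℂ} (hab : ‖a - b‖ = 1)
    (hK : IsCompact K) (hKOm : K ⊆ Om ε) (hKr : ∀ z ∈ K, r ≤ ‖z - a‖ ∧ r ≤ ‖z - b‖)
    (hOm : ∀ z, r / 4 < ‖z - a‖ → ‖z - a‖ < 4 * r → z ∈ Om ε)
    (hKa : ∀ z, r ≤ ‖z - a‖ → ‖z - a‖ < 4 * r → z ∈ K ∧ ε / 10 < t z)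
    (hKb : ∀ z, r ≤ ‖z - b‖ → ‖z - b‖ < 4 * r → z ∈ K ∧ ε / 10 < t z)
    (hXs : ContDiffOn ℝ ∞ (Xm Z t) (Om ε))
    (hXi : ∀ z ∈ Om ε, Function.Injective (fderiv ℝ (Xm Z t) z))
    (hmc : ∀ z ∈ Om ε, HasMeanCurvatureAt (Xm Z t) (Nm φ₁ φ₂ z) (-2 * ε) z)
    (hn1 : ∀ z ∈ K, n (Xm Z t z) = Nm φ₁ φ₂ z)
    (hn2 : ∀ z ∈ K, n (RR h₀ (Xm Z t z)) = RL (Nm φ₁ φ₂ z))
    (glue : ∀ z, r / 4 < ‖z - a‖ → ‖z - a‖ < 4 * r → Xm Z t z = RR h₀ (Xm Z t (sg r a b z)))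
    (glueN : ∀ z, r / 4 < ‖z - a‖ → ‖z - a‖ < 4 * r → Nm φ₁ φ₂ z = RL (Nm φ₁ φ₂ (sg r a b z)))
    (inj : InjOn (Xm Z t) K)
    (inja : ∀ z z', r / 4 < ‖z - a‖ → ‖z - a‖ < 4 * r → r / 4 < ‖z' - a‖ → ‖z' - a‖ < 4 * r →
      Xm Z t z = Xm Z t z' → z = z')
    (gap : ∀ z ∈ K, ∀ w ∈ K, Xm Z t z = RR h₀ (Xm Z t w) →
      (‖z - a‖ = r ∧ w = sg r a b z) ∨ (‖w - a‖ = r ∧ z = sg r a b w))
    {z₀ : ℂ} (hz₀ : ‖z₀ - a‖ = r) :
    HasChartAt (Xm Z t '' K ∪ RR h₀ '' (Xm Z t '' K))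
      (Xm Z t '' {z ∈ K | t z = ε / 10} ∪ RR h₀ '' (Xm Z t '' {z ∈ K | t z = ε / 10})) n
      (-2 * ε) (Xm Z t z₀) := by
  have hab' : ∀ z : ℂ, 1 ≤ ‖z - a‖ + ‖z - b‖ := by
    intro z
    calc (1 : ℝ) = ‖a - b‖ := hab.symm
      _ = ‖(z - b) - (z - a)‖ := by congr 1; ring
      _ ≤ ‖z - b‖ + ‖z - a‖ := norm_sub_le _ _
      _ = _ := add_comm _ _
  have hBa : ∀ z ∈ closedBall z₀ (r / 2), r / 4 < ‖z - a‖ ∧ ‖z - a‖ < 4 * r := by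
    intro z hz
    rw [mem_closedBall, dist_eq_norm] at hz
    have h1 : ‖z₀ - a‖ ≤ ‖z - z₀‖ + ‖z - a‖ := by
      calc ‖z₀ - a‖ = ‖(z - a) - (z - z₀)‖ := by congr 1; ring
        _ ≤ ‖z - a‖ + ‖z - z₀‖ := norm_sub_le _ _
        _ = _ := add_comm _ _
    have h2 : ‖z - a‖ ≤ ‖z - z₀‖ + ‖z₀ - a‖ := by
      calc ‖z - a‖ = ‖(z - z₀) + (z₀ - a)‖ := by congr 1; ring
        _ ≤ _ := norm_add_le _ _
    rw [hz₀] at h1 h2
    constructor <;> linarith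
  have hVB : ball z₀ (r / 2) ⊆ closedBall z₀ (r / 2) := ball_subset_closedBall
  have hne : ∀ z, r / 4 < ‖z - a‖ → z ≠ a := by
    rintro z h rfl
    rw [sub_self, norm_zero] at h
    linarith
  -- sizes of the images
  have hsg : ∀ z, z ≠ a → ‖z - a‖ * ‖sg r a b z - b‖ = r ^ 2 := by
    intro z hz
    have : ‖z - a‖ ≠ 0 := norm_ne_zero_iff.2 (sub_ne_zero.2 hz)
    rw [norm_sg_sub]
    field_simp
  have hsz : ∀ z, r / 4 < ‖z - a‖ → ‖z - a‖ < r → sg r a b z ∈ K := by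
    intro z h1 h2
    have h3 := hsg z (hne z h1)
    refine (hKb _ ?_ ?_).1
    · by_contra h
      push Not at h
      nlinarith [norm_nonneg (sg r a b z - b)]
    · by_contra h
      push Not at h
      nlinarith
  have hK0 : ∀ z, ‖z - a‖ < 4 * r → r < ‖z - b‖ := by
    intro z hz
    linarith [hab' z]
  have hK0' : ∀ z, ‖z - b‖ < 4 * r → r < ‖z - a‖ := by
    intro z hz
    linarith [hab' z]
  have hV'op : IsOpen {w : ℂ | w ≠ b ∧ sg r b a w ∈ ball z₀ (r / 2)} := by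
    have h1 : ContinuousOn (sg r b a) {w : ℂ | w ≠ b} := fun w hw =>
      (hasDerivAt_sg r b a hw).continuousAt.continuousWithinAt
    have h2 : IsOpen {w : ℂ | w ≠ b} := isOpen_ne
    exact h1.isOpen_inter_preimage h2 isOpen_ball
  refine chart (V := ball z₀ (r / 2)) (V' := {w : ℂ | w ≠ b ∧ sg r b a w ∈ ball z₀ (r / 2)})
    (ρ := fun _ => 1) (φ₁ := φ₁) (φ₂ := φ₂) hK (isCompact_closedBall z₀ (r / 2)) isOpen_ball hV'op hVB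
    (fun z hz => hOm z (hBa z hz).1 (hBa z hz).2) hKOm hXs hXi hmc contDiffOn_const
    (fun z _ h => absurd h one_ne_zero) ?_
    (fun z hz z' hz' h => inja z z' (hBa z hz).1 (hBa z hz).2 (hBa z' hz').1 (hBa z' hz').2 h)
    (mem_ball_self (by positivity)) (hKa z₀ hz₀.ge (by linarith)).1 (fun z hz => hz.1)
    ?_ ?_ ?_ ?_ ?_ ?_ ?_ ?_
  · -- normal
    intro z hz _
    obtain ⟨h1, h2⟩ := hBa z (hVB hz)
    rcases le_or_gt r ‖z - a‖ with h | h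
    · exact hn1 z (hKa z h h2).1
    · rw [glue z h1 h2, hn2 _ (hsz z h1 h), glueN z h1 h2]
  · -- H1
    intro z hz _
    obtain ⟨h1, h2⟩ := hBa z (hVB hz)
    rcases le_or_gt r ‖z - a‖ with h | h
    · exact Or.inl (hKa z h h2).1
    · exact Or.inr ⟨_, hsz z h1 h, glue z h1 h2⟩
  · intro z _ _
    exact zero_le_one
  · -- H3
    rintro w hw ⟨hwb, hwV⟩
    refine ⟨sg r b a w, hwV, zero_le_one, ?_⟩
    obtain ⟨h1, h2⟩ := hBa _ (hVB hwV)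
    rw [glue _ h1 h2, sg_sg hr.ne' b a hwb]
  · -- H4
    intro z hz _ z' hz' e
    obtain ⟨h1, h2⟩ := hBa z (hVB hz)
    rcases le_or_gt r ‖z - a‖ with h | h
    · rw [← inj (hKa z h h2).1 hz' e]; exact hz
    · exfalso
      have hs := hsz z h1 h
      have h3 := hsg z (hne z h1)
      rw [glue z h1 h2] at e
      rcases gap z' hz' _ hs e.symm with ⟨h4, h5⟩ | ⟨h4, h5⟩
      · have h6 : z = z' := by
          rw [← sg_sg hr.ne' a b (hne z h1), h5, sg_sg hr.ne' a b]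
          rintro rfl
          rw [sub_self, norm_zero] at h4
          linarith
        rw [h6] at h
        linarith
      · -- `sg z` is near `b`
        have h7 : ‖sg r a b z - b‖ < 4 * r := by
          by_contra h8
          push Not at h8
          nlinarith
        linarith [hK0' _ h7]
  · -- H5
    intro z hz _ w hw e
    obtain ⟨h1, h2⟩ := hBa z (hVB hz)
    have main : w = sg r a b z → w ≠ b ∧ sg r b a w ∈ ball z₀ (r / 2) := by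
      intro h
      rw [h]
      exact ⟨sg_ne hr.ne' a b (hne z h1), by rw [sg_sg hr.ne' a b (hne z h1)]; exact hz⟩
    rcases le_or_gt r ‖z - a‖ with h | h
    · rcases gap z (hKa z h h2).1 w hw e with ⟨h4, h5⟩ | ⟨h4, h5⟩
      · exact main h5
      · exfalso
        have hwa : w ≠ a := by
          rintro rfl
          rw [sub_self, norm_zero] at h4
          linarith
        have h6 := hsg w hwa
        rw [h4, ← h5] at h6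
        have h7 := hK0 z h2
        nlinarith
    · apply main
      rw [glue z h1 h2] at e
      have e' : Xm Z t (sg r a b z) = Xm Z t w := by
        rw [← RR_RR h₀ (Xm Z t (sg r a b z)), e, RR_RR]
      exact (inj (hsz z h1 h) hw e').symm
  · -- H6
    rintro z ⟨hzK, hzt⟩ hz
    obtain ⟨h1, h2⟩ := hBa z (hVB hz)
    exact absurd hzt (hKa z (hKr z hzK).1 h2).2.ne'
  · intro z _ h
    exact absurd h one_ne_zero
  · -- H8
    rintro w ⟨hwK, hwt⟩ ⟨hwb, hwV⟩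
    obtain ⟨h1, h2⟩ := hBa _ (hVB hwV)
    have h3 := hsg _ (hne _ h1)
    rw [sg_sg hr.ne' b a hwb] at h3
    have h4 : ‖w - b‖ < 4 * r := by
      by_contra h
      push Not at h
      nlinarith
    exact absurd hwt (hKb w (hKr w hwK).2 h4).2.ne'

end ChartAux

open ChartAux in
theorem chart_lower (C C' : ℝ) : ∃ ε₀ > 0, ∀ ε : ℝ, 0 < ε → ε < ε₀ → ∀ φ₁ φ₂ Z t h₀,
    Surf C ε φ₁ φ₂ Z t h₀ → Est C' ε Z t h₀ → ∀ n : R3 → R3,
      (∀ z ∈ KK ε t, n (Xm Z t z) = Nm φ₁ φ₂ z) →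
      (∀ z ∈ KK ε t, n (RR h₀ (Xm Z t z)) = RL (Nm φ₁ φ₂ z)) →
      ∀ z₀ ∈ KK ε t, HasChartAt (SS ε Z t h₀) (Gam ε Z t ∪ RR h₀ '' Gam ε Z t) n (-2 * ε)
        (Xm Z t z₀) := by
  obtain ⟨e1, he1, injE⟩ := inj_of_est C'
  obtain ⟨e2, he2, gapE⟩ := gap_of_est C'
  obtain ⟨e3, he3, kf⟩ := KK_facts C C'
  obtain ⟨e4, he4, injA⟩ := inj_annulus C'
  have hC0 : 0 < |C| + 1 := by positivity
  refine ⟨min (min e1 e2) (min (min e3 e4) (min (1 / 20) (1 / (4 * (|C| + 1))))), by positivity, ?_⟩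
  intro ε hε hlt φ₁ φ₂ Z t h₀ S E n hn1 hn2 z₀ hz₀
  simp only [lt_min_iff] at hlt
  obtain ⟨⟨l1, l2⟩, ⟨l3, l4⟩, l5, l6⟩ := hlt
  obtain ⟨kW, kcomp, -, kgam, khigh, kneck, klow⟩ := kf ε hε l3 φ₁ φ₂ Z t h₀ S E
  obtain ⟨r, hrdef⟩ : ∃ r, r = ε ^ 2 := ⟨_, rfl⟩
  have hr0 : 0 < r := by rw [hrdef]; positivity
  have hr1 : r < 1 / 100 := by rw [hrdef]; nlinarith
  have hinj' := injE ε hε l1 Z t h₀ E
  have hgap' := gapE ε hε l2 Z t h₀ E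
  have hinjA' := injA ε hε l4 Z t h₀ E
  have hKOm : KK ε t ⊆ Om ε := kW.trans (WW_subset_Om hε)
  have hOm0 : Om ε ⊆ Om0 ε := by
    intro z hz
    have h2 := norm_le_of_mem_Rect hz.1
    have : 0 < ε ^ 2 := by positivity
    exact ⟨by linarith, by linarith [hz.2.1], by linarith [hz.2.2]⟩
  have hab' : ∀ z : ℂ, 1 ≤ ‖z - aa‖ + ‖z - bb‖ := by
    intro z
    calc (1 : ℝ) = ‖aa - bb‖ := norm_aa_sub_bb.symm
      _ = ‖(z - bb) - (z - aa)‖ := by congr 1; ring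
      _ ≤ ‖z - bb‖ + ‖z - aa‖ := norm_sub_le _ _
      _ = _ := add_comm _ _
  have hX : ContinuousOn (Xm Z t) (KK ε t) :=
    Xm_continuousOn (fun z hz => (S.dZ z (hKOm hz)).continuousAt.continuousWithinAt)
      (fun z hz => (S.dt z (hKOm hz)).continuousAt.continuousWithinAt)
  -- near the necks
  have hUa : ∀ z, ‖z - aa‖ < 4 * r → z ∈ Ubar ∧ z ∈ Rect ∧ 15 / 100 ≤ TT z := by
    intro z hz
    obtain ⟨h1, h2, h3⟩ := KFacts.TT_near (z := z) (Or.inl (by linarith))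
    have hU : z ∈ Ubar := ⟨h2, h3, by linarith⟩
    exact ⟨hU, KFacts.Ubar_subset_Rect hU, h1⟩
  have hUb : ∀ z, ‖z - bb‖ < 4 * r → z ∈ Ubar ∧ z ∈ Rect ∧ 15 / 100 ≤ TT z := by
    intro z hz
    obtain ⟨h1, h2, h3⟩ := KFacts.TT_near (z := z) (Or.inr (by linarith))
    have hU : z ∈ Ubar := ⟨h2, h3, by linarith⟩
    exact ⟨hU, KFacts.Ubar_subset_Rect hU, h1⟩
  have hKa : ∀ z, r ≤ ‖z - aa‖ → ‖z - aa‖ < 4 * r → z ∈ KK ε t ∧ ε / 10 < t z := by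
    intro z h1 h2
    obtain ⟨u1, u2, u3⟩ := hUa z h2
    have h3 : r ≤ ‖z - bb‖ := by linarith [hab' z]
    rw [hrdef] at h1 h3
    have ht := khigh z u1 h1 h3 (by linarith)
    exact ⟨⟨u1, h1, h3, ht.le⟩, ht⟩
  have hKb : ∀ z, r ≤ ‖z - bb‖ → ‖z - bb‖ < 4 * r → z ∈ KK ε t ∧ ε / 10 < t z := by
    intro z h1 h2
    obtain ⟨u1, u2, u3⟩ := hUb z h2
    have h3 : r ≤ ‖z - aa‖ := by linarith [hab' z]
    rw [hrdef] at h1 h3
    have ht := khigh z u1 h3 h1 (by linarith)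
    exact ⟨⟨u1, h3, h1, ht.le⟩, ht⟩
  have hOma : ∀ z, r / 4 < ‖z - aa‖ → ‖z - aa‖ < 4 * r → z ∈ Om ε := by
    intro z h1 h2
    refine ⟨(hUa z h2).2.1, by rw [← hrdef]; exact h1, ?_⟩
    rw [← hrdef]
    linarith [hab' z]
  have hOmb : ∀ z, r / 4 < ‖z - bb‖ → ‖z - bb‖ < 4 * r → z ∈ Om ε := by
    intro z h1 h2
    refine ⟨(hUb z h2).2.1, ?_, by rw [← hrdef]; exact h1⟩
    rw [← hrdef]
    linarith [hab' z]
  have hKr : ∀ z ∈ KK ε t, r ≤ ‖z - aa‖ ∧ r ≤ ‖z - bb‖ := by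
    intro z hz
    rw [hrdef]
    exact ⟨hz.2.1, hz.2.2.1⟩
  -- the Moebius map
  have hsg : ∀ a b z : ℂ, r / 4 < ‖z - a‖ → ‖z - a‖ < 4 * r →
      z ≠ a ∧ sg r a b z ≠ b ∧ r / 4 < ‖sg r a b z - b‖ ∧ ‖sg r a b z - b‖ < 4 * r ∧
        ‖z - a‖ * ‖sg r a b z - b‖ = r ^ 2 := by
    intro a b z h1 h2
    have hza : z ≠ a := by
      rintro rfl
      rw [sub_self, norm_zero] at h1
      linarith
    have hne : ‖z - a‖ ≠ 0 := norm_ne_zero_iff.2 (sub_ne_zero.2 hza)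
    have h3 : ‖z - a‖ * ‖sg r a b z - b‖ = r ^ 2 := by
      rw [norm_sg_sub]
      field_simp
    refine ⟨hza, sg_ne hr0.ne' a b hza, ?_, ?_, h3⟩
    · by_contra h
      push Not at h
      nlinarith [norm_nonneg (sg r a b z - b)]
    · by_contra h
      push Not at h
      nlinarith
  -- gluing
  have glueA : ∀ z, r / 4 < ‖z - aa‖ → ‖z - aa‖ < 4 * r →
      Xm Z t z = RR h₀ (Xm Z t (sg r aa bb z)) := by
    intro z h1 h2
    rw [hrdef] at h1 h2 ⊢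
    exact Xm_eq_RR_iff.2 ⟨S.Zglue z h1 h2, S.tglue z h1 h2⟩
  have glueB : ∀ z, r / 4 < ‖z - bb‖ → ‖z - bb‖ < 4 * r →
      Xm Z t z = RR h₀ (Xm Z t (sg r bb aa z)) := by
    intro z h1 h2
    obtain ⟨g1, g2, g3, g4, g5⟩ := hsg bb aa z h1 h2
    have := glueA _ g3 g4
    rw [sg_sg hr0.ne' bb aa g1] at this
    rw [this, RR_RR]
  have glueNA : ∀ z, r / 4 < ‖z - aa‖ → ‖z - aa‖ < 4 * r →
      Nm φ₁ φ₂ z = RL (Nm φ₁ φ₂ (sg r aa bb z)) := by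
    intro z h1 h2
    rw [hrdef] at h1 h2 ⊢
    exact NormalAux.Nm_glue hε S.toCore (by linarith) (by linarith)
  have glueNB : ∀ z, r / 4 < ‖z - bb‖ → ‖z - bb‖ < 4 * r →
      Nm φ₁ φ₂ z = RL (Nm φ₁ φ₂ (sg r bb aa z)) := by
    intro z h1 h2
    obtain ⟨g1, g2, g3, g4, g5⟩ := hsg bb aa z h1 h2
    have := glueNA _ g3 g4
    rw [sg_sg hr0.ne' bb aa g1] at this
    rw [this, RL_RL]
  -- injectivity and gap
  have inj : InjOn (Xm Z t) (KK ε t) := by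
    intro z hz z' hz' e
    obtain ⟨i1, i2⟩ := Xm_eq_iff.1 e
    exact hinj' z (kW hz) z' (kW hz') i1 i2
  have injaA : ∀ z z', r / 4 < ‖z - aa‖ → ‖z - aa‖ < 4 * r → r / 4 < ‖z' - aa‖ →
      ‖z' - aa‖ < 4 * r → Xm Z t z = Xm Z t z' → z = z' := by
    intro z z' h1 h2 h3 h4 e
    rw [hrdef] at h1 h2 h3 h4
    obtain ⟨i1, i2⟩ := Xm_eq_iff.1 e
    exact hinjA' z z' h1 h2 h3 h4 i1 i2
  have injaB : ∀ z z', r / 4 < ‖z - bb‖ → ‖z - bb‖ < 4 * r → r / 4 < ‖z' - bb‖ →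
      ‖z' - bb‖ < 4 * r → Xm Z t z = Xm Z t z' → z = z' := by
    intro z z' h1 h2 h3 h4 e
    obtain ⟨g1, g2, g3, g4, g5⟩ := hsg bb aa z h1 h2
    obtain ⟨g1', g2', g3', g4', g5'⟩ := hsg bb aa z' h3 h4
    rw [glueB z h1 h2, glueB z' h3 h4] at e
    have e' : Xm Z t (sg r bb aa z) = Xm Z t (sg r bb aa z') := by
      rw [← RR_RR h₀ (Xm Z t (sg r bb aa z)), e, RR_RR]
    have h5 := injaA _ _ g3 g4 g3' g4' e'
    rw [← sg_sg hr0.ne' bb aa g1, h5, sg_sg hr0.ne' bb aa g1']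
  have gapA : ∀ z ∈ KK ε t, ∀ w ∈ KK ε t, Xm Z t z = RR h₀ (Xm Z t w) →
      (‖z - aa‖ = r ∧ w = sg r aa bb z) ∨ (‖w - aa‖ = r ∧ z = sg r aa bb w) := by
    intro z hz w hw e
    obtain ⟨i1, i2⟩ := Xm_eq_RR_iff.1 e
    rw [hrdef]
    exact hgap' z (kW hz) w (kW hw) i1 i2
  have gapB : ∀ z ∈ KK ε t, ∀ w ∈ KK ε t, Xm Z t z = RR h₀ (Xm Z t w) →
      (‖z - bb‖ = r ∧ w = sg r bb aa z) ∨ (‖w - bb‖ = r ∧ z = sg r bb aa w) := by
    intro z hz w hw e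
    rcases gapA z hz w hw e with ⟨h1, h2⟩ | ⟨h1, h2⟩
    · obtain ⟨g1, g2, g3, g4, g5⟩ := hsg aa bb z (by rw [h1]; linarith) (by rw [h1]; linarith)
      refine Or.inr ⟨?_, ?_⟩
      · rw [h1] at g5
        rw [h2]
        have : r * ‖sg r aa bb z - bb‖ = r * r := by rw [g5]; ring
        exact mul_left_cancel₀ hr0.ne' this
      · rw [h2, sg_sg hr0.ne' aa bb g1]
    · obtain ⟨g1, g2, g3, g4, g5⟩ := hsg aa bb w (by rw [h1]; linarith) (by rw [h1]; linarith)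
      refine Or.inl ⟨?_, ?_⟩
      · rw [h1] at g5
        rw [h2]
        have : r * ‖sg r aa bb w - bb‖ = r * r := by rw [g5]; ring
        exact mul_left_cancel₀ hr0.ne' this
      · rw [h2, sg_sg hr0.ne' aa bb g1]
  -- the spinor does not vanish
  have hφW : ∀ z ∈ WW ε, φ₁ z ≠ 0 := by
    intro z h1 h0
    have h2 := S.est₁ z (norm_le_of_mem_Rect h1.1) h1.2.1 h1.2.2
    rw [h0, zero_sub, norm_neg, norm_one] at h2
    have hr : 0 < ε ^ 2 := by positivity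
    have wa : ε ^ 2 / ‖z - aa‖ ≤ 1 := (div_le_one (hr.trans_le h1.2.1)).2 h1.2.1
    have wb : ε ^ 2 / ‖z - bb‖ ≤ 1 := (div_le_one (hr.trans_le h1.2.2)).2 h1.2.2
    have wa0 : 0 ≤ ε ^ 2 / ‖z - aa‖ := by positivity
    have wb0 : 0 ≤ ε ^ 2 / ‖z - bb‖ := by positivity
    have h3 : ε ^ 2 + ε * (ε ^ 2 / ‖z - aa‖) + ε * (ε ^ 2 / ‖z - bb‖) ≤ 3 * ε := by nlinarith
    have h4 : 0 ≤ ε ^ 2 + ε * (ε ^ 2 / ‖z - aa‖) + ε * (ε ^ 2 / ‖z - bb‖) := by positivity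
    have h5 : C * (ε ^ 2 + ε * (ε ^ 2 / ‖z - aa‖) + ε * (ε ^ 2 / ‖z - bb‖)) ≤ |C| * (3 * ε) := by
      calc C * (ε ^ 2 + ε * (ε ^ 2 / ‖z - aa‖) + ε * (ε ^ 2 / ‖z - bb‖))
          ≤ |C| * (ε ^ 2 + ε * (ε ^ 2 / ‖z - aa‖) + ε * (ε ^ 2 / ‖z - bb‖)) :=
            mul_le_mul_of_nonneg_right (le_abs_self C) h4
        _ ≤ |C| * (3 * ε) := mul_le_mul_of_nonneg_left h3 (abs_nonneg C)
    rw [lt_div_iff₀ (by positivity)] at l6
    nlinarith [abs_nonneg C]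
  have hφ : ∀ z ∈ Om ε, 0 < ‖φ₁ z‖ ^ 2 + ‖φ₂ z‖ ^ 2 := by
    intro z hz
    have hz1 := hz.2.1
    have hz2 := hz.2.2
    rw [← hrdef] at hz1 hz2
    rcases le_or_gt r ‖z - aa‖ with ha | ha
    · rcases le_or_gt r ‖z - bb‖ with hb | hb
      · have h1 := hφW z ⟨hz.1, by rw [← hrdef]; exact ha, by rw [← hrdef]; exact hb⟩
        have : 0 < ‖φ₁ z‖ := norm_pos_iff.2 h1
        positivity
      · -- `z` in the disc about `bb`
        obtain ⟨g1, g2, g3, g4, g5⟩ := hsg bb aa z hz2 (by linarith)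
        have h3 : r ≤ ‖sg r bb aa z - aa‖ := by
          by_contra h
          push Not at h
          nlinarith [norm_nonneg (sg r bb aa z - aa)]
        have h4 := (hKa _ h3 g4).1
        have h5 := hφW _ (kW h4)
        have h6 := S.glue₁ (sg r bb aa z) (by rw [← hrdef]; linarith) (by rw [← hrdef]; linarith)
        rw [← hrdef, sg_sg hr0.ne' bb aa g1] at h6
        have h7 : φ₂ z ≠ 0 := by
          intro h8
          rw [h8, mul_zero] at h6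
          exact h5 h6
        have : 0 < ‖φ₂ z‖ := norm_pos_iff.2 h7
        positivity
    · obtain ⟨g1, g2, g3, g4, g5⟩ := hsg aa bb z hz1 (by linarith)
      have h3 : r ≤ ‖sg r aa bb z - bb‖ := by
        by_contra h
        push Not at h
        nlinarith [norm_nonneg (sg r aa bb z - bb)]
      have h4 := (hKb _ h3 g4).1
      have h5 := hφW _ (kW h4)
      have h6 := S.glue₂ z (by rw [← hrdef]; linarith) (by rw [← hrdef]; linarith)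
      rw [← hrdef] at h6
      have h7 : φ₂ z ≠ 0 := by
        rw [h6, neg_ne_zero]
        refine mul_ne_zero (div_ne_zero ?_ (sub_ne_zero.2 g1)) h5
        exact_mod_cast hr0.ne'
      have : 0 < ‖φ₂ z‖ := norm_pos_iff.2 h7
      positivity
  obtain ⟨hZs, hts, hXs, hXi, hmc⟩ := meanCurvature (isOpen_Om ε) (S.smooth₁.mono hOm0)
    (S.smooth₂.mono hOm0) (fun z hz => S.pde₁ z (hOm0 hz)) (fun z hz => S.pde₂ z (hOm0 hz)) S.dZ S.dt hφ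
  rcases eq_or_lt_of_le (hKr z₀ hz₀).1 with ha | ha
  · exact neck hε hr0 hr1 hrdef norm_aa_sub_bb kcomp hKOm hKr hOma hKa hKb hXs hXi hmc hn1 hn2
      glueA glueNA inj injaA gapA ha.symm
  rcases eq_or_lt_of_le (hKr z₀ hz₀).2 with hb | hb
  · exact neck hε hr0 hr1 hrdef norm_bb_sub_aa kcomp hKOm (fun z hz => (hKr z hz).symm) hOmb hKb hKa
      hXs hXi hmc hn1 hn2 glueB glueNB inj injaB gapB hb.symm
  -- the general point
  have hT0 : 9 / 100 ≤ TT z₀ := by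
    by_contra h
    push Not at h
    have := klow z₀ (kW hz₀) hz₀.1 h
    linarith [hz₀.2.2.2]
  have hOo : IsOpen {z : ℂ | z ∈ Rect ∧ r < ‖z - aa‖ ∧ r < ‖z - bb‖ ∧ 1 / 20 < TT z ∧ z.re < 3} := by
    have h1 : IsOpen {z : ℂ | r < ‖z - aa‖} := isOpen_lt (by fun_prop) (by fun_prop)
    have h2 : IsOpen {z : ℂ | r < ‖z - bb‖} := isOpen_lt (by fun_prop) (by fun_prop)
    have h3 : IsOpen {z : ℂ | 1 / 20 < TT z} := by
      refine isOpen_lt (by fun_prop) ?_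
      unfold TT
      fun_prop
    have h4 : IsOpen {z : ℂ | z.re < 3} := isOpen_lt (by fun_prop) (by fun_prop)
    exact isOpen_Rect.inter (h1.inter (h2.inter (h3.inter h4)))
  obtain ⟨δ, hδ, hδO⟩ := Metric.nhds_basis_closedBall.mem_iff.1 (hOo.mem_nhds
    (show z₀ ∈ {z : ℂ | z ∈ Rect ∧ r < ‖z - aa‖ ∧ r < ‖z - bb‖ ∧ 1 / 20 < TT z ∧ z.re < 3} from
      ⟨(kW hz₀).1, ha, hb, by linarith, KFacts.re_lt_of_mem hz₀.1⟩))
  have hBW : closedBall z₀ δ ⊆ WW ε := fun z hz => by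
    obtain ⟨q1, q2, q3, q4, q5⟩ := hδO hz
    rw [hrdef] at q2 q3
    exact ⟨q1, q2.le, q3.le⟩
  have hVB : ball z₀ δ ⊆ closedBall z₀ δ := ball_subset_closedBall
  have hVK : ∀ z ∈ ball z₀ δ, 0 ≤ t z - ε / 10 → z ∈ KK ε t := by
    intro z hz h0
    obtain ⟨q1, q2, q3, q4, q5⟩ := hδO (hVB hz)
    rw [hrdef] at q2 q3
    exact ⟨⟨by linarith [q1.1], q5.le, q4.le⟩, q2.le, q3.le, by linarith⟩
  refine chart (V := ball z₀ δ) (V' := ∅) (ρ := fun z => t z - ε / 10) (φ₁ := φ₁) (φ₂ := φ₂)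
    kcomp (isCompact_closedBall z₀ δ) isOpen_ball isOpen_empty hVB
    (hBW.trans (WW_subset_Om hε)) hKOm hXs hXi hmc
    ((hts.mono (hVB.trans (hBW.trans (WW_subset_Om hε)))).sub contDiffOn_const) ?_
    (fun z hz h0 => hn1 z (hVK z hz h0)) ?_ (mem_ball_self hδ) hz₀ (fun z hz => hz.1)
    (fun z hz h0 => Or.inl (hVK z hz h0)) (fun z hz _ => by linarith [hz.2.2.2])
    (fun w _ h => absurd h (notMem_empty w)) ?_ ?_ ?_ ?_ (fun w _ => notMem_empty w)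
  · intro z hz h0
    have hzK := hVK z hz h0.ge
    have h1 := (kgam z hzK (by linarith)).2.2.2.2.2
    rw [fderiv_sub_const]
    exact h1
  · intro z hz z' hz' e
    obtain ⟨i1, i2⟩ := Xm_eq_iff.1 e
    exact hinj' z (hBW hz) z' (hBW hz') i1 i2
  · intro z hz h0 z' hz' e
    rw [← inj (hVK z hz h0) hz' e]
    exact hz
  · intro z hz h0 w hw e
    exfalso
    obtain ⟨q1, q2, q3, q4, q5⟩ := hδO (hVB hz)
    rcases gapA z (hVK z hz h0) w hw e with ⟨h1, h2⟩ | ⟨h1, h2⟩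
    · linarith
    · obtain ⟨g1, g2, g3, g4, g5⟩ := hsg aa bb w (by rw [h1]; linarith) (by rw [h1]; linarith)
      rw [← h2, h1] at g5
      nlinarith
  · rintro z ⟨_, h⟩ _
    simp only [h, sub_self]
  · intro z hz h0
    exact ⟨hVK z hz h0.ge, by linarith⟩

end Pool.Agent.MP_49383f_gt
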