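import Pool.Agent.MP_49383f_gt.Basic

/-!
# MP_49383f_gt, module G17 : the rotation `RR` maps charts to charts
-/

namespace Pool.Agent.MP_49383f_gt

open scoped ContDiff ComplexConjugate
open MeasureTheory Metric Set

namespace ChartRRAux

/-- the linear part of the rotation as a continuous linear map -/
noncomputable def RLl : R3 →L[ℝ] R3 :=
  LinearMap.toContinuousLinearMap
    { toFun := RL
      map_add' := fun p q => by
        ext i; fin_cases i
        · simp [RL]; ring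
        · simp [RL]
        · simp [RL]; ring
      map_smul' := fun c p => by
        ext i; fin_cases i <;> simp [RL] }

theorem RLl_apply (p : R3) : RLl p = RL p := rfl

theorem inner_RL (p q : R3) : inner ℝ (RL p) (RL q) = inner ℝ p q := by
  simp [RL, PiLp.inner_apply, Fin.sum_univ_three]

theorem RR_eq (h₀ : ℝ) (p : R3) : RR h₀ p = RLl p + !₂[2, 0, h₀] := by
  rw [RLl_apply]
  ext i; fin_cases i
  · simp [RL, RR]; ring
  · simp [RL, RR]
  · simp [RL, RR]; ring

theorem norm_RL (p : R3) : ‖RL p‖ = ‖p‖ := by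
  rw [EuclideanSpace.norm_eq, EuclideanSpace.norm_eq]
  simp [RL, Fin.sum_univ_three]

theorem hasFDerivAt_comp {X : ℂ → R3} {h₀ : ℝ} {z : ℂ} (hX : DifferentiableAt ℝ X z) :
    HasFDerivAt (fun w => RR h₀ (X w)) (RLl.comp (fderiv ℝ X z)) z := by
  have h1 : HasFDerivAt (fun w => RLl (X w)) (RLl.comp (fderiv ℝ X z)) z :=
    RLl.hasFDerivAt.comp z hX.hasFDerivAt
  have h2 := h1.add_const (!₂[2, 0, h₀] : R3)
  refine h2.congr_of_eventuallyEq (Filter.Eventually.of_forall fun w => ?_)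
  exact RR_eq h₀ (X w)

/-- directional derivative of `RR ∘ X` -/
theorem fderiv_comp {X : ℂ → R3} {h₀ : ℝ} {z : ℂ} (hX : DifferentiableAt ℝ X z) (u : ℂ) :
    fderiv ℝ (fun w => RR h₀ (X w)) z u = RL (fderiv ℝ X z u) := by
  rw [(hasFDerivAt_comp hX).fderiv]
  rfl

/-- second directional derivative -/
theorem fderiv_fderiv_comp {X : ℂ → R3} {V : Set ℂ} (hV : IsOpen V) (hX : ContDiffOn ℝ ∞ X V)
    {h₀ : ℝ} {z : ℂ} (hz : z ∈ V) (u v : ℂ) :
    fderiv ℝ (fun w => fderiv ℝ (fun w => RR h₀ (X w)) w u) z v =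
      RL (fderiv ℝ (fun w => fderiv ℝ X w u) z v) := by
  have hd : ∀ w ∈ V, DifferentiableAt ℝ X w := fun w hw =>
    ((hX.differentiableOn (by simp)).differentiableAt (hV.mem_nhds hw))
  have h1 : (fun w => fderiv ℝ (fun w => RR h₀ (X w)) w u) =ᶠ[nhds z]
      fun w => RLl (fderiv ℝ X w u) := by
    filter_upwards [hV.mem_nhds hz] with w hw
    rw [fderiv_comp (hd w hw)]
    rfl
  have h2 : DifferentiableAt ℝ (fun w => fderiv ℝ X w u) z := by
    have h3 : ContDiffOn ℝ 1 (fderiv ℝ X) V := hX.fderiv_of_isOpen hV (by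
      norm_cast)
    have h4 : DifferentiableAt ℝ (fderiv ℝ X) z :=
      (h3.differentiableOn (by simp)).differentiableAt (hV.mem_nhds hz)
    exact h4.clm_apply (differentiableAt_const u)
  rw [h1.fderiv_eq]
  have h5 : HasFDerivAt (fun w => RLl (fderiv ℝ X w u))
      (RLl.comp (fderiv ℝ (fun w => fderiv ℝ X w u) z)) z :=
    RLl.hasFDerivAt.comp z h2.hasFDerivAt
  rw [h5.fderiv]
  rfl

theorem RR_injective (h₀ : ℝ) : Function.Injective (RR h₀) := fun p q h => by
  rw [← RR_RR h₀ p, h, RR_RR]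

theorem RL_injective : Function.Injective RL := fun p q h => by
  rw [← RL_RL p, h, RL_RL]

/-- the rotation as a homeomorphism -/
noncomputable def RRh (h₀ : ℝ) : R3 ≃ₜ R3 where
  toFun := RR h₀
  invFun := RR h₀
  left_inv := RR_RR h₀
  right_inv := RR_RR h₀
  continuous_toFun := RR_continuous h₀
  continuous_invFun := RR_continuous h₀

end ChartRRAux

open ChartRRAux in
theorem HasChartAt.RR {S Γ : Set R3} {n : R3 → R3} {H h₀ : ℝ} {p : R3}
    (h : HasChartAt S Γ n H p) (hS : RR h₀ '' S = S) (hΓ : RR h₀ '' Γ = Γ)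
    (hn : ∀ p ∈ S, n (RR h₀ p) = RL (n p)) : HasChartAt S Γ n H (RR h₀ p) := by
  obtain ⟨V, U, X, ρ, hV, hU, hp, hX, hρ, hemb, hinj, hρ0, hSU, hΓU, hH⟩ := h
  have hd : ∀ w ∈ V, DifferentiableAt ℝ X w := fun w hw =>
    ((hX.differentiableOn (by simp)).differentiableAt (hV.mem_nhds hw))
  refine ⟨V, Pool.Agent.MP_49383f_gt.RR h₀ '' U, fun z => Pool.Agent.MP_49383f_gt.RR h₀ (X z), ρ,
    hV, ?_, mem_image_of_mem _ hp, ?_, hρ, ?_, ?_, hρ0, ?_, ?_, ?_⟩
  · exact (RRh h₀).isOpenMap U hU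
  · have e : (fun z => Pool.Agent.MP_49383f_gt.RR h₀ (X z)) =
        fun z => RLl (X z) + !₂[2, 0, h₀] := funext fun z => RR_eq h₀ (X z)
    rw [e]
    exact (RLl.contDiff.comp_contDiffOn hX).add contDiffOn_const
  · exact (RRh h₀).isEmbedding.comp hemb
  · intro z hz u v huv
    rw [fderiv_comp (hd z hz), fderiv_comp (hd z hz)] at huv
    exact hinj z hz (RL_injective huv)
  · calc S ∩ Pool.Agent.MP_49383f_gt.RR h₀ '' U
        = Pool.Agent.MP_49383f_gt.RR h₀ '' S ∩ Pool.Agent.MP_49383f_gt.RR h₀ '' U := by rw [hS]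
      _ = Pool.Agent.MP_49383f_gt.RR h₀ '' (S ∩ U) := (image_inter (RR_injective h₀)).symm
      _ = _ := by rw [hSU, ← image_comp]; rfl
  · calc Γ ∩ Pool.Agent.MP_49383f_gt.RR h₀ '' U
        = Pool.Agent.MP_49383f_gt.RR h₀ '' Γ ∩ Pool.Agent.MP_49383f_gt.RR h₀ '' U := by rw [hΓ]
      _ = Pool.Agent.MP_49383f_gt.RR h₀ '' (Γ ∩ U) := (image_inter (RR_injective h₀)).symm
      _ = _ := by rw [hΓU, ← image_comp]; rfl
  · intro z hz h0
    have hXS : X z ∈ S := by
      have : X z ∈ S ∩ U := by rw [hSU]; exact ⟨z, ⟨hz, h0⟩, rfl⟩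
      exact this.1
    obtain ⟨m1, m2, m3, m4⟩ := hH z hz h0
    have ex : px (fun z => Pool.Agent.MP_49383f_gt.RR h₀ (X z)) z = RL (px X z) :=
      fderiv_comp (hd z hz) 1
    have ey : py (fun z => Pool.Agent.MP_49383f_gt.RR h₀ (X z)) z = RL (py X z) :=
      fderiv_comp (hd z hz) Complex.I
    have exx : px (px (fun z => Pool.Agent.MP_49383f_gt.RR h₀ (X z))) z = RL (px (px X) z) :=
      fderiv_fderiv_comp hV hX hz 1 1
    have exy : py (px (fun z => Pool.Agent.MP_49383f_gt.RR h₀ (X z))) z = RL (py (px X) z) :=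
      fderiv_fderiv_comp hV hX hz 1 Complex.I
    have eyy : py (py (fun z => Pool.Agent.MP_49383f_gt.RR h₀ (X z))) z = RL (py (py X) z) :=
      fderiv_fderiv_comp hV hX hz Complex.I Complex.I
    refine ⟨?_, ?_, ?_, ?_⟩
    · rw [hn _ hXS, norm_RL, m1]
    · rw [hn _ hXS, ex, inner_RL, m2]
    · rw [hn _ hXS, ey, inner_RL, m3]
    · rw [hn _ hXS, ex, ey, exx, exy, eyy]
      simp only [inner_RL]
      exact m4

end Pool.Agent.MP_49383f_gt
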