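import Pool.Agent.MP_49383f_gt.Torsion

/-!
# MP_49383f_gt, module G11: convexity of the planar domain `DD F`
-/

namespace Pool.Agent.MP_49383f_gt

open scoped ContDiff ComplexConjugate
open MeasureTheory Metric Set Filter Topology

namespace ConvexD

/-- second order necessary condition along a line -/
theorem second_order {F : ℂ → ℝ} {P u : ℂ} (hF : ContDiffAt ℝ 2 F P)
    (hmin : IsLocalMin (fun s : ℝ => F (P + s • u)) 0) :
    fderiv ℝ F P u = 0 ∧ 0 ≤ fderiv ℝ (fderiv ℝ F) P u u := by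
  set g : ℝ → ℝ := fun s => F (P + s • u) with hg
  have hline : ∀ s : ℝ, HasDerivAt (fun s : ℝ => P + s • u) u s := by
    intro s
    have := ((hasDerivAt_id s).smul_const u).const_add P
    simpa using this
  have hcont : ContinuousAt (fun s : ℝ => P + s • u) 0 := (hline 0).continuousAt
  have hev : ∀ᶠ s in 𝓝 (0 : ℝ), ContDiffAt ℝ 2 F (P + s • u) := by
    have h1 := hF.eventually (by decide)
    have h2 : Tendsto (fun s : ℝ => P + s • u) (𝓝 0) (𝓝 P) := by
      have := hcont.tendsto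
      simpa using this
    exact h2.eventually h1
  have hder : ∀ᶠ s in 𝓝 (0 : ℝ), HasDerivAt g (fderiv ℝ F (P + s • u) u) s := by
    filter_upwards [hev] with s hs
    have h1 : HasFDerivAt F (fderiv ℝ F (P + s • u)) (P + s • u) :=
      (hs.differentiableAt (by norm_num)).hasFDerivAt
    exact h1.comp_hasDerivAt s (hline s)
  have hder0 : HasDerivAt g (fderiv ℝ F P u) 0 := by
    have := hder.self_of_nhds
    simpa using this
  have hd1 : deriv g =ᶠ[𝓝 0] fun s => fderiv ℝ F (P + s • u) u :=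
    hder.mono fun s hs => hs.deriv
  have hder2 : HasDerivAt (fun s : ℝ => fderiv ℝ F (P + s • u) u)
      (fderiv ℝ (fderiv ℝ F) P u u) 0 := by
    have h1 : DifferentiableAt ℝ (fderiv ℝ F) P :=
      (hF.fderiv_right (m := 1) (by norm_num)).differentiableAt (by norm_num)
    have h2 : HasFDerivAt (fderiv ℝ F) (fderiv ℝ (fderiv ℝ F) P) (P + (0 : ℝ) • u) := by
      simpa using h1.hasFDerivAt
    have h3 := h2.comp_hasDerivAt (0 : ℝ) (hline 0)
    have h4 := h3.clm_apply (hasDerivAt_const (0 : ℝ) u)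
    simpa using h4
  have hdd : deriv (deriv g) 0 = fderiv ℝ (fderiv ℝ F) P u u := by
    rw [hd1.deriv_eq]
    exact hder2.deriv
  have h0 : deriv g 0 = 0 := hmin.deriv_eq_zero
  refine ⟨by rw [← hder0.deriv]; exact h0, ?_⟩
  by_contra hneg
  push Not at hneg
  have hmax : IsLocalMax g 0 :=
    isLocalMax_of_deriv_deriv_neg (by rw [hdd]; exact hneg) h0 hder0.continuousAt
  have hconst : g =ᶠ[𝓝 0] fun _ => g 0 := by
    filter_upwards [hmin, hmax] with s h1 h2
    exact le_antisymm h2 h1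
  have h1 : deriv g =ᶠ[𝓝 0] fun _ => (0 : ℝ) := by
    have := hconst.deriv
    refine this.trans ?_
    filter_upwards with s
    simp
  have h2 : deriv (deriv g) 0 = 0 := by
    rw [h1.deriv_eq]; simp
  rw [hdd] at h2
  linarith

/-- the open convex region -/
def U : Set ℂ := {z | 0 < z.re ∧ z.re < 3 ∧ 1 / 20 < TT z}

theorem TT_continuous : Continuous TT := by
  have : TT = fun z : ℂ => (z.re ^ 2 / 3 - z.im ^ 2) * (3 - z.re) := rfl
  rw [this]
  fun_prop

theorem U_open : IsOpen U := by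
  have e : U = {z : ℂ | 0 < z.re} ∩ ({z : ℂ | z.re < 3} ∩ {z : ℂ | 1 / 20 < TT z}) := rfl
  rw [e]
  exact (isOpen_lt continuous_const Complex.continuous_re).inter
    ((isOpen_lt Complex.continuous_re continuous_const).inter
      (isOpen_lt continuous_const TT_continuous))

theorem norm_sub_sq (z a : ℂ) : ‖z - a‖ ^ 2 = (z.re - a.re) ^ 2 + (z.im - a.im) ^ 2 := by
  rw [Torsion.sq_norm, Complex.sub_re, Complex.sub_im]

theorem U_bounds {z : ℂ} (hz : z ∈ U) : 1 / 5 < z.re ∧ z.re < 3 ∧ |z.im| < 18 / 10 := by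
  obtain ⟨h0, h3, hT⟩ := hz
  have hTT : TT z = (z.re ^ 2 / 3 - z.im ^ 2) * (3 - z.re) := rfl
  rw [hTT] at hT
  have hd : 0 < 3 - z.re := by linarith
  have h1 : 0 < z.re ^ 2 / 3 - z.im ^ 2 := by
    by_contra hcon
    push Not at hcon
    have : (z.re ^ 2 / 3 - z.im ^ 2) * (3 - z.re) ≤ 0 :=
      mul_nonpos_of_nonpos_of_nonneg hcon hd.le
    linarith
  refine ⟨?_, h3, ?_⟩
  · by_contra hcon
    push Not at hcon
    nlinarith [sq_nonneg z.im, mul_pos h1 hd]
  · rw [abs_lt]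
    constructor <;> nlinarith [sq_nonneg z.im]

theorem mem_VP {z : ℂ} (hz : z ∈ U) (ha : 1 / 15 < ‖z - aa‖) (hb : 1 / 15 < ‖z - bb‖) :
    z ∈ VP := by
  obtain ⟨h1, h2, h3⟩ := U_bounds hz
  exact ⟨by linarith, by linarith, h3, ha, hb⟩

theorem VP_open : IsOpen VP := by
  have e : VP = {z : ℂ | 1 / 10 < z.re} ∩ ({z : ℂ | z.re < 32 / 10} ∩ ({z : ℂ | |z.im| < 18 / 10} ∩
    ({z : ℂ | 1 / 15 < ‖z - aa‖} ∩ {z : ℂ | 1 / 15 < ‖z - bb‖}))) := rfl
  rw [e]
  refine (isOpen_lt continuous_const Complex.continuous_re).inter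
    ((isOpen_lt Complex.continuous_re continuous_const).inter
      ((isOpen_lt (Complex.continuous_im.abs) continuous_const).inter
        ((isOpen_lt continuous_const (by fun_prop)).inter
          (isOpen_lt continuous_const (by fun_prop)))))

theorem TT_disc_a {z : ℂ} (h : ‖z - aa‖ < 1 / 14) : 15 / 100 < TT z := by
  have h2 : ‖z - aa‖ ^ 2 < (1 / 14) ^ 2 := by
    have := norm_nonneg (z - aa)
    nlinarith
  rw [norm_sub_sq, aa_re, aa_im] at h2
  have hTT : TT z = (z.re ^ 2 / 3 - z.im ^ 2) * (3 - z.re) := rfl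
  rw [hTT]
  set x := z.re
  set y := z.im
  have hx : (x - 3 / 2) ^ 2 < (1 / 14) ^ 2 := by nlinarith [sq_nonneg (y - 0)]
  have hx1 : x < 3 / 2 + 1 / 14 := by nlinarith
  have hx2 : 3 / 2 - 1 / 14 < x := by nlinarith
  have hy : y ^ 2 < (1 / 14) ^ 2 := by nlinarith [sq_nonneg (x - 3 / 2)]
  have h5 : 1 / 2 < x ^ 2 / 3 - y ^ 2 := by nlinarith
  have h6 : 1 < 3 - x := by linarith
  nlinarith

theorem TT_disc_b {z : ℂ} (h : ‖z - bb‖ < 1 / 14) : 15 / 100 < TT z := by
  have h2 : ‖z - bb‖ ^ 2 < (1 / 14) ^ 2 := by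
    have := norm_nonneg (z - bb)
    nlinarith
  rw [norm_sub_sq, bb_re, bb_im] at h2
  have hTT : TT z = (z.re ^ 2 / 3 - z.im ^ 2) * (3 - z.re) := rfl
  rw [hTT]
  set x := z.re
  set y := z.im
  have hx : (x - 1 / 2) ^ 2 < (1 / 14) ^ 2 := by nlinarith [sq_nonneg (y - 0)]
  have hx1 : x < 1 / 2 + 1 / 14 := by nlinarith
  have hx2 : 1 / 2 - 1 / 14 < x := by nlinarith
  -- y² < 1/196 - (x-1/2)²
  have hy : y ^ 2 < 1 / 196 - (x - 1 / 2) ^ 2 := by nlinarith
  have h6 : 0 < 3 - x := by linarith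
  have h7 : (x ^ 2 / 3 - (1 / 196 - (x - 1 / 2) ^ 2)) * (3 - x) ≤ (x ^ 2 / 3 - y ^ 2) * (3 - x) := by
    apply mul_le_mul_of_nonneg_right _ h6.le
    linarith
  refine lt_of_lt_of_le ?_ h7
  -- polynomial in x on [3/7, 4/7]
  nlinarith [mul_pos (sub_pos.2 hx1) (sub_pos.2 hx2), sq_nonneg (x - 3 / 7),
    mul_nonneg (sq_nonneg (x - 3 / 7)) h6.le, mul_pos (sub_pos.2 hx2) h6]

end ConvexD

open ConvexD in
theorem convex_DD : ∃ κ > 0, ∀ F : ℂ → ℝ, ContDiffOn ℝ ∞ F VP →
    (∀ P ∈ VP, |F P - TT P| ≤ κ ∧ ‖fderiv ℝ F P - fderiv ℝ TT P‖ ≤ κ ∧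
      ‖fderiv ℝ (fderiv ℝ F) P - fderiv ℝ (fderiv ℝ TT) P‖ ≤ κ) →
    IsOpen (DD F) ∧ (DD F).Nonempty ∧ Bornology.IsBounded (DD F) ∧ Convex ℝ (DD F) ∧
    frontier (DD F) = {P | 0 < P.re ∧ P.re < 3 ∧ 1 / 20 < TT P ∧ 1 / 15 < ‖P - aa‖ ∧
      1 / 15 < ‖P - bb‖ ∧ F P = 1 / 10} ∧
    frontier (DD F) ⊆ VP ∧ ∀ P ∈ frontier (DD F), fderiv ℝ F P ≠ 0 := by
  refine ⟨1 / 1000, by norm_num, ?_⟩
  intro F hF hest
  have hFc : ∀ P ∈ VP, ContinuousAt F P := fun P hP =>
    (hF.contDiffAt (VP_open.mem_nhds hP)).continuousAt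
  -- openness
  have hopen : IsOpen (DD F) := by
    rw [isOpen_iff_mem_nhds]
    rintro P ⟨h0, h3, hT, hP⟩
    have hPU : P ∈ U := ⟨h0, h3, hT⟩
    have hdisc : ∀ Q ∈ U, (‖Q - aa‖ < 1 / 14 ∨ ‖Q - bb‖ < 1 / 14) → Q ∈ DD F := by
      intro Q hQ hQd
      refine ⟨hQ.1, hQ.2.1, hQ.2.2, ?_⟩
      by_cases ha : ‖Q - aa‖ ≤ 1 / 15
      · exact Or.inl ha
      by_cases hb : ‖Q - bb‖ ≤ 1 / 15
      · exact Or.inr (Or.inl hb)
      push Not at ha hb
      right; right
      have h1 := (hest Q (mem_VP hQ ha hb)).1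
      have h2 : 15 / 100 < TT Q := by
        rcases hQd with h | h
        · exact TT_disc_a h
        · exact TT_disc_b h
      rw [abs_le] at h1
      linarith
    have hcl : ∀ c : ℂ, ContinuousAt (fun Q : ℂ => ‖Q - c‖) P := fun c => by fun_prop
    by_cases hd : ‖P - aa‖ < 1 / 14 ∨ ‖P - bb‖ < 1 / 14
    · rcases hd with hd | hd
      · filter_upwards [U_open.mem_nhds hPU, (hcl aa).eventually (gt_mem_nhds hd)] with Q h1 h2
        exact hdisc Q h1 (Or.inl h2)
      · filter_upwards [U_open.mem_nhds hPU, (hcl bb).eventually (gt_mem_nhds hd)] with Q h1 h2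
        exact hdisc Q h1 (Or.inr h2)
    · push Not at hd
      have hFP : 1 / 10 < F P := by
        rcases hP with h | h | h
        · linarith
        · linarith
        · exact h
      have hPV : P ∈ VP := mem_VP hPU (by linarith) (by linarith)
      filter_upwards [U_open.mem_nhds hPU, (hFc P hPV).eventually (lt_mem_nhds hFP)] with Q h1 h2
      exact ⟨h1.1, h1.2.1, h1.2.2, Or.inr (Or.inr h2)⟩
  have hconvU : Convex ℝ U := (TT_convex (c := 1 / 20) (by norm_num)).2
  have hDU : DD F ⊆ U := fun P hP => ⟨hP.1, hP.2.1, hP.2.2.1⟩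
  -- points of `U` not in `DD F`
  have hnot : ∀ P ∈ U, P ∉ DD F → 1 / 15 < ‖P - aa‖ ∧ 1 / 15 < ‖P - bb‖ ∧ P ∈ VP ∧ F P ≤ 1 / 10 := by
    intro P hP hPD
    have h1 : ¬ (‖P - aa‖ ≤ 1 / 15 ∨ ‖P - bb‖ ≤ 1 / 15 ∨ 1 / 10 < F P) := fun h =>
      hPD ⟨hP.1, hP.2.1, hP.2.2, h⟩
    push Not at h1
    exact ⟨h1.1, h1.2.1, mem_VP hP h1.1 h1.2.1, h1.2.2⟩
  -- convexity
  have hconv : Convex ℝ (DD F) := by
    rw [convex_iff_segment_subset]
    intro P hP Q hQ
    by_contra hseg
    rw [not_subset] at hseg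
    obtain ⟨R, hR, hRD⟩ := hseg
    rw [segment_eq_image'] at hR
    obtain ⟨s₀, hs₀, rfl⟩ := hR
    set ell : ℝ → ℂ := fun s => P + s • (Q - P) with hell
    have hellc : Continuous ell := by
      rw [hell]; fun_prop
    have hU : ∀ s ∈ Icc (0 : ℝ) 1, ell s ∈ U := by
      intro s hs
      have : ell s ∈ segment ℝ P Q := by
        rw [segment_eq_image']
        exact ⟨s, hs, rfl⟩
      exact hconvU.segment_subset (hDU hP) (hDU hQ) this
    set K : Set ℝ := Icc (0 : ℝ) 1 ∩ ell ⁻¹' (DD F)ᶜ with hK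
    have hKc : IsCompact K :=
      isCompact_Icc.inter_right (hopen.isClosed_compl.preimage hellc)
    have hKne : K.Nonempty := ⟨s₀, hs₀, hRD⟩
    have hKF : ContinuousOn (fun s => F (ell s)) K := by
      intro s hs
      have h1 := (hnot (ell s) (hU s hs.1) hs.2).2.2.1
      exact ((hFc _ h1).comp hellc.continuousAt).continuousWithinAt
    obtain ⟨s, hsK, hsmin⟩ := hKc.exists_isMinOn hKne hKF
    have hsU := hU s hsK.1
    obtain ⟨na, nb, hsV, hsF⟩ := hnot (ell s) hsU hsK.2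
    -- `s` is interior
    have hs0 : 0 < s := by
      rcases hsK.1.1.lt_or_eq with h | h
      · exact h
      · exfalso
        apply hsK.2
        rw [← h]
        simpa [hell] using hP
    have hs1 : s < 1 := by
      rcases hsK.1.2.lt_or_eq with h | h
      · exact h
      · exfalso
        apply hsK.2
        rw [h]
        simpa [hell] using hQ
    have hne : Q - P ≠ 0 := by
      intro h
      apply hsK.2
      simp only [hell, h, smul_zero, add_zero]
      exact hP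
    have hmin : IsLocalMin (fun r : ℝ => F (ell s + r • (Q - P))) 0 := by
      have hlin : Tendsto (fun r : ℝ => s + r) (𝓝 0) (𝓝 s) := by
        have : ContinuousAt (fun r : ℝ => s + r) 0 := by fun_prop
        simpa [ContinuousAt] using this
      have hI : ∀ᶠ r in 𝓝 (0 : ℝ), s + r ∈ Icc (0 : ℝ) 1 :=
        hlin.eventually (Icc_mem_nhds hs0 hs1)
      have hell' : Tendsto (fun r : ℝ => ell (s + r)) (𝓝 0) (𝓝 (ell s)) :=
        hellc.continuousAt.tendsto.comp hlin
      have hA : ∀ᶠ r in 𝓝 (0 : ℝ), 1 / 15 < ‖ell (s + r) - aa‖ :=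
        ((hell'.sub_const aa).norm).eventually (lt_mem_nhds na)
      have hB : ∀ᶠ r in 𝓝 (0 : ℝ), 1 / 15 < ‖ell (s + r) - bb‖ :=
        ((hell'.sub_const bb).norm).eventually (lt_mem_nhds nb)
      filter_upwards [hI, hA, hB] with r hr ha hb
      have e1 : ell s + r • (Q - P) = ell (s + r) := by
        simp only [hell, add_smul]; ring
      have e0 : ell s + (0 : ℝ) • (Q - P) = ell s := by simp
      rw [e1, e0]
      by_cases hD : ell (s + r) ∈ DD F
      · rcases hD.2.2.2 with h | h | h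
        · linarith
        · linarith
        · linarith
      · exact hsmin ⟨hr, hD⟩
    have hC2 : ContDiffAt ℝ 2 F (ell s) :=
      (hF.contDiffAt (VP_open.mem_nhds hsV)).of_le (by
        have h : ((2 : ℕ∞) : WithTop ℕ∞) ≤ ((⊤ : ℕ∞) : WithTop ℕ∞) := WithTop.coe_le_coe.2 le_top
        exact h)
    obtain ⟨c1, c2⟩ := second_order hC2 hmin
    obtain ⟨e0, e1, e2⟩ := hest (ell s) hsV
    have hlc := TT_logconcave hsU.1 hsU.2.1 (by linarith [hsU.2.2]) (Q - P)
    set u := Q - P with hu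
    have hun : 0 < ‖u‖ := norm_pos_iff.2 hne
    have b1 : |fderiv ℝ TT (ell s) u| ≤ 1 / 1000 * ‖u‖ := by
      have h1 : ‖(fderiv ℝ F (ell s) - fderiv ℝ TT (ell s)) u‖ ≤ 1 / 1000 * ‖u‖ :=
        ((fderiv ℝ F (ell s) - fderiv ℝ TT (ell s)).le_opNorm u).trans
          (mul_le_mul_of_nonneg_right e1 hun.le)
      rw [sub_apply, c1, zero_sub, norm_neg, Real.norm_eq_abs] at h1
      exact h1
    have b2 : fderiv ℝ (fderiv ℝ F) (ell s) u u ≤
        fderiv ℝ (fderiv ℝ TT) (ell s) u u + 1 / 1000 * ‖u‖ ^ 2 := by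
      have h1 : ‖(fderiv ℝ (fderiv ℝ F) (ell s) - fderiv ℝ (fderiv ℝ TT) (ell s)) u u‖ ≤
          1 / 1000 * ‖u‖ * ‖u‖ :=
        ((fderiv ℝ (fderiv ℝ F) (ell s) - fderiv ℝ (fderiv ℝ TT) (ell s)).le_opNorm₂ u u).trans
          (by gcongr)
      rw [sub_apply, sub_apply, Real.norm_eq_abs,
        abs_le] at h1
      nlinarith [h1.2]
    have hT := hsU.2.2
    have b3 : (fderiv ℝ TT (ell s) u) ^ 2 ≤ (1 / 1000) ^ 2 * ‖u‖ ^ 2 := by
      rw [← mul_pow]
      exact sq_le_sq' (by linarith [(abs_le.1 b1).1]) (abs_le.1 b1).2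
    set T := TT (ell s) with hTdef
    set D := fderiv ℝ (fderiv ℝ TT) (ell s) u u with hDdef
    have hu2 : 0 < ‖u‖ ^ 2 := by positivity
    have b4 : 0 ≤ T * (D + 1 / 1000 * ‖u‖ ^ 2) := mul_nonneg (by linarith) (by linarith)
    have b5 : T * (D + 1 / 1000 * ‖u‖ ^ 2) ≤
        ((1 / 1000) ^ 2 - T ^ 2 / 6 + T / 1000) * ‖u‖ ^ 2 := by nlinarith
    have b6 : (1 / 1000 : ℝ) ^ 2 - T ^ 2 / 6 + T / 1000 < 0 := by nlinarith
    nlinarith
  -- the derivative towards the centre
  have hrad : ∀ P ∈ VP, P ∈ U → F P ≤ 1 / 10 + 1 / 1000 → 0 < fderiv ℝ F P (2 - P) := by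
    intro P hP hPU hFP
    obtain ⟨e0, e1, -⟩ := hest P hP
    rw [abs_le] at e0
    have h1 := TT_radial hPU.1 hPU.2.1 hPU.2.2.le (by linarith)
    obtain ⟨b1, b2, b3⟩ := U_bounds hPU
    have hn : ‖2 - P‖ ≤ 4 := by
      have := Complex.norm_le_abs_re_add_abs_im (2 - P)
      have h2 : |(2 - P).re| ≤ 2 := by
        rw [Complex.sub_re, Complex.re_ofNat, abs_le]; constructor <;> linarith
      have h3 : |(2 - P).im| ≤ 2 := by
        rw [Complex.sub_im, Complex.im_ofNat, zero_sub, abs_neg]; linarith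
      linarith
    have h2 : ‖(fderiv ℝ F P - fderiv ℝ TT P) (2 - P)‖ ≤ 1 / 1000 * ‖2 - P‖ :=
      ((fderiv ℝ F P - fderiv ℝ TT P).le_opNorm (2 - P)).trans
        (mul_le_mul_of_nonneg_right e1 (norm_nonneg _))
    rw [sub_apply, Real.norm_eq_abs, abs_le] at h2
    linarith [h2.1]
  -- frontier
  have hfr : frontier (DD F) = {P | 0 < P.re ∧ P.re < 3 ∧ 1 / 20 < TT P ∧ 1 / 15 < ‖P - aa‖ ∧
      1 / 15 < ‖P - bb‖ ∧ F P = 1 / 10} := by
    rw [hopen.frontier_eq]
    ext P
    constructor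
    · rintro ⟨hPc, hPD⟩
      have hsub : DD F ⊆ {z : ℂ | 0 ≤ z.re} ∩ ({z : ℂ | z.re ≤ 3} ∩ {z : ℂ | 9 / 100 ≤ TT z}) := by
        rintro Q ⟨q0, q3, qT, hQ⟩
        refine ⟨q0.le, q3.le, ?_⟩
        show 9 / 100 ≤ TT Q
        by_cases ha : ‖Q - aa‖ ≤ 1 / 15
        · have := TT_disc_a (z := Q) (by linarith)
          linarith
        by_cases hb : ‖Q - bb‖ ≤ 1 / 15
        · have := TT_disc_b (z := Q) (by linarith)
          linarith
        push Not at ha hb
        have h1 := (hest Q (mem_VP ⟨q0, q3, qT⟩ ha hb)).1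
        rw [abs_le] at h1
        rcases hQ with h | h | h <;> linarith
      have hclosed : IsClosed ({z : ℂ | 0 ≤ z.re} ∩ ({z : ℂ | z.re ≤ 3} ∩ {z : ℂ | 9 / 100 ≤ TT z})) :=
        (isClosed_le continuous_const Complex.continuous_re).inter
          ((isClosed_le Complex.continuous_re continuous_const).inter
            (isClosed_le continuous_const TT_continuous))
      obtain ⟨p0, p3, pT⟩ := closure_minimal hsub hclosed hPc
      have pT' : 9 / 100 ≤ TT P := pT
      have p0' : 0 ≤ P.re := p0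
      have p3' : P.re ≤ 3 := p3
      have hTT : TT P = (P.re ^ 2 / 3 - P.im ^ 2) * (3 - P.re) := rfl
      have hP0 : 0 < P.re := by
        rcases p0'.lt_or_eq with h | h
        · exact h
        · exfalso
          rw [hTT, ← h] at pT'
          nlinarith [sq_nonneg P.im]
      have hP3 : P.re < 3 := by
        rcases p3'.lt_or_eq with h | h
        · exact h
        · exfalso
          rw [hTT, h] at pT'
          norm_num at pT'
      have hPU : P ∈ U := ⟨hP0, hP3, by linarith⟩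
      obtain ⟨na, nb, hPV, hPF⟩ := hnot P hPU hPD
      refine ⟨hP0, hP3, by linarith, na, nb, ?_⟩
      rcases hPF.lt_or_eq with h | h
      · exfalso
        have hca : ContinuousAt (fun Q : ℂ => ‖Q - aa‖) P := by fun_prop
        have hcb : ContinuousAt (fun Q : ℂ => ‖Q - bb‖) P := by fun_prop
        have hev : ∀ᶠ Q in 𝓝 P, Q ∉ DD F := by
          filter_upwards [(hFc P hPV).eventually (gt_mem_nhds h), hca.eventually (lt_mem_nhds na),
            hcb.eventually (lt_mem_nhds nb)] with Q h1 h2 h3 hQ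
          rcases hQ.2.2.2 with h | h | h <;> linarith
        rw [mem_closure_iff_frequently] at hPc
        exact hPc hev
      · exact h
    · rintro ⟨h0, h3, hT, na, nb, hFP⟩
      have hPU : P ∈ U := ⟨h0, h3, hT⟩
      have hPV := mem_VP hPU na nb
      refine ⟨?_, ?_⟩
      · have hpos := hrad P hPV hPU (by rw [hFP]; norm_num)
        have hline : HasDerivAt (fun s : ℝ => P + s • (2 - P)) (2 - P) 0 := by
          have := ((hasDerivAt_id (0 : ℝ)).smul_const (2 - P)).const_add P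
          simpa using this
        have hFd : HasFDerivAt F (fderiv ℝ F P) (P + (0 : ℝ) • (2 - P)) := by
          have h1 : DifferentiableAt ℝ F P :=
            (hF.contDiffAt (VP_open.mem_nhds hPV)).differentiableAt (by simp)
          simpa using h1.hasFDerivAt
        have hg : HasDerivAt (fun s : ℝ => F (P + s • (2 - P))) (fderiv ℝ F P (2 - P)) 0 :=
          hFd.comp_hasDerivAt 0 hline
        have hlt : ∀ᶠ s in 𝓝[>] (0 : ℝ), 1 / 10 < F (P + s • (2 - P)) := by
          have h1 := hg.tendsto_slope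
          have h2 : ∀ᶠ s in 𝓝[≠] (0 : ℝ), 0 < slope (fun s : ℝ => F (P + s • (2 - P))) 0 s :=
            h1.eventually (lt_mem_nhds hpos)
          have h3 : ∀ᶠ s in 𝓝[>] (0 : ℝ), 0 < slope (fun s : ℝ => F (P + s • (2 - P))) 0 s :=
            h2.filter_mono (nhdsWithin_mono _ fun s hs => ne_of_gt hs)
          filter_upwards [h3, self_mem_nhdsWithin] with s h4 h5
          rw [slope_def_field] at h4
          simp only [zero_smul, add_zero, sub_zero, hFP] at h4
          have h6 := (div_pos_iff_of_pos_right (show (0 : ℝ) < s from h5)).1 h4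
          linarith
        have htend : Tendsto (fun s : ℝ => P + s • (2 - P)) (𝓝[>] 0) (𝓝 P) := by
          have := hline.continuousAt.tendsto
          simp only [zero_smul, add_zero] at this
          exact this.mono_left nhdsWithin_le_nhds
        have hinU : ∀ᶠ s in 𝓝[>] (0 : ℝ), P + s • (2 - P) ∈ U :=
          htend.eventually (U_open.mem_nhds hPU)
        have hinD : ∀ᶠ s in 𝓝[>] (0 : ℝ), P + s • (2 - P) ∈ DD F := by
          filter_upwards [hlt, hinU] with s h1 h2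
          exact ⟨h2.1, h2.2.1, h2.2.2, Or.inr (Or.inr h1)⟩
        exact mem_closure_of_tendsto htend hinD
      · rintro ⟨-, -, -, h | h | h⟩ <;> linarith
  refine ⟨hopen, ⟨aa, ?_⟩, ?_, hconv, hfr, ?_, ?_⟩
  · refine ⟨by rw [aa_re]; norm_num, by rw [aa_re]; norm_num, ?_, Or.inl (by simp)⟩
    rw [TT, aa_re, aa_im]; norm_num
  · refine (Metric.isBounded_closedBall (x := (0 : ℂ)) (r := 5)).subset ?_
    intro P hP
    obtain ⟨b1, b2, b3⟩ := U_bounds (hDU hP)
    rw [mem_closedBall_zero_iff]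
    have := Complex.norm_le_abs_re_add_abs_im P
    have h2 : |P.re| ≤ 3 := by
      rw [abs_le]; constructor <;> linarith
    linarith
  · rw [hfr]
    rintro P ⟨h0, h3, hT, na, nb, -⟩
    exact mem_VP ⟨h0, h3, hT⟩ na nb
  · rw [hfr]
    rintro P ⟨h0, h3, hT, na, nb, hFP⟩ hzero
    have hpos := hrad P (mem_VP ⟨h0, h3, hT⟩ na nb) ⟨h0, h3, hT⟩ (by rw [hFP]; norm_num)
    rw [hzero] at hpos
    simp at hpos

end Pool.Agent.MP_49383f_gt
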