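import Pool.Agent.MP_49383f_gt.CauchyBd
import Pool.Agent.MP_49383f_gt.DiscFormula

/-!
# M13: estimates for solutions
-/

namespace Pool.Agent.MP_49383f_gt

open scoped ContDiff ComplexConjugate
open MeasureTheory Metric Set

namespace SolEst

theorem measurableSet_GG (r : ℝ) (a b : ℂ) : MeasurableSet (GG r a b) :=
  (isClosed_GG r a b).measurableSet

theorem ne_of_mem {r : ℝ} (hr : 0 < r) {a b z : ℂ} (hz : z ∈ GG r a b) : z - a ≠ 0 := by
  intro h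
  have := hz.2.1
  rw [h, norm_zero] at this
  linarith

theorem ne_of_mem' {r : ℝ} (hr : 0 < r) {a b z : ℂ} (hz : z ∈ GG r a b) : z - b ≠ 0 := by
  intro h
  have := hz.2.2
  rw [h, norm_zero] at this
  linarith

theorem sg_mem {r : ℝ} (hr : 0 < r) {a b z : ℂ} (hz : z ∈ GG r a b) :
    sg r a b z ∈ closedBall b r := by
  rw [mem_closedBall, dist_eq_norm, norm_sg_sub]
  have h1 : r ≤ ‖z - a‖ := hz.2.1
  rw [div_le_iff₀ (by linarith)]
  nlinarith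

theorem sg_mem4 {r : ℝ} (hr : 0 < r) (hr4 : r ≤ 1 / 4) {a b z : ℂ} (hz : z ∈ GG r a b) :
    sg r a b z ∈ closedBall b (1 / 4) :=
  closedBall_subset_closedBall hr4 (sg_mem hr hz)

theorem continuousOn_sg {r : ℝ} (hr : 0 < r) (a b : ℂ) : ContinuousOn (sg r a b) (GG r a b) := by
  unfold sg
  apply ContinuousOn.sub continuousOn_const
  apply ContinuousOn.div continuousOn_const (by fun_prop)
  intro z hz
  exact ne_of_mem hr hz

theorem continuousOn_w {r : ℝ} (hr : 0 < r) (a b : ℂ) :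
    ContinuousOn (fun z => (r : ℂ) / (z - a)) (GG r a b) := by
  apply ContinuousOn.div continuousOn_const (by fun_prop)
  intro z hz
  exact ne_of_mem hr hz

theorem norm_w {r : ℝ} (hr : 0 < r) {a z : ℂ} : ‖(r : ℂ) / (z - a)‖ = r / ‖z - a‖ := by
  rw [norm_div, Complex.norm_real, Real.norm_eq_abs, abs_of_pos hr]

theorem w_le_one {r : ℝ} (hr : 0 < r) {a b z : ℂ} (hz : z ∈ GG r a b) : r / ‖z - a‖ ≤ 1 := by
  have h1 : r ≤ ‖z - a‖ := hz.2.1
  rw [div_le_one (by linarith)]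
  exact h1

theorem w_nonneg {r : ℝ} (hr : 0 < r) {a z : ℂ} : 0 ≤ r / ‖z - a‖ :=
  div_nonneg hr.le (norm_nonneg _)

theorem le_sqrt_w {r : ℝ} (hr : 0 < r) {a b z : ℂ} (hz : z ∈ GG r a b) :
    r / ‖z - a‖ ≤ (r / ‖z - a‖) ^ (1 / 2 : ℝ) := by
  have h1 := w_le_one hr hz
  have h0 : 0 < r / ‖z - a‖ := div_pos hr (norm_pos_iff.2 (ne_of_mem hr hz))
  calc r / ‖z - a‖ = (r / ‖z - a‖) ^ (1 : ℝ) := (Real.rpow_one _).symm
    _ ≤ _ := Real.rpow_le_rpow_of_exponent_ge h0 h1 (by norm_num)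

theorem sqrt_w_le_one {r : ℝ} (hr : 0 < r) {a b z : ℂ} (hz : z ∈ GG r a b) :
    (r / ‖z - a‖) ^ (1 / 2 : ℝ) ≤ 1 :=
  Real.rpow_le_one (w_nonneg hr) (w_le_one hr hz) (by norm_num)

theorem aesm {V : Type*} [NormedAddCommGroup V] [SecondCountableTopology V] {r : ℝ} {a b : ℂ}
    {F : ℂ → V}
    (hF : ContinuousOn F (GG r a b)) : AEStronglyMeasurable ((GG r a b).indicator F) := by
  rw [aestronglyMeasurable_indicator_iff (measurableSet_GG r a b)]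
  exact hF.aestronglyMeasurable (measurableSet_GG r a b)

theorem ind_out {V : Type*} [NormedAddCommGroup V] {r : ℝ} {a b : ℂ} {F : ℂ → V} (ζ : ℂ)
    (hζ : ζ ∉ closedBall (0 : ℂ) 4) : (GG r a b).indicator F ζ = 0 := by
  apply indicator_of_notMem
  intro h
  apply hζ
  rw [mem_closedBall, dist_zero_right]
  exact h.1

theorem ind_norm {V : Type*} [NormedAddCommGroup V] {r : ℝ} {a b : ℂ} {F : ℂ → V} {M : ℝ}
    (hM : 0 ≤ M) (hF : ∀ ζ ∈ GG r a b, ‖F ζ‖ ≤ M) (ζ : ℂ) : ‖(GG r a b).indicator F ζ‖ ≤ M := by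
  by_cases h : ζ ∈ GG r a b
  · rw [indicator_of_mem h]; exact hF ζ h
  · rw [indicator_of_notMem h, norm_zero]; exact hM

theorem sq_rpow {ε : ℝ} (hε : 0 < ε) : (ε ^ 2) ^ (1 / 2 : ℝ) = ε := by
  rw [← Real.sqrt_eq_rpow, Real.sqrt_sq hε.le]

/-- bound of the Cauchy transform of a sum of three functions with different weights -/
theorem bound3 {ε : ℝ} (hε : 0 < ε) {a b : ℂ} {F₀ Fa Fb : ℂ → ℂ} {M₀ M₁ : ℝ}
    (h0 : 0 ≤ M₀) (h1 : 0 ≤ M₁)
    (c0 : ContinuousOn F₀ (GG (ε ^ 2) a b)) (ca : ContinuousOn Fa (GG (ε ^ 2) a b))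
    (cb : ContinuousOn Fb (GG (ε ^ 2) a b))
    (b0 : ∀ ζ ∈ GG (ε ^ 2) a b, ‖F₀ ζ‖ ≤ M₀)
    (ba : ∀ ζ ∈ GG (ε ^ 2) a b, ‖Fa ζ‖ ≤ M₁ * (ε ^ 2 / ‖ζ - a‖))
    (bb' : ∀ ζ ∈ GG (ε ^ 2) a b, ‖Fb ζ‖ ≤ M₁ * (ε ^ 2 / ‖ζ - b‖)) (z : ℂ) :
    ‖cauchyT ((GG (ε ^ 2) a b).indicator (fun ζ => F₀ ζ + Fa ζ + Fb ζ)) z‖ ≤
      18 * M₀ + 80 * M₁ * ε := by
  have hr : 0 < ε ^ 2 := by positivity
  have hba1 : ∀ ζ ∈ GG (ε ^ 2) a b, ‖Fa ζ‖ ≤ M₁ := fun ζ hζ =>
    (ba ζ hζ).trans (by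
      have := w_le_one hr hζ
      nlinarith)
  have hswap : ∀ ζ, ζ ∈ GG (ε ^ 2) a b → ζ ∈ GG (ε ^ 2) b a := fun ζ h => by
    rwa [GG_swap] at h
  have hbb1 : ∀ ζ ∈ GG (ε ^ 2) a b, ‖Fb ζ‖ ≤ M₁ := fun ζ hζ =>
    (bb' ζ hζ).trans (by
      have := w_le_one hr (hswap ζ hζ)
      nlinarith)
  have i0 : Integrable (fun ζ => (z - ζ)⁻¹ • (GG (ε ^ 2) a b).indicator F₀ ζ) :=
    cauchy_integrable (z₀ := 0) (R := 4) (M := M₀) (aesm c0) (ind_norm h0 b0) ind_out z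
  have ia : Integrable (fun ζ => (z - ζ)⁻¹ • (GG (ε ^ 2) a b).indicator Fa ζ) :=
    cauchy_integrable (z₀ := 0) (R := 4) (M := M₁) (aesm ca) (ind_norm h1 hba1) ind_out z
  have ib : Integrable (fun ζ => (z - ζ)⁻¹ • (GG (ε ^ 2) a b).indicator Fb ζ) :=
    cauchy_integrable (z₀ := 0) (R := 4) (M := M₁) (aesm cb) (ind_norm h1 hbb1) ind_out z
  have e1 : (GG (ε ^ 2) a b).indicator (fun ζ => F₀ ζ + Fa ζ + Fb ζ) =
      fun ζ => ((GG (ε ^ 2) a b).indicator F₀ ζ + (GG (ε ^ 2) a b).indicator Fa ζ) +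
        (GG (ε ^ 2) a b).indicator Fb ζ := by
    funext ζ
    by_cases h : ζ ∈ GG (ε ^ 2) a b
    · simp only [indicator_of_mem h]
    · simp only [indicator_of_notMem h, add_zero]
  have i01 : Integrable (fun ζ => (z - ζ)⁻¹ • ((GG (ε ^ 2) a b).indicator F₀ ζ +
      (GG (ε ^ 2) a b).indicator Fa ζ)) := by
    have := i0.add ia
    refine this.congr (Filter.Eventually.of_forall fun ζ => ?_)
    simp only [Pi.add_apply, smul_add]
  rw [e1, cauchyT_add i01 ib, cauchyT_add i0 ia]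
  have n0 : ‖cauchyT ((GG (ε ^ 2) a b).indicator F₀) z‖ ≤ (2 + 4 ^ 2) * M₀ :=
    norm_cauchyT_le (z₀ := 0) (R := 4) (by norm_num) (aesm c0) (ind_norm h0 b0) ind_out z
  have na : ‖cauchyT ((GG (ε ^ 2) a b).indicator Fa) z‖ ≤
      (8 + 2 * 4 ^ 2) * M₁ * (ε ^ 2) ^ (1 / 2 : ℝ) := by
    refine norm_cauchyT_le_weight (z₀ := 0) (R := 4) (a := a) (by norm_num) hr h1 (aesm ca) ?_ ?_
      ind_out z
    · intro ζ hζ
      by_cases h : ζ ∈ GG (ε ^ 2) a b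
      · rw [indicator_of_mem h]
        exact (ba ζ h).trans (mul_le_mul_of_nonneg_left (le_sqrt_w hr h) h1)
      · rw [indicator_of_notMem h, norm_zero]
        exact mul_nonneg h1 (Real.rpow_nonneg (w_nonneg hr) _)
    · intro ζ hζ
      apply indicator_of_notMem
      intro h
      exact absurd h.2.1 (not_le.2 hζ)
  have nb : ‖cauchyT ((GG (ε ^ 2) a b).indicator Fb) z‖ ≤
      (8 + 2 * 4 ^ 2) * M₁ * (ε ^ 2) ^ (1 / 2 : ℝ) := by
    refine norm_cauchyT_le_weight (z₀ := 0) (R := 4) (a := b) (by norm_num) hr h1 (aesm cb) ?_ ?_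
      ind_out z
    · intro ζ hζ
      by_cases h : ζ ∈ GG (ε ^ 2) a b
      · rw [indicator_of_mem h]
        exact (bb' ζ h).trans (mul_le_mul_of_nonneg_left (le_sqrt_w hr (hswap ζ h)) h1)
      · rw [indicator_of_notMem h, norm_zero]
        exact mul_nonneg h1 (Real.rpow_nonneg (w_nonneg hr) _)
    · intro ζ hζ
      apply indicator_of_notMem
      intro h
      exact absurd h.2.2 (not_le.2 hζ)
  rw [sq_rpow hε] at na nb
  calc _ ≤ ‖cauchyT ((GG (ε ^ 2) a b).indicator F₀) z‖ +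
        ‖cauchyT ((GG (ε ^ 2) a b).indicator Fa) z‖ +
        ‖cauchyT ((GG (ε ^ 2) a b).indicator Fb) z‖ := norm_add₃_le
    _ ≤ _ := by nlinarith

/-- the regular part is close to `h` -/
theorem p_close {ε : ℝ} (hε : 0 < ε) (hε' : ε ≤ 1 / 10) {a b : ℂ} (hab : ‖a - b‖ = 1)
    {E h p q : ℂ → ℂ × ℂ} (s : Sol ε E a b h p q)
    (hH : ∀ w ∈ closedBall b (1 / 4), ‖h w‖ ≤ 2) :
    ∀ w ∈ closedBall b (1 / 4), ‖p w‖ ≤ 4 ∧ ‖p w - h w‖ ≤ 6 * ε ^ 2 := by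
  have hr : 0 < ε ^ 2 := by positivity
  have hr' : ε ^ 2 ≤ 1 / 100 := by nlinarith
  have hfar : ∀ w ∈ closedBall b (1 / 4), 3 / 4 ≤ ‖w - a‖ := by
    intro w hw
    rw [mem_closedBall, dist_eq_norm] at hw
    have h1 : ‖a - b‖ ≤ ‖w - b‖ + ‖w - a‖ := by
      have : a - b = (w - b) - (w - a) := by ring
      rw [this]; exact norm_sub_le _ _
    linarith
  have hsg : ∀ w ∈ closedBall b (1 / 4), sg (ε ^ 2) a b w ∈ closedBall b (1 / 4) := by
    intro w hw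
    have h1 := hfar w hw
    rw [mem_closedBall, dist_eq_norm, norm_sg_sub, div_le_iff₀ (by linarith)]
    nlinarith
  have hw1 : ∀ w ∈ closedBall b (1 / 4), ‖((ε ^ 2 : ℝ) : ℂ) / (w - a)‖ ≤ 4 / 3 * ε ^ 2 := by
    intro w hw
    have h1 := hfar w hw
    rw [norm_w hr, div_le_iff₀ (by linarith)]
    nlinarith
  obtain ⟨w₀, hw₀, hmax⟩ := (isCompact_closedBall b (1 / 4 : ℝ)).exists_isMaxOn
    ⟨b, mem_closedBall_self (by norm_num)⟩ s.p_cont.norm
  have hmax' : ∀ w ∈ closedBall b (1 / 4), ‖p w‖ ≤ ‖p w₀‖ := fun w hw => hmax hw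
  have hstep : ∀ w ∈ closedBall b (1 / 4), ‖p w - h w‖ ≤ 4 / 3 * ε ^ 2 * ‖p w₀‖ := by
    intro w hw
    have h1 := s.p_eq w hw
    have h2 : p w - h w = (((ε ^ 2 : ℝ) : ℂ) / (w - a)) • JJ (p (sg (ε ^ 2) a b w)) := by
      rw [h1]; abel
    rw [h2, norm_smul, norm_JJ]
    exact mul_le_mul (hw1 w hw) (hmax' _ (hsg w hw)) (norm_nonneg _) (by positivity)
  have hP : ‖p w₀‖ ≤ 4 := by
    have h1 := hstep w₀ hw₀
    have h2 := hH w₀ hw₀
    have h3 : ‖p w₀‖ ≤ ‖h w₀‖ + ‖p w₀ - h w₀‖ := by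
      have : p w₀ = h w₀ + (p w₀ - h w₀) := by abel
      calc ‖p w₀‖ = ‖h w₀ + (p w₀ - h w₀)‖ := by rw [← this]
        _ ≤ _ := norm_add_le _ _
    have h4 : 4 / 3 * ε ^ 2 * ‖p w₀‖ ≤ 4 / 300 * ‖p w₀‖ := by
      have := norm_nonneg (p w₀)
      nlinarith
    linarith
  intro w hw
  refine ⟨(hmax' w hw).trans hP, (hstep w hw).trans ?_⟩
  have := norm_nonneg (p w₀)
  nlinarith

theorem fst_le (x : ℂ × ℂ) : ‖x.1‖ ≤ ‖x‖ := norm_fst_le x
theorem snd_le (x : ℂ × ℂ) : ‖x.2‖ ≤ ‖x‖ := norm_snd_le x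

theorem mu_bound {ε : ℝ} (hε : 0 < ε) {x : ℂ × ℂ} (hx : ‖x‖ ≤ 20) : ‖mu ε x‖ ≤ 16000 * ε := by
  have h1 : ‖x.1‖ ≤ 20 := (fst_le x).trans hx
  have h2 : ‖x.2‖ ≤ 20 := (snd_le x).trans hx
  have h3 : ‖x.1‖ ^ 2 + ‖x.2‖ ^ 2 ≤ 800 := by nlinarith [norm_nonneg x.1, norm_nonneg x.2]
  have h4 : (0 : ℝ) ≤ ‖x.1‖ ^ 2 + ‖x.2‖ ^ 2 := by positivity
  have h5 : ‖(((ε * (‖x.1‖ ^ 2 + ‖x.2‖ ^ 2) : ℝ)) : ℂ)‖ = ε * (‖x.1‖ ^ 2 + ‖x.2‖ ^ 2) := by
    rw [Complex.norm_real, Real.norm_eq_abs, abs_of_nonneg (by positivity)]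
  have h6 : ε * (‖x.1‖ ^ 2 + ‖x.2‖ ^ 2) ≤ ε * 800 := mul_le_mul_of_nonneg_left h3 hε.le
  rw [Prod.norm_def, sup_le_iff]
  constructor
  · rw [mu]
    simp only
    rw [norm_mul, h5, RCLike.norm_conj]
    calc _ ≤ ε * 800 * 20 := mul_le_mul h6 h2 (norm_nonneg _) (by positivity)
      _ = _ := by ring
  · rw [mu]
    simp only
    rw [norm_neg, norm_mul, h5, RCLike.norm_conj]
    calc _ ≤ ε * 800 * 20 := mul_le_mul h6 h1 (norm_nonneg _) (by positivity)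
      _ = _ := by ring

theorem mapsTo_sg {r : ℝ} (hr : 0 < r) (hr4 : r ≤ 1 / 4) (a b : ℂ) :
    MapsTo (sg r a b) (GG r a b) (closedBall b (1 / 4)) := fun _ hz => sg_mem4 hr hr4 hz

theorem cont_p {ε : ℝ} (hε : 0 < ε) (hε' : ε ≤ 1 / 10) {a b : ℂ}
    {E h p q : ℂ → ℂ × ℂ} (s : Sol ε E a b h p q) :
    ContinuousOn (fun z => p (sg (ε ^ 2) a b z)) (GG (ε ^ 2) a b) := by
  have hr : 0 < ε ^ 2 := by positivity
  have hr' : ε ^ 2 ≤ 1 / 4 := by nlinarith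
  exact s.p_cont.comp (continuousOn_sg hr a b) (mapsTo_sg hr hr' a b)

theorem cont_q {ε : ℝ} (hε : 0 < ε) (hε' : ε ≤ 1 / 10) {a b : ℂ}
    {E h p q : ℂ → ℂ × ℂ} (s : Sol ε E a b h p q) :
    ContinuousOn (fun z => q (sg (ε ^ 2) b a z)) (GG (ε ^ 2) a b) := by
  rw [← GG_swap]
  exact cont_p hε hε' s.swap

theorem cont_PHI {ε : ℝ} (hε : 0 < ε) (hε' : ε ≤ 1 / 10) {a b : ℂ}
    {E h p q : ℂ → ℂ × ℂ} (s : Sol ε E a b h p q) :
    ContinuousOn (PHI (ε ^ 2) a b h p q) (GG (ε ^ 2) a b) := by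
  have hr : 0 < ε ^ 2 := by positivity
  have h1 := cont_p hε hε' s
  have h2 := cont_q hε hε' s
  have h3 := continuousOn_w hr a b
  have h4 : ContinuousOn (fun z => ((ε ^ 2 : ℝ) : ℂ) / (z - b)) (GG (ε ^ 2) a b) := by
    rw [← GG_swap]; exact continuousOn_w hr b a
  unfold PHI
  exact (s.h_cont.continuousOn.add (h3.smul (continuous_JJ.comp_continuousOn h1))).add
    (h4.smul (continuous_JJ.comp_continuousOn h2))

theorem cont_mu {ε : ℝ} (hε : 0 < ε) (hε' : ε ≤ 1 / 10) {a b : ℂ}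
    {E h p q : ℂ → ℂ × ℂ} (s : Sol ε E a b h p q) :
    ContinuousOn (fun ζ => mu ε (PHI (ε ^ 2) a b h p q ζ)) (GG (ε ^ 2) a b) :=
  (continuous_mu ε).comp_continuousOn (cont_PHI hε hε' s)

theorem int_mu {ε : ℝ} (hε : 0 < ε) (hε' : ε ≤ 1 / 10) {a b : ℂ}
    {E h p q : ℂ → ℂ × ℂ} (s : Sol ε E a b h p q) (z : ℂ) :
    Integrable (fun ζ => (z - ζ)⁻¹ •
      (GG (ε ^ 2) a b).indicator (fun ζ => mu ε (PHI (ε ^ 2) a b h p q ζ)) ζ) :=
  cauchy_integrable (z₀ := 0) (R := 4) (M := 16000 * ε) (aesm (cont_mu hε hε' s))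
    (ind_norm (by positivity) (fun ζ hζ => mu_bound hε (s.bd ζ hζ))) ind_out z

/-- crude estimate of `h` -/
theorem crude {ε : ℝ} (hε : 0 < ε) (hε' : ε ≤ 1 / 10) {a b : ℂ}
    {E h p q : ℂ → ℂ × ℂ} (s : Sol ε E a b h p q) (z : ℂ) :
    ‖h z - E z‖ ≤ 288000 * ε := by
  have h1 : h z - E z =
      cauchyT ((GG (ε ^ 2) a b).indicator (fun ζ => mu ε (PHI (ε ^ 2) a b h p q ζ))) z := by
    rw [s.h_eq z]; abel
  rw [h1]
  calc _ ≤ (2 + (4 : ℝ) ^ 2) * (16000 * ε) :=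
        norm_cauchyT_le (z₀ := 0) (R := 4) (by norm_num) (aesm (cont_mu hε hε' s))
          (ind_norm (by positivity) (fun ζ hζ => mu_bound hε (s.bd ζ hζ))) ind_out z
    _ = _ := by ring

/-- bound for the Cauchy transform of the indicator of a small disc -/
theorem norm_cauchyT_disc_le {r : ℝ} (hr : 0 < r) (a z : ℂ) :
    ‖cauchyT ((ball a r).indicator (fun _ => (1 : ℂ))) z‖ ≤ r := by
  rw [cauchyT_indicator_ball a hr]
  split_ifs with h
  · rw [smul_eq_mul, mul_one, RCLike.norm_conj]; exact h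
  · push Not at h
    rw [smul_eq_mul, mul_one, norm_div, norm_pow, Complex.norm_real, Real.norm_eq_abs, sq_abs,
      div_le_iff₀ (by linarith)]
    nlinarith

theorem ind_int {S : Set ℂ} (hS : MeasurableSet S) (hS4 : S ⊆ closedBall 0 4) (z : ℂ) :
    Integrable (fun ζ => (z - ζ)⁻¹ • S.indicator (fun _ => (1 : ℂ)) ζ) := by
  refine cauchy_integrable (z₀ := 0) (R := 4) (M := 1) ?_ ?_ ?_ z
  · rw [aestronglyMeasurable_indicator_iff hS]
    exact aestronglyMeasurable_const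
  · intro ζ
    by_cases h : ζ ∈ S
    · rw [indicator_of_mem h]; simp
    · rw [indicator_of_notMem h]; simp
  · intro ζ hζ
    exact indicator_of_notMem (fun h => hζ (hS4 h)) _

theorem ball_sub {a : ℂ} {r : ℝ} (ha : ‖a‖ ≤ 2) (hr : r ≤ 1 / 4) : ball a r ⊆ closedBall 0 4 := by
  intro z hz
  rw [mem_ball, dist_eq_norm] at hz
  rw [mem_closedBall, dist_zero_right]
  have : ‖z‖ ≤ ‖z - a‖ + ‖a‖ := by
    calc ‖z‖ = ‖(z - a) + a‖ := by rw [sub_add_cancel]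
      _ ≤ _ := norm_add_le _ _
  linarith

/-- the Cauchy transform of the indicator of `G` -/
theorem cauchy_one {r : ℝ} (hr : 0 < r) (hr4 : r ≤ 1 / 4) {a b : ℂ} (hab : ‖a - b‖ = 1)
    (ha : ‖a‖ ≤ 2) (hb : ‖b‖ ≤ 2) {z : ℂ} (hz : ‖z‖ ≤ 4) :
    ‖cauchyT ((GG r a b).indicator (fun _ => (1 : ℂ))) z - conj z‖ ≤ 2 * r := by
  have hae : ∀ᵐ ζ : ℂ, ζ ∉ sphere (0 : ℂ) 4 :=
    measure_eq_zero_iff_ae_notMem.1 (MeasureTheory.Measure.addHaar_sphere (volume : Measure ℂ) 0 4)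
  have h1 : cauchyT ((GG r a b).indicator (fun _ => (1 : ℂ))) z =
      cauchyT (fun ζ => ((ball 0 4).indicator (fun _ => (1 : ℂ)) ζ -
        (ball a r).indicator (fun _ => (1 : ℂ)) ζ) - (ball b r).indicator (fun _ => (1 : ℂ)) ζ) z := by
    unfold cauchyT
    congr 1
    apply integral_congr_ae
    filter_upwards [hae] with ζ hζ
    congr 1
    rw [mem_sphere, dist_zero_right] at hζ
    by_cases h4 : ‖ζ‖ < 4
    · have e0 : (ball (0 : ℂ) 4).indicator (fun _ => (1 : ℂ)) ζ = 1 :=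
        indicator_of_mem (by rwa [mem_ball, dist_zero_right]) _
      rw [e0]
      by_cases hza : ‖ζ - a‖ < r
      · have ea : (ball a r).indicator (fun _ => (1 : ℂ)) ζ = 1 :=
          indicator_of_mem (by rwa [mem_ball, dist_eq_norm]) _
        have eb : (ball b r).indicator (fun _ => (1 : ℂ)) ζ = 0 := by
          apply indicator_of_notMem
          rw [mem_ball, dist_eq_norm, not_lt]
          have : ‖a - b‖ ≤ ‖ζ - b‖ + ‖ζ - a‖ := by
            have : a - b = (ζ - b) - (ζ - a) := by ring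
            rw [this]; exact norm_sub_le _ _
          linarith
        have eg : (GG r a b).indicator (fun _ => (1 : ℂ)) ζ = 0 := by
          apply indicator_of_notMem
          intro h
          exact absurd h.2.1 (not_le.2 hza)
        rw [ea, eb, eg]; ring
      · have ea : (ball a r).indicator (fun _ => (1 : ℂ)) ζ = 0 :=
          indicator_of_notMem (by rwa [mem_ball, dist_eq_norm]) _
        by_cases hzb : ‖ζ - b‖ < r
        · have eb : (ball b r).indicator (fun _ => (1 : ℂ)) ζ = 1 :=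
            indicator_of_mem (by rwa [mem_ball, dist_eq_norm]) _
          have eg : (GG r a b).indicator (fun _ => (1 : ℂ)) ζ = 0 := by
            apply indicator_of_notMem
            intro h
            exact absurd h.2.2 (not_le.2 hzb)
          rw [ea, eb, eg]; ring
        · have eb : (ball b r).indicator (fun _ => (1 : ℂ)) ζ = 0 :=
            indicator_of_notMem (by rwa [mem_ball, dist_eq_norm]) _
          have hmem : ζ ∈ GG r a b := ⟨h4.le, not_lt.1 hza, not_lt.1 hzb⟩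
          have eg : (GG r a b).indicator (fun _ => (1 : ℂ)) ζ = 1 := indicator_of_mem hmem _
          rw [ea, eb, eg]; ring
    · have h4' : 4 < ‖ζ‖ := lt_of_le_of_ne (not_lt.1 h4) (Ne.symm hζ)
      have e0 : (ball (0 : ℂ) 4).indicator (fun _ => (1 : ℂ)) ζ = 0 :=
        indicator_of_notMem (by rwa [mem_ball, dist_zero_right]) _
      have ea : (ball a r).indicator (fun _ => (1 : ℂ)) ζ = 0 := by
        apply indicator_of_notMem
        intro h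
        have := ball_sub ha hr4 h
        rw [mem_closedBall, dist_zero_right] at this
        linarith
      have eb : (ball b r).indicator (fun _ => (1 : ℂ)) ζ = 0 := by
        apply indicator_of_notMem
        intro h
        have := ball_sub hb hr4 h
        rw [mem_closedBall, dist_zero_right] at this
        linarith
      have eg : (GG r a b).indicator (fun _ => (1 : ℂ)) ζ = 0 := by
        apply indicator_of_notMem
        intro h
        exact absurd h.1 (not_le.2 h4')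
      rw [e0, ea, eb, eg]; ring
  have i0 := ind_int (S := ball 0 4) measurableSet_ball ball_subset_closedBall z
  have ia := ind_int (S := ball a r) measurableSet_ball (ball_sub ha hr4) z
  have ib := ind_int (S := ball b r) measurableSet_ball (ball_sub hb hr4) z
  have i1 : Integrable (fun ζ => (z - ζ)⁻¹ • ((ball 0 4).indicator (fun _ => (1 : ℂ)) ζ -
        (ball a r).indicator (fun _ => (1 : ℂ)) ζ)) := by
    refine (i0.sub ia).congr (Filter.Eventually.of_forall fun ζ => ?_)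
    simp only [Pi.sub_apply, smul_sub]
  rw [h1, cauchyT_sub i1 ib, cauchyT_sub i0 ia]
  have e4 : cauchyT ((ball 0 4).indicator (fun _ => (1 : ℂ))) z = conj z := by
    rw [cauchyT_indicator_ball 0 (by norm_num), if_pos (by rwa [sub_zero]), sub_zero, smul_eq_mul,
      mul_one]
  have e4' : cauchyT (fun ζ => (ball 0 4).indicator (fun _ => (1 : ℂ)) ζ) z = conj z := e4
  rw [e4']
  have na := norm_cauchyT_disc_le hr a z
  have nb := norm_cauchyT_disc_le hr b z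
  calc _ = ‖-(cauchyT (fun ζ => (ball a r).indicator (fun _ => (1 : ℂ)) ζ) z) -
        cauchyT (fun ζ => (ball b r).indicator (fun _ => (1 : ℂ)) ζ) z‖ := by
        congr 1; ring
    _ ≤ ‖-(cauchyT (fun ζ => (ball a r).indicator (fun _ => (1 : ℂ)) ζ) z)‖ +
        ‖cauchyT (fun ζ => (ball b r).indicator (fun _ => (1 : ℂ)) ζ) z‖ := norm_sub_le _ _
    _ ≤ r + r := by rw [norm_neg]; exact add_le_add na nb
    _ = _ := by ring

theorem EE_snd_le {ε c : ℝ} (hε : 0 < ε) (hc : c ∈ Icc (-1 : ℝ) 1) {z : ℂ} (hz : ‖z‖ ≤ 4) :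
    ‖(EE ε c z).2‖ ≤ 20 * ε := by
  rw [EE]
  simp only
  rw [norm_mul, Complex.norm_real, Real.norm_eq_abs, abs_of_pos hε]
  have h1 : ‖((2 : ℂ) + c) * z - z ^ 2 / 2‖ ≤ 20 := by
    calc _ ≤ ‖((2 : ℂ) + c) * z‖ + ‖z ^ 2 / 2‖ := norm_sub_le _ _
      _ ≤ 3 * 4 + 16 / 2 := by
        apply add_le_add
        · rw [norm_mul]
          apply mul_le_mul _ hz (norm_nonneg _) (by norm_num)
          calc ‖(2 : ℂ) + c‖ ≤ ‖(2 : ℂ)‖ + ‖(c : ℂ)‖ := norm_add_le _ _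
            _ ≤ 2 + 1 := by
              apply add_le_add
              · simp
              · rw [Complex.norm_real, Real.norm_eq_abs, abs_le]
                exact hc
            _ = 3 := by norm_num
        · rw [norm_div, norm_pow]
          have : ‖(2 : ℂ)‖ = 2 := by simp
          rw [this]
          apply div_le_div_of_nonneg_right _ (by norm_num)
          nlinarith [norm_nonneg z]
      _ = 20 := by norm_num
  nlinarith

/-- first estimates -/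
theorem first {ε c : ℝ} (hε : 0 < ε) (hε' : ε ≤ 1 / 1000000) (hc : c ∈ Icc (-1 : ℝ) 1)
    {h p q : ℂ → ℂ × ℂ} (s : Sol ε (EE ε c) aa bb h p q) :
    (∀ z ∈ closedBall (0 : ℂ) 4, ‖(h z).1 - 1‖ ≤ 288000 * ε ∧ ‖(h z).2‖ ≤ 288020 * ε ∧
      ‖h z‖ ≤ 2) ∧
    (∀ w ∈ closedBall bb (1 / 4), ‖p w‖ ≤ 4 ∧ ‖p w - h w‖ ≤ 6 * ε ^ 2) ∧
    (∀ w ∈ closedBall aa (1 / 4), ‖q w‖ ≤ 4 ∧ ‖q w - h w‖ ≤ 6 * ε ^ 2) := by
  have h0 : ∀ z ∈ closedBall (0 : ℂ) 4, ‖(h z).1 - 1‖ ≤ 288000 * ε ∧ ‖(h z).2‖ ≤ 288020 * ε ∧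
      ‖h z‖ ≤ 2 := by
    intro z hz
    rw [mem_closedBall, dist_zero_right] at hz
    have h1 := crude hε (by linarith) s z
    have h2 : ‖(h z).1 - 1‖ ≤ 288000 * ε := by
      have : (h z).1 - 1 = (h z - EE ε c z).1 := by simp [EE]
      rw [this]; exact (fst_le _).trans h1
    have h3 : ‖(h z).2‖ ≤ 288020 * ε := by
      have e : (h z).2 = (h z - EE ε c z).2 + (EE ε c z).2 := by simp
      rw [e]
      calc _ ≤ ‖(h z - EE ε c z).2‖ + ‖(EE ε c z).2‖ := norm_add_le _ _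
        _ ≤ 288000 * ε + 20 * ε := add_le_add ((snd_le _).trans h1) (EE_snd_le hε hc hz)
        _ = _ := by ring
    refine ⟨h2, h3, ?_⟩
    rw [Prod.norm_def, sup_le_iff]
    constructor
    · calc ‖(h z).1‖ = ‖((h z).1 - 1) + 1‖ := by rw [sub_add_cancel]
        _ ≤ ‖(h z).1 - 1‖ + ‖(1 : ℂ)‖ := norm_add_le _ _
        _ ≤ 2 := by rw [norm_one]; linarith
    · linarith
  have hb4 : closedBall bb (1 / 4) ⊆ closedBall 0 4 := by
    apply closedBall_subset_closedBall'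
    rw [dist_zero_right, norm_bb]; norm_num
  have ha4 : closedBall aa (1 / 4) ⊆ closedBall 0 4 := by
    apply closedBall_subset_closedBall'
    rw [dist_zero_right, norm_aa]; norm_num
  exact ⟨h0, p_close hε (by linarith) norm_aa_sub_bb s (fun w hw => (h0 w (hb4 hw)).2.2),
    p_close hε (by linarith) norm_bb_sub_aa s.swap (fun w hw => (h0 w (ha4 hw)).2.2)⟩

theorem cauchyT_smul (c : ℂ) (ν : ℂ → ℂ) (z : ℂ) :
    cauchyT (fun ζ => c * ν ζ) z = c * cauchyT ν z := by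
  unfold cauchyT
  simp only [smul_eq_mul]
  have : ∀ ζ, (z - ζ)⁻¹ * (c * ν ζ) = c * ((z - ζ)⁻¹ * ν ζ) := fun ζ => by ring
  simp_rw [this]
  rw [integral_const_mul]
  ring

/-- values of the components of the solution on `G` -/
theorem PHI_fst (r : ℝ) (a b : ℂ) (h p q : ℂ → ℂ × ℂ) (z : ℂ) :
    (PHI r a b h p q z).1 = (h z).1 + ((r : ℂ) / (z - a)) * (p (sg r a b z)).2 +
      ((r : ℂ) / (z - b)) * (q (sg r b a z)).2 := by
  simp [PHI]

theorem PHI_snd (r : ℝ) (a b : ℂ) (h p q : ℂ → ℂ × ℂ) (z : ℂ) :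
    (PHI r a b h p q z).2 = (h z).2 + ((r : ℂ) / (z - a)) * (-(p (sg r a b z)).1) +
      ((r : ℂ) / (z - b)) * (-(q (sg r b a z)).1) := by
  simp [PHI]

theorem sq_norm_cast (x : ℂ) : ((‖x‖ ^ 2 : ℝ) : ℂ) = x * conj x := by
  rw [Complex.mul_conj, Complex.normSq_eq_norm_sq]

/-- refined estimate of `h` -/
theorem h_est {ε c : ℝ} (hε : 0 < ε) (hε' : ε ≤ 1 / 1000000) (hc : c ∈ Icc (-1 : ℝ) 1)
    {h p q : ℂ → ℂ × ℂ} (s : Sol ε (EE ε c) aa bb h p q) :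
    ∀ z ∈ closedBall (0 : ℂ) 4, ‖(h z).1 - 1‖ ≤ 10 ^ 10 * ε ^ 2 ∧
        ‖(h z).2 - ε * (qq z + c * z)‖ ≤ 10 ^ 10 * ε ^ 2 := by
  obtain ⟨hh, hp, hq⟩ := first hε hε' hc s
  have hr : 0 < ε ^ 2 := by positivity
  have hr4 : ε ^ 2 ≤ 1 / 4 := by nlinarith
  have hε10 : ε ≤ 1 / 10 := by linarith
  have hsub : ∀ z ∈ GG (ε ^ 2) aa bb, z ∈ closedBall (0 : ℂ) 4 := by
    intro z hz
    rw [mem_closedBall, dist_zero_right]
    exact hz.1
  have hswap : ∀ ζ, ζ ∈ GG (ε ^ 2) aa bb → ζ ∈ GG (ε ^ 2) bb aa := fun ζ h => by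
    rwa [GG_swap] at h
  have hb4 : closedBall bb (1 / 4) ⊆ closedBall 0 4 := by
    apply closedBall_subset_closedBall'
    rw [dist_zero_right, norm_bb]; norm_num
  have ha4 : closedBall aa (1 / 4) ⊆ closedBall 0 4 := by
    apply closedBall_subset_closedBall'
    rw [dist_zero_right, norm_aa]; norm_num
  -- second components of `p`, `q`
  have hp2 : ∀ w ∈ closedBall bb (1 / 4), ‖(p w).2‖ ≤ 300000 * ε := by
    intro w hw
    have e : (p w).2 = (p w - h w).2 + (h w).2 := by simp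
    rw [e]
    calc _ ≤ ‖(p w - h w).2‖ + ‖(h w).2‖ := norm_add_le _ _
      _ ≤ 6 * ε ^ 2 + 288020 * ε :=
        add_le_add ((snd_le _).trans (hp w hw).2) (hh w (hb4 hw)).2.1
      _ ≤ _ := by nlinarith
  have hq2 : ∀ w ∈ closedBall aa (1 / 4), ‖(q w).2‖ ≤ 300000 * ε := by
    intro w hw
    have e : (q w).2 = (q w - h w).2 + (h w).2 := by simp
    rw [e]
    calc _ ≤ ‖(q w - h w).2‖ + ‖(h w).2‖ := norm_add_le _ _
      _ ≤ 6 * ε ^ 2 + 288020 * ε :=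
        add_le_add ((snd_le _).trans (hq w hw).2) (hh w (ha4 hw)).2.1
      _ ≤ _ := by nlinarith
  set Φ := PHI (ε ^ 2) aa bb h p q with hΦ
  set A : ℂ → ℂ := fun z => (((ε ^ 2 : ℝ) : ℂ) / (z - aa)) * (-(p (sg (ε ^ 2) aa bb z)).1) with hA
  set B : ℂ → ℂ := fun z => (((ε ^ 2 : ℝ) : ℂ) / (z - bb)) * (-(q (sg (ε ^ 2) bb aa z)).1) with hB
  have hΦ2 : ∀ z, (Φ z).2 = (h z).2 + A z + B z := fun z => by
    rw [hΦ, PHI_snd]
  -- continuity
  have cΦ : ContinuousOn Φ (GG (ε ^ 2) aa bb) := cont_PHI hε hε10 s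
  have cΦ1 : ContinuousOn (fun z => (Φ z).1) (GG (ε ^ 2) aa bb) := cΦ.fst
  have cΦ2 : ContinuousOn (fun z => (Φ z).2) (GG (ε ^ 2) aa bb) := cΦ.snd
  have ch1 : ContinuousOn (fun z => (h z).1) (GG (ε ^ 2) aa bb) := s.h_cont.fst.continuousOn
  have ch2 : ContinuousOn (fun z => (h z).2) (GG (ε ^ 2) aa bb) := s.h_cont.snd.continuousOn
  have cA : ContinuousOn A (GG (ε ^ 2) aa bb) :=
    (continuousOn_w hr aa bb).mul (cont_p hε hε10 s).fst.neg
  have cwb : ContinuousOn (fun z => ((ε ^ 2 : ℝ) : ℂ) / (z - bb)) (GG (ε ^ 2) aa bb) := by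
    rw [← GG_swap]; exact continuousOn_w hr bb aa
  have cB : ContinuousOn B (GG (ε ^ 2) aa bb) := cwb.mul (cont_q hε hε10 s).fst.neg
  have cconj' : ∀ {f : ℂ → ℂ}, ContinuousOn f (GG (ε ^ 2) aa bb) →
      ContinuousOn (fun z => conj (f z)) (GG (ε ^ 2) aa bb) := fun hf =>
    Complex.continuous_conj.comp_continuousOn hf
  -- bounds
  have bA : ∀ z ∈ GG (ε ^ 2) aa bb, ‖A z‖ ≤ 4 * (ε ^ 2 / ‖z - aa‖) := by
    intro z hz
    rw [hA]
    simp only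
    rw [norm_mul, norm_w hr, norm_neg, mul_comm]
    exact mul_le_mul_of_nonneg_right ((fst_le _).trans (hp _ (sg_mem4 hr hr4 hz)).1) (w_nonneg hr)
  have bB : ∀ z ∈ GG (ε ^ 2) aa bb, ‖B z‖ ≤ 4 * (ε ^ 2 / ‖z - bb‖) := by
    intro z hz
    rw [hB]
    simp only
    rw [norm_mul, norm_w hr, norm_neg, mul_comm]
    exact mul_le_mul_of_nonneg_right
      ((fst_le _).trans (hq _ (sg_mem4 hr hr4 (hswap z hz))).1) (w_nonneg hr)
  have b1 : ∀ z ∈ GG (ε ^ 2) aa bb, ‖(Φ z).1 - 1‖ ≤ 900000 * ε := by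
    intro z hz
    have e : (Φ z).1 - 1 = ((h z).1 - 1) +
        (((ε ^ 2 : ℝ) : ℂ) / (z - aa)) * (p (sg (ε ^ 2) aa bb z)).2 +
        (((ε ^ 2 : ℝ) : ℂ) / (z - bb)) * (q (sg (ε ^ 2) bb aa z)).2 := by
      rw [hΦ, PHI_fst]; ring
    rw [e]
    have e1 : ‖(((ε ^ 2 : ℝ) : ℂ) / (z - aa)) * (p (sg (ε ^ 2) aa bb z)).2‖ ≤
        1 * (300000 * ε) := by
      rw [norm_mul, norm_w hr]
      exact mul_le_mul (w_le_one hr hz) (hp2 _ (sg_mem4 hr hr4 hz)) (norm_nonneg _) (by norm_num)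
    have e2 : ‖(((ε ^ 2 : ℝ) : ℂ) / (z - bb)) * (q (sg (ε ^ 2) bb aa z)).2‖ ≤
        1 * (300000 * ε) := by
      rw [norm_mul, norm_w hr]
      exact mul_le_mul (w_le_one hr (hswap z hz)) (hq2 _ (sg_mem4 hr hr4 (hswap z hz)))
        (norm_nonneg _) (by norm_num)
    calc _ ≤ ‖(h z).1 - 1‖ + _ + _ := norm_add₃_le
      _ ≤ 288000 * ε + 1 * (300000 * ε) + 1 * (300000 * ε) :=
        add_le_add (add_le_add (hh z (hsub z hz)).1 e1) e2
      _ ≤ _ := by nlinarith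
  have b1' : ∀ z ∈ GG (ε ^ 2) aa bb, ‖(Φ z).1‖ ≤ 2 := by
    intro z hz
    calc ‖(Φ z).1‖ = ‖((Φ z).1 - 1) + 1‖ := by rw [sub_add_cancel]
      _ ≤ ‖(Φ z).1 - 1‖ + ‖(1 : ℂ)‖ := norm_add_le _ _
      _ ≤ 2 := by rw [norm_one]; have := b1 z hz; linarith
  have b2 : ∀ z ∈ GG (ε ^ 2) aa bb, ‖(Φ z).2‖ ≤ 20 := fun z hz => (snd_le _).trans (s.bd z hz)
  have bh2 : ∀ z ∈ GG (ε ^ 2) aa bb, ‖(h z).2‖ ≤ 288020 * ε := fun z hz =>
    (hh z (hsub z hz)).2.1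
  -- first component
  have hN : ∀ z ∈ GG (ε ^ 2) aa bb,
      ‖(((ε * (‖(Φ z).1‖ ^ 2 + ‖(Φ z).2‖ ^ 2) : ℝ)) : ℂ)‖ ≤ 800 * ε := by
    intro z hz
    rw [Complex.norm_real, Real.norm_eq_abs, abs_of_nonneg (by positivity)]
    have h1 := b1' z hz
    have h2 := b2 z hz
    have h3 : ‖(Φ z).1‖ ^ 2 + ‖(Φ z).2‖ ^ 2 ≤ 800 := by
      nlinarith [norm_nonneg (Φ z).1, norm_nonneg (Φ z).2]
    nlinarith
  have cN : ContinuousOn (fun z => (((ε * (‖(Φ z).1‖ ^ 2 + ‖(Φ z).2‖ ^ 2) : ℝ)) : ℂ))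
      (GG (ε ^ 2) aa bb) := by
    apply Complex.continuous_ofReal.comp_continuousOn
    exact continuousOn_const.mul ((cΦ1.norm.pow 2).add (cΦ2.norm.pow 2))
  intro z hz
  have hz4 : ‖z‖ ≤ 4 := by rwa [mem_closedBall, dist_zero_right] at hz
  constructor
  · have e1 : (h z).1 - 1 = cauchyT ((GG (ε ^ 2) aa bb).indicator (fun ζ =>
        ((ε * (‖(Φ ζ).1‖ ^ 2 + ‖(Φ ζ).2‖ ^ 2) : ℝ) : ℂ) * conj (h ζ).2 +
        ((ε * (‖(Φ ζ).1‖ ^ 2 + ‖(Φ ζ).2‖ ^ 2) : ℝ) : ℂ) * conj (A ζ) +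
        ((ε * (‖(Φ ζ).1‖ ^ 2 + ‖(Φ ζ).2‖ ^ 2) : ℝ) : ℂ) * conj (B ζ))) z := by
      have h1 := congrArg Prod.fst (s.h_eq z)
      rw [Prod.fst_add, cauchyT_fst (int_mu hε hε10 s z)] at h1
      rw [h1]
      have h2 : (EE ε c z).1 = 1 := rfl
      rw [h2, add_sub_cancel_left]
      congr 1
      funext ζ
      by_cases hζ : ζ ∈ GG (ε ^ 2) aa bb
      · rw [indicator_of_mem hζ, indicator_of_mem hζ]
        have h3 : (mu ε (Φ ζ)).1 =
            ((ε * (‖(Φ ζ).1‖ ^ 2 + ‖(Φ ζ).2‖ ^ 2) : ℝ) : ℂ) * conj (Φ ζ).2 := rfl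
        rw [h3, hΦ2 ζ, map_add, map_add]
        ring
      · rw [indicator_of_notMem hζ, indicator_of_notMem hζ]; rfl
    rw [e1]
    refine (bound3 hε
      (F₀ := fun ζ => ((ε * (‖(Φ ζ).1‖ ^ 2 + ‖(Φ ζ).2‖ ^ 2) : ℝ) : ℂ) * conj (h ζ).2)
      (Fa := fun ζ => ((ε * (‖(Φ ζ).1‖ ^ 2 + ‖(Φ ζ).2‖ ^ 2) : ℝ) : ℂ) * conj (A ζ))
      (Fb := fun ζ => ((ε * (‖(Φ ζ).1‖ ^ 2 + ‖(Φ ζ).2‖ ^ 2) : ℝ) : ℂ) * conj (B ζ))
      (M₀ := 800 * ε * (288020 * ε)) (M₁ := 800 * ε * 4) (by positivity)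
      (by positivity) (cN.mul (cconj' ch2)) (cN.mul (cconj' cA)) (cN.mul (cconj' cB)) ?_ ?_ ?_
      z).trans ?_
    · intro ζ hζ
      rw [norm_mul, RCLike.norm_conj]
      exact mul_le_mul (hN ζ hζ) (bh2 ζ hζ) (norm_nonneg _) (by positivity)
    · intro ζ hζ
      rw [norm_mul, RCLike.norm_conj, mul_assoc]
      exact mul_le_mul (hN ζ hζ) (bA ζ hζ) (norm_nonneg _) (by positivity)
    · intro ζ hζ
      rw [norm_mul, RCLike.norm_conj, mul_assoc]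
      exact mul_le_mul (hN ζ hζ) (bB ζ hζ) (norm_nonneg _) (by positivity)
    · nlinarith
  · set g : ℂ → ℂ := fun ζ => ((Φ ζ).1 * conj (Φ ζ).1 * conj (Φ ζ).1 - 1 +
        (Φ ζ).2 * conj (Φ ζ).1 * conj (h ζ).2) + (Φ ζ).2 * conj (Φ ζ).1 * conj (A ζ) +
        (Φ ζ).2 * conj (Φ ζ).1 * conj (B ζ) with hg
    have bg : ‖cauchyT ((GG (ε ^ 2) aa bb).indicator g) z‖ ≤ 10 ^ 9 * ε := by
      refine (bound3 hε
        (F₀ := fun ζ => (Φ ζ).1 * conj (Φ ζ).1 * conj (Φ ζ).1 - 1 +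
          (Φ ζ).2 * conj (Φ ζ).1 * conj (h ζ).2)
        (Fa := fun ζ => (Φ ζ).2 * conj (Φ ζ).1 * conj (A ζ))
        (Fb := fun ζ => (Φ ζ).2 * conj (Φ ζ).1 * conj (B ζ))
        (M₀ := 7 * (900000 * ε) + 20 * 2 * (288020 * ε)) (M₁ := 20 * 2 * 4)
        (by positivity)
        (by positivity) ((((cΦ1.mul (cconj' cΦ1)).mul (cconj' cΦ1)).sub continuousOn_const).add
          ((cΦ2.mul (cconj' cΦ1)).mul (cconj' ch2)))
        ((cΦ2.mul (cconj' cΦ1)).mul (cconj' cA)) ((cΦ2.mul (cconj' cΦ1)).mul (cconj' cB))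
        ?_ ?_ ?_ z).trans ?_
      · intro ζ hζ
        refine (norm_add_le _ _).trans (add_le_add ?_ ?_)
        · have hx := b1 ζ hζ
          have hx2 := b1' ζ hζ
          generalize (Φ ζ).1 = x at hx hx2
          have hxc : ‖conj x - 1‖ ≤ 900000 * ε := by
            have : conj x - 1 = conj (x - 1) := by simp
            rw [this, RCLike.norm_conj]; exact hx
          have hxc2 : ‖conj x‖ ≤ 2 := by rw [RCLike.norm_conj]; exact hx2
          have e : x * conj x * conj x - 1 =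
              (x - 1) * conj x * conj x + (conj x - 1) * conj x + (conj x - 1) := by ring
          rw [e]
          calc _ ≤ ‖(x - 1) * conj x * conj x‖ + ‖(conj x - 1) * conj x‖ + ‖conj x - 1‖ :=
                norm_add₃_le
            _ ≤ 900000 * ε * 2 * 2 + 900000 * ε * 2 + 900000 * ε := by
                apply add_le_add (add_le_add _ _) hxc
                · rw [norm_mul, norm_mul]
                  exact mul_le_mul (mul_le_mul hx hxc2 (norm_nonneg _) (by positivity)) hxc2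
                    (norm_nonneg _) (by positivity)
                · rw [norm_mul]
                  exact mul_le_mul hxc hxc2 (norm_nonneg _) (by positivity)
            _ = _ := by ring
        · rw [norm_mul, norm_mul, RCLike.norm_conj, RCLike.norm_conj]
          exact mul_le_mul (mul_le_mul (b2 ζ hζ) (b1' ζ hζ) (norm_nonneg _) (by norm_num))
            (bh2 ζ hζ) (norm_nonneg _) (by positivity)
      · intro ζ hζ
        rw [norm_mul, norm_mul, RCLike.norm_conj, RCLike.norm_conj, mul_assoc (20 * 2 : ℝ)]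
        exact mul_le_mul (mul_le_mul (b2 ζ hζ) (b1' ζ hζ) (norm_nonneg _) (by norm_num))
            (bA ζ hζ) (norm_nonneg _) (by positivity)
      · intro ζ hζ
        rw [norm_mul, norm_mul, RCLike.norm_conj, RCLike.norm_conj, mul_assoc (20 * 2 : ℝ)]
        exact mul_le_mul (mul_le_mul (b2 ζ hζ) (b1' ζ hζ) (norm_nonneg _) (by norm_num))
            (bB ζ hζ) (norm_nonneg _) (by positivity)
      · nlinarith
    have cg : ContinuousOn g (GG (ε ^ 2) aa bb) :=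
      ((((((cΦ1.mul (cconj' cΦ1)).mul (cconj' cΦ1)).sub continuousOn_const).add
          ((cΦ2.mul (cconj' cΦ1)).mul (cconj' ch2)))).add
          ((cΦ2.mul (cconj' cΦ1)).mul (cconj' cA))).add
          ((cΦ2.mul (cconj' cΦ1)).mul (cconj' cB))
    obtain ⟨M, hM⟩ := (isCompact_GG (ε ^ 2) aa bb).exists_bound_of_continuousOn cg
    have ig : Integrable (fun ζ => (z - ζ)⁻¹ • (GG (ε ^ 2) aa bb).indicator g ζ) :=
      cauchy_integrable (z₀ := 0) (R := 4) (M := |M|) (aesm cg)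
        (ind_norm (abs_nonneg _) (fun ζ hζ => (hM ζ hζ).trans (le_abs_self _))) ind_out z
    have i1 : Integrable (fun ζ => (z - ζ)⁻¹ •
        (GG (ε ^ 2) aa bb).indicator (fun _ => (1 : ℂ)) ζ) :=
      ind_int (measurableSet_GG _ _ _) (fun ζ hζ => hsub ζ hζ) z
    have b3 := cauchy_one hr hr4 norm_aa_sub_bb (by rw [norm_aa]; norm_num)
      (by rw [norm_bb]; norm_num) hz4
    have e2 : (h z).2 = (EE ε c z).2 + (-(ε : ℂ)) * (cauchyT ((GG (ε ^ 2) aa bb).indicator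
        (fun _ => (1 : ℂ))) z + cauchyT ((GG (ε ^ 2) aa bb).indicator g) z) := by
      have h1 := congrArg Prod.snd (s.h_eq z)
      rw [Prod.snd_add, cauchyT_snd (int_mu hε hε10 s z)] at h1
      rw [h1, ← cauchyT_add i1 ig, ← cauchyT_smul]
      congr 2
      funext ζ
      by_cases hζ : ζ ∈ GG (ε ^ 2) aa bb
      · rw [indicator_of_mem hζ, indicator_of_mem hζ, indicator_of_mem hζ]
        have h3 : (mu ε (Φ ζ)).2 =
            -(((ε * (‖(Φ ζ).1‖ ^ 2 + ‖(Φ ζ).2‖ ^ 2) : ℝ) : ℂ) * conj (Φ ζ).1) := rfl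
        have h4 : ((ε * (‖(Φ ζ).1‖ ^ 2 + ‖(Φ ζ).2‖ ^ 2) : ℝ) : ℂ) =
            ε * ((Φ ζ).1 * conj (Φ ζ).1 + (Φ ζ).2 * conj (Φ ζ).2) := by
          rw [Complex.ofReal_mul, Complex.ofReal_add, sq_norm_cast, sq_norm_cast]
        have h5 : conj (Φ ζ).2 = conj (h ζ).2 + conj (A ζ) + conj (B ζ) := by
          rw [hΦ2 ζ, map_add, map_add]
        rw [h3, h4, h5, hg]
        ring
      · rw [indicator_of_notMem hζ, indicator_of_notMem hζ, indicator_of_notMem hζ]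
        simp
    have e3 : (h z).2 - ε * (qq z + c * z) =
        (-(ε : ℂ)) * (cauchyT ((GG (ε ^ 2) aa bb).indicator (fun _ => (1 : ℂ))) z - conj z) +
        (-(ε : ℂ)) * cauchyT ((GG (ε ^ 2) aa bb).indicator g) z := by
      rw [e2, EE, qq]
      ring
    rw [e3]
    have nε : ‖(-(ε : ℂ))‖ = ε := by
      rw [norm_neg, Complex.norm_real, Real.norm_eq_abs, abs_of_pos hε]
    calc _ ≤ _ + _ := norm_add_le _ _
      _ ≤ ε * (2 * ε ^ 2) + ε * (10 ^ 9 * ε) := by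
        rw [norm_mul, norm_mul, nε]
        exact add_le_add (mul_le_mul_of_nonneg_left b3 hε.le)
          (mul_le_mul_of_nonneg_left bg hε.le)
      _ ≤ _ := by nlinarith

end SolEst

open SolEst in
theorem sol_est : ∃ C > 0, ∃ ε₀ > 0, ∀ ε : ℝ, 0 < ε → ε < ε₀ → ∀ c ∈ Icc (-1 : ℝ) 1,
    ∀ h p q, Sol ε (EE ε c) aa bb h p q →
      (∀ z ∈ closedBall (0 : ℂ) 4, ‖(h z).1 - 1‖ ≤ C * ε ^ 2 ∧
        ‖(h z).2 - ε * (qq z + c * z)‖ ≤ C * ε ^ 2) ∧
      (∀ z ∈ closedBall bb (1 / 4), ‖(p z).1 - 1‖ ≤ C * ε ^ 2 ∧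
        ‖(p z).2 - ε * (qq z + c * z)‖ ≤ C * ε ^ 2) ∧
      (∀ z ∈ closedBall aa (1 / 4), ‖(q z).1 - 1‖ ≤ C * ε ^ 2 ∧
        ‖(q z).2 - ε * (qq z + c * z)‖ ≤ C * ε ^ 2) := by
  refine ⟨10 ^ 10 + 6, by norm_num, 1 / 1000000, by norm_num, ?_⟩
  intro ε hε hε' c hc h p q s
  have hest := h_est hε hε'.le hc s
  obtain ⟨hh, hp, hq⟩ := first hε hε'.le hc s
  have hb4 : closedBall bb (1 / 4) ⊆ closedBall 0 4 := by
    apply closedBall_subset_closedBall'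
    rw [dist_zero_right, norm_bb]; norm_num
  have ha4 : closedBall aa (1 / 4) ⊆ closedBall 0 4 := by
    apply closedBall_subset_closedBall'
    rw [dist_zero_right, norm_aa]; norm_num
  have hε2 : 0 < ε ^ 2 := by positivity
  refine ⟨fun z hz => ⟨(hest z hz).1.trans (by nlinarith), (hest z hz).2.trans (by nlinarith)⟩,
    ?_, ?_⟩
  · intro z hz
    obtain ⟨h1, h2⟩ := hest z (hb4 hz)
    obtain ⟨-, h3⟩ := hp z hz
    constructor
    · have e : (p z).1 - 1 = (p z - h z).1 + ((h z).1 - 1) := by simp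
      rw [e]
      calc _ ≤ ‖(p z - h z).1‖ + ‖(h z).1 - 1‖ := norm_add_le _ _
        _ ≤ 6 * ε ^ 2 + 10 ^ 10 * ε ^ 2 := add_le_add ((fst_le _).trans h3) h1
        _ = _ := by ring
    · have e : (p z).2 - ε * (qq z + c * z) = (p z - h z).2 + ((h z).2 - ε * (qq z + c * z)) := by
        simp
      rw [e]
      calc _ ≤ ‖(p z - h z).2‖ + ‖(h z).2 - ε * (qq z + c * z)‖ := norm_add_le _ _
        _ ≤ 6 * ε ^ 2 + 10 ^ 10 * ε ^ 2 := add_le_add ((snd_le _).trans h3) h2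
        _ = _ := by ring
  · intro z hz
    obtain ⟨h1, h2⟩ := hest z (ha4 hz)
    obtain ⟨-, h3⟩ := hq z hz
    constructor
    · have e : (q z).1 - 1 = (q z - h z).1 + ((h z).1 - 1) := by simp
      rw [e]
      calc _ ≤ ‖(q z - h z).1‖ + ‖(h z).1 - 1‖ := norm_add_le _ _
        _ ≤ 6 * ε ^ 2 + 10 ^ 10 * ε ^ 2 := add_le_add ((fst_le _).trans h3) h1
        _ = _ := by ring
    · have e : (q z).2 - ε * (qq z + c * z) = (q z - h z).2 + ((h z).2 - ε * (qq z + c * z)) := by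
        simp
      rw [e]
      calc _ ≤ ‖(q z - h z).2‖ + ‖(h z).2 - ε * (qq z + c * z)‖ := norm_add_le _ _
        _ ≤ 6 * ε ^ 2 + 10 ^ 10 * ε ^ 2 := add_le_add ((snd_le _).trans h3) h2
        _ = _ := by ring

end Pool.Agent.MP_49383f_gt
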