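import Pool.Agent.MP_49383f_gt.PhiCont
import Pool.Agent.MP_49383f_gt.SolEst

/-! # M16: the period of the solution -/

namespace Pool.Agent.MP_49383f_gt

open scoped ContDiff ComplexConjugate Topology
open MeasureTheory Metric Set Filter

namespace Period

theorem phi_eq {ε : ℝ} (hε : 0 < ε) (hε' : ε ≤ 1 / 10) {E : ℂ → ℂ × ℂ} {h p q : ℂ → ℂ × ℂ}
    (s : Sol ε E aa bb h p q) {z : ℂ} (hz : ‖z - aa‖ = ε ^ 2) :
    PHI (ε ^ 2) aa bb h p q z =
      q z + (((ε ^ 2 : ℝ) : ℂ) / (z - aa)) • JJ (p (sg (ε ^ 2) aa bb z)) := by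
  have hz' : z ∈ closedBall aa (1 / 4) := by
    rw [mem_closedBall, dist_eq_norm, hz]; nlinarith
  rw [s.q_eq z hz', PHI]
  abel

/-- the linear part at a point near `p` -/
theorem lin_est {r : ℝ} (hr' : r ≤ 1) {c : ℝ} (hc : c ∈ Icc (-1 : ℝ) 1) {x z : ℂ}
    (hx : ‖x‖ ≤ 3 / 2) (hz : ‖z - x‖ ≤ r) :
    ‖(qq z + c * z) - (qq x + c * x)‖ ≤ 6 * r := by
  have e : (qq z + c * z) - (qq x + c * x) =
      (2 + c) * (z - x) - (z + x) / 2 * (z - x) - conj (z - x) := by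
    simp only [qq, map_sub]; ring
  rw [e]
  have hzn : ‖z‖ ≤ 5 / 2 := by
    have : z = (z - x) + x := by ring
    rw [this]
    refine (norm_add_le _ _).trans ?_
    linarith
  have hcn : ‖(2 + c : ℂ)‖ ≤ 3 := by
    refine (norm_add_le _ _).trans ?_
    rw [Complex.norm_real, Real.norm_eq_abs]
    have : |c| ≤ 1 := abs_le.2 hc
    simp only [Complex.norm_ofNat]
    linarith
  have h0 : 0 ≤ ‖z - x‖ := norm_nonneg _
  calc ‖(2 + c) * (z - x) - (z + x) / 2 * (z - x) - conj (z - x)‖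
      ≤ ‖(2 + c) * (z - x)‖ + ‖(z + x) / 2 * (z - x)‖ + ‖conj (z - x)‖ :=
        (norm_sub_le _ _).trans (add_le_add (norm_sub_le _ _) le_rfl)
    _ = ‖(2 + c : ℂ)‖ * ‖z - x‖ + ‖z + x‖ / 2 * ‖z - x‖ + ‖z - x‖ := by
        rw [norm_mul, norm_mul, norm_div, RCLike.norm_conj]; simp
    _ ≤ 3 * ‖z - x‖ + 2 * ‖z - x‖ + ‖z - x‖ := by
        have : ‖z + x‖ ≤ 4 := (norm_add_le _ _).trans (by linarith)
        gcongr
        linarith
    _ ≤ 6 * r := by linarith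

/-- the algebra for `φ₁²` -/
theorem alg1 {K ε : ℝ} (hK : 0 ≤ K) (hε : 0 < ε) (hKε : K * ε ≤ 1) (hε1 : ε ≤ 1)
    {u q1 p2 : ℂ} {l : ℝ} (hl : |l| ≤ 1) (hu : ‖u‖ = 1) (h1 : ‖q1 - 1‖ ≤ K * ε ^ 2)
    (h2 : ‖p2 - ε * l‖ ≤ K * ε ^ 2) :
    ‖(q1 + u * p2) ^ 2 - (1 + 2 * ε * l * u)‖ ≤ (9 * K + 4) * ε ^ 2 := by
  set α := q1 - 1 with hα
  set δ := p2 - ε * l with hδ
  have hp2 : ‖p2‖ ≤ 2 * ε := by
    have : p2 = δ + ε * l := by rw [hδ]; ring
    rw [this]
    refine (norm_add_le _ _).trans ?_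
    rw [norm_mul, Complex.norm_real, Complex.norm_real, Real.norm_eq_abs, Real.norm_eq_abs,
      abs_of_pos hε]
    nlinarith
  have e : (q1 + u * p2) ^ 2 - (1 + 2 * ε * l * u) =
      2 * α + α ^ 2 + 2 * u * (δ + α * p2) + u ^ 2 * p2 ^ 2 := by
    rw [hα, hδ]; ring
  rw [e]
  have hα1 : ‖α‖ ≤ 1 := h1.trans (by nlinarith)
  have n1 : ‖2 * α‖ ≤ 2 * (K * ε ^ 2) := by
    rw [norm_mul]; simp only [Complex.norm_ofNat]; linarith
  have n2 : ‖α ^ 2‖ ≤ K * ε ^ 2 := by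
    rw [norm_pow, sq]
    calc ‖α‖ * ‖α‖ ≤ 1 * ‖α‖ := mul_le_mul_of_nonneg_right hα1 (norm_nonneg _)
      _ ≤ _ := by linarith
  have n3 : ‖2 * u * (δ + α * p2)‖ ≤ 2 * (K * ε ^ 2 + K * ε ^ 2 * (2 * ε)) := by
    rw [norm_mul, norm_mul, hu]; simp only [Complex.norm_ofNat]
    have : ‖δ + α * p2‖ ≤ K * ε ^ 2 + K * ε ^ 2 * (2 * ε) := by
      refine (norm_add_le _ _).trans (add_le_add h2 ?_)
      rw [norm_mul]
      exact mul_le_mul h1 hp2 (norm_nonneg _) (by positivity)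
    linarith
  have n4 : ‖u ^ 2 * p2 ^ 2‖ ≤ 4 * ε ^ 2 := by
    rw [norm_mul, norm_pow, norm_pow, hu]
    nlinarith [norm_nonneg p2]
  calc ‖2 * α + α ^ 2 + 2 * u * (δ + α * p2) + u ^ 2 * p2 ^ 2‖
      ≤ 2 * (K * ε ^ 2) + K * ε ^ 2 + 2 * (K * ε ^ 2 + K * ε ^ 2 * (2 * ε)) + 4 * ε ^ 2 :=
        (norm_add_le _ _).trans (add_le_add ((norm_add_le _ _).trans (add_le_add
          ((norm_add_le _ _).trans (add_le_add n1 n2)) n3)) n4)
    _ ≤ (9 * K + 4) * ε ^ 2 := by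
        have h5 : K * ε ^ 2 * ε ≤ K * ε ^ 2 * 1 :=
          mul_le_mul_of_nonneg_left hε1 (by positivity)
        have h6 : 0 ≤ K * ε ^ 2 := by positivity
        linarith

/-- the algebra for `φ₂²` -/
theorem alg2 {K ε : ℝ} (hK : 0 ≤ K) (hε : 0 < ε) (hKε : K * ε ≤ 1) (hε1 : ε ≤ 1)
    {u q2 p1 : ℂ} {l : ℝ} (hl : |l| ≤ 2) (hu : ‖u‖ = 1) (h1 : ‖p1 - 1‖ ≤ K * ε ^ 2)
    (h2 : ‖q2 - ε * l‖ ≤ K * ε ^ 2) :
    ‖(q2 - u * p1) ^ 2 - (u ^ 2 - 2 * ε * l * u)‖ ≤ (11 * K + 9) * ε ^ 2 := by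
  set γ := p1 - 1 with hγ
  set δ := q2 - ε * l with hδ
  have hq2 : ‖q2‖ ≤ 3 * ε := by
    have : q2 = δ + ε * l := by rw [hδ]; ring
    rw [this]
    refine (norm_add_le _ _).trans ?_
    rw [norm_mul, Complex.norm_real, Complex.norm_real, Real.norm_eq_abs, Real.norm_eq_abs,
      abs_of_pos hε]
    nlinarith
  have e : (q2 - u * p1) ^ 2 - (u ^ 2 - 2 * ε * l * u) =
      q2 ^ 2 - 2 * u * (δ + γ * q2) + u ^ 2 * (2 * γ + γ ^ 2) := by
    rw [hγ, hδ]; ring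
  rw [e]
  have hγ1 : ‖γ‖ ≤ 1 := h1.trans (by nlinarith)
  have n1 : ‖q2 ^ 2‖ ≤ 9 * ε ^ 2 := by
    rw [norm_pow]; nlinarith [norm_nonneg q2]
  have n2 : ‖2 * u * (δ + γ * q2)‖ ≤ 2 * (K * ε ^ 2 + K * ε ^ 2 * (3 * ε)) := by
    rw [norm_mul, norm_mul, hu]; simp only [Complex.norm_ofNat]
    have : ‖δ + γ * q2‖ ≤ K * ε ^ 2 + K * ε ^ 2 * (3 * ε) := by
      refine (norm_add_le _ _).trans (add_le_add h2 ?_)
      rw [norm_mul]
      exact mul_le_mul h1 hq2 (norm_nonneg _) (by positivity)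
    linarith
  have n3 : ‖u ^ 2 * (2 * γ + γ ^ 2)‖ ≤ 3 * (K * ε ^ 2) := by
    rw [norm_mul, norm_pow, hu, one_pow, one_mul]
    refine (norm_add_le _ _).trans ?_
    rw [norm_mul, norm_pow]; simp only [Complex.norm_ofNat]
    have : ‖γ‖ ^ 2 ≤ ‖γ‖ := by nlinarith [norm_nonneg γ]
    linarith
  calc ‖q2 ^ 2 - 2 * u * (δ + γ * q2) + u ^ 2 * (2 * γ + γ ^ 2)‖
      ≤ 9 * ε ^ 2 + 2 * (K * ε ^ 2 + K * ε ^ 2 * (3 * ε)) + 3 * (K * ε ^ 2) :=
        (norm_add_le _ _).trans (add_le_add ((norm_sub_le _ _).trans (add_le_add n1 n2)) n3)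
    _ ≤ (11 * K + 9) * ε ^ 2 := by
        have h5 : K * ε ^ 2 * ε ≤ K * ε ^ 2 * 1 :=
          mul_le_mul_of_nonneg_left hε1 (by positivity)
        linarith

theorem sphere_subset_GG {ε : ℝ} (hε : 0 < ε) (hε' : ε ≤ 1 / 10) :
    sphere aa (ε ^ 2) ⊆ GG (ε ^ 2) aa bb := by
  intro z hz
  rw [mem_sphere, dist_eq_norm] at hz
  have hr : ε ^ 2 ≤ 1 / 100 := by nlinarith
  refine ⟨?_, hz.ge, ?_⟩
  · have : z = (z - aa) + aa := by ring
    rw [this]
    refine (norm_add_le _ _).trans ?_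
    rw [hz, norm_aa]; linarith
  · have h1 : ‖aa - bb‖ ≤ ‖z - bb‖ + ‖z - aa‖ := by
      have : aa - bb = (z - bb) - (z - aa) := by ring
      rw [this]
      exact norm_sub_le _ _
    rw [norm_aa_sub_bb, hz] at h1
    linarith

theorem circle1 {r : ℝ} (hr : 0 < r) (A : ℂ) :
    (∮ z in C(aa, r), (1 + A * ((r : ℂ) / (z - aa)))) = A * r * (2 * Real.pi * Complex.I) := by
  have hne : ∀ z ∈ sphere aa r, z - aa ≠ 0 := by
    intro z hz hc
    rw [mem_sphere, dist_eq_norm, hc, norm_zero] at hz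
    linarith
  have e : (fun z : ℂ => 1 + A * ((r : ℂ) / (z - aa))) =
      fun z => (z - aa) ^ (0 : ℤ) + (A * r) • (z - aa)⁻¹ := by
    funext z; rw [zpow_zero, smul_eq_mul, div_eq_mul_inv]; ring
  have i1 : CircleIntegrable (fun z : ℂ => (z - aa) ^ (0 : ℤ)) aa r := by
    simp only [zpow_zero]; exact continuousOn_const.circleIntegrable hr.le
  have i2 : CircleIntegrable (fun z : ℂ => (A * r) • (z - aa)⁻¹) aa r := by
    apply ContinuousOn.circleIntegrable hr.le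
    exact (continuousOn_const (c := A * (r : ℂ))).smul
      ((continuousOn_id.sub continuousOn_const).inv₀ hne)
  rw [e, circleIntegral.integral_add i1 i2, circleIntegral.integral_sub_zpow_of_ne (by norm_num),
    circleIntegral.integral_smul, circleIntegral.integral_sub_center_inv aa hr.ne', zero_add,
    smul_eq_mul]

theorem circle2 {r : ℝ} (hr : 0 < r) (A : ℂ) :
    (∮ z in C(aa, r), (((r : ℂ) / (z - aa)) ^ 2 - A * ((r : ℂ) / (z - aa)))) =
      -(A * r * (2 * Real.pi * Complex.I)) := by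
  have hne : ∀ z ∈ sphere aa r, z - aa ≠ 0 := by
    intro z hz hc
    rw [mem_sphere, dist_eq_norm, hc, norm_zero] at hz
    linarith
  have e : (fun z : ℂ => ((r : ℂ) / (z - aa)) ^ 2 - A * ((r : ℂ) / (z - aa))) =
      fun z => ((r : ℂ) ^ 2) • (z - aa) ^ (-2 : ℤ) - (A * r) • (z - aa)⁻¹ := by
    funext z
    rw [smul_eq_mul, smul_eq_mul, div_pow, div_eq_mul_inv, div_eq_mul_inv, zpow_neg]
    norm_cast
    ring
  have i1 : CircleIntegrable (fun z : ℂ => ((r : ℂ) ^ 2) • (z - aa) ^ (-2 : ℤ)) aa r := by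
    apply ContinuousOn.circleIntegrable hr.le
    refine (continuousOn_const (c := (r : ℂ) ^ 2)).smul ?_
    exact (continuousOn_id.sub continuousOn_const).zpow₀ _ (fun z hz => Or.inl (hne z hz))
  have i2 : CircleIntegrable (fun z : ℂ => (A * r) • (z - aa)⁻¹) aa r := by
    apply ContinuousOn.circleIntegrable hr.le
    exact (continuousOn_const (c := A * (r : ℂ))).smul
      ((continuousOn_id.sub continuousOn_const).inv₀ hne)
  rw [e, circleIntegral.integral_sub i1 i2, circleIntegral.integral_smul,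
    circleIntegral.integral_smul, circleIntegral.integral_sub_zpow_of_ne (by norm_num),
    circleIntegral.integral_sub_center_inv aa hr.ne', smul_zero, zero_sub, smul_eq_mul]

end Period

open Period

theorem per_est : ∃ C > 0, ∃ ε₀ > 0, ∀ ε : ℝ, 0 < ε → ε < ε₀ → ∀ c ∈ Icc (-1 : ℝ) 1,
    ∀ h p q, Sol ε (EE ε c) aa bb h p q →
      ‖per ε (PHI (ε ^ 2) aa bb h p q) / (4 * Real.pi * Complex.I * ε ^ 2) + ε * c‖
        ≤ C * ε ^ 2 := by
  obtain ⟨C, hC, ε₀, hε₀, H⟩ := sol_est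
  refine ⟨19 * (C + 1) + 13, by positivity, min ε₀ (min (1 / 10) (1 / (C + 1))), by positivity,
    fun ε hε hlt c hc h p q s => ?_⟩
  have h1 : ε < ε₀ := hlt.trans_le (min_le_left _ _)
  have h2 : ε < 1 / 10 := hlt.trans_le ((min_le_right _ _).trans (min_le_left _ _))
  have h3 : ε < 1 / (C + 1) := hlt.trans_le ((min_le_right _ _).trans (min_le_right _ _))
  have hK : (C + 1) * ε ≤ 1 := by
    rw [lt_div_iff₀ (by positivity)] at h3
    linarith
  obtain ⟨-, Hp, Hq⟩ := H ε hε h1 c hc h p q s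
  set r := ε ^ 2 with hrdef
  have hr : 0 < r := by positivity
  have hr' : r ≤ 1 / 100 := by rw [hrdef]; nlinarith
  have hcabs : |c| ≤ 1 := abs_le.2 hc
  -- on the circle
  have key : ∀ z ∈ sphere aa r,
      ‖(PHI r aa bb h p q z).1 ^ 2 - (1 + 2 * ε * (3 / 8 + c / 2 : ℝ) * ((r : ℂ) / (z - aa)))‖
        ≤ (9 * (C + 1) + 4) * ε ^ 2 ∧
      ‖(PHI r aa bb h p q z).2 ^ 2 - (((r : ℂ) / (z - aa)) ^ 2
        - 2 * ε * (3 / 8 + 3 * c / 2 : ℝ) * ((r : ℂ) / (z - aa)))‖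
        ≤ (11 * (C + 1) + 9) * ε ^ 2 := by
    intro z hz
    rw [mem_sphere, dist_eq_norm] at hz
    have hu : ‖(r : ℂ) / (z - aa)‖ = 1 := by
      rw [norm_div, hz, Complex.norm_real, Real.norm_eq_abs, abs_of_pos hr, div_self hr.ne']
    have hw : ‖sg r aa bb z - bb‖ = r := by
      rw [norm_sg_sub, hz, sq, mul_self_div_self]
    have hzb : z ∈ closedBall aa (1 / 4) := by
      rw [mem_closedBall, dist_eq_norm, hz]; linarith
    have hwb : sg r aa bb z ∈ closedBall bb (1 / 4) := by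
      rw [mem_closedBall, dist_eq_norm, hw]; linarith
    obtain ⟨p1, p2⟩ := Hp _ hwb
    obtain ⟨q1, q2⟩ := Hq _ hzb
    have qa : qq aa + c * aa = ((3 / 8 + 3 * c / 2 : ℝ) : ℂ) := by
      rw [qq, conj_aa, aa]; push_cast; ring
    have qb : qq bb + c * bb = ((3 / 8 + c / 2 : ℝ) : ℂ) := by
      rw [qq, conj_bb, bb]; push_cast; ring
    have l1 := lin_est (by linarith) hc (x := bb) (z := sg r aa bb z)
      (by rw [norm_bb]; norm_num) hw.le
    have l2 := lin_est (by linarith) hc (x := aa) (z := z) (by rw [norm_aa]) hz.le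
    rw [qb] at l1
    rw [qa] at l2
    have hsmall : ε * (6 * r) ≤ ε ^ 2 := by rw [hrdef]; nlinarith
    have tr : ∀ (X Y Z : ℂ), ‖X - ε * Y‖ ≤ C * ε ^ 2 → ‖Y - Z‖ ≤ 6 * r →
        ‖X - ε * Z‖ ≤ (C + 1) * ε ^ 2 := by
      intro X Y Z hX hY
      have e : X - ε * Z = (X - ε * Y) + ε * (Y - Z) := by ring
      rw [e]
      refine (norm_add_le _ _).trans ?_
      rw [norm_mul, Complex.norm_real, Real.norm_eq_abs, abs_of_pos hε]
      have := mul_le_mul_of_nonneg_left hY hε.le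
      linarith
    have p2' := tr _ _ _ p2 l1
    have q2' := tr _ _ _ q2 l2
    have mono : C * ε ^ 2 ≤ (C + 1) * ε ^ 2 := by
      apply mul_le_mul_of_nonneg_right (by linarith) (by positivity)
    have hphi := phi_eq hε h2.le s hz
    rw [← hrdef] at hphi
    have e1 : (PHI r aa bb h p q z).1 =
        (q z).1 + ((r : ℂ) / (z - aa)) * (p (sg r aa bb z)).2 := by
      rw [hphi]; simp [JJ]
    have e2 : (PHI r aa bb h p q z).2 =
        (q z).2 - ((r : ℂ) / (z - aa)) * (p (sg r aa bb z)).1 := by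
      rw [hphi]; simp [JJ]; ring
    rw [e1, e2]
    constructor
    · refine alg1 (by positivity) hε hK (by linarith) ?_ hu (q1.trans mono) p2'
      rw [abs_le] at hcabs ⊢; constructor <;> linarith [hcabs.1, hcabs.2]
    · refine alg2 (by positivity) hε hK (by linarith) ?_ hu (p1.trans mono) q2'
      rw [abs_le] at hcabs ⊢; constructor <;> linarith [hcabs.1, hcabs.2]
  have hcont : ContinuousOn (PHI r aa bb h p q) (sphere aa r) :=
    (s.continuousOn_PHI_GG hε h2.le).mono (sphere_subset_GG hε h2.le)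
  have hne : ∀ z ∈ sphere aa r, z - aa ≠ 0 := by
    intro z hz hc
    rw [mem_sphere, dist_eq_norm, hc, norm_zero] at hz
    linarith
  have hu : ContinuousOn (fun z : ℂ => (r : ℂ) / (z - aa)) (sphere aa r) :=
    continuousOn_const.div (by fun_prop) hne
  have i1 : CircleIntegrable (fun z => (PHI r aa bb h p q z).1 ^ 2) aa r :=
    ((continuous_fst.comp_continuousOn hcont).pow 2).circleIntegrable hr.le
  have i2 : CircleIntegrable (fun z => (PHI r aa bb h p q z).2 ^ 2) aa r :=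
    ((continuous_snd.comp_continuousOn hcont).pow 2).circleIntegrable hr.le
  have j1 : CircleIntegrable (fun z : ℂ => 1 + 2 * ε * (3 / 8 + c / 2 : ℝ) *
      ((r : ℂ) / (z - aa))) aa r :=
    (continuousOn_const.add (continuousOn_const.mul hu)).circleIntegrable hr.le
  have j2 : CircleIntegrable (fun z : ℂ => ((r : ℂ) / (z - aa)) ^ 2
        - 2 * ε * (3 / 8 + 3 * c / 2 : ℝ) * ((r : ℂ) / (z - aa))) aa r :=
    ((hu.pow 2).sub (continuousOn_const.mul hu)).circleIntegrable hr.le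
  have b1 := circleIntegral.norm_integral_le_of_norm_le_const hr.le (fun z hz => (key z hz).1)
  have b2 := circleIntegral.norm_integral_le_of_norm_le_const hr.le (fun z hz => (key z hz).2)
  rw [circleIntegral.integral_sub i1 j1, circle1 hr] at b1
  rw [circleIntegral.integral_sub i2 j2, circle2 hr] at b2
  set I1 := (∮ z in C(aa, r), (PHI r aa bb h p q z).1 ^ 2) with hI1
  set I2 := (∮ z in C(aa, r), (PHI r aa bb h p q z).2 ^ 2) with hI2
  have hper : per ε (PHI r aa bb h p q) = I1 - conj I2 := rfl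
  have hπ : (0 : ℝ) < Real.pi := Real.pi_pos
  have hden : (4 * Real.pi * Complex.I * (ε : ℂ) ^ 2) ≠ 0 := by
    have : (ε : ℂ) ≠ 0 := by exact_mod_cast hε.ne'
    have : (Real.pi : ℂ) ≠ 0 := by exact_mod_cast hπ.ne'
    simp [*]
  have hrc : (r : ℂ) = (ε : ℂ) ^ 2 := by rw [hrdef]; push_cast; rfl
  have e : per ε (PHI r aa bb h p q) / (4 * Real.pi * Complex.I * ε ^ 2) + ε * c =
      ((I1 - 2 * ε * (3 / 8 + c / 2 : ℝ) * r * (2 * Real.pi * Complex.I)) -
        conj (I2 - -(2 * ε * (3 / 8 + 3 * c / 2 : ℝ) * r * (2 * Real.pi * Complex.I)))) /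
          (4 * Real.pi * Complex.I * ε ^ 2) := by
    rw [hper, eq_div_iff hden, add_mul, div_mul_cancel₀ _ hden, hrc]
    simp only [map_sub, map_neg, map_mul, map_pow, Complex.conj_ofReal, Complex.conj_I,
      map_ofNat]
    push_cast
    ring
  rw [e, norm_div]
  have hdn : ‖(4 * Real.pi * Complex.I * (ε : ℂ) ^ 2)‖ = 4 * Real.pi * r := by
    rw [norm_mul, norm_mul, norm_mul, norm_pow, Complex.norm_I, Complex.norm_real,
      Complex.norm_real, Real.norm_eq_abs, Real.norm_eq_abs, abs_of_pos hπ, abs_of_pos hε]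
    simp [hrdef]
  rw [hdn, div_le_iff₀ (by positivity)]
  refine (norm_sub_le _ _).trans ?_
  rw [RCLike.norm_conj]
  refine (add_le_add b1 b2).trans ?_
  nlinarith [mul_pos (mul_pos hπ hr) (pow_pos hε 2)]

end Pool.Agent.MP_49383f_gt
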