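import Pool.Agent.MP_49383f_gt.Stable

/-!
# MP_49383f_gt, module M12: the symmetry of the solution under complex conjugation
-/

namespace Pool.Agent.MP_49383f_gt

open scoped ContDiff ComplexConjugate
open MeasureTheory Metric Set

namespace SolSymm

lemma cconj_cconj (p : ℂ × ℂ) : cconj (cconj p) = p := by
  simp [cconj]

lemma cconj_add (p q : ℂ × ℂ) : cconj (p + q) = cconj p + cconj q := by
  simp [cconj]

lemma cconj_smul (c : ℂ) (p : ℂ × ℂ) : cconj (c • p) = conj c • cconj p := by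
  simp [cconj]

lemma JJ_cconj (p : ℂ × ℂ) : JJ (cconj p) = cconj (JJ p) := by
  simp [cconj, JJ]

lemma mu_cconj (ε : ℝ) (p : ℂ × ℂ) : mu ε (cconj p) = cconj (mu ε p) := by
  simp [cconj, mu]

lemma EE_conj (ε c : ℝ) (z : ℂ) : cconj (EE ε c (conj z)) = EE ε c z := by
  simp [cconj, EE, map_ofNat]

/-- `cconj` as a continuous real linear equivalence -/
noncomputable def cconjL : (ℂ × ℂ) ≃L[ℝ] (ℂ × ℂ) := Complex.conjCLE.prodCongr Complex.conjCLE

lemma cconjL_apply (p : ℂ × ℂ) : cconjL p = cconj p := rfl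

lemma cauchyT_conj (ν : ℂ → ℂ × ℂ) (z : ℂ) :
    cconj (cauchyT ν (conj z)) = cauchyT (fun ζ => cconj (ν (conj ζ))) z := by
  rw [cauchyT, cauchyT, cconj_smul, map_inv₀, Complex.conj_ofReal]
  congr 1
  have h1 : ∫ ζ, (conj z - ζ)⁻¹ • ν ζ = ∫ ζ, (conj z - conj ζ)⁻¹ • ν (conj ζ) :=
    (Complex.conjLIE.measurePreserving.integral_comp
      Complex.conjLIE.toHomeomorph.measurableEmbedding
      (fun ζ => (conj z - ζ)⁻¹ • ν ζ)).symm
  rw [h1, ← cconjL_apply, ← ContinuousLinearEquiv.integral_comp_comm]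
  congr 1
  funext ζ
  rw [cconjL_apply, cconj_smul, map_inv₀, map_sub, Complex.conj_conj, Complex.conj_conj]

lemma norm_conj_sub {a : ℂ} (ha : conj a = a) (z : ℂ) : ‖conj z - a‖ = ‖z - a‖ := by
  rw [← RCLike.norm_conj (z - a), map_sub, ha]

lemma PHI_conj (r : ℝ) {a b : ℂ} (ha : conj a = a) (hb : conj b = b) (h p q : ℂ → ℂ × ℂ) (z : ℂ) :
    PHI r a b (fun z => cconj (h (conj z))) (fun z => cconj (p (conj z)))
      (fun z => cconj (q (conj z))) z = cconj (PHI r a b h p q (conj z)) := by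
  rw [PHI, PHI, cconj_add, cconj_add, cconj_smul, cconj_smul, JJ_cconj, JJ_cconj,
    sg_conj r ha hb, sg_conj r hb ha, map_div₀, map_div₀, map_sub, map_sub, ha, hb,
    Complex.conj_ofReal, Complex.conj_conj]

lemma Sol_conj {ε c : ℝ} {a b : ℂ} (ha : conj a = a) (hb : conj b = b) {h p q : ℂ → ℂ × ℂ}
    (s : Sol ε (EE ε c) a b h p q) :
    Sol ε (EE ε c) a b (fun z => cconj (h (conj z))) (fun z => cconj (p (conj z)))
      (fun z => cconj (q (conj z))) where
  h_cont := continuous_cconj.comp (s.h_cont.comp Complex.continuous_conj)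
  p_cont := continuous_cconj.comp_continuousOn
    (s.p_cont.comp Complex.continuous_conj.continuousOn fun z hz => by
      rwa [mem_closedBall, dist_eq_norm, norm_conj_sub hb, ← dist_eq_norm, ← mem_closedBall])
  q_cont := continuous_cconj.comp_continuousOn
    (s.q_cont.comp Complex.continuous_conj.continuousOn fun z hz => by
      rwa [mem_closedBall, dist_eq_norm, norm_conj_sub ha, ← dist_eq_norm, ← mem_closedBall])
  h_eq := fun z => by
    rw [s.h_eq (conj z), cconj_add, EE_conj, cauchyT_conj]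
    congr 2
    funext ζ
    have hG : conj ζ ∈ GG (ε ^ 2) a b ↔ ζ ∈ GG (ε ^ 2) a b := by
      simp only [GG, mem_ofPred_eq, RCLike.norm_conj, norm_conj_sub ha, norm_conj_sub hb]
    by_cases hζ : ζ ∈ GG (ε ^ 2) a b
    · rw [indicator_of_mem hζ, indicator_of_mem (hG.2 hζ), PHI_conj _ ha hb, mu_cconj]
    · rw [indicator_of_notMem hζ, indicator_of_notMem (fun h => hζ (hG.1 h))]
      simp [cconj]
  p_eq := fun w hw => by
    have hw' : conj w ∈ closedBall b (1 / 4) := by
      rwa [mem_closedBall, dist_eq_norm, norm_conj_sub hb, ← dist_eq_norm, ← mem_closedBall]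
    rw [s.p_eq _ hw', cconj_add, cconj_smul, JJ_cconj, sg_conj _ ha hb, map_div₀, map_sub, ha,
      Complex.conj_ofReal, Complex.conj_conj]
  q_eq := fun w hw => by
    have hw' : conj w ∈ closedBall a (1 / 4) := by
      rwa [mem_closedBall, dist_eq_norm, norm_conj_sub ha, ← dist_eq_norm, ← mem_closedBall]
    rw [s.q_eq _ hw', cconj_add, cconj_smul, JJ_cconj, sg_conj _ hb ha, map_div₀, map_sub, hb,
      Complex.conj_ofReal, Complex.conj_conj]
  bd := fun z hz => by
    have hz' : conj z ∈ GG (ε ^ 2) a b := by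
      simpa only [GG, mem_ofPred_eq, RCLike.norm_conj, norm_conj_sub ha, norm_conj_sub hb] using hz
    rw [PHI_conj _ ha hb, norm_cconj]
    exact s.bd _ hz'

end SolSymm

open SolSymm in
theorem sol_symm : ∃ ε₀ > 0, ∀ ε : ℝ, 0 < ε → ε < ε₀ → ∀ c ∈ Icc (-1 : ℝ) 1,
    ∀ h p q, Sol ε (EE ε c) aa bb h p q →
      (∀ z ∈ closedBall (0 : ℂ) 4, h (conj z) = cconj (h z)) ∧
      (∀ z ∈ closedBall bb (1 / 4), p (conj z) = cconj (p z)) ∧
      (∀ z ∈ closedBall aa (1 / 4), q (conj z) = cconj (q z)) := by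
  obtain ⟨ε₀, hε₀, H⟩ := sol_stable
  refine ⟨ε₀, hε₀, fun ε hε hε' c hc h p q s => ?_⟩
  obtain ⟨h1, h2, h3⟩ := H ε hε hε' c hc c hc _ _ _ _ _ _ s (Sol_conj conj_aa conj_bb s)
  simp only [sub_self, abs_zero, mul_zero, norm_le_zero_iff, sub_eq_zero] at h1 h2 h3
  refine ⟨fun z hz => ?_, fun z hz => ?_, fun z hz => ?_⟩
  · have hz' : conj z ∈ closedBall (0 : ℂ) 4 := by simpa using hz
    rw [h1 _ hz', Complex.conj_conj]
  · have hz' : conj z ∈ closedBall bb (1 / 4) := by
      rwa [mem_closedBall, dist_eq_norm, norm_conj_sub conj_bb, ← dist_eq_norm, ← mem_closedBall]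
    rw [h2 _ hz', Complex.conj_conj]
  · have hz' : conj z ∈ closedBall aa (1 / 4) := by
      rwa [mem_closedBall, dist_eq_norm, norm_conj_sub conj_aa, ← dist_eq_norm, ← mem_closedBall]
    rw [h3 _ hz', Complex.conj_conj]

end Pool.Agent.MP_49383f_gt
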