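import Pool.Agent.MP_49383f_gt.Glue
import Pool.Agent.MP_49383f_gt.SolSymm
import Pool.Agent.MP_49383f_gt.Period

/-!
# MP_49383f_gt, module M17: choice of the parameter which kills the period
-/

namespace Pool.Agent.MP_49383f_gt

open scoped ContDiff ComplexConjugate
open MeasureTheory Metric Set

namespace ExistsC

/-- facts about points of the circle about the first neck -/
lemma circle_facts {ε : ℝ} (hε : 0 < ε) (hε' : ε ≤ 1 / 10) {z : ℂ} (hz : ‖z - aa‖ = ε ^ 2) :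
    z ∈ closedBall (0 : ℂ) 4 ∧ sg (ε ^ 2) aa bb z ∈ closedBall bb (1 / 4) ∧
    sg (ε ^ 2) bb aa z ∈ closedBall aa (1 / 4) ∧ 1 / 2 ≤ ‖z - bb‖ ∧ z ∈ GG (ε ^ 2) aa bb := by
  have h2 : 0 < ε ^ 2 := by positivity
  have h4 : ε ^ 2 ≤ 1 / 100 := by nlinarith
  have h5 : ‖z‖ ≤ 4 := by
    have : z = (z - aa) + aa := by ring
    rw [this]
    refine (norm_add_le _ _).trans ?_
    rw [hz, norm_aa]
    linarith
  have h6 : 1 / 2 ≤ ‖z - bb‖ := by
    have e : aa - bb = (z - bb) - (z - aa) := by ring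
    have h7 : ‖aa - bb‖ ≤ ‖z - bb‖ + ‖z - aa‖ := by
      rw [e]
      exact norm_sub_le _ _
    rw [norm_aa_sub_bb, hz] at h7
    linarith
  refine ⟨by simpa using h5, ?_, ?_, h6, h5, hz.ge, by linarith⟩
  · exact Glue.sg_mem_quarter hε hε' (by rw [hz]; linarith)
  · exact Glue.sg_mem_quarter hε hε' (by linarith)

lemma phi_symm {ε : ℝ} (hε : 0 < ε) (hε' : ε ≤ 1 / 10) {h p q : ℂ → ℂ × ℂ}
    (h1 : ∀ z ∈ closedBall (0 : ℂ) 4, h (conj z) = cconj (h z))
    (h2 : ∀ z ∈ closedBall bb (1 / 4), p (conj z) = cconj (p z))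
    (h3 : ∀ z ∈ closedBall aa (1 / 4), q (conj z) = cconj (q z)) {z : ℂ}
    (hz : ‖z - aa‖ = ε ^ 2) :
    PHI (ε ^ 2) aa bb h p q (conj z) = cconj (PHI (ε ^ 2) aa bb h p q z) := by
  obtain ⟨f1, f2, f3, -, -⟩ := circle_facts hε hε' hz
  rw [PHI, sg_conj _ conj_aa conj_bb, sg_conj _ conj_bb conj_aa, h1 z f1, h2 _ f2, h3 _ f3, PHI]
  have e1 : conj z - aa = conj (z - aa) := by simp
  have e2 : conj z - bb = conj (z - bb) := by simp
  rw [e1, e2]
  ext
  · simp [cconj, JJ]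
  · simp [cconj, JJ]

lemma conj_circleIntegral {f : ℂ → ℂ} {r : ℝ} (hf : ∀ z, ‖z - aa‖ = |r| → f (conj z) = conj (f z)) :
    conj (∮ z in C(aa, r), f z) = -(∮ z in C(aa, r), f z) := by
  rw [circleIntegral, ← intervalIntegral.intervalIntegral_conj, ← intervalIntegral.integral_neg]
  have h1 := intervalIntegral.integral_comp_sub_left (a := 0) (b := 2 * Real.pi)
    (fun θ => -(deriv (circleMap aa r) θ • f (circleMap aa r θ))) (2 * Real.pi)
  simp only [sub_self, sub_zero] at h1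
  rw [← h1]
  apply intervalIntegral.integral_congr
  intro θ _
  have h2 : circleMap aa r (2 * Real.pi - θ) = conj (circleMap aa r θ) := by
    simp only [circleMap, map_add, conj_aa, map_mul, Complex.conj_ofReal, ← Complex.exp_conj,
      Complex.conj_I]
    congr 2
    rw [show ((2 * Real.pi - θ : ℝ) : ℂ) * Complex.I =
      (θ : ℂ) * -Complex.I + 2 * Real.pi * Complex.I by push_cast; ring, Complex.exp_add,
      Complex.exp_two_pi_mul_I, mul_one]
  have h3 : circleMap 0 r (2 * Real.pi - θ) = conj (circleMap 0 r θ) := by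
    simp only [circleMap, map_add, map_zero, map_mul, Complex.conj_ofReal, ← Complex.exp_conj,
      Complex.conj_I]
    congr 2
    rw [show ((2 * Real.pi - θ : ℝ) : ℂ) * Complex.I =
      (θ : ℂ) * -Complex.I + 2 * Real.pi * Complex.I by push_cast; ring, Complex.exp_add,
      Complex.exp_two_pi_mul_I, mul_one]
  have h4 : ‖circleMap aa r θ - aa‖ = |r| := by
    rw [circleMap_sub_center, norm_circleMap_zero]
  simp only [deriv_circleMap, h2, h3, hf _ h4, smul_eq_mul, map_mul, Complex.conj_I]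
  ring

end ExistsC

open ExistsC

theorem exists_c : ∃ C > 0, ∃ ε₀ > 0, ∀ ε : ℝ, 0 < ε → ε < ε₀ → ∃ c : ℝ, |c| ≤ C * ε ∧
    c ∈ Icc (-1 : ℝ) 1 ∧ ∃ h p q, Sol ε (EE ε c) aa bb h p q ∧
      per ε (PHI (ε ^ 2) aa bb h p q) = 0 := by
  obtain ⟨ε₁, hε₁, ex⟩ := exists_sol
  obtain ⟨ε₂, hε₂, st⟩ := sol_stable
  obtain ⟨ε₃, hε₃, sy⟩ := sol_symm
  obtain ⟨C, hC, ε₄, hε₄, pe⟩ := per_est
  refine ⟨2 * C, by positivity, min (min ε₁ ε₂) (min (min ε₃ ε₄) (min (1 / 10) (1 / (2 * C)))),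
    by positivity, ?_⟩
  intro ε hε hlt
  simp only [lt_min_iff] at hlt
  obtain ⟨⟨l1, l2⟩, ⟨l3, l4⟩, l5, l6⟩ := hlt
  have hε' : ε ≤ 1 / 10 := l5.le
  have h2 : 0 < ε ^ 2 := by positivity
  have hCε : 2 * C * ε ≤ 1 := by
    rw [lt_div_iff₀ (by positivity)] at l6
    linarith
  choose! h p q hs using ex ε hε l1
  set φ : ℝ → ℂ → ℂ × ℂ := fun c => PHI (ε ^ 2) aa bb (h c) (p c) (q c) with hφ
  set P : ℝ → ℂ := fun c => per ε (φ c) with hP
  -- continuity on the circle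
  have hcont : ∀ c ∈ Icc (-1 : ℝ) 1, ContinuousOn (φ c) (sphere aa (ε ^ 2)) := by
    intro c hc
    refine (Glue.phi_continuousOn hε hε' (hs c hc)).mono ?_
    intro z hz
    rw [mem_sphere, dist_eq_norm] at hz
    have f := (circle_facts hε hε' hz).2.2.2.1
    have h4 : ε ^ 2 ≤ 1 / 100 := by nlinarith
    exact ⟨by rw [hz]; linarith, by linarith⟩
  -- symmetry
  have hsym : ∀ c ∈ Icc (-1 : ℝ) 1, conj (P c) = -(P c) := by
    intro c hc
    obtain ⟨s1, s2, s3⟩ := sy ε hε l3 c hc _ _ _ (hs c hc)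
    have hφs : ∀ z, ‖z - aa‖ = |ε ^ 2| → φ c (conj z) = cconj (φ c z) := by
      intro z hz
      rw [abs_of_pos h2] at hz
      exact phi_symm hε hε' s1 s2 s3 hz
    have c1 := conj_circleIntegral (r := ε ^ 2) (f := fun z => (φ c z).1 ^ 2) (fun z hz => by
      rw [hφs z hz]; simp [cconj])
    have c2 := conj_circleIntegral (r := ε ^ 2) (f := fun z => (φ c z).2 ^ 2) (fun z hz => by
      rw [hφs z hz]; simp [cconj])
    simp only [hP, per]
    rw [map_sub, Complex.conj_conj, c1, c2]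
    ring
  -- Lipschitz dependence on the parameter
  have hLip : ∀ c ∈ Icc (-1 : ℝ) 1, ∀ c' ∈ Icc (-1 : ℝ) 1, ‖P c - P c'‖ ≤
      (2 * (2 * Real.pi * ε ^ 2 * (40 * (48 * ε)))) * |c - c'| := by
    intro c hc c' hc'
    obtain ⟨s1, s2, s3⟩ := st ε hε l2 c hc c' hc' _ _ _ _ _ _ (hs c hc) (hs c' hc')
    have hφφ : ∀ z ∈ sphere aa (ε ^ 2), ‖φ c z - φ c' z‖ ≤ 48 * ε * |c - c'| := by
      intro z hz
      rw [mem_sphere, dist_eq_norm] at hz
      obtain ⟨f1, f2, f3, f4, -⟩ := circle_facts hε hε' hz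
      have e : φ c z - φ c' z = (h c z - h c' z) +
          (((ε ^ 2 : ℝ) : ℂ) / (z - aa)) • JJ (p c (sg (ε ^ 2) aa bb z) -
            p c' (sg (ε ^ 2) aa bb z)) +
          (((ε ^ 2 : ℝ) : ℂ) / (z - bb)) • JJ (q c (sg (ε ^ 2) bb aa z) -
            q c' (sg (ε ^ 2) bb aa z)) := by
        simp only [hφ, PHI, JJ_sub, smul_sub]
        abel
      have n1 : ‖((ε ^ 2 : ℝ) : ℂ) / (z - aa)‖ ≤ 1 := by
        rw [norm_div, Complex.norm_real, Real.norm_of_nonneg h2.le, hz, div_self h2.ne']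
      have n2 : ‖((ε ^ 2 : ℝ) : ℂ) / (z - bb)‖ ≤ 1 := by
        rw [norm_div, Complex.norm_real, Real.norm_of_nonneg h2.le, div_le_one (by linarith)]
        nlinarith
      have m1 := s1 z f1
      have m2 := s2 _ f2
      have m3 := s3 _ f3
      rw [e]
      calc _ ≤ ‖h c z - h c' z‖ + ‖(((ε ^ 2 : ℝ) : ℂ) / (z - aa)) •
            JJ (p c (sg (ε ^ 2) aa bb z) - p c' (sg (ε ^ 2) aa bb z))‖ +
            ‖(((ε ^ 2 : ℝ) : ℂ) / (z - bb)) • JJ (q c (sg (ε ^ 2) bb aa z) -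
            q c' (sg (ε ^ 2) bb aa z))‖ := norm_add₃_le
        _ ≤ 16 * ε * |c - c'| + 1 * (16 * ε * |c - c'|) + 1 * (16 * ε * |c - c'|) := by
            rw [norm_smul, norm_smul, norm_JJ, norm_JJ]
            gcongr
        _ = 48 * ε * |c - c'| := by ring
    have hbd : ∀ c ∈ Icc (-1 : ℝ) 1, ∀ z ∈ sphere aa (ε ^ 2), ‖φ c z‖ ≤ 20 := by
      intro c hc z hz
      rw [mem_sphere, dist_eq_norm] at hz
      exact (hs c hc).bd z (circle_facts hε hε' hz).2.2.2.2
    have key : ∀ (π' : ℂ × ℂ → ℂ), Continuous π' → (∀ x y, ‖π' x - π' y‖ ≤ ‖x - y‖) →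
        (∀ x, ‖π' x‖ ≤ ‖x‖) →
        ‖(∮ z in C(aa, ε ^ 2), (π' (φ c z)) ^ 2) - (∮ z in C(aa, ε ^ 2), (π' (φ c' z)) ^ 2)‖ ≤
          2 * Real.pi * ε ^ 2 * (40 * (48 * ε * |c - c'|)) := by
      intro π' hc1 hc2 hc3
      rw [← circleIntegral.integral_sub]
      · apply circleIntegral.norm_integral_le_of_norm_le_const h2.le
        intro z hz
        have e : (π' (φ c z)) ^ 2 - (π' (φ c' z)) ^ 2 =
            (π' (φ c z) + π' (φ c' z)) * (π' (φ c z) - π' (φ c' z)) := by ring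
        rw [e, norm_mul]
        refine mul_le_mul ?_ ((hc2 _ _).trans (hφφ z hz)) (norm_nonneg _) (by norm_num)
        refine (norm_add_le _ _).trans ?_
        have := (hc3 (φ c z)).trans (hbd c hc z hz)
        have := (hc3 (φ c' z)).trans (hbd c' hc' z hz)
        linarith
      · exact ((hc1.comp_continuousOn (hcont c hc)).pow 2).circleIntegrable h2.le
      · exact ((hc1.comp_continuousOn (hcont c' hc')).pow 2).circleIntegrable h2.le
    have k1 := key Prod.fst continuous_fst (fun x y => norm_fst_le (x - y)) (fun x => norm_fst_le x)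
    have k2 := key Prod.snd continuous_snd (fun x y => norm_snd_le (x - y)) (fun x => norm_snd_le x)
    have e : P c - P c' =
        ((∮ z in C(aa, ε ^ 2), (φ c z).1 ^ 2) - (∮ z in C(aa, ε ^ 2), (φ c' z).1 ^ 2)) -
        conj ((∮ z in C(aa, ε ^ 2), (φ c z).2 ^ 2) - (∮ z in C(aa, ε ^ 2), (φ c' z).2 ^ 2)) := by
      simp only [hP, per, map_sub]
      ring
    rw [e]
    refine (norm_sub_le _ _).trans ?_
    rw [RCLike.norm_conj]
    linarith
  have hPc : ContinuousOn P (Icc (-1) 1) := by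
    set L : ℝ := 2 * (2 * Real.pi * ε ^ 2 * (40 * (48 * ε))) with hL
    have hL0 : 0 ≤ L := by positivity
    have : LipschitzOnWith ⟨L, hL0⟩ P (Icc (-1) 1) := by
      apply LipschitzOnWith.of_dist_le_mul
      intro c hc c' hc'
      rw [dist_eq_norm, Real.dist_eq]
      exact hLip c hc c' hc'
    exact this.continuousOn
  -- the real function
  set D : ℂ := 4 * Real.pi * Complex.I * ε ^ 2 with hD
  have hD0 : D ≠ 0 := by
    have h5 : (Real.pi : ℂ) ≠ 0 := by exact_mod_cast Real.pi_pos.ne'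
    have h6 : (ε : ℂ) ≠ 0 := by exact_mod_cast hε.ne'
    simp only [hD]
    exact mul_ne_zero (mul_ne_zero (mul_ne_zero (by norm_num) h5) Complex.I_ne_zero)
      (pow_ne_zero 2 h6)
  have hreal : ∀ c ∈ Icc (-1 : ℝ) 1, (P c / D).im = 0 := by
    intro c hc
    rw [← Complex.conj_eq_iff_im, map_div₀, hsym c hc]
    have : conj D = -D := by
      simp only [hD, map_mul, map_pow, Complex.conj_ofReal, Complex.conj_I, map_ofNat]
      ring
    rw [this, neg_div_neg_eq]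
  set F : ℝ → ℝ := fun c => (P c / D).re with hF
  have hFc : ContinuousOn F (Icc (-1) 1) :=
    Complex.continuous_re.comp_continuousOn (hPc.div_const D)
  have hFe : ∀ c ∈ Icc (-1 : ℝ) 1, |F c + ε * c| ≤ C * ε ^ 2 := by
    intro c hc
    have h5 := pe ε hε l4 c hc _ _ _ (hs c hc)
    have h6 := (Complex.abs_re_le_norm (P c / D + ε * c)).trans h5
    rw [Complex.add_re] at h6
    have h7 : ((ε : ℂ) * (c : ℂ)).re = ε * c := by simp
    rw [h7] at h6
    exact h6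
  have hsub : Icc (-(2 * C * ε)) (2 * C * ε) ⊆ Icc (-1 : ℝ) 1 :=
    Icc_subset_Icc (by linarith) hCε
  have hCε0 : 0 < 2 * C * ε := by positivity
  have hA := hFe (-(2 * C * ε)) (hsub ⟨le_refl _, by linarith⟩)
  have hB := hFe (2 * C * ε) (hsub ⟨by linarith, le_refl _⟩)
  rw [abs_le] at hA hB
  have hsq : 0 < C * ε ^ 2 := by positivity
  have h0 : (0 : ℝ) ∈ Icc (F (2 * C * ε)) (F (-(2 * C * ε))) := by
    constructor
    · nlinarith [hB.2]
    · nlinarith [hA.1]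
  obtain ⟨c, hc, hc0⟩ := intermediate_value_Icc' (by linarith : -(2 * C * ε) ≤ 2 * C * ε)
    (hFc.mono hsub) h0
  have hc1 := hsub hc
  refine ⟨c, abs_le.2 hc, hc1, h c, p c, q c, hs c hc1, ?_⟩
  have h5 : P c / D = 0 := Complex.ext hc0 (hreal c hc1)
  rcases div_eq_zero_iff.1 h5 with h6 | h6
  · exact h6
  · exact absurd h6 hD0

end Pool.Agent.MP_49383f_gt
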