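import Pool.Agent.MP_49383f_gt.Basic

/-!
# MP_49383f_gt, module M19g : gluing and continuity of `PHI`
-/

namespace Pool.Agent.MP_49383f_gt

open scoped ContDiff ComplexConjugate
open MeasureTheory Metric Set

namespace Glue

theorem sg_mem {r ρ : ℝ} {a b z : ℂ} (h0 : 0 < ‖z - a‖) (h : r ^ 2 ≤ ρ * ‖z - a‖) :
    sg r a b z ∈ closedBall b ρ := by
  rw [mem_closedBall, dist_eq_norm, norm_sg_sub, div_le_iff₀ h0]
  exact h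

theorem sg_mem_ball {r ρ : ℝ} {a b z : ℂ} (h0 : 0 < ‖z - a‖) (h : r ^ 2 < ρ * ‖z - a‖) :
    sg r a b z ∈ ball b ρ := by
  rw [mem_ball, dist_eq_norm, norm_sg_sub, div_lt_iff₀ h0]
  exact h

theorem sg_mem_quarter {ε : ℝ} (hε : 0 < ε) (hε' : ε ≤ 1 / 10) {a b z : ℂ}
    (h : ε ^ 2 / 8 < ‖z - a‖) : sg (ε ^ 2) a b z ∈ closedBall b (1 / 4) := by
  have h2 : 0 < ε ^ 2 := by positivity
  have h4 : ε ^ 2 ≤ 1 / 100 := by nlinarith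
  exact sg_mem (by linarith) (by nlinarith)

theorem sg_continuousOn (r : ℝ) (a b : ℂ) : ContinuousOn (sg r a b) {z | z ≠ a} := fun _ hz =>
  (hasDerivAt_sg r a b hz).continuousAt.continuousWithinAt

/-- one summand of `PHI` is continuous -/
theorem term_continuousOn {ε : ℝ} (hε : 0 < ε) (hε' : ε ≤ 1 / 10) {a b : ℂ} {p : ℂ → ℂ × ℂ}
    (hp : ContinuousOn p (closedBall b (1 / 4))) :
    ContinuousOn (fun z => (((ε ^ 2 : ℝ) : ℂ) / (z - a)) • JJ (p (sg (ε ^ 2) a b z)))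
      {z | ε ^ 2 / 8 < ‖z - a‖} := by
  have h2 : 0 < ε ^ 2 := by positivity
  have hne : ∀ z ∈ {z : ℂ | ε ^ 2 / 8 < ‖z - a‖}, z ≠ a := by
    rintro z hz rfl
    simp at hz
    linarith
  have h1 : ContinuousOn (fun z : ℂ => ((ε ^ 2 : ℝ) : ℂ) / (z - a)) {z | ε ^ 2 / 8 < ‖z - a‖} := by
    apply ContinuousOn.div continuousOn_const (by fun_prop)
    intro z hz
    exact sub_ne_zero.2 (hne z hz)
  have h3 : ContinuousOn (fun z => p (sg (ε ^ 2) a b z)) {z | ε ^ 2 / 8 < ‖z - a‖} :=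
    hp.comp ((sg_continuousOn _ a b).mono hne) (fun z hz => sg_mem_quarter hε hε' hz)
  exact h1.smul (continuous_JJ.comp_continuousOn h3)

theorem phi_continuousOn {ε : ℝ} (hε : 0 < ε) (hε' : ε ≤ 1 / 10) {a b : ℂ}
    {E : ℂ → ℂ × ℂ} {h p q : ℂ → ℂ × ℂ} (s : Sol ε E a b h p q) :
    ContinuousOn (PHI (ε ^ 2) a b h p q) {z | ε ^ 2 / 8 < ‖z - a‖ ∧ ε ^ 2 / 8 < ‖z - b‖} := by
  unfold PHI
  refine (s.h_cont.continuousOn.add ?_).add ?_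
  · exact (term_continuousOn hε hε' s.p_cont).mono fun z hz => hz.1
  · exact (term_continuousOn hε hε' s.q_cont).mono fun z hz => hz.2

theorem norm_mu_le {ε : ℝ} (hε : 0 ≤ ε) (x : ℂ × ℂ) : ‖mu ε x‖ ≤ 2 * ε * ‖x‖ ^ 3 := by
  have h1 : ‖x.1‖ ≤ ‖x‖ := norm_fst_le x
  have h2 : ‖x.2‖ ≤ ‖x‖ := norm_snd_le x
  have h0 := norm_nonneg x
  have h3 : ‖x.1‖ ^ 2 + ‖x.2‖ ^ 2 ≤ 2 * ‖x‖ ^ 2 := by
    have := pow_le_pow_left₀ (norm_nonneg x.1) h1 2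
    have := pow_le_pow_left₀ (norm_nonneg x.2) h2 2
    linarith
  have h4 : 0 ≤ ε * (‖x.1‖ ^ 2 + ‖x.2‖ ^ 2) := by positivity
  have h5 : ε * (‖x.1‖ ^ 2 + ‖x.2‖ ^ 2) ≤ 2 * ε * ‖x‖ ^ 2 := by nlinarith
  rw [Prod.norm_def, max_le_iff]
  simp only [mu, norm_neg, norm_mul, Complex.norm_real, RCLike.norm_conj, Real.norm_of_nonneg h4]
  constructor
  · calc ε * (‖x.1‖ ^ 2 + ‖x.2‖ ^ 2) * ‖x.2‖ ≤ 2 * ε * ‖x‖ ^ 2 * ‖x‖ := by gcongr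
      _ = 2 * ε * ‖x‖ ^ 3 := by ring
  · calc ε * (‖x.1‖ ^ 2 + ‖x.2‖ ^ 2) * ‖x.1‖ ≤ 2 * ε * ‖x‖ ^ 2 * ‖x‖ := by gcongr
      _ = 2 * ε * ‖x‖ ^ 3 := by ring

/-- the density of the solution -/
noncomputable def nu (ε : ℝ) (a b : ℂ) (h p q : ℂ → ℂ × ℂ) : ℂ → ℂ × ℂ :=
  (GG (ε ^ 2) a b).indicator (fun ζ => mu ε (PHI (ε ^ 2) a b h p q ζ))

theorem nu_bound {ε : ℝ} (hε : 0 < ε) {a b : ℂ} {E : ℂ → ℂ × ℂ} {h p q : ℂ → ℂ × ℂ}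
    (s : Sol ε E a b h p q) (ζ : ℂ) : ‖nu ε a b h p q ζ‖ ≤ 16000 * ε := by
  unfold nu
  by_cases hζ : ζ ∈ GG (ε ^ 2) a b
  · rw [indicator_of_mem hζ]
    refine (norm_mu_le hε.le _).trans ?_
    have := s.bd ζ hζ
    have h3 : ‖PHI (ε ^ 2) a b h p q ζ‖ ^ 3 ≤ 20 ^ 3 := by gcongr
    nlinarith
  · rw [indicator_of_notMem hζ, norm_zero]
    positivity

theorem nu_support {ε : ℝ} {a b : ℂ} {h p q : ℂ → ℂ × ℂ} {ζ : ℂ} (hζ : ζ ∉ GG (ε ^ 2) a b) :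
    nu ε a b h p q ζ = 0 := indicator_of_notMem hζ _

theorem nu_support4 {ε : ℝ} {a b : ℂ} {h p q : ℂ → ℂ × ℂ} {ζ : ℂ}
    (hζ : ζ ∉ closedBall (0 : ℂ) 4) : nu ε a b h p q ζ = 0 := by
  apply nu_support
  intro h
  apply hζ
  simpa using h.1

theorem nu_aesm {ε : ℝ} (hε : 0 < ε) (hε' : ε ≤ 1 / 10) {a b : ℂ} {E : ℂ → ℂ × ℂ}
    {h p q : ℂ → ℂ × ℂ} (s : Sol ε E a b h p q) : AEStronglyMeasurable (nu ε a b h p q) := by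
  unfold nu
  have h2 : 0 < ε ^ 2 := by positivity
  have hc : ContinuousOn (fun ζ => mu ε (PHI (ε ^ 2) a b h p q ζ)) (GG (ε ^ 2) a b) :=
    (continuous_mu ε).comp_continuousOn ((phi_continuousOn hε hε' s).mono fun z hz =>
      ⟨by linarith [hz.2.1], by linarith [hz.2.2]⟩)
  rw [aestronglyMeasurable_indicator_iff (isClosed_GG _ _ _).measurableSet]
  exact hc.aestronglyMeasurable (isClosed_GG _ _ _).measurableSet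

theorem nu_integrable {ε : ℝ} (hε : 0 < ε) (hε' : ε ≤ 1 / 10) {a b : ℂ} {E : ℂ → ℂ × ℂ}
    {h p q : ℂ → ℂ × ℂ} (s : Sol ε E a b h p q) : Integrable (nu ε a b h p q) := by
  have h2 : 0 < ε ^ 2 := by positivity
  have hc : ContinuousOn (fun ζ => mu ε (PHI (ε ^ 2) a b h p q ζ)) (GG (ε ^ 2) a b) :=
    (continuous_mu ε).comp_continuousOn ((phi_continuousOn hε hε' s).mono fun z hz =>
      ⟨by linarith [hz.2.1], by linarith [hz.2.2]⟩)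
  unfold nu
  rw [integrable_indicator_iff (isClosed_GG _ _ _).measurableSet]
  exact hc.integrableOn_compact (isCompact_GG _ _ _)

/-- near `a`, `PHI z = q z + (r/(z-a)) J p(σz)` -/
theorem phi_eq_near {ε : ℝ} {a b : ℂ} {E : ℂ → ℂ × ℂ} {h p q : ℂ → ℂ × ℂ}
    (s : Sol ε E a b h p q) {z : ℂ} (hz : z ∈ closedBall a (1 / 4)) :
    PHI (ε ^ 2) a b h p q z = q z + (((ε ^ 2 : ℝ) : ℂ) / (z - a)) • JJ (p (sg (ε ^ 2) a b z)) := by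
  rw [PHI, s.q_eq z hz]
  abel

end Glue

open Glue

theorem sol_glue {ε : ℝ} (hε : 0 < ε) (hε' : ε ≤ 1 / 10) {a b : ℂ} (hab : ‖a - b‖ = 1)
    {E : ℂ → ℂ × ℂ} {h p q : ℂ → ℂ × ℂ} (s : Sol ε E a b h p q) {z : ℂ}
    (h1 : 4 * ε ^ 4 ≤ ‖z - a‖) (h2 : ‖z - a‖ ≤ 1 / 4) :
    PHI (ε ^ 2) a b h p q z = (((ε ^ 2 : ℝ) : ℂ) / (z - a)) •
      JJ (PHI (ε ^ 2) a b h p q (sg (ε ^ 2) a b z)) := by
  have h4 : 0 < ε ^ 4 := by positivity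
  have h0 : 0 < ‖z - a‖ := by linarith
  have hza : z ≠ a := by
    rintro rfl
    simp at h0
  have hza' : z - a ≠ 0 := sub_ne_zero.2 hza
  have he : ((ε ^ 2 : ℝ) : ℂ) ≠ 0 := by
    have : ε ^ 2 ≠ 0 := by positivity
    exact_mod_cast this
  have hsb : sg (ε ^ 2) a b z ∈ closedBall b (1 / 4) := sg_mem h0 (by nlinarith)
  have hz : z ∈ closedBall a (1 / 4) := by rwa [mem_closedBall, dist_eq_norm]
  rw [phi_eq_near s hz, ← PHI_swap (ε ^ 2) a b h p q, phi_eq_near s.swap hsb,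
    sg_sg (by positivity) a b hza, JJ_add, JJ_smul, JJ_JJ, smul_add, smul_smul, sg_sub]
  have : ((ε ^ 2 : ℝ) : ℂ) / (z - a) * (((ε ^ 2 : ℝ) : ℂ) / -(((ε ^ 2 : ℝ) : ℂ) ^ 2 / (z - a)))
      = -1 := by
    field_simp
  rw [this]
  simp [add_comm]

theorem sol_continuousOn {ε : ℝ} (hε : 0 < ε) (hε' : ε ≤ 1 / 10) {a b : ℂ} (hab : ‖a - b‖ = 1)
    {E : ℂ → ℂ × ℂ} {h p q : ℂ → ℂ × ℂ} (s : Sol ε E a b h p q) :
    ContinuousOn (PHI (ε ^ 2) a b h p q)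
      {z | ‖z‖ < 4 ∧ ε ^ 2 / 8 < ‖z - a‖ ∧ ε ^ 2 / 8 < ‖z - b‖} :=
  (phi_continuousOn hε hε' s).mono fun _ hz => hz.2

end Pool.Agent.MP_49383f_gt
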