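import Pool.Agent.MP_49383f_gt.Basic

/-!
# MP_49383f_gt : from a representation on an open set to `LRat` (used in M19, M20)
-/

namespace Pool.Agent.MP_49383f_gt

open scoped ContDiff ComplexConjugate
open MeasureTheory Metric Set

/-- If `u = g + C[ν]` on the open set `N`, with `g` holomorphic, `ν` integrable and `ν = Q(u)` almost
everywhere on `N`, then `u` has local Cauchy representations at the points of `N`. -/
theorem LRat_of_local {V : Type*} [NormedAddCommGroup V] [NormedSpace ℂ V] [CompleteSpace V]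
    (hol : ∀ {ν : ℂ → V} {z₀ : ℂ} {ρ : ℝ}, Integrable ν → (∀ ζ ∈ ball z₀ ρ, ν ζ = 0) →
      DifferentiableOn ℂ (cauchyT ν) (ball z₀ ρ))
    {Ω N : Set ℂ} (hN : IsOpen N) (hNΩ : N ⊆ Ω) {Q : V → V} {u g ν : ℂ → V}
    (hν : Integrable ν) (hint : ∀ z ∈ N, Integrable (fun ζ => (z - ζ)⁻¹ • ν ζ))
    (hνQ : ∀ᵐ ζ, ζ ∈ N → ν ζ = Q (u ζ)) (hg : DifferentiableOn ℂ g N)
    (hu : ∀ z ∈ N, u z = g z + cauchyT ν z) {z₀ : ℂ} (hz₀ : z₀ ∈ N) : LRat Ω Q u z₀ := by
  obtain ⟨ρ, hρ, hsub⟩ := Metric.nhds_basis_closedBall.mem_iff.1 (hN.mem_nhds hz₀)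
  have hb : ball z₀ ρ ⊆ N := ball_subset_closedBall.trans hsub
  refine ⟨ρ, hρ, hsub.trans hNΩ, fun z => g z + cauchyT ((ball z₀ ρ)ᶜ.indicator ν) z, ?_, ?_⟩
  · refine (hg.mono hb).add (hol (hν.indicator measurableSet_ball.compl) ?_)
    intro ζ hζ
    exact indicator_of_notMem (by simpa using hζ) _
  · intro z hz
    rw [hu z (hb hz), add_assoc]
    congr 1
    have h1 : Integrable (fun ζ => (z - ζ)⁻¹ • (ball z₀ ρ)ᶜ.indicator ν ζ) := by
      have := (hint z (hb hz)).indicator (measurableSet_ball (x := z₀) (ε := ρ)).compl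
      refine this.congr (Filter.Eventually.of_forall fun ζ => ?_)
      by_cases hζ : ζ ∈ (ball z₀ ρ)ᶜ
      · simp only [indicator_of_mem hζ]
      · simp only [indicator_of_notMem hζ, smul_zero]
    have h2 : Integrable (fun ζ => (z - ζ)⁻¹ • (ball z₀ ρ).indicator ν ζ) := by
      have := (hint z (hb hz)).indicator (measurableSet_ball (x := z₀) (ε := ρ))
      refine this.congr (Filter.Eventually.of_forall fun ζ => ?_)
      by_cases hζ : ζ ∈ (ball z₀ ρ)
      · simp only [indicator_of_mem hζ]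
      · simp only [indicator_of_notMem hζ, smul_zero]
    have h3 : cauchyT ν z = cauchyT ((ball z₀ ρ)ᶜ.indicator ν) z +
        cauchyT ((ball z₀ ρ).indicator ν) z := by
      unfold cauchyT
      rw [← smul_add, ← integral_add h1 h2]
      congr 1
      apply integral_congr_ae
      refine Filter.Eventually.of_forall fun ζ => ?_
      by_cases hζ : ζ ∈ ball z₀ ρ
      · simp [indicator_of_mem hζ, hζ]
      · have : ζ ∈ (ball z₀ ρ)ᶜ := hζ
        simp only [indicator_of_mem this, indicator_of_notMem hζ, smul_zero, add_zero]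
    rw [h3]
    congr 1
    unfold cauchyT
    congr 1
    apply integral_congr_ae
    filter_upwards [hνQ] with ζ hζ
    by_cases hζ' : ζ ∈ ball z₀ ρ
    · simp only [indicator_of_mem hζ', hζ (hb hζ')]
    · simp only [indicator_of_notMem hζ']

end Pool.Agent.MP_49383f_gt
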