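import Pool.Agent.MP_49383f_gt.PhiCont
import Pool.Agent.MP_49383f_gt.CauchyHol

/-! # M15: holomorphy of the pieces of a solution near the necks -/

namespace Pool.Agent.MP_49383f_gt

open scoped ContDiff ComplexConjugate Topology
open MeasureTheory Metric Set Filter

namespace SolHol

theorem differentiableOn_JJ {f : ℂ → ℂ × ℂ} {s : Set ℂ} (hf : DifferentiableOn ℂ f s) :
    DifferentiableOn ℂ (fun z => JJ (f z)) s := by
  unfold JJ
  have h2 : DifferentiableOn ℂ (fun z => (f z).2) s := hf.snd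
  have h1 : DifferentiableOn ℂ (fun z => -(f z).1) s := hf.fst.neg
  exact h2.prodMk h1

theorem h_hol {ε : ℝ} (hε : 0 < ε) (hε' : ε ≤ 1 / 10) {a b : ℂ}
    {E : ℂ → ℂ × ℂ} (hE : Differentiable ℂ E) {h p q : ℂ → ℂ × ℂ} (s : Sol ε E a b h p q) :
    DifferentiableOn ℂ h (ball a (ε ^ 2)) := by
  have h1 := cauchyT_differentiableOn (z₀ := a) (ρ := ε ^ 2) (s.integrable_density hε hε') (by
    intro ζ hζ
    apply indicator_of_notMem
    intro hc
    rw [mem_ball, dist_eq_norm] at hζ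
    linarith [hc.2.1])
  exact (hE.differentiableOn.add h1).congr (fun z _ => s.h_eq z)

/-- the iterates -/
noncomputable def P (r : ℝ) (a b : ℂ) (h : ℂ → ℂ × ℂ) : ℕ → ℂ → ℂ × ℂ
  | 0 => h
  | n + 1 => fun w => h w + ((r : ℂ) / (w - a)) • JJ (P r a b h n (sg r a b w))

theorem far {r : ℝ} (hr' : r ≤ 1 / 100) {a b : ℂ} (hab : ‖a - b‖ = 1) {w : ℂ}
    (hw : w ∈ ball b r) : 1 / 2 ≤ ‖w - a‖ := by
  rw [mem_ball, dist_eq_norm] at hw
  have h1 : ‖a - b‖ ≤ ‖w - a‖ + ‖w - b‖ := by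
    have : a - b = -(w - a) + (w - b) := by ring
    rw [this]
    refine (norm_add_le _ _).trans ?_
    rw [norm_neg]
  linarith

theorem maps {r : ℝ} (hr : 0 < r) (hr' : r ≤ 1 / 100) {a b : ℂ} (hab : ‖a - b‖ = 1) {w : ℂ}
    (hw : w ∈ ball b r) : sg r a b w ∈ ball b r := by
  have h1 := far hr' hab hw
  rw [mem_ball, dist_eq_norm, norm_sg_sub, div_lt_iff₀ (by linarith)]
  nlinarith

theorem P_diff {r : ℝ} (hr : 0 < r) (hr' : r ≤ 1 / 100) {a b : ℂ} (hab : ‖a - b‖ = 1)
    {h : ℂ → ℂ × ℂ} (hh : DifferentiableOn ℂ h (ball b r)) (n : ℕ) :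
    DifferentiableOn ℂ (P r a b h n) (ball b r) := by
  induction n with
  | zero => exact hh
  | succ n ih =>
    have hne : ∀ w ∈ ball b r, w ≠ a := by
      intro w hw hc
      have := far hr' hab hw
      rw [hc] at this
      simp at this
      linarith
    have h1 : DifferentiableOn ℂ (sg r a b) (ball b r) := fun w hw =>
      (hasDerivAt_sg r a b (hne w hw)).differentiableAt.differentiableWithinAt
    have h2 : DifferentiableOn ℂ (fun w => P r a b h n (sg r a b w)) (ball b r) :=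
      ih.comp h1 (fun w hw => maps hr hr' hab hw)
    have h3 : DifferentiableOn ℂ (fun w : ℂ => (r : ℂ) / (w - a)) (ball b r) :=
      (differentiableOn_const _).div (by fun_prop) (fun w hw => sub_ne_zero.2 (hne w hw))
    exact hh.add (h3.smul (differentiableOn_JJ h2))

theorem p_hol {ε : ℝ} (hε : 0 < ε) (hε' : ε ≤ 1 / 10) {a b : ℂ} (hab : ‖a - b‖ = 1)
    {E : ℂ → ℂ × ℂ} {h p q : ℂ → ℂ × ℂ} (s : Sol ε E a b h p q)
    (hh : DifferentiableOn ℂ h (ball b (ε ^ 2))) :
    DifferentiableOn ℂ p (ball b (ε ^ 2)) := by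
  have hr : 0 < ε ^ 2 := by positivity
  have hr' : ε ^ 2 ≤ 1 / 100 := by nlinarith
  set r := ε ^ 2 with hrdef
  have hsub : ball b r ⊆ closedBall b (1 / 4) :=
    ball_subset_closedBall.trans (closedBall_subset_closedBall (by linarith))
  -- bound of h - p
  obtain ⟨B, hB⟩ : ∃ B, ∀ w ∈ closedBall b (1 / 4), ‖h w - p w‖ ≤ B := by
    have hc : ContinuousOn (fun w => h w - p w) (closedBall b (1 / 4)) :=
      s.h_cont.continuousOn.sub s.p_cont
    exact (isCompact_closedBall b (1 / 4)).exists_bound_of_continuousOn hc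
  have hB0 : 0 ≤ B := (norm_nonneg _).trans (hB b (mem_closedBall_self (by norm_num)))
  have key : ∀ n, ∀ w ∈ ball b r, ‖P r a b h n w - p w‖ ≤ (1 / 2) ^ n * B := by
    intro n
    induction n with
    | zero => intro w hw; simpa [P] using hB w (hsub hw)
    | succ n ih =>
      intro w hw
      have h1 := far hr' hab hw
      have h2 := ih _ (maps hr hr' hab hw)
      have e : P r a b h (n + 1) w - p w =
          ((r : ℂ) / (w - a)) • JJ (P r a b h n (sg r a b w) - p (sg r a b w)) := by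
        rw [s.p_eq w (hsub hw), JJ_sub, smul_sub]
        show h w + ((r : ℂ) / (w - a)) • JJ (P r a b h n (sg r a b w)) - _ = _
        abel
      rw [e, norm_smul, norm_JJ, norm_div, Complex.norm_real, Real.norm_eq_abs, abs_of_pos hr]
      have h3 : r / ‖w - a‖ ≤ 1 / 2 := by
        rw [div_le_iff₀ (by linarith)]; linarith
      calc r / ‖w - a‖ * ‖P r a b h n (sg r a b w) - p (sg r a b w)‖
          ≤ 1 / 2 * ((1 / 2) ^ n * B) := mul_le_mul h3 h2 (norm_nonneg _) (by norm_num)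
        _ = (1 / 2) ^ (n + 1) * B := by rw [pow_succ]; ring
  have hlim : TendstoUniformlyOn (P r a b h) p atTop (ball b r) := by
    rw [Metric.tendstoUniformlyOn_iff]
    intro δ hδ
    have h1 : Tendsto (fun n : ℕ => (1 / 2 : ℝ) ^ n * B) atTop (𝓝 (0 * B)) :=
      (tendsto_pow_atTop_nhds_zero_of_lt_one (by norm_num) (by norm_num)).mul_const B
    rw [zero_mul] at h1
    filter_upwards [h1.eventually (gt_mem_nhds hδ)] with n hn w hw
    rw [dist_comm, dist_eq_norm]
    exact (key n w hw).trans_lt hn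
  exact hlim.tendstoLocallyUniformlyOn.differentiableOn
    (Eventually.of_forall (P_diff hr hr' hab hh)) isOpen_ball

end SolHol

open SolHol

theorem sol_hol {ε : ℝ} (hε : 0 < ε) (hε' : ε ≤ 1 / 10) {a b : ℂ} (hab : ‖a - b‖ = 1)
    {E : ℂ → ℂ × ℂ} (hE : Differentiable ℂ E) {h p q : ℂ → ℂ × ℂ} (s : Sol ε E a b h p q) :
    DifferentiableOn ℂ h (ball a (ε ^ 2)) ∧ DifferentiableOn ℂ h (ball b (ε ^ 2)) ∧
    DifferentiableOn ℂ p (ball b (ε ^ 2)) ∧ DifferentiableOn ℂ q (ball a (ε ^ 2)) := by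
  have ha := h_hol hε hε' hE s
  have hb := h_hol hε hε' hE s.swap
  have hba : ‖b - a‖ = 1 := by rw [norm_sub_rev, hab]
  exact ⟨ha, hb, p_hol hε hε' hab s hb, p_hol hε hε' hba s.swap ha⟩

end Pool.Agent.MP_49383f_gt
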