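import Pool.Agent.MP_49383f_gt.Glue
import Pool.Agent.MP_49383f_gt.LRlocal
import Pool.Agent.MP_49383f_gt.CauchyBd
import Pool.Agent.MP_49383f_gt.CauchyHol
import Pool.Agent.MP_49383f_gt.SolHol

/-!
# MP_49383f_gt, module M20 : local representation of the solution away from the necks
-/

namespace Pool.Agent.MP_49383f_gt

open scoped ContDiff ComplexConjugate
open MeasureTheory Metric Set

namespace LRint

theorem differentiable_JJ : Differentiable ℂ JJ := by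
  unfold JJ
  exact differentiable_snd.prodMk differentiable_fst.neg

/-- `z ↦ (r/(z-a)) J p(σz)` is holomorphic where `σ` maps into a set on which `p` is holomorphic -/
theorem term_differentiableOn {r : ℝ} {a b : ℂ} {p : ℂ → ℂ × ℂ} {s t : Set ℂ}
    (hp : DifferentiableOn ℂ p t) (ht : IsOpen t) (hs : ∀ z ∈ s, z ≠ a ∧ sg r a b z ∈ t) :
    DifferentiableOn ℂ (fun z => ((r : ℂ) / (z - a)) • JJ (p (sg r a b z))) s := by
  intro z hz
  have hza := (hs z hz).1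
  have h1 : DifferentiableAt ℂ (fun z : ℂ => (r : ℂ) / (z - a)) z := by
    exact (differentiableAt_const _).fun_div (by fun_prop) (sub_ne_zero.2 hza)
  have h2 : DifferentiableAt ℂ (fun z => p (sg r a b z)) z :=
    ((hp.differentiableAt (ht.mem_nhds (hs z hz).2))).comp z
      (hasDerivAt_sg r a b hza).differentiableAt
  have h3 : DifferentiableAt ℂ (fun z => JJ (p (sg r a b z))) z :=
    (differentiable_JJ _).comp z h2
  exact (h1.smul h3).differentiableWithinAt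

end LRint

open Glue LRint in
theorem LRat_int {ε : ℝ} (hε : 0 < ε) (hε' : ε ≤ 1 / 10) {a b : ℂ} (hab : ‖a - b‖ = 1)
    {E : ℂ → ℂ × ℂ} (hE : Differentiable ℂ E) {h p q : ℂ → ℂ × ℂ} (s : Sol ε E a b h p q)
    {z₀ : ℂ} (h0 : ‖z₀‖ < 4) (h1 : ε ^ 2 < ‖z₀ - a‖) (h2 : ε ^ 2 < ‖z₀ - b‖) :
    LRat {z | ‖z‖ < 4 ∧ ε ^ 2 / 8 < ‖z - a‖ ∧ ε ^ 2 / 8 < ‖z - b‖} (mu ε)
      (PHI (ε ^ 2) a b h p q) z₀ := by
  have e2 : 0 < ε ^ 2 := by positivity
  obtain ⟨-, -, hp, hq⟩ := sol_hol hε hε' hab hE s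
  have hN : IsOpen {z : ℂ | ‖z‖ < 4 ∧ ε ^ 2 < ‖z - a‖ ∧ ε ^ 2 < ‖z - b‖} := by
    have h1 : IsOpen {z : ℂ | ‖z‖ < 4} := isOpen_lt (by fun_prop) (by fun_prop)
    have h2 : IsOpen {z : ℂ | ε ^ 2 < ‖z - a‖} := isOpen_lt (by fun_prop) (by fun_prop)
    have h3 : IsOpen {z : ℂ | ε ^ 2 < ‖z - b‖} := isOpen_lt (by fun_prop) (by fun_prop)
    exact h1.inter (h2.inter h3)
  have hmaps : ∀ (c d : ℂ), ∀ z ∈ {z : ℂ | ε ^ 2 < ‖z - c‖}, z ≠ c ∧
      sg (ε ^ 2) c d z ∈ ball d (ε ^ 2) := by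
    intro c d z hz
    have hz' : ε ^ 2 < ‖z - c‖ := hz
    have h0 : 0 < ‖z - c‖ := by linarith
    refine ⟨fun h => by simp [h] at h0, sg_mem_ball h0 (by nlinarith)⟩
  have hta := term_differentiableOn hp isOpen_ball (hmaps a b)
  have htb := term_differentiableOn hq isOpen_ball (hmaps b a)
  refine LRat_of_local (fun h1 h2 => cauchyT_differentiableOn h1 h2) hN ?_ (ν := nu ε a b h p q)
    (g := fun z => E z + (((ε ^ 2 : ℝ) : ℂ) / (z - a)) • JJ (p (sg (ε ^ 2) a b z)) +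
      (((ε ^ 2 : ℝ) : ℂ) / (z - b)) • JJ (q (sg (ε ^ 2) b a z)))
    (nu_integrable hε hε' s) ?_ ?_ ?_ ?_ ⟨h0, h1, h2⟩
  · intro z hz
    exact ⟨hz.1, by linarith [hz.2.1], by linarith [hz.2.2]⟩
  · intro z _
    exact cauchy_integrable (nu_aesm hε hε' s) (nu_bound hε s) (fun ζ hζ => nu_support4 hζ) z
  · refine Filter.Eventually.of_forall fun ζ hζ => ?_
    have : ζ ∈ GG (ε ^ 2) a b := ⟨hζ.1.le, hζ.2.1.le, hζ.2.2.le⟩
    rw [nu, indicator_of_mem this]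
  · exact (hE.differentiableOn.add (hta.mono fun z hz => hz.2.1)).add
      (htb.mono fun z hz => hz.2.2)
  · intro z _
    rw [PHI, s.h_eq z, nu]
    abel

end Pool.Agent.MP_49383f_gt
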