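import Pool.Agent.MP_49383f_gt.Basic

/-! # M18: the Cauchy kernel and the Moebius map -/

namespace Pool.Agent.MP_49383f_gt

open scoped ContDiff ComplexConjugate
open MeasureTheory Metric Set

namespace M18

/-- multiplication by `c` as a real linear map -/
noncomputable def mulL (c : ℂ) : ℂ →L[ℝ] ℂ :=
  (ContinuousLinearMap.toSpanSingleton ℂ c).restrictScalars ℝ

theorem mulL_apply (c z : ℂ) : mulL c z = z * c := by
  simp [mulL]

theorem det_mulL (c : ℂ) : (mulL c).det = ‖c‖ ^ 2 := by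
  have h : (mulL c).det = Algebra.norm ℝ c := by
    rw [Algebra.norm_apply, ContinuousLinearMap.det]
    congr 1
    apply LinearMap.ext
    intro x
    rw [ContinuousLinearMap.coe_coe, mulL_apply, mul_comm]
    rfl
  rw [h, Algebra.norm_complex_apply, Complex.normSq_eq_norm_sq]

theorem hasFDeriv (r : ℝ) (a b : ℂ) {z : ℂ} (hz : z ≠ a) :
    HasFDerivAt (sg r a b) (mulL ((r : ℂ) ^ 2 / (z - a) ^ 2)) z :=
  (hasDerivAt_sg r a b hz).hasFDerivAt.restrictScalars ℝ

theorem injOn_sg {r : ℝ} (hr : r ≠ 0) (a b : ℂ) : InjOn (sg r a b) {a}ᶜ := by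
  intro x hx y hy h
  rw [← sg_sg hr a b hx, ← sg_sg hr a b hy, h]

theorem image_sg {r : ℝ} (hr : r ≠ 0) (a b : ℂ) : sg r a b '' {a}ᶜ = {b}ᶜ := by
  ext w
  constructor
  · rintro ⟨z, hz, rfl⟩
    exact sg_ne hr a b hz
  · intro hw
    exact ⟨sg r b a w, sg_ne hr b a hw, sg_sg hr b a hw⟩

/-- the Jacobian -/
theorem jac_eq (r : ℝ) (a : ℂ) (z : ℂ) :
    |(mulL ((r : ℂ) ^ 2 / (z - a) ^ 2)).det| = r ^ 4 / ‖z - a‖ ^ 4 := by
  rw [det_mulL, abs_of_nonneg (by positivity), norm_div, norm_pow, norm_pow, Complex.norm_real,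
    Real.norm_eq_abs, sq_abs, div_pow, ← pow_mul, ← pow_mul]

theorem compl_singleton_ae (a : ℂ) : ({a}ᶜ : Set ℂ) =ᵐ[volume] univ := by
  rw [ae_eq_univ, compl_compl]
  exact measure_singleton a

theorem integral_sg {r : ℝ} (hr : r ≠ 0) (a b : ℂ) (g : ℂ → ℂ × ℂ) :
    ∫ w, g w = ∫ ζ, (r ^ 4 / ‖ζ - a‖ ^ 4) • g (sg r a b ζ) := by
  have h1 := integral_image_eq_integral_abs_det_fderiv_smul volume
    (measurableSet_singleton a).compl
    (fun x hx => (hasFDeriv r a b (z := x) hx).hasFDerivWithinAt) (injOn_sg hr a b) g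
  rw [image_sg hr] at h1
  simp only [jac_eq] at h1
  rw [setIntegral_congr_set (compl_singleton_ae b), setIntegral_univ] at h1
  rw [h1, setIntegral_congr_set (compl_singleton_ae a), setIntegral_univ]

theorem integrable_sg {r : ℝ} (hr : r ≠ 0) (a b : ℂ) {g : ℂ → ℂ × ℂ} (hg : Integrable g) :
    Integrable (fun ζ => (r ^ 4 / ‖ζ - a‖ ^ 4) • g (sg r a b ζ)) := by
  have h1 := (integrableOn_image_iff_integrableOn_abs_det_fderiv_smul volume
    (measurableSet_singleton a).compl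
    (fun x hx => (hasFDeriv r a b (z := x) hx).hasFDerivWithinAt) (injOn_sg hr a b) g).1
    hg.integrableOn
  simp only [jac_eq] at h1
  exact (integrableOn_univ (μ := volume)).1
    ((integrableOn_congr_set_ae (compl_singleton_ae a)).1 h1)

/-- algebra of the weights -/
theorem norm_four (u : ℂ) : ((‖u‖ ^ 4 : ℝ) : ℂ) = u ^ 2 * conj u ^ 2 := by
  have h : ((‖u‖ ^ 2 : ℝ) : ℂ) = u * conj u := by
    rw [Complex.mul_conj, Complex.normSq_eq_norm_sq]
  rw [show ‖u‖ ^ 4 = ‖u‖ ^ 2 * ‖u‖ ^ 2 by ring, Complex.ofReal_mul, h]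
  ring

end M18

open M18

/-- `(r/(z-a)) C[ν](σz) = C[ν^ext](z)`, `ν^ext(ζ) = r³ ν(σζ) / ((ζ-a) conj(ζ-a)²)` -/
theorem kernel_identity {r : ℝ} (hr : 0 < r) (a b : ℂ) {ν : ℂ → ℂ × ℂ} {M : ℝ}
    (hν : AEStronglyMeasurable ν) (hb : ∀ ζ, ‖ν ζ‖ ≤ M) (hs : ∀ ζ, 4 < ‖ζ‖ → ν ζ = 0)
    (hs' : ∀ ζ, ‖ζ - b‖ < r → ν ζ = 0) {z : ℂ} (hz : z ≠ a) :
    Integrable (fun ζ => ((r : ℂ) ^ 3 / ((ζ - a) * conj (ζ - a) ^ 2)) • ν (sg r a b ζ)) ∧
    ((r : ℂ) / (z - a)) • cauchyT ν (sg r a b z) =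
      cauchyT (fun ζ => ((r : ℂ) ^ 3 / ((ζ - a) * conj (ζ - a) ^ 2)) • ν (sg r a b ζ)) z := by
  have hr0 : r ≠ 0 := hr.ne'
  have hrc : (r : ℂ) ≠ 0 := by exact_mod_cast hr0
  have hza : z - a ≠ 0 := sub_ne_zero.2 hz
  have hνb : ν b = 0 := hs' b (by simpa using hr)
  constructor
  · -- integrability
    have hg : Integrable (fun w => (-(r : ℂ) / (w - b)) • ν w) := by
      have hm : AEStronglyMeasurable (fun w => (-(r : ℂ) / (w - b)) • ν w) volume := by
        have h1 : AEStronglyMeasurable (fun w : ℂ => -(r : ℂ) / (w - b)) volume := by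
          apply Measurable.aestronglyMeasurable
          fun_prop
        exact h1.smul hν
      have hM : 0 ≤ M := (norm_nonneg _).trans (hb 0)
      have hbd : ∀ w, ‖(-(r : ℂ) / (w - b)) • ν w‖ ≤ M := by
        intro w
        by_cases hw : ‖w - b‖ < r
        · rw [hs' w hw]; simpa using hM
        · push Not at hw
          rw [norm_smul, norm_div, norm_neg, Complex.norm_real, Real.norm_eq_abs, abs_of_pos hr]
          have h1 : r / ‖w - b‖ ≤ 1 := div_le_one_of_le₀ hw (norm_nonneg _)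
          calc r / ‖w - b‖ * ‖ν w‖ ≤ 1 * M :=
                mul_le_mul h1 (hb w) (norm_nonneg _) zero_le_one
            _ = M := one_mul M
      have h2 : IntegrableOn (fun w => (-(r : ℂ) / (w - b)) • ν w) (closedBall 0 4) := by
        apply Measure.integrableOn_of_bounded (M := M)
        · exact (isCompact_closedBall (0 : ℂ) 4).measure_lt_top.ne
        · exact hm
        · exact Filter.Eventually.of_forall hbd
      rw [← integrableOn_iff_integrable_of_support_subset (s := closedBall 0 4)]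
      · exact h2
      · intro w hw
        by_contra hc
        apply hw
        have : 4 < ‖w‖ := by simpa using hc
        show (-(r : ℂ) / (w - b)) • ν w = 0
        rw [hs w this, smul_zero]
    have h3 := integrable_sg hr0 a b hg
    refine h3.congr (Filter.Eventually.of_forall fun ζ => ?_)
    show (r ^ 4 / ‖ζ - a‖ ^ 4) • ((-(r : ℂ) / (sg r a b ζ - b)) • ν (sg r a b ζ)) =
      ((r : ℂ) ^ 3 / ((ζ - a) * conj (ζ - a) ^ 2)) • ν (sg r a b ζ)
    by_cases hζ : ζ = a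
    · have : sg r a b ζ = b := by rw [hζ, sg]; simp
      rw [this, hνb]; simp
    · have hu : ζ - a ≠ 0 := sub_ne_zero.2 hζ
      have hu' : conj (ζ - a) ≠ 0 := (map_ne_zero _).2 hu
      rw [sg_sub, ← Complex.coe_smul (r ^ 4 / ‖ζ - a‖ ^ 4), smul_smul]
      congr 1
      rw [Complex.ofReal_div, norm_four]
      push_cast
      field_simp
  · -- the identity
    unfold cauchyT
    rw [integral_sg hr0 a b, smul_comm]
    congr 1
    rw [← integral_smul]
    apply integral_congr_ae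
    have hae : ∀ᵐ ζ : ℂ, ζ ≠ z ∧ ζ ≠ a := by
      have h1 : ∀ᵐ ζ : ℂ, ζ ∉ ({z, a} : Set ℂ) :=
        measure_eq_zero_iff_ae_notMem.1 ((Set.toFinite {z, a}).measure_zero volume)
      filter_upwards [h1] with ζ hζ
      simp only [mem_insert_iff, mem_singleton_iff, not_or] at hζ
      exact hζ
    filter_upwards [hae] with ζ hζ
    obtain ⟨h1, h2⟩ := hζ
    have hu : ζ - a ≠ 0 := sub_ne_zero.2 h2
    have hu' : conj (ζ - a) ≠ 0 := (map_ne_zero _).2 hu
    have hzζ : z - ζ ≠ 0 := sub_ne_zero.2 (Ne.symm h1)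
    rw [sg_sub_sg a b hz h2, ← Complex.coe_smul (r ^ 4 / ‖ζ - a‖ ^ 4), smul_smul, smul_smul,
      smul_smul]
    congr 1
    rw [Complex.ofReal_div, norm_four]
    push_cast
    field_simp

end Pool.Agent.MP_49383f_gt
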