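import Pool.Agent.MP_49383f_gt.LRint
import Pool.Agent.MP_49383f_gt.Kernel

/-!
# MP_49383f_gt, module M19 : local representation of the solution near the necks
-/

namespace Pool.Agent.MP_49383f_gt

open scoped ContDiff ComplexConjugate
open MeasureTheory Metric Set

namespace LRnear

open Glue LRint

/-- `J` as a continuous linear map -/
noncomputable def JL : (ℂ × ℂ) →L[ℂ] (ℂ × ℂ) :=
  (ContinuousLinearMap.snd ℂ ℂ ℂ).prod (-ContinuousLinearMap.fst ℂ ℂ ℂ)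

theorem JL_apply (x : ℂ × ℂ) : JL x = JJ x := rfl

theorem JJ_cauchyT {ν : ℂ → ℂ × ℂ} {z : ℂ} (h : Integrable (fun ζ => (z - ζ)⁻¹ • ν ζ)) :
    JJ (cauchyT ν z) = cauchyT (fun ζ => JJ (ν ζ)) z := by
  unfold cauchyT
  rw [JJ_smul]
  congr 1
  rw [← JL_apply, ← JL.integral_comp_comm h]
  apply integral_congr_ae
  exact Filter.Eventually.of_forall fun ζ => by simp [JL_apply]

theorem cauchyT_add' {ν ν' : ℂ → ℂ × ℂ} {z : ℂ} (h : Integrable (fun ζ => (z - ζ)⁻¹ • ν ζ))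
    (h' : Integrable (fun ζ => (z - ζ)⁻¹ • ν' ζ)) :
    cauchyT (fun ζ => ν ζ + ν' ζ) z = cauchyT ν z + cauchyT ν' z := by
  unfold cauchyT
  rw [← smul_add, ← integral_add h h']
  congr 1
  apply integral_congr_ae
  exact Filter.Eventually.of_forall fun ζ => by simp [smul_add]

/-- the extended density -/
noncomputable def nuext (r : ℝ) (a b : ℂ) (ν : ℂ → ℂ × ℂ) (ζ : ℂ) : ℂ × ℂ :=
  ((r : ℂ) ^ 3 / ((ζ - a) * conj (ζ - a) ^ 2)) • ν (sg r a b ζ)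

theorem nuext_bound {r : ℝ} (hr : 0 < r) {a b : ℂ} (hb : ‖b‖ ≤ 2) {ν : ℂ → ℂ × ℂ} {M : ℝ}
    (hM : ∀ ζ, ‖ν ζ‖ ≤ M) (hs : ∀ ζ, 4 < ‖ζ‖ → ν ζ = 0) (hs' : ∀ ζ, ‖ζ - b‖ < r → ν ζ = 0)
    (ζ : ℂ) : ‖nuext r a b ν ζ‖ ≤ 216 / r ^ 3 * M := by
  have hM0 : 0 ≤ M := (norm_nonneg _).trans (hM 0)
  unfold nuext
  by_cases hζa : ζ = a
  · rw [hζa, sub_self]
    simp only [zero_mul, div_zero, zero_smul, norm_zero]
    positivity
  have h0 : 0 < ‖ζ - a‖ := norm_pos_iff.2 (sub_ne_zero.2 hζa)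
  by_cases h4 : 4 < ‖sg r a b ζ‖
  · rw [hs _ h4, smul_zero, norm_zero]
    positivity
  have h5 : r ^ 2 / ‖ζ - a‖ ≤ 6 := by
    rw [← norm_sg_sub a b ζ]
    calc ‖sg r a b ζ - b‖ ≤ ‖sg r a b ζ‖ + ‖b‖ := norm_sub_le _ _
      _ ≤ 4 + 2 := by linarith
      _ = 6 := by norm_num
  rw [norm_smul, norm_div, norm_mul, norm_pow, norm_pow, RCLike.norm_conj, Complex.norm_real,
    Real.norm_of_nonneg hr.le]
  refine mul_le_mul ?_ (hM _) (norm_nonneg _) (by positivity)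
  have h6 : r ^ 3 / (‖ζ - a‖ * ‖ζ - a‖ ^ 2) = (r ^ 2 / ‖ζ - a‖) ^ 3 / r ^ 3 := by
    field_simp
  rw [h6]
  have : (r ^ 2 / ‖ζ - a‖) ^ 3 ≤ 6 ^ 3 := by gcongr
  gcongr
  linarith

theorem nuext_support {r : ℝ} (hr : 0 < r) {a b : ℂ} {ν : ℂ → ℂ × ℂ}
    (hs' : ∀ ζ, ‖ζ - b‖ < r → ν ζ = 0) (ζ : ℂ) (hζ : ζ ∉ closedBall a r) :
    nuext r a b ν ζ = 0 := by
  rw [mem_closedBall, dist_eq_norm, not_le] at hζ
  unfold nuext
  rw [hs', smul_zero]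
  rw [norm_sg_sub, div_lt_iff₀ (by linarith)]
  nlinarith

end LRnear

open Glue LRint LRnear in
theorem LRat_near {ε : ℝ} (hε : 0 < ε) (hε' : ε ≤ 1 / 10) {a b : ℂ} (hab : ‖a - b‖ = 1)
    (ha : ‖a‖ ≤ 2) (hb : ‖b‖ ≤ 2)
    {E : ℂ → ℂ × ℂ} (hE : Differentiable ℂ E) {h p q : ℂ → ℂ × ℂ} (s : Sol ε E a b h p q)
    {z₀ : ℂ} (h1 : ε ^ 2 / 8 < ‖z₀ - a‖) (h2 : ‖z₀ - a‖ < 8 * ε ^ 2) :
    LRat {z | ‖z‖ < 4 ∧ ε ^ 2 / 8 < ‖z - a‖ ∧ ε ^ 2 / 8 < ‖z - b‖} (mu ε)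
      (PHI (ε ^ 2) a b h p q) z₀ := by
  have e2 : 0 < ε ^ 2 := by positivity
  have e2s : ε ^ 2 ≤ 1 / 100 := by nlinarith
  obtain ⟨-, -, hp, hq⟩ := sol_hol hε hε' hab hE s
  -- the annulus
  have hN : IsOpen {z : ℂ | ε ^ 2 / 8 < ‖z - a‖ ∧ ‖z - a‖ < 8 * ε ^ 2} := by
    have h2 : IsOpen {z : ℂ | ε ^ 2 / 8 < ‖z - a‖} := isOpen_lt (by fun_prop) (by fun_prop)
    have h3 : IsOpen {z : ℂ | ‖z - a‖ < 8 * ε ^ 2} := isOpen_lt (by fun_prop) (by fun_prop)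
    exact h2.inter h3
  set A := {z : ℂ | ε ^ 2 / 8 < ‖z - a‖ ∧ ‖z - a‖ < 8 * ε ^ 2} with hA
  -- distances
  have dist1 : ∀ z : ℂ, ‖z - a‖ < 8 * ε ^ 2 → 9 / 10 < ‖z - b‖ := by
    intro z hz
    have : ‖a - b‖ ≤ ‖z - b‖ + ‖z - a‖ := by
      rw [show a - b = (z - b) - (z - a) by ring]; exact norm_sub_le _ _
    rw [hab] at this
    linarith
  have dist2 : ∀ z : ℂ, ‖z - b‖ < 8 * ε ^ 2 → 9 / 10 < ‖z - a‖ := by
    intro z hz
    have : ‖a - b‖ ≤ ‖z - b‖ + ‖z - a‖ := by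
      rw [show a - b = (z - b) - (z - a) by ring]; exact norm_sub_le _ _
    rw [hab] at this
    linarith
  have sgA : ∀ z ∈ A, z ≠ a ∧ sg (ε ^ 2) a b z ∈ ball b (8 * ε ^ 2) := by
    intro z hz
    have h0 : 0 < ‖z - a‖ := by linarith [hz.1]
    refine ⟨fun h => by simp [h] at h0, sg_mem_ball h0 ?_⟩
    nlinarith [hz.1]
  have A4 : ∀ z ∈ A, ‖z‖ < 4 := by
    intro z hz
    have : ‖z‖ ≤ ‖z - a‖ + ‖a‖ := by
      calc ‖z‖ = ‖(z - a) + a‖ := by ring_nf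
        _ ≤ _ := norm_add_le _ _
    linarith [hz.2]
  have hAb : ∀ z ∈ A, ε ^ 2 / 8 < ‖z - b‖ := fun z hz => by linarith [dist1 z hz.2]
  -- the densities
  set ν := nu ε a b h p q with hν
  have nuJ : ∀ ζ, ‖JJ (ν ζ)‖ ≤ 16000 * ε := fun ζ => by rw [norm_JJ]; exact nu_bound hε s ζ
  have nuJm : AEStronglyMeasurable (fun ζ => JJ (ν ζ)) :=
    continuous_JJ.comp_aestronglyMeasurable (nu_aesm hε hε' s)
  have nuJ4 : ∀ ζ, 4 < ‖ζ‖ → JJ (ν ζ) = 0 := by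
    intro ζ hζ
    rw [hν, nu_support (fun hm => by linarith [hm.1])]
    simp [JJ]
  have nuJb : ∀ ζ, ‖ζ - b‖ < ε ^ 2 → JJ (ν ζ) = 0 := by
    intro ζ hζ
    rw [hν, nu_support (fun hm => by linarith [hm.2.2])]
    simp [JJ]
  have hext := fun z (hz : z ≠ a) => kernel_identity e2 a b nuJm nuJ nuJ4 nuJb hz
  have hne : a + 1 ≠ a := by simp
  have extint : Integrable (nuext (ε ^ 2) a b fun ζ => JJ (ν ζ)) := (hext _ hne).1
  have extbound := nuext_bound e2 (a := a) hb nuJ nuJ4 nuJb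
  have extsupp := nuext_support e2 (a := a) nuJb
  have hint1 : ∀ z, Integrable (fun ζ => (z - ζ)⁻¹ • ν ζ) := fun z =>
    cauchy_integrable (nu_aesm hε hε' s) (nu_bound hε s) (fun ζ hζ => nu_support4 hζ) z
  have hint2 : ∀ z, Integrable (fun ζ => (z - ζ)⁻¹ • nuext (ε ^ 2) a b (fun ζ => JJ (ν ζ)) ζ) :=
    fun z => cauchy_integrable extint.aestronglyMeasurable extbound extsupp z
  -- holomorphic parts
  have hF : DifferentiableOn ℂ
      (fun w => (((ε ^ 2 : ℝ) : ℂ) / (w - a)) • JJ (p (sg (ε ^ 2) a b w))) (ball b (8 * ε ^ 2)) := by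
    apply term_differentiableOn hp isOpen_ball
    intro w hw
    rw [mem_ball, dist_eq_norm] at hw
    have h0 := dist2 w hw
    refine ⟨fun h => by rw [h, sub_self, norm_zero] at h0; linarith, sg_mem_ball (by linarith) ?_⟩
    nlinarith
  have hG4 := term_differentiableOn hF isOpen_ball sgA
  have hG3 := term_differentiableOn hE.differentiableOn isOpen_univ
    (s := A) (r := ε ^ 2) (a := a) (b := b) fun z hz => ⟨(sgA z hz).1, mem_univ _⟩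
  have hG2 : DifferentiableOn ℂ
      (fun z => (((ε ^ 2 : ℝ) : ℂ) / (z - b)) • JJ (q (sg (ε ^ 2) b a z))) A := by
    apply term_differentiableOn hq isOpen_ball
    intro w hw
    have h0 := dist1 w hw.2
    refine ⟨fun h => by rw [h, sub_self, norm_zero] at h0; linarith, sg_mem_ball (by linarith) ?_⟩
    nlinarith
  refine LRat_of_local (fun h1 h2 => cauchyT_differentiableOn h1 h2) hN (u := PHI (ε ^ 2) a b h p q)
    ?_ (ν := fun ζ => ν ζ + nuext (ε ^ 2) a b (fun ζ => JJ (ν ζ)) ζ)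
    (g := fun z => E z + (((ε ^ 2 : ℝ) : ℂ) / (z - b)) • JJ (q (sg (ε ^ 2) b a z)) +
      (((ε ^ 2 : ℝ) : ℂ) / (z - a)) • JJ (E (sg (ε ^ 2) a b z)) +
      (((ε ^ 2 : ℝ) : ℂ) / (z - a)) • JJ ((((ε ^ 2 : ℝ) : ℂ) / (sg (ε ^ 2) a b z - a)) •
        JJ (p (sg (ε ^ 2) a b (sg (ε ^ 2) a b z)))))
    ((nu_integrable hε hε' s).add extint) ?_ ?_ ?_ ?_ ⟨h1, h2⟩
  · intro z hz
    exact ⟨A4 z hz, hz.1, hAb z hz⟩
  · intro z _
    refine ((hint1 z).add (hint2 z)).congr (Filter.Eventually.of_forall fun ζ => ?_)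
    simp [smul_add]
  · have hsph : ∀ᵐ ζ : ℂ, ‖ζ - a‖ ≠ ε ^ 2 := by
      have := Measure.addHaar_sphere (volume : Measure ℂ) a (ε ^ 2)
      rw [ae_iff]
      convert this using 2
      ext ζ
      simp
    filter_upwards [hsph] with ζ hζ hζA
    have hgl : PHI (ε ^ 2) a b h p q ζ = (((ε ^ 2 : ℝ) : ℂ) / (ζ - a)) •
        JJ (PHI (ε ^ 2) a b h p q (sg (ε ^ 2) a b ζ)) :=
      sol_glue hε hε' hab s (by nlinarith [hζA.1]) (by linarith [hζA.2])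
    have h0 : 0 < ‖ζ - a‖ := by linarith [hζA.1]
    rcases lt_or_gt_of_ne hζ with hlt | hgt
    · have hn : ν ζ = 0 := nu_support fun hm => by linarith [hm.2.1]
      have hb8 : ‖sg (ε ^ 2) a b ζ - b‖ < 8 * ε ^ 2 := by
        have := (sgA ζ hζA).2
        rwa [mem_ball, dist_eq_norm] at this
      have hmem : sg (ε ^ 2) a b ζ ∈ GG (ε ^ 2) a b := by
        refine ⟨?_, ?_, ?_⟩
        · have : ‖sg (ε ^ 2) a b ζ‖ ≤ ‖sg (ε ^ 2) a b ζ - b‖ + ‖b‖ := by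
            calc ‖sg (ε ^ 2) a b ζ‖ = ‖(sg (ε ^ 2) a b ζ - b) + b‖ := by ring_nf
              _ ≤ _ := norm_add_le _ _
          linarith
        · linarith [dist2 _ hb8]
        · rw [norm_sg_sub, le_div_iff₀ h0]
          nlinarith
      rw [hn, zero_add, nuext, hν, nu, indicator_of_mem hmem, hgl, mu_smul_JJ]
      congr 1
      have hz : ζ - a ≠ 0 := norm_pos_iff.1 h0
      have hz' : conj (ζ - a) ≠ 0 := (map_ne_zero _).2 hz
      rw [map_div₀, Complex.conj_ofReal]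
      field_simp
    · have hmem : ζ ∈ GG (ε ^ 2) a b :=
        ⟨(A4 ζ hζA).le, hgt.le, by linarith [dist1 ζ hζA.2]⟩
      have hz : JJ (ν (sg (ε ^ 2) a b ζ)) = 0 := by
        apply nuJb
        rw [norm_sg_sub, div_lt_iff₀ h0]
        nlinarith
      rw [nuext, hz, smul_zero, add_zero, hν, nu, indicator_of_mem hmem]
  · exact ((hE.differentiableOn.add hG2).add hG3).add hG4
  · intro z hz
    have hza := (sgA z hz).1
    have hq1 : z ∈ closedBall a (1 / 4) := by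
      rw [mem_closedBall, dist_eq_norm]; linarith [hz.2]
    have hp1 : sg (ε ^ 2) a b z ∈ closedBall b (1 / 4) := by
      have := (sgA z hz).2
      rw [mem_ball] at this
      rw [mem_closedBall]; linarith
    have hk : ((((ε ^ 2 : ℝ) : ℂ)) / (z - a)) • JJ (cauchyT ν (sg (ε ^ 2) a b z)) =
        cauchyT (nuext (ε ^ 2) a b fun ζ => JJ (ν ζ)) z := by
      rw [JJ_cauchyT (hint1 _)]
      exact (hext z hza).2
    rw [phi_eq_near s hq1, s.q_eq z hq1, s.p_eq _ hp1, s.h_eq z, s.h_eq (sg (ε ^ 2) a b z),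
      cauchyT_add' (hint1 z) (hint2 z), ← hk, JJ_add, JJ_add, smul_add, smul_add]
    have : cauchyT ((GG (ε ^ 2) a b).indicator fun ζ => mu ε (PHI (ε ^ 2) a b h p q ζ))
        = cauchyT ν := rfl
    rw [this]
    abel

end Pool.Agent.MP_49383f_gt
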