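import Pool.Agent.MP_49383f_gt.CauchyBd
import Pool.Agent.MP_49383f_gt.CauchyHol
import Pool.Agent.MP_49383f_gt.CauchyC1

/-!
# MP_49383f_gt, module M07: first step of regularity
-/

namespace Pool.Agent.MP_49383f_gt

open scoped ContDiff ComplexConjugate Topology
open MeasureTheory Metric Set

namespace Reg1

variable {V : Type*} [NormedAddCommGroup V] [NormedSpace ℂ V]

/-- A continuous function on a compact ball, cut off to the open ball, is bounded and measurable. -/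
theorem indicator_facts {f : ℂ → V} {z₀ : ℂ} {ρ : ℝ}
    (hf : ContinuousOn f (closedBall z₀ ρ)) :
    AEStronglyMeasurable ((ball z₀ ρ).indicator f) ∧
      ∃ M, 0 ≤ M ∧ ∀ ζ, ‖(ball z₀ ρ).indicator f ζ‖ ≤ M := by
  constructor
  · rw [aestronglyMeasurable_indicator_iff measurableSet_ball]
    exact (hf.mono ball_subset_closedBall).aestronglyMeasurable measurableSet_ball
  · obtain ⟨M, hM⟩ := (isCompact_closedBall z₀ ρ).exists_bound_of_continuousOn hf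
    refine ⟨max M 0, le_max_right _ _, fun ζ => ?_⟩
    by_cases h : ζ ∈ ball z₀ ρ
    · rw [indicator_of_mem h]
      exact (hM ζ (ball_subset_closedBall h)).trans (le_max_left _ _)
    · rw [indicator_of_notMem h, norm_zero]
      exact le_max_right _ _

/-- A bounded measurable function vanishing off a ball is integrable. -/
theorem integrable_of_bounded {f : ℂ → V} {z₀ : ℂ} {ρ M : ℝ} (hm : AEStronglyMeasurable f)
    (hb : ∀ ζ, ‖f ζ‖ ≤ M) (hs : ∀ ζ ∉ closedBall z₀ ρ, f ζ = 0) : Integrable f := by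
  have h1 : IntegrableOn f (closedBall z₀ ρ) := by
    refine Measure.integrableOn_of_bounded (M := M) ?_ hm ?_
    · exact measure_closedBall_lt_top.ne
    · exact Filter.Eventually.of_forall hb
  exact (integrableOn_iff_integrable_of_support_subset (fun ζ hζ => by
    by_contra h; exact hζ (hs ζ h))).1 h1

/-- `min (1, x) ≤ x ^ (1/2)` in the form we need. -/
theorem abs_le_sqrt_of {t L d : ℝ} (ht0 : 0 ≤ t) (ht1 : t ≤ 1) (hL : 0 ≤ L) (hd : 0 ≤ d)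
    (h : t ≤ L * d) : t ≤ L ^ (1 / 2 : ℝ) * d ^ (1 / 2 : ℝ) := by
  rw [← Real.mul_rpow hL hd, ← Real.sqrt_eq_rpow]
  apply Real.le_sqrt_of_sq_le
  nlinarith

variable [CompleteSpace V]

/-- the dbar derivative of a holomorphic function vanishes -/
theorem dbar_eq_zero {H : ℂ → V} {z : ℂ} (h : DifferentiableAt ℂ H z) : dbar H z = 0 := by
  have h1 : fderiv ℝ H z = (fderiv ℂ H z).restrictScalars ℝ :=
    (h.hasFDerivAt.restrictScalars ℝ).fderiv
  have h2 : fderiv ℂ H z Complex.I = Complex.I • fderiv ℂ H z 1 := by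
    rw [← map_smul]; simp
  rw [dbar, h1]
  simp only [ContinuousLinearMap.coe_restrictScalars', h2, smul_smul, Complex.I_mul_I]
  simp

/-- The splitting of the Cauchy transform at a point: if `u` has a Cauchy representation then near
`z₀` it is the sum of a holomorphic function and the Cauchy transform of `χ f`. -/
theorem split {u : ℂ → V} {f : ℂ → V} {z₀ : ℂ} {ρ ρ' : ℝ} {h : ℂ → V} (hρ' : 0 < ρ') (hρ : ρ' ≤ ρ)
    (hf : ContinuousOn f (closedBall z₀ ρ)) (hh : DifferentiableOn ℂ h (ball z₀ ρ))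
    (hu : ∀ z ∈ ball z₀ ρ, u z = h z + cauchyT ((ball z₀ ρ).indicator f) z)
    {χ : ℂ → ℝ} (hχc : Continuous χ) (hχ0 : ∀ z, 0 ≤ χ z) (hχ1 : ∀ z, χ z ≤ 1)
    (hχ : ∀ z ∈ ball z₀ ρ', χ z = 1) :
    ∃ H : ℂ → V, DifferentiableOn ℂ H (ball z₀ ρ') ∧ ∀ z ∈ ball z₀ ρ',
      u z = H z + cauchyT (fun ζ => χ ζ • (ball z₀ ρ).indicator f ζ) z := by
  obtain ⟨hm, M, hM0, hM⟩ := indicator_facts hf
  set F := (ball z₀ ρ).indicator f with hF
  have hFs : ∀ ζ ∉ closedBall z₀ ρ, F ζ = 0 := fun ζ hζ =>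
    indicator_of_notMem (fun h => hζ (ball_subset_closedBall h)) _
  have m1 : AEStronglyMeasurable (fun ζ => χ ζ • F ζ) :=
    hχc.aestronglyMeasurable.smul hm
  have m2 : AEStronglyMeasurable (fun ζ => (1 - χ ζ) • F ζ) :=
    (continuous_const.sub hχc).aestronglyMeasurable.smul hm
  have b1 : ∀ ζ, ‖χ ζ • F ζ‖ ≤ M := fun ζ => by
    rw [norm_smul, Real.norm_eq_abs, abs_of_nonneg (hχ0 ζ)]
    calc χ ζ * ‖F ζ‖ ≤ 1 * M := mul_le_mul (hχ1 ζ) (hM ζ) (norm_nonneg _) zero_le_one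
      _ = M := one_mul _
  have b2 : ∀ ζ, ‖(1 - χ ζ) • F ζ‖ ≤ M := fun ζ => by
    rw [norm_smul, Real.norm_eq_abs, abs_of_nonneg (by linarith [hχ1 ζ])]
    calc (1 - χ ζ) * ‖F ζ‖ ≤ 1 * M :=
          mul_le_mul (by linarith [hχ0 ζ]) (hM ζ) (norm_nonneg _) zero_le_one
      _ = M := one_mul _
  have s1 : ∀ ζ ∉ closedBall z₀ ρ, χ ζ • F ζ = 0 := fun ζ hζ => by rw [hFs ζ hζ, smul_zero]
  have s2 : ∀ ζ ∉ closedBall z₀ ρ, (1 - χ ζ) • F ζ = 0 := fun ζ hζ => by rw [hFs ζ hζ, smul_zero]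
  refine ⟨fun z => h z + cauchyT (fun ζ => (1 - χ ζ) • F ζ) z, ?_, fun z hz => ?_⟩
  · refine (hh.mono (ball_subset_ball hρ)).add ?_
    refine cauchyT_differentiableOn (integrable_of_bounded m2 b2 s2) fun ζ hζ => ?_
    rw [hχ ζ hζ, sub_self, zero_smul]
  · rw [hu z (ball_subset_ball hρ hz), add_assoc]
    congr 1
    rw [← cauchyT_add (cauchy_integrable m2 b2 s2 z) (cauchy_integrable m1 b1 s1 z)]
    congr 1
    funext ζ
    rw [← add_smul, sub_add_cancel, one_smul]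

/-- A function with a local Cauchy representation is Hoelder continuous. -/
theorem holder {u : ℂ → V} {f : ℂ → V} {z₀ : ℂ} {ρ : ℝ} {h : ℂ → V} (hρ : 0 < ρ)
    (hf : ContinuousOn f (closedBall z₀ ρ)) (hh : DifferentiableOn ℂ h (ball z₀ ρ))
    (hu : ∀ z ∈ ball z₀ ρ, u z = h z + cauchyT ((ball z₀ ρ).indicator f) z) :
    ∃ K, 0 ≤ K ∧ ∀ z ∈ closedBall z₀ (ρ / 2), ∀ w ∈ closedBall z₀ (ρ / 2),
      ‖u z - u w‖ ≤ K * ‖z - w‖ ^ (1 / 2 : ℝ) := by
  obtain ⟨hm, M, hM0, hM⟩ := indicator_facts hf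
  have hFs : ∀ ζ ∉ closedBall z₀ ρ, (ball z₀ ρ).indicator f ζ = 0 := fun ζ hζ =>
    indicator_of_notMem (fun h => hζ (ball_subset_closedBall h)) _
  have hsub : closedBall z₀ (ρ / 2) ⊆ ball z₀ ρ := closedBall_subset_ball (by linarith)
  -- `h` is Lipschitz on the smaller ball
  have hh1 : ContDiffOn ℂ 1 h (ball z₀ ρ) := hh.contDiffOn isOpen_ball
  have hh2 : ContinuousOn (fderiv ℂ h) (closedBall z₀ (ρ / 2)) :=
    (hh1.continuousOn_fderiv_of_isOpen isOpen_ball le_rfl).mono hsub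
  obtain ⟨L, hL⟩ := (isCompact_closedBall z₀ (ρ / 2)).exists_bound_of_continuousOn hh2
  have hL0 : 0 ≤ L := (norm_nonneg _).trans (hL z₀ (mem_closedBall_self (by linarith)))
  have hlip : ∀ z ∈ closedBall z₀ (ρ / 2), ∀ w ∈ closedBall z₀ (ρ / 2),
      ‖h z - h w‖ ≤ L * ‖z - w‖ := fun z hz w hw =>
    Convex.norm_image_sub_le_of_norm_fderiv_le (𝕜 := ℂ)
      (fun x hx => (hh.differentiableAt (isOpen_ball.mem_nhds (hsub hx))))
      hL (convex_closedBall z₀ (ρ / 2)) hw hz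
  refine ⟨L * ρ ^ (1 / 2 : ℝ) + (8 + 2 * ρ ^ 2) * M, by positivity, fun z hz w hw => ?_⟩
  have h1 := cauchyT_holder hρ.le hm hM hFs z w
  have h2 := hlip z hz w hw
  have hd : ‖z - w‖ ≤ ρ := by
    rw [← dist_eq_norm]
    calc dist z w ≤ dist z z₀ + dist w z₀ := dist_triangle_right _ _ _
      _ ≤ ρ / 2 + ρ / 2 := add_le_add hz hw
      _ = ρ := by ring
  have h3 : ‖z - w‖ ≤ ρ ^ (1 / 2 : ℝ) * ‖z - w‖ ^ (1 / 2 : ℝ) := by
    rw [← Real.mul_rpow hρ.le (norm_nonneg _), ← Real.sqrt_eq_rpow]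
    apply Real.le_sqrt_of_sq_le
    nlinarith [norm_nonneg (z - w)]
  rw [hu z (hsub hz), hu w (hsub hw), add_sub_add_comm]
  calc _ ≤ ‖h z - h w‖ + ‖cauchyT ((ball z₀ ρ).indicator f) z
          - cauchyT ((ball z₀ ρ).indicator f) w‖ := norm_add_le _ _
    _ ≤ L * (ρ ^ (1 / 2 : ℝ) * ‖z - w‖ ^ (1 / 2 : ℝ))
          + (8 + 2 * ρ ^ 2) * M * ‖z - w‖ ^ (1 / 2 : ℝ) := by
        refine add_le_add (h2.trans ?_) h1
        gcongr
    _ = _ := by ring

end Reg1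

section
variable {V : Type*} [NormedAddCommGroup V] [NormedSpace ℂ V] [CompleteSpace V]

namespace Reg1

theorem at_point {Ω : Set ℂ} {Q : V → V} (hQ : ContDiff ℝ 1 Q)
    {u : ℂ → V} (hu : LR Ω Q u) {z₀ : ℂ} (hz₀ : z₀ ∈ Ω) :
    ContDiffAt ℝ 1 u z₀ ∧ dbar u z₀ = Q (u z₀) := by
  obtain ⟨hcont, hrep⟩ := hu
  obtain ⟨ρ, hρ, hsub, h, hh, hrepr⟩ := hrep z₀ hz₀
  have hf : ContinuousOn (fun ζ => Q (u ζ)) (closedBall z₀ ρ) :=
    hQ.continuous.comp_continuousOn (hcont.mono hsub)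
  obtain ⟨K, hK0, hK⟩ := holder hρ hf hh hrepr
  obtain ⟨hm, M, hM0, hM⟩ := indicator_facts hf
  -- local Lipschitz bound for `Q`
  obtain ⟨KQ, t, ht, hlip⟩ := hQ.contDiffAt (x := u z₀) |>.exists_lipschitzOnWith
  have hcz : ContinuousAt u z₀ :=
    (hcont.mono hsub).continuousAt (closedBall_mem_nhds z₀ hρ)
  obtain ⟨δ, hδ, hδt⟩ := Metric.mem_nhds_iff.1 (hcz.preimage_mem_nhds ht)
  set ρ₁ := min δ (ρ / 2) with hρ₁
  have hρ₁0 : 0 < ρ₁ := lt_min hδ (by linarith)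
  have hρ₁2 : ρ₁ ≤ ρ / 2 := min_le_right _ _
  have hfH : ∀ z ∈ ball z₀ ρ₁, ∀ w ∈ ball z₀ ρ₁,
      ‖Q (u z) - Q (u w)‖ ≤ KQ * K * ‖z - w‖ ^ (1 / 2 : ℝ) := by
    intro z hz w hw
    have h1 : u z ∈ t := hδt (ball_subset_ball (min_le_left _ _) hz)
    have h2 : u w ∈ t := hδt (ball_subset_ball (min_le_left _ _) hw)
    have h3 := hlip.norm_sub_le h1 h2
    have hz' : z ∈ closedBall z₀ (ρ / 2) := (ball_subset_closedBall.trans
      (closedBall_subset_closedBall hρ₁2)) hz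
    have hw' : w ∈ closedBall z₀ (ρ / 2) := (ball_subset_closedBall.trans
      (closedBall_subset_closedBall hρ₁2)) hw
    calc ‖Q (u z) - Q (u w)‖ ≤ KQ * ‖u z - u w‖ := h3
      _ ≤ KQ * (K * ‖z - w‖ ^ (1 / 2 : ℝ)) := by gcongr; exact hK z hz' w hw'
      _ = _ := by ring
  -- the cut-off
  let χ : ContDiffBump z₀ := ⟨ρ₁ / 4, ρ₁ / 2, by linarith, by linarith⟩
  have hχ1 : ∀ z ∈ ball z₀ (ρ₁ / 4), χ z = 1 := fun z hz =>
    χ.one_of_mem_closedBall (ball_subset_closedBall hz)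
  have hχs : ∀ z ∉ ball z₀ ρ₁, χ z = 0 := fun z hz => by
    apply χ.zero_of_le_dist
    have h1 : ρ₁ ≤ dist z z₀ := not_lt.1 hz
    show ρ₁ / 2 ≤ dist z z₀
    linarith
  obtain ⟨Lχ, hLχ⟩ := ContDiff.lipschitzWith_of_hasCompactSupport (𝕂 := ℝ) χ.hasCompactSupport
    (χ.contDiff (n := 1)) (by norm_num)
  obtain ⟨H, hH, hHu⟩ := split (χ := fun z => χ z) (ρ' := ρ₁ / 4) (by linarith) (by linarith)
    hf hh hrepr χ.continuous (fun z => χ.nonneg) (fun z => χ.le_one) hχ1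
  set F := (ball z₀ ρ).indicator (fun ζ => Q (u ζ)) with hF
  have hFeq : ∀ z ∈ ball z₀ ρ₁, F z = Q (u z) := fun z hz =>
    indicator_of_mem (ball_subset_ball (by linarith) hz) _
  have hχd : ∀ z w, |χ z - χ w| ≤ (Lχ : ℝ) ^ (1 / 2 : ℝ) * ‖z - w‖ ^ (1 / 2 : ℝ) := by
    intro z w
    refine abs_le_sqrt_of (abs_nonneg _) ?_ Lχ.2 (norm_nonneg _) ?_
    · rw [abs_le]
      constructor <;> linarith [χ.nonneg (x := z), χ.nonneg (x := w), χ.le_one (x := z),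
        χ.le_one (x := w)]
    · have := hLχ.norm_sub_le z w
      rwa [Real.norm_eq_abs] at this
  -- the cut-off function is globally Hoelder
  have hg : ∀ z w, ‖χ z • F z - χ w • F w‖ ≤
      (KQ * K + M * (Lχ : ℝ) ^ (1 / 2 : ℝ)) * ‖z - w‖ ^ (1 / 2 : ℝ) := by
    intro z w
    have hp : 0 ≤ ‖z - w‖ ^ (1 / 2 : ℝ) := by positivity
    have hKK : (0 : ℝ) ≤ KQ * K := mul_nonneg KQ.2 hK0
    have hLL : (0 : ℝ) ≤ (Lχ : ℝ) ^ (1 / 2 : ℝ) := by positivity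
    have e1 : χ z • F z - χ w • F w = χ w • (F z - F w) + (χ z - χ w) • F z := by
      rw [smul_sub, sub_smul]; abel
    have e2 : χ z • F z - χ w • F w = χ z • (F z - F w) + (χ z - χ w) • F w := by
      rw [smul_sub, sub_smul]; abel
    have t2 : ∀ y, ‖(χ z - χ w) • F y‖ ≤
        M * (Lχ : ℝ) ^ (1 / 2 : ℝ) * ‖z - w‖ ^ (1 / 2 : ℝ) := by
      intro y
      rw [norm_smul, Real.norm_eq_abs]
      calc |χ z - χ w| * ‖F y‖ ≤ ((Lχ : ℝ) ^ (1 / 2 : ℝ) * ‖z - w‖ ^ (1 / 2 : ℝ)) * M :=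
            mul_le_mul (hχd z w) (hM y) (norm_nonneg _) (by positivity)
        _ = _ := by ring
    by_cases hz : z ∈ ball z₀ ρ₁
    · by_cases hw : w ∈ ball z₀ ρ₁
      · rw [e1]
        calc _ ≤ ‖χ w • (F z - F w)‖ + ‖(χ z - χ w) • F z‖ := norm_add_le _ _
          _ ≤ KQ * K * ‖z - w‖ ^ (1 / 2 : ℝ)
                + M * (Lχ : ℝ) ^ (1 / 2 : ℝ) * ‖z - w‖ ^ (1 / 2 : ℝ) := by
              refine add_le_add ?_ (t2 z)
              rw [norm_smul, Real.norm_eq_abs, abs_of_nonneg χ.nonneg, hFeq z hz, hFeq w hw]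
              calc χ w * ‖Q (u z) - Q (u w)‖ ≤ 1 * (KQ * K * ‖z - w‖ ^ (1 / 2 : ℝ)) :=
                    mul_le_mul χ.le_one (hfH z hz w hw) (norm_nonneg _) zero_le_one
                _ = _ := one_mul _
          _ = _ := by ring
      · rw [e1, hχs w hw, zero_smul, zero_add]
        have := t2 z
        rw [hχs w hw] at this
        refine this.trans ?_
        nlinarith [mul_nonneg hKK hp]
    · rw [e2, hχs z hz, zero_smul, zero_add]
      have := t2 w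
      rw [hχs z hz] at this
      refine this.trans ?_
      nlinarith [mul_nonneg hKK hp]
  have hgs : ∀ ζ ∉ closedBall z₀ ρ₁, χ ζ • F ζ = 0 := fun ζ hζ => by
    rw [hχs ζ (fun h => hζ (ball_subset_closedBall h)), zero_smul]
  obtain ⟨hC1, hC2, -⟩ := cauchyT_C1 hρ₁0 hg hgs
  have hz₀' : z₀ ∈ ball z₀ (ρ₁ / 4) := mem_ball_self (by linarith)
  have hnhds : ball z₀ (ρ₁ / 4) ∈ 𝓝 z₀ := isOpen_ball.mem_nhds hz₀'
  have heq : u =ᶠ[𝓝 z₀] fun z => H z + cauchyT (fun ζ => χ ζ • F ζ) z :=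
    Filter.eventually_of_mem hnhds hHu
  have hHd : DifferentiableAt ℂ H z₀ := hH.differentiableAt hnhds
  have hHC : ContDiffAt ℝ 1 H z₀ :=
    ((hH.contDiffOn isOpen_ball).contDiffAt hnhds).restrict_scalars ℝ
  refine ⟨(hHC.add hC1.contDiffAt).congr_of_eventuallyEq heq, ?_⟩
  have hfd : fderiv ℝ u z₀ = fderiv ℝ H z₀ + fderiv ℝ (cauchyT (fun ζ => χ ζ • F ζ)) z₀ := by
    rw [heq.fderiv_eq]
    exact fderiv_add (hHC.differentiableAt (by norm_num))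
      (hC1.contDiffAt.differentiableAt (by norm_num))
  have hd : dbar u z₀ = dbar H z₀ + dbar (cauchyT (fun ζ => χ ζ • F ζ)) z₀ := by
    simp only [dbar, hfd, add_apply, smul_add]
    abel
  rw [hd, dbar_eq_zero hHd, zero_add, hC2 z₀, hχ1 z₀ hz₀', one_smul,
    hFeq z₀ (mem_ball_self hρ₁0)]

end Reg1

theorem LR.contDiffOn_one {Ω : Set ℂ} (hΩ : IsOpen Ω) {Q : V → V} (hQ : ContDiff ℝ 1 Q)
    {u : ℂ → V} (hu : LR Ω Q u) :
    ContDiffOn ℝ 1 u Ω ∧ ∀ z ∈ Ω, dbar u z = Q (u z) :=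
  ⟨fun _ hz => (Reg1.at_point hQ hu hz).1.contDiffWithinAt, fun _ hz => (Reg1.at_point hQ hu hz).2⟩

end

end Pool.Agent.MP_49383f_gt
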