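import Pool.Agent.MP_49383f_gt.Reg2

/-!
# MP_49383f_gt, module M09: smoothness
-/

namespace Pool.Agent.MP_49383f_gt

open scoped ContDiff ComplexConjugate Topology
open MeasureTheory Metric Set

namespace Reg3

theorem contDiff_Qext {V : Type} [NormedAddCommGroup V] [NormedSpace ℂ V]
    {Q : V → V} (hQ : ContDiff ℝ ∞ Q) : ContDiff ℝ ∞ (Qext Q) := by
  have hD : ContDiff ℝ ∞ (fderiv ℝ Q) := hQ.fderiv_right (m := ∞) (by simp)
  unfold Qext
  exact (hQ.comp contDiff_fst).prodMk
    (((hD.comp contDiff_fst).clm_apply (contDiff_fst.comp contDiff_snd)).prodMk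
      ((hD.comp contDiff_fst).clm_apply (contDiff_snd.comp contDiff_snd)))

theorem main (n : ℕ) : ∀ {V : Type} [NormedAddCommGroup V] [NormedSpace ℂ V] [CompleteSpace V]
    {Ω : Set ℂ} (_ : IsOpen Ω) {Q : V → V} (_ : ContDiff ℝ ∞ Q)
    {u : ℂ → V} (_ : LR Ω Q u), ContDiffOn ℝ n u Ω := by
  induction n with
  | zero =>
    intro V _ _ _ Ω hΩ Q hQ u hu
    rw [CharP.cast_eq_zero, contDiffOn_zero]
    exact hu.1
  | succ n ih =>
    intro V _ _ _ Ω hΩ Q hQ u hu
    have h1 : ContDiffOn ℝ 1 u Ω := (hu.contDiffOn_one hΩ (hQ.of_le (by simp))).1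
    have h2 := ih hΩ (contDiff_Qext hQ) (hu.deriv hΩ (by
      exact_mod_cast contDiff_infty.1 hQ 2))
    have h3 : ContDiffOn ℝ n (fun z => fderiv ℝ u z 1) Ω :=
      (contDiff_fst.comp contDiff_snd).comp_contDiffOn h2
    have h4 : ContDiffOn ℝ n (fun z => fderiv ℝ u z Complex.I) Ω :=
      (contDiff_snd.comp contDiff_snd).comp_contDiffOn h2
    have h5 : ContDiffOn ℝ n (fderiv ℝ u) Ω := by
      have e : fderiv ℝ u = fun z => Complex.reCLM.smulRight (fderiv ℝ u z 1)
          + Complex.imCLM.smulRight (fderiv ℝ u z Complex.I) := by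
        funext z
        refine ContinuousLinearMap.ext fun w => ?_
        have hw : w = w.re • (1 : ℂ) + w.im • Complex.I := by
          apply Complex.ext <;> simp
        calc fderiv ℝ u z w = fderiv ℝ u z (w.re • (1 : ℂ) + w.im • Complex.I) := by rw [← hw]
          _ = w.re • fderiv ℝ u z 1 + w.im • fderiv ℝ u z Complex.I := by
            rw [map_add, map_smul, map_smul]
          _ = _ := by simp
      rw [e]
      have l1 : ContDiff ℝ n (fun v : V => Complex.reCLM.smulRight v) :=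
        (ContinuousLinearMap.smulRightL ℝ ℂ V Complex.reCLM).contDiff
      have l2 : ContDiff ℝ n (fun v : V => Complex.imCLM.smulRight v) :=
        (ContinuousLinearMap.smulRightL ℝ ℂ V Complex.imCLM).contDiff
      exact (l1.comp_contDiffOn h3).add (l2.comp_contDiffOn h4)
    push_cast
    rw [contDiffOn_succ_iff_fderiv_of_isOpen hΩ]
    refine ⟨h1.differentiableOn (by norm_num), fun h => ?_, h5⟩
    exact absurd h (by simp)

end Reg3

theorem LR.contDiffOn {V : Type} [NormedAddCommGroup V] [NormedSpace ℂ V] [CompleteSpace V]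
    {Ω : Set ℂ} (hΩ : IsOpen Ω) {Q : V → V} (hQ : ContDiff ℝ ∞ Q)
    {u : ℂ → V} (hu : LR Ω Q u) : ContDiffOn ℝ ∞ u Ω :=
  contDiffOn_infty.2 fun n => Reg3.main n hΩ hQ hu

end Pool.Agent.MP_49383f_gt
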