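import Pool.Agent.MP_49383f_gt.Basic
import Pool.Agent.MP_49383f_gt.Glue
import Pool.Agent.MP_49383f_gt.Reg1
import Pool.Agent.MP_49383f_gt.Reg3
import Pool.Agent.MP_49383f_gt.LRnear
import Pool.Agent.MP_49383f_gt.LRint

/-!
# MP_49383f_gt, module M21: smoothness of the spinor
-/

namespace Pool.Agent.MP_49383f_gt

open scoped ContDiff ComplexConjugate
open MeasureTheory Metric Set

namespace SolSmooth

lemma differentiable_EE (ε c : ℝ) : Differentiable ℂ (EE ε c) := by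
  unfold EE
  fun_prop

lemma sol_LR {ε : ℝ} (hε : 0 < ε) (hε' : ε ≤ 1 / 10) {c : ℝ}
    {h p q : ℂ → ℂ × ℂ} (s : Sol ε (EE ε c) aa bb h p q) :
    LR (Om0 ε) (mu ε) (PHI (ε ^ 2) aa bb h p q) := by
  refine ⟨sol_continuousOn hε hε' norm_aa_sub_bb s, fun z₀ hz₀ => ?_⟩
  have hr : 0 < ε ^ 2 := by positivity
  by_cases h1 : ‖z₀ - aa‖ ≤ ε ^ 2
  · exact LRat_near hε hε' norm_aa_sub_bb (by rw [norm_aa]; norm_num) (by rw [norm_bb]; norm_num)
      (differentiable_EE ε c) s hz₀.2.1 (by linarith)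
  by_cases h2 : ‖z₀ - bb‖ ≤ ε ^ 2
  · have := LRat_near hε hε' norm_bb_sub_aa (by rw [norm_bb]; norm_num)
      (by rw [norm_aa]; norm_num) (differentiable_EE ε c) s.swap hz₀.2.2 (by linarith)
    rw [PHI_swap] at this
    have e : {z : ℂ | ‖z‖ < 4 ∧ ε ^ 2 / 8 < ‖z - bb‖ ∧ ε ^ 2 / 8 < ‖z - aa‖} = Om0 ε := by
      ext z; simp only [Om0, mem_ofPred_eq]; tauto
    rwa [e] at this
  · exact LRat_int hε hε' norm_aa_sub_bb (differentiable_EE ε c) s hz₀.1 (by linarith)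
      (by linarith)

end SolSmooth

theorem sol_smooth {ε : ℝ} (hε : 0 < ε) (hε' : ε ≤ 1 / 10) {c : ℝ}
    {h p q : ℂ → ℂ × ℂ} (s : Sol ε (EE ε c) aa bb h p q) :
    ContDiffOn ℝ ∞ (PHI (ε ^ 2) aa bb h p q) (Om0 ε) ∧
      ∀ z ∈ Om0 ε, dbar (PHI (ε ^ 2) aa bb h p q) z = mu ε (PHI (ε ^ 2) aa bb h p q z) :=
  ⟨LR.contDiffOn (isOpen_Om0 ε) (contDiff_mu ε) (SolSmooth.sol_LR hε hε' s),
    (LR.contDiffOn_one (isOpen_Om0 ε) ((contDiff_mu ε).of_le (by exact_mod_cast le_top))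
      (SolSmooth.sol_LR hε hε' s)).2⟩

end Pool.Agent.MP_49383f_gt
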