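import Pool.Agent.MP_49383f_gt.SolDer
import Pool.Agent.MP_49383f_gt.SolSmooth
import Pool.Agent.MP_49383f_gt.SolSymm
import Pool.Agent.MP_49383f_gt.ExistsC

/-!
# MP_49383f_gt, module M23 : the analysis part is complete
-/

namespace Pool.Agent.MP_49383f_gt

open scoped ContDiff ComplexConjugate
open MeasureTheory Metric Set

/-! ### M23 (file CoreEx.lean): the analysis part is complete -/

namespace CoreEx

theorem cconj_add (x y : ℂ × ℂ) : cconj (x + y) = cconj x + cconj y := by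
  ext <;> simp [cconj]

theorem cconj_smul (c : ℂ) (x : ℂ × ℂ) : cconj (c • x) = conj c • cconj x := by
  ext <;> simp [cconj]

theorem cconj_JJ (x : ℂ × ℂ) : cconj (JJ x) = JJ (cconj x) := by
  ext <;> simp [cconj, JJ]

theorem norm_sg_le {ε : ℝ} (hε : 0 < ε) (hε' : ε ≤ 1 / 10) {a b z : ℂ}
    (h : ε ^ 2 / 8 < ‖z - a‖) : sg (ε ^ 2) a b z ∈ closedBall b (1 / 4) := by
  rw [mem_closedBall, dist_eq_norm, norm_sg_sub]
  have h2 : 0 < ε ^ 2 := by positivity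
  have h3 : 0 < ‖z - a‖ := by linarith
  rw [div_le_iff₀ h3]
  have h4 : ε ^ 2 ≤ 1 / 100 := by nlinarith
  nlinarith

theorem PHI_conj {ε : ℝ} (hε : 0 < ε) (hε' : ε ≤ 1 / 10) {h p q : ℂ → ℂ × ℂ}
    (h1 : ∀ z ∈ closedBall (0 : ℂ) 4, h (conj z) = cconj (h z))
    (h2 : ∀ z ∈ closedBall bb (1 / 4), p (conj z) = cconj (p z))
    (h3 : ∀ z ∈ closedBall aa (1 / 4), q (conj z) = cconj (q z)) {z : ℂ} (hz : z ∈ Om0 ε) :
    PHI (ε ^ 2) aa bb h p q (conj z) = cconj (PHI (ε ^ 2) aa bb h p q z) := by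
  obtain ⟨z0, za, zb⟩ := hz
  rw [PHI, PHI, sg_conj _ conj_aa conj_bb, sg_conj _ conj_bb conj_aa, h1 z (by simpa using z0.le),
    h2 _ (norm_sg_le hε hε' za), h3 _ (norm_sg_le hε hε' zb), cconj_add, cconj_add, cconj_smul,
    cconj_smul, cconj_JJ, cconj_JJ]
  simp

end CoreEx

open CoreEx in
theorem exists_core : ∃ C > 0, ∃ ε₀ > 0, ∀ ε : ℝ, 0 < ε → ε < ε₀ →
    ∃ φ₁ φ₂ : ℂ → ℂ, Core C ε φ₁ φ₂ := by
  obtain ⟨C1, hC1, e1, he1, exc⟩ := exists_c
  obtain ⟨C2, hC2, e2, he2, phe⟩ := phi_est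
  obtain ⟨C3, hC3, e3, he3, sde⟩ := sol_der
  obtain ⟨e4, he4, ssy⟩ := sol_symm
  refine ⟨4 * C1 + C2 + C3, by positivity, min (min (min e1 e2) (min e3 e4)) (1 / 10),
    by positivity, ?_⟩
  intro ε hε hlt
  simp only [lt_min_iff] at hlt
  obtain ⟨⟨⟨l1, l2⟩, l3, l4⟩, l5⟩ := hlt
  have hε' : ε ≤ 1 / 10 := l5.le
  obtain ⟨c, hc, hcI, h, p, q, s, hper⟩ := exc ε hε l1
  have est := phe ε hε l2 c hcI h p q s
  have der := sde ε hε l3 c hcI h p q s
  obtain ⟨sy1, sy2, sy3⟩ := ssy ε hε l4 c hcI h p q s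
  obtain ⟨sm, pde⟩ := sol_smooth hε hε' s
  have e2pos : 0 < ε ^ 2 := by positivity
  have e2small : ε ^ 2 ≤ 1 / 100 := by nlinarith
  set φ := PHI (ε ^ 2) aa bb h p q with hφ
  have hdiff : ∀ z ∈ Om0 ε, DifferentiableAt ℝ φ z := fun z hz =>
    (sm.contDiffAt ((isOpen_Om0 ε).mem_nhds hz)).differentiableAt (by simp)
  have hGG : ∀ z : ℂ, ‖z‖ ≤ 39 / 10 → ε ^ 2 ≤ ‖z - aa‖ → ε ^ 2 ≤ ‖z - bb‖ →
      z ∈ GG (ε ^ 2) aa bb := fun z h1 h2 h3 => ⟨by linarith, h2, h3⟩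
  have hfst : ∀ z ∈ Om0 ε, ∀ u, fderiv ℝ (fun z => (φ z).1) z u = (fderiv ℝ φ z u).1 := by
    intro z hz u
    have := (ContinuousLinearMap.fst ℝ ℂ ℂ).hasFDerivAt.comp z (hdiff z hz).hasFDerivAt
    rw [show (fun z => (φ z).1) = (ContinuousLinearMap.fst ℝ ℂ ℂ) ∘ φ from rfl, this.fderiv]
    rfl
  have hsnd : ∀ z ∈ Om0 ε, ∀ u, fderiv ℝ (fun z => (φ z).2) z u = (fderiv ℝ φ z u).2 := by
    intro z hz u
    have := (ContinuousLinearMap.snd ℝ ℂ ℂ).hasFDerivAt.comp z (hdiff z hz).hasFDerivAt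
    rw [show (fun z => (φ z).2) = (ContinuousLinearMap.snd ℝ ℂ ℂ) ∘ φ from rfl, this.fderiv]
    rfl
  refine ⟨fun z => (φ z).1, fun z => (φ z).2, ?_⟩
  constructor
  · exact contDiff_fst.comp_contDiffOn sm
  · exact contDiff_snd.comp_contDiffOn sm
  · intro z hz
    have := congrArg Prod.fst (pde z hz)
    rw [dbar] at this ⊢
    rw [hfst z hz, hfst z hz]
    simpa [mu, mul_add] using this
  · intro z hz
    have := congrArg Prod.snd (pde z hz)
    rw [dbar] at this ⊢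
    rw [hsnd z hz, hsnd z hz]
    simpa [mu, mul_add] using this
  · intro z h1 h2
    have := congrArg Prod.fst (sol_glue hε hε' norm_aa_sub_bb s (z := z) (by nlinarith)
      (by nlinarith))
    simpa using this
  · intro z h1 h2
    have := congrArg Prod.snd (sol_glue hε hε' norm_aa_sub_bb s (z := z) (by nlinarith)
      (by nlinarith))
    simpa using this
  · intro z hz
    rw [hφ, PHI_conj hε hε' sy1 sy2 sy3 hz]; rfl
  · intro z hz
    rw [hφ, PHI_conj hε hε' sy1 sy2 sy3 hz]; rfl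
  · intro z h1 h2 h3
    refine ((est z (hGG z h1 h2 h3)).1).trans ?_
    gcongr
    linarith
  · intro z h1 h2 h3
    have h4 := (est z (hGG z h1 h2 h3)).2
    have h5 : (φ z).2 - (ε * qq z - ((ε ^ 2 : ℝ) : ℂ) / (z - aa) - ((ε ^ 2 : ℝ) : ℂ) / (z - bb))
        = ((φ z).2 - (ε * (qq z + c * z) - ((ε ^ 2 : ℝ) : ℂ) / (z - aa)
        - ((ε ^ 2 : ℝ) : ℂ) / (z - bb))) + ((ε * c : ℝ) : ℂ) * z := by
      push_cast; ring
    rw [h5]
    refine (norm_add_le _ _).trans ?_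
    have h6 : ‖((ε * c : ℝ) : ℂ) * z‖ ≤ 4 * C1 * ε ^ 2 := by
      rw [norm_mul, Complex.norm_real, Real.norm_eq_abs, abs_mul, abs_of_pos hε]
      calc ε * |c| * ‖z‖ ≤ ε * (C1 * ε) * 4 := by gcongr; linarith
        _ = 4 * C1 * ε ^ 2 := by ring
    nlinarith
  · intro z h1 h2 h3
    refine ((der z h1 h2 h3).1).trans ?_
    gcongr
    linarith
  · intro z h1 h2 h3
    have hz : z ∈ Om0 ε := ⟨by linarith, by linarith, by linarith⟩
    have h4 := (der z h1 h2 h3).2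
    have hq : Differentiable ℝ qq := by
      unfold qq
      have : Differentiable ℝ (fun z : ℂ => conj z) := Complex.conjCLE.differentiable
      fun_prop
    have h5 : (fun w => (φ w).2 - ε * qq w) = fun w => ((φ w).2 - ε * (qq w + c * w))
        + ((ε * c : ℝ) : ℂ) * w := by
      funext w; push_cast; ring
    have hs2 : DifferentiableAt ℝ (fun w => (φ w).2) z := (hdiff z hz).snd
    have h6 : DifferentiableAt ℝ (fun w => (φ w).2 - ε * (qq w + c * w)) z := by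
      have := hq z
      fun_prop
    have h7 : HasFDerivAt (fun w : ℂ => ((ε * c : ℝ) : ℂ) * w)
        (((ε * c : ℝ) : ℂ) • ContinuousLinearMap.id ℝ ℂ) z := by
      exact (((ε * c : ℝ) : ℂ) • ContinuousLinearMap.id ℝ ℂ).hasFDerivAt
    rw [h5, (h6.hasFDerivAt.fun_add h7).fderiv]
    refine (norm_add_le _ _).trans ?_
    have h8 : ‖((ε * c : ℝ) : ℂ) • ContinuousLinearMap.id ℝ ℂ‖ ≤ C1 * ε ^ 2 := by
      rw [norm_smul, Complex.norm_real, Real.norm_eq_abs, abs_mul, abs_of_pos hε]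
      calc ε * |c| * ‖ContinuousLinearMap.id ℝ ℂ‖ ≤ ε * (C1 * ε) * 1 := by
            gcongr
            exact ContinuousLinearMap.norm_id_le
        _ = C1 * ε ^ 2 := by ring
    nlinarith
  · exact sub_eq_zero.1 hper

end Pool.Agent.MP_49383f_gt
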