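import Pool.Agent.MP_49383f_gt.Basic

/-!
# MP_49383f_gt, module G04: a Lipschitz estimate on the rectangle minus two small discs
-/

namespace Pool.Agent.MP_49383f_gt

open scoped ContDiff ComplexConjugate
open MeasureTheory Metric Set

namespace PathLip

variable {F : Type*} [NormedAddCommGroup F] [NormedSpace ℝ F]

/-- the estimate along an arc of a circle -/
theorem arc {p u v : ℂ} {ρ κ : ℝ} (hρ : 0 < ρ) (hu : ‖u - p‖ = ρ) (hv : ‖v - p‖ = ρ)
    {f : ℂ → F} (hf : ∀ z, ‖z - p‖ = ρ → DifferentiableAt ℝ f z)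
    (hκ : ∀ z, ‖z - p‖ = ρ → ‖fderiv ℝ f z‖ ≤ κ) :
    ‖f u - f v‖ ≤ 2 * κ * ‖u - v‖ := by
  have hu0 : u - p ≠ 0 := by
    intro h; rw [h, norm_zero] at hu; linarith
  have hκ0 : 0 ≤ κ := (norm_nonneg _).trans (hκ u hu)
  set δ : ℝ := Complex.arg ((v - p) / (u - p)) with hδ
  have e1 : (v - p) / (u - p) = Complex.exp (δ * Complex.I) := by
    have h := Complex.norm_mul_exp_arg_mul_I ((v - p) / (u - p))
    rw [norm_div, hu, hv, div_self hρ.ne'] at h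
    rw [← h]; simp [hδ]
  have e2 : v - p = (u - p) * Complex.exp (δ * Complex.I) := by
    rw [← e1]; field_simp
  set c : ℝ → ℂ := fun θ => p + (u - p) * Complex.exp (θ * Complex.I) with hc
  have hcn : ∀ θ, ‖c θ - p‖ = ρ := by
    intro θ
    rw [hc]
    simp only [add_sub_cancel_left, norm_mul, Complex.norm_exp_ofReal_mul_I, mul_one, hu]
  have hcd : ∀ θ : ℝ, HasDerivAt c ((u - p) * (Complex.exp (θ * Complex.I) * Complex.I)) θ := by
    intro θ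
    have h1 : HasDerivAt (fun x : ℝ => (x : ℂ) * Complex.I) Complex.I θ := by
      simpa using (Complex.ofRealCLM.hasDerivAt (x := θ)).mul_const Complex.I
    exact (h1.cexp.const_mul (u - p)).const_add p
  have hgd : ∀ θ : ℝ, HasDerivAt (fun x => f (c x))
      (fderiv ℝ f (c θ) ((u - p) * (Complex.exp (θ * Complex.I) * Complex.I))) θ := fun θ =>
    (hf _ (hcn θ)).hasFDerivAt.comp_hasDerivAt θ (hcd θ)
  have hb : ‖f (c δ) - f (c 0)‖ ≤ (κ * ρ) * ‖δ - 0‖ := by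
    refine Convex.norm_image_sub_le_of_norm_hasDerivWithin_le (f := fun x => f (c x))
      (s := (univ : Set ℝ)) (fun x _ => (hgd x).hasDerivWithinAt) (fun x _ => ?_) convex_univ
      (mem_univ _) (mem_univ _)
    refine (ContinuousLinearMap.le_opNorm _ _).trans ?_
    have h2 : ‖(u - p) * (Complex.exp (x * Complex.I) * Complex.I)‖ = ρ := by
      rw [norm_mul, norm_mul, Complex.norm_exp_ofReal_mul_I, Complex.norm_I, hu]; ring
    rw [h2]
    exact mul_le_mul_of_nonneg_right (hκ _ (hcn x)) hρ.le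
  have c0 : c 0 = u := by simp [hc]
  have c1 : c δ = v := by
    rw [hc]; simp only; rw [← e2]; ring
  rw [c0, c1, sub_zero, norm_sub_rev, Real.norm_eq_abs] at hb
  -- the chord
  have hch : ‖u - v‖ = ρ * ‖Complex.exp (Complex.I * δ) - 1‖ := by
    have : v - u = (u - p) * (Complex.exp (Complex.I * δ) - 1) := by
      rw [mul_comm Complex.I]
      linear_combination e2
    rw [norm_sub_rev, this, norm_mul, hu]
  have hpi := Real.pi_pos
  have hpi4 := Real.pi_le_four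
  have habs : |δ| ≤ Real.pi := Complex.abs_arg_le_pi _
  have hsin : 2 / Real.pi * (|δ| / 2) ≤ Real.sin (|δ| / 2) :=
    Real.mul_le_sin (by positivity) (by linarith)
  have hsin2 : ‖Complex.exp (Complex.I * δ) - 1‖ = 2 * Real.sin (|δ| / 2) := by
    rw [Complex.norm_exp_I_mul_ofReal_sub_one, Real.norm_eq_abs, abs_mul, abs_two]
    congr 1
    rcases abs_cases δ with ⟨h, h'⟩ | ⟨h, h'⟩
    · rw [h, abs_of_nonneg]
      exact Real.sin_nonneg_of_nonneg_of_le_pi (by linarith) (by linarith)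
    · rw [h, show -δ / 2 = -(δ / 2) by ring, Real.sin_neg, abs_of_nonpos]
      exact Real.sin_nonpos_of_nonpos_of_neg_pi_le (by linarith) (by linarith)
  have h5 : ρ * |δ| ≤ 2 * ‖u - v‖ := by
    rw [hch, hsin2]
    have h6 : |δ| ≤ 4 * Real.sin (|δ| / 2) := by
      have h7 : |δ| = 4 * (2 / 4 * (|δ| / 2)) := by ring
      have h8 : 2 / 4 * (|δ| / 2) ≤ 2 / Real.pi * (|δ| / 2) :=
        mul_le_mul_of_nonneg_right (div_le_div_of_nonneg_left (by norm_num) hpi hpi4)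
          (by positivity)
      linarith
    nlinarith
  calc ‖f u - f v‖ ≤ κ * ρ * |δ| := hb
    _ = κ * (ρ * |δ|) := by ring
    _ ≤ κ * (2 * ‖u - v‖) := mul_le_mul_of_nonneg_left h5 hκ0
    _ = 2 * κ * ‖u - v‖ := by ring

/-- the estimate along a segment -/
theorem seg {κ : ℝ} {f : ℂ → F} {z z' : ℂ}
    (hf : ∀ w ∈ segment ℝ z z', DifferentiableAt ℝ f w)
    (hκ : ∀ w ∈ segment ℝ z z', ‖fderiv ℝ f w‖ ≤ κ) : ‖f z - f z'‖ ≤ κ * ‖z - z'‖ :=
  Convex.norm_image_sub_le_of_norm_fderiv_le hf hκ (convex_segment z z')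
    (right_mem_segment ℝ z z') (left_mem_segment ℝ z z')

/-- radial segments -/
theorem radial {p z w : ℂ} {ρ : ℝ} (hρ : 0 < ρ) (hz : ρ ≤ ‖z - p‖)
    (hw : w ∈ segment ℝ z (p + ((ρ / ‖z - p‖ : ℝ) : ℂ) * (z - p))) : ρ ≤ ‖w - p‖ := by
  obtain ⟨s, t, hs, ht, hst, rfl⟩ := hw
  have hz0 : 0 < ‖z - p‖ := by linarith
  have e : s • z + t • (p + ((ρ / ‖z - p‖ : ℝ) : ℂ) * (z - p)) - p =
      ((s + t * (ρ / ‖z - p‖) : ℝ) : ℂ) * (z - p) := by
    have : (s : ℂ) + t = 1 := by exact_mod_cast hst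
    simp only [Complex.real_smul]
    push_cast
    linear_combination p * this
  rw [e, norm_mul, Complex.norm_real, Real.norm_eq_abs, abs_of_nonneg (by positivity)]
  have : (s + t * (ρ / ‖z - p‖)) * ‖z - p‖ = s * ‖z - p‖ + t * ρ := by
    field_simp
  rw [this]
  nlinarith

/-- one hole -/
theorem one_hole {p : ℂ} {ρ κ : ℝ} (hρ : 0 < ρ) {K : Set ℂ} (hK : Convex ℝ K)
    (hpK : closedBall p ρ ⊆ K) {f : ℂ → F}
    (hf : ∀ z ∈ K, ρ ≤ ‖z - p‖ → DifferentiableAt ℝ f z)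
    (hκ : ∀ z ∈ K, ρ ≤ ‖z - p‖ → ‖fderiv ℝ f z‖ ≤ κ)
    {z z' : ℂ} (hz : z ∈ K) (hz' : z' ∈ K) (h1 : ρ ≤ ‖z - p‖) (h1' : ρ ≤ ‖z' - p‖) :
    ‖f z - f z'‖ ≤ 5 * κ * ‖z - z'‖ := by
  have hκ0 : 0 ≤ κ := (norm_nonneg _).trans (hκ z hz h1)
  by_cases hseg : ∀ w ∈ segment ℝ z z', ρ ≤ ‖w - p‖
  · have hsub := hK.segment_subset hz hz'
    have := seg (fun w hw => hf w (hsub hw) (hseg w hw)) (fun w hw => hκ w (hsub hw) (hseg w hw))
    nlinarith [norm_nonneg (z - z')]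
  push Not at hseg
  obtain ⟨q, hq, hqp⟩ := hseg
  have hadd : ‖z - q‖ + ‖q - z'‖ = ‖z - z'‖ := by
    have := (mem_segment_iff_wbtw.1 hq).dist_add_dist
    simpa [dist_eq_norm] using this
  -- radial projections
  have key : ∀ x ∈ K, ρ ≤ ‖x - p‖ → ∃ u, ‖u - p‖ = ρ ∧ ‖x - u‖ ≤ ‖x - q‖ ∧
      ‖f x - f u‖ ≤ κ * ‖x - u‖ := by
    intro x hx hxp
    have hx0 : 0 < ‖x - p‖ := by linarith
    set u : ℂ := p + ((ρ / ‖x - p‖ : ℝ) : ℂ) * (x - p) with hu
    have hup : ‖u - p‖ = ρ := by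
      rw [hu, add_sub_cancel_left, norm_mul, Complex.norm_real, Real.norm_eq_abs,
        abs_of_nonneg (by positivity)]
      field_simp
    have huK : u ∈ K := hpK (by rw [mem_closedBall, dist_eq_norm, hup])
    refine ⟨u, hup, ?_, ?_⟩
    · have e : x - u = ((1 - ρ / ‖x - p‖ : ℝ) : ℂ) * (x - p) := by
        rw [hu]; push_cast; ring
      have h2 : ρ / ‖x - p‖ ≤ 1 := (div_le_one hx0).2 hxp
      rw [e, norm_mul, Complex.norm_real, Real.norm_eq_abs, abs_of_nonneg (by linarith)]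
      have h3 : (1 - ρ / ‖x - p‖) * ‖x - p‖ = ‖x - p‖ - ρ := by field_simp
      rw [h3]
      have h4 : ‖x - p‖ ≤ ‖x - q‖ + ‖q - p‖ := norm_sub_le_norm_sub_add_norm_sub x q p
      linarith
    · have hsub := hK.segment_subset hx huK
      exact seg (fun w hw => hf w (hsub hw) (radial hρ hxp hw))
        (fun w hw => hκ w (hsub hw) (radial hρ hxp hw))
  obtain ⟨u, hu1, hu2, hu3⟩ := key z hz h1
  obtain ⟨v, hv1, hv2, hv3⟩ := key z' hz' h1'
  have harc := arc (p := p) (u := u) (v := v) (κ := κ) hρ hu1 hv1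
    (fun w hw => hf w (hpK (by rw [mem_closedBall, dist_eq_norm, hw])) hw.ge)
    (fun w hw => hκ w (hpK (by rw [mem_closedBall, dist_eq_norm, hw])) hw.ge)
  have huv : ‖u - v‖ ≤ ‖z - u‖ + ‖z - z'‖ + ‖z' - v‖ := by
    have e : u - v = -(z - u) + (z - z') + (z' - v) := by ring
    rw [e]
    refine (norm_add_le _ _).trans ?_
    refine add_le_add_left ((norm_add_le _ _).trans ?_) _
    rw [norm_neg]
  rw [norm_sub_rev q z'] at hadd
  have h7 : ‖z - u‖ + ‖z' - v‖ ≤ ‖z - z'‖ := by linarith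
  have h8 : ‖f z - f z'‖ ≤ ‖f z - f u‖ + ‖f u - f v‖ + ‖f z' - f v‖ := by
    have e : f z - f z' = (f z - f u) + (f u - f v) + -(f z' - f v) := by abel
    rw [e]
    refine (norm_add_le _ _).trans ?_
    rw [norm_neg]
    exact add_le_add_left (norm_add_le _ _) _
  have h9 : κ * (‖z - u‖ + ‖z' - v‖) ≤ κ * ‖z - z'‖ := mul_le_mul_of_nonneg_left h7 hκ0
  have h10 : κ * ‖u - v‖ ≤ κ * (2 * ‖z - z'‖) :=
    mul_le_mul_of_nonneg_left (by linarith) hκ0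
  nlinarith

end PathLip

open PathLip in
theorem lip_rect {F : Type*} [NormedAddCommGroup F] [NormedSpace ℝ F]
    {ρ κ : ℝ} (hρ : 0 < ρ) (hρ' : ρ ≤ 1 / 20) {f : ℂ → F}
    (hf : ∀ z ∈ Rect, ρ ≤ ‖z - aa‖ → ρ ≤ ‖z - bb‖ → DifferentiableAt ℝ f z)
    (hκ : ∀ z ∈ Rect, ρ ≤ ‖z - aa‖ → ρ ≤ ‖z - bb‖ → ‖fderiv ℝ f z‖ ≤ κ)
    {z z' : ℂ} (hz : z ∈ Rect) (hz' : z' ∈ Rect) (h1 : ρ ≤ ‖z - aa‖) (h2 : ρ ≤ ‖z - bb‖)
    (h1' : ρ ≤ ‖z' - aa‖) (h2' : ρ ≤ ‖z' - bb‖) : ‖f z - f z'‖ ≤ 1000 * κ * ‖z - z'‖ := by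
  have hκ0 : 0 ≤ κ := (norm_nonneg _).trans (hκ z hz h1 h2)
  have reb : ∀ w : ℂ, |w.re - 3 / 2| ≤ ‖w - aa‖ := fun w => by
    simpa using Complex.abs_re_le_norm (w - aa)
  have reb' : ∀ w : ℂ, |w.re - 1 / 2| ≤ ‖w - bb‖ := fun w => by
    simpa using Complex.abs_re_le_norm (w - bb)
  have imb : ∀ w : ℂ, |w.im| ≤ ‖w - aa‖ := fun w => by
    simpa using Complex.abs_im_le_norm (w - aa)
  have imb' : ∀ w : ℂ, |w.im| ≤ ‖w - bb‖ := fun w => by
    simpa using Complex.abs_im_le_norm (w - bb)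
  have far : ∀ w : ℂ, 1 ≤ w.re → ρ ≤ ‖w - bb‖ := fun w hw => by
    have := (le_abs_self _).trans (reb' w)
    linarith
  have far' : ∀ w : ℂ, w.re ≤ 1 → ρ ≤ ‖w - aa‖ := fun w hw => by
    have := (neg_le_abs _).trans (reb w)
    linarith
  -- the right half
  have R : ∀ x ∈ Rect, ∀ y ∈ Rect, 1 ≤ x.re → 1 ≤ y.re → ρ ≤ ‖x - aa‖ → ρ ≤ ‖y - aa‖ →
      ‖f x - f y‖ ≤ 5 * κ * ‖x - y‖ := by
    intro x hx y hy hx1 hy1 hxa hya
    refine one_hole (p := aa) (K := Rect ∩ {w | 1 ≤ w.re}) hρ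
      (convex_Rect.inter (convex_halfSpace_re_ge 1)) ?_
      (fun w hw hwp => hf w hw.1 hwp (far w hw.2)) (fun w hw hwp => hκ w hw.1 hwp (far w hw.2))
      ⟨hx, hx1⟩ ⟨hy, hy1⟩ hxa hya
    intro w hw
    rw [mem_closedBall, dist_eq_norm] at hw
    have a1 := abs_le.1 ((reb w).trans hw)
    have a2 := (imb w).trans hw
    refine ⟨⟨by linarith, by linarith, by linarith⟩, ?_⟩
    show 1 ≤ w.re
    linarith
  -- the left half
  have L : ∀ x ∈ Rect, ∀ y ∈ Rect, x.re ≤ 1 → y.re ≤ 1 → ρ ≤ ‖x - bb‖ → ρ ≤ ‖y - bb‖ →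
      ‖f x - f y‖ ≤ 5 * κ * ‖x - y‖ := by
    intro x hx y hy hx1 hy1 hxa hya
    refine one_hole (p := bb) (K := Rect ∩ {w | w.re ≤ 1}) hρ
      (convex_Rect.inter (convex_halfSpace_re_le 1)) ?_
      (fun w hw hwp => hf w hw.1 (far' w hw.2) hwp) (fun w hw hwp => hκ w hw.1 (far' w hw.2) hwp)
      ⟨hx, hx1⟩ ⟨hy, hy1⟩ hxa hya
    intro w hw
    rw [mem_closedBall, dist_eq_norm] at hw
    have a1 := abs_le.1 ((reb' w).trans hw)
    have a2 := (imb' w).trans hw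
    refine ⟨⟨by linarith, by linarith, by linarith⟩, ?_⟩
    show w.re ≤ 1
    linarith
  -- points on either side
  have X : ∀ x ∈ Rect, ∀ y ∈ Rect, x.re ≤ 1 → 1 ≤ y.re → ρ ≤ ‖x - bb‖ → ρ ≤ ‖y - aa‖ →
      ‖f x - f y‖ ≤ 5 * κ * ‖x - y‖ := by
    intro x hx y hy hx1 hy1 hxa hya
    obtain ⟨m, hm, hm1⟩ : ∃ m ∈ segment ℝ x y, m.re = 1 := by
      have hpre : IsPreconnected (segment ℝ x y) := (convex_segment x y).isPreconnected
      have := hpre.intermediate_value (left_mem_segment ℝ x y) (right_mem_segment ℝ x y)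
        (f := fun w : ℂ => w.re) Complex.continuous_re.continuousOn
      obtain ⟨m, hm, hm1⟩ := this ⟨hx1, hy1⟩
      exact ⟨m, hm, hm1⟩
    have hmR : m ∈ Rect := convex_Rect.segment_subset hx hy hm
    have hadd : ‖x - m‖ + ‖m - y‖ = ‖x - y‖ := by
      have := (mem_segment_iff_wbtw.1 hm).dist_add_dist
      simpa [dist_eq_norm] using this
    have i1 := L x hx m hmR hx1 hm1.le hxa (far m hm1.ge)
    have i2 := R m hmR y hy hm1.ge hy1 (far' m hm1.le) hya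
    have i3 : ‖f x - f y‖ ≤ ‖f x - f m‖ + ‖f m - f y‖ :=
      norm_sub_le_norm_sub_add_norm_sub _ _ _
    rw [← hadd]
    linarith
  have main : ‖f z - f z'‖ ≤ 5 * κ * ‖z - z'‖ := by
    rcases le_total z.re 1 with a | a <;> rcases le_total z'.re 1 with b | b
    · exact L z hz z' hz' a b h2 h2'
    · exact X z hz z' hz' a b h2 h1'
    · rw [norm_sub_rev, norm_sub_rev z]
      exact X z' hz' z hz b a h2' h1
    · exact R z hz z' hz' a b h1 h1'
  have : 0 ≤ κ * ‖z - z'‖ := mul_nonneg hκ0 (norm_nonneg _)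
  linarith

end Pool.Agent.MP_49383f_gt
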