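import Pool.Agent.MP_49383f_gt.Basic
import Pool.Agent.MP_49383f_gt.PathLip

/-!
# MP_49383f_gt, module G06: the estimates on the height function `t`
-/

namespace Pool.Agent.MP_49383f_gt

open scoped ContDiff ComplexConjugate
open MeasureTheory Metric Set

namespace EstT

lemma reform_apply (α u : ℂ) : reform α u = 2 * (α * u).re := by
  simp [reform]

lemma norm_reform_le (α : ℂ) : ‖reform α‖ ≤ 2 * ‖α‖ := by
  refine ContinuousLinearMap.opNorm_le_bound _ (by positivity) fun u => ?_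
  rw [reform_apply, Real.norm_eq_abs, abs_mul, abs_two, mul_assoc, ← norm_mul]
  exact mul_le_mul_of_nonneg_left (Complex.abs_re_le_norm _) (by norm_num)

lemma reform_add (α β : ℂ) : reform (α + β) = reform α + reform β := by
  ext u
  simp [reform_apply]; ring

lemma hasFDerivAt_TT (z : ℂ) : HasFDerivAt TT (reform (qq z)) z := by
  have hre : HasFDerivAt (fun z : ℂ => z.re) Complex.reCLM z := Complex.reCLM.hasFDerivAt
  have him : HasFDerivAt (fun z : ℂ => z.im) Complex.imCLM z := Complex.imCLM.hasFDerivAt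
  have h1 : HasFDerivAt (fun z : ℂ => z.re ^ 2 / 3 - z.im ^ 2)
      ((2 * z.re / 3) • Complex.reCLM - (2 * z.im) • Complex.imCLM) z := by
    have := ((hre.pow 2).mul_const (3⁻¹ : ℝ)).sub (him.pow 2)
    refine (this.congr_of_eventuallyEq (Filter.Eventually.of_forall fun w => ?_)).congr_fderiv ?_
    · simp [div_eq_mul_inv]
    · ext u <;> simp <;> ring
  have h2 : HasFDerivAt (fun z : ℂ => 3 - z.re) (-Complex.reCLM) z := hre.const_sub 3
  refine (h1.mul h2).congr_fderiv ?_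
  have e : qq z = ⟨z.re - (z.re ^ 2 - z.im ^ 2) / 2, 3 * z.im - z.re * z.im⟩ := by
    apply Complex.ext
    · simp [qq, pow_two]; ring
    · simp [qq, pow_two]; ring
  ext
  simp [reform_apply, e]; ring

lemma hasFDerivAt_log {a z : ℂ} (hz : z ≠ a) :
    HasFDerivAt (fun z : ℂ => Real.log ‖z - a‖) (reform (1 / (2 * (z - a)))) z := by
  have hn : ‖z - a‖ ≠ 0 := norm_ne_zero_iff.2 (sub_ne_zero.2 hz)
  have h1 : HasFDerivAt (fun w : ℂ => ‖w‖ ^ 2) (2 • (innerSL ℝ (z - a))) (z - a) :=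
    (hasStrictFDerivAt_norm_sq (z - a)).hasFDerivAt
  have h2 : HasFDerivAt (fun w : ℂ => w - a) (ContinuousLinearMap.id ℝ ℂ) z :=
    (hasFDerivAt_id z).sub_const a
  have h3 := ((h1.comp z h2).log (by simpa using hn)).const_mul (1 / 2 : ℝ)
  refine (h3.congr_of_eventuallyEq (Filter.Eventually.of_forall fun w => ?_)).congr_fderiv ?_
  · simp
  · have hns : Complex.normSq (z - a) ≠ 0 := by simpa [Complex.normSq_eq_zero, sub_eq_zero] using hz
    ext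
    simp [reform_apply, Complex.inner, Complex.normSq_eq_norm_sq]
    field_simp
    ring

lemma hasFDerivAt_Dt {C ε : ℝ} (hε : 0 < ε) {φ₁ φ₂ Z : ℂ → ℂ} {t : ℂ → ℝ} {h₀ : ℝ}
    (S : Surf C ε φ₁ φ₂ Z t h₀) {z : ℂ} (hz : z ∈ Om ε) :
    HasFDerivAt (Dt ε t) (reform (φ₁ z * φ₂ z -
      (ε * qq z - ((ε ^ 2 : ℝ) : ℂ) / (z - aa) - ((ε ^ 2 : ℝ) : ℂ) / (z - bb)))) z := by
  have hr : 0 < ε ^ 2 := by positivity
  have ha : z ≠ aa := by
    rintro rfl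
    have := hz.2.1
    rw [sub_self, norm_zero] at this
    linarith
  have hb : z ≠ bb := by
    rintro rfl
    have := hz.2.2
    rw [sub_self, norm_zero] at this
    linarith
  have h := (S.dt z hz).sub ((((hasFDerivAt_TT z).const_mul ε).sub
    ((hasFDerivAt_log ha).const_mul (2 * ε ^ 2))).sub ((hasFDerivAt_log hb).const_mul (2 * ε ^ 2)))
  refine (h.congr_of_eventuallyEq (Filter.Eventually.of_forall fun w => ?_)).congr_fderiv ?_
  · simp [Dt]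
  · have e : φ₁ z * φ₂ z - (ε * qq z - ((ε ^ 2 : ℝ) : ℂ) / (z - aa) - ((ε ^ 2 : ℝ) : ℂ) / (z - bb))
        = φ₁ z * φ₂ z - ((ε : ℂ) * qq z - ((2 * ε ^ 2 : ℝ) : ℂ) * (1 / (2 * (z - aa)))
          - ((2 * ε ^ 2 : ℝ) : ℂ) * (1 / (2 * (z - bb)))) := by
      have := sub_ne_zero.2 ha
      have := sub_ne_zero.2 hb
      push_cast
      field_simp
    rw [e]
    ext u
    simp only [reform_apply, sub_apply, smul_apply,
      smul_eq_mul, sub_mul, Complex.sub_re, mul_assoc, Complex.re_ofReal_mul]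
    ring

/-- the coefficient of `d(Dt)` is small -/
lemma coef_bound {C K ε : ℝ} (hε : 0 < ε) (hK : 1 ≤ K) (hCK : C ≤ K) (hεK : 3 * K * ε ≤ 1)
    {φ₁ φ₂ Z : ℂ → ℂ} {t : ℂ → ℝ} {h₀ : ℝ}
    (S : Surf C ε φ₁ φ₂ Z t h₀) {z : ℂ} (hz : ‖z‖ ≤ 39 / 10) (ha : ε ^ 2 ≤ ‖z - aa‖)
    (hb : ε ^ 2 ≤ ‖z - bb‖) :
    ‖φ₁ z * φ₂ z - (ε * qq z - ((ε ^ 2 : ℝ) : ℂ) / (z - aa) - ((ε ^ 2 : ℝ) : ℂ) / (z - bb))‖ ≤
      K * (64 * ε ^ 2 + 2 * ε * (ε ^ 2 / ‖z - aa‖) ^ 2 + 2 * ε * (ε ^ 2 / ‖z - bb‖) ^ 2) := by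
  have hr : 0 < ε ^ 2 := by positivity
  have ha0 : 0 < ‖z - aa‖ := hr.trans_le ha
  have hb0 : 0 < ‖z - bb‖ := hr.trans_le hb
  have hε1 : ε ≤ 1 := by nlinarith
  have e1 := S.est₁ z hz ha hb
  have e2 := S.est₂ z hz ha hb
  have hna : ‖((ε ^ 2 : ℝ) : ℂ) / (z - aa)‖ = ε ^ 2 / ‖z - aa‖ := by
    rw [norm_div, Complex.norm_real, Real.norm_of_nonneg hr.le]
  have hnb : ‖((ε ^ 2 : ℝ) : ℂ) / (z - bb)‖ = ε ^ 2 / ‖z - bb‖ := by
    rw [norm_div, Complex.norm_real, Real.norm_of_nonneg hr.le]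
  have hwa : ε ^ 2 / ‖z - aa‖ ≤ 1 := (div_le_one ha0).2 ha
  have hwb : ε ^ 2 / ‖z - bb‖ ≤ 1 := (div_le_one hb0).2 hb
  have hwa0 : 0 ≤ ε ^ 2 / ‖z - aa‖ := by positivity
  have hwb0 : 0 ≤ ε ^ 2 / ‖z - bb‖ := by positivity
  have hqq : ‖qq z‖ ≤ 20 := by
    rw [qq]
    have n1 : ‖2 * z‖ ≤ 2 * (39 / 10) := by
      rw [norm_mul, Complex.norm_ofNat]
      linarith
    have n2 : ‖z ^ 2 / 2‖ ≤ (39 / 10) ^ 2 / 2 := by
      rw [norm_div, norm_pow, Complex.norm_ofNat]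
      gcongr
    have n3 : ‖conj z‖ ≤ 39 / 10 := by rwa [RCLike.norm_conj]
    calc ‖2 * z - z ^ 2 / 2 - conj z‖ ≤ ‖2 * z‖ + ‖z ^ 2 / 2‖ + ‖conj z‖ :=
          (norm_sub_le _ _).trans (by gcongr; exact norm_sub_le _ _)
      _ ≤ 20 := by linarith
  generalize hwA : ε ^ 2 / ‖z - aa‖ = wa at *
  generalize hwB : ε ^ 2 / ‖z - bb‖ = wb at *
  generalize hqa : ((ε ^ 2 : ℝ) : ℂ) / (z - aa) = qa at *
  generalize hqb : ((ε ^ 2 : ℝ) : ℂ) / (z - bb) = qb at *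
  have hq : ‖(ε : ℂ) * qq z - qa - qb‖ ≤ 20 * ε + wa + wb := by
    have n1 : ‖(ε : ℂ) * qq z‖ ≤ 20 * ε := by
      rw [norm_mul, Complex.norm_real, Real.norm_of_nonneg hε.le]
      nlinarith
    calc _ ≤ ‖(ε : ℂ) * qq z‖ + ‖qa‖ + ‖qb‖ :=
          (norm_sub_le _ _).trans (by gcongr; exact norm_sub_le _ _)
      _ ≤ _ := by rw [hna, hnb]; linarith
  generalize hqd : (ε : ℂ) * qq z - qa - qb = q at *
  have e1' : ‖φ₁ z - 1‖ ≤ K * (ε ^ 2 + ε * wa + ε * wb) :=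
    e1.trans (mul_le_mul_of_nonneg_right hCK (by positivity))
  have e2' : ‖φ₂ z - q‖ ≤ K * ε ^ 2 := e2.trans (mul_le_mul_of_nonneg_right hCK (by positivity))
  have e1'' : ‖φ₁ z - 1‖ ≤ 1 := by
    refine e1'.trans ?_
    have h1 : ε ^ 2 + ε * wa + ε * wb ≤ 3 * ε := by nlinarith
    nlinarith [mul_le_mul_of_nonneg_left h1 (by linarith : (0:ℝ) ≤ K)]
  have hphi : ‖φ₁ z‖ ≤ 2 := by
    calc ‖φ₁ z‖ = ‖(φ₁ z - 1) + 1‖ := by congr 1; ring
      _ ≤ ‖φ₁ z - 1‖ + ‖(1 : ℂ)‖ := norm_add_le _ _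
      _ ≤ 2 := by rw [norm_one]; linarith
  have e : φ₁ z * φ₂ z - q = φ₁ z * (φ₂ z - q) + (φ₁ z - 1) * q := by ring
  rw [e]
  refine (norm_add_le _ _).trans ?_
  rw [norm_mul, norm_mul]
  have m1 : ‖φ₁ z‖ * ‖φ₂ z - q‖ ≤ 2 * (K * ε ^ 2) :=
    mul_le_mul hphi e2' (norm_nonneg _) (by norm_num)
  have m2 : ‖φ₁ z - 1‖ * ‖q‖ ≤ K * (ε ^ 2 + ε * wa + ε * wb) * (20 * ε + wa + wb) :=
    mul_le_mul e1' hq (norm_nonneg _) (by positivity)
  have m3 : (ε ^ 2 + ε * wa + ε * wb) * (20 * ε + wa + wb) ≤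
      62 * ε ^ 2 + 2 * ε * wa ^ 2 + 2 * ε * wb ^ 2 := by
    have k1 : ε ^ 2 * ε ≤ ε ^ 2 * 1 := by gcongr
    have k2 : ε ^ 2 * wa ≤ ε ^ 2 * 1 := by gcongr
    have k3 : ε ^ 2 * wb ≤ ε ^ 2 * 1 := by gcongr
    nlinarith [mul_nonneg hε.le (sq_nonneg (wa - wb))]
  have m4 := mul_le_mul_of_nonneg_left m3 (by linarith : (0 : ℝ) ≤ K)
  nlinarith

lemma near_gen {f : ℂ → ℝ} {L : ℂ → (ℂ →L[ℝ] ℝ)} {p : ℂ} {r A B : ℝ} (hr : 0 < r)
    (hA : 0 ≤ A) (hB : 0 ≤ B)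
    (hL : ∀ z, r ≤ ‖z - p‖ → ‖z - p‖ ≤ 1 / 4 → HasFDerivAt f (L z) z)
    (hLb : ∀ z, r ≤ ‖z - p‖ → ‖z - p‖ ≤ 1 / 4 → ‖L z‖ ≤ A + B * (r / ‖z - p‖) ^ 2)
    {z z₀ : ℂ} (hz : r ≤ ‖z - p‖) (hz' : ‖z - p‖ ≤ 1 / 4) (hz₀ : ‖z₀ - p‖ = r) :
    |f z - f z₀| ≤ 7 * (A + B) * r + A * ‖z - p‖ + B * r := by
  have hr4 : r ≤ 1 / 4 := hz.trans hz'
  -- circular part
  have hcirc : ∀ θ θ' : ℝ, |θ| ≤ Real.pi → |θ'| ≤ Real.pi →
      |f (circleMap p r θ) - f (circleMap p r θ')| ≤ 7 * (A + B) * r := by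
    intro θ θ' h h'
    have hn : ∀ θ, ‖circleMap p r θ - p‖ = r := fun θ => by
      rw [circleMap_sub_center, norm_circleMap_zero, abs_of_pos hr]
    have hd : ∀ θ ∈ (univ : Set ℝ), HasDerivWithinAt (fun θ => f (circleMap p r θ))
        (L (circleMap p r θ) (circleMap 0 r θ * Complex.I)) univ θ := by
      intro θ _
      have h1 := hL (circleMap p r θ) (hn θ).ge ((hn θ).le.trans hr4)
      exact (h1.comp_hasDerivAt θ (hasDerivAt_circleMap p r θ)).hasDerivWithinAt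
    have hb : ∀ θ ∈ (univ : Set ℝ), ‖L (circleMap p r θ) (circleMap 0 r θ * Complex.I)‖ ≤
        (A + B) * r := by
      intro θ _
      refine (ContinuousLinearMap.le_opNorm _ _).trans ?_
      have h1 := hLb (circleMap p r θ) (hn θ).ge ((hn θ).le.trans hr4)
      rw [hn θ, div_self hr.ne', one_pow, mul_one] at h1
      rw [norm_mul, Complex.norm_I, norm_circleMap_zero, abs_of_pos hr, mul_one]
      exact mul_le_mul_of_nonneg_right h1 hr.le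
    have := convex_univ.norm_image_sub_le_of_norm_hasDerivWithin_le hd hb (mem_univ θ')
      (mem_univ θ)
    rw [Real.norm_eq_abs, Real.norm_eq_abs] at this
    refine this.trans ?_
    have h2 : |θ - θ'| ≤ 7 := by
      rw [abs_le] at h h' ⊢
      have := Real.pi_lt_d2
      constructor <;> linarith [h.1, h.2, h'.1, h'.2]
    have h3 : 0 ≤ (A + B) * r := by positivity
    nlinarith
  -- representation
  have hrep : ∀ w : ℂ, w = circleMap p ‖w - p‖ (w - p).arg := by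
    intro w
    rw [circleMap, Complex.norm_mul_exp_arg_mul_I]
    ring
  have hz₀e : z₀ = circleMap p r (z₀ - p).arg := by
    have := hrep z₀
    rwa [hz₀] at this
  set θ := (z - p).arg with hθ
  -- radial part
  set v : ℂ := Complex.exp (θ * Complex.I) with hv
  have hvn : ‖v‖ = 1 := Complex.norm_exp_ofReal_mul_I θ
  have hpos : ∀ s : ℝ, 0 ≤ s → ‖circleMap p s θ - p‖ = s := fun s hs => by
    rw [circleMap_sub_center, norm_circleMap_zero, abs_of_nonneg hs]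
  set R := ‖z - p‖ with hR
  have hderiv : ∀ s ∈ Icc r R, HasDerivAt (fun s : ℝ => f (circleMap p s θ))
      (L (circleMap p s θ) v) s := by
    intro s hs
    have hs0 : 0 ≤ s := hr.le.trans hs.1
    have h1 := hL (circleMap p s θ) (by rw [hpos s hs0]; exact hs.1)
      (by rw [hpos s hs0]; exact hs.2.trans hz')
    have h2 : HasDerivAt (fun s : ℝ => circleMap p s θ) v s := by
      have := ((Complex.ofRealCLM.hasDerivAt (x := s)).mul_const v).const_add p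
      simpa [circleMap, hv] using this
    exact h1.comp_hasDerivAt s h2
  have hrad : ‖f (circleMap p R θ) - f (circleMap p r θ)‖ ≤
      A * (R - r) + B * r ^ 2 * (1 / r - 1 / R) := by
    have key := image_norm_le_of_norm_deriv_right_le_deriv_boundary'
      (f := fun s : ℝ => f (circleMap p s θ) - f (circleMap p r θ)) (a := r) (b := R)
      (f' := fun s => L (circleMap p s θ) v)
      (B := fun s => A * (s - r) + B * r ^ 2 * (1 / r - 1 / s))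
      (B' := fun s => A + B * (r / s) ^ 2) ?_ ?_ ?_ ?_ ?_ ?_
    · exact key ⟨hz, le_rfl⟩
    · intro s hs
      exact ((hderiv s hs).sub_const _).continuousAt.continuousWithinAt
    · intro s hs
      exact ((hderiv s ⟨hs.1, hs.2.le⟩).sub_const _).hasDerivWithinAt
    · simp
    · refine ContinuousOn.add (by fun_prop) (ContinuousOn.mul continuousOn_const ?_)
      refine continuousOn_const.sub (continuousOn_const.div continuousOn_id ?_)
      intro s hs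
      exact (hr.trans_le hs.1).ne'
    · intro s hs
      have hs0 : s ≠ 0 := (hr.trans_le hs.1).ne'
      have h1 : HasDerivAt (fun s : ℝ => A * (s - r)) A s := by
        simpa using ((hasDerivAt_id s).sub_const r).const_mul A
      have h2 : HasDerivAt (fun s : ℝ => B * r ^ 2 * (1 / r - 1 / s)) (B * (r / s) ^ 2) s := by
        have := ((hasDerivAt_inv hs0).const_sub (1 / r)).const_mul (B * r ^ 2)
        simp only [one_div] at this ⊢
        refine this.congr_deriv ?_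
        field_simp
      exact (h1.add h2).hasDerivWithinAt
    · intro s hs
      have hs0 : 0 ≤ s := hr.le.trans hs.1
      refine (ContinuousLinearMap.le_opNorm _ _).trans ?_
      rw [hvn, mul_one]
      have := hLb (circleMap p s θ) (by rw [hpos s hs0]; exact hs.1)
        (by rw [hpos s hs0]; exact hs.2.le.trans hz')
      rwa [hpos s hs0] at this
  have hze : z = circleMap p R θ := hrep z
  have h1 : |f z - f z₀| ≤ |f (circleMap p R θ) - f (circleMap p r θ)| +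
      |f (circleMap p r θ) - f (circleMap p r (z₀ - p).arg)| := by
    rw [← hze, ← hz₀e]
    exact abs_sub_le _ _ _
  have h2 := hcirc θ (z₀ - p).arg (Complex.abs_arg_le_pi _) (Complex.abs_arg_le_pi _)
  rw [Real.norm_eq_abs] at hrad
  have hR0 : 0 < R := hr.trans_le hz
  have h3 : B * r ^ 2 * (1 / r - 1 / R) ≤ B * r := by
    have : r ^ 2 * (1 / r - 1 / R) ≤ r := by
      have : r ^ 2 * (1 / r - 1 / R) = r - r ^ 2 / R := by field_simp
      rw [this]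
      have : 0 ≤ r ^ 2 / R := by positivity
      linarith
    nlinarith
  have h4 : A * (R - r) ≤ A * R := by nlinarith
  linarith

lemma mem_Rect_of_near_aa {z : ℂ} (hz : ‖z - aa‖ ≤ 1 / 4) : z ∈ Rect := by
  have h1 := (Complex.abs_re_le_norm (z - aa)).trans hz
  have h2 := (Complex.abs_im_le_norm (z - aa)).trans hz
  rw [Complex.sub_re, aa_re, abs_le] at h1
  rw [Complex.sub_im, aa_im, abs_le] at h2
  refine ⟨by linarith [h1.1], by linarith [h1.2], ?_⟩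
  rw [abs_lt]
  constructor <;> linarith [h2.1, h2.2]

lemma mem_Rect_of_near_bb {z : ℂ} (hz : ‖z - bb‖ ≤ 1 / 4) : z ∈ Rect := by
  have h1 := (Complex.abs_re_le_norm (z - bb)).trans hz
  have h2 := (Complex.abs_im_le_norm (z - bb)).trans hz
  rw [Complex.sub_re, bb_re, abs_le] at h1
  rw [Complex.sub_im, bb_im, abs_le] at h2
  refine ⟨by linarith [h1.1], by linarith [h1.2], ?_⟩
  rw [abs_lt]
  constructor <;> linarith [h2.1, h2.2]

lemma far_of_near_aa {z : ℂ} (hz : ‖z - aa‖ ≤ 1 / 4) : 3 / 4 ≤ ‖z - bb‖ := by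
  have h1 : ‖aa - bb‖ ≤ ‖z - aa‖ + ‖z - bb‖ := by
    calc ‖aa - bb‖ = ‖(z - bb) - (z - aa)‖ := by congr 1; ring
      _ ≤ _ := by rw [add_comm]; exact norm_sub_le _ _
  rw [norm_aa_sub_bb] at h1
  linarith

lemma far_of_near_bb {z : ℂ} (hz : ‖z - bb‖ ≤ 1 / 4) : 3 / 4 ≤ ‖z - aa‖ := by
  have h1 : ‖bb - aa‖ ≤ ‖z - bb‖ + ‖z - aa‖ := by
    calc ‖bb - aa‖ = ‖(z - aa) - (z - bb)‖ := by congr 1; ring
      _ ≤ _ := by rw [add_comm]; exact norm_sub_le _ _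
  rw [norm_bb_sub_aa] at h1
  linarith

end EstT

open EstT

theorem estT_of_surf (C : ℝ) : ∃ C₁ > 0, ∃ ε₀ > 0, ∀ ε : ℝ, 0 < ε → ε < ε₀ →
    ∀ φ₁ φ₂ Z t h₀, Surf C ε φ₁ φ₂ Z t h₀ →
      (∀ z ∈ WW ε, |Dt ε t z| ≤ C₁ * ε ^ 2) ∧
      (∀ z, ε ^ 2 ≤ ‖z - aa‖ → ‖z - aa‖ ≤ 1 / 4 →
        |Dt ε t z - Dt ε t (aa + ((ε ^ 2 : ℝ) : ℂ))| ≤ C₁ * ε ^ 2 * (‖z - aa‖ + ε)) ∧
      (∀ z, ε ^ 2 ≤ ‖z - bb‖ → ‖z - bb‖ ≤ 1 / 4 →
        |Dt ε t z - Dt ε t (bb - ((ε ^ 2 : ℝ) : ℂ))| ≤ C₁ * ε ^ 2 * (‖z - bb‖ + ε)) ∧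
      (∀ z ∈ FR, DifferentiableAt ℝ t z ∧ ‖fderiv ℝ t z - ε • fderiv ℝ TT z‖ ≤ C₁ * ε ^ 2) := by
  obtain ⟨K, hK1, hCK⟩ : ∃ K, 1 ≤ K ∧ C ≤ K := ⟨max 1 C, le_max_left _ _, le_max_right _ _⟩
  have hK0 : 0 < K := by linarith
  refine ⟨10 ^ 8 * K, by positivity, min (1 / (3 * K)) (1 / 10), by positivity,
    fun ε hε hlt φ₁ φ₂ Z t h₀ S => ?_⟩
  have hε10 : ε ≤ 1 / 10 := (hlt.trans_le (min_le_right _ _)).le
  have hεK : 3 * K * ε ≤ 1 := by
    have := (hlt.trans_le (min_le_left _ _)).le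
    rw [le_div_iff₀ (by positivity)] at this
    linarith
  have hr : 0 < ε ^ 2 := by positivity
  have hr4 : ε ^ 2 ≤ 1 / 100 := by nlinarith
  have h32 : ε ^ 3 ≤ ε ^ 2 := by nlinarith
  have hcoef := fun (z : ℂ) => coef_bound (z := z) hε hK1 hCK hεK S
  -- neart_a
  have near_a : ∀ z, ε ^ 2 ≤ ‖z - aa‖ → ‖z - aa‖ ≤ 1 / 4 →
      |Dt ε t z - Dt ε t (aa + ((ε ^ 2 : ℝ) : ℂ))| ≤ 1000 * K * ε ^ 2 * (‖z - aa‖ + ε) := by
    intro z h1 h2
    have := near_gen (f := Dt ε t) (p := aa) (r := ε ^ 2) (A := 136 * K * ε ^ 2) (B := 4 * K * ε)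
      (L := fun z => reform (φ₁ z * φ₂ z -
      (ε * qq z - ((ε ^ 2 : ℝ) : ℂ) / (z - aa) - ((ε ^ 2 : ℝ) : ℂ) / (z - bb)))) hr
      (by positivity) (by positivity) ?_ ?_ h1 h2 (z₀ := aa + ((ε ^ 2 : ℝ) : ℂ)) (by
        rw [add_sub_cancel_left, Complex.norm_real, Real.norm_of_nonneg hr.le])
    · refine this.trans ?_
      have k1 : K * ε ^ 4 ≤ K * ε ^ 3 := by
        have : ε ^ 4 ≤ ε ^ 3 := by nlinarith [pow_pos hε 3]
        gcongr
      have k2 : 0 ≤ K * ε ^ 3 := by positivity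
      have k3 : 0 ≤ K * ε ^ 2 * ‖z - aa‖ := by positivity
      nlinarith
    · intro z h1 h2
      exact hasFDerivAt_Dt hε S ⟨mem_Rect_of_near_aa h2, by linarith,
        by linarith [far_of_near_aa h2]⟩
    · intro z h1 h2
      have hf := far_of_near_aa h2
      refine (norm_reform_le _).trans ?_
      have h3 := hcoef z (norm_le_of_mem_Rect (mem_Rect_of_near_aa h2)) h1 (by linarith)
      have h4 : ε ^ 2 / ‖z - bb‖ ≤ 4 / 3 * ε ^ 2 := by
        rw [div_le_iff₀ (by linarith)]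
        nlinarith
      have h5 : (ε ^ 2 / ‖z - bb‖) ^ 2 ≤ (4 / 3 * ε ^ 2) ^ 2 := by gcongr
      have h6 : 2 * ε * (ε ^ 2 / ‖z - bb‖) ^ 2 ≤ 4 * ε ^ 2 := by
        have : 2 * ε * (4 / 3 * ε ^ 2) ^ 2 ≤ 4 * ε ^ 2 := by
          have : ε ^ 5 ≤ ε ^ 2 := by
            have : ε ^ 3 ≤ 1 := by nlinarith
            nlinarith
          nlinarith
        nlinarith
      nlinarith [mul_le_mul_of_nonneg_left h6 hK0.le]
  -- neart_b
  have near_b : ∀ z, ε ^ 2 ≤ ‖z - bb‖ → ‖z - bb‖ ≤ 1 / 4 →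
      |Dt ε t z - Dt ε t (bb - ((ε ^ 2 : ℝ) : ℂ))| ≤ 1000 * K * ε ^ 2 * (‖z - bb‖ + ε) := by
    intro z h1 h2
    have := near_gen (f := Dt ε t) (p := bb) (r := ε ^ 2) (A := 136 * K * ε ^ 2) (B := 4 * K * ε)
      (L := fun z => reform (φ₁ z * φ₂ z -
      (ε * qq z - ((ε ^ 2 : ℝ) : ℂ) / (z - aa) - ((ε ^ 2 : ℝ) : ℂ) / (z - bb)))) hr
      (by positivity) (by positivity) ?_ ?_ h1 h2 (z₀ := bb - ((ε ^ 2 : ℝ) : ℂ)) (by
        rw [sub_sub_cancel_left, norm_neg, Complex.norm_real, Real.norm_of_nonneg hr.le])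
    · refine this.trans ?_
      have k1 : K * ε ^ 4 ≤ K * ε ^ 3 := by
        have : ε ^ 4 ≤ ε ^ 3 := by nlinarith [pow_pos hε 3]
        gcongr
      have k2 : 0 ≤ K * ε ^ 3 := by positivity
      have k3 : 0 ≤ K * ε ^ 2 * ‖z - bb‖ := by positivity
      nlinarith
    · intro z h1 h2
      exact hasFDerivAt_Dt hε S ⟨mem_Rect_of_near_bb h2, by linarith [far_of_near_bb h2],
        by linarith⟩
    · intro z h1 h2
      have hf := far_of_near_bb h2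
      refine (norm_reform_le _).trans ?_
      have h3 := hcoef z (norm_le_of_mem_Rect (mem_Rect_of_near_bb h2)) (by linarith) h1
      have h4 : ε ^ 2 / ‖z - aa‖ ≤ 4 / 3 * ε ^ 2 := by
        rw [div_le_iff₀ (by linarith)]
        nlinarith
      have h5 : (ε ^ 2 / ‖z - aa‖) ^ 2 ≤ (4 / 3 * ε ^ 2) ^ 2 := by gcongr
      have h6 : 2 * ε * (ε ^ 2 / ‖z - aa‖) ^ 2 ≤ 4 * ε ^ 2 := by
        have : 2 * ε * (4 / 3 * ε ^ 2) ^ 2 ≤ 4 * ε ^ 2 := by
          have : ε ^ 5 ≤ ε ^ 2 := by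
            have : ε ^ 3 ≤ 1 := by nlinarith
            nlinarith
          nlinarith
        nlinarith
      nlinarith [mul_le_mul_of_nonneg_left h6 hK0.le]
  -- the far region
  have hfarW : ∀ z ∈ FR, z ∈ Om ε := fun z hz => ⟨hz.1, by linarith [hz.2.1], by linarith [hz.2.2]⟩
  have hfarc : ∀ z ∈ FR, ‖φ₁ z * φ₂ z - (ε * qq z - ((ε ^ 2 : ℝ) : ℂ) / (z - aa)
      - ((ε ^ 2 : ℝ) : ℂ) / (z - bb))‖ ≤ 1664 * K * ε ^ 2 := by
    intro z hz
    have h3 := hcoef z (norm_le_of_mem_Rect hz.1) (by linarith [hz.2.1]) (by linarith [hz.2.2])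
    have ha0 : 0 < ‖z - aa‖ := by linarith [hz.2.1]
    have hb0 : 0 < ‖z - bb‖ := by linarith [hz.2.2]
    have h4 : ε ^ 2 / ‖z - aa‖ ≤ 20 * ε ^ 2 := by
      rw [div_le_iff₀ ha0]
      nlinarith [hz.2.1]
    have h4' : ε ^ 2 / ‖z - bb‖ ≤ 20 * ε ^ 2 := by
      rw [div_le_iff₀ hb0]
      nlinarith [hz.2.2]
    have h5 : (ε ^ 2 / ‖z - aa‖) ^ 2 ≤ (20 * ε ^ 2) ^ 2 := by gcongr
    have h5' : (ε ^ 2 / ‖z - bb‖) ^ 2 ≤ (20 * ε ^ 2) ^ 2 := by gcongr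
    have h7 : 2 * ε * (20 * ε ^ 2) ^ 2 ≤ 800 * ε ^ 2 := by
      have : ε ^ 5 ≤ ε ^ 2 := by
        have : ε ^ 3 ≤ 1 := by nlinarith
        nlinarith
      nlinarith
    have h6 : 2 * ε * (ε ^ 2 / ‖z - aa‖) ^ 2 ≤ 800 * ε ^ 2 := by nlinarith
    have h6' : 2 * ε * (ε ^ 2 / ‖z - bb‖) ^ 2 ≤ 800 * ε ^ 2 := by nlinarith
    refine h3.trans ?_
    nlinarith [mul_le_mul_of_nonneg_left h6 hK0.le, mul_le_mul_of_nonneg_left h6' hK0.le]
  have h2R : (2 : ℂ) ∈ FR := by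
    refine ⟨⟨by norm_num, by norm_num, by norm_num⟩, ?_, ?_⟩
    · have : (2 : ℂ) - aa = ((1 / 2 : ℝ) : ℂ) := by rw [aa]; push_cast; norm_num
      rw [this, Complex.norm_real, Real.norm_of_nonneg (by norm_num)]
      norm_num
    · have : (2 : ℂ) - bb = ((3 / 2 : ℝ) : ℂ) := by rw [bb]; push_cast; norm_num
      rw [this, Complex.norm_real, Real.norm_of_nonneg (by norm_num)]
      norm_num
  have hDt2 : |Dt ε t 2| ≤ 4 * ε ^ 2 := by
    have e1 : (2 : ℂ) - aa = ((1 / 2 : ℝ) : ℂ) := by rw [aa]; push_cast; norm_num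
    have e2 : (2 : ℂ) - bb = ((3 / 2 : ℝ) : ℂ) := by rw [bb]; push_cast; norm_num
    have e3 : TT 2 = 4 / 3 := by simp [TT]; norm_num
    rw [Dt, S.tnorm, e1, e2, e3, Complex.norm_real, Complex.norm_real,
      Real.norm_of_nonneg (by norm_num), Real.norm_of_nonneg (by norm_num)]
    have l1 : |Real.log (1 / 2)| ≤ 1 := by
      rw [abs_le]
      have h1 := Real.add_one_le_exp (-1 : ℝ)
      have h2 : Real.log (1 / 2) ≤ 1 / 2 - 1 := Real.log_le_sub_one_of_pos (by norm_num)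
      have h3 := Real.one_sub_inv_le_log_of_pos (show (0 : ℝ) < 1 / 2 by norm_num)
      norm_num at h2 h3 ⊢
      constructor <;> linarith
    have l2 : |Real.log (3 / 2)| ≤ 1 := by
      rw [abs_le]
      have h2 : Real.log (3 / 2) ≤ 3 / 2 - 1 := Real.log_le_sub_one_of_pos (by norm_num)
      have h3 := Real.one_sub_inv_le_log_of_pos (show (0 : ℝ) < 3 / 2 by norm_num)
      norm_num at h2 h3 ⊢
      constructor <;> linarith
    have e : ε * (4 / 3) - (ε * (4 / 3) - 2 * ε ^ 2 * Real.log (1 / 2) -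
        2 * ε ^ 2 * Real.log (3 / 2)) = 2 * ε ^ 2 * (Real.log (1 / 2) + Real.log (3 / 2)) := by
      ring
    rw [e, abs_mul, abs_of_nonneg (by positivity : 0 ≤ 2 * ε ^ 2)]
    have := (abs_add_le (Real.log (1 / 2)) (Real.log (3 / 2))).trans (add_le_add l1 l2)
    nlinarith
  have hfar : ∀ z ∈ FR, |Dt ε t z| ≤ 3 * 10 ^ 7 * K * ε ^ 2 := by
    intro z hz
    have := lip_rect (ρ := 1 / 20) (κ := 3328 * K * ε ^ 2) (f := Dt ε t) (by norm_num) le_rfl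
      (fun z h1 h2 h3 => (hasFDerivAt_Dt hε S (hfarW z ⟨h1, h2, h3⟩)).differentiableAt)
      (fun z h1 h2 h3 => by
        rw [(hasFDerivAt_Dt hε S (hfarW z ⟨h1, h2, h3⟩)).fderiv]
        refine (norm_reform_le _).trans ?_
        linarith [hfarc z ⟨h1, h2, h3⟩])
      hz.1 h2R.1 hz.2.1 hz.2.2 h2R.2.1 h2R.2.2
    have hn : ‖z - 2‖ ≤ 6 := by
      refine (norm_sub_le _ _).trans ?_
      have := norm_le_of_mem_Rect hz.1
      rw [Complex.norm_ofNat]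
      linarith
    have h0 : 0 ≤ 1000 * (3328 * K * ε ^ 2) := by positivity
    have h1 := mul_le_mul_of_nonneg_left hn h0
    rw [Real.norm_eq_abs] at this
    have h2 : |Dt ε t z| ≤ |Dt ε t z - Dt ε t 2| + |Dt ε t 2| := by
      calc |Dt ε t z| = |(Dt ε t z - Dt ε t 2) + Dt ε t 2| := by congr 1; ring
        _ ≤ _ := abs_add_le _ _
    nlinarith [mul_pos hK0 hr]
  refine ⟨?_, ?_, ?_, ?_⟩
  · intro z hz
    by_cases ha : 1 / 20 ≤ ‖z - aa‖
    · by_cases hb : 1 / 20 ≤ ‖z - bb‖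
      · refine (hfar z ⟨hz.1, ha, hb⟩).trans ?_
        nlinarith [mul_pos hK0 hr]
      · have hz' : (bb - ((1 / 20 : ℝ) : ℂ)) - bb = -((1 / 20 : ℝ) : ℂ) := by ring
        have hn : ‖(bb - ((1 / 20 : ℝ) : ℂ)) - bb‖ = 1 / 20 := by
          rw [hz', norm_neg, Complex.norm_real, Real.norm_of_nonneg (by norm_num)]
        have h1 := near_b z hz.2.2 (by linarith)
        have h2 := near_b (bb - ((1 / 20 : ℝ) : ℂ)) (by rw [hn]; linarith) (by rw [hn]; norm_num)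
        have h3 := hfar (bb - ((1 / 20 : ℝ) : ℂ)) ⟨mem_Rect_of_near_bb (by rw [hn]; norm_num),
          by linarith [far_of_near_bb (z := bb - ((1 / 20 : ℝ) : ℂ)) (by rw [hn]; norm_num)],
          by rw [hn]⟩
        rw [hn] at h2
        have h4 : |Dt ε t z| ≤ |Dt ε t z - Dt ε t (bb - ((ε ^ 2 : ℝ) : ℂ))| +
            |Dt ε t (bb - ((1 / 20 : ℝ) : ℂ)) - Dt ε t (bb - ((ε ^ 2 : ℝ) : ℂ))| +
            |Dt ε t (bb - ((1 / 20 : ℝ) : ℂ))| := by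
          rw [abs_sub_comm (Dt ε t (bb - ((1 / 20 : ℝ) : ℂ)))]
          calc |Dt ε t z| = |(Dt ε t z - Dt ε t (bb - ((ε ^ 2 : ℝ) : ℂ))) +
              (Dt ε t (bb - ((ε ^ 2 : ℝ) : ℂ)) - Dt ε t (bb - ((1 / 20 : ℝ) : ℂ))) +
              Dt ε t (bb - ((1 / 20 : ℝ) : ℂ))| := by congr 1; ring
            _ ≤ _ := abs_add_three _ _ _
        nlinarith [mul_pos hK0 hr]
    · have hn : ‖(aa + ((1 / 20 : ℝ) : ℂ)) - aa‖ = 1 / 20 := by
        rw [add_sub_cancel_left, Complex.norm_real, Real.norm_of_nonneg (by norm_num)]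
      have h1 := near_a z hz.2.1 (by linarith)
      have h2 := near_a (aa + ((1 / 20 : ℝ) : ℂ)) (by rw [hn]; linarith) (by rw [hn]; norm_num)
      have h3 := hfar (aa + ((1 / 20 : ℝ) : ℂ)) ⟨mem_Rect_of_near_aa (by rw [hn]; norm_num),
        by rw [hn],
        by linarith [far_of_near_aa (z := aa + ((1 / 20 : ℝ) : ℂ)) (by rw [hn]; norm_num)]⟩
      rw [hn] at h2
      have h4 : |Dt ε t z| ≤ |Dt ε t z - Dt ε t (aa + ((ε ^ 2 : ℝ) : ℂ))| +
          |Dt ε t (aa + ((1 / 20 : ℝ) : ℂ)) - Dt ε t (aa + ((ε ^ 2 : ℝ) : ℂ))| +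
          |Dt ε t (aa + ((1 / 20 : ℝ) : ℂ))| := by
        rw [abs_sub_comm (Dt ε t (aa + ((1 / 20 : ℝ) : ℂ)))]
        calc |Dt ε t z| = |(Dt ε t z - Dt ε t (aa + ((ε ^ 2 : ℝ) : ℂ))) +
            (Dt ε t (aa + ((ε ^ 2 : ℝ) : ℂ)) - Dt ε t (aa + ((1 / 20 : ℝ) : ℂ))) +
            Dt ε t (aa + ((1 / 20 : ℝ) : ℂ))| := by congr 1; ring
          _ ≤ _ := abs_add_three _ _ _
      nlinarith [mul_pos hK0 hr]
  · intro z h1 h2
    refine (near_a z h1 h2).trans ?_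
    have : 0 ≤ K * ε ^ 2 * (‖z - aa‖ + ε) := by positivity
    nlinarith
  · intro z h1 h2
    refine (near_b z h1 h2).trans ?_
    have : 0 ≤ K * ε ^ 2 * (‖z - bb‖ + ε) := by positivity
    nlinarith
  · intro z hz
    have hO := hfarW z hz
    have ht := S.dt z hO
    refine ⟨ht.differentiableAt, ?_⟩
    rw [ht.fderiv, (hasFDerivAt_TT z).fderiv]
    have ha0 : 0 < ‖z - aa‖ := by linarith [hz.2.1]
    have hb0 : 0 < ‖z - bb‖ := by linarith [hz.2.2]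
    have e : reform (φ₁ z * φ₂ z) - ε • reform (qq z) = reform (φ₁ z * φ₂ z - ε * qq z) := by
      ext u
      simp only [reform_apply, sub_apply, smul_apply, smul_eq_mul, sub_mul, Complex.sub_re,
        mul_assoc, Complex.re_ofReal_mul]
      ring
    rw [e]
    refine (norm_reform_le _).trans ?_
    have e2 : φ₁ z * φ₂ z - ε * qq z = (φ₁ z * φ₂ z - (ε * qq z - ((ε ^ 2 : ℝ) : ℂ) / (z - aa)
        - ((ε ^ 2 : ℝ) : ℂ) / (z - bb))) - ((ε ^ 2 : ℝ) : ℂ) / (z - aa)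
        - ((ε ^ 2 : ℝ) : ℂ) / (z - bb) := by ring
    have hna : ‖((ε ^ 2 : ℝ) : ℂ) / (z - aa)‖ ≤ 20 * ε ^ 2 := by
      rw [norm_div, Complex.norm_real, Real.norm_of_nonneg hr.le, div_le_iff₀ ha0]
      nlinarith [hz.2.1]
    have hnb : ‖((ε ^ 2 : ℝ) : ℂ) / (z - bb)‖ ≤ 20 * ε ^ 2 := by
      rw [norm_div, Complex.norm_real, Real.norm_of_nonneg hr.le, div_le_iff₀ hb0]
      nlinarith [hz.2.2]
    have h3 := hfarc z hz
    have h4 : ‖φ₁ z * φ₂ z - ε * qq z‖ ≤ 1664 * K * ε ^ 2 + 20 * ε ^ 2 + 20 * ε ^ 2 := by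
      rw [e2]
      refine (norm_sub_le _ _).trans (add_le_add ((norm_sub_le _ _).trans (add_le_add h3 hna)) hnb)
    nlinarith [mul_pos hK0 hr]

end Pool.Agent.MP_49383f_gt
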