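import Pool.Agent.MP_49383f_gt.EstZ
import Pool.Agent.MP_49383f_gt.EstT

/-!
# MP_49383f_gt : G07, the estimates `catZ`, `catt`, and the assembly `est_of_surf`
-/

namespace Pool.Agent.MP_49383f_gt

open scoped ContDiff ComplexConjugate
open MeasureTheory Metric Set

namespace EstCat

open EstAux

section

variable {C ε : ℝ} {φ₁ φ₂ : ℂ → ℂ}

theorem near_a (hε : 0 < ε) (hK : 1000 * (|C| + 1) * ε < 1) (S : Core C ε φ₁ φ₂) {z : ℂ}
    (hz : ‖z‖ ≤ 39 / 10) (h1 : ε ^ 2 ≤ ‖z - aa‖) (h2 : 1 / 2 ≤ ‖z - bb‖) :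
    ‖φ₁ z - 1‖ ≤ 3 * (|C| + 1) * ε ∧
      ‖φ₂ z + ((ε ^ 2 : ℝ) : ℂ) / (z - aa)‖ ≤ 30 * (|C| + 1) * ε := by
  have hKp : 0 < |C| + 1 := by positivity
  have hK1 : 1 ≤ |C| + 1 := by linarith [abs_nonneg C]
  have hε1 : ε < 1 / 1000 := by nlinarith
  have hr1 : ε ^ 2 ≤ 1 / 1000 := by nlinarith
  obtain ⟨-, b2, b3, -⟩ := bds hε hK S hz h1 (by linarith)
  refine ⟨b2, ?_⟩
  have e : φ₂ z + ((ε ^ 2 : ℝ) : ℂ) / (z - aa) = (φ₂ z - qz ε z) +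
      (ε * qq z - ((ε ^ 2 : ℝ) : ℂ) / (z - bb)) := by rw [qz]; ring
  have n1 : ‖(ε : ℂ) * qq z‖ ≤ 20 * ε := by
    rw [norm_mul, Complex.norm_real, Real.norm_of_nonneg hε.le]
    nlinarith [norm_qq_le hz]
  have n2 : ‖((ε ^ 2 : ℝ) : ℂ) / (z - bb)‖ ≤ 2 * ε ^ 2 := by
    rw [norm_div, Complex.norm_real, Real.norm_of_nonneg (by positivity), div_le_iff₀ (by linarith)]
    nlinarith [sq_nonneg ε]
  rw [e]
  have j1 : ε ≤ (|C| + 1) * ε := le_mul_of_one_le_left hε.le hK1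
  have j3 : ε ^ 2 ≤ ε := by
    rw [pow_two]; exact mul_le_of_le_one_left hε.le (by linarith only [hε1])
  have j2 : (|C| + 1) * ε ^ 2 ≤ (|C| + 1) * ε := mul_le_mul_of_nonneg_left j3 hKp.le
  calc _ ≤ ‖φ₂ z - qz ε z‖ + ‖ε * qq z - ((ε ^ 2 : ℝ) : ℂ) / (z - bb)‖ := norm_add_le _ _
    _ ≤ ‖φ₂ z - qz ε z‖ + (‖ε * qq z‖ + ‖((ε ^ 2 : ℝ) : ℂ) / (z - bb)‖) := by
        gcongr; exact norm_sub_le _ _
    _ ≤ 30 * (|C| + 1) * ε := by linarith only [b3, n1, n2, j1, j2, j3, hε]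

theorem near_b (hε : 0 < ε) (hK : 1000 * (|C| + 1) * ε < 1) (S : Core C ε φ₁ φ₂) {z : ℂ}
    (hz : ‖z‖ ≤ 39 / 10) (h1 : ε ^ 2 ≤ ‖z - bb‖) (h2 : 1 / 2 ≤ ‖z - aa‖) :
    ‖φ₁ z - 1‖ ≤ 3 * (|C| + 1) * ε ∧
      ‖φ₂ z + ((ε ^ 2 : ℝ) : ℂ) / (z - bb)‖ ≤ 30 * (|C| + 1) * ε := by
  have hKp : 0 < |C| + 1 := by positivity
  have hK1 : 1 ≤ |C| + 1 := by linarith [abs_nonneg C]
  have hε1 : ε < 1 / 1000 := by nlinarith
  have hr1 : ε ^ 2 ≤ 1 / 1000 := by nlinarith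
  obtain ⟨-, b2, b3, -⟩ := bds hε hK S hz (by linarith) h1
  refine ⟨b2, ?_⟩
  have e : φ₂ z + ((ε ^ 2 : ℝ) : ℂ) / (z - bb) = (φ₂ z - qz ε z) +
      (ε * qq z - ((ε ^ 2 : ℝ) : ℂ) / (z - aa)) := by rw [qz]; ring
  have n1 : ‖(ε : ℂ) * qq z‖ ≤ 20 * ε := by
    rw [norm_mul, Complex.norm_real, Real.norm_of_nonneg hε.le]
    nlinarith [norm_qq_le hz]
  have n2 : ‖((ε ^ 2 : ℝ) : ℂ) / (z - aa)‖ ≤ 2 * ε ^ 2 := by
    rw [norm_div, Complex.norm_real, Real.norm_of_nonneg (by positivity), div_le_iff₀ (by linarith)]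
    nlinarith [sq_nonneg ε]
  rw [e]
  have j1 : ε ≤ (|C| + 1) * ε := le_mul_of_one_le_left hε.le hK1
  have j3 : ε ^ 2 ≤ ε := by
    rw [pow_two]; exact mul_le_of_le_one_left hε.le (by linarith only [hε1])
  have j2 : (|C| + 1) * ε ^ 2 ≤ (|C| + 1) * ε := mul_le_mul_of_nonneg_left j3 hKp.le
  calc _ ≤ ‖φ₂ z - qz ε z‖ + ‖ε * qq z - ((ε ^ 2 : ℝ) : ℂ) / (z - aa)‖ := norm_add_le _ _
    _ ≤ ‖φ₂ z - qz ε z‖ + (‖ε * qq z‖ + ‖((ε ^ 2 : ℝ) : ℂ) / (z - aa)‖) := by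
        gcongr; exact norm_sub_le _ _
    _ ≤ 30 * (|C| + 1) * ε := by linarith only [b3, n1, n2, j1, j2, j3, hε]

theorem norm_le_of_near {z c : ℂ} {s : ℝ} (hs : s ≤ 1 / 10) (hc : ‖c‖ ≤ 3 / 2)
    (h : ‖z - c‖ < s) : ‖z‖ ≤ 39 / 10 := by
  have := norm_add_le (z - c) c
  rw [sub_add_cancel] at this
  linarith

/-- the bounds in the whole annulus -/
theorem near (hε : 0 < ε) (hK : 1000 * (|C| + 1) * ε < 1) (S : Core C ε φ₁ φ₂) {z : ℂ}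
    (h1 : ε ^ 2 / 4 < ‖z - aa‖) (h2 : ‖z - aa‖ < 4 * ε ^ 2) :
    ‖φ₁ z - 1‖ ≤ 120 * (|C| + 1) * ε ∧
      ‖φ₂ z + ((ε ^ 2 : ℝ) : ℂ) / (z - aa)‖ ≤ 120 * (|C| + 1) * ε := by
  have hKp : 0 < |C| + 1 := by positivity
  have hK1 : 1 ≤ |C| + 1 := by linarith [abs_nonneg C]
  have hε1 : ε < 1 / 1000 := by nlinarith
  have hr : 0 < ε ^ 2 := by positivity
  have hr1 : ε ^ 2 ≤ 1 / 1000 := by nlinarith
  have hKε : 0 < (|C| + 1) * ε := by positivity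
  rcases le_or_gt (ε ^ 2) ‖z - aa‖ with h | h
  · have hzb : 1 / 2 ≤ ‖z - bb‖ := by
      have := one_le_add z
      linarith
    obtain ⟨n1, n2⟩ := near_a hε hK S
      (norm_le_of_near (by linarith) norm_aa.le h2) h hzb
    exact ⟨by linarith, by linarith⟩
  · set w := sg (ε ^ 2) aa bb z with hw
    have hza0 : 0 < ‖z - aa‖ := by linarith
    have hza : z - aa ≠ 0 := norm_pos_iff.1 hza0
    have hrc : (((ε ^ 2 : ℝ) : ℂ)) ≠ 0 := by exact_mod_cast hr.ne'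
    have hwn : ‖w - bb‖ = (ε ^ 2) ^ 2 / ‖z - aa‖ := by rw [hw, norm_sg_sub]
    have hw1 : ε ^ 2 ≤ ‖w - bb‖ := by
      rw [hwn, le_div_iff₀ hza0]; nlinarith
    have hw2 : ‖w - bb‖ < 4 * ε ^ 2 := by
      rw [hwn, div_lt_iff₀ hza0]; nlinarith
    have hwa : 1 / 2 ≤ ‖w - aa‖ := by
      have := one_le_add w
      linarith
    obtain ⟨n1, n2⟩ := near_b hε hK S
      (norm_le_of_near (by linarith) (by rw [norm_bb]; norm_num) hw2) hw1 hwa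
    have hwb : w - bb = -(((ε ^ 2 : ℝ) : ℂ) ^ 2 / (z - aa)) := by rw [hw, sg_sub]
    have e1 : ((ε ^ 2 : ℝ) : ℂ) / (z - aa) * (((ε ^ 2 : ℝ) : ℂ) / (w - bb)) = -1 := by
      rw [hwb]; field_simp
    have g1 := S.glue₁ z (by linarith) (by linarith)
    have g2 := S.glue₂ z (by linarith) (by linarith)
    rw [← hw] at g1 g2
    have hq : ‖((ε ^ 2 : ℝ) : ℂ) / (z - aa)‖ ≤ 4 := by
      rw [norm_div, Complex.norm_real, Real.norm_of_nonneg hr.le, div_le_iff₀ hza0]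
      linarith
    constructor
    · have : φ₁ z - 1 = ((ε ^ 2 : ℝ) : ℂ) / (z - aa) *
          (φ₂ w + ((ε ^ 2 : ℝ) : ℂ) / (w - bb)) := by
        rw [mul_add, e1, g1]; ring
      rw [this, norm_mul]
      calc _ ≤ 4 * (30 * (|C| + 1) * ε) := by gcongr
        _ = 120 * (|C| + 1) * ε := by ring
    · have : φ₂ z + ((ε ^ 2 : ℝ) : ℂ) / (z - aa) =
          -(((ε ^ 2 : ℝ) : ℂ) / (z - aa) * (φ₁ w - 1)) := by
        rw [g2]; ring
      rw [this, norm_neg, norm_mul]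
      calc _ ≤ 4 * (3 * (|C| + 1) * ε) := by gcongr
        _ ≤ 120 * (|C| + 1) * ε := by linarith

theorem mem_Om_of_near (hε : 0 < ε) (hε1 : ε < 1 / 1000) {z : ℂ}
    (h1 : ε ^ 2 / 4 < ‖z - aa‖) (h2 : ‖z - aa‖ < 4 * ε ^ 2) : z ∈ Om ε := by
  have hr : 0 < ε ^ 2 := by positivity
  have hr1 : ε ^ 2 ≤ 1 / 1000 := by nlinarith
  have hre := (Complex.abs_re_le_norm (z - aa)).trans_lt h2
  have him := (Complex.abs_im_le_norm (z - aa)).trans_lt h2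
  rw [Complex.sub_re, aa_re, abs_lt] at hre
  rw [Complex.sub_im, aa_im, sub_zero] at him
  refine ⟨⟨by linarith, by linarith, by linarith⟩, h1, ?_⟩
  have := one_le_add z
  linarith

end

end EstCat

open EstAux EstCat EstZ in
theorem est_of_surf (C : ℝ) : ∃ C' > 0, ∃ ε₀ > 0, ∀ ε : ℝ, 0 < ε → ε < ε₀ →
    ∀ φ₁ φ₂ Z t h₀, Surf C ε φ₁ φ₂ Z t h₀ → Est C' ε Z t h₀ := by
  obtain ⟨C₁, hC₁, e₁, he₁, hZ⟩ := estZ_of_surf C
  obtain ⟨C₂, hC₂, e₂, he₂, hT⟩ := estT_of_surf C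
  have hKp : 0 < |C| + 1 := by positivity
  refine ⟨C₁ + C₂ + 10 ^ 5 * (|C| + 1), by positivity,
    min (min e₁ e₂) (1 / (1000 * (|C| + 1))), by positivity, fun ε hε hlt φ₁ φ₂ Z t h₀ S => ?_⟩
  have hlt1 : ε < e₁ := hlt.trans_le ((min_le_left _ _).trans (min_le_left _ _))
  have hlt2 : ε < e₂ := hlt.trans_le ((min_le_left _ _).trans (min_le_right _ _))
  have hK : 1000 * (|C| + 1) * ε < 1 := by
    have := hlt.trans_le (min_le_right _ _)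
    rw [lt_div_iff₀ (by positivity)] at this
    linarith
  obtain ⟨z1, z2, z3⟩ := hZ ε hε hlt1 φ₁ φ₂ Z t h₀ S
  obtain ⟨t1, t2, t3, t4⟩ := hT ε hε hlt2 φ₁ φ₂ Z t h₀ S
  clear hZ hT
  set K := |C| + 1 with hKdef
  have hK1 : 1 ≤ K := by rw [hKdef]; linarith [abs_nonneg C]
  have hε1 : ε < 1 / 1000 := by nlinarith
  have hr : 0 < ε ^ 2 := by positivity
  have hr1 : ε ^ 2 ≤ 1 / 1000 := by nlinarith
  set C' := C₁ + C₂ + 10 ^ 5 * K with hC'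
  have c1 : C₁ ≤ C' := by rw [hC']; linarith
  have c2 : C₂ ≤ C' := by rw [hC']; linarith
  have c3 : 10 ^ 5 * K ≤ C' := by rw [hC']; linarith
  have hKε : K * ε < 1 / 1000 := by linarith
  have hq : ∀ z, ε ^ 2 / 4 < ‖z - aa‖ → ‖((ε ^ 2 : ℝ) : ℂ) / (z - aa)‖ ≤ 4 := by
    intro z h
    rw [norm_div, Complex.norm_real, Real.norm_of_nonneg hr.le, div_le_iff₀ (by linarith)]
    linarith
  -- derivative of the horizontal part
  have dF : ∀ z, ε ^ 2 / 4 < ‖z - aa‖ → ‖z - aa‖ < 4 * ε ^ 2 →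
      HasFDerivAt (fun z => Z z - z - ((ε ^ 2 : ℝ) : ℂ) ^ 2 / conj (z - aa))
        (dform (φ₁ z ^ 2 - 1) (-(conj (φ₂ z ^ 2 - (((ε ^ 2 : ℝ) : ℂ) / (z - aa)) ^ 2)))) z := by
    intro z h1 h2
    have hO := mem_Om_of_near hε hε1 h1 h2
    obtain ⟨ha, hb⟩ := ne_of_mem_Om hO
    have h3 := ((S.dZ z hO).sub (hasFDerivAt_id z)).sub
      (hasFDerivAt_inv_conj (((ε ^ 2 : ℝ) : ℂ) ^ 2) ha)
    refine h3.congr_fderiv ?_
    refine ContinuousLinearMap.ext fun u => ?_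
    have hrr : conj ((ε ^ 2 : ℝ) : ℂ) = ((ε ^ 2 : ℝ) : ℂ) := Complex.conj_ofReal _
    simp only [_root_.sub_apply, dform_apply, ContinuousLinearMap.id_apply, map_sub,
      map_div₀, map_pow, hrr, conj_aa, div_pow]
    ring
  have bF : ∀ z, ε ^ 2 / 4 < ‖z - aa‖ → ‖z - aa‖ < 4 * ε ^ 2 →
      ‖fderiv ℝ (fun z => Z z - z - ((ε ^ 2 : ℝ) : ℂ) ^ 2 / conj (z - aa)) z‖ ≤ 2000 * K * ε := by
    intro z h1 h2
    rw [(dF z h1 h2).fderiv]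
    refine (norm_dform_le _ _).trans ?_
    rw [norm_neg, Complex.norm_conj]
    obtain ⟨n1, n2⟩ := near hε hK S.toCore h1 h2
    have hX := hq z h1
    set X := ((ε ^ 2 : ℝ) : ℂ) / (z - aa)
    have g1 : φ₁ z ^ 2 - 1 = (φ₁ z - 1) * (φ₁ z - 1 + 2) := by ring
    have g2 : φ₂ z ^ 2 - X ^ 2 = (φ₂ z + X) * ((φ₂ z + X) - 2 * X) := by ring
    rw [g1, g2, norm_mul, norm_mul (φ₂ z + X)]
    have k1 : ‖φ₁ z - 1 + 2‖ ≤ 3 := by
      refine (norm_add_le _ _).trans ?_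
      rw [Complex.norm_ofNat]
      linarith
    have k2 : ‖(φ₂ z + X) - 2 * X‖ ≤ 9 := by
      refine (norm_sub_le _ _).trans ?_
      rw [norm_mul, Complex.norm_ofNat]
      linarith
    calc _ ≤ (120 * K * ε) * 3 + (120 * K * ε) * 9 := by gcongr
      _ ≤ 2000 * K * ε := by
          have : 0 < K * ε := by positivity
          linarith
  -- derivative of the vertical part
  have dG : ∀ z, ε ^ 2 / 4 < ‖z - aa‖ → ‖z - aa‖ < 4 * ε ^ 2 →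
      HasFDerivAt (fun z => t z + 2 * ε ^ 2 * Real.log ‖z - aa‖)
        (reform (φ₁ z * φ₂ z + ((ε ^ 2 : ℝ) : ℂ) / (z - aa))) z := by
    intro z h1 h2
    have hO := mem_Om_of_near hε hε1 h1 h2
    obtain ⟨ha, hb⟩ := ne_of_mem_Om hO
    rw [reform_add]
    exact (S.dt z hO).add (hasFDerivAt_log_norm (ε ^ 2) ha)
  have bG : ∀ z, ε ^ 2 / 4 < ‖z - aa‖ → ‖z - aa‖ < 4 * ε ^ 2 →
      ‖fderiv ℝ (fun z => t z + 2 * ε ^ 2 * Real.log ‖z - aa‖) z‖ ≤ 2000 * K * ε := by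
    intro z h1 h2
    rw [(dG z h1 h2).fderiv]
    refine (norm_reform_le _).trans ?_
    obtain ⟨n1, n2⟩ := near hε hK S.toCore h1 h2
    have hX := hq z h1
    set X := ((ε ^ 2 : ℝ) : ℂ) / (z - aa)
    have g : φ₁ z * φ₂ z + X = (φ₁ z - 1 + 1) * (φ₂ z + X) - (φ₁ z - 1) * X := by ring
    have k1 : ‖φ₁ z - 1 + 1‖ ≤ 2 := by
      refine (norm_add_le _ _).trans ?_
      rw [norm_one]
      linarith
    have k : ‖φ₁ z * φ₂ z + X‖ ≤ 2 * (120 * K * ε) + (120 * K * ε) * 4 := by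
      rw [g]
      refine (norm_sub_le _ _).trans ?_
      rw [norm_mul, norm_mul]
      gcongr
    have : 0 < K * ε := by positivity
    linarith
  refine
    { lipZ := fun z hz z' hz' => (z1 z hz z' hz').trans (by gcongr)
      bdZ := fun z hz => (z2 z hz).trans (by gcongr)
      neckZ := fun z hz => (z3 z hz).trans (by gcongr)
      bdt := fun z hz => (t1 z hz).trans (by gcongr)
      neart_a := fun z h h' => (t2 z h h').trans (by gcongr)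
      neart_b := fun z h h' => (t3 z h h').trans (by gcongr)
      dert := fun z hz => ⟨(t4 z hz).1, (t4 z hz).2.trans (by gcongr)⟩
      Zglue := S.Zglue
      tglue := S.tglue
      catZ := ?_
      catt := ?_ }
  · intro z z' h1 h2 h1' h2'
    have := lip_annulus (f := fun z => Z z - z - ((ε ^ 2 : ℝ) : ℂ) ^ 2 / conj (z - aa))
      (a := aa) (r₁ := ε ^ 2 / 4) (r₂ := 4 * ε ^ 2) (by positivity)
      (fun w hw1 hw2 => (dF w hw1 hw2).differentiableAt) bF h1 h2 h1' h2'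
    rw [show (Z z - Z z') - ((z - z') + (((ε ^ 2 : ℝ) : ℂ) ^ 2 / conj (z - aa)
      - ((ε ^ 2 : ℝ) : ℂ) ^ 2 / conj (z' - aa))) =
      (Z z - z - ((ε ^ 2 : ℝ) : ℂ) ^ 2 / conj (z - aa)) -
      (Z z' - z' - ((ε ^ 2 : ℝ) : ℂ) ^ 2 / conj (z' - aa)) by ring]
    refine this.trans ?_
    have h3 : 3 * (2000 * K * ε) ≤ C' * ε := by
      have : (10 ^ 5 * K) * ε ≤ C' * ε := by gcongr
      have h4 : 0 < K * ε := by positivity
      linarith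
    exact mul_le_mul_of_nonneg_right h3 (norm_nonneg _)
  · intro z z' h1 h2 h1' h2'
    have := lip_annulus (f := fun z => t z + 2 * ε ^ 2 * Real.log ‖z - aa‖)
      (a := aa) (r₁ := ε ^ 2 / 4) (r₂ := 4 * ε ^ 2) (by positivity)
      (fun w hw1 hw2 => (dG w hw1 hw2).differentiableAt) bG h1 h2 h1' h2'
    rw [Real.norm_eq_abs] at this
    rw [show (t z - t z') + 2 * ε ^ 2 * (Real.log ‖z - aa‖ - Real.log ‖z' - aa‖) =
      (t z + 2 * ε ^ 2 * Real.log ‖z - aa‖) - (t z' + 2 * ε ^ 2 * Real.log ‖z' - aa‖) by ring]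
    refine this.trans ?_
    have h3 : 3 * (2000 * K * ε) ≤ C' * ε := by
      have : (10 ^ 5 * K) * ε ≤ C' * ε := by gcongr
      have h4 : 0 < K * ε := by positivity
      linarith
    exact mul_le_mul_of_nonneg_right h3 (norm_nonneg _)

end Pool.Agent.MP_49383f_gt
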