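import Pool.Agent.MP_49383f_gt.Basic
import Pool.Agent.MP_49383f_gt.EstAll

/-!
# Module G12: the inverse of `Z` away from the necks
-/

namespace Pool.Agent.MP_49383f_gt

open scoped ContDiff ComplexConjugate Topology
open MeasureTheory Metric Set Filter

namespace InvZ

/-! ### closeness in `C¹` at a point -/

/-- `f` is `C¹`-close to `g` at `z` -/
structure Cl (ε K M : ℝ) (f g : ℂ → ℂ) (z : ℂ) : Prop where
  df : DifferentiableAt ℝ f z
  dg : DifferentiableAt ℝ g z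
  v : ‖f z - g z‖ ≤ K * ε
  d : ‖fderiv ℝ f z - fderiv ℝ g z‖ ≤ K * ε
  bv : ‖g z‖ ≤ M
  bd : ‖fderiv ℝ g z‖ ≤ M

theorem Cl.mono {ε K M K' M' : ℝ} {f g : ℂ → ℂ} {z : ℂ} (h : Cl ε K M f g z) (hε : 0 ≤ ε)
    (hK : K ≤ K') (hM : M ≤ M') : Cl ε K' M' f g z :=
  ⟨h.df, h.dg, h.v.trans (by gcongr), h.d.trans (by gcongr), h.bv.trans hM, h.bd.trans hM⟩

theorem Cl.mul {ε K M K' M' : ℝ} {f g f' g' : ℂ → ℂ} {z : ℂ} (h : Cl ε K M f g z)
    (h' : Cl ε K' M' f' g' z) (hε : 0 ≤ ε) (hε1 : ε ≤ 1) (hK : 0 ≤ K) (hK' : 0 ≤ K') :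
    Cl ε (2 * (K * (M' + K') + K' * (M + K))) (2 * (M * M'))
      (fun z => f z * f' z) (fun z => g z * g' z) z := by
  have hM : 0 ≤ M := (norm_nonneg _).trans h.bv
  have hM' : 0 ≤ M' := (norm_nonneg _).trans h'.bv
  have f'b : ‖f' z‖ ≤ M' + K' := by
    calc ‖f' z‖ = ‖(f' z - g' z) + g' z‖ := by rw [sub_add_cancel]
      _ ≤ ‖f' z - g' z‖ + ‖g' z‖ := norm_add_le _ _
      _ ≤ K' * ε + M' := add_le_add h'.v h'.bv
      _ ≤ K' * 1 + M' := by gcongr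
      _ = M' + K' := by ring
  have df'b : ‖fderiv ℝ f' z‖ ≤ M' + K' := by
    calc ‖fderiv ℝ f' z‖ = ‖(fderiv ℝ f' z - fderiv ℝ g' z) + fderiv ℝ g' z‖ := by
          rw [sub_add_cancel]
      _ ≤ ‖fderiv ℝ f' z - fderiv ℝ g' z‖ + ‖fderiv ℝ g' z‖ := norm_add_le _ _
      _ ≤ K' * ε + M' := add_le_add h'.d h'.bd
      _ ≤ K' * 1 + M' := by gcongr
      _ = M' + K' := by ring
  have e1 : ∀ x y x' y' : ℝ, 0 ≤ x' → 0 ≤ y → x ≤ K * ε → y ≤ M' + K' → x' ≤ M →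
      y' ≤ K' * ε → x * y + x' * y' ≤ (K * (M' + K') + K' * (M + K)) * ε := by
    intro x y x' y' hx' hy h1 h2 h3 h4
    have i1 : x * y ≤ (K * ε) * (M' + K') := by
      calc x * y ≤ (K * ε) * y := mul_le_mul_of_nonneg_right h1 hy
        _ ≤ (K * ε) * (M' + K') := mul_le_mul_of_nonneg_left h2 (by positivity)
    have i2 : x' * y' ≤ M * (K' * ε) := by
      calc x' * y' ≤ x' * (K' * ε) := mul_le_mul_of_nonneg_left h4 hx'
        _ ≤ M * (K' * ε) := mul_le_mul_of_nonneg_right h3 (by positivity)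
    have i3 : 0 ≤ K' * K * ε := by positivity
    nlinarith
  refine ⟨h.df.mul h'.df, h.dg.mul h'.dg, ?_, ?_, ?_, ?_⟩
  · have : f z * f' z - g z * g' z = (f z - g z) * f' z + g z * (f' z - g' z) := by ring
    rw [this]
    refine (norm_add_le _ _).trans ?_
    rw [norm_mul, norm_mul]
    have := e1 _ _ _ _ (norm_nonneg (g z)) (norm_nonneg (f' z)) h.v f'b h.bv h'.v
    refine this.trans ?_
    have : 0 ≤ (K * (M' + K') + K' * (M + K)) * ε := by positivity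
    linarith
  · rw [fderiv_fun_mul h.df h'.df, fderiv_fun_mul h.dg h'.dg]
    have : f z • fderiv ℝ f' z + f' z • fderiv ℝ f z - (g z • fderiv ℝ g' z + g' z • fderiv ℝ g z)
        = ((f z - g z) • fderiv ℝ f' z + g z • (fderiv ℝ f' z - fderiv ℝ g' z)) +
          ((f' z - g' z) • fderiv ℝ f z + g' z • (fderiv ℝ f z - fderiv ℝ g z)) := by
      simp only [sub_smul, smul_sub]
      abel
    rw [this]
    have fb : ‖fderiv ℝ f z‖ ≤ M + K := by
      calc ‖fderiv ℝ f z‖ = ‖(fderiv ℝ f z - fderiv ℝ g z) + fderiv ℝ g z‖ := by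
            rw [sub_add_cancel]
        _ ≤ ‖fderiv ℝ f z - fderiv ℝ g z‖ + ‖fderiv ℝ g z‖ := norm_add_le _ _
        _ ≤ K * ε + M := add_le_add h.d h.bd
        _ ≤ K * 1 + M := by gcongr
        _ = M + K := by ring
    have j1 : ‖(f z - g z) • fderiv ℝ f' z + g z • (fderiv ℝ f' z - fderiv ℝ g' z)‖ ≤
        (K * (M' + K') + K' * (M + K)) * ε := by
      refine (norm_add_le _ _).trans ?_
      rw [norm_smul, norm_smul]
      exact e1 _ _ _ _ (norm_nonneg _) (norm_nonneg _) h.v df'b h.bv h'.d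
    have j2 : ‖(f' z - g' z) • fderiv ℝ f z + g' z • (fderiv ℝ f z - fderiv ℝ g z)‖ ≤
        (K * (M' + K') + K' * (M + K)) * ε := by
      refine (norm_add_le _ _).trans ?_
      rw [norm_smul, norm_smul]
      have i1 : ‖f' z - g' z‖ * ‖fderiv ℝ f z‖ ≤ (K' * ε) * (M + K) := by
        calc ‖f' z - g' z‖ * ‖fderiv ℝ f z‖ ≤ (K' * ε) * ‖fderiv ℝ f z‖ :=
              mul_le_mul_of_nonneg_right h'.v (norm_nonneg _)
          _ ≤ (K' * ε) * (M + K) := mul_le_mul_of_nonneg_left fb (by positivity)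
      have i2 : ‖g' z‖ * ‖fderiv ℝ f z - fderiv ℝ g z‖ ≤ M' * (K * ε) := by
        calc ‖g' z‖ * ‖fderiv ℝ f z - fderiv ℝ g z‖ ≤ ‖g' z‖ * (K * ε) :=
              mul_le_mul_of_nonneg_left h.d (norm_nonneg _)
          _ ≤ M' * (K * ε) := mul_le_mul_of_nonneg_right h'.bv (by positivity)
      have i3 : 0 ≤ K' * K * ε := by positivity
      nlinarith
    calc _ ≤ _ := norm_add_le _ _
      _ ≤ (K * (M' + K') + K' * (M + K)) * ε + (K * (M' + K') + K' * (M + K)) * ε :=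
          add_le_add j1 j2
      _ = _ := by ring
  · rw [norm_mul]
    have : ‖g z‖ * ‖g' z‖ ≤ M * M' := mul_le_mul h.bv h'.bv (norm_nonneg _) hM
    have h0 : 0 ≤ M * M' := by positivity
    linarith
  · rw [fderiv_fun_mul h.dg h'.dg]
    refine (norm_add_le _ _).trans ?_
    rw [norm_smul, norm_smul]
    have i1 : ‖g z‖ * ‖fderiv ℝ g' z‖ ≤ M * M' := mul_le_mul h.bv h'.bd (norm_nonneg _) hM
    have i2 : ‖g' z‖ * ‖fderiv ℝ g z‖ ≤ M' * M := mul_le_mul h'.bv h.bd (norm_nonneg _) hM'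
    linarith

theorem norm_conj_comp (A : ℂ →L[ℝ] ℂ) : ‖(Complex.conjCLE : ℂ →L[ℝ] ℂ).comp A‖ ≤ ‖A‖ := by
  refine ContinuousLinearMap.opNorm_le_bound _ (norm_nonneg _) fun u => ?_
  have : ((Complex.conjCLE : ℂ →L[ℝ] ℂ).comp A) u = conj (A u) := rfl
  rw [this, RCLike.norm_conj]
  exact A.le_opNorm u

theorem hasFDerivAt_conj {f : ℂ → ℂ} {z : ℂ} (hf : DifferentiableAt ℝ f z) :
    HasFDerivAt (fun z => conj (f z)) ((Complex.conjCLE : ℂ →L[ℝ] ℂ).comp (fderiv ℝ f z)) z :=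
  (Complex.conjCLE : ℂ →L[ℝ] ℂ).hasFDerivAt.comp z hf.hasFDerivAt

theorem Cl.conj {ε K M : ℝ} {f g : ℂ → ℂ} {z : ℂ} (h : Cl ε K M f g z) :
    Cl ε K M (fun z => conj (f z)) (fun z => conj (g z)) z := by
  have h1 := hasFDerivAt_conj h.df
  have h2 := hasFDerivAt_conj h.dg
  refine ⟨h1.differentiableAt, h2.differentiableAt, ?_, ?_, ?_, ?_⟩
  · rw [← map_sub, RCLike.norm_conj]
    exact h.v
  · rw [h1.fderiv, h2.fderiv, ← ContinuousLinearMap.comp_sub]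
    exact (norm_conj_comp _).trans h.d
  · rw [RCLike.norm_conj]
    exact h.bv
  · rw [h2.fderiv]
    exact (norm_conj_comp _).trans h.bd

theorem Cl.sub {ε K M K' M' : ℝ} {f g f' g' : ℂ → ℂ} {z : ℂ} (h : Cl ε K M f g z)
    (h' : Cl ε K' M' f' g' z) :
    Cl ε (K + K') (M + M') (fun z => f z - f' z) (fun z => g z - g' z) z := by
  refine ⟨h.df.sub h'.df, h.dg.sub h'.dg, ?_, ?_, ?_, ?_⟩
  · have : f z - f' z - (g z - g' z) = (f z - g z) - (f' z - g' z) := by ring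
    rw [this]
    refine (norm_sub_le _ _).trans ?_
    rw [add_mul]
    exact add_le_add h.v h'.v
  · rw [fderiv_fun_sub h.df h'.df, fderiv_fun_sub h.dg h'.dg]
    have : fderiv ℝ f z - fderiv ℝ f' z - (fderiv ℝ g z - fderiv ℝ g' z) =
        (fderiv ℝ f z - fderiv ℝ g z) - (fderiv ℝ f' z - fderiv ℝ g' z) := by abel
    rw [this]
    refine (norm_sub_le _ _).trans ?_
    rw [add_mul]
    exact add_le_add h.d h'.d
  · exact (norm_sub_le _ _).trans (add_le_add h.bv h'.bv)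
  · rw [fderiv_fun_sub h.dg h'.dg]
    exact (norm_sub_le _ _).trans (add_le_add h.bd h'.bd)

theorem Cl.small {ε K M : ℝ} {f g : ℂ → ℂ} {z : ℂ} (h : Cl ε K M f g z) (hε : 0 ≤ ε)
    (hε1 : ε ≤ 1) (hK : 0 ≤ K) :
    Cl ε (M + K) 0 (fun z => ((ε ^ 2 : ℝ) : ℂ) * f z) (fun _ => 0) z := by
  have hM : 0 ≤ M := (norm_nonneg _).trans h.bv
  have hfb : ‖f z‖ ≤ M + K := by
    calc ‖f z‖ = ‖(f z - g z) + g z‖ := by rw [sub_add_cancel]
      _ ≤ ‖f z - g z‖ + ‖g z‖ := norm_add_le _ _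
      _ ≤ K * ε + M := add_le_add h.v h.bv
      _ ≤ K * 1 + M := by gcongr
      _ = M + K := by ring
  have hdb : ‖fderiv ℝ f z‖ ≤ M + K := by
    calc ‖fderiv ℝ f z‖ = ‖(fderiv ℝ f z - fderiv ℝ g z) + fderiv ℝ g z‖ := by
          rw [sub_add_cancel]
      _ ≤ ‖fderiv ℝ f z - fderiv ℝ g z‖ + ‖fderiv ℝ g z‖ := norm_add_le _ _
      _ ≤ K * ε + M := add_le_add h.d h.bd
      _ ≤ K * 1 + M := by gcongr
      _ = M + K := by ring
  have e2 : ε ^ 2 ≤ ε := by nlinarith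
  have hn : ‖((ε ^ 2 : ℝ) : ℂ)‖ = ε ^ 2 := by
    rw [Complex.norm_real, Real.norm_of_nonneg (by positivity)]
  refine ⟨h.df.const_mul _, differentiableAt_const _, ?_, ?_, by simp, by simp⟩
  · rw [sub_zero, norm_mul, hn]
    calc ε ^ 2 * ‖f z‖ ≤ ε * (M + K) := mul_le_mul e2 hfb (norm_nonneg _) hε
      _ = (M + K) * ε := by ring
  · rw [fderiv_const_mul h.df, fderiv_fun_const]
    simp only [Pi.zero_apply, sub_zero]
    rw [norm_smul, hn]
    calc ε ^ 2 * ‖fderiv ℝ f z‖ ≤ ε * (M + K) := mul_le_mul e2 hdb (norm_nonneg _) hε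
      _ = (M + K) * ε := by ring

theorem Cl.one_inv {ε K M : ℝ} {f : ℂ → ℂ} {z : ℂ} (h : Cl ε K M f (fun _ => 1) z)
    (hε : 0 ≤ ε) (hK : K * ε ≤ 1 / 2) (hK0 : 0 ≤ K) :
    Cl ε (4 * K) 1 (fun z => (f z)⁻¹) (fun _ => 1) z := by
  have hv := h.v
  have hfz : 1 / 2 ≤ ‖f z‖ := by
    have h1 : (1 : ℝ) = ‖f z - (f z - 1)‖ := by simp
    have h2 := norm_sub_le (f z) (f z - 1)
    rw [← h1] at h2
    linarith
  have hf0 : f z ≠ 0 := by
    intro hc
    rw [hc, norm_zero] at hfz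
    linarith
  have hinv : ‖(f z)⁻¹‖ ≤ 2 := by
    rw [norm_inv]
    have := inv_anti₀ (by norm_num) hfz
    simpa using this
  have hd : HasFDerivAt (fun z => (f z)⁻¹) (-((f z ^ 2)⁻¹ • fderiv ℝ f z)) z := by
    have h1 : HasDerivAt (fun x : ℂ => x⁻¹) (-(f z ^ 2)⁻¹) (f z) := hasDerivAt_inv hf0
    have h2 : HasFDerivAt (fun x : ℂ => x⁻¹)
        ((ContinuousLinearMap.toSpanSingleton ℂ (-(f z ^ 2)⁻¹)).restrictScalars ℝ) (f z) :=
      h1.hasFDerivAt.restrictScalars ℝ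
    have h3 := h2.comp z h.df.hasFDerivAt
    refine h3.congr_fderiv ?_
    ext u
    simp [mul_comm]
  refine ⟨hd.differentiableAt, differentiableAt_const _, ?_, ?_, by simp, by simp⟩
  · have e : (f z)⁻¹ - 1 = -((f z)⁻¹ * (f z - 1)) := by
      field_simp
      ring
    rw [e, norm_neg, norm_mul]
    calc ‖(f z)⁻¹‖ * ‖f z - 1‖ ≤ 2 * (K * ε) := mul_le_mul hinv hv (norm_nonneg _) (by norm_num)
      _ ≤ 4 * K * ε := by
        have : 0 ≤ K * ε := by positivity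
        linarith
  · rw [hd.fderiv, fderiv_fun_const]
    simp only [Pi.zero_apply, sub_zero]
    rw [norm_neg, norm_smul, norm_inv, norm_pow, ← inv_pow, ← norm_inv]
    have h4 := h.d
    rw [fderiv_fun_const] at h4
    simp only [Pi.zero_apply, sub_zero] at h4
    calc ‖(f z)⁻¹‖ ^ 2 * ‖fderiv ℝ f z‖ ≤ 2 ^ 2 * (K * ε) := by gcongr
      _ = 4 * K * ε := by ring

/-! ### elementary facts about the domains -/

theorem FR_subset_WW {ε : ℝ} (hε : 0 < ε) (hε' : ε ≤ 1 / 10) : FR ⊆ WW ε := by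
  intro z hz
  have : ε ^ 2 ≤ 1 / 20 := by nlinarith
  exact ⟨hz.1, this.trans hz.2.1, this.trans hz.2.2⟩

theorem Om_subset_Om0 (ε : ℝ) : Om ε ⊆ Om0 ε := by
  intro z hz
  have h1 := norm_le_of_mem_Rect hz.1
  have h2 := hz.2.1
  have h3 := hz.2.2
  refine ⟨by linarith, ?_, ?_⟩
  · nlinarith [sq_nonneg ε]
  · nlinarith [sq_nonneg ε]

theorem mem_FR_of_near {P z : ℂ} (hP : P ∈ VP) (hz : ‖z - P‖ < 1 / 60) : z ∈ FR := by
  obtain ⟨h1, h2, h3, h4, h5⟩ := hP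
  have hre : |(z - P).re| < 1 / 60 := (Complex.abs_re_le_norm _).trans_lt hz
  have him : |(z - P).im| < 1 / 60 := (Complex.abs_im_le_norm _).trans_lt hz
  rw [Complex.sub_re, abs_lt] at hre
  rw [Complex.sub_im, abs_lt] at him
  rw [abs_lt] at h3
  refine ⟨⟨by linarith, by linarith, ?_⟩, ?_, ?_⟩
  · rw [abs_lt]
    constructor <;> linarith
  · have : P - aa = (z - aa) - (z - P) := by ring
    have h6 := norm_sub_le (z - aa) (z - P)
    rw [← this] at h6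
    linarith
  · have : P - bb = (z - bb) - (z - P) := by ring
    have h6 := norm_sub_le (z - bb) (z - P)
    rw [← this] at h6
    linarith

theorem norm_sub_aa_le {z : ℂ} (hz : z ∈ Rect) : ‖z - aa‖ ≤ 6 := by
  have h1 := norm_le_of_mem_Rect hz
  have h2 := norm_sub_le z aa
  rw [norm_aa] at h2
  linarith

theorem norm_sub_bb_le {z : ℂ} (hz : z ∈ Rect) : ‖z - bb‖ ≤ 6 := by
  have h1 := norm_le_of_mem_Rect hz
  have h2 := norm_sub_le z bb
  rw [norm_bb] at h2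
  linarith

/-! ### `Z` is close to the identity -/

theorem inv_conj_sub {r : ℝ} {a z z' : ℂ} (hz : 1 / 20 ≤ ‖z - a‖) (hz' : 1 / 20 ≤ ‖z' - a‖) :
    ‖(r : ℂ) ^ 2 / conj (z - a) - (r : ℂ) ^ 2 / conj (z' - a)‖ ≤ 400 * r ^ 2 * ‖z - z'‖ := by
  have h1 : (0 : ℝ) < ‖z - a‖ := by linarith
  have h2 : (0 : ℝ) < ‖z' - a‖ := by linarith
  have n1 : z - a ≠ 0 := norm_pos_iff.1 h1
  have n2 : z' - a ≠ 0 := norm_pos_iff.1 h2
  have m1 : conj (z - a) ≠ 0 := by rw [Ne, map_eq_zero]; exact n1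
  have m2 : conj (z' - a) ≠ 0 := by rw [Ne, map_eq_zero]; exact n2
  have e : (r : ℂ) ^ 2 / conj (z - a) - (r : ℂ) ^ 2 / conj (z' - a) =
      (r : ℂ) ^ 2 * conj (z' - z) / (conj (z - a) * conj (z' - a)) := by
    rw [div_sub_div _ _ m1 m2]
    congr 1
    simp only [map_sub]
    ring
  rw [e, norm_div, norm_mul, norm_mul, norm_pow, RCLike.norm_conj, RCLike.norm_conj,
    RCLike.norm_conj, Complex.norm_real, Real.norm_eq_abs, sq_abs, norm_sub_rev z' z,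
    div_le_iff₀ (by positivity)]
  have h3 : (1 / 400 : ℝ) ≤ ‖z - a‖ * ‖z' - a‖ := by nlinarith
  have h4 : 0 ≤ r ^ 2 * ‖z - z'‖ := by positivity
  nlinarith

theorem inv_conj_le {r : ℝ} {a z : ℂ} (hz : 1 / 20 ≤ ‖z - a‖) :
    ‖(r : ℂ) ^ 2 / conj (z - a)‖ ≤ 20 * r ^ 2 := by
  have h1 : (0 : ℝ) < ‖z - a‖ := by linarith
  rw [norm_div, norm_pow, RCLike.norm_conj, Complex.norm_real, Real.norm_eq_abs, sq_abs,
    div_le_iff₀ h1]
  have : 0 ≤ r ^ 2 := sq_nonneg r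
  nlinarith

theorem Z_sub_le {C ε : ℝ} (hC : 0 < C) (hε : 0 < ε) (hε' : ε ≤ 1 / 10) {Z : ℂ → ℂ}
    {t : ℂ → ℝ} {h₀ : ℝ} (E : Est C ε Z t h₀) {z : ℂ} (hz : z ∈ FR) :
    ‖Z z - z‖ ≤ (C + 40) * ε := by
  have hW := FR_subset_WW hε hε' hz
  have h1 := E.bdZ z hW
  have h2 := inv_conj_le (r := ε ^ 2) hz.2.1
  have h3 := inv_conj_le (r := ε ^ 2) hz.2.2
  have e : Z z - z = DZ ε Z z + (((ε ^ 2 : ℝ) : ℂ) ^ 2 / conj (z - aa)) +
      (((ε ^ 2 : ℝ) : ℂ) ^ 2 / conj (z - bb)) := by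
    rw [DZ]; ring
  rw [e]
  have h4 : (ε ^ 2) ^ 2 ≤ ε := by
    have : ε ^ 3 ≤ 1 := pow_le_one₀ hε.le (by linarith)
    calc (ε ^ 2) ^ 2 = ε * ε ^ 3 := by ring
      _ ≤ ε * 1 := by gcongr
      _ = ε := mul_one _
  calc _ ≤ ‖DZ ε Z z‖ + ‖((ε ^ 2 : ℝ) : ℂ) ^ 2 / conj (z - aa)‖ +
        ‖((ε ^ 2 : ℝ) : ℂ) ^ 2 / conj (z - bb)‖ := norm_add₃_le
    _ ≤ C * ε + 20 * (ε ^ 2) ^ 2 + 20 * (ε ^ 2) ^ 2 := by gcongr
    _ ≤ (C + 40) * ε := by linarith

theorem Z_sub_lip {C ε : ℝ} (hC : 0 < C) (hε : 0 < ε) (hε' : ε ≤ 1 / 10) {Z : ℂ → ℂ}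
    {t : ℂ → ℝ} {h₀ : ℝ} (E : Est C ε Z t h₀) {z z' : ℂ} (hz : z ∈ FR) (hz' : z' ∈ FR) :
    ‖Z z - Z z' - (z - z')‖ ≤ (C + 800) * ε * ‖z - z'‖ := by
  have hW := FR_subset_WW hε hε' hz
  have hW' := FR_subset_WW hε hε' hz'
  have h1 := E.lipZ z hW z' hW'
  have h2 := inv_conj_sub (r := ε ^ 2) hz.2.1 hz'.2.1
  have h3 := inv_conj_sub (r := ε ^ 2) hz.2.2 hz'.2.2
  have e : Z z - Z z' - (z - z') = (DZ ε Z z - DZ ε Z z') +
      (((ε ^ 2 : ℝ) : ℂ) ^ 2 / conj (z - aa) - ((ε ^ 2 : ℝ) : ℂ) ^ 2 / conj (z' - aa)) +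
      (((ε ^ 2 : ℝ) : ℂ) ^ 2 / conj (z - bb) - ((ε ^ 2 : ℝ) : ℂ) ^ 2 / conj (z' - bb)) := by
    rw [DZ, DZ]; ring
  rw [e]
  have h4 : (ε ^ 2) ^ 2 ≤ ε := by
    have : ε ^ 3 ≤ 1 := pow_le_one₀ hε.le (by linarith)
    calc (ε ^ 2) ^ 2 = ε * ε ^ 3 := by ring
      _ ≤ ε * 1 := by gcongr
      _ = ε := mul_one _
  have h5 : (ε ^ 2) ^ 2 * ‖z - z'‖ ≤ ε * ‖z - z'‖ := by gcongr
  refine norm_add₃_le.trans ?_
  calc _ ≤ C * ε * ‖z - z'‖ + 400 * (ε ^ 2) ^ 2 * ‖z - z'‖ + 400 * (ε ^ 2) ^ 2 * ‖z - z'‖ := by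
        gcongr
    _ ≤ _ := by nlinarith

/-! ### linear algebra of `dform` and `reform` -/

theorem dform_apply (α β u : ℂ) : dform α β u = α * u + β * conj u := by
  simp [dform]

theorem reform_apply (α u : ℂ) : reform α u = 2 * (α * u).re := by
  simp [reform]

/-- `reform` as a real linear map -/
noncomputable def reformL : ℂ →L[ℝ] (ℂ →L[ℝ] ℝ) :=
  LinearMap.mkContinuous
    { toFun := reform
      map_add' := fun x y => by
        ext u <;> simp [reform_apply] <;> ring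
      map_smul' := fun c x => by
        ext u <;> simp [reform_apply] <;> ring } 2 (by
    intro x
    refine ContinuousLinearMap.opNorm_le_bound _ (by positivity) fun u => ?_
    change ‖reform x u‖ ≤ _
    rw [reform_apply, norm_mul, Real.norm_eq_abs, Real.norm_eq_abs, abs_of_pos (by norm_num :
      (0 : ℝ) < 2), mul_assoc]
    refine mul_le_mul_of_nonneg_left ?_ (by norm_num)
    rw [← norm_mul]
    exact Complex.abs_re_le_norm _)

theorem reformL_apply (x : ℂ) : reformL x = reform x := rfl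

theorem norm_reformL_le : ‖reformL‖ ≤ 2 :=
  LinearMap.mkContinuous_norm_le _ (by norm_num) _

theorem norm_reform_sub_le (x y : ℂ) : ‖reform x - reform y‖ ≤ 2 * ‖x - y‖ := by
  rw [← reformL_apply, ← reformL_apply, ← map_sub]
  refine (reformL.le_opNorm _).trans ?_
  gcongr
  exact norm_reformL_le

/-- the inverse of `dform α β` -/
noncomputable def dequiv (α β : ℂ) (h : α * conj α - β * conj β ≠ 0) : ℂ ≃L[ℝ] ℂ :=
  ContinuousLinearEquiv.equivOfInverse (dform α β)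
    (dform (conj α / (α * conj α - β * conj β)) (-β / (α * conj α - β * conj β)))
    (by
      intro u
      simp only [dform_apply, map_add, map_mul, Complex.conj_conj]
      refine Eq.trans (b := (α * conj α - β * conj β) / (α * conj α - β * conj β) * u)
        (by ring) ?_
      rw [div_self h, one_mul])
    (by
      intro u
      have hc : conj (α * conj α - β * conj β) = α * conj α - β * conj β := by
        simp only [map_sub, map_mul, Complex.conj_conj]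
        ring
      simp only [dform_apply, map_add, map_mul, map_div₀, map_neg, hc, Complex.conj_conj]
      refine Eq.trans (b := (α * conj α - β * conj β) / (α * conj α - β * conj β) * u)
        (by ring) ?_
      rw [div_self h, one_mul])

theorem dequiv_coe (α β : ℂ) (h : α * conj α - β * conj β ≠ 0) :
    ((dequiv α β h : ℂ ≃L[ℝ] ℂ) : ℂ →L[ℝ] ℂ) = dform α β := rfl

theorem dequiv_symm_coe (α β : ℂ) (h : α * conj α - β * conj β ≠ 0) :
    ((dequiv α β h).symm : ℂ →L[ℝ] ℂ) =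
      dform (conj α / (α * conj α - β * conj β)) (-β / (α * conj α - β * conj β)) := rfl

theorem hasFDerivAt_qq (z : ℂ) : HasFDerivAt qq (dform (2 - z) (-1)) z := by
  have h1 : HasDerivAt (fun z : ℂ => 2 * z - z ^ 2 / 2) (2 - z) z := by
    have h2 := ((hasDerivAt_id z).const_mul (2 : ℂ)).sub (((hasDerivAt_id z).pow 2).div_const 2)
    refine h2.congr_deriv ?_
    simp
  have h3 : HasFDerivAt (fun z : ℂ => 2 * z - z ^ 2 / 2)
      ((ContinuousLinearMap.toSpanSingleton ℂ (2 - z)).restrictScalars ℝ) z :=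
    h1.hasFDerivAt.restrictScalars ℝ
  have h4 := h3.sub (Complex.conjCLE : ℂ →L[ℝ] ℂ).hasFDerivAt
  refine h4.congr_fderiv ?_
  ext u
  simp [dform_apply]
  ring

theorem hasFDerivAt_TT (z : ℂ) : HasFDerivAt TT (reform (qq z)) z := by
  have hre : HasFDerivAt (fun z : ℂ => z.re) Complex.reCLM z := Complex.reCLM.hasFDerivAt
  have him : HasFDerivAt (fun z : ℂ => z.im) Complex.imCLM z := Complex.imCLM.hasFDerivAt
  have h1 := (((hre.pow 2).mul_const (3 : ℝ)⁻¹).sub (him.pow 2)).mul (hre.const_sub 3)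
  have e : TT = fun z : ℂ => (z.re ^ 2 * (3 : ℝ)⁻¹ - z.im ^ 2) * (3 - z.re) := by
    funext z
    rw [TT, div_eq_mul_inv]
  rw [e]
  refine h1.congr_fderiv ?_
  ext u
  simp [reform_apply, qq, pow_two]
  ring

/-! ### the spinor on `FR` -/

/-- the function `G = conj φ₁ φ₂ / (ε (|φ₁|² - |φ₂|²))` -/
noncomputable def GF (ε : ℝ) (φ₁ φ₂ : ℂ → ℂ) (z : ℂ) : ℂ :=
  conj (φ₁ z) * (φ₂ z / ε) * (φ₁ z * conj (φ₁ z) -
    ((ε ^ 2 : ℝ) : ℂ) * ((φ₂ z / ε) * conj (φ₂ z / ε)))⁻¹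

theorem core_est {C ε : ℝ} (hε : 0 < ε) (hε' : ε ≤ 1 / 10) {φ₁ φ₂ : ℂ → ℂ}
    (c : Core C ε φ₁ φ₂) {z : ℂ} (hz : z ∈ FR) :
    Cl ε (41 * |C|) 1 φ₁ (fun _ => 1) z ∧
    Cl ε (|C| + 40) 20 (fun z => φ₂ z / ε) qq z := by
  have hOm0 : z ∈ Om0 ε := Om_subset_Om0 ε (WW_subset_Om hε (FR_subset_WW hε hε' hz))
  have hzn := norm_le_of_mem_Rect hz.1
  have hW := FR_subset_WW hε hε' hz
  have hO : Om0 ε ∈ 𝓝 z := (isOpen_Om0 ε).mem_nhds hOm0
  have d1 : DifferentiableAt ℝ φ₁ z :=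
    ((c.smooth₁.differentiableOn (by simp)) z hOm0).differentiableAt hO
  have d2 : DifferentiableAt ℝ φ₂ z :=
    ((c.smooth₂.differentiableOn (by simp)) z hOm0).differentiableAt hO
  have ha : (0 : ℝ) < ‖z - aa‖ := by linarith [hz.2.1]
  have hb : (0 : ℝ) < ‖z - bb‖ := by linarith [hz.2.2]
  have qa : ε ^ 2 / ‖z - aa‖ ≤ 20 * ε ^ 2 := by
    rw [div_le_iff₀ ha]
    nlinarith [hz.2.1, sq_nonneg ε]
  have qb : ε ^ 2 / ‖z - bb‖ ≤ 20 * ε ^ 2 := by
    rw [div_le_iff₀ hb]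
    nlinarith [hz.2.2, sq_nonneg ε]
  have hK := abs_nonneg C
  have e2 : ε ^ 2 ≤ ε := by nlinarith
  have hn : ‖(ε : ℂ)‖ = ε := by rw [Complex.norm_real, Real.norm_of_nonneg hε.le]
  have hε0 : (ε : ℂ) ≠ 0 := by exact_mod_cast hε.ne'
  constructor
  · refine ⟨d1, differentiableAt_const _, ?_, ?_, by simp, by simp⟩
    · refine (c.est₁ z hzn hW.2.1 hW.2.2).trans ?_
      have h0 : 0 ≤ ε ^ 2 + ε * (ε ^ 2 / ‖z - aa‖) + ε * (ε ^ 2 / ‖z - bb‖) := by positivity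
      have h1 : ε ^ 2 + ε * (ε ^ 2 / ‖z - aa‖) + ε * (ε ^ 2 / ‖z - bb‖) ≤ 41 * ε := by
        have : ε * (ε ^ 2 / ‖z - aa‖) ≤ ε * (20 * ε ^ 2) := by gcongr
        have : ε * (ε ^ 2 / ‖z - bb‖) ≤ ε * (20 * ε ^ 2) := by gcongr
        nlinarith
      calc C * (ε ^ 2 + ε * (ε ^ 2 / ‖z - aa‖) + ε * (ε ^ 2 / ‖z - bb‖))
          ≤ |C| * (ε ^ 2 + ε * (ε ^ 2 / ‖z - aa‖) + ε * (ε ^ 2 / ‖z - bb‖)) := by
            gcongr
            exact le_abs_self C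
        _ ≤ |C| * (41 * ε) := by gcongr
        _ = 41 * |C| * ε := by ring
    · rw [fderiv_fun_const]
      simp only [Pi.zero_apply, sub_zero]
      refine (c.der₁ z hzn hz.2.1 hz.2.2).trans ?_
      have : C * ε ≤ |C| * ε := by
        gcongr
        exact le_abs_self C
      nlinarith [mul_nonneg hK hε.le]
  · refine ⟨d2.mul_const _, (hasFDerivAt_qq z).differentiableAt, ?_, ?_, ?_, ?_⟩
    · have h1 := c.est₂ z hzn hW.2.1 hW.2.2
      have h2 : ‖φ₂ z - ε * qq z‖ ≤ (|C| + 40) * ε ^ 2 := by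
        have e : φ₂ z - ε * qq z = (φ₂ z - (ε * qq z - ((ε ^ 2 : ℝ) : ℂ) / (z - aa)
          - ((ε ^ 2 : ℝ) : ℂ) / (z - bb))) - ((ε ^ 2 : ℝ) : ℂ) / (z - aa)
          - ((ε ^ 2 : ℝ) : ℂ) / (z - bb) := by ring
        have n1 : ‖((ε ^ 2 : ℝ) : ℂ) / (z - aa)‖ ≤ 20 * ε ^ 2 := by
          rw [norm_div, Complex.norm_real, Real.norm_of_nonneg (by positivity)]
          exact qa
        have n2 : ‖((ε ^ 2 : ℝ) : ℂ) / (z - bb)‖ ≤ 20 * ε ^ 2 := by
          rw [norm_div, Complex.norm_real, Real.norm_of_nonneg (by positivity)]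
          exact qb
        have hC : C * ε ^ 2 ≤ |C| * ε ^ 2 := by
          gcongr
          exact le_abs_self C
        rw [e]
        refine (norm_sub_le _ _).trans ?_
        have := norm_sub_le (φ₂ z - (ε * qq z - ((ε ^ 2 : ℝ) : ℂ) / (z - aa)
          - ((ε ^ 2 : ℝ) : ℂ) / (z - bb))) (((ε ^ 2 : ℝ) : ℂ) / (z - aa))
        linarith
      have e : φ₂ z / ε - qq z = (φ₂ z - ε * qq z) / ε := by
        field_simp
      rw [e, norm_div, hn, div_le_iff₀ hε]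
      calc ‖φ₂ z - ε * qq z‖ ≤ (|C| + 40) * ε ^ 2 := h2
        _ = (|C| + 40) * ε * ε := by ring
    · have h1 := c.der₂ z hzn hz.2.1 hz.2.2
      have hd : DifferentiableAt ℝ (fun w => φ₂ w - ε * qq w) z :=
        d2.sub ((hasFDerivAt_qq z).differentiableAt.const_mul _)
      have e : (fun z => φ₂ z / (ε : ℂ)) = fun z => (ε : ℂ)⁻¹ * (φ₂ z - ε * qq z) + qq z := by
        funext w
        field_simp
        ring
      rw [e, fderiv_fun_add (hd.const_mul _) (hasFDerivAt_qq z).differentiableAt,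
        add_sub_cancel_right, fderiv_const_mul hd, norm_smul, norm_inv, hn]
      have hC : C * ε ^ 2 ≤ |C| * ε ^ 2 := by
        gcongr
        exact le_abs_self C
      calc ε⁻¹ * ‖fderiv ℝ (fun w => φ₂ w - ε * qq w) z‖ ≤ ε⁻¹ * (|C| * ε ^ 2) := by
            gcongr
            exact h1.trans hC
        _ = |C| * ε := by field_simp
        _ ≤ (|C| + 40) * ε := by nlinarith
    · rw [qq]
      calc ‖2 * z - z ^ 2 / 2 - conj z‖ ≤ ‖2 * z - z ^ 2 / 2‖ + ‖conj z‖ := norm_sub_le _ _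
        _ ≤ ‖2 * z‖ + ‖z ^ 2 / 2‖ + ‖conj z‖ := by gcongr; exact norm_sub_le _ _
        _ = 2 * ‖z‖ + ‖z‖ ^ 2 / 2 + ‖z‖ := by
          rw [norm_mul, norm_div, norm_pow, RCLike.norm_conj]
          norm_num
        _ ≤ 20 := by nlinarith [norm_nonneg z]
    · rw [(hasFDerivAt_qq z).fderiv]
      refine ContinuousLinearMap.opNorm_le_bound _ (by norm_num) fun u => ?_
      rw [dform_apply]
      calc ‖(2 - z) * u + -1 * conj u‖ ≤ ‖(2 - z) * u‖ + ‖-1 * conj u‖ := norm_add_le _ _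
        _ = ‖2 - z‖ * ‖u‖ + ‖u‖ := by
          rw [norm_mul, norm_mul, RCLike.norm_conj]
          simp
        _ ≤ (2 + ‖z‖) * ‖u‖ + ‖u‖ := by
          gcongr
          refine (norm_sub_le _ _).trans ?_
          simp
        _ ≤ 20 * ‖u‖ := by nlinarith [norm_nonneg u]

/-- `G` is close to `qq` -/
theorem GF_est (C : ℝ) : ∃ K > 0, ∃ ε₀ > 0, ∀ ε : ℝ, 0 < ε → ε < ε₀ → ∀ φ₁ φ₂,
    Core C ε φ₁ φ₂ → ∀ z ∈ FR, Cl ε K 100 (GF ε φ₁ φ₂) qq z ∧
      ‖φ₁ z - 1‖ ≤ K * ε ∧ ‖φ₂ z‖ ≤ K * ε := by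
  set c1 := 41 * |C| with hc1
  set c2 := |C| + 40 with hc2
  have h0 : 0 ≤ |C| := abs_nonneg C
  -- successive constants
  set k3 := 2 * (c1 * (1 + c1) + c1 * (1 + c1)) with hk3
  set k4 := 2 * (c2 * (20 + c2) + c2 * (20 + c2)) with hk4
  set k5 := 2 * (20 * 20) + k4 with hk5
  set k6 := k3 + k5 with hk6
  set k7 := 4 * k6 with hk7
  set k8 := 2 * (c1 * (20 + c2) + c2 * (1 + c1)) with hk8
  set k9 := 2 * (k8 * (1 + k7) + k7 * (2 * (1 * 20) + k8)) with hk9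
  have p1 : 0 ≤ c1 := by positivity
  have p2 : 0 ≤ c2 := by positivity
  have p3 : 0 ≤ k3 := by positivity
  have p4 : 0 ≤ k4 := by positivity
  have p5 : 0 ≤ k5 := by positivity
  have p6 : 0 ≤ k6 := by positivity
  have p7 : 0 ≤ k7 := by positivity
  have p8 : 0 ≤ k8 := by positivity
  have p9 : 0 ≤ k9 := by positivity
  refine ⟨k9 + c1 + c2 + 20 + 1, by positivity, min (1 / 10) (1 / (2 * (k6 + 1))),
    by positivity, ?_⟩
  intro ε hε hlt φ₁ φ₂ core z hz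
  rw [lt_min_iff] at hlt
  obtain ⟨hl1, hl2⟩ := hlt
  have hε1 : ε ≤ 1 := by linarith
  obtain ⟨a1, a2⟩ := core_est hε hl1.le core hz
  have b1 := a1.conj
  have b2 := a2.conj
  -- φ₁ conj φ₁ ~ 1
  have m1 : Cl ε k3 2 (fun z => φ₁ z * conj (φ₁ z)) (fun _ => 1) z := by
    have := a1.mul b1 hε.le hε1 p1 p1
    simp only [map_one, mul_one] at this
    exact this
  have m2 : Cl ε k4 (2 * (20 * 20)) (fun z => (φ₂ z / ε) * conj (φ₂ z / ε))
      (fun z => qq z * conj (qq z)) z := a2.mul b2 hε.le hε1 p2 p2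
  have m3 := m2.small hε.le hε1 p4
  have m4 : Cl ε k6 2 (fun z => φ₁ z * conj (φ₁ z) -
      ((ε ^ 2 : ℝ) : ℂ) * ((φ₂ z / ε) * conj (φ₂ z / ε))) (fun _ => 1) z := by
    have := m1.sub m3
    simp only [sub_zero, add_zero] at this
    exact this
  have hk : k6 * ε ≤ 1 / 2 := by
    have h1 : ε * (2 * (k6 + 1)) < 1 := by
      rwa [lt_div_iff₀ (by positivity)] at hl2
    nlinarith
  have m5 := m4.one_inv hε.le hk p6
  have m6 : Cl ε k8 (2 * (1 * 20)) (fun z => conj (φ₁ z) * (φ₂ z / ε)) qq z := by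
    have := b1.mul a2 hε.le hε1 p1 p2
    simp only [map_one, one_mul] at this
    simpa using this
  have m7 := m6.mul m5 hε.le hε1 p8 p7
  simp only [mul_one] at m7
  have m8 : Cl ε k9 100 (GF ε φ₁ φ₂) qq z := by
    have m7' : Cl ε k9 (2 * (2 * (1 * 20))) (GF ε φ₁ φ₂) qq z := m7
    exact m7'.mono hε.le le_rfl (by norm_num)
  refine ⟨m8.mono hε.le (by linarith) le_rfl, ?_, ?_⟩
  · exact a1.v.trans (mul_le_mul_of_nonneg_right (by linarith) hε.le)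
  · have e : φ₂ z = ε * ((φ₂ z / ε - qq z) + qq z) := by
      have hε0 : (ε : ℂ) ≠ 0 := by exact_mod_cast hε.ne'
      field_simp
      ring
    rw [e, norm_mul, Complex.norm_real, Real.norm_of_nonneg hε.le]
    have h1 := a2.v
    have h2 := a2.bv
    calc ε * ‖(φ₂ z / ε - qq z) + qq z‖ ≤ ε * (c2 * ε + 20) := by
          gcongr
          exact (norm_add_le _ _).trans (add_le_add h1 h2)
      _ ≤ ε * (c2 * 1 + 20) := by gcongr
      _ = (c2 + 20) * ε := by ring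
      _ ≤ _ := mul_le_mul_of_nonneg_right (by linarith) hε.le

/-! ### smoothness of `Z` and `t` -/

/-- `dform` as a real linear map -/
noncomputable def dformL : ℂ × ℂ →L[ℝ] (ℂ →L[ℝ] ℂ) :=
  LinearMap.toContinuousLinearMap
    { toFun := fun x => dform x.1 x.2
      map_add' := fun x y => by
        ext u
        simp [dform_apply]
        ring
      map_smul' := fun c x => by
        ext u
        simp [dform_apply]
        ring }

theorem dformL_apply (x : ℂ × ℂ) : dformL x = dform x.1 x.2 := rfl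

theorem contDiffOn_Z {C ε : ℝ} {φ₁ φ₂ Z : ℂ → ℂ} {t : ℂ → ℝ} {h₀ : ℝ}
    (S : Surf C ε φ₁ φ₂ Z t h₀) : ContDiffOn ℝ ∞ Z (Om ε) := by
  rw [contDiffOn_infty_iff_fderiv_of_isOpen (isOpen_Om ε)]
  refine ⟨fun z hz => (S.dZ z hz).differentiableAt.differentiableWithinAt, ?_⟩
  have h1 := S.smooth₁.mono (Om_subset_Om0 ε)
  have h2 := S.smooth₂.mono (Om_subset_Om0 ε)
  have h3 : ContDiffOn ℝ ∞ (fun z => conj (φ₂ z)) (Om ε) :=
    Complex.conjCLE.contDiff.comp_contDiffOn h2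
  have h4 : ContDiffOn ℝ ∞ (fun z => (φ₁ z ^ 2, -(conj (φ₂ z)) ^ 2)) (Om ε) :=
    (h1.pow 2).prodMk ((h3.pow 2).neg)
  refine (dformL.contDiff.comp_contDiffOn h4).congr fun z hz => ?_
  rw [(S.dZ z hz).fderiv]
  rfl

theorem contDiffOn_t {C ε : ℝ} {φ₁ φ₂ Z : ℂ → ℂ} {t : ℂ → ℝ} {h₀ : ℝ}
    (S : Surf C ε φ₁ φ₂ Z t h₀) : ContDiffOn ℝ ∞ t (Om ε) := by
  rw [contDiffOn_infty_iff_fderiv_of_isOpen (isOpen_Om ε)]
  refine ⟨fun z hz => (S.dt z hz).differentiableAt.differentiableWithinAt, ?_⟩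
  have h1 := S.smooth₁.mono (Om_subset_Om0 ε)
  have h2 := S.smooth₂.mono (Om_subset_Om0 ε)
  refine (reformL.contDiff.comp_contDiffOn (h1.mul h2)).congr fun z hz => ?_
  rw [(S.dt z hz).fderiv]
  rfl

/-! ### the inverse -/

theorem approx {C ε : ℝ} (hC : 0 < C) (hε : 0 < ε) (hε' : ε ≤ 1 / 10)
    (hs : (C + 800) * ε ≤ 1 / 2) {Z : ℂ → ℂ}
    {t : ℂ → ℝ} {h₀ : ℝ} (E : Est C ε Z t h₀) :
    ApproximatesLinearOn Z ((ContinuousLinearEquiv.refl ℝ ℂ : ℂ ≃L[ℝ] ℂ) : ℂ →L[ℝ] ℂ) FR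
      (1 / 2 : NNReal) := by
  intro z hz z' hz'
  have h1 := Z_sub_lip hC hε hε' E hz hz'
  have e : ((ContinuousLinearEquiv.refl ℝ ℂ : ℂ ≃L[ℝ] ℂ) : ℂ →L[ℝ] ℂ) (z - z') = z - z' := rfl
  rw [e]
  refine h1.trans ?_
  gcongr
  simpa using hs

theorem exists_preimage {C ε : ℝ} (hC : 0 < C) (hε : 0 < ε) (hε' : ε ≤ 1 / 10)
    (hs : (C + 800) * ε ≤ 1 / 2) (hs' : 2 * (C + 40) * ε < 1 / 60) {Z : ℂ → ℂ}
    {t : ℂ → ℝ} {h₀ : ℝ} (E : Est C ε Z t h₀) {P : ℂ} (hP : P ∈ VP) :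
    ∃ y ∈ closedBall P (2 * (C + 40) * ε), Z y = P := by
  have hA := approx hC hε hε' hs E
  have hb : closedBall P (2 * (C + 40) * ε) ⊆ FR := by
    intro z hz
    rw [mem_closedBall, dist_eq_norm] at hz
    exact mem_FR_of_near hP (hz.trans_lt hs')
  have h1 := hA.surjOn_closedBall_of_nonlinearRightInverse
    ((ContinuousLinearEquiv.refl ℝ ℂ).toNonlinearRightInverse) (by positivity) hb
  have hn : (((ContinuousLinearEquiv.refl ℝ ℂ).toNonlinearRightInverse.nnnorm : ℝ)) = 1 := by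
    change ‖((ContinuousLinearEquiv.refl ℝ ℂ).symm : ℂ →L[ℝ] ℂ)‖ = 1
    rw [ContinuousLinearEquiv.refl_symm]
    exact ContinuousLinearMap.norm_id
  have h2 : P ∈ closedBall (Z P)
      (((((ContinuousLinearEquiv.refl ℝ ℂ).toNonlinearRightInverse.nnnorm : ℝ))⁻¹ -
        ((1 / 2 : NNReal) : ℝ)) * (2 * (C + 40) * ε)) := by
    rw [mem_closedBall, dist_eq_norm, norm_sub_rev, hn]
    have h3 := Z_sub_le hC hε hε' E (hb (mem_closedBall_self (by positivity)))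
    refine h3.trans (le_of_eq ?_)
    push_cast
    ring
  obtain ⟨y, hy, hyP⟩ := h1 h2
  exact ⟨y, hy, hyP⟩

theorem inj_FR {C ε : ℝ} (hC : 0 < C) (hε : 0 < ε) (hε' : ε ≤ 1 / 10)
    (hs : (C + 800) * ε ≤ 1 / 2) {Z : ℂ → ℂ}
    {t : ℂ → ℝ} {h₀ : ℝ} (E : Est C ε Z t h₀) {z z' : ℂ} (hz : z ∈ FR) (hz' : z' ∈ FR)
    (h : Z z = Z z') : z = z' := by
  have h1 := Z_sub_lip hC hε hε' E hz hz'
  rw [h, sub_self, zero_sub, norm_neg] at h1
  have h2 : (C + 800) * ε * ‖z - z'‖ ≤ 1 / 2 * ‖z - z'‖ := by gcongr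
  have h3 : ‖z - z'‖ = 0 := by
    have := norm_nonneg (z - z')
    linarith
  exact sub_eq_zero.1 (norm_eq_zero.1 h3)

theorem disc_ne_zero {x y : ℂ} (hx : ‖x - 1‖ ≤ 1 / 4) (hy : ‖y‖ ≤ 1 / 4) :
    x ^ 2 * conj (x ^ 2) - -(conj y) ^ 2 * conj (-(conj y) ^ 2) ≠ 0 ∧
      x * conj x - y * conj y ≠ 0 ∧ x * conj x + y * conj y ≠ 0 := by
  have hx1 : 3 / 4 ≤ ‖x‖ := by
    have h1 : (1 : ℝ) = ‖x - (x - 1)‖ := by simp
    have h2 := norm_sub_le x (x - 1)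
    rw [← h1] at h2
    linarith
  have e1 : x * conj x = ((‖x‖ ^ 2 : ℝ) : ℂ) := by rw [Complex.mul_conj, Complex.normSq_eq_norm_sq]
  have e2 : y * conj y = ((‖y‖ ^ 2 : ℝ) : ℂ) := by rw [Complex.mul_conj, Complex.normSq_eq_norm_sq]
  have hy0 := norm_nonneg y
  have h3 : x * conj x - y * conj y ≠ 0 := by
    rw [e1, e2, ← Complex.ofReal_sub]
    norm_cast
    nlinarith
  have h4 : x * conj x + y * conj y ≠ 0 := by
    rw [e1, e2, ← Complex.ofReal_add]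
    norm_cast
    nlinarith
  refine ⟨?_, h3, h4⟩
  have e3 : x ^ 2 * conj (x ^ 2) - -(conj y) ^ 2 * conj (-(conj y) ^ 2) =
      (x * conj x - y * conj y) * (x * conj x + y * conj y) := by
    simp only [map_pow, map_neg, Complex.conj_conj]
    ring
  rw [e3]
  exact mul_ne_zero h3 h4

theorem reform_comp_dform (ψ a b : ℂ) :
    (reform ψ).comp (dform a b) = reform (ψ * a + conj (ψ * b)) := by
  ext u
  simp [reform_apply, dform_apply]
  ring

/-- the differential of the inverse is close to the identity -/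
theorem inv_close {A B : ℂ →L[ℝ] ℂ} {δ : ℝ} (hδ : δ ≤ 1 / 2)
    (hA : ‖A - ContinuousLinearMap.id ℝ ℂ‖ ≤ δ)
    (hAB : A.comp B = ContinuousLinearMap.id ℝ ℂ) :
    ‖B‖ ≤ 2 ∧ ‖B - ContinuousLinearMap.id ℝ ℂ‖ ≤ 2 * δ := by
  have hδ0 : 0 ≤ δ := (norm_nonneg _).trans hA
  have e : B - ContinuousLinearMap.id ℝ ℂ = -(A - ContinuousLinearMap.id ℝ ℂ).comp B := by
    rw [ContinuousLinearMap.sub_comp, hAB, ContinuousLinearMap.id_comp]
    abel
  have h1 : ‖B - ContinuousLinearMap.id ℝ ℂ‖ ≤ δ * ‖B‖ := by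
    rw [e, norm_neg]
    exact (ContinuousLinearMap.opNorm_comp_le _ _).trans (by gcongr)
  have h2 : ‖B‖ ≤ 2 := by
    have h3 : ‖B‖ ≤ ‖B - ContinuousLinearMap.id ℝ ℂ‖ + ‖ContinuousLinearMap.id ℝ ℂ‖ := by
      have := norm_add_le (B - ContinuousLinearMap.id ℝ ℂ) (ContinuousLinearMap.id ℝ ℂ)
      rwa [sub_add_cancel] at this
    rw [ContinuousLinearMap.norm_id] at h3
    nlinarith [norm_nonneg B]
  refine ⟨h2, h1.trans ?_⟩
  nlinarith

theorem qq_lip {z z' : ℂ} (hz : ‖z‖ ≤ 4) (hz' : ‖z'‖ ≤ 4) : ‖qq z - qq z'‖ ≤ 7 * ‖z - z'‖ := by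
  have e : qq z - qq z' = (2 - (z + z') / 2) * (z - z') - conj (z - z') := by
    rw [qq, qq, map_sub]
    ring
  rw [e]
  calc _ ≤ ‖(2 - (z + z') / 2) * (z - z')‖ + ‖conj (z - z')‖ := norm_sub_le _ _
    _ = ‖2 - (z + z') / 2‖ * ‖z - z'‖ + ‖z - z'‖ := by rw [norm_mul, RCLike.norm_conj]
    _ ≤ 6 * ‖z - z'‖ + ‖z - z'‖ := by
      gcongr
      calc ‖2 - (z + z') / 2‖ ≤ ‖(2 : ℂ)‖ + ‖(z + z') / 2‖ := norm_sub_le _ _
        _ ≤ 2 + (‖z‖ + ‖z'‖) / 2 := by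
          rw [norm_div]
          have := norm_add_le z z'
          simp only [Complex.norm_ofNat]
          gcongr
        _ ≤ 6 := by linarith
    _ = _ := by ring

theorem norm_qq_le {z : ℂ} (hz : ‖z‖ ≤ 4) : ‖qq z‖ ≤ 20 := by
  rw [qq]
  calc ‖2 * z - z ^ 2 / 2 - conj z‖ ≤ ‖2 * z - z ^ 2 / 2‖ + ‖conj z‖ := norm_sub_le _ _
    _ ≤ ‖2 * z‖ + ‖z ^ 2 / 2‖ + ‖conj z‖ := by gcongr; exact norm_sub_le _ _
    _ = 2 * ‖z‖ + ‖z‖ ^ 2 / 2 + ‖z‖ := by
      rw [norm_mul, norm_div, norm_pow, RCLike.norm_conj]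
      norm_num
    _ ≤ 20 := by nlinarith [norm_nonneg z]

theorem norm_reform_le (x : ℂ) : ‖reform x‖ ≤ 2 * ‖x‖ := by
  rw [← reformL_apply]
  refine (reformL.le_opNorm _).trans ?_
  gcongr
  exact norm_reformL_le

theorem TT_lip {z z' : ℂ} (hz : ‖z‖ ≤ 4) (hz' : ‖z'‖ ≤ 4) : |TT z - TT z'| ≤ 40 * ‖z - z'‖ := by
  have h := (convex_closedBall (0 : ℂ) 4).norm_image_sub_le_of_norm_hasFDerivWithin_le
    (f := TT) (f' := fun z => reform (qq z)) (C := 40)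
    (fun x _ => (hasFDerivAt_TT x).hasFDerivWithinAt)
    (fun x hx => by
      rw [mem_closedBall_zero_iff] at hx
      refine (norm_reform_le _).trans ?_
      have := norm_qq_le hx
      linarith) (mem_closedBall_zero_iff.2 hz') (mem_closedBall_zero_iff.2 hz)
  simpa using h

theorem abs_log_le {x : ℝ} (h1 : 1 / 20 ≤ x) (h2 : x ≤ 6) : |Real.log x| ≤ 20 := by
  have hx : 0 < x := by linarith
  rw [abs_le]
  constructor
  · have := Real.one_sub_inv_le_log_of_pos hx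
    have h3 : x⁻¹ ≤ 20 := by
      rw [inv_le_comm₀ hx (by norm_num)]
      linarith
    linarith
  · have := Real.log_le_sub_one_of_pos hx
    linarith

theorem VP_subset_Rect : VP ⊆ Rect := by
  rintro P ⟨h1, h2, h3, -, -⟩
  exact ⟨by linarith, by linarith, by linarith⟩

end InvZ

open InvZ

theorem exists_inverse (C : ℝ) : ∃ C' > 0, ∃ ε₀ > 0, ∀ ε : ℝ, 0 < ε → ε < ε₀ →
    ∀ φ₁ φ₂ Z t h₀, Surf C ε φ₁ φ₂ Z t h₀ → ∃ Y : ℂ → ℂ,
      ContDiffOn ℝ ∞ Y VP ∧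
      (∀ P ∈ VP, Y P ∈ FR ∧ Z (Y P) = P ∧ ‖Y P - P‖ ≤ C' * ε) ∧
      (∀ z ∈ FR, Z z ∈ VP → Y (Z z) = z) ∧ (∀ z ∈ FR, ‖Z z - z‖ ≤ C' * ε) ∧
      ContDiffOn ℝ ∞ (fun P => t (Y P) / ε) VP ∧
      ∀ P ∈ VP, |t (Y P) / ε - TT P| ≤ C' * ε ∧
        ‖fderiv ℝ (fun P => t (Y P) / ε) P - fderiv ℝ TT P‖ ≤ C' * ε ∧
        ‖fderiv ℝ (fderiv ℝ (fun P => t (Y P) / ε)) P - fderiv ℝ (fderiv ℝ TT) P‖
          ≤ C' * ε := by
  obtain ⟨C₁, hC₁, e1, he1, hest⟩ := est_of_surf C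
  obtain ⟨K, hK, e2, he2, hGF⟩ := GF_est C
  set c0 := 2 * (C₁ + 40) with hc0
  have hc0p : 0 < c0 := by positivity
  refine ⟨C₁ + 80 + 40 * c0 + 2 * (K + 7 * c0) + 2 * (2 * K + 100 * (8 * K) + c0) + c0,
    by positivity, min (min (min e1 e2) (1 / 10)) (min (min (1 / (2 * (C₁ + 800)))
      (1 / (60 * c0))) (1 / (8 * K))), by positivity, ?_⟩
  intro ε hε hlt φ₁ φ₂ Z t h₀ S
  simp only [lt_min_iff] at hlt
  obtain ⟨⟨⟨l1, l2⟩, l3⟩, ⟨l4, l5⟩, l6⟩ := hlt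
  rw [lt_div_iff₀ (by positivity)] at l4 l5 l6
  have hs : (C₁ + 800) * ε ≤ 1 / 2 := by nlinarith
  have hs' : 2 * (C₁ + 40) * ε < 1 / 60 := by
    rw [← hc0]
    nlinarith
  have hKε : K * ε ≤ 1 / 8 := by nlinarith
  have E := hest ε hε l1 φ₁ φ₂ Z t h₀ S
  have hG := hGF ε hε l2 φ₁ φ₂ S.toCore
  have hex : ∀ P, ∃ y, P ∈ VP → y ∈ closedBall P (c0 * ε) ∧ Z y = P := by
    intro P
    by_cases hP : P ∈ VP
    · obtain ⟨y, hy, hyP⟩ := exists_preimage hC₁ hε l3.le hs hs' E hP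
      exact ⟨y, fun _ => ⟨hy, hyP⟩⟩
    · exact ⟨0, fun h => absurd h hP⟩
  choose Y hY using hex
  have hYn : ∀ P ∈ VP, ‖Y P - P‖ ≤ c0 * ε := by
    intro P hP
    have := (hY P hP).1
    rwa [mem_closedBall, dist_eq_norm] at this
  have hYlt : ∀ P ∈ VP, ‖Y P - P‖ < 1 / 60 := fun P hP => (hYn P hP).trans_lt hs'
  have hYFR : ∀ P ∈ VP, Y P ∈ FR := fun P hP => mem_FR_of_near hP (hYlt P hP)
  have hYZ : ∀ P ∈ VP, Z (Y P) = P := fun P hP => (hY P hP).2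
  have hYOm : ∀ P ∈ VP, Y P ∈ Om ε := fun P hP =>
    WW_subset_Om hε (FR_subset_WW hε l3.le (hYFR P hP))
  -- local analysis
  have hloc : ∀ P ∈ VP, ContDiffAt ℝ ∞ Y P ∧ ∃ B : ℂ →L[ℝ] ℂ, HasFDerivAt Y B P ∧
      (dform (φ₁ (Y P) ^ 2) (-(conj (φ₂ (Y P))) ^ 2)).comp B = ContinuousLinearMap.id ℝ ℂ ∧
      HasFDerivAt (fun P => t (Y P) / ε) (reform (GF ε φ₁ φ₂ (Y P))) P := by
    intro P hP
    set z₀ := Y P with hz₀
    have hz₀FR := hYFR P hP
    obtain ⟨-, hφ1, hφ2⟩ := hG z₀ hz₀FR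
    have n1 : ‖φ₁ z₀ - 1‖ ≤ 1 / 4 := hφ1.trans (hKε.trans (by norm_num))
    have n2 : ‖φ₂ z₀‖ ≤ 1 / 4 := hφ2.trans (hKε.trans (by norm_num))
    obtain ⟨d1, d2, d3⟩ := disc_ne_zero n1 n2
    have hO : Om ε ∈ 𝓝 z₀ := (isOpen_Om ε).mem_nhds (hYOm P hP)
    have hZc : ContDiffAt ℝ ∞ Z z₀ := (contDiffOn_Z S).contDiffAt hO
    set f' := dequiv (φ₁ z₀ ^ 2) (-(conj (φ₂ z₀)) ^ 2) d1 with hf'
    have hZd : HasFDerivAt Z (f' : ℂ →L[ℝ] ℂ) z₀ := S.dZ z₀ (hYOm P hP)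
    have hstr : HasStrictFDerivAt Z (f' : ℂ →L[ℝ] ℂ) z₀ :=
      hZc.hasStrictFDerivAt' hZd (by simp)
    have hZz : Z z₀ = P := hYZ P hP
    have hg1 : ContDiffAt ℝ ∞ (hstr.localInverse Z f' z₀) P := by
      have := hZc.to_localInverse hZd (by simp)
      rw [hZz] at this
      exact this
    have hg2 : HasStrictFDerivAt (hstr.localInverse Z f' z₀) (f'.symm : ℂ →L[ℝ] ℂ) P := by
      have := hstr.to_localInverse
      rwa [hZz] at this
    have hg3 : ∀ᶠ Q in 𝓝 P, Z (hstr.localInverse Z f' z₀ Q) = Q := by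
      have := hstr.eventually_right_inverse
      rwa [hZz] at this
    have hg4 : Tendsto (hstr.localInverse Z f' z₀) (𝓝 P) (𝓝 z₀) := by
      have := hstr.localInverse_tendsto
      rwa [hZz] at this
    have hFRn : FR ∈ 𝓝 z₀ := by
      have : ball P (1 / 60) ∈ 𝓝 z₀ := isOpen_ball.mem_nhds (by
        rw [mem_ball, dist_eq_norm]
        exact hYlt P hP)
      filter_upwards [this] with w hw
      rw [mem_ball, dist_eq_norm] at hw
      exact mem_FR_of_near hP hw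
    have hVPn : VP ∈ 𝓝 P := isOpen_VP.mem_nhds hP
    have heq : Y =ᶠ[𝓝 P] hstr.localInverse Z f' z₀ := by
      filter_upwards [hg3, hg4.eventually hFRn, hVPn] with Q h1 h2 h3
      exact inj_FR hC₁ hε l3.le hs E (hYFR Q h3) h2 (by rw [hYZ Q h3, h1])
    have hYd : HasFDerivAt Y (f'.symm : ℂ →L[ℝ] ℂ) P :=
      hg2.hasFDerivAt.congr_of_eventuallyEq heq
    refine ⟨hg1.congr_of_eventuallyEq heq, (f'.symm : ℂ →L[ℝ] ℂ), hYd, ?_, ?_⟩
    · rw [← dequiv_coe _ _ d1, ← hf']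
      exact f'.coe_comp_coe_symm
    · have htd : HasFDerivAt t (reform (φ₁ z₀ * φ₂ z₀)) z₀ := S.dt z₀ (hYOm P hP)
      have h1 := (htd.comp P hYd).const_smul ((ε : ℝ)⁻¹)
      have e1 : (fun P => t (Y P) / ε) = fun P => (ε : ℝ)⁻¹ • (t ∘ Y) P := by
        funext Q
        rw [smul_eq_mul, div_eq_inv_mul]
        rfl
      rw [e1]
      refine h1.congr_fderiv ?_
      rw [dequiv_symm_coe, reform_comp_dform]
      have hε0 : (ε : ℂ) ≠ 0 := by exact_mod_cast hε.ne'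
      have e2 : ∀ x : ℂ, (ε : ℝ)⁻¹ • reform x = reform (x / ε) := by
        intro x
        ext u
        simp only [ContinuousLinearMap.smul_apply, reform_apply, smul_eq_mul]
        rw [show x / (ε : ℂ) * u = ((ε⁻¹ : ℝ) : ℂ) * (x * u) by
          push_cast
          ring, Complex.re_ofReal_mul]
        ring
      rw [e2]
      congr 1
      have e3 : φ₁ z₀ ^ 2 * conj (φ₁ z₀ ^ 2) - -(conj (φ₂ z₀)) ^ 2 * conj (-(conj (φ₂ z₀)) ^ 2) =
          (φ₁ z₀ * conj (φ₁ z₀) - φ₂ z₀ * conj (φ₂ z₀)) *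
            (φ₁ z₀ * conj (φ₁ z₀) + φ₂ z₀ * conj (φ₂ z₀)) := by
        simp only [map_pow, map_neg, Complex.conj_conj]
        ring
      rw [e3, GF]
      have e4 : φ₁ z₀ * conj (φ₁ z₀) -
          ((ε ^ 2 : ℝ) : ℂ) * ((φ₂ z₀ / ε) * conj (φ₂ z₀ / ε)) =
          φ₁ z₀ * conj (φ₁ z₀) - φ₂ z₀ * conj (φ₂ z₀) := by
        rw [map_div₀, Complex.conj_ofReal]
        push_cast
        field_simp
      rw [e4]
      have hc1 : conj (φ₁ z₀ * conj (φ₁ z₀) - φ₂ z₀ * conj (φ₂ z₀)) =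
          φ₁ z₀ * conj (φ₁ z₀) - φ₂ z₀ * conj (φ₂ z₀) := by
        simp only [map_sub, map_mul, Complex.conj_conj]
        ring
      have hc2 : conj (φ₁ z₀ * conj (φ₁ z₀) + φ₂ z₀ * conj (φ₂ z₀)) =
          φ₁ z₀ * conj (φ₁ z₀) + φ₂ z₀ * conj (φ₂ z₀) := by
        simp only [map_add, map_mul, Complex.conj_conj]
        ring
      rw [map_mul conj (φ₁ z₀ * φ₂ z₀), map_div₀, map_mul conj (φ₁ z₀ * conj (φ₁ z₀) -
        φ₂ z₀ * conj (φ₂ z₀)), hc1, hc2]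
      simp only [map_pow, map_neg, map_mul, Complex.conj_conj, neg_neg]
      field_simp
  have hbig : ∀ x : ℝ, 0 ≤ x → x ≤ C₁ + 80 + 40 * c0 + 2 * (K + 7 * c0) +
      2 * (2 * K + 100 * (8 * K) + c0) + c0 → x * ε ≤ (C₁ + 80 + 40 * c0 + 2 * (K + 7 * c0) +
      2 * (2 * K + 100 * (8 * K) + c0) + c0) * ε := by
    intro x _ hx2
    exact mul_le_mul_of_nonneg_right hx2 hε.le
  refine ⟨Y, ?_, ?_, ?_, ?_, ?_, ?_⟩
  · intro P hP
    exact (hloc P hP).1.contDiffWithinAt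
  · intro P hP
    refine ⟨hYFR P hP, hYZ P hP, (hYn P hP).trans (hbig c0 hc0p.le ?_)⟩
    nlinarith
  · intro z hz hzV
    exact inj_FR hC₁ hε l3.le hs E (hYFR _ hzV) hz (hYZ _ hzV)
  · intro z hz
    refine (Z_sub_le hC₁ hε l3.le E hz).trans (hbig (C₁ + 40) (by positivity) ?_)
    nlinarith
  · intro P hP
    have hO : Om ε ∈ 𝓝 (Y P) := (isOpen_Om ε).mem_nhds (hYOm P hP)
    have h1 : ContDiffAt ℝ ∞ t (Y P) := (contDiffOn_t S).contDiffAt hO
    have h2 : ContDiffAt ℝ ∞ (fun P => t (Y P)) P := h1.comp P (hloc P hP).1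
    exact (h2.div_const ε).contDiffWithinAt
  · intro P hP
    have hPR := VP_subset_Rect hP
    have hPn : ‖P‖ ≤ 4 := (norm_le_of_mem_Rect hPR).trans (by norm_num)
    have hYn4 : ‖Y P‖ ≤ 4 := (norm_le_of_mem_Rect (hYFR P hP).1).trans (by norm_num)
    have hVPn : VP ∈ 𝓝 P := isOpen_VP.mem_nhds hP
    obtain ⟨hc, B, hB, hAB, hF⟩ := hloc P hP
    obtain ⟨hcl, hφ1, hφ2⟩ := hG (Y P) (hYFR P hP)
    refine ⟨?_, ?_, ?_⟩
    · have hW := FR_subset_WW hε l3.le (hYFR P hP)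
      have h1 := E.bdt (Y P) hW
      have h2 := abs_log_le (hYFR P hP).2.1 (norm_sub_aa_le (hYFR P hP).1)
      have h3 := abs_log_le (hYFR P hP).2.2 (norm_sub_bb_le (hYFR P hP).1)
      have h4 := TT_lip hYn4 hPn
      have h5 := hYn P hP
      have e : t (Y P) / ε - TT P = Dt ε t (Y P) / ε - 2 * ε * Real.log ‖Y P - aa‖ -
          2 * ε * Real.log ‖Y P - bb‖ + (TT (Y P) - TT P) := by
        rw [Dt]
        field_simp
        ring
      have b1 : |Dt ε t (Y P) / ε| ≤ C₁ * ε := by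
        rw [abs_div, abs_of_pos hε, div_le_iff₀ hε]
        calc |Dt ε t (Y P)| ≤ C₁ * ε ^ 2 := h1
          _ = C₁ * ε * ε := by ring
      have b2 : |2 * ε * Real.log ‖Y P - aa‖| ≤ 40 * ε := by
        rw [abs_mul, abs_of_pos (by positivity : (0 : ℝ) < 2 * ε)]
        nlinarith
      have b3 : |2 * ε * Real.log ‖Y P - bb‖| ≤ 40 * ε := by
        rw [abs_mul, abs_of_pos (by positivity : (0 : ℝ) < 2 * ε)]
        nlinarith
      have b4 : |TT (Y P) - TT P| ≤ 40 * (c0 * ε) := h4.trans (by gcongr)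
      have h6 : |t (Y P) / ε - TT P| ≤ (C₁ + 80 + 40 * c0) * ε := by
        rw [e]
        calc _ ≤ |Dt ε t (Y P) / ε| + |2 * ε * Real.log ‖Y P - aa‖| +
              |2 * ε * Real.log ‖Y P - bb‖| + |TT (Y P) - TT P| := by
              refine (abs_add_le _ _).trans ?_
              gcongr
              refine (abs_sub _ _).trans ?_
              gcongr
              exact abs_sub _ _
          _ ≤ C₁ * ε + 40 * ε + 40 * ε + 40 * (c0 * ε) := by gcongr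
          _ = _ := by ring
      refine h6.trans (hbig _ (by positivity) ?_)
      nlinarith
    · rw [hF.fderiv, (hasFDerivAt_TT P).fderiv]
      refine (norm_reform_sub_le _ _).trans ?_
      have h1 : ‖GF ε φ₁ φ₂ (Y P) - qq P‖ ≤ (K + 7 * c0) * ε := by
        have e : GF ε φ₁ φ₂ (Y P) - qq P = (GF ε φ₁ φ₂ (Y P) - qq (Y P)) +
            (qq (Y P) - qq P) := by ring
        rw [e]
        calc _ ≤ ‖GF ε φ₁ φ₂ (Y P) - qq (Y P)‖ + ‖qq (Y P) - qq P‖ := norm_add_le _ _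
          _ ≤ K * ε + 7 * ‖Y P - P‖ := add_le_add hcl.v (qq_lip hYn4 hPn)
          _ ≤ K * ε + 7 * (c0 * ε) := by
            gcongr
            exact hYn P hP
          _ = _ := by ring
      calc 2 * ‖GF ε φ₁ φ₂ (Y P) - qq P‖ ≤ 2 * ((K + 7 * c0) * ε) := by gcongr
        _ = (2 * (K + 7 * c0)) * ε := by ring
        _ ≤ _ := hbig _ (by positivity) (by nlinarith)
    · have e1 : fderiv ℝ (fun P => t (Y P) / ε) =ᶠ[𝓝 P]
          fun Q => reformL (GF ε φ₁ φ₂ (Y Q)) := by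
        filter_upwards [hVPn] with Q hQ
        obtain ⟨-, -, -, -, hF'⟩ := hloc Q hQ
        rw [hF'.fderiv]
        rfl
      have h1 : HasFDerivAt (fun Q => reformL (GF ε φ₁ φ₂ (Y Q)))
          (reformL.comp ((fderiv ℝ (GF ε φ₁ φ₂) (Y P)).comp B)) P :=
        reformL.hasFDerivAt.comp P (hcl.df.hasFDerivAt.comp P hB)
      have e2 : fderiv ℝ TT = fun Q => reformL (qq Q) := by
        funext Q
        rw [(hasFDerivAt_TT Q).fderiv]
        rfl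
      have h2 : HasFDerivAt (fun Q => reformL (qq Q)) (reformL.comp (dform (2 - P) (-1))) P :=
        reformL.hasFDerivAt.comp P (hasFDerivAt_qq P)
      rw [e1.fderiv_eq, h1.fderiv, e2, h2.fderiv, ← ContinuousLinearMap.comp_sub]
      -- the differential of `Z`
      have hδ : ‖dform (φ₁ (Y P) ^ 2) (-(conj (φ₂ (Y P))) ^ 2) - ContinuousLinearMap.id ℝ ℂ‖ ≤
          4 * (K * ε) := by
        refine ContinuousLinearMap.opNorm_le_bound _ (by positivity) fun u => ?_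
        have e3 : (dform (φ₁ (Y P) ^ 2) (-(conj (φ₂ (Y P))) ^ 2) -
            ContinuousLinearMap.id ℝ ℂ) u =
            ((φ₁ (Y P) - 1) * ((φ₁ (Y P) - 1) + 2)) * u +
              (-(conj (φ₂ (Y P))) ^ 2) * conj u := by
          rw [ContinuousLinearMap.sub_apply, dform_apply, ContinuousLinearMap.id_apply]
          ring
        rw [e3]
        calc _ ≤ ‖((φ₁ (Y P) - 1) * ((φ₁ (Y P) - 1) + 2)) * u‖ +
              ‖(-(conj (φ₂ (Y P))) ^ 2) * conj u‖ := norm_add_le _ _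
          _ = ‖φ₁ (Y P) - 1‖ * ‖(φ₁ (Y P) - 1) + 2‖ * ‖u‖ + ‖φ₂ (Y P)‖ ^ 2 * ‖u‖ := by
            rw [norm_mul, norm_mul, norm_mul, norm_neg, norm_pow, RCLike.norm_conj,
              RCLike.norm_conj]
          _ ≤ (K * ε) * 3 * ‖u‖ + (K * ε) ^ 2 * ‖u‖ := by
            gcongr
            refine (norm_add_le _ _).trans ?_
            have : ‖(2 : ℂ)‖ = 2 := by simp
            rw [this]
            linarith
          _ ≤ (K * ε) * 3 * ‖u‖ + (K * ε) * ‖u‖ := by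
            gcongr
            have : 0 ≤ K * ε := by positivity
            nlinarith
          _ = _ := by ring
      obtain ⟨hB2, hBid⟩ := inv_close (by linarith) hδ hAB
      have e4 : (fderiv ℝ (GF ε φ₁ φ₂) (Y P)).comp B - dform (2 - P) (-1) =
          (fderiv ℝ (GF ε φ₁ φ₂) (Y P) - fderiv ℝ qq (Y P)).comp B +
          (fderiv ℝ qq (Y P)).comp (B - ContinuousLinearMap.id ℝ ℂ) +
          (fderiv ℝ qq (Y P) - dform (2 - P) (-1)) := by
        rw [ContinuousLinearMap.sub_comp, ContinuousLinearMap.comp_sub,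
          ContinuousLinearMap.comp_id]
        abel
      have h3 : ‖fderiv ℝ qq (Y P) - dform (2 - P) (-1)‖ ≤ c0 * ε := by
        rw [(hasFDerivAt_qq (Y P)).fderiv]
        refine ContinuousLinearMap.opNorm_le_bound _ (by positivity) fun u => ?_
        rw [ContinuousLinearMap.sub_apply, dform_apply, dform_apply]
        have : (2 - Y P) * u + -1 * conj u - ((2 - P) * u + -1 * conj u) = -((Y P - P) * u) := by
          ring
        rw [this, norm_neg, norm_mul]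
        gcongr
        exact hYn P hP
      have h4 : ‖(fderiv ℝ (GF ε φ₁ φ₂) (Y P)).comp B - dform (2 - P) (-1)‖ ≤
          (2 * K + 100 * (8 * K) + c0) * ε := by
        rw [e4]
        calc _ ≤ ‖(fderiv ℝ (GF ε φ₁ φ₂) (Y P) - fderiv ℝ qq (Y P)).comp B‖ +
              ‖(fderiv ℝ qq (Y P)).comp (B - ContinuousLinearMap.id ℝ ℂ)‖ +
              ‖fderiv ℝ qq (Y P) - dform (2 - P) (-1)‖ := norm_add₃_le
          _ ≤ (K * ε) * 2 + 100 * (2 * (4 * (K * ε))) + c0 * ε := by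
            gcongr
            · exact (ContinuousLinearMap.opNorm_comp_le _ _).trans
                (mul_le_mul hcl.d hB2 (norm_nonneg _) (by positivity))
            · exact (ContinuousLinearMap.opNorm_comp_le _ _).trans
                (mul_le_mul hcl.bd hBid (norm_nonneg _) (by norm_num))
          _ = _ := by ring
      calc _ ≤ ‖reformL‖ * ‖(fderiv ℝ (GF ε φ₁ φ₂) (Y P)).comp B - dform (2 - P) (-1)‖ :=
            ContinuousLinearMap.opNorm_comp_le _ _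
        _ ≤ 2 * ((2 * K + 100 * (8 * K) + c0) * ε) :=
            mul_le_mul norm_reformL_le h4 (norm_nonneg _) (by norm_num)
        _ = (2 * (2 * K + 100 * (8 * K) + c0)) * ε := by ring
        _ ≤ _ := hbig _ (by positivity) (by nlinarith)

end Pool.Agent.MP_49383f_gt
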