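import Pool.Agent.MP_49383f_gt.Basic

/-!
# MP_49383f_gt, module G10: the torsion function `TT` of the equilateral triangle
-/

namespace Pool.Agent.MP_49383f_gt

open scoped ContDiff ComplexConjugate
open MeasureTheory Metric Set

namespace Torsion

/-- the differential of `TT` -/
noncomputable def dT (z : ℂ) : ℂ →L[ℝ] ℝ :=
  (2 * z.re - z.re ^ 2 + z.im ^ 2) • Complex.reCLM +
    (-6 * z.im + 2 * z.re * z.im) • Complex.imCLM

theorem dT_apply (z u : ℂ) : dT z u = (2 * z.re - z.re ^ 2 + z.im ^ 2) * u.re +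
    (-6 * z.im + 2 * z.re * z.im) * u.im := by
  simp [dT]

theorem hasFDerivAt_re (z : ℂ) : HasFDerivAt (fun w : ℂ => w.re) Complex.reCLM z :=
  Complex.reCLM.hasFDerivAt

theorem hasFDerivAt_im (z : ℂ) : HasFDerivAt (fun w : ℂ => w.im) Complex.imCLM z :=
  Complex.imCLM.hasFDerivAt

theorem hasFDerivAt_TT (z : ℂ) : HasFDerivAt TT (dT z) z := by
  have hre := hasFDerivAt_re z
  have him := hasFDerivAt_im z
  have h1 := (hre.mul hre).const_mul (1 / 3 : ℝ)
  have h2 := h1.sub (him.mul him)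
  have h3 := h2.mul (hre.const_sub 3)
  have e : TT = fun w : ℂ => (1 / 3 * (w.re * w.re) - w.im * w.im) * (3 - w.re) := by
    funext w
    simp only [TT]
    ring
  rw [e]
  refine h3.congr_fderiv ?_
  ext u
  simp [dT]
  ring

theorem fderiv_TT : fderiv ℝ TT = dT := by
  funext z
  exact (hasFDerivAt_TT z).fderiv

/-- the second differential of `TT` -/
noncomputable def ddT (z : ℂ) : ℂ →L[ℝ] ℂ →L[ℝ] ℝ :=
  ((2 - 2 * z.re) • Complex.reCLM + (2 * z.im) • Complex.imCLM).smulRight Complex.reCLM +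
    ((2 * z.im) • Complex.reCLM + (2 * z.re - 6) • Complex.imCLM).smulRight Complex.imCLM

theorem ddT_apply (z u v : ℂ) : ddT z u v = ((2 - 2 * z.re) * u.re + 2 * z.im * u.im) * v.re +
    (2 * z.im * u.re + (2 * z.re - 6) * u.im) * v.im := by
  simp [ddT]

theorem hasFDerivAt_dT (z : ℂ) : HasFDerivAt dT (ddT z) z := by
  have hre := hasFDerivAt_re z
  have him := hasFDerivAt_im z
  have h1 : HasFDerivAt (fun w : ℂ => 2 * w.re - w.re * w.re + w.im * w.im) _ z :=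
    ((hre.const_mul 2).sub (hre.mul hre)).add (him.mul him)
  have h2 : HasFDerivAt (fun w : ℂ => -6 * w.im + 2 * w.re * w.im) _ z :=
    (him.const_mul (-6)).add ((hre.const_mul 2).mul him)
  have h3 := (h1.smul_const Complex.reCLM).add (h2.smul_const Complex.imCLM)
  have e : dT = fun w : ℂ => (2 * w.re - w.re * w.re + w.im * w.im) • Complex.reCLM +
      (-6 * w.im + 2 * w.re * w.im) • Complex.imCLM := by
    funext w
    rw [dT]
    simp only [pow_two]
  rw [e]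
  refine h3.congr_fderiv ?_
  ext u
  all_goals simp [ddT]
  all_goals ring

theorem fderiv_fderiv_TT (z : ℂ) : fderiv ℝ (fderiv ℝ TT) z = ddT z := by
  rw [fderiv_TT]
  exact (hasFDerivAt_dT z).fderiv

theorem sq_norm (u : ℂ) : ‖u‖ ^ 2 = u.re ^ 2 + u.im ^ 2 := by
  rw [← Complex.normSq_eq_norm_sq, Complex.normSq_apply]; ring

/-- positivity of the three linear factors -/
theorem factors_pos {x y : ℝ} (h3 : x ≤ 3) (hT : 0 < (x ^ 2 / 3 - y ^ 2) * (3 - x))
    (h0 : 0 ≤ x) :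
    0 < x / √3 - y ∧ 0 < x / √3 + y ∧ 0 < 3 - x := by
  have hx : 0 < 3 - x := by
    rcases lt_or_eq_of_le h3 with h | h
    · linarith
    · rw [h] at hT; norm_num at hT
  have h1 : 0 < x ^ 2 / 3 - y ^ 2 := pos_of_mul_pos_left hT hx.le
  have hs : 0 < √3 := by positivity
  have hss : √3 ^ 2 = 3 := Real.sq_sqrt (by norm_num)
  have hs2 : (x / √3) ^ 2 = x ^ 2 / 3 := by
    rw [div_pow, hss]
  have hnn : 0 ≤ x / √3 := by positivity
  have habs : |y| < x / √3 := by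
    apply abs_lt_of_sq_lt_sq _ hnn
    rw [hs2]; linarith
  rw [abs_lt] at habs
  exact ⟨by linarith, by linarith, hx⟩

theorem TT_eq_factors (z : ℂ) :
    TT z = (z.re / √3 - z.im) * (z.re / √3 + z.im) * (3 - z.re) := by
  have hss : √3 ^ 2 = 3 := Real.sq_sqrt (by norm_num)
  have hs2 : (z.re / √3) ^ 2 = z.re ^ 2 / 3 := by
    rw [div_pow, hss]
  simp only [TT]
  rw [← hs2]
  ring

theorem TT_pos_factors {z : ℂ} (h0 : 0 ≤ z.re) (h3 : z.re ≤ 3) (hT : 0 < TT z) :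
    0 < z.re / √3 - z.im ∧ 0 < z.re / √3 + z.im ∧ 0 < 3 - z.re :=
  factors_pos h3 hT h0

end Torsion

/-- strict log-concavity -/
theorem TT_logconcave {z : ℂ} (h0 : 0 < z.re) (h3 : z.re < 3) (hT : 0 < TT z) (u : ℂ) :
    TT z * fderiv ℝ (fderiv ℝ TT) z u u ≤ (fderiv ℝ TT z u) ^ 2 - TT z ^ 2 * ‖u‖ ^ 2 / 6 := by
  rw [Torsion.fderiv_fderiv_TT, Torsion.fderiv_TT, Torsion.ddT_apply, Torsion.dT_apply,
    Torsion.sq_norm]
  obtain ⟨p1, p2, p3⟩ := Torsion.TT_pos_factors h0.le h3.le hT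
  have hTT : TT z = (z.re ^ 2 / 3 - z.im ^ 2) * (3 - z.re) := rfl
  set x := z.re
  set y := z.im
  set p := u.re
  set q := u.im
  have hs : 0 < √3 := by positivity
  have hss : √3 ^ 2 = 3 := Real.sq_sqrt (by norm_num)
  have hX2 : (x / √3) ^ 2 = x ^ 2 / 3 := by rw [div_pow, hss]
  have hP2 : (p / √3) ^ 2 = p ^ 2 / 3 := by rw [div_pow, hss]
  have hPX : (p / √3) * (x / √3) = p * x / 3 := by
    rw [div_mul_div_comm, ← pow_two, hss]
  set X := x / √3 with hX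
  set P := p / √3 with hP
  have hXle : X ≤ √3 := by
    rw [hX, div_le_iff₀ hs, ← pow_two, hss]; linarith
  have hs' : √3 ≤ 7 / 4 := by
    rw [Real.sqrt_le_left (by norm_num)]; norm_num
  -- bounds of the factors
  have hl1 : (X - y) ^ 2 ≤ 12 := by
    have : X - y ≤ 2 * √3 := by linarith
    calc (X - y) ^ 2 ≤ (2 * √3) ^ 2 := by
          apply pow_le_pow_left₀ p1.le this
      _ = 12 := by rw [mul_pow, hss]; norm_num
  have hl2 : (X + y) ^ 2 ≤ 12 := by
    have : X + y ≤ 2 * √3 := by linarith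
    calc (X + y) ^ 2 ≤ (2 * √3) ^ 2 := by
          apply pow_le_pow_left₀ p2.le this
      _ = 12 := by rw [mul_pow, hss]; norm_num
  have hl3 : (3 - x) ^ 2 ≤ 9 := by
    nlinarith
  -- the identity
  have id1 : (x ^ 2 / 3 - y ^ 2) = (X - y) * (X + y) := by
    rw [← hX2]; ring
  have key : ((2 * x - x ^ 2 + y ^ 2) * p + (-6 * y + 2 * x * y) * q) ^ 2 -
      TT z * (((2 - 2 * x) * p + 2 * y * q) * p + (2 * y * p + (2 * x - 6) * q) * q) =
      (P - q) ^ 2 * ((X + y) * (3 - x)) ^ 2 + (P + q) ^ 2 * ((X - y) * (3 - x)) ^ 2 +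
        p ^ 2 * ((X - y) * (X + y)) ^ 2 := by
    have e1 : (P - q) ^ 2 * ((X + y) * (3 - x)) ^ 2 + (P + q) ^ 2 * ((X - y) * (3 - x)) ^ 2 =
        (3 - x) ^ 2 * (2 * (P ^ 2 + q ^ 2) * (X ^ 2 + y ^ 2) - 8 * (P * X) * q * y) := by ring
    rw [e1, ← id1, hX2, hP2, hPX, hTT]
    ring
  have a1 : (X - y) ^ 2 * ((P - q) ^ 2 * ((X + y) * (3 - x)) ^ 2) ≤
      12 * ((P - q) ^ 2 * ((X + y) * (3 - x)) ^ 2) :=
    mul_le_mul_of_nonneg_right hl1 (by positivity)
  have a2 : (X + y) ^ 2 * ((P + q) ^ 2 * ((X - y) * (3 - x)) ^ 2) ≤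
      12 * ((P + q) ^ 2 * ((X - y) * (3 - x)) ^ 2) :=
    mul_le_mul_of_nonneg_right hl2 (by positivity)
  have a3 : (3 - x) ^ 2 * (p ^ 2 * ((X - y) * (X + y)) ^ 2) ≤
      9 * (p ^ 2 * ((X - y) * (X + y)) ^ 2) :=
    mul_le_mul_of_nonneg_right hl3 (by positivity)
  have hTT2 : TT z = (X - y) * (X + y) * (3 - x) := by rw [hTT, id1]
  have b1 : TT z ^ 2 * (p ^ 2 + q ^ 2) / 6 =
      ((X - y) ^ 2 * ((P - q) ^ 2 * ((X + y) * (3 - x)) ^ 2) +
        (X + y) ^ 2 * ((P + q) ^ 2 * ((X - y) * (3 - x)) ^ 2)) / 12 +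
      ((3 - x) ^ 2 * (p ^ 2 * ((X - y) * (X + y)) ^ 2)) / 9 := by
    have e2 : ((X - y) ^ 2 * ((P - q) ^ 2 * ((X + y) * (3 - x)) ^ 2) +
        (X + y) ^ 2 * ((P + q) ^ 2 * ((X - y) * (3 - x)) ^ 2)) / 12 =
        TT z ^ 2 * (2 * P ^ 2 + 2 * q ^ 2) / 12 := by
      rw [hTT2]; ring
    rw [e2, hP2, hTT2]
    ring
  linarith

namespace Torsion

/-- weighted arithmetic-geometric mean inequality for the product of three factors -/
theorem amgm3 {a b : ℝ} (ha : 0 ≤ a) (hb : 0 ≤ b) (hab : a + b = 1)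
    {u1 u2 u3 v1 v2 v3 : ℝ} (hu1 : 0 < u1) (hu2 : 0 < u2) (hu3 : 0 < u3)
    (hv1 : 0 < v1) (hv2 : 0 < v2) (hv3 : 0 < v3) {c : ℝ} (hc : 0 < c)
    (hu : c ≤ u1 * u2 * u3) (hv : c ≤ v1 * v2 * v3) :
    c ≤ (a * u1 + b * v1) * (a * u2 + b * v2) * (a * u3 + b * v3) := by
  have g1 := Real.geom_mean_le_arith_mean2_weighted ha hb hu1.le hv1.le hab
  have g2 := Real.geom_mean_le_arith_mean2_weighted ha hb hu2.le hv2.le hab
  have g3 := Real.geom_mean_le_arith_mean2_weighted ha hb hu3.le hv3.le hab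
  calc c = c ^ a * c ^ b := by rw [← Real.rpow_add hc, hab, Real.rpow_one]
    _ ≤ (u1 * u2 * u3) ^ a * (v1 * v2 * v3) ^ b := by
        gcongr
    _ = (u1 ^ a * v1 ^ b) * (u2 ^ a * v2 ^ b) * (u3 ^ a * v3 ^ b) := by
        rw [Real.mul_rpow (by positivity) (by positivity), Real.mul_rpow (by positivity) (by positivity),
          Real.mul_rpow (by positivity) (by positivity), Real.mul_rpow (by positivity) (by positivity)]
        ring
    _ ≤ _ := by
        gcongr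

theorem TT_combo {z w : ℂ} (hz0 : 0 ≤ z.re) (hz3 : z.re ≤ 3) (hw0 : 0 ≤ w.re) (hw3 : w.re ≤ 3)
    {c : ℝ} (hc : 0 < c) (hz : c ≤ TT z) (hw : c ≤ TT w) {a b : ℝ} (ha : 0 ≤ a) (hb : 0 ≤ b)
    (hab : a + b = 1) : c ≤ TT (a • z + b • w) := by
  obtain ⟨p1, p2, p3⟩ := TT_pos_factors hz0 hz3 (hc.trans_le hz)
  obtain ⟨q1, q2, q3⟩ := TT_pos_factors hw0 hw3 (hc.trans_le hw)
  rw [TT_eq_factors] at hz hw
  have h := amgm3 ha hb hab p1 p2 p3 q1 q2 q3 hc hz hw
  rw [TT_eq_factors]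
  refine h.trans (le_of_eq ?_)
  have hr : (a • z + b • w).re = a * z.re + b * w.re := by simp
  have hi : (a • z + b • w).im = a * z.im + b * w.im := by simp
  rw [hr, hi]
  have : 3 - (a * z.re + b * w.re) = a * (3 - z.re) + b * (3 - w.re) := by
    linear_combination (-3) * hab
  rw [this]
  ring

end Torsion

theorem TT_convex {c : ℝ} (hc : 0 < c) : Convex ℝ {z : ℂ | 0 ≤ z.re ∧ z.re ≤ 3 ∧ c ≤ TT z} ∧
    Convex ℝ {z : ℂ | 0 < z.re ∧ z.re < 3 ∧ c < TT z} := by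
  constructor
  · rintro z ⟨hz0, hz3, hz⟩ w ⟨hw0, hw3, hw⟩ a b ha hb hab
    refine ⟨?_, ?_, Torsion.TT_combo hz0 hz3 hw0 hw3 hc hz hw ha hb hab⟩
    · simp only [Complex.add_re, Complex.smul_re, smul_eq_mul]
      positivity
    · simp only [Complex.add_re, Complex.smul_re, smul_eq_mul]
      nlinarith
  · rintro z ⟨hz0, hz3, hz⟩ w ⟨hw0, hw3, hw⟩ a b ha hb hab
    refine ⟨?_, ?_, ?_⟩
    · simp only [Complex.add_re, Complex.smul_re, smul_eq_mul]
      rcases ha.lt_or_eq with h | h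
      · have := mul_pos h hz0
        have := mul_nonneg hb hw0.le
        linarith
      · have hb1 : b = 1 := by linarith
        rw [← h, hb1]; linarith
    · simp only [Complex.add_re, Complex.smul_re, smul_eq_mul]
      rcases ha.lt_or_eq with h | h
      · have h1 : a * z.re < a * 3 := mul_lt_mul_of_pos_left hz3 h
        have h2 : b * w.re ≤ b * 3 := mul_le_mul_of_nonneg_left hw3.le hb
        nlinarith
      · have hb1 : b = 1 := by linarith
        rw [← h, hb1]; linarith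
    · have hmin : c < min (TT z) (TT w) := lt_min hz hw
      exact hmin.trans_le (Torsion.TT_combo hz0.le hz3.le hw0.le hw3.le (hc.trans hmin)
        (min_le_left _ _) (min_le_right _ _) ha hb hab)

/-- the derivative towards the centre -/
theorem TT_radial {z : ℂ} (h0 : 0 < z.re) (h3 : z.re < 3) (h1 : 1 / 20 ≤ TT z)
    (h2 : TT z ≤ 1 / 8) : 1 / 20 ≤ fderiv ℝ TT z (2 - z) := by
  rw [Torsion.fderiv_TT, Torsion.dT_apply]
  have hr : (2 - z).re = 2 - z.re := by simp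
  have hi : (2 - z).im = - z.im := by simp
  rw [hr, hi]
  have hTT : TT z = (z.re ^ 2 / 3 - z.im ^ 2) * (3 - z.re) := rfl
  set x := z.re
  set y := z.im
  set T := TT z
  have hd : 0 < 3 - x := by linarith
  have id1 : ((2 * x - x ^ 2 + y ^ 2) * (2 - x) + (-6 * y + 2 * x * y) * (-y)) * (3 - x) =
      4 / 3 * x * (3 - x) ^ 2 - (8 - 3 * x) * T := by
    rw [hTT]; ring
  have goal' : 1 / 20 * (3 - x) ≤ 4 / 3 * x * (3 - x) ^ 2 - (8 - 3 * x) * T := by
    have hx2 : 3 / 20 ≤ x ^ 2 * (3 - x) := by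
      have : 0 ≤ y ^ 2 * (3 - x) := by positivity
      nlinarith
    rcases le_or_gt x (8 / 3) with hx | hx
    · have h4 : (8 - 3 * x) * T ≤ (8 - 3 * x) * (1 / 8) :=
        mul_le_mul_of_nonneg_left h2 (by linarith)
      have hx5 : 1 / 5 ≤ x := by
        by_contra hcon
        push Not at hcon
        nlinarith [mul_pos h0 h0]
      nlinarith [mul_nonneg (sub_nonneg.2 hx5) (sub_nonneg.2 hx),
        mul_nonneg (mul_nonneg (sub_nonneg.2 hx5) (sub_nonneg.2 hx)) hd.le]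
    · have h4 : (8 - 3 * x) * T ≤ (8 - 3 * x) * (1 / 20) :=
        mul_le_mul_of_nonpos_left h1 (by linarith)
      nlinarith [mul_pos hd hd, mul_nonneg hd.le (sub_nonneg.2 hx.le), sq_nonneg (3 - x - 1 / 9)]
  rw [← id1] at goal'
  exact le_of_mul_le_mul_right goal' hd

end Pool.Agent.MP_49383f_gt
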