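import Pool.Agent.MP_49383f_gt.Basic
import Pool.Agent.MP_49383f_gt.Torsion

/-!
# MP_49383f_gt, module G13 : facts on the parameter domain of the lower sheet
-/

namespace Pool.Agent.MP_49383f_gt

open scoped ContDiff ComplexConjugate
open MeasureTheory Metric Set

namespace KFacts

theorem Ubar_subset_Rect : Ubar ⊆ Rect := by
  rintro z ⟨h0, h3, hT⟩
  rw [TT] at hT
  have hx : 1 / 20 < z.re := by
    by_contra h
    push Not at h
    nlinarith [sq_nonneg z.im, mul_nonneg (sq_nonneg z.im) (sub_nonneg.2 h3), mul_nonneg h0 h0]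
  have hy : z.im ^ 2 < z.re ^ 2 / 3 := by
    by_contra h
    push Not at h
    nlinarith [mul_nonneg (sub_nonneg.2 h) (sub_nonneg.2 h3)]
  refine ⟨hx, by linarith, ?_⟩
  rw [abs_lt]
  constructor <;> nlinarith

theorem re_lt_of_mem {z : ℂ} (hz : z ∈ Ubar) : z.re < 3 := by
  obtain ⟨h0, h3, hT⟩ := hz
  rw [TT] at hT
  rcases lt_or_eq_of_le h3 with h | h
  · exact h
  · rw [h] at hT
    norm_num at hT

theorem norm_sq_sub (z w : ℂ) : ‖z - w‖ ^ 2 = (z.re - w.re) ^ 2 + (z.im - w.im) ^ 2 := by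
  rw [← Complex.normSq_eq_norm_sq, Complex.normSq_apply]
  simp only [Complex.sub_re, Complex.sub_im]
  ring

theorem norm_sq_aa (z : ℂ) : ‖z - aa‖ ^ 2 = (z.re - 3 / 2) ^ 2 + z.im ^ 2 := by
  rw [norm_sq_sub]; simp

theorem norm_sq_bb (z : ℂ) : ‖z - bb‖ ^ 2 = (z.re - 1 / 2) ^ 2 + z.im ^ 2 := by
  rw [norm_sq_sub]; simp

/-- near the necks `T ≥ 15/100` -/
theorem TT_near {z : ℂ} (h : ‖z - aa‖ < 1 / 20 ∨ ‖z - bb‖ < 1 / 20) :
    15 / 100 ≤ TT z ∧ 0 ≤ z.re ∧ z.re ≤ 3 := by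
  rcases h with h | h
  · have h1 : ‖z - aa‖ ^ 2 < 1 / 400 := by nlinarith [norm_nonneg (z - aa)]
    rw [norm_sq_aa] at h1
    have h2 : |z.re - 3 / 2| < 1 / 20 := by
      rw [abs_lt]; constructor <;> nlinarith [sq_nonneg z.im]
    rw [abs_lt] at h2
    have h3 : z.im ^ 2 < 1 / 400 := by nlinarith [sq_nonneg (z.re - 3 / 2)]
    refine ⟨?_, by linarith [h2.1], by linarith [h2.2]⟩
    rw [TT]
    have h4 : 1 / 2 ≤ z.re ^ 2 / 3 - z.im ^ 2 := by nlinarith [h2.1]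
    nlinarith [h2.2]
  · have h1 : ‖z - bb‖ ^ 2 < 1 / 400 := by nlinarith [norm_nonneg (z - bb)]
    rw [norm_sq_bb] at h1
    have h2 : |z.re - 1 / 2| < 1 / 20 := by
      rw [abs_lt]; constructor <;> nlinarith [sq_nonneg z.im]
    rw [abs_lt] at h2
    have h3 : z.im ^ 2 < 1 / 400 := by nlinarith [sq_nonneg (z.re - 1 / 2)]
    refine ⟨?_, by linarith [h2.1], by linarith [h2.2]⟩
    rw [TT]
    have h4 : 65 / 1000 ≤ z.re ^ 2 / 3 - z.im ^ 2 := by nlinarith [h2.1]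
    nlinarith [h2.2]

theorem log_le {z w : ℂ} (hz : z ∈ Rect) (hw : w = aa ∨ w = bb) : Real.log ‖z - w‖ ≤ 2 := by
  have h1 : ‖z‖ ≤ 39 / 10 := norm_le_of_mem_Rect hz
  have h2 : ‖w‖ ≤ 3 / 2 := by
    rcases hw with h | h
    · rw [h, norm_aa]
    · rw [h, norm_bb]; norm_num
  have h3 : ‖z - w‖ ≤ 6 := (norm_sub_le _ _).trans (by linarith)
  rcases eq_or_lt_of_le (norm_nonneg (z - w)) with h0 | h0
  · rw [← h0]; simp
  · calc Real.log ‖z - w‖ ≤ Real.log 6 := Real.log_le_log h0 h3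
      _ ≤ 2 := by
        rw [Real.log_le_iff_le_exp (by norm_num)]
        have h4 : (2.7 : ℝ) ≤ Real.exp 1 := by linarith [Real.exp_one_gt_d9]
        have h5 : Real.exp 2 = Real.exp 1 * Real.exp 1 := by rw [← Real.exp_add]; norm_num
        rw [h5]; nlinarith

theorem log_ge {x : ℝ} (hx : 1 / 20 ≤ x) : -4 ≤ Real.log x := by
  have h1 : Real.log (1 / 20) ≤ Real.log x := Real.log_le_log (by norm_num) hx
  have h2 : -4 ≤ Real.log (1 / 20) := by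
    rw [one_div, Real.log_inv, neg_le_neg_iff, Real.log_le_iff_le_exp (by norm_num)]
    have h4 : (2.7 : ℝ) ≤ Real.exp 1 := by linarith [Real.exp_one_gt_d9]
    have h5 : Real.exp 4 = (Real.exp 1 * Real.exp 1) * (Real.exp 1 * Real.exp 1) := by
      rw [← Real.exp_add, ← Real.exp_add]; norm_num
    rw [h5]
    have h6 : (7 : ℝ) ≤ Real.exp 1 * Real.exp 1 := by nlinarith
    nlinarith
  linarith

theorem t_lower {C ε h₀ : ℝ} {Z : ℂ → ℂ} {t : ℂ → ℝ} (hE : Est C ε Z t h₀) {z : ℂ}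
    (hz : z ∈ WW ε) : ε * TT z - (C + 8) * ε ^ 2 ≤ t z := by
  have h1 := hE.bdt z hz
  rw [Dt, abs_le] at h1
  have h2 := log_le hz.1 (Or.inl rfl)
  have h3 := log_le hz.1 (Or.inr rfl)
  have h4 : 0 ≤ ε ^ 2 := sq_nonneg _
  nlinarith [h1.1, mul_le_mul_of_nonneg_left h2 h4, mul_le_mul_of_nonneg_left h3 h4]

theorem t_upper {C ε h₀ : ℝ} {Z : ℂ → ℂ} {t : ℂ → ℝ} (hE : Est C ε Z t h₀) {z : ℂ}
    (hz : z ∈ WW ε) (hF : z ∈ FR) : t z ≤ ε * TT z + (C + 16) * ε ^ 2 := by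
  have h1 := hE.bdt z hz
  rw [Dt, abs_le] at h1
  have h2 := log_ge hF.2.1
  have h3 := log_ge hF.2.2
  have h4 : 0 ≤ ε ^ 2 := sq_nonneg _
  nlinarith [h1.2, mul_le_mul_of_nonneg_left h2 h4, mul_le_mul_of_nonneg_left h3 h4]

end KFacts

open KFacts in
theorem KK_facts (C C' : ℝ) : ∃ ε₀ > 0, ∀ ε : ℝ, 0 < ε → ε < ε₀ → ∀ φ₁ φ₂ Z t h₀,
    Surf C ε φ₁ φ₂ Z t h₀ → Est C' ε Z t h₀ →
      KK ε t ⊆ WW ε ∧ IsCompact (KK ε t) ∧ 2 * (ε / 10) < h₀ ∧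
      (∀ z ∈ KK ε t, t z ≤ ε / 9 → z ∈ FR ∧ 0 < z.re ∧ z.re < 3 ∧ 9 / 100 < TT z ∧
        TT z < 1 / 8 ∧ fderiv ℝ t z ≠ 0) ∧
      (∀ z ∈ Ubar, ε ^ 2 ≤ ‖z - aa‖ → ε ^ 2 ≤ ‖z - bb‖ → 11 / 100 ≤ TT z → ε / 10 < t z) ∧
      (∀ z, ‖z - aa‖ = ε ^ 2 ∨ ‖z - bb‖ = ε ^ 2 → z ∈ KK ε t ∧ ε / 10 < t z) ∧
      (∀ z ∈ WW ε, z ∈ Ubar → TT z < 9 / 100 → t z < ε / 10) := by
  have hM : 0 < |C'| + 16 := by positivity
  refine ⟨1 / (1000 * (|C'| + 16)), by positivity, ?_⟩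
  intro ε hε hlt φ₁ φ₂ Z t h₀ S E
  have hMe : (|C'| + 16) * ε < 1 / 1000 := by
    rw [lt_div_iff₀ (by positivity)] at hlt
    linarith
  have hC : C' ≤ |C'| := le_abs_self _
  have hC0 : 0 ≤ |C'| := abs_nonneg _
  have hε1 : ε < 1 / 16000 := by nlinarith
  have hr : ε ^ 2 < 1 / 1000 := by nlinarith
  have hr0 : 0 < ε ^ 2 := by positivity
  have hKW : KK ε t ⊆ WW ε := fun z hz => ⟨Ubar_subset_Rect hz.1, hz.2.1, hz.2.2.1⟩
  have lo : ∀ z ∈ WW ε, ε * (TT z - 1 / 1000) < t z := by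
    intro z hz
    have h1 := t_lower E hz
    nlinarith [mul_pos hε hε]
  have up : ∀ z ∈ WW ε, z ∈ FR → t z < ε * (TT z + 1 / 1000) := by
    intro z hz hF
    have h1 := t_upper E hz hF
    nlinarith [mul_pos hε hε]
  have hFR : ∀ z ∈ WW ε, TT z < 15 / 100 → z ∈ FR := by
    intro z hz hT
    refine ⟨hz.1, ?_, ?_⟩
    · by_contra h
      push Not at h
      linarith [(TT_near (Or.inl h)).1]
    · by_contra h
      push Not at h
      linarith [(TT_near (Or.inr h)).1]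
  have h5 : ∀ z ∈ Ubar, ε ^ 2 ≤ ‖z - aa‖ → ε ^ 2 ≤ ‖z - bb‖ → 11 / 100 ≤ TT z → ε / 10 < t z := by
    intro z hz ha hb hT
    have := lo z ⟨Ubar_subset_Rect hz, ha, hb⟩
    nlinarith
  have h6 : ∀ z, ‖z - aa‖ = ε ^ 2 ∨ ‖z - bb‖ = ε ^ 2 → z ∈ KK ε t ∧ ε / 10 < t z := by
    intro z hz
    have h1 : ‖z - aa‖ < 1 / 20 ∨ ‖z - bb‖ < 1 / 20 :=
      hz.imp (fun h => by rw [h]; linarith) (fun h => by rw [h]; linarith)
    obtain ⟨hT, hre0, hre3⟩ := TT_near h1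
    have hab : 1 ≤ ‖z - aa‖ + ‖z - bb‖ := by
      have : ‖bb - aa‖ ≤ ‖z - aa‖ + ‖z - bb‖ := by
        calc ‖bb - aa‖ = ‖(z - aa) - (z - bb)‖ := by congr 1; ring
          _ ≤ _ := norm_sub_le _ _
      rwa [norm_bb_sub_aa] at this
    have ha : ε ^ 2 ≤ ‖z - aa‖ := by rcases hz with h | h <;> linarith
    have hb : ε ^ 2 ≤ ‖z - bb‖ := by rcases hz with h | h <;> linarith
    have hU : z ∈ Ubar := ⟨hre0, hre3, by linarith⟩
    have ht := h5 z hU ha hb (by linarith)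
    exact ⟨⟨hU, ha, hb, ht.le⟩, ht⟩
  refine ⟨hKW, ?_, ?_, ?_, h5, h6, ?_⟩
  · -- compactness
    have hU : IsClosed Ubar := by
      have e : Ubar = {z : ℂ | 0 ≤ z.re} ∩ ({z : ℂ | z.re ≤ 3} ∩ {z : ℂ | 1 / 20 ≤ TT z}) := by
        ext z; simp only [Ubar, mem_ofPred_eq, mem_inter_iff]
      rw [e]
      refine (isClosed_le (by fun_prop) (by fun_prop)).inter
        ((isClosed_le (by fun_prop) (by fun_prop)).inter (isClosed_le (by fun_prop) ?_))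
      unfold TT
      fun_prop
    have hK1 : IsClosed {z ∈ Ubar | ε ^ 2 ≤ ‖z - aa‖ ∧ ε ^ 2 ≤ ‖z - bb‖} := by
      have e : {z ∈ Ubar | ε ^ 2 ≤ ‖z - aa‖ ∧ ε ^ 2 ≤ ‖z - bb‖} =
          Ubar ∩ ({z : ℂ | ε ^ 2 ≤ ‖z - aa‖} ∩ {z : ℂ | ε ^ 2 ≤ ‖z - bb‖}) := by
        ext z; simp only [mem_ofPred_eq, mem_inter_iff]
      rw [e]
      exact hU.inter ((isClosed_le (by fun_prop) (by fun_prop)).inter
        (isClosed_le (by fun_prop) (by fun_prop)))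
    have hKc : IsCompact {z ∈ Ubar | ε ^ 2 ≤ ‖z - aa‖ ∧ ε ^ 2 ≤ ‖z - bb‖} :=
      (isCompact_closedBall (0 : ℂ) (39 / 10)).of_isClosed_subset hK1 (fun z hz => by
        simpa using norm_le_of_mem_Rect (Ubar_subset_Rect hz.1))
    have hct : ContinuousOn t {z ∈ Ubar | ε ^ 2 ≤ ‖z - aa‖ ∧ ε ^ 2 ≤ ‖z - bb‖} := by
      intro z hz
      exact (S.dt z (WW_subset_Om hε ⟨Ubar_subset_Rect hz.1, hz.2.1, hz.2.2⟩)).continuousAt.continuousWithinAt
    have e : KK ε t = {z ∈ Ubar | ε ^ 2 ≤ ‖z - aa‖ ∧ ε ^ 2 ≤ ‖z - bb‖} ∩ t ⁻¹' (Ici (ε / 10)) := by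
      ext z
      simp only [KK, mem_ofPred_eq, mem_inter_iff, mem_preimage, mem_Ici]
      tauto
    rw [e]
    exact hKc.of_isClosed_subset (hct.preimage_isClosed_of_isClosed hK1 isClosed_Ici) inter_subset_left
  · -- the height
    have m1 : ‖aa + ((ε ^ 2 : ℝ) : ℂ) - aa‖ = ε ^ 2 := by
      rw [add_sub_cancel_left, Complex.norm_real, Real.norm_of_nonneg hr0.le]
    have m2 : ‖sg (ε ^ 2) aa bb (aa + ((ε ^ 2 : ℝ) : ℂ)) - bb‖ = ε ^ 2 := by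
      rw [norm_sg_sub, m1, pow_two (ε ^ 2), mul_div_assoc, div_self hr0.ne', mul_one]
    have g1 := S.tglue _ (by rw [m1]; linarith) (by rw [m1]; linarith)
    have k1 := (h6 _ (Or.inl m1)).2
    have k2 := (h6 _ (Or.inr m2)).2
    linarith
  · intro z hz htz
    have hW := hKW hz
    have h1 := lo z hW
    have hT1 : TT z < 1 / 8 := by
      by_contra h
      push Not at h
      nlinarith
    have hF : z ∈ FR := hFR z hW (by linarith)
    have h2 := up z hW hF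
    have hT2 : 9 / 100 < TT z := by
      by_contra h
      push Not at h
      have h3 : ε / 10 ≤ t z := hz.2.2.2
      nlinarith
    have hre3 : z.re < 3 := re_lt_of_mem hz.1
    have hre0 : 0 < z.re := by linarith [hW.1.1]
    refine ⟨hF, hre0, hre3, hT2, hT1, ?_⟩
    intro h0
    have hd := (E.dert z hF).2
    rw [h0, zero_sub, norm_neg, norm_smul, Real.norm_of_nonneg hε.le] at hd
    have hd' : ‖fderiv ℝ TT z‖ ≤ C' * ε := by
      have : ε * ‖fderiv ℝ TT z‖ ≤ ε * (C' * ε) := by linarith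
      exact le_of_mul_le_mul_left this hε
    have hrad := TT_radial hre0 hre3 (by linarith) hT1.le
    have hn : ‖(2 : ℂ) - z‖ ≤ 6 := by
      have := norm_le_of_mem_Rect hW.1
      refine (norm_sub_le _ _).trans ?_
      rw [Complex.norm_ofNat]
      linarith
    have h7 : fderiv ℝ TT z (2 - z) ≤ (C' * ε) * 6 := by
      calc fderiv ℝ TT z (2 - z) ≤ ‖fderiv ℝ TT z (2 - z)‖ := Real.le_norm_self _
        _ ≤ ‖fderiv ℝ TT z‖ * ‖2 - z‖ := ContinuousLinearMap.le_opNorm _ _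
        _ ≤ (C' * ε) * 6 := by
          have := norm_nonneg (fderiv ℝ TT z)
          nlinarith [norm_nonneg (2 - z)]
    nlinarith
  · intro z hW hU hT
    have hF : z ∈ FR := hFR z hW (by linarith)
    have h2 := up z hW hF
    nlinarith

end Pool.Agent.MP_49383f_gt
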