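import Pool.Agent.MP_49383f_gt.CurveCore
import Pool.Agent.MP_49383f_gt.KFacts
import Pool.Agent.MP_49383f_gt.InvZ
import Pool.Agent.MP_49383f_gt.EstAll

/-!
# MP_49383f_gt, module G15: the boundary curves are convex curves
-/

namespace Pool.Agent.MP_49383f_gt

open scoped ContDiff ComplexConjugate
open MeasureTheory Metric Set

theorem gam_convex (C : ℝ) : ∃ ε₀ > 0, ∀ ε : ℝ, 0 < ε → ε < ε₀ → ∀ φ₁ φ₂ Z t h₀,
    Surf C ε φ₁ φ₂ Z t h₀ → IsConvexCurve (ε / 10) (Gam ε Z t) ∧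
      IsConvexCurve (h₀ - ε / 10) (RR h₀ '' Gam ε Z t) := by
  obtain ⟨κ, hκ, cd⟩ := convex_DD
  obtain ⟨C₁, -, e1, he1, est⟩ := est_of_surf C
  obtain ⟨C₂, hC₂, e2, he2, inv⟩ := exists_inverse C
  obtain ⟨e3, he3, kf⟩ := KK_facts C C₁
  have hp : 0 < min κ (1 / 2000) / C₂ := by positivity
  refine ⟨min (min e1 e2) (min (min e3 (1 / 10)) (min κ (1 / 2000) / C₂)), by positivity, ?_⟩
  intro ε hε hlt φ₁ φ₂ Z t h₀ S
  simp only [lt_min_iff] at hlt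
  obtain ⟨⟨l1, l2⟩, ⟨l3, l4⟩, l5⟩ := hlt
  have hsmall : C₂ * ε ≤ min κ (1 / 2000) := by
    rw [lt_div_iff₀ hC₂] at l5
    linarith
  have hs1 : C₂ * ε ≤ κ := hsmall.trans (min_le_left _ _)
  have hs2 : C₂ * ε ≤ 1 / 2000 := hsmall.trans (min_le_right _ _)
  have E := est ε hε l1 φ₁ φ₂ Z t h₀ S
  obtain ⟨-, -, -, kK, -⟩ := kf ε hε l3 φ₁ φ₂ Z t h₀ S E
  obtain ⟨Y, -, hY, hYZ, hZ, hFs, hest⟩ := inv ε hε l2 φ₁ φ₂ Z t h₀ S
  obtain ⟨ho, hn, hb, hc, hfr, hV, hd⟩ := cd (fun P => t (Y P) / ε) hFs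
    fun P hP => ⟨(hest P hP).1.trans hs1, (hest P hP).2.1.trans hs1, (hest P hP).2.2.trans hs1⟩
  have hG : Gam ε Z t = {p : R3 | pl p ∈ frontier (DD fun P => t (Y P) / ε) ∧ p 2 = ε / 10} :=
    CurveCore.gam_eq hε l4 hs2 hY hYZ hZ (fun P hP => (hest P hP).1)
      (fun z hz h => by
        obtain ⟨k1, k2, k3, k4, k5, -⟩ := kK z hz h
        exact ⟨k1, k2, k3, k4, k5⟩) hfr hV
  have h1 : IsConvexCurve (ε / 10) (Gam ε Z t) := by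
    rw [hG]
    exact isConvexCurve_DD _ hFs ho hn hb hc hfr hV hd
  exact ⟨h1, h1.RR⟩

end Pool.Agent.MP_49383f_gt
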