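import Pool.Agent.MP_49383f_gt.ConvexD

/-!
# MP_49383f_gt, module G15, part 1: the boundary curves are convex curves
-/

namespace Pool.Agent.MP_49383f_gt

open scoped ContDiff ComplexConjugate
open MeasureTheory Metric Set Filter Topology

namespace CurveCore

/-- the rotation `RR` in the horizontal plane -/
noncomputable def rot : ℂ → ℂ := fun P => 2 - conj P

theorem rot_rot (P : ℂ) : rot (rot P) = P := by
  apply Complex.ext
  · simp [rot]
  · simp [rot]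

theorem rot_continuous : Continuous rot := by
  unfold rot
  fun_prop

/-- `rot` as a homeomorphism -/
noncomputable def rotH : ℂ ≃ₜ ℂ where
  toFun := rot
  invFun := rot
  left_inv := rot_rot
  right_inv := rot_rot
  continuous_toFun := rot_continuous
  continuous_invFun := rot_continuous

theorem rot_contDiff : ContDiff ℝ ∞ rot := by
  unfold rot
  exact contDiff_const.sub Complex.conjCLE.contDiff

theorem pl_RR (h₀ : ℝ) (p : R3) : pl (RR h₀ p) = rot (pl p) := by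
  apply Complex.ext
  · simp [pl, RR, rot]
  · simp [pl, RR, rot]

theorem RR_two (h₀ : ℝ) (p : R3) : RR h₀ p 2 = h₀ - p 2 := by
  simp [RR]

theorem norm_rot_sub (P Q : ℂ) : ‖rot P - rot Q‖ = ‖P - Q‖ := by
  have : rot P - rot Q = conj (Q - P) := by
    simp only [rot, map_sub]; ring
  rw [this, Complex.norm_conj, norm_sub_rev]

theorem hasFDerivAt_rot (P : ℂ) :
    HasFDerivAt rot (-(Complex.conjCLE : ℂ →L[ℝ] ℂ)) P := by
  have h1 : HasFDerivAt (fun z : ℂ => conj z) (Complex.conjCLE : ℂ →L[ℝ] ℂ) P :=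
    Complex.conjCLE.hasFDerivAt
  have h2 := h1.const_sub 2
  exact h2

end CurveCore

open CurveCore

theorem IsConvexCurve.RR {h h₀ : ℝ} {Γ : Set R3} (H : IsConvexCurve h Γ) :
    IsConvexCurve (h₀ - h) (RR h₀ '' Γ) := by
  obtain ⟨D, hDo, hDn, hDb, hDc, hΓ, hs⟩ := H
  have hfr : frontier (rot ⁻¹' D) = rot ⁻¹' frontier D :=
    (rotH.preimage_frontier D).symm
  refine ⟨rot ⁻¹' D, hDo.preimage rot_continuous, ?_, ?_, ?_, ?_, ?_⟩
  · obtain ⟨P, hP⟩ := hDn
    exact ⟨rot P, by rw [mem_preimage, rot_rot]; exact hP⟩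
  · rw [isBounded_iff_forall_norm_le] at hDb ⊢
    obtain ⟨R, hR⟩ := hDb
    refine ⟨R + 2, fun P hP => ?_⟩
    have h1 := hR _ hP
    have h2 : ‖P‖ = ‖rot P - 2‖ := by
      have : rot P - 2 = - conj P := by simp [rot]
      rw [this, norm_neg, Complex.norm_conj]
    have h3 : ‖rot P - 2‖ ≤ ‖rot P‖ + ‖(2 : ℂ)‖ := norm_sub_le _ _
    have h4 : ‖(2 : ℂ)‖ = 2 := by simp
    linarith
  · intro P hP Q hQ a b ha hb hab
    have : rot (a • P + b • Q) = a • rot P + b • rot Q := by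
      have hab' : (a : ℂ) + (b : ℂ) = 1 := by exact_mod_cast hab
      simp only [rot, map_add, Complex.real_smul, map_mul, Complex.conj_ofReal]
      linear_combination (-2) * hab'
    rw [mem_preimage, this]
    exact hDc hP hQ ha hb hab
  · rw [hfr, hΓ]
    ext p
    constructor
    · rintro ⟨q, ⟨hq1, hq2⟩, rfl⟩
      refine ⟨?_, ?_⟩
      · rw [mem_preimage, pl_RR, rot_rot]; exact hq1
      · rw [RR_two, hq2]
    · rintro ⟨hp1, hp2⟩
      refine ⟨Pool.Agent.MP_49383f_gt.RR h₀ p, ⟨?_, ?_⟩, RR_RR h₀ p⟩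
      · rw [pl_RR]; exact hp1
      · rw [RR_two, hp2]; ring
  · intro P hP
    rw [hfr, mem_preimage] at hP
    obtain ⟨U, ρ, hU, hPU, hρ, hd, e1, e2⟩ := hs _ hP
    refine ⟨rot ⁻¹' U, ρ ∘ rot, hU.preimage rot_continuous, hPU,
      hρ.comp rot_contDiff.contDiffOn fun Q hQ => hQ, ?_, ?_, ?_⟩
    · intro Q hQ hzero
      apply hd (rot Q) hQ
      have h1 : HasFDerivAt ρ (fderiv ℝ ρ (rot Q)) (rot Q) :=
        ((hρ.contDiffAt (hU.mem_nhds hQ)).differentiableAt (by simp)).hasFDerivAt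
      have h2 := h1.comp Q (hasFDerivAt_rot Q)
      rw [h2.fderiv] at hzero
      ext u
      have h3 := congrArg (fun L : ℂ →L[ℝ] ℝ => L (- conj u)) hzero
      simpa using h3
    · rw [← preimage_inter, e1]
      rfl
    · rw [hfr, ← preimage_inter, e2]
      rfl

theorem isConvexCurve_DD {F : ℂ → ℝ} (h : ℝ) (hF : ContDiffOn ℝ ∞ F VP)
    (ho : IsOpen (DD F)) (hn : (DD F).Nonempty) (hb : Bornology.IsBounded (DD F))
    (hc : Convex ℝ (DD F))
    (hfr : frontier (DD F) = {P | 0 < P.re ∧ P.re < 3 ∧ 1 / 20 < TT P ∧ 1 / 15 < ‖P - aa‖ ∧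
      1 / 15 < ‖P - bb‖ ∧ F P = 1 / 10})
    (hV : frontier (DD F) ⊆ VP) (hd : ∀ P ∈ frontier (DD F), fderiv ℝ F P ≠ 0) :
    IsConvexCurve h {p : R3 | pl p ∈ frontier (DD F) ∧ p 2 = h} := by
  refine ⟨DD F, ho, hn, hb, hc, rfl, ?_⟩
  intro P hP
  have hdc : ContinuousOn (fderiv ℝ F) VP := by
    have := hF.continuousOn_fderiv_of_isOpen isOpen_VP (by simp)
    exact this
  set U : Set ℂ := (VP ∩ {Q | fderiv ℝ F Q ≠ 0}) ∩ ConvexD.U with hU
  have hUo : IsOpen U := by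
    refine IsOpen.inter ?_ ConvexD.U_open
    have := hdc.isOpen_inter_preimage isOpen_VP (isOpen_compl_singleton (x := (0 : ℂ →L[ℝ] ℝ)))
    exact this
  have hderiv : ∀ Q ∈ U, fderiv ℝ (fun Q => F Q - 1 / 10) Q = fderiv ℝ F Q := by
    intro Q _
    rw [fderiv_sub_const]
  refine ⟨U, fun Q => F Q - 1 / 10, hUo, ?_, ?_, ?_, ?_, ?_⟩
  · refine ⟨⟨hV hP, hd P hP⟩, ?_⟩
    rw [hfr] at hP
    exact ⟨hP.1, hP.2.1, hP.2.2.1⟩
  · exact (hF.mono fun Q hQ => hQ.1.1).sub contDiffOn_const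
  · intro Q hQ
    rw [hderiv Q hQ]
    exact hQ.1.2
  · ext Q
    constructor
    · rintro ⟨hQD, hQU⟩
      refine ⟨hQU, ?_⟩
      obtain ⟨-, -, -, v4, v5⟩ := hQU.1.1
      rcases hQD.2.2.2 with h | h | h
      · linarith
      · linarith
      · show 0 < F Q - 1 / 10
        linarith
    · rintro ⟨hQU, hQ⟩
      refine ⟨⟨hQU.2.1, hQU.2.2.1, hQU.2.2.2, Or.inr (Or.inr ?_)⟩, hQU⟩
      have : 0 < F Q - 1 / 10 := hQ
      linarith
  · ext Q
    constructor
    · rintro ⟨hQD, hQU⟩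
      refine ⟨hQU, ?_⟩
      rw [hfr] at hQD
      show F Q - 1 / 10 = 0
      linarith [hQD.2.2.2.2.2]
    · rintro ⟨hQU, hQ⟩
      refine ⟨?_, hQU⟩
      rw [hfr]
      have hQ' : F Q - 1 / 10 = 0 := hQ
      exact ⟨hQU.2.1, hQU.2.2.1, hQU.2.2.2, hQU.1.1.2.2.2.1, hQU.1.1.2.2.2.2, by linarith⟩

namespace CurveCore

theorem TT_lip {z w : ℂ} (hz : z ∈ Rect) (hw : w ∈ Rect) : |TT z - TT w| ≤ 20 * ‖z - w‖ := by
  have h := convex_Rect.norm_image_sub_le_of_norm_hasFDerivWithin_le (f := TT)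
    (f' := Torsion.dT) (C := 20) (fun x _ => (Torsion.hasFDerivAt_TT x).hasFDerivWithinAt)
    (fun x hx => ?_) hw hz
  · rw [Real.norm_eq_abs] at h
    exact h
  · refine ContinuousLinearMap.opNorm_le_bound _ (by norm_num) fun u => ?_
    rw [Torsion.dT_apply, Real.norm_eq_abs]
    obtain ⟨h1, h2, h3⟩ := hx
    have hre := Complex.abs_re_le_norm u
    have him := Complex.abs_im_le_norm u
    have a1 : |2 * x.re - x.re ^ 2 + x.im ^ 2| ≤ 8 := by
      rw [abs_lt] at h3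
      rw [abs_le]
      constructor <;> nlinarith
    have a2 : |-6 * x.im + 2 * x.re * x.im| ≤ 12 := by
      have e : -6 * x.im + 2 * x.re * x.im = (2 * (x.re - 3)) * x.im := by ring
      rw [e, abs_mul]
      have : |2 * (x.re - 3)| ≤ 6 := by
        rw [abs_le]; constructor <;> linarith
      nlinarith [abs_nonneg x.im, abs_nonneg (2 * (x.re - 3))]
    have hn := norm_nonneg u
    calc |(2 * x.re - x.re ^ 2 + x.im ^ 2) * u.re + (-6 * x.im + 2 * x.re * x.im) * u.im|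
        ≤ |(2 * x.re - x.re ^ 2 + x.im ^ 2) * u.re| + |(-6 * x.im + 2 * x.re * x.im) * u.im| :=
          abs_add_le _ _
      _ = |2 * x.re - x.re ^ 2 + x.im ^ 2| * |u.re| + |-6 * x.im + 2 * x.re * x.im| * |u.im| := by
          rw [abs_mul, abs_mul]
      _ ≤ 8 * ‖u‖ + 12 * ‖u‖ := by
          gcongr
      _ = 20 * ‖u‖ := by ring

theorem VP_subset_Rect : VP ⊆ Rect := by
  rintro P ⟨h1, h2, h3, -, -⟩
  exact ⟨by linarith, by linarith, by linarith⟩

/-- bounds when `TT` is not small -/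
theorem T_bounds {z : ℂ} (h0 : 0 < z.re) (h3 : z.re < 3) (hT : 8 / 100 ≤ TT z) :
    1 / 5 < z.re ∧ z.re ≤ 3 - 2 / 100 ∧ |z.im| < 175 / 100 := by
  obtain ⟨b1, b2, b3⟩ := ConvexD.U_bounds (z := z) ⟨h0, h3, by linarith⟩
  have hTT : TT z = (z.re ^ 2 / 3 - z.im ^ 2) * (3 - z.re) := rfl
  rw [hTT] at hT
  have hd : 0 < 3 - z.re := by linarith
  have h1 : 0 < z.re ^ 2 / 3 - z.im ^ 2 := by
    by_contra hcon
    push Not at hcon
    have : (z.re ^ 2 / 3 - z.im ^ 2) * (3 - z.re) ≤ 0 :=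
      mul_nonpos_of_nonpos_of_nonneg hcon hd.le
    linarith
  refine ⟨b1, ?_, ?_⟩
  · by_contra hcon
    push Not at hcon
    nlinarith [sq_nonneg z.im]
  · rw [abs_lt]
    constructor <;> nlinarith [sq_nonneg z.im]

theorem gam_eq {ε η : ℝ} {Z Y : ℂ → ℂ} {t : ℂ → ℝ} (hε : 0 < ε) (hε1 : ε < 1 / 10)
    (hη : η ≤ 1 / 2000)
    (hY : ∀ P ∈ VP, Y P ∈ FR ∧ Z (Y P) = P ∧ ‖Y P - P‖ ≤ η)
    (hYZ : ∀ z ∈ FR, Z z ∈ VP → Y (Z z) = z) (hZ : ∀ z ∈ FR, ‖Z z - z‖ ≤ η)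
    (hest : ∀ P ∈ VP, |t (Y P) / ε - TT P| ≤ η)
    (hK : ∀ z ∈ KK ε t, t z ≤ ε / 9 → z ∈ FR ∧ 0 < z.re ∧ z.re < 3 ∧ 9 / 100 < TT z ∧
      TT z < 1 / 8)
    (hfr : frontier (DD fun P => t (Y P) / ε) = {P | 0 < P.re ∧ P.re < 3 ∧ 1 / 20 < TT P ∧
      1 / 15 < ‖P - aa‖ ∧ 1 / 15 < ‖P - bb‖ ∧ t (Y P) / ε = 1 / 10})
    (hV : frontier (DD fun P => t (Y P) / ε) ⊆ VP) :
    Gam ε Z t = {p : R3 | pl p ∈ frontier (DD fun P => t (Y P) / ε) ∧ p 2 = ε / 10} := by
  ext p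
  constructor
  · rintro ⟨z, ⟨hzK, hzt⟩, rfl⟩
    obtain ⟨hzF, h0, h3, hT1, hT2⟩ := hK z hzK (by rw [hzt]; linarith)
    have hZz := hZ z hzF
    obtain ⟨b1, b2, b3⟩ := T_bounds h0 h3 (by linarith)
    have hre : |(Z z).re - z.re| ≤ η := by
      rw [← Complex.sub_re]; exact (Complex.abs_re_le_norm _).trans hZz
    have him : |(Z z).im - z.im| ≤ η := by
      rw [← Complex.sub_im]; exact (Complex.abs_im_le_norm _).trans hZz
    rw [abs_le] at hre him
    have b3' := abs_lt.1 b3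
    have hna : 1 / 14 ≤ ‖z - aa‖ := by
      by_contra hcon
      push Not at hcon
      linarith [ConvexD.TT_disc_a hcon]
    have hnb : 1 / 14 ≤ ‖z - bb‖ := by
      by_contra hcon
      push Not at hcon
      linarith [ConvexD.TT_disc_b hcon]
    have hna' : 1 / 15 < ‖Z z - aa‖ := by
      have h1 : ‖z - aa‖ ≤ ‖Z z - aa‖ + ‖Z z - z‖ := by
        have : z - aa = (Z z - aa) - (Z z - z) := by ring
        rw [this]; exact norm_sub_le _ _
      linarith
    have hnb' : 1 / 15 < ‖Z z - bb‖ := by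
      have h1 : ‖z - bb‖ ≤ ‖Z z - bb‖ + ‖Z z - z‖ := by
        have : z - bb = (Z z - bb) - (Z z - z) := by ring
        rw [this]; exact norm_sub_le _ _
      linarith
    have hVP : Z z ∈ VP :=
      ⟨by linarith, by linarith, by rw [abs_lt]; constructor <;> linarith, hna', hnb'⟩
    have hYz := hYZ z hzF hVP
    have he := hest _ hVP
    have hF : t (Y (Z z)) / ε = 1 / 10 := by
      rw [hYz, hzt]; field_simp
    refine ⟨?_, ?_⟩
    · rw [pl_Xm, hfr]
      rw [hF, abs_le] at he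
      exact ⟨by linarith, by linarith, by linarith, hna', hnb', hF⟩
    · rw [Xm_two, hzt]
  · rintro ⟨hp1, hp2⟩
    have hVP := hV hp1
    rw [hfr] at hp1
    obtain ⟨h0, h3, hT, hna, hnb, hF⟩ := hp1
    obtain ⟨y1, y2, y3⟩ := hY _ hVP
    have he := hest _ hVP
    rw [hF, abs_le] at he
    have hlip := TT_lip y1.1 (VP_subset_Rect hVP)
    rw [abs_le] at hlip
    have hTP : 9 / 100 ≤ TT (pl p) := by linarith
    obtain ⟨b1, b2, b3⟩ := T_bounds h0 h3 (by linarith)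
    have hre : |(Y (pl p)).re - (pl p).re| ≤ η := by
      rw [← Complex.sub_re]; exact (Complex.abs_re_le_norm _).trans y3
    rw [abs_le] at hre
    have ht : t (Y (pl p)) = ε / 10 := by
      field_simp at hF
      linarith
    have hsmall : ε ^ 2 ≤ 1 / 20 := by nlinarith
    refine ⟨Y (pl p), ⟨⟨⟨by linarith, by linarith, by linarith⟩, hsmall.trans y1.2.1,
      hsmall.trans y1.2.2, ht.ge⟩, ht⟩, ?_⟩
    have e0 : (pl p).re = p 0 := rfl
    have e1 : (pl p).im = p 1 := rfl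
    ext i
    fin_cases i
    · simp [Xm, y2, e0]
    · simp [Xm, y2, e1]
    · simp [Xm, ht, hp2]

end CurveCore

end Pool.Agent.MP_49383f_gt
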