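import Mathlib

/-!
# MP_49383f_gt : definitions

A compact embedded surface of constant mean curvature `H ≠ 0` and genus one, bounded by two
convex curves in distinct parallel planes.  Part A: analysis (Cauchy transform, fixed point).
Part G: geometry.
-/

namespace Pool.Agent.MP_49383f_gt

open scoped ContDiff ComplexConjugate
open MeasureTheory Metric Set

noncomputable section

/-! ## Part F : the notions used in the final statement -/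

/-- Euclidean three-space. -/
abbrev R3 := EuclideanSpace ℝ (Fin 3)

/-- The horizontal projection `ℝ³ → ℝ² = ℂ`. -/
def pl (p : R3) : ℂ := ⟨p 0, p 1⟩

/-- `Γ` is a convex curve in the horizontal plane `x₃ = h`: it is the boundary, in that plane, of a
non-empty bounded open convex set `D` whose boundary is smooth, i.e. near each of its points the
boundary is the zero set, and `D` the positivity set, of a smooth function with non-vanishing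
differential. -/
def IsConvexCurve (h : ℝ) (Γ : Set R3) : Prop :=
  ∃ D : Set ℂ, IsOpen D ∧ D.Nonempty ∧ Bornology.IsBounded D ∧ Convex ℝ D ∧
    Γ = {p | pl p ∈ frontier D ∧ p 2 = h} ∧
    ∀ P ∈ frontier D, ∃ (U : Set ℂ) (ρ : ℂ → ℝ), IsOpen U ∧ P ∈ U ∧ ContDiffOn ℝ ∞ ρ U ∧
      (∀ Q ∈ U, fderiv ℝ ρ Q ≠ 0) ∧ D ∩ U = {Q ∈ U | 0 < ρ Q} ∧
      frontier D ∩ U = {Q ∈ U | ρ Q = 0}

/-- first partial derivative of a parametrisation (`ℝ² = ℂ`) -/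
def px (X : ℂ → R3) (z : ℂ) : R3 := fderiv ℝ X z 1
/-- second partial derivative of a parametrisation (`ℝ² = ℂ`) -/
def py (X : ℂ → R3) (z : ℂ) : R3 := fderiv ℝ X z Complex.I

/-- The parametrised surface `X` has at `z` the unit normal `n` and, with respect to `n`, the mean
curvature `H`:  `(G ⟨X_xx,n⟩ - 2F ⟨X_xy,n⟩ + E ⟨X_yy,n⟩) / (2 (E G - F²)) = H`. -/
def HasMeanCurvatureAt (X : ℂ → R3) (n : R3) (H : ℝ) (z : ℂ) : Prop :=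
  ‖n‖ = 1 ∧ inner ℝ (px X z) n = 0 ∧ inner ℝ (py X z) n = 0 ∧
    inner ℝ (py X z) (py X z) * inner ℝ (px (px X) z) n
      - 2 * inner ℝ (px X z) (py X z) * inner ℝ (py (px X) z) n
      + inner ℝ (px X z) (px X z) * inner ℝ (py (py X) z) n
      = 2 * H * (inner ℝ (px X z) (px X z) * inner ℝ (py X z) (py X z)
          - inner ℝ (px X z) (py X z) ^ 2)

/-- `S` is near its point `p` a smooth embedded surface with boundary, its boundary being `Γ`, and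
has there the unit normal `n` and the constant mean curvature `H`: there are an injective smooth
immersion `X : V → ℝ³` of an open set `V ⊆ ℝ²` which is a homeomorphism onto its image and a smooth
function `ρ : V → ℝ` with non-vanishing differential on its zero set (so that `{ρ ≥ 0}` is a smooth
surface with boundary `{ρ = 0}`), such that near `p` the set `S` is `X({ρ ≥ 0})` and `Γ` is
`X({ρ = 0})`. -/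
def HasChartAt (S Γ : Set R3) (n : R3 → R3) (H : ℝ) (p : R3) : Prop :=
  ∃ (V : Set ℂ) (U : Set R3) (X : ℂ → R3) (ρ : ℂ → ℝ),
    IsOpen V ∧ IsOpen U ∧ p ∈ U ∧ ContDiffOn ℝ ∞ X V ∧ ContDiffOn ℝ ∞ ρ V ∧
    Topology.IsEmbedding (fun z : V => X z) ∧ (∀ z ∈ V, Function.Injective (fderiv ℝ X z)) ∧
    (∀ z ∈ V, ρ z = 0 → fderiv ℝ ρ z ≠ 0) ∧
    S ∩ U = X '' {z ∈ V | 0 ≤ ρ z} ∧ Γ ∩ U = X '' {z ∈ V | ρ z = 0} ∧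
    ∀ z ∈ V, 0 ≤ ρ z → HasMeanCurvatureAt X (n (X z)) H z

/-- `S` is a compact connected embedded smooth surface in `ℝ³` with boundary `Γ`, oriented by a
continuous unit normal field with respect to which its mean curvature is the constant `H`. -/
def IsCMCSurface (S Γ : Set R3) (H : ℝ) : Prop :=
  IsCompact S ∧ IsConnected S ∧ Γ ⊆ S ∧
    ∃ n : R3 → R3, ContinuousOn n S ∧ ∀ p ∈ S, HasChartAt S Γ n H p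

/-! ## Part A : analysis -/

/-- the Cauchy transform `(1/π) ∫ ν(ζ)/(z-ζ) dA(ζ)` -/
def cauchyT {V : Type*} [NormedAddCommGroup V] [NormedSpace ℂ V] (ν : ℂ → V) (z : ℂ) : V :=
  (Real.pi : ℂ)⁻¹ • ∫ ζ, (z - ζ)⁻¹ • ν ζ

/-- `∂̄u` -/
def dbar {V : Type*} [NormedAddCommGroup V] [NormedSpace ℂ V] (u : ℂ → V) (z : ℂ) : V :=
  (2 : ℂ)⁻¹ • (fderiv ℝ u z 1 + Complex.I • fderiv ℝ u z Complex.I)

/-- local Cauchy representation of `u` at `z₀` for the equation `∂̄u = Q(u)` -/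
def LRat {V : Type*} [NormedAddCommGroup V] [NormedSpace ℂ V] (Ω : Set ℂ) (Q : V → V) (u : ℂ → V)
    (z₀ : ℂ) : Prop :=
  ∃ ρ > 0, closedBall z₀ ρ ⊆ Ω ∧ ∃ h : ℂ → V, DifferentiableOn ℂ h (ball z₀ ρ) ∧
    ∀ z ∈ ball z₀ ρ, u z = h z + cauchyT ((ball z₀ ρ).indicator (fun ζ => Q (u ζ))) z

/-- `u` is continuous on `Ω` and has a local Cauchy representation at each point of `Ω` -/
def LR {V : Type*} [NormedAddCommGroup V] [NormedSpace ℂ V] (Ω : Set ℂ) (Q : V → V)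
    (u : ℂ → V) : Prop :=
  ContinuousOn u Ω ∧ ∀ z₀ ∈ Ω, LRat Ω Q u z₀

/-- the right-hand side of the spinor equation: `μ(φ) = ε |φ|² J φ̄` -/
def mu (ε : ℝ) (p : ℂ × ℂ) : ℂ × ℂ :=
  (((ε * (‖p.1‖ ^ 2 + ‖p.2‖ ^ 2) : ℝ) : ℂ) * conj p.2,
    -(((ε * (‖p.1‖ ^ 2 + ‖p.2‖ ^ 2) : ℝ) : ℂ) * conj p.1))

/-- `J (x, y) = (y, -x)` -/
def JJ (p : ℂ × ℂ) : ℂ × ℂ := (p.2, -p.1)

/-- the Moebius map `z ↦ b - r² / (z - a)`; it exchanges the circles of radius `r` about `a`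
and `b`; its inverse is `sg r b a`. -/
def sg (r : ℝ) (a b z : ℂ) : ℂ := b - (r : ℂ) ^ 2 / (z - a)

/-- the first neck -/
def aa : ℂ := 3 / 2
/-- the second neck -/
def bb : ℂ := 1 / 2

/-- `φ = h + (r/(z-a)) J p(σz) + (r/(z-b)) J q(τz)` -/
def PHI (r : ℝ) (a b : ℂ) (h p q : ℂ → ℂ × ℂ) (z : ℂ) : ℂ × ℂ :=
  h z + ((r : ℂ) / (z - a)) • JJ (p (sg r a b z)) + ((r : ℂ) / (z - b)) • JJ (q (sg r b a z))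

/-- the disc of radius `4` minus the two small discs -/
def GG (r : ℝ) (a b : ℂ) : Set ℂ := {z | ‖z‖ ≤ 4 ∧ r ≤ ‖z - a‖ ∧ r ≤ ‖z - b‖}

/-- the holomorphic data -/
def EE (ε c : ℝ) (z : ℂ) : ℂ × ℂ := (1, ε * ((2 + c) * z - z ^ 2 / 2))

/-- Solutions of the fixed point problem (`r = ε²`).  `p` is the part of `φ` regular near `b`,
`q` the part regular near `a`. -/
structure Sol (ε : ℝ) (E : ℂ → ℂ × ℂ) (a b : ℂ) (h p q : ℂ → ℂ × ℂ) : Prop where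
  h_cont : Continuous h
  p_cont : ContinuousOn p (closedBall b (1 / 4))
  q_cont : ContinuousOn q (closedBall a (1 / 4))
  h_eq : ∀ z, h z = E z +
    cauchyT ((GG (ε ^ 2) a b).indicator (fun ζ => mu ε (PHI (ε ^ 2) a b h p q ζ))) z
  p_eq : ∀ w ∈ closedBall b (1 / 4),
    p w = h w + (((ε ^ 2 : ℝ) : ℂ) / (w - a)) • JJ (p (sg (ε ^ 2) a b w))
  q_eq : ∀ w ∈ closedBall a (1 / 4),
    q w = h w + (((ε ^ 2 : ℝ) : ℂ) / (w - b)) • JJ (q (sg (ε ^ 2) b a w))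
  bd : ∀ z ∈ GG (ε ^ 2) a b, ‖PHI (ε ^ 2) a b h p q z‖ ≤ 20

/-- complex conjugation on `ℂ²` -/
def cconj (p : ℂ × ℂ) : ℂ × ℂ := (conj p.1, conj p.2)

/-- the domain where `φ` is smooth -/
def Om0 (ε : ℝ) : Set ℂ := {z | ‖z‖ < 4 ∧ ε ^ 2 / 8 < ‖z - aa‖ ∧ ε ^ 2 / 8 < ‖z - bb‖}

/-- `q₀ = ∂_z T` -/
def qq (z : ℂ) : ℂ := 2 * z - z ^ 2 / 2 - conj z

/-- the period of `dZ` about the first neck -/
def per (ε : ℝ) (φ : ℂ → ℂ × ℂ) : ℂ :=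
  (∮ z in C(aa, ε ^ 2), (φ z).1 ^ 2) - conj (∮ z in C(aa, ε ^ 2), (φ z).2 ^ 2)

/-- The outcome of the analysis part. -/
structure Core (C ε : ℝ) (φ₁ φ₂ : ℂ → ℂ) : Prop where
  smooth₁ : ContDiffOn ℝ ∞ φ₁ (Om0 ε)
  smooth₂ : ContDiffOn ℝ ∞ φ₂ (Om0 ε)
  pde₁ : ∀ z ∈ Om0 ε, dbar φ₁ z = ((ε * (‖φ₁ z‖ ^ 2 + ‖φ₂ z‖ ^ 2) : ℝ) : ℂ) * conj (φ₂ z)
  pde₂ : ∀ z ∈ Om0 ε, dbar φ₂ z = -(((ε * (‖φ₁ z‖ ^ 2 + ‖φ₂ z‖ ^ 2) : ℝ) : ℂ) * conj (φ₁ z))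
  glue₁ : ∀ z, ε ^ 2 / 8 < ‖z - aa‖ → ‖z - aa‖ < 8 * ε ^ 2 →
    φ₁ z = (((ε ^ 2 : ℝ) : ℂ) / (z - aa)) * φ₂ (sg (ε ^ 2) aa bb z)
  glue₂ : ∀ z, ε ^ 2 / 8 < ‖z - aa‖ → ‖z - aa‖ < 8 * ε ^ 2 →
    φ₂ z = -((((ε ^ 2 : ℝ) : ℂ) / (z - aa)) * φ₁ (sg (ε ^ 2) aa bb z))
  symm₁ : ∀ z ∈ Om0 ε, φ₁ (conj z) = conj (φ₁ z)
  symm₂ : ∀ z ∈ Om0 ε, φ₂ (conj z) = conj (φ₂ z)
  est₁ : ∀ z, ‖z‖ ≤ 39 / 10 → ε ^ 2 ≤ ‖z - aa‖ → ε ^ 2 ≤ ‖z - bb‖ →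
    ‖φ₁ z - 1‖ ≤ C * (ε ^ 2 + ε * (ε ^ 2 / ‖z - aa‖) + ε * (ε ^ 2 / ‖z - bb‖))
  est₂ : ∀ z, ‖z‖ ≤ 39 / 10 → ε ^ 2 ≤ ‖z - aa‖ → ε ^ 2 ≤ ‖z - bb‖ →
    ‖φ₂ z - (ε * qq z - ((ε ^ 2 : ℝ) : ℂ) / (z - aa) - ((ε ^ 2 : ℝ) : ℂ) / (z - bb))‖ ≤ C * ε ^ 2
  der₁ : ∀ z, ‖z‖ ≤ 39 / 10 → 1 / 20 ≤ ‖z - aa‖ → 1 / 20 ≤ ‖z - bb‖ →
    ‖fderiv ℝ φ₁ z‖ ≤ C * ε
  der₂ : ∀ z, ‖z‖ ≤ 39 / 10 → 1 / 20 ≤ ‖z - aa‖ → 1 / 20 ≤ ‖z - bb‖ →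
    ‖fderiv ℝ (fun w => φ₂ w - ε * qq w) z‖ ≤ C * ε ^ 2
  period : (∮ z in C(aa, ε ^ 2), φ₁ z ^ 2) = conj (∮ z in C(aa, ε ^ 2), φ₂ z ^ 2)

/-! ## Part G : geometry -/

/-- an open rectangle containing the closed region `Ubar` -/
def Rect : Set ℂ := {z | 1 / 20 < z.re ∧ z.re < 33 / 10 ∧ |z.im| < 19 / 10}

/-- the domain of the conformal parametrisation -/
def Om (ε : ℝ) : Set ℂ := {z ∈ Rect | ε ^ 2 / 4 < ‖z - aa‖ ∧ ε ^ 2 / 4 < ‖z - bb‖}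

/-- the rectangle minus the two open discs of radius `ε²` -/
def WW (ε : ℝ) : Set ℂ := {z ∈ Rect | ε ^ 2 ≤ ‖z - aa‖ ∧ ε ^ 2 ≤ ‖z - bb‖}

/-- the part of the rectangle away from the necks -/
def FR : Set ℂ := {z ∈ Rect | 1 / 20 ≤ ‖z - aa‖ ∧ 1 / 20 ≤ ‖z - bb‖}

/-- the real linear map `u ↦ α u + β ū` -/
def dform (α β : ℂ) : ℂ →L[ℝ] ℂ :=
  α • (ContinuousLinearMap.id ℝ ℂ) + β • (Complex.conjCLE : ℂ →L[ℝ] ℂ)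

/-- the real linear form `u ↦ 2 Re (α u)` -/
def reform (α : ℂ) : ℂ →L[ℝ] ℝ :=
  (2 : ℝ) • (Complex.reCLM.comp (α • (ContinuousLinearMap.id ℝ ℂ)))

/-- the torsion function of an equilateral triangle -/
def TT (z : ℂ) : ℝ := (z.re ^ 2 / 3 - z.im ^ 2) * (3 - z.re)

/-- the surface: `dZ = φ₁² dz - conj(φ₂²) dz̄`, `dt = 2 Re (φ₁ φ₂ dz)` -/
structure Surf (C ε : ℝ) (φ₁ φ₂ Z : ℂ → ℂ) (t : ℂ → ℝ) (h₀ : ℝ) : Prop extends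
    Core C ε φ₁ φ₂ where
  dZ : ∀ z ∈ Om ε, HasFDerivAt Z (dform (φ₁ z ^ 2) (-(conj (φ₂ z)) ^ 2)) z
  dt : ∀ z ∈ Om ε, HasFDerivAt t (reform (φ₁ z * φ₂ z)) z
  Zsymm : ∀ z ∈ Om ε, Z (conj z) = conj (Z z)
  tsymm : ∀ z ∈ Om ε, t (conj z) = t z
  Zglue : ∀ z, ε ^ 2 / 4 < ‖z - aa‖ → ‖z - aa‖ < 4 * ε ^ 2 →
    Z z + conj (Z (sg (ε ^ 2) aa bb z)) = 2
  tglue : ∀ z, ε ^ 2 / 4 < ‖z - aa‖ → ‖z - aa‖ < 4 * ε ^ 2 →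
    t z + t (sg (ε ^ 2) aa bb z) = h₀
  tnorm : t 2 = ε * (4 / 3)

/-- deviation of `Z` from its leading part -/
def DZ (ε : ℝ) (Z : ℂ → ℂ) (z : ℂ) : ℂ :=
  Z z - z - (((ε ^ 2 : ℝ) : ℂ) ^ 2 / conj (z - aa)) - (((ε ^ 2 : ℝ) : ℂ) ^ 2 / conj (z - bb))

/-- deviation of `t` from its leading part -/
def Dt (ε : ℝ) (t : ℂ → ℝ) (z : ℂ) : ℝ :=
  t z - (ε * TT z - 2 * ε ^ 2 * Real.log ‖z - aa‖ - 2 * ε ^ 2 * Real.log ‖z - bb‖)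

/-- the estimates on `Z` and `t` used for embeddedness -/
structure Est (C ε : ℝ) (Z : ℂ → ℂ) (t : ℂ → ℝ) (h₀ : ℝ) : Prop where
  lipZ : ∀ z ∈ WW ε, ∀ z' ∈ WW ε, ‖DZ ε Z z - DZ ε Z z'‖ ≤ C * ε * ‖z - z'‖
  bdZ : ∀ z ∈ WW ε, ‖DZ ε Z z‖ ≤ C * ε
  neckZ : ∀ z, ‖z - aa‖ = ε ^ 2 → ‖DZ ε Z z + conj (DZ ε Z (sg (ε ^ 2) aa bb z))‖ ≤ C * ε ^ 4
  bdt : ∀ z ∈ WW ε, |Dt ε t z| ≤ C * ε ^ 2
  neart_a : ∀ z, ε ^ 2 ≤ ‖z - aa‖ → ‖z - aa‖ ≤ 1 / 4 →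
    |Dt ε t z - Dt ε t (aa + ((ε ^ 2 : ℝ) : ℂ))| ≤ C * ε ^ 2 * (‖z - aa‖ + ε)
  neart_b : ∀ z, ε ^ 2 ≤ ‖z - bb‖ → ‖z - bb‖ ≤ 1 / 4 →
    |Dt ε t z - Dt ε t (bb - ((ε ^ 2 : ℝ) : ℂ))| ≤ C * ε ^ 2 * (‖z - bb‖ + ε)
  dert : ∀ z ∈ FR, DifferentiableAt ℝ t z ∧ ‖fderiv ℝ t z - ε • fderiv ℝ TT z‖ ≤ C * ε ^ 2
  Zglue : ∀ z, ε ^ 2 / 4 < ‖z - aa‖ → ‖z - aa‖ < 4 * ε ^ 2 →
    Z z + conj (Z (sg (ε ^ 2) aa bb z)) = 2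
  tglue : ∀ z, ε ^ 2 / 4 < ‖z - aa‖ → ‖z - aa‖ < 4 * ε ^ 2 →
    t z + t (sg (ε ^ 2) aa bb z) = h₀
  catZ : ∀ z z', ε ^ 2 / 4 < ‖z - aa‖ → ‖z - aa‖ < 4 * ε ^ 2 → ε ^ 2 / 4 < ‖z' - aa‖ →
    ‖z' - aa‖ < 4 * ε ^ 2 →
    ‖(Z z - Z z') - ((z - z') + (((ε ^ 2 : ℝ) : ℂ) ^ 2 / conj (z - aa)
      - ((ε ^ 2 : ℝ) : ℂ) ^ 2 / conj (z' - aa)))‖ ≤ C * ε * ‖z - z'‖
  catt : ∀ z z', ε ^ 2 / 4 < ‖z - aa‖ → ‖z - aa‖ < 4 * ε ^ 2 → ε ^ 2 / 4 < ‖z' - aa‖ →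
    ‖z' - aa‖ < 4 * ε ^ 2 →
    |(t z - t z') + 2 * ε ^ 2 * (Real.log ‖z - aa‖ - Real.log ‖z' - aa‖)| ≤ C * ε * ‖z - z'‖

/-- the closed region of the triangle where `T ≥ 1/20` -/
def Ubar : Set ℂ := {z | 0 ≤ z.re ∧ z.re ≤ 3 ∧ 1 / 20 ≤ TT z}

/-- the parameter domain of the lower sheet -/
def KK (ε : ℝ) (t : ℂ → ℝ) : Set ℂ :=
  {z ∈ Ubar | ε ^ 2 ≤ ‖z - aa‖ ∧ ε ^ 2 ≤ ‖z - bb‖ ∧ ε / 10 ≤ t z}

/-- the region of the target plane where the inverse of `Z` is considered -/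
def VP : Set ℂ := {P | 1 / 10 < P.re ∧ P.re < 32 / 10 ∧ |P.im| < 18 / 10 ∧
  1 / 15 < ‖P - aa‖ ∧ 1 / 15 < ‖P - bb‖}

/-- the planar domain bounded by the projection of the lower boundary curve -/
def DD (F : ℂ → ℝ) : Set ℂ :=
  {P | 0 < P.re ∧ P.re < 3 ∧ 1 / 20 < TT P ∧
    (‖P - aa‖ ≤ 1 / 15 ∨ ‖P - bb‖ ≤ 1 / 15 ∨ 1 / 10 < F P)}

/-- the parametrisation -/
def Xm (Z : ℂ → ℂ) (t : ℂ → ℝ) (z : ℂ) : R3 := !₂[(Z z).re, (Z z).im, t z]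

/-- the unit normal in terms of the spinor -/
def Nm (φ₁ φ₂ : ℂ → ℂ) (z : ℂ) : R3 :=
  (‖φ₁ z‖ ^ 2 + ‖φ₂ z‖ ^ 2)⁻¹ • !₂[(-2 * φ₁ z * conj (φ₂ z)).re, (-2 * φ₁ z * conj (φ₂ z)).im,
    ‖φ₁ z‖ ^ 2 - ‖φ₂ z‖ ^ 2]

/-- the rotation by `π` exchanging the two sheets -/
def RR (h₀ : ℝ) (p : R3) : R3 := !₂[2 - p 0, p 1, h₀ - p 2]

/-- its linear part -/
def RL (p : R3) : R3 := !₂[- p 0, p 1, - p 2]

/-- the surface -/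
def SS (ε : ℝ) (Z : ℂ → ℂ) (t : ℂ → ℝ) (h₀ : ℝ) : Set R3 :=
  Xm Z t '' KK ε t ∪ RR h₀ '' (Xm Z t '' KK ε t)

/-- the lower boundary curve -/
def Gam (ε : ℝ) (Z : ℂ → ℂ) (t : ℂ → ℝ) : Set R3 := Xm Z t '' {z ∈ KK ε t | t z = ε / 10}

end

end Pool.Agent.MP_49383f_gt
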