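import Pool.Agent.MP_49383f_gt.Basic

/-!
# MP_49383f_gt : derivatives of the leading parts (used by G05, G06, G07)
-/

namespace Pool.Agent.MP_49383f_gt

open scoped ContDiff ComplexConjugate
open MeasureTheory Metric Set

namespace EstAux

theorem dform_apply (α β u : ℂ) : dform α β u = α * u + β * conj u := by
  simp [dform]

theorem reform_apply (α u : ℂ) : reform α u = 2 * (α * u).re := by
  simp [reform]

theorem norm_dform_le (α β : ℂ) : ‖dform α β‖ ≤ ‖α‖ + ‖β‖ := by
  refine ContinuousLinearMap.opNorm_le_bound _ (by positivity) fun u => ?_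
  rw [dform_apply]
  refine (norm_add_le _ _).trans ?_
  rw [norm_mul, norm_mul, Complex.norm_conj]
  linarith

theorem norm_reform_le (α : ℂ) : ‖reform α‖ ≤ 2 * ‖α‖ := by
  refine ContinuousLinearMap.opNorm_le_bound _ (by positivity) fun u => ?_
  rw [reform_apply, Real.norm_eq_abs, abs_mul, abs_two]
  have := Complex.abs_re_le_norm (α * u)
  rw [norm_mul] at this
  linarith

theorem reform_sub (α β : ℂ) : reform (α - β) = reform α - reform β := by
  ext u
  simp [reform_apply]; ring

theorem reform_add (α β : ℂ) : reform (α + β) = reform α + reform β := by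
  ext u
  simp [reform_apply]; ring

theorem reform_smul (c : ℝ) (α : ℂ) : reform (c * α) = c • reform α := by
  ext u
  simp [reform_apply]; ring

theorem hasFDerivAt_TT (z : ℂ) : HasFDerivAt TT (reform (qq z)) z := by
  have hre : HasFDerivAt (fun w : ℂ => w.re) Complex.reCLM z := Complex.reCLM.hasFDerivAt
  have him : HasFDerivAt (fun w : ℂ => w.im) Complex.imCLM z := Complex.imCLM.hasFDerivAt
  have h1 := ((hre.pow 2).mul_const (1 / 3 : ℝ)).sub (him.pow 2)
  have h2 := hre.const_sub (3 : ℝ)
  have h3 := h1.mul h2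
  have e : TT = (fun w : ℂ => (w.re ^ 2 * (1 / 3) - w.im ^ 2) * (3 - w.re)) := by
    funext w; rw [TT]; ring
  rw [e]
  refine h3.congr_fderiv ?_
  refine ContinuousLinearMap.ext fun u => ?_
  simp [reform_apply, qq, pow_two]
  ring

theorem hasFDerivAt_log_norm (r : ℝ) {a z : ℂ} (h : z ≠ a) :
    HasFDerivAt (fun w : ℂ => 2 * r * Real.log ‖w - a‖) (reform (r / (z - a))) z := by
  have h0 : z - a ≠ 0 := sub_ne_zero.2 h
  have h0' : ‖z - a‖ ^ 2 ≠ 0 := by positivity
  have h1 : HasFDerivAt (fun w : ℂ => w - a) (ContinuousLinearMap.id ℝ ℂ) z :=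
    (hasFDerivAt_id z).sub_const a
  have h2 := (h1.norm_sq).log h0'
  have h3 := h2.const_mul r
  have e : (fun w : ℂ => 2 * r * Real.log ‖w - a‖) = fun w => r * Real.log (‖w - a‖ ^ 2) := by
    funext w; rw [Real.log_pow]; push_cast; ring
  rw [e]
  refine h3.congr_fderiv ?_
  have h4 : ∀ u : ℂ, ((r / (z - a)) * u).re = r * ((z - a).re * u.re + (z - a).im * u.im) /
      ‖z - a‖ ^ 2 := by
    intro u
    rw [← Complex.normSq_eq_norm_sq, div_mul_eq_mul_div, Complex.div_re, Complex.mul_re,
      Complex.mul_im]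
    simp only [Complex.ofReal_re, Complex.ofReal_im, zero_mul, sub_zero, add_zero]
    field_simp
  refine ContinuousLinearMap.ext fun u => ?_
  rw [reform_apply, h4]
  simp [Complex.inner]
  field_simp
  ring

theorem hasFDerivAt_inv_conj (c : ℂ) {a z : ℂ} (h : z ≠ a) :
    HasFDerivAt (fun w : ℂ => c / conj (w - a)) (dform 0 (-(c / conj (z - a) ^ 2))) z := by
  have h0 : conj (z - a) ≠ 0 := by
    rw [Ne, map_eq_zero]; exact sub_ne_zero.2 h
  have h1 : HasFDerivAt (fun w : ℂ => conj (w - a)) (Complex.conjCLE : ℂ →L[ℝ] ℂ) z := by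
    have := (Complex.conjCLE : ℂ →L[ℝ] ℂ).hasFDerivAt (x := z - a)
    exact (this.comp z ((hasFDerivAt_id z).sub_const a)).congr_fderiv (by ext; simp)
  have h2 : HasDerivAt (fun w : ℂ => c / w) (-(c / conj (z - a) ^ 2)) (conj (z - a)) := by
    have := (hasDerivAt_inv h0).const_mul c
    simp only [div_eq_mul_inv]
    refine this.congr_deriv ?_
    ring
  have h3 := (h2.hasFDerivAt.restrictScalars ℝ).comp z h1
  refine h3.congr_fderiv ?_
  refine ContinuousLinearMap.ext fun u => ?_
  rw [dform_apply]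
  simp
  ring

end EstAux

end Pool.Agent.MP_49383f_gt
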