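import Pool.Agent.MP_49383f_gt.EstAux

/-!
# MP_49383f_gt : bounds on `WW`, polar paths (used by G05, G06, G07)
-/

namespace Pool.Agent.MP_49383f_gt

open scoped ContDiff ComplexConjugate
open MeasureTheory Metric Set

namespace EstAux

/-! ### polar paths -/

section paths

variable {F : Type*} [NormedAddCommGroup F] [NormedSpace ℝ F]

theorem arc_bound {f : ℂ → F} {a : ℂ} {s κ : ℝ} (hs : 0 ≤ s)
    (hf : ∀ z, ‖z - a‖ = s → DifferentiableAt ℝ f z)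
    (hκ : ∀ z, ‖z - a‖ = s → ‖fderiv ℝ f z‖ ≤ κ) (x y : ℝ) :
    ‖f (circleMap a s y) - f (circleMap a s x)‖ ≤ κ * s * |y - x| := by
  have hn : ∀ θ, ‖circleMap a s θ - a‖ = s := fun θ => by
    rw [circleMap_sub_center, norm_circleMap_zero, abs_of_nonneg hs]
  have hd : ∀ θ ∈ (univ : Set ℝ), HasDerivWithinAt (fun θ => f (circleMap a s θ))
      (fderiv ℝ f (circleMap a s θ) (circleMap 0 s θ * Complex.I)) univ θ := by
    intro θ _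
    exact ((hf _ (hn θ)).hasFDerivAt.comp_hasDerivAt θ
      (hasDerivAt_circleMap a s θ)).hasDerivWithinAt
  have hb : ∀ θ ∈ (univ : Set ℝ),
      ‖fderiv ℝ f (circleMap a s θ) (circleMap 0 s θ * Complex.I)‖ ≤ κ * s := by
    intro θ _
    refine (ContinuousLinearMap.le_opNorm _ _).trans ?_
    rw [norm_mul, Complex.norm_I, mul_one, norm_circleMap_zero, abs_of_nonneg hs]
    exact mul_le_mul_of_nonneg_right (hκ _ (hn θ)) hs
  have := convex_univ.norm_image_sub_le_of_norm_hasDerivWithin_le hd hb (mem_univ x) (mem_univ y)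
  rwa [Real.norm_eq_abs] at this

theorem abs_le_of_exp (θ : ℝ) (h : |θ| ≤ Real.pi) :
    |θ| ≤ 2 * ‖Complex.exp (θ * Complex.I) - 1‖ := by
  have h1 : ‖Complex.exp (θ * Complex.I) - 1‖ = ‖2 * Real.sin (θ / 2)‖ := by
    rw [mul_comm (θ : ℂ)]
    exact Complex.norm_exp_I_mul_ofReal_sub_one θ
  rw [h1, Real.norm_eq_abs, abs_mul, abs_two]
  have h2 : |θ / 2| ≤ Real.pi / 2 := by
    rw [abs_div, abs_two]; linarith
  have h3 := Real.mul_abs_le_abs_sin h2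
  rw [abs_div, abs_two] at h3
  have h4 : 2 / Real.pi * (|θ| / 2) = |θ| / Real.pi := by
    field_simp
  rw [h4, div_le_iff₀ Real.pi_pos] at h3
  nlinarith [Real.pi_lt_four, abs_nonneg (Real.sin (θ / 2)), Real.pi_pos]

theorem circle_lip {f : ℂ → F} {a : ℂ} {s κ : ℝ} (hs : 0 < s)
    (hf : ∀ z, ‖z - a‖ = s → DifferentiableAt ℝ f z)
    (hκ : ∀ z, ‖z - a‖ = s → ‖fderiv ℝ f z‖ ≤ κ) {z z' : ℂ} (hz : ‖z - a‖ = s)
    (hz' : ‖z' - a‖ = s) : ‖f z - f z'‖ ≤ 2 * κ * ‖z - z'‖ := by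
  have hκ0 : 0 ≤ κ := (norm_nonneg _).trans (hκ z hz)
  have h0 : z - a ≠ 0 := by
    rw [← norm_pos_iff, hz]; exact hs
  have h0' : z' - a ≠ 0 := by
    rw [← norm_pos_iff, hz']; exact hs
  set x := Complex.arg (z' - a) with hx
  set θ := Complex.arg ((z - a) / (z' - a)) with hθ
  have e1 : z' = circleMap a s x := by
    rw [circleMap, ← hz', hx, Complex.norm_mul_exp_arg_mul_I]; ring
  have e3 : Complex.exp (θ * Complex.I) = (z - a) / (z' - a) := by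
    have := Complex.norm_mul_exp_arg_mul_I ((z - a) / (z' - a))
    rw [norm_div, hz, hz', div_self hs.ne', Complex.ofReal_one, one_mul] at this
    exact this
  have e4 : (s : ℂ) * Complex.exp (x * Complex.I) = z' - a := by
    rw [← hz']; exact Complex.norm_mul_exp_arg_mul_I _
  have e2 : z = circleMap a s (x + θ) := by
    rw [circleMap, Complex.ofReal_add, add_mul, Complex.exp_add, ← mul_assoc, e4, e3,
      mul_div_cancel₀ _ h0']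
    ring
  have h1 := arc_bound hs.le hf hκ x (x + θ)
  rw [← e1, ← e2, add_sub_cancel_left] at h1
  have h2 := abs_le_of_exp θ (Complex.abs_arg_le_pi _)
  have h3 : s * ‖Complex.exp (θ * Complex.I) - 1‖ = ‖z - z'‖ := by
    rw [e3, ← hz', ← norm_mul]
    congr 1
    field_simp
    ring
  calc ‖f z - f z'‖ ≤ κ * s * |θ| := h1
    _ ≤ κ * s * (2 * ‖Complex.exp (θ * Complex.I) - 1‖) := by gcongr
    _ = 2 * κ * (s * ‖Complex.exp (θ * Complex.I) - 1‖) := by ring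
    _ = 2 * κ * ‖z - z'‖ := by rw [h3]

theorem seg_lip {f : ℂ → F} {κ : ℝ} {z z' : ℂ}
    (hf : ∀ w ∈ segment ℝ z z', DifferentiableAt ℝ f w)
    (hκ : ∀ w ∈ segment ℝ z z', ‖fderiv ℝ f w‖ ≤ κ) : ‖f z - f z'‖ ≤ κ * ‖z - z'‖ :=
  (convex_segment z z').norm_image_sub_le_of_norm_hasFDerivWithin_le
    (fun w hw => (hf w hw).hasFDerivAt.hasFDerivWithinAt) hκ (right_mem_segment ℝ z z')
    (left_mem_segment ℝ z z')

/-- radial projection onto a circle -/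
theorem proj_le {u v : ℂ} (hu : 0 < ‖u‖) (huv : ‖u‖ ≤ ‖v‖) :
    ‖u - ((‖u‖ / ‖v‖ : ℝ) : ℂ) * v‖ ≤ ‖u - v‖ := by
  have hv : 0 < ‖v‖ := hu.trans_le huv
  have hsq : ‖u - ((‖u‖ / ‖v‖ : ℝ) : ℂ) * v‖ ^ 2 ≤ ‖u - v‖ ^ 2 := by
    have n1 : ∀ w : ℂ, ‖w‖ ^ 2 = w.re ^ 2 + w.im ^ 2 := fun w => by
      rw [← Complex.normSq_eq_norm_sq, Complex.normSq_apply]; ring
    rw [n1 (u - ((‖u‖ / ‖v‖ : ℝ) : ℂ) * v), n1 (u - v)]
    simp only [Complex.sub_re, Complex.sub_im, Complex.re_ofReal_mul, Complex.im_ofReal_mul]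
    set k := ‖u‖ / ‖v‖ with hk
    have hk1 : k ≤ 1 := (div_le_one hv).2 huv
    have hk0 : 0 ≤ k := by positivity
    have hu2 := n1 u
    have hv2 := n1 v
    have huk : ‖u‖ = k * ‖v‖ := by rw [hk]; field_simp
    have hcs : u.re * v.re + u.im * v.im ≤ ‖u‖ * ‖v‖ := by
      have := abs_le_of_sq_le_sq' (a := u.re * v.re + u.im * v.im) (b := ‖u‖ * ‖v‖) (by
        rw [mul_pow, hu2, hv2]
        nlinarith [sq_nonneg (u.re * v.im - u.im * v.re)]) (by positivity)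
      exact this.2
    have hcs' : u.re * v.re + u.im * v.im ≤ k * (v.re ^ 2 + v.im ^ 2) := by
      rw [← hv2, pow_two, ← mul_assoc, ← huk]; exact hcs
    have e1 := mul_nonneg (sub_nonneg.2 hk1) (sub_nonneg.2 hcs')
    have e2 : 0 ≤ (1 - k) * ((1 - k) * (v.re ^ 2 + v.im ^ 2)) :=
      mul_nonneg (sub_nonneg.2 hk1) (mul_nonneg (sub_nonneg.2 hk1) (by positivity))
    linarith [e1, e2, show (u.re - v.re) ^ 2 + (u.im - v.im) ^ 2 -
      ((u.re - k * v.re) ^ 2 + (u.im - k * v.im) ^ 2) =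
      2 * ((1 - k) * (k * (v.re ^ 2 + v.im ^ 2) - (u.re * v.re + u.im * v.im))) +
      (1 - k) * ((1 - k) * (v.re ^ 2 + v.im ^ 2)) by ring]
  exact le_of_sq_le_sq hsq (norm_nonneg _)

theorem lip_annulus {f : ℂ → F} {a : ℂ} {r₁ r₂ κ : ℝ} (hr₁ : 0 ≤ r₁)
    (hf : ∀ z, r₁ < ‖z - a‖ → ‖z - a‖ < r₂ → DifferentiableAt ℝ f z)
    (hκ : ∀ z, r₁ < ‖z - a‖ → ‖z - a‖ < r₂ → ‖fderiv ℝ f z‖ ≤ κ) {z z' : ℂ}
    (h1 : r₁ < ‖z - a‖) (h2 : ‖z - a‖ < r₂) (h1' : r₁ < ‖z' - a‖) (h2' : ‖z' - a‖ < r₂) :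
    ‖f z - f z'‖ ≤ 3 * κ * ‖z - z'‖ := by
  wlog hle : ‖z - a‖ ≤ ‖z' - a‖ generalizing z z'
  · rw [norm_sub_rev, norm_sub_rev z z']
    exact this h1' h2' h1 h2 (le_of_not_ge hle)
  have hκ0 : 0 ≤ κ := (norm_nonneg _).trans (hκ z h1 h2)
  have hu : 0 < ‖z - a‖ := hr₁.trans_lt h1
  have hv : 0 < ‖z' - a‖ := hr₁.trans_lt h1'
  set k : ℝ := ‖z - a‖ / ‖z' - a‖ with hk
  have hk0 : 0 < k := by positivity
  have hk1 : k ≤ 1 := (div_le_one hv).2 hle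
  set w : ℂ := a + (k : ℂ) * (z' - a) with hw
  have hwn : ‖w - a‖ = ‖z - a‖ := by
    rw [hw, add_sub_cancel_left, norm_mul, Complex.norm_real, Real.norm_of_nonneg hk0.le, hk]
    field_simp
  have hzw : ‖z - w‖ ≤ ‖z - z'‖ := by
    have := proj_le hu hle
    rw [show z - w = (z - a) - (k : ℂ) * (z' - a) by rw [hw]; ring,
      show z - z' = (z - a) - (z' - a) by ring]
    exact this
  have hA : ‖f z - f w‖ ≤ 2 * κ * ‖z - w‖ := by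
    refine circle_lip hu (fun x hx => hf x (by rw [hx]; exact h1) (by rw [hx]; exact h2))
      (fun x hx => hκ x (by rw [hx]; exact h1) (by rw [hx]; exact h2)) rfl hwn
  have hseg : ∀ x ∈ segment ℝ w z', r₁ < ‖x - a‖ ∧ ‖x - a‖ < r₂ := by
    rintro x ⟨p, q, hp, hq, hpq, rfl⟩
    have e : p • w + q • z' - a = ((p * k + q : ℝ) : ℂ) * (z' - a) := by
      rw [hw]
      have hq' : (q : ℂ) = 1 - p := by
        rw [eq_sub_iff_add_eq]; exact_mod_cast (by linarith : q + p = 1)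
      simp only [Complex.real_smul]
      push_cast
      rw [hq']
      ring
    have hpk : 0 ≤ p * k + q := by positivity
    rw [e, norm_mul, Complex.norm_real, Real.norm_of_nonneg hpk]
    have e1 : k * ‖z' - a‖ = ‖z - a‖ := by rw [hk]; field_simp
    have l1 : ‖z - a‖ ≤ (p * k + q) * ‖z' - a‖ := by
      have : k ≤ p * k + q := by nlinarith
      calc ‖z - a‖ = k * ‖z' - a‖ := e1.symm
        _ ≤ _ := by gcongr
    have l2 : (p * k + q) * ‖z' - a‖ ≤ ‖z' - a‖ := by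
      have : p * k + q ≤ 1 := by nlinarith
      calc (p * k + q) * ‖z' - a‖ ≤ 1 * ‖z' - a‖ := by gcongr
        _ = _ := one_mul _
    exact ⟨h1.trans_le l1, l2.trans_lt h2'⟩
  have hB : ‖f w - f z'‖ ≤ κ * ‖w - z'‖ :=
    seg_lip (fun x hx => hf x (hseg x hx).1 (hseg x hx).2)
      (fun x hx => hκ x (hseg x hx).1 (hseg x hx).2)
  have hwz : ‖w - z'‖ ≤ ‖z - z'‖ := by
    have e : w - z' = ((k - 1 : ℝ) : ℂ) * (z' - a) := by
      rw [hw]; push_cast; ring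
    have e1 : k * ‖z' - a‖ = ‖z - a‖ := by rw [hk]; field_simp
    rw [e, norm_mul, Complex.norm_real, Real.norm_of_nonpos (by linarith)]
    have e2 : -(k - 1) * ‖z' - a‖ = ‖z' - a‖ - ‖z - a‖ := by rw [← e1]; ring
    rw [e2, norm_sub_rev z z']
    have := norm_sub_norm_le (z' - a) (z - a)
    rwa [sub_sub_sub_cancel_right] at this
  calc ‖f z - f z'‖ ≤ ‖f z - f w‖ + ‖f w - f z'‖ := norm_sub_le_norm_sub_add_norm_sub _ _ _
    _ ≤ 2 * κ * ‖z - w‖ + κ * ‖w - z'‖ := add_le_add hA hB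
    _ ≤ 2 * κ * ‖z - z'‖ + κ * ‖z - z'‖ := by gcongr
    _ = 3 * κ * ‖z - z'‖ := by ring

end paths

/-! ### bounds on `WW` -/

/-- the leading part of `φ₂` -/
noncomputable def qz (ε : ℝ) (z : ℂ) : ℂ :=
  ε * qq z - ((ε ^ 2 : ℝ) : ℂ) / (z - aa) - ((ε ^ 2 : ℝ) : ℂ) / (z - bb)

theorem norm_qq_le {z : ℂ} (hz : ‖z‖ ≤ 39 / 10) : ‖qq z‖ ≤ 20 := by
  have h1 : ‖qq z‖ ≤ 2 * ‖z‖ + ‖z‖ ^ 2 / 2 + ‖z‖ := by
    rw [qq]
    refine (norm_sub_le _ _).trans ?_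
    rw [Complex.norm_conj]
    gcongr
    refine (norm_sub_le _ _).trans ?_
    rw [norm_mul, norm_div, norm_pow, Complex.norm_ofNat]
  nlinarith [norm_nonneg z]

theorem one_le_add (z : ℂ) : 1 ≤ ‖z - aa‖ + ‖z - bb‖ := by
  have := norm_sub_le_norm_sub_add_norm_sub bb z aa
  rw [norm_bb_sub_aa, norm_sub_rev bb z] at this
  linarith

theorem wfacts {ε : ℝ} (hε : 0 < ε) (hε2 : ε ≤ 1 / 2) {z : ℂ} (h1 : ε ^ 2 ≤ ‖z - aa‖)
    (h2 : ε ^ 2 ≤ ‖z - bb‖) :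
    0 ≤ ε ^ 2 / ‖z - aa‖ ∧ ε ^ 2 / ‖z - aa‖ ≤ 1 ∧ 0 ≤ ε ^ 2 / ‖z - bb‖ ∧ ε ^ 2 / ‖z - bb‖ ≤ 1 ∧
      ε ^ 2 / ‖z - aa‖ * (ε ^ 2 / ‖z - bb‖) ≤ 2 * ε ^ 2 := by
  have hr : 0 < ε ^ 2 := by positivity
  have ha : 0 < ‖z - aa‖ := hr.trans_le h1
  have hb : 0 < ‖z - bb‖ := hr.trans_le h2
  refine ⟨by positivity, (div_le_one ha).2 h1, by positivity, (div_le_one hb).2 h2, ?_⟩
  rw [div_mul_div_comm, div_le_iff₀ (by positivity)]
  have h3 := one_le_add z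
  have h4 : ε ^ 2 ≤ 2 * (‖z - aa‖ * ‖z - bb‖) := by
    rcases le_total ‖z - aa‖ ‖z - bb‖ with h | h
    · nlinarith
    · nlinarith
  nlinarith

theorem norm_qz_le {ε : ℝ} (hε : 0 < ε) {z : ℂ} (hz : ‖z‖ ≤ 39 / 10) :
    ‖qz ε z‖ ≤ 20 * ε + ε ^ 2 / ‖z - aa‖ + ε ^ 2 / ‖z - bb‖ := by
  have h0 := norm_qq_le hz
  have e1 : ‖(ε : ℂ) * qq z‖ ≤ 20 * ε := by
    rw [norm_mul, Complex.norm_real, Real.norm_of_nonneg hε.le]
    nlinarith
  have e2 : ∀ a : ℂ, ‖((ε ^ 2 : ℝ) : ℂ) / (z - a)‖ = ε ^ 2 / ‖z - a‖ := fun a => by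
    rw [norm_div, Complex.norm_real, Real.norm_of_nonneg (by positivity)]
  rw [qz]
  calc _ ≤ ‖(ε : ℂ) * qq z - ((ε ^ 2 : ℝ) : ℂ) / (z - aa)‖ + ‖((ε ^ 2 : ℝ) : ℂ) / (z - bb)‖ :=
        norm_sub_le _ _
    _ ≤ (‖(ε : ℂ) * qq z‖ + ‖((ε ^ 2 : ℝ) : ℂ) / (z - aa)‖) + ‖((ε ^ 2 : ℝ) : ℂ) / (z - bb)‖ := by
        gcongr; exact norm_sub_le _ _
    _ ≤ _ := by rw [e2, e2]; gcongr

set_option maxHeartbeats 1000000 in
theorem bds {C ε : ℝ} {φ₁ φ₂ : ℂ → ℂ} (hε : 0 < ε) (hK : 1000 * (|C| + 1) * ε < 1)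
    (S : Core C ε φ₁ φ₂) {z : ℂ} (hz : ‖z‖ ≤ 39 / 10) (h1 : ε ^ 2 ≤ ‖z - aa‖)
    (h2 : ε ^ 2 ≤ ‖z - bb‖) :
    ‖φ₁ z - 1‖ ≤ (|C| + 1) * (ε ^ 2 + ε * (ε ^ 2 / ‖z - aa‖) + ε * (ε ^ 2 / ‖z - bb‖)) ∧
    ‖φ₁ z - 1‖ ≤ 3 * (|C| + 1) * ε ∧
    ‖φ₂ z - qz ε z‖ ≤ (|C| + 1) * ε ^ 2 ∧
    ‖φ₁ z * φ₂ z - qz ε z‖ ≤
      64 * (|C| + 1) * (ε ^ 2 + ε * (ε ^ 2 / ‖z - aa‖) ^ 2 + ε * (ε ^ 2 / ‖z - bb‖) ^ 2) ∧
    ‖φ₁ z ^ 2 - 1‖ ≤ 9 * (|C| + 1) * ε ∧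
    ‖φ₂ z ^ 2 - (((ε ^ 2 : ℝ) : ℂ) / (z - aa)) ^ 2 - (((ε ^ 2 : ℝ) : ℂ) / (z - bb)) ^ 2‖ ≤
      500 * (|C| + 1) * ε := by
  set K := |C| + 1 with hKdef
  have hK1 : 1 ≤ K := by rw [hKdef]; linarith [abs_nonneg C]
  have hKε : K * ε < 1 / 1000 := by linarith
  have hε1 : ε < 1 / 1000 := by nlinarith
  obtain ⟨a0, a1, b0, b1, ab⟩ := wfacts hε (by linarith) h1 h2
  have hq := norm_qz_le hε hz
  have e1 := S.est₁ z hz h1 h2
  have e2 := S.est₂ z hz h1 h2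
  have hnA : ‖((ε ^ 2 : ℝ) : ℂ) / (z - aa)‖ = ε ^ 2 / ‖z - aa‖ := by
    rw [norm_div, Complex.norm_real, Real.norm_of_nonneg (by positivity)]
  have hnB : ‖((ε ^ 2 : ℝ) : ℂ) / (z - bb)‖ = ε ^ 2 / ‖z - bb‖ := by
    rw [norm_div, Complex.norm_real, Real.norm_of_nonneg (by positivity)]
  set A := ε ^ 2 / ‖z - aa‖ with hA
  set B := ε ^ 2 / ‖z - bb‖ with hB
  have hC : C ≤ K := by rw [hKdef]; linarith [le_abs_self C]
  have f1 : ‖φ₁ z - 1‖ ≤ K * (ε ^ 2 + ε * A + ε * B) :=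
    e1.trans (mul_le_mul_of_nonneg_right hC (by positivity))
  have f2 : ‖φ₁ z - 1‖ ≤ 3 * K * ε := by
    refine f1.trans ?_
    have : ε ^ 2 + ε * A + ε * B ≤ 3 * ε := by nlinarith
    calc K * (ε ^ 2 + ε * A + ε * B) ≤ K * (3 * ε) := by gcongr
      _ = 3 * K * ε := by ring
  have f3 : ‖φ₂ z - qz ε z‖ ≤ K * ε ^ 2 :=
    e2.trans (mul_le_mul_of_nonneg_right hC (by positivity))
  have f3' : ‖φ₂ z - qz ε z‖ ≤ 1 := by
    refine f3.trans ?_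
    nlinarith
  have hn1 : ‖φ₁ z‖ ≤ 2 := by
    have := norm_le_insert' (φ₁ z) 1
    rw [norm_one] at this
    nlinarith
  refine ⟨f1, f2, f3, ?_, ?_, ?_⟩
  · have g : φ₁ z * φ₂ z - qz ε z = φ₁ z * (φ₂ z - qz ε z) + (φ₁ z - 1) * qz ε z := by ring
    rw [g]
    calc _ ≤ ‖φ₁ z * (φ₂ z - qz ε z)‖ + ‖(φ₁ z - 1) * qz ε z‖ := norm_add_le _ _
      _ ≤ 2 * (K * ε ^ 2) + (K * (ε ^ 2 + ε * A + ε * B)) * (20 * ε + A + B) := by
          rw [norm_mul, norm_mul]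
          gcongr
      _ = K * (2 * ε ^ 2 + (ε ^ 2 + ε * A + ε * B) * (20 * ε + A + B)) := by ring
      _ ≤ K * (64 * (ε ^ 2 + ε * A ^ 2 + ε * B ^ 2)) := by
          gcongr
          have i1 : ε ^ 2 * (20 * ε) ≤ ε ^ 2 * 20 := by
            have := mul_nonneg (sq_nonneg ε) (by linarith : (0 : ℝ) ≤ 20 - 20 * ε)
            linarith
          have i2 : ε ^ 2 * A ≤ ε ^ 2 := by
            have := mul_nonneg (sq_nonneg ε) (sub_nonneg.2 a1)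
            linarith
          have i3 : ε ^ 2 * B ≤ ε ^ 2 := by
            have := mul_nonneg (sq_nonneg ε) (sub_nonneg.2 b1)
            linarith
          have i4 : ε * (A + B) ^ 2 ≤ ε * (2 * A ^ 2 + 2 * B ^ 2) := by
            gcongr
            nlinarith [sq_nonneg (A - B)]
          have i5 : 0 ≤ ε * A ^ 2 := by positivity
          have i6 : 0 ≤ ε * B ^ 2 := by positivity
          nlinarith
      _ = 64 * K * (ε ^ 2 + ε * A ^ 2 + ε * B ^ 2) := by ring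
  · have g : φ₁ z ^ 2 - 1 = (φ₁ z - 1) * (φ₁ z - 1 + 2) := by ring
    rw [g, norm_mul]
    have : ‖φ₁ z - 1 + 2‖ ≤ 3 := by
      refine (norm_add_le _ _).trans ?_
      rw [Complex.norm_ofNat]
      nlinarith
    calc _ ≤ (3 * K * ε) * 3 := by gcongr
      _ = 9 * K * ε := by ring
  · set X := ((ε ^ 2 : ℝ) : ℂ) / (z - aa) with hX
    set Y := ((ε ^ 2 : ℝ) : ℂ) / (z - bb) with hY
    have hqz : qz ε z = ε * qq z - X - Y := rfl
    have g : φ₂ z ^ 2 - X ^ 2 - Y ^ 2 = (φ₂ z - qz ε z) * ((φ₂ z - qz ε z) + 2 * qz ε z) +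
        (ε * qq z) * (ε * qq z - 2 * (X + Y)) + 2 * (X * Y) := by
      rw [hqz]; ring
    have h0 := norm_qq_le hz
    have hεq : ‖(ε : ℂ) * qq z‖ ≤ 20 * ε := by
      rw [norm_mul, Complex.norm_real, Real.norm_of_nonneg hε.le]
      nlinarith
    rw [g]
    have k1 : ‖(φ₂ z - qz ε z) * ((φ₂ z - qz ε z) + 2 * qz ε z)‖ ≤ (K * ε ^ 2) * 6 := by
      rw [norm_mul]
      gcongr
      refine (norm_add_le _ _).trans ?_
      rw [norm_mul, Complex.norm_ofNat]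
      linarith
    have k2 : ‖((ε : ℂ) * qq z) * (ε * qq z - 2 * (X + Y))‖ ≤ (20 * ε) * 5 := by
      rw [norm_mul]
      gcongr
      refine (norm_sub_le _ _).trans ?_
      rw [norm_mul (2 : ℂ), Complex.norm_ofNat]
      have := norm_add_le X Y
      rw [hnA, hnB] at this
      linarith
    have k3 : ‖2 * (X * Y)‖ ≤ 2 * (2 * ε ^ 2) := by
      rw [norm_mul, norm_mul, hnA, hnB, Complex.norm_ofNat]
      gcongr
    calc _ ≤ ‖(φ₂ z - qz ε z) * ((φ₂ z - qz ε z) + 2 * qz ε z) +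
          (ε * qq z) * (ε * qq z - 2 * (X + Y))‖ + ‖2 * (X * Y)‖ := norm_add_le _ _
      _ ≤ (‖(φ₂ z - qz ε z) * ((φ₂ z - qz ε z) + 2 * qz ε z)‖ +
          ‖(ε * qq z) * (ε * qq z - 2 * (X + Y))‖) + ‖2 * (X * Y)‖ := by
          gcongr; exact norm_add_le _ _
      _ ≤ ((K * ε ^ 2) * 6 + (20 * ε) * 5) + 2 * (2 * ε ^ 2) := by gcongr
      _ ≤ 500 * K * ε := by
          have j1 : ε ≤ K * ε := le_mul_of_one_le_left hε.le hK1
          have j3 : ε ^ 2 ≤ ε := by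
            rw [pow_two]; exact mul_le_of_le_one_left hε.le (by linarith only [hε1])
          have j2 : K * ε ^ 2 ≤ K * ε := mul_le_mul_of_nonneg_left j3 (by linarith only [hK1])
          linarith only [j1, j2, j3, hε]

end EstAux

end Pool.Agent.MP_49383f_gt
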