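import Pool.Agent.MP_49383f_gt.EstBd
import Pool.Agent.MP_49383f_gt.PathLip

/-!
# MP_49383f_gt : G05, the estimates `lipZ`, `neckZ`, `bdZ`
-/

namespace Pool.Agent.MP_49383f_gt

open scoped ContDiff ComplexConjugate
open MeasureTheory Metric Set

namespace EstZ

open EstAux

theorem ne_of_mem_Om {ε : ℝ} {z : ℂ} (hz : z ∈ Om ε) : z ≠ aa ∧ z ≠ bb := by
  constructor
  · rintro rfl
    have := hz.2.1
    rw [sub_self, norm_zero] at this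
    nlinarith [sq_nonneg ε]
  · rintro rfl
    have := hz.2.2
    rw [sub_self, norm_zero] at this
    nlinarith [sq_nonneg ε]

theorem hasFDerivAt_DZ {C ε : ℝ} {φ₁ φ₂ Z : ℂ → ℂ} {t : ℂ → ℝ} {h₀ : ℝ}
    (S : Surf C ε φ₁ φ₂ Z t h₀) {z : ℂ} (hz : z ∈ Om ε) :
    HasFDerivAt (DZ ε Z) (dform (φ₁ z ^ 2 - 1)
      (-(conj (φ₂ z ^ 2 - (((ε ^ 2 : ℝ) : ℂ) / (z - aa)) ^ 2
        - (((ε ^ 2 : ℝ) : ℂ) / (z - bb)) ^ 2)))) z := by
  obtain ⟨ha, hb⟩ := ne_of_mem_Om hz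
  have h1 := ((S.dZ z hz).sub (hasFDerivAt_id z)).sub
    (hasFDerivAt_inv_conj (((ε ^ 2 : ℝ) : ℂ) ^ 2) ha)
  have h2 := h1.sub (hasFDerivAt_inv_conj (((ε ^ 2 : ℝ) : ℂ) ^ 2) hb)
  refine h2.congr_fderiv ?_
  refine ContinuousLinearMap.ext fun u => ?_
  have hr : conj ((ε ^ 2 : ℝ) : ℂ) = ((ε ^ 2 : ℝ) : ℂ) := Complex.conj_ofReal _
  simp only [_root_.sub_apply, dform_apply, ContinuousLinearMap.id_apply, map_sub,
    map_div₀, map_pow, hr, conj_aa, conj_bb, div_pow]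
  ring

theorem norm_fderiv_DZ_le {C ε : ℝ} {φ₁ φ₂ Z : ℂ → ℂ} {t : ℂ → ℝ} {h₀ : ℝ}
    (S : Surf C ε φ₁ φ₂ Z t h₀) (hε : 0 < ε) (hK : 1000 * (|C| + 1) * ε < 1) {z : ℂ}
    (hz : z ∈ WW ε) : ‖fderiv ℝ (DZ ε Z) z‖ ≤ 509 * (|C| + 1) * ε := by
  rw [(hasFDerivAt_DZ S (WW_subset_Om hε hz)).fderiv]
  obtain ⟨-, -, -, -, h5, h6⟩ := bds hε hK S.toCore (norm_le_of_mem_Rect hz.1) hz.2.1 hz.2.2
  refine (norm_dform_le _ _).trans ?_
  rw [norm_neg, Complex.norm_conj]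
  linarith

theorem estZ_of_surf (C : ℝ) : ∃ C₁ > 0, ∃ ε₀ > 0, ∀ ε : ℝ, 0 < ε → ε < ε₀ →
    ∀ φ₁ φ₂ Z t h₀, Surf C ε φ₁ φ₂ Z t h₀ →
      (∀ z ∈ WW ε, ∀ z' ∈ WW ε, ‖DZ ε Z z - DZ ε Z z'‖ ≤ C₁ * ε * ‖z - z'‖) ∧
      (∀ z ∈ WW ε, ‖DZ ε Z z‖ ≤ C₁ * ε) ∧
      (∀ z, ‖z - aa‖ = ε ^ 2 →
        ‖DZ ε Z z + conj (DZ ε Z (sg (ε ^ 2) aa bb z))‖ ≤ C₁ * ε ^ 4) := by
  have hKp : 0 < |C| + 1 := by positivity
  refine ⟨10 ^ 7 * (|C| + 1), by positivity, 1 / (1000 * (|C| + 1)), by positivity,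
    fun ε hε hlt φ₁ φ₂ Z t h₀ S => ?_⟩
  have hK : 1000 * (|C| + 1) * ε < 1 := by
    rw [lt_div_iff₀ (by positivity)] at hlt
    linarith
  set K := |C| + 1 with hKdef
  have hK1 : 1 ≤ K := by rw [hKdef]; linarith [abs_nonneg C]
  have hε1 : ε < 1 / 1000 := by nlinarith
  have hr : 0 < ε ^ 2 := by positivity
  have hr1 : ε ^ 2 ≤ 1 / 1000 := by nlinarith
  have hlip : ∀ z ∈ WW ε, ∀ z' ∈ WW ε,
      ‖DZ ε Z z - DZ ε Z z'‖ ≤ 1000 * (509 * K * ε) * ‖z - z'‖ := by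
    intro z hz z' hz'
    exact lip_rect (f := DZ ε Z) hr (by linarith)
      (fun w hw h1 h2 =>
        (hasFDerivAt_DZ S (WW_subset_Om hε ⟨hw, h1, h2⟩)).differentiableAt)
      (fun w hw h1 h2 => norm_fderiv_DZ_le S hε hK ⟨hw, h1, h2⟩) hz.1 hz'.1 hz.2.1 hz.2.2
      hz'.2.1 hz'.2.2
  have hneck : ∀ z, ‖z - aa‖ = ε ^ 2 →
      ‖DZ ε Z z + conj (DZ ε Z (sg (ε ^ 2) aa bb z))‖ ≤ 4 * ε ^ 4 := by
    intro z hz
    have hza : z - aa ≠ 0 := by rw [← norm_pos_iff, hz]; exact hr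
    set w := sg (ε ^ 2) aa bb z with hw
    have hwn : ‖w - bb‖ = ε ^ 2 := by
      rw [hw, norm_sg_sub, hz, pow_two (ε ^ 2), mul_div_assoc, div_self hr.ne', mul_one]
    have hwb : w - bb ≠ 0 := by rw [← norm_pos_iff, hwn]; exact hr
    have hzb : 1 / 2 ≤ ‖z - bb‖ := by
      have := one_le_add z
      linarith
    have hwa : 1 / 2 ≤ ‖w - aa‖ := by
      have := one_le_add w
      linarith
    have hglue := S.Zglue z (by rw [hz]; linarith) (by rw [hz]; linarith)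
    have hrc : (((ε ^ 2 : ℝ) : ℂ)) ≠ 0 := by exact_mod_cast hr.ne'
    have hw1 : w - bb = -(((ε ^ 2 : ℝ) : ℂ) ^ 2 / (z - aa)) := by rw [hw, sg_sub]
    have e1 : ((ε ^ 2 : ℝ) : ℂ) ^ 2 / (w - bb) = -(z - aa) := by
      rw [hw1]; field_simp
    have e2 : conj w = bb - ((ε ^ 2 : ℝ) : ℂ) ^ 2 / conj (z - aa) := by
      have : w = bb - ((ε ^ 2 : ℝ) : ℂ) ^ 2 / (z - aa) := by rw [hw, sg]
      rw [this, map_sub, map_div₀, map_pow, Complex.conj_ofReal, conj_bb]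
    have key : DZ ε Z z + conj (DZ ε Z w) =
        -(((ε ^ 2 : ℝ) : ℂ) ^ 2 / conj (z - bb)) - ((ε ^ 2 : ℝ) : ℂ) ^ 2 / (w - aa) := by
      have e3 : conj (DZ ε Z w) = conj (Z w) - conj w - ((ε ^ 2 : ℝ) : ℂ) ^ 2 / (w - aa)
          - ((ε ^ 2 : ℝ) : ℂ) ^ 2 / (w - bb) := by
        simp only [DZ, map_sub, map_div₀, map_pow, Complex.conj_ofReal, Complex.conj_conj]
      rw [e3, e1, e2, DZ, ← hw] at *
      have := aa_add_bb
      linear_combination hglue - this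
    rw [key]
    have n1 : ‖((ε ^ 2 : ℝ) : ℂ) ^ 2 / conj (z - bb)‖ ≤ 2 * ε ^ 4 := by
      rw [norm_div, norm_pow, Complex.norm_real, Real.norm_of_nonneg hr.le, Complex.norm_conj,
        div_le_iff₀ (by linarith)]
      nlinarith [pow_pos hε 4]
    have n2 : ‖((ε ^ 2 : ℝ) : ℂ) ^ 2 / (w - aa)‖ ≤ 2 * ε ^ 4 := by
      rw [norm_div, norm_pow, Complex.norm_real, Real.norm_of_nonneg hr.le,
        div_le_iff₀ (by linarith)]
      nlinarith [pow_pos hε 4]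
    refine (norm_sub_le _ _).trans ?_
    rw [norm_neg]
    linarith
  -- the base point
  set z₀ : ℂ := aa + ((ε ^ 2 : ℝ) : ℂ) with hz₀
  set w₀ : ℂ := bb - ((ε ^ 2 : ℝ) : ℂ) with hw₀
  have hz₀a : ‖z₀ - aa‖ = ε ^ 2 := by
    rw [hz₀, add_sub_cancel_left, Complex.norm_real, Real.norm_of_nonneg hr.le]
  have hz₀W : z₀ ∈ WW ε := by
    refine ⟨⟨?_, ?_, ?_⟩, hz₀a.ge, ?_⟩
    · rw [hz₀, Complex.add_re, aa_re, Complex.ofReal_re]; linarith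
    · rw [hz₀, Complex.add_re, aa_re, Complex.ofReal_re]; linarith
    · rw [hz₀, Complex.add_im, aa_im, Complex.ofReal_im]; norm_num
    · have := one_le_add z₀
      linarith
  have hsg : sg (ε ^ 2) aa bb z₀ = w₀ := by
    have hrc : (((ε ^ 2 : ℝ) : ℂ)) ≠ 0 := by exact_mod_cast hr.ne'
    rw [sg, hz₀, hw₀, add_sub_cancel_left]
    field_simp
  have hw₀W : w₀ ∈ WW ε := by
    have hwb : ‖w₀ - bb‖ = ε ^ 2 := by
      rw [hw₀, show bb - ((ε ^ 2 : ℝ) : ℂ) - bb = -((ε ^ 2 : ℝ) : ℂ) by ring, norm_neg,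
        Complex.norm_real, Real.norm_of_nonneg hr.le]
    refine ⟨⟨?_, ?_, ?_⟩, ?_, hwb.ge⟩
    · rw [hw₀, Complex.sub_re, bb_re, Complex.ofReal_re]; linarith
    · rw [hw₀, Complex.sub_re, bb_re, Complex.ofReal_re]; linarith
    · rw [hw₀, Complex.sub_im, bb_im, Complex.ofReal_im]; norm_num
    · have := one_le_add w₀
      linarith
  have hreal : conj (DZ ε Z z₀) = DZ ε Z z₀ := by
    have hcz : conj z₀ = z₀ := by rw [hz₀, map_add, conj_aa, Complex.conj_ofReal]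
    have h1 := S.Zsymm z₀ (WW_subset_Om hε hz₀W)
    rw [hcz] at h1
    simp only [DZ, map_sub, map_div₀, map_pow, Complex.conj_ofReal, Complex.conj_conj, hcz,
      ← h1, conj_aa, conj_bb]
  have hbase : ‖DZ ε Z z₀‖ ≤ 510000 * K * ε := by
    have h1 := hneck z₀ hz₀a
    rw [hsg] at h1
    have h2 := hlip z₀ hz₀W w₀ hw₀W
    have h3 : ‖z₀ - w₀‖ ≤ 11 / 10 := by
      have : z₀ - w₀ = ((1 + 2 * ε ^ 2 : ℝ) : ℂ) := by
        rw [hz₀, hw₀, aa, bb]; push_cast; ring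
      rw [this, Complex.norm_real, Real.norm_of_nonneg (by positivity)]
      linarith
    have h4 : (2 : ℂ) * DZ ε Z z₀ = (DZ ε Z z₀ + conj (DZ ε Z w₀)) +
        conj (DZ ε Z z₀ - DZ ε Z w₀) := by
      rw [map_sub, hreal]; ring
    have h5 : 2 * ‖DZ ε Z z₀‖ ≤ 4 * ε ^ 4 + 1000 * (509 * K * ε) * (11 / 10) := by
      have : ‖(2 : ℂ) * DZ ε Z z₀‖ = 2 * ‖DZ ε Z z₀‖ := by
        rw [norm_mul, Complex.norm_ofNat]
      rw [← this, h4]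
      refine (norm_add_le _ _).trans ?_
      rw [Complex.norm_conj]
      refine add_le_add h1 (h2.trans ?_)
      gcongr
    have h6 : ε ^ 4 ≤ K * ε := by
      have i1 : ε ^ 4 ≤ ε := by
        have : ε ^ 4 = ε ^ 3 * ε := by ring
        rw [this]
        exact mul_le_of_le_one_left hε.le (pow_le_one₀ hε.le (by linarith))
      exact i1.trans (le_mul_of_one_le_left hε.le hK1)
    have h7 : 0 ≤ K * ε := by positivity
    linarith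
  refine ⟨?_, ?_, ?_⟩
  · intro z hz z' hz'
    refine (hlip z hz z' hz').trans ?_
    have : 0 ≤ K * ε * ‖z - z'‖ := by positivity
    linarith
  · intro z hz
    have h1 := hlip z hz z₀ hz₀W
    have h2 : ‖z - z₀‖ ≤ 8 := by
      refine (norm_sub_le _ _).trans ?_
      linarith [norm_le_of_mem_Rect hz.1, norm_le_of_mem_Rect hz₀W.1]
    have h3 : ‖DZ ε Z z‖ ≤ ‖DZ ε Z z₀‖ + ‖DZ ε Z z - DZ ε Z z₀‖ := by
      have := norm_add_le (DZ ε Z z₀) (DZ ε Z z - DZ ε Z z₀)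
      rwa [add_sub_cancel] at this
    have h4 : 1000 * (509 * K * ε) * ‖z - z₀‖ ≤ 1000 * (509 * K * ε) * 8 := by gcongr
    have h5 : 0 ≤ K * ε := by positivity
    linarith
  · intro z hz
    refine (hneck z hz).trans ?_
    have : 0 < ε ^ 4 := by positivity
    have h2 : 1 * ε ^ 4 ≤ K * ε ^ 4 := by gcongr
    linarith

end EstZ

end Pool.Agent.MP_49383f_gt
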