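import Pool.Agent.MP_49383f_gt.CauchyBd

/-!
# MP_49383f_gt, module M10: existence of the spinor (Banach fixed point theorem)
-/

namespace Pool.Agent.MP_49383f_gt

open scoped ContDiff ComplexConjugate
open MeasureTheory Metric Set

namespace ExistsSol

/-- extension by zero of a continuous function on `K` -/
noncomputable def ext {K : Set ℂ} (f : C(K, ℂ × ℂ)) (z : ℂ) : ℂ × ℂ :=
  open Classical in if hz : z ∈ K then f ⟨z, hz⟩ else 0

lemma ext_apply {K : Set ℂ} (f : C(K, ℂ × ℂ)) {z : ℂ} (hz : z ∈ K) : ext f z = f ⟨z, hz⟩ :=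
  dif_pos hz

lemma ext_continuousOn {K : Set ℂ} (f : C(K, ℂ × ℂ)) : ContinuousOn (ext f) K := by
  rw [continuousOn_iff_continuous_domRestrict]
  have : K.domRestrict (ext f) = f := by
    funext z
    rw [Set.domRestrict_apply, ext_apply f z.2]
  rw [this]
  exact f.continuous

lemma norm_ext_sub_le {K : Set ℂ} [CompactSpace K] (f g : C(K, ℂ × ℂ)) (z : ℂ) :
    ‖ext f z - ext g z‖ ≤ dist f g := by
  by_cases hz : z ∈ K
  · rw [ext_apply f hz, ext_apply g hz, ← dist_eq_norm]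
    exact ContinuousMap.dist_apply_le_dist _
  · simp [ext, hz]

lemma norm_ext_le {K : Set ℂ} [CompactSpace K] (f : C(K, ℂ × ℂ)) (z : ℂ) :
    ‖ext f z‖ ≤ ‖f‖ := by
  by_cases hz : z ∈ K
  · rw [ext_apply f hz]
    exact f.norm_coe_le_norm _
  · simp [ext, hz]

lemma norm_mu_sub_le {ε M : ℝ} (hε : 0 ≤ ε) {x y : ℂ × ℂ} (hx : ‖x‖ ≤ M) (hy : ‖y‖ ≤ M) :
    ‖mu ε x - mu ε y‖ ≤ 6 * M ^ 2 * ε * ‖x - y‖ := by
  have hx1 : ‖x.1‖ ≤ M := (norm_fst_le x).trans hx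
  have hx2 : ‖x.2‖ ≤ M := (norm_snd_le x).trans hx
  have hy1 : ‖y.1‖ ≤ M := (norm_fst_le y).trans hy
  have hy2 : ‖y.2‖ ≤ M := (norm_snd_le y).trans hy
  have hM : 0 ≤ M := (norm_nonneg _).trans hx
  have d1 : ‖x.1 - y.1‖ ≤ ‖x - y‖ := norm_fst_le (x - y)
  have d2 : ‖x.2 - y.2‖ ≤ ‖x - y‖ := norm_snd_le (x - y)
  have hd : 0 ≤ ‖x - y‖ := norm_nonneg _
  have e1 : |‖x.1‖ - ‖y.1‖| ≤ ‖x - y‖ := (abs_norm_sub_norm_le _ _).trans d1
  have e2 : |‖x.2‖ - ‖y.2‖| ≤ ‖x - y‖ := (abs_norm_sub_norm_le _ _).trans d2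
  have hs : |(‖x.1‖ ^ 2 + ‖x.2‖ ^ 2) - (‖y.1‖ ^ 2 + ‖y.2‖ ^ 2)| ≤ 4 * M * ‖x - y‖ := by
    have f1 : |‖x.1‖ ^ 2 - ‖y.1‖ ^ 2| ≤ 2 * M * ‖x - y‖ := by
      rw [sq_sub_sq, abs_mul, abs_of_nonneg (by positivity : 0 ≤ ‖x.1‖ + ‖y.1‖)]
      exact mul_le_mul (by linarith) e1 (abs_nonneg _) (by positivity)
    have f2 : |‖x.2‖ ^ 2 - ‖y.2‖ ^ 2| ≤ 2 * M * ‖x - y‖ := by
      rw [sq_sub_sq, abs_mul, abs_of_nonneg (by positivity : 0 ≤ ‖x.2‖ + ‖y.2‖)]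
      exact mul_le_mul (by linarith) e2 (abs_nonneg _) (by positivity)
    calc _ = |(‖x.1‖ ^ 2 - ‖y.1‖ ^ 2) + (‖x.2‖ ^ 2 - ‖y.2‖ ^ 2)| := by ring_nf
      _ ≤ _ := (abs_add_le _ _).trans (by linarith)
  have hsy : ‖y.1‖ ^ 2 + ‖y.2‖ ^ 2 ≤ 2 * M ^ 2 := by
    nlinarith [norm_nonneg y.1, norm_nonneg y.2]
  have key : ∀ u v : ℂ, ‖u‖ ≤ M → ‖u - v‖ ≤ ‖x - y‖ →
      ‖((ε * (‖x.1‖ ^ 2 + ‖x.2‖ ^ 2) : ℝ) : ℂ) * conj u -
        ((ε * (‖y.1‖ ^ 2 + ‖y.2‖ ^ 2) : ℝ) : ℂ) * conj v‖ ≤ 6 * M ^ 2 * ε * ‖x - y‖ := by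
    intro u v hu huv
    have e : ((ε * (‖x.1‖ ^ 2 + ‖x.2‖ ^ 2) : ℝ) : ℂ) * conj u -
        ((ε * (‖y.1‖ ^ 2 + ‖y.2‖ ^ 2) : ℝ) : ℂ) * conj v =
        ((ε * ((‖x.1‖ ^ 2 + ‖x.2‖ ^ 2) - (‖y.1‖ ^ 2 + ‖y.2‖ ^ 2)) : ℝ) : ℂ) * conj u +
        ((ε * (‖y.1‖ ^ 2 + ‖y.2‖ ^ 2) : ℝ) : ℂ) * conj (u - v) := by
      rw [map_sub]; push_cast; ring
    rw [e]
    refine (norm_add_le _ _).trans ?_
    rw [norm_mul, norm_mul, RCLike.norm_conj, RCLike.norm_conj, Complex.norm_real,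
      Complex.norm_real, Real.norm_eq_abs, Real.norm_eq_abs, abs_mul, abs_of_nonneg hε,
      abs_of_nonneg (by positivity : 0 ≤ ε * (‖y.1‖ ^ 2 + ‖y.2‖ ^ 2))]
    have g1 : ε * |(‖x.1‖ ^ 2 + ‖x.2‖ ^ 2) - (‖y.1‖ ^ 2 + ‖y.2‖ ^ 2)| * ‖u‖ ≤
        ε * (4 * M * ‖x - y‖) * M :=
      mul_le_mul (mul_le_mul_of_nonneg_left hs hε) hu (norm_nonneg _) (by positivity)
    have g2 : ε * (‖y.1‖ ^ 2 + ‖y.2‖ ^ 2) * ‖u - v‖ ≤ ε * (2 * M ^ 2) * ‖x - y‖ :=
      mul_le_mul (mul_le_mul_of_nonneg_left hsy hε) huv (norm_nonneg _) (by positivity)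
    nlinarith
  rw [Prod.norm_def]
  refine max_le ?_ ?_
  · exact key x.2 y.2 hx2 d2
  · have : (mu ε x - mu ε y).2 = -(((ε * (‖x.1‖ ^ 2 + ‖x.2‖ ^ 2) : ℝ) : ℂ) * conj x.1 -
        ((ε * (‖y.1‖ ^ 2 + ‖y.2‖ ^ 2) : ℝ) : ℂ) * conj y.1) := by
      simp only [mu, Prod.mk_sub_mk]; ring
    rw [this, norm_neg]
    exact key x.1 y.1 hx1 d1

lemma mu_zero (ε : ℝ) : mu ε 0 = 0 := by
  simp [mu]

lemma JJ_zero : JJ 0 = 0 := by simp [JJ]

lemma norm_mu_le {ε M : ℝ} (hε : 0 ≤ ε) {x : ℂ × ℂ} (hx : ‖x‖ ≤ M) :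
    ‖mu ε x‖ ≤ 6 * M ^ 3 * ε := by
  have hM : 0 ≤ M := (norm_nonneg _).trans hx
  have h := norm_mu_sub_le hε hx (y := 0) (by simpa using hM)
  rw [mu_zero, sub_zero, sub_zero] at h
  refine h.trans ?_
  calc 6 * M ^ 2 * ε * ‖x‖ ≤ 6 * M ^ 2 * ε * M := mul_le_mul_of_nonneg_left hx (by positivity)
    _ = _ := by ring

lemma norm_PHI_sub_le {r : ℝ} (hr : 0 < r) {a b : ℂ} {z : ℂ} (hz : z ∈ GG r a b)
    {h p q h' p' q' : ℂ → ℂ × ℂ} {d : ℝ} (h1 : ‖h z - h' z‖ ≤ d)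
    (h2 : ‖p (sg r a b z) - p' (sg r a b z)‖ ≤ d) (h3 : ‖q (sg r b a z) - q' (sg r b a z)‖ ≤ d) :
    ‖PHI r a b h p q z - PHI r a b h' p' q' z‖ ≤ 3 * d := by
  have ha : 0 < ‖z - a‖ := hr.trans_le hz.2.1
  have hb : 0 < ‖z - b‖ := hr.trans_le hz.2.2
  have c1 : ‖(r : ℂ) / (z - a)‖ ≤ 1 := by
    rw [norm_div, Complex.norm_real, Real.norm_of_nonneg hr.le]
    exact (div_le_one ha).2 hz.2.1
  have c2 : ‖(r : ℂ) / (z - b)‖ ≤ 1 := by
    rw [norm_div, Complex.norm_real, Real.norm_of_nonneg hr.le]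
    exact (div_le_one hb).2 hz.2.2
  have e : PHI r a b h p q z - PHI r a b h' p' q' z = (h z - h' z)
      + ((r : ℂ) / (z - a)) • JJ (p (sg r a b z) - p' (sg r a b z))
      + ((r : ℂ) / (z - b)) • JJ (q (sg r b a z) - q' (sg r b a z)) := by
    rw [PHI, PHI, JJ_sub, JJ_sub, smul_sub, smul_sub]
    abel
  rw [e]
  have n1 : ‖((r : ℂ) / (z - a)) • JJ (p (sg r a b z) - p' (sg r a b z))‖ ≤ d := by
    rw [norm_smul, norm_JJ]
    calc _ ≤ 1 * d := mul_le_mul c1 h2 (norm_nonneg _) zero_le_one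
      _ = d := one_mul d
  have n2 : ‖((r : ℂ) / (z - b)) • JJ (q (sg r b a z) - q' (sg r b a z))‖ ≤ d := by
    rw [norm_smul, norm_JJ]
    calc _ ≤ 1 * d := mul_le_mul c2 h3 (norm_nonneg _) zero_le_one
      _ = d := one_mul d
  refine (norm_add₃_le).trans (by linarith)

lemma norm_PHI_le {r : ℝ} (hr : 0 < r) {a b : ℂ} {z : ℂ} (hz : z ∈ GG r a b)
    {h p q : ℂ → ℂ × ℂ} {d : ℝ} (h1 : ‖h z‖ ≤ d)
    (h2 : ‖p (sg r a b z)‖ ≤ d) (h3 : ‖q (sg r b a z)‖ ≤ d) :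
    ‖PHI r a b h p q z‖ ≤ 3 * d := by
  have := norm_PHI_sub_le hr hz (h := h) (p := p) (q := q) (h' := fun _ => 0) (p' := fun _ => 0)
    (q' := fun _ => 0) (d := d) (by simpa using h1) (by simpa using h2) (by simpa using h3)
  simpa [PHI, JJ_zero] using this

lemma sg_mem {r : ℝ} (hr : 0 < r) (hr' : r ≤ 1 / 4) {a b z : ℂ} (hz : r ≤ ‖z - a‖) :
    sg r a b z ∈ closedBall b (1 / 4) := by
  rw [mem_closedBall, dist_eq_norm, norm_sg_sub]
  have ha : 0 < ‖z - a‖ := hr.trans_le hz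
  rw [div_le_iff₀ ha]
  nlinarith

lemma sg_continuousOn {r : ℝ} (hr : 0 < r) (a b : ℂ) :
    ContinuousOn (sg r a b) {z | r ≤ ‖z - a‖} := by
  intro z hz
  have : z ≠ a := by
    rintro rfl
    simp at hz
    linarith
  exact (hasDerivAt_sg r a b this).continuousAt.continuousWithinAt

lemma div_continuousOn {r : ℝ} (hr : 0 < r) (a : ℂ) :
    ContinuousOn (fun z : ℂ => (r : ℂ) / (z - a)) {z | r ≤ ‖z - a‖} := by
  refine continuousOn_const.div (by fun_prop) ?_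
  intro z hz h
  rw [mem_ofPred_eq, h, norm_zero] at hz
  linarith

/-- the Banach space of the fixed point argument -/
abbrev XX (a b : ℂ) := C(closedBall (0 : ℂ) 4, ℂ × ℂ) × C(closedBall b (1 / 4), ℂ × ℂ) ×
  C(closedBall a (1 / 4), ℂ × ℂ)

/-- the density -/
noncomputable def nu (ε : ℝ) (a b : ℂ) (x : XX a b) : ℂ → ℂ × ℂ :=
  (GG (ε ^ 2) a b).indicator
    (fun ζ => mu ε (PHI (ε ^ 2) a b (ext x.1) (ext x.2.1) (ext x.2.2) ζ))

lemma PHI_continuousOn {r : ℝ} (hr : 0 < r) (hr' : r ≤ 1 / 4) (a b : ℂ) (x : XX a b) :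
    ContinuousOn (PHI r a b (ext x.1) (ext x.2.1) (ext x.2.2)) (GG r a b) := by
  have h1 : ContinuousOn (ext x.1) (GG r a b) :=
    (ext_continuousOn x.1).mono (fun z hz => by simpa using hz.1)
  have h2 : ContinuousOn (fun z => ext x.2.1 (sg r a b z)) (GG r a b) :=
    (ext_continuousOn x.2.1).comp ((sg_continuousOn hr a b).mono fun z hz => hz.2.1)
      (fun z hz => sg_mem hr hr' hz.2.1)
  have h3 : ContinuousOn (fun z => ext x.2.2 (sg r b a z)) (GG r a b) :=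
    (ext_continuousOn x.2.2).comp ((sg_continuousOn hr b a).mono fun z hz => hz.2.2)
      (fun z hz => sg_mem hr hr' hz.2.2)
  have h4 : ContinuousOn (fun z : ℂ => (r : ℂ) / (z - a)) (GG r a b) :=
    (div_continuousOn hr a).mono fun z hz => hz.2.1
  have h5 : ContinuousOn (fun z : ℂ => (r : ℂ) / (z - b)) (GG r a b) :=
    (div_continuousOn hr b).mono fun z hz => hz.2.2
  exact (h1.add (h4.smul (continuous_JJ.comp_continuousOn h2))).add
    (h5.smul (continuous_JJ.comp_continuousOn h3))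

lemma norm_fst (a b : ℂ) (x : XX a b) : ‖x.1‖ ≤ ‖x‖ := norm_fst_le x
lemma norm_snd1 (a b : ℂ) (x : XX a b) : ‖x.2.1‖ ≤ ‖x‖ := (norm_fst_le x.2).trans (norm_snd_le x)
lemma norm_snd2 (a b : ℂ) (x : XX a b) : ‖x.2.2‖ ≤ ‖x‖ := (norm_snd_le x.2).trans (norm_snd_le x)
lemma dist_fst (a b : ℂ) (x y : XX a b) : dist x.1 y.1 ≤ dist x y := by
  rw [Prod.dist_eq (x := x)]; exact le_max_left _ _
lemma dist_snd1 (a b : ℂ) (x y : XX a b) : dist x.2.1 y.2.1 ≤ dist x y := by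
  rw [Prod.dist_eq (x := x), Prod.dist_eq (x := x.2)]
  exact (le_max_left _ _).trans (le_max_right _ _)
lemma dist_snd2 (a b : ℂ) (x y : XX a b) : dist x.2.2 y.2.2 ≤ dist x y := by
  rw [Prod.dist_eq (x := x), Prod.dist_eq (x := x.2)]
  exact (le_max_right _ _).trans (le_max_right _ _)

lemma norm_PHI_x {ε : ℝ} (hε : 0 < ε) (a b : ℂ) (x : XX a b) {z : ℂ}
    (hz : z ∈ GG (ε ^ 2) a b) :
    ‖PHI (ε ^ 2) a b (ext x.1) (ext x.2.1) (ext x.2.2) z‖ ≤ 3 * ‖x‖ :=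
  norm_PHI_le (by positivity) hz ((norm_ext_le _ _).trans (norm_fst a b x))
    ((norm_ext_le _ _).trans (norm_snd1 a b x)) ((norm_ext_le _ _).trans (norm_snd2 a b x))

lemma nu_meas {ε : ℝ} (hε : 0 < ε) (hε' : ε ≤ 1 / 10) (a b : ℂ) (x : XX a b) :
    AEStronglyMeasurable (nu ε a b x) := by
  have hG : MeasurableSet (GG (ε ^ 2) a b) := (isClosed_GG _ _ _).measurableSet
  rw [nu, aestronglyMeasurable_indicator_iff hG]
  refine ContinuousOn.aestronglyMeasurable ?_ hG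
  exact (continuous_mu ε).comp_continuousOn
    (PHI_continuousOn (by positivity) (by nlinarith) a b x)

lemma nu_bound {ε : ℝ} (hε : 0 < ε) (a b : ℂ) (x : XX a b) (ζ : ℂ) :
    ‖nu ε a b x ζ‖ ≤ 6 * (3 * ‖x‖) ^ 3 * ε := by
  by_cases hζ : ζ ∈ GG (ε ^ 2) a b
  · rw [nu, indicator_of_mem hζ]
    exact norm_mu_le hε.le (norm_PHI_x hε a b x hζ)
  · rw [nu, indicator_of_notMem hζ, norm_zero]
    positivity

lemma nu_support {ε : ℝ} (a b : ℂ) (x : XX a b) (ζ : ℂ) (hζ : ζ ∉ closedBall (0 : ℂ) 4) :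
    nu ε a b x ζ = 0 :=
  indicator_of_notMem (fun h => hζ (by simpa using h.1)) _

lemma nu_sub {ε : ℝ} (hε : 0 < ε) (a b : ℂ) (x y : XX a b) {M : ℝ} (hx : ‖x‖ ≤ M)
    (hy : ‖y‖ ≤ M) (ζ : ℂ) :
    ‖nu ε a b x ζ - nu ε a b y ζ‖ ≤ 6 * (3 * M) ^ 2 * ε * (3 * dist x y) := by
  have hM : 0 ≤ M := (norm_nonneg _).trans hx
  by_cases hζ : ζ ∈ GG (ε ^ 2) a b
  · rw [nu, nu, indicator_of_mem hζ, indicator_of_mem hζ]
    refine (norm_mu_sub_le (M := 3 * M) hε.le ((norm_PHI_x hε a b x hζ).trans (by linarith))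
      ((norm_PHI_x hε a b y hζ).trans (by linarith))).trans ?_
    refine mul_le_mul_of_nonneg_left ?_ (by positivity)
    exact norm_PHI_sub_le (by positivity) hζ
      ((norm_ext_sub_le _ _ _).trans (dist_fst a b x y))
      ((norm_ext_sub_le _ _ _).trans (dist_snd1 a b x y))
      ((norm_ext_sub_le _ _ _).trans (dist_snd2 a b x y))
  · rw [nu, nu, indicator_of_notMem hζ, indicator_of_notMem hζ, sub_zero, norm_zero]
    positivity

/-- the new `h` -/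
noncomputable def HH (ε : ℝ) (E : ℂ → ℂ × ℂ) (a b : ℂ) (x : XX a b) (z : ℂ) : ℂ × ℂ :=
  E z + cauchyT (nu ε a b x) z

lemma HH_continuous {ε : ℝ} (hε : 0 < ε) (hε' : ε ≤ 1 / 10) {E : ℂ → ℂ × ℂ} (hE : Continuous E)
    (a b : ℂ) (x : XX a b) : Continuous (HH ε E a b x) :=
  hE.add (cauchyT_continuous (by norm_num : (0 : ℝ) ≤ 4) (nu_meas hε hε' a b x)
    (nu_bound hε a b x) (nu_support a b x))

lemma norm_cauchyT_nu {ε : ℝ} (hε : 0 < ε) (hε' : ε ≤ 1 / 10) (a b : ℂ) (x : XX a b) {M : ℝ}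
    (hx : ‖x‖ ≤ M) (z : ℂ) :
    ‖cauchyT (nu ε a b x) z‖ ≤ 18 * (6 * (3 * M) ^ 3 * ε) := by
  refine (norm_cauchyT_le (by norm_num : (0 : ℝ) ≤ 4) (nu_meas hε hε' a b x)
    (nu_bound hε a b x) (nu_support a b x) z).trans ?_
  have : (3 * ‖x‖) ^ 3 ≤ (3 * M) ^ 3 := by gcongr
  nlinarith [mul_le_mul_of_nonneg_right this hε.le]

lemma norm_HH_sub {ε : ℝ} (hε : 0 < ε) (hε' : ε ≤ 1 / 10) (E : ℂ → ℂ × ℂ) (a b : ℂ)
    (x y : XX a b) {M : ℝ} (hx : ‖x‖ ≤ M) (hy : ‖y‖ ≤ M) (z : ℂ) :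
    ‖HH ε E a b x z - HH ε E a b y z‖ ≤ 18 * (6 * (3 * M) ^ 2 * ε * (3 * dist x y)) := by
  rw [HH, HH, add_sub_add_left_eq_sub,
    ← cauchyT_sub (cauchy_integrable (nu_meas hε hε' a b x) (nu_bound hε a b x)
      (nu_support a b x) z) (cauchy_integrable (nu_meas hε hε' a b y) (nu_bound hε a b y)
      (nu_support a b y) z)]
  refine (norm_cauchyT_le (z₀ := 0) (R := 4) (by norm_num)
    ((nu_meas hε hε' a b x).sub (nu_meas hε hε' a b y)) (nu_sub hε a b x y hx hy) ?_ z).trans ?_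
  · intro ζ hζ
    rw [Pi.sub_apply, nu_support a b x ζ hζ, nu_support a b y ζ hζ, sub_zero]
  · norm_num

lemma exists_step {ε : ℝ} (hε : 0 < ε) (hε' : ε ≤ 1 / 10) {E : ℂ → ℂ × ℂ} (hE : Continuous E)
    {a b : ℂ} (hab : ‖a - b‖ = 1) (x : XX a b) : ∃ y : XX a b,
      (∀ z : closedBall (0 : ℂ) 4, y.1 z = HH ε E a b x z) ∧
      (∀ w : closedBall b (1 / 4), y.2.1 w = HH ε E a b x w +
        (((ε ^ 2 : ℝ) : ℂ) / ((w : ℂ) - a)) • JJ (ext x.2.1 (sg (ε ^ 2) a b w))) ∧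
      (∀ w : closedBall a (1 / 4), y.2.2 w = HH ε E a b x w +
        (((ε ^ 2 : ℝ) : ℂ) / ((w : ℂ) - b)) • JJ (ext x.2.2 (sg (ε ^ 2) b a w))) := by
  have hr : 0 < ε ^ 2 := by positivity
  have hr' : ε ^ 2 ≤ 1 / 4 := by nlinarith
  have hc := HH_continuous hε hε' hE a b x
  have aux : ∀ a b : ℂ, ‖a - b‖ = 1 → ∀ f : C(closedBall b (1 / 4), ℂ × ℂ),
      Continuous fun w : closedBall b (1 / 4) =>
        (((ε ^ 2 : ℝ) : ℂ) / ((w : ℂ) - a)) • JJ (ext f (sg (ε ^ 2) a b w)) := by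
    intro a b hab f
    have hsub : closedBall b (1 / 4) ⊆ {z | ε ^ 2 ≤ ‖z - a‖} := by
      intro w hw
      rw [mem_closedBall, dist_eq_norm] at hw
      have : ‖a - b‖ ≤ ‖w - a‖ + ‖w - b‖ := by
        calc ‖a - b‖ = ‖(w - b) - (w - a)‖ := by congr 1; ring
          _ ≤ _ := by rw [add_comm]; exact norm_sub_le _ _
      rw [mem_ofPred_eq]
      linarith
    have h1 : ContinuousOn (fun z => ext f (sg (ε ^ 2) a b z)) (closedBall b (1 / 4)) :=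
      (ext_continuousOn f).comp ((sg_continuousOn hr a b).mono hsub)
        (fun z hz => sg_mem hr hr' (hsub hz))
    have h2 : ContinuousOn (fun z : ℂ => (((ε ^ 2 : ℝ) : ℂ) / (z - a)) •
        JJ (ext f (sg (ε ^ 2) a b z))) (closedBall b (1 / 4)) :=
      ((div_continuousOn hr a).mono hsub).smul (continuous_JJ.comp_continuousOn h1)
    exact h2.domRestrict
  exact ⟨(⟨fun z => HH ε E a b x z, by fun_prop⟩,
    ⟨_, (hc.comp continuous_subtype_val).add (aux a b hab x.2.1)⟩,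
    ⟨_, (hc.comp continuous_subtype_val).add (aux b a (by rwa [norm_sub_rev]) x.2.2)⟩),
    fun z => rfl, fun w => rfl, fun w => rfl⟩

end ExistsSol

open ExistsSol

theorem exists_sol_gen {ε : ℝ} (hε : 0 < ε) (hε' : ε < 1 / 1000000) {E : ℂ → ℂ × ℂ}
    (hE : Continuous E) (hE1 : ∀ z ∈ closedBall (0 : ℂ) 4, ‖E z‖ ≤ 1)
    {a b : ℂ} (hab : ‖a - b‖ = 1) (ha : ‖a‖ ≤ 2) (hb : ‖b‖ ≤ 2) :
    ∃ h p q, Sol ε E a b h p q := by
  have hr : 0 < ε ^ 2 := by positivity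
  have hr4 : ε ^ 2 ≤ 1 / 1000 := by nlinarith
  have hr' : ε ^ 2 ≤ 1 / 4 := by linarith
  have hε10 : ε ≤ 1 / 10 := by linarith
  choose F hF1 hF2 hF3 using exists_step hε hε10 hE hab
  have hba : ‖b - a‖ = 1 := by rwa [norm_sub_rev]
  have hKb : closedBall b (1 / 4) ⊆ closedBall (0 : ℂ) 4 := by
    intro w hw
    rw [mem_closedBall, dist_eq_norm] at hw
    rw [mem_closedBall, dist_zero_right]
    calc ‖w‖ = ‖(w - b) + b‖ := by congr 1; ring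
      _ ≤ ‖w - b‖ + ‖b‖ := norm_add_le _ _
      _ ≤ 4 := by linarith
  have hKa : closedBall a (1 / 4) ⊆ closedBall (0 : ℂ) 4 := by
    intro w hw
    rw [mem_closedBall, dist_eq_norm] at hw
    rw [mem_closedBall, dist_zero_right]
    calc ‖w‖ = ‖(w - a) + a‖ := by congr 1; ring
      _ ≤ ‖w - a‖ + ‖a‖ := norm_add_le _ _
      _ ≤ 4 := by linarith
  -- the coefficient
  have coef : ∀ a b : ℂ, ‖a - b‖ = 1 → ∀ w ∈ closedBall b (1 / 4),
      ‖((ε ^ 2 : ℝ) : ℂ) / (w - a)‖ ≤ 1 / 10 := by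
    intro a b hab w hw
    rw [mem_closedBall, dist_eq_norm] at hw
    have h1 : ‖a - b‖ ≤ ‖w - a‖ + ‖w - b‖ := by
      calc ‖a - b‖ = ‖(w - b) - (w - a)‖ := by congr 1; ring
        _ ≤ _ := by rw [add_comm]; exact norm_sub_le _ _
    have h2 : 3 / 4 ≤ ‖w - a‖ := by linarith
    rw [norm_div, Complex.norm_real, Real.norm_of_nonneg hr.le, div_le_iff₀ (by linarith)]
    linarith
  -- sup norm of the new h
  have hH : ∀ x : XX a b, ‖x‖ ≤ 3 → ∀ z ∈ closedBall (0 : ℂ) 4, ‖HH ε E a b x z‖ ≤ 2 := by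
    intro x hx z hz
    refine (norm_add_le _ _).trans ?_
    have h1 := hE1 z hz
    have h2 := norm_cauchyT_nu hε hε10 a b x hx z
    linarith
  have hHs : ∀ x y : XX a b, ‖x‖ ≤ 3 → ‖y‖ ≤ 3 → ∀ z,
      ‖HH ε E a b x z - HH ε E a b y z‖ ≤ 1 / 4 * dist x y := by
    intro x y hx hy z
    refine (norm_HH_sub hε hε10 E a b x y hx hy z).trans ?_
    have : (0 : ℝ) ≤ dist x y := dist_nonneg
    nlinarith
  have hmaps : MapsTo F (closedBall 0 3) (closedBall 0 3) := by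
    intro x hx
    rw [mem_closedBall_zero_iff] at hx ⊢
    rw [Prod.norm_def, Prod.norm_def]
    refine max_le ?_ (max_le ?_ ?_)
    · rw [ContinuousMap.norm_le _ (by norm_num)]
      intro z
      rw [hF1]
      linarith [hH x hx z z.2]
    · rw [ContinuousMap.norm_le _ (by norm_num)]
      intro w
      rw [hF2]
      refine (norm_add_le _ _).trans ?_
      have h1 := hH x hx w (hKb w.2)
      have h2 := coef a b hab w w.2
      have h3 := (norm_ext_le x.2.1 (sg (ε ^ 2) a b w)).trans ((norm_snd1 a b x).trans hx)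
      rw [norm_smul, norm_JJ]
      have h4 := mul_le_mul h2 h3 (norm_nonneg _) (by norm_num)
      linarith
    · rw [ContinuousMap.norm_le _ (by norm_num)]
      intro w
      rw [hF3]
      refine (norm_add_le _ _).trans ?_
      have h1 := hH x hx w (hKa w.2)
      have h2 := coef b a hba w w.2
      have h3 := (norm_ext_le x.2.2 (sg (ε ^ 2) b a w)).trans ((norm_snd2 a b x).trans hx)
      rw [norm_smul, norm_JJ]
      have h4 := mul_le_mul h2 h3 (norm_nonneg _) (by norm_num)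
      linarith
  have hlip : ∀ x ∈ closedBall (0 : XX a b) 3, ∀ y ∈ closedBall (0 : XX a b) 3,
      dist (F x) (F y) ≤ 1 / 2 * dist x y := by
    intro x hx y hy
    rw [mem_closedBall_zero_iff] at hx hy
    have hd : (0 : ℝ) ≤ dist x y := dist_nonneg
    rw [Prod.dist_eq (x := F x), Prod.dist_eq (x := (F x).2)]
    refine max_le ?_ (max_le ?_ ?_)
    · rw [ContinuousMap.dist_le (by positivity)]
      intro z
      rw [hF1, hF1, dist_eq_norm]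
      linarith [hHs x y hx hy z]
    · rw [ContinuousMap.dist_le (by positivity)]
      intro w
      rw [hF2, hF2, dist_eq_norm, add_sub_add_comm, ← smul_sub, ← JJ_sub]
      refine (norm_add_le _ _).trans ?_
      have h1 := hHs x y hx hy w
      have h2 := coef a b hab w w.2
      have h3 := (norm_ext_sub_le x.2.1 y.2.1 (sg (ε ^ 2) a b w)).trans (dist_snd1 a b x y)
      rw [norm_smul, norm_JJ]
      have h4 := mul_le_mul h2 h3 (norm_nonneg _) (by norm_num)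
      linarith
    · rw [ContinuousMap.dist_le (by positivity)]
      intro w
      rw [hF3, hF3, dist_eq_norm, add_sub_add_comm, ← smul_sub, ← JJ_sub]
      refine (norm_add_le _ _).trans ?_
      have h1 := hHs x y hx hy w
      have h2 := coef b a hba w w.2
      have h3 := (norm_ext_sub_le x.2.2 y.2.2 (sg (ε ^ 2) b a w)).trans (dist_snd2 a b x y)
      rw [norm_smul, norm_JJ]
      have h4 := mul_le_mul h2 h3 (norm_nonneg _) (by norm_num)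
      linarith
  have hcontr : ContractingWith (1 / 2) (hmaps.restrict F (closedBall 0 3) (closedBall 0 3)) := by
    refine ⟨by norm_num, LipschitzWith.of_dist_le_mul fun x y => ?_⟩
    have := hlip x x.2 y y.2
    show dist (F x) (F y) ≤ ((1 / 2 : NNReal) : ℝ) * dist (x : XX a b) y
    simpa using this
  obtain ⟨x, hx, hfix, -⟩ := ContractingWith.exists_fixedPoint'
    (isClosed_closedBall.isComplete) hmaps hcontr
    (x := (0 : XX a b)) (mem_closedBall_self (by norm_num)) (edist_ne_top _ _)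
  have hx3 : ‖x‖ ≤ 3 := by rwa [mem_closedBall_zero_iff] at hx
  have hfx : F x = x := hfix
  have e1 : ∀ z ∈ closedBall (0 : ℂ) 4, ext x.1 z = HH ε E a b x z := by
    intro z hz
    rw [ext_apply x.1 hz, ← hF1 x ⟨z, hz⟩, hfx]
  have e2 : ∀ w ∈ closedBall b (1 / 4), ext x.2.1 w = HH ε E a b x w +
        (((ε ^ 2 : ℝ) : ℂ) / (w - a)) • JJ (ext x.2.1 (sg (ε ^ 2) a b w)) := by
    intro w hw
    have := hF2 x ⟨w, hw⟩
    rw [hfx] at this
    rw [ext_apply x.2.1 hw, this]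
  have e3 : ∀ w ∈ closedBall a (1 / 4), ext x.2.2 w = HH ε E a b x w +
        (((ε ^ 2 : ℝ) : ℂ) / (w - b)) • JJ (ext x.2.2 (sg (ε ^ 2) b a w)) := by
    intro w hw
    have := hF3 x ⟨w, hw⟩
    rw [hfx] at this
    rw [ext_apply x.2.2 hw, this]
  have ePHI : ∀ z ∈ GG (ε ^ 2) a b, PHI (ε ^ 2) a b (HH ε E a b x) (ext x.2.1) (ext x.2.2) z =
      PHI (ε ^ 2) a b (ext x.1) (ext x.2.1) (ext x.2.2) z := by
    intro z hz
    rw [PHI, PHI, e1 z (by simpa using hz.1)]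
  refine ⟨HH ε E a b x, ext x.2.1, ext x.2.2, HH_continuous hε hε10 hE a b x,
    ext_continuousOn _, ext_continuousOn _, ?_, e2, e3, ?_⟩
  · intro z
    have : (GG (ε ^ 2) a b).indicator (fun ζ => mu ε (PHI (ε ^ 2) a b (HH ε E a b x)
        (ext x.2.1) (ext x.2.2) ζ)) = nu ε a b x := by
      rw [nu]
      exact indicator_congr fun ζ hζ => by rw [ePHI ζ hζ]
    rw [this, HH]
  · intro z hz
    rw [ePHI z hz]
    refine (norm_PHI_x hε a b x hz).trans ?_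
    linarith

theorem exists_sol : ∃ ε₀ > 0, ∀ ε : ℝ, 0 < ε → ε < ε₀ → ∀ c ∈ Icc (-1 : ℝ) 1,
    ∃ h p q, Sol ε (EE ε c) aa bb h p q := by
  refine ⟨1 / 1000000, by norm_num, fun ε hε hε' c hc => ?_⟩
  refine exists_sol_gen hε hε' ?_ ?_ norm_aa_sub_bb (by rw [norm_aa]; norm_num)
    (by rw [norm_bb]; norm_num)
  · unfold EE; fun_prop
  · intro z hz
    rw [mem_closedBall, dist_zero_right] at hz
    rw [EE, Prod.norm_def]
    refine max_le (by simp) ?_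
    have h1 : ‖(2 + (c : ℂ)) * z - z ^ 2 / 2‖ ≤ 3 * 4 + 4 ^ 2 / 2 := by
      refine (norm_sub_le _ _).trans ?_
      have hc' : ‖(2 + (c : ℂ))‖ ≤ 3 := by
        have : (2 + (c : ℂ)) = ((2 + c : ℝ) : ℂ) := by push_cast; ring
        rw [this, Complex.norm_real, Real.norm_eq_abs, abs_le]
        constructor <;> linarith [hc.1, hc.2]
      have h2 : ‖(2 + (c : ℂ)) * z‖ ≤ 3 * 4 := by
        rw [norm_mul]
        exact mul_le_mul hc' hz (norm_nonneg _) (by norm_num)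
      have h3 : ‖z ^ 2 / 2‖ ≤ 4 ^ 2 / 2 := by
        rw [norm_div, norm_pow, Complex.norm_ofNat]
        gcongr
      linarith
    show ‖(ε : ℂ) * ((2 + c) * z - z ^ 2 / 2)‖ ≤ 1
    rw [norm_mul, Complex.norm_real, Real.norm_of_nonneg hε.le]
    calc _ ≤ ε * (3 * 4 + 4 ^ 2 / 2) := mul_le_mul_of_nonneg_left h1 hε.le
      _ ≤ 1 := by linarith

end Pool.Agent.MP_49383f_gt
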