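import Pool.Agent.MP_49383f_gt.Torsion
import Pool.Agent.MP_49383f_gt.KFacts

/-!
# MP_49383f_gt, module G14: the parameter domain of the lower sheet is connected
-/

namespace Pool.Agent.MP_49383f_gt

open scoped ContDiff ComplexConjugate
open MeasureTheory Metric Set

namespace KConn

/-- the superlevel set -/
def W (c : ℝ) : Set ℂ := {z : ℂ | 0 ≤ z.re ∧ z.re ≤ 3 ∧ c ≤ TT z}

theorem W_convex {c : ℝ} (hc : 0 < c) : Convex ℝ (W c) := (TT_convex hc).1

theorem re_le_convex (m : ℝ) : Convex ℝ {z : ℂ | z.re ≤ m} :=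
  convex_halfSpace_le Complex.reCLM.isBoundedLinearMap.toIsLinearMap _

theorem re_ge_convex (m : ℝ) : Convex ℝ {z : ℂ | m ≤ z.re} :=
  convex_halfSpace_ge Complex.reCLM.isBoundedLinearMap.toIsLinearMap _

theorem im_le_convex (m : ℝ) : Convex ℝ {z : ℂ | z.im ≤ m} :=
  convex_halfSpace_le Complex.imCLM.isBoundedLinearMap.toIsLinearMap _

theorem im_ge_convex (m : ℝ) : Convex ℝ {z : ℂ | m ≤ z.im} :=
  convex_halfSpace_ge Complex.imCLM.isBoundedLinearMap.toIsLinearMap _

/-- the union of the five convex pieces -/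
def U : Set ℂ :=
  ((W (1 / 9) ∩ {z : ℂ | 1 / 20 ≤ z.im}) ∪ (W (1 / 9) ∩ {z : ℂ | z.im ≤ -(1 / 20)}))
  ∪ ((W (1 / 9) ∩ {z : ℂ | z.re ≤ 9 / 20}) ∪
    ((W (1 / 9) ∩ ({z : ℂ | 11 / 20 ≤ z.re} ∩ {z : ℂ | z.re ≤ 29 / 20}))
    ∪ (W (1 / 9) ∩ {z : ℂ | 31 / 20 ≤ z.re})))

theorem mem_U {z : ℂ} : z ∈ U ↔ z ∈ W (1 / 9) ∧ (1 / 20 ≤ z.im ∨ z.im ≤ -(1 / 20) ∨
    z.re ≤ 9 / 20 ∨ (11 / 20 ≤ z.re ∧ z.re ≤ 29 / 20) ∨ 31 / 20 ≤ z.re) := by
  simp only [U, mem_union, mem_inter_iff, mem_ofPred_eq]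
  tauto

theorem memW {c x y : ℝ} (h0 : 0 ≤ x) (h3 : x ≤ 3) (h : c ≤ (x ^ 2 / 3 - y ^ 2) * (3 - x)) :
    (⟨x, y⟩ : ℂ) ∈ W c := ⟨h0, h3, h⟩

theorem U_preconnected : IsPreconnected U := by
  have hW : Convex ℝ (W (1 / 9)) := W_convex (by norm_num)
  have c1 : IsPreconnected (W (1 / 9) ∩ {z : ℂ | 1 / 20 ≤ z.im}) :=
    (hW.inter (im_ge_convex _)).isPreconnected
  have c2 : IsPreconnected (W (1 / 9) ∩ {z : ℂ | z.im ≤ -(1 / 20)}) :=
    (hW.inter (im_le_convex _)).isPreconnected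
  have c3 : IsPreconnected (W (1 / 9) ∩ {z : ℂ | z.re ≤ 9 / 20}) :=
    (hW.inter (re_le_convex _)).isPreconnected
  have c4 : IsPreconnected (W (1 / 9) ∩ ({z : ℂ | 11 / 20 ≤ z.re} ∩ {z : ℂ | z.re ≤ 29 / 20})) :=
    (hW.inter ((re_ge_convex _).inter (re_le_convex _))).isPreconnected
  have c5 : IsPreconnected (W (1 / 9) ∩ {z : ℂ | 31 / 20 ≤ z.re}) :=
    (hW.inter (re_ge_convex _)).isPreconnected
  -- all pieces meet the upper one, the lower one meets the last one
  have d3 : IsPreconnected ((W (1 / 9) ∩ {z : ℂ | 1 / 20 ≤ z.im}) ∪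
      (W (1 / 9) ∩ {z : ℂ | z.re ≤ 9 / 20})) :=
    c1.union (⟨9 / 20, 1 / 20⟩ : ℂ) ⟨memW (by norm_num) (by norm_num) (by norm_num), by
      simp⟩ ⟨memW (by norm_num) (by norm_num) (by norm_num), by simp⟩ c3
  have d4 := d3.union (⟨1, 1 / 20⟩ : ℂ)
    (by exact Or.inl ⟨memW (by norm_num) (by norm_num) (by norm_num), by simp⟩)
    (by exact ⟨memW (by norm_num) (by norm_num) (by norm_num), by simp; norm_num⟩) c4
  have d5 := d4.union (⟨2, 1 / 20⟩ : ℂ)
    (by exact Or.inl (Or.inl ⟨memW (by norm_num) (by norm_num) (by norm_num), by simp⟩))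
    (by exact ⟨memW (by norm_num) (by norm_num) (by norm_num), by simp; norm_num⟩) c5
  have d6 := d5.union (⟨2, -(1 / 20)⟩ : ℂ)
    (by exact Or.inr ⟨memW (by norm_num) (by norm_num) (by norm_num), by simp; norm_num⟩)
    (by exact ⟨memW (by norm_num) (by norm_num) (by norm_num), by simp⟩) c2
  convert d6 using 1
  ext z
  simp only [U, mem_union]
  tauto

theorem two_mem_U : (2 : ℂ) ∈ U := by
  rw [mem_U]
  refine ⟨?_, ?_⟩
  · exact ⟨by simp, by simp; norm_num, by simp [TT]; norm_num⟩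
  · right; right; right; right
    simp; norm_num

/-- a point of the box about a neck -/
theorem box_b {x y : ℝ} (h1 : 9 / 20 ≤ x) (h2 : x ≤ 8 / 5) (h3 : |y| ≤ 1 / 20) :
    1 / 8 < (x ^ 2 / 3 - y ^ 2) * (3 - x) := by
  rw [abs_le] at h3
  have hy : y ^ 2 ≤ 1 / 400 := by nlinarith
  have hx : 81 / 400 ≤ x ^ 2 := by nlinarith
  rcases le_total x 1 with h | h
  · nlinarith
  · nlinarith

theorem box_c {x y : ℝ} (h1 : 2 / 5 ≤ x) (h2 : x ≤ 8 / 5) (h3 : |y| ≤ 1 / 10) :
    1 / 9 ≤ (x ^ 2 / 3 - y ^ 2) * (3 - x) := by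
  rw [abs_le] at h3
  have hy : y ^ 2 ≤ 1 / 100 := by nlinarith
  have hx : 4 / 25 ≤ x ^ 2 := by nlinarith
  rcases le_total x 1 with h | h
  · have e1 : (4 / 25 / 3 - 1 / 100) + (x - 2 / 5) * (4 / 5) / 3 ≤ x ^ 2 / 3 - y ^ 2 := by
      nlinarith
    have e2 : 0 ≤ 3 - x := by linarith
    have e3 := mul_le_mul_of_nonneg_right e1 e2
    nlinarith
  · nlinarith

theorem norm_sq (u : ℂ) : ‖u‖ ^ 2 = u.re ^ 2 + u.im ^ 2 := by
  rw [← Complex.normSq_eq_norm_sq, Complex.normSq_apply]; ring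

/-- the target of the case `TT ≥ 1/9` -/
def K0 (r : ℝ) : Set ℂ := {z ∈ W (1 / 9) | r ≤ ‖z - aa‖ ∧ r ≤ ‖z - bb‖}

theorem U_subset {r : ℝ} (hr : r ≤ 1 / 20) : U ⊆ K0 r := by
  intro z hz
  rw [mem_U] at hz
  obtain ⟨h, h'⟩ := hz
  refine ⟨h, hr.trans ?_, hr.trans ?_⟩
  · rcases h' with h' | h' | h' | h' | h'
    · refine le_trans ?_ (Complex.abs_im_le_norm (z - aa))
      simp only [Complex.sub_im, aa_im, sub_zero]
      exact h'.trans (le_abs_self _)
    · refine le_trans ?_ (Complex.abs_im_le_norm (z - aa))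
      simp only [Complex.sub_im, aa_im, sub_zero]
      exact le_trans (by linarith) (neg_le_abs _)
    · refine le_trans ?_ (Complex.abs_re_le_norm (z - aa))
      simp only [Complex.sub_re, aa_re]
      exact le_trans (by linarith) (neg_le_abs _)
    · refine le_trans ?_ (Complex.abs_re_le_norm (z - aa))
      simp only [Complex.sub_re, aa_re]
      exact le_trans (by linarith) (neg_le_abs _)
    · refine le_trans ?_ (Complex.abs_re_le_norm (z - aa))
      simp only [Complex.sub_re, aa_re]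
      exact le_trans (by linarith) (le_abs_self _)
  · rcases h' with h' | h' | h' | h' | h'
    · refine le_trans ?_ (Complex.abs_im_le_norm (z - bb))
      simp only [Complex.sub_im, bb_im, sub_zero]
      exact h'.trans (le_abs_self _)
    · refine le_trans ?_ (Complex.abs_im_le_norm (z - bb))
      simp only [Complex.sub_im, bb_im, sub_zero]
      exact le_trans (by linarith) (neg_le_abs _)
    · refine le_trans ?_ (Complex.abs_re_le_norm (z - bb))
      simp only [Complex.sub_re, bb_re]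
      exact le_trans (by linarith) (neg_le_abs _)
    · refine le_trans ?_ (Complex.abs_re_le_norm (z - bb))
      simp only [Complex.sub_re, bb_re]
      exact le_trans (by linarith) (le_abs_self _)
    · refine le_trans ?_ (Complex.abs_re_le_norm (z - bb))
      simp only [Complex.sub_re, bb_re]
      exact le_trans (by linarith) (le_abs_self _)

/-- a segment out of the box about `p` -/
theorem radial_out {r : ℝ} (hr0 : 0 < r) (hr : r ≤ 1 / 20) {p p' : ℂ}
    (hp : (p = aa ∧ p' = bb) ∨ (p = bb ∧ p' = aa)) {z : ℂ} (h1 : r ≤ ‖z - p‖)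
    (h2 : |z.re - p.re| < 1 / 20) (h3 : |z.im| < 1 / 20) :
    ∃ T, IsPreconnected T ∧ z ∈ T ∧ (T ∩ U).Nonempty ∧ T ⊆ K0 r := by
  have him : p.im = 0 := by rcases hp with ⟨h, -⟩ | ⟨h, -⟩ <;> rw [h] <;> simp
  have hpp : ‖p - p'‖ = 1 := by
    rcases hp with ⟨h, h'⟩ | ⟨h, h'⟩ <;> rw [h, h']
    · exact norm_aa_sub_bb
    · exact norm_bb_sub_aa
  have hre : p.re = 3 / 2 ∨ p.re = 1 / 2 := by
    rcases hp with ⟨h, -⟩ | ⟨h, -⟩ <;> rw [h] <;> simp
  have n0 : 0 < ‖z - p‖ := by linarith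
  -- the norm is small
  have nlt : ‖z - p‖ < 1 / 10 := by
    have := norm_sq (z - p)
    simp only [Complex.sub_re, Complex.sub_im, him, sub_zero] at this
    rw [abs_lt] at h2 h3
    by_contra hcon
    push Not at hcon
    nlinarith
  set l : ℝ := (1 / 10) / ‖z - p‖ with hl
  have l1 : 1 ≤ l := by rw [hl, le_div_iff₀ n0]; linarith
  set e : ℂ := p + (l : ℂ) * (z - p) with he
  have ne : ‖e - p‖ = 1 / 10 := by
    rw [he, add_sub_cancel_left, norm_mul, Complex.norm_real, Real.norm_of_nonneg (by linarith),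
      hl, div_mul_cancel₀ _ n0.ne']
  -- points of the closed ball of radius 1/10
  have ball : ∀ w : ℂ, ‖w - p‖ ≤ 1 / 10 → w ∈ W (1 / 9) := by
    intro w hw
    have e1 := (Complex.abs_re_le_norm (w - p)).trans hw
    have e2 := (Complex.abs_im_le_norm (w - p)).trans hw
    simp only [Complex.sub_re, Complex.sub_im, him, sub_zero] at e1 e2
    rw [abs_le] at e1
    have b1 : 2 / 5 ≤ w.re := by rcases hre with h | h <;> rw [h] at e1 <;> linarith
    have b2 : w.re ≤ 8 / 5 := by rcases hre with h | h <;> rw [h] at e1 <;> linarith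
    exact ⟨by linarith, by linarith, box_c b1 b2 e2⟩
  refine ⟨segment ℝ z e, (convex_segment z e).isPreconnected, left_mem_segment ℝ z e,
    ⟨e, right_mem_segment ℝ z e, ?_⟩, ?_⟩
  · rw [mem_U]
    refine ⟨ball e ne.le, ?_⟩
    by_contra hcon
    push Not at hcon
    obtain ⟨k1, k2, k3, k4, k5⟩ := hcon
    have h4 : |e.re - p.re| < 1 / 20 := by
      rw [abs_lt]
      rcases hre with h | h
      · rw [h]
        constructor
        · by_contra h5
          push Not at h5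
          have := k4 (by
            have e1 := (Complex.abs_re_le_norm (e - p)).trans ne.le
            simp only [Complex.sub_re, h] at e1
            rw [abs_le] at e1
            linarith)
          linarith
        · linarith
      · rw [h]
        constructor
        · linarith
        · by_contra h5
          push Not at h5
          have := k4 (by linarith)
          have e1 := (Complex.abs_re_le_norm (e - p)).trans ne.le
          simp only [Complex.sub_re, h] at e1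
          rw [abs_le] at e1
          linarith
    have h5 := norm_sq (e - p)
    rw [ne] at h5
    simp only [Complex.sub_re, Complex.sub_im, him, sub_zero] at h5
    rw [abs_lt] at h4
    nlinarith
  · intro w hw
    rw [segment_eq_image] at hw
    obtain ⟨s, ⟨s0, s1⟩, rfl⟩ := hw
    have hw' : (1 - s) • z + s • e - p = ((1 + s * (l - 1) : ℝ) : ℂ) * (z - p) := by
      rw [he]
      simp only [Complex.real_smul]
      push_cast
      ring
    have hnw : ‖(1 - s) • z + s • e - p‖ = (1 + s * (l - 1)) * ‖z - p‖ := by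
      rw [hw', norm_mul, Complex.norm_real, Real.norm_of_nonneg]
      nlinarith
    have hle : ‖(1 - s) • z + s • e - p‖ ≤ 1 / 10 := by
      rw [hnw]
      have : (1 + s * (l - 1)) ≤ l := by nlinarith
      calc (1 + s * (l - 1)) * ‖z - p‖ ≤ l * ‖z - p‖ :=
            mul_le_mul_of_nonneg_right this n0.le
        _ = 1 / 10 := by rw [hl, div_mul_cancel₀ _ n0.ne']
    have hge : r ≤ ‖(1 - s) • z + s • e - p‖ := by
      rw [hnw]
      have : 1 ≤ (1 + s * (l - 1)) := by nlinarith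
      nlinarith
    have hge' : r ≤ ‖(1 - s) • z + s • e - p'‖ := by
      have : ‖p - p'‖ ≤ ‖(1 - s) • z + s • e - p'‖ + ‖(1 - s) • z + s • e - p‖ := by
        have e3 : p - p' = ((1 - s) • z + s • e - p') - ((1 - s) • z + s • e - p) := by ring
        rw [e3]
        exact norm_sub_le _ _
      rw [hpp] at this
      linarith
    refine ⟨ball _ hle, ?_⟩
    rcases hp with ⟨h, h'⟩ | ⟨h, h'⟩
    · rw [h] at hge; rw [h'] at hge'; exact ⟨hge, hge'⟩
    · rw [h] at hge; rw [h'] at hge'; exact ⟨hge', hge⟩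

/-- the case `TT ≥ 1/9` -/
theorem join_K0 {r : ℝ} (hr0 : 0 < r) (hr : r ≤ 1 / 20) {z : ℂ} (hz : z ∈ K0 r) :
    ∃ T, IsPreconnected T ∧ z ∈ T ∧ (2 : ℂ) ∈ T ∧ T ⊆ K0 r := by
  by_cases hU : z ∈ U
  · exact ⟨U, U_preconnected, hU, two_mem_U, U_subset hr⟩
  have main : ∃ T, IsPreconnected T ∧ z ∈ T ∧ (T ∩ U).Nonempty ∧ T ⊆ K0 r := by
    rw [mem_U] at hU
    push Not at hU
    obtain ⟨k1, k2, k3, k4, k5⟩ := hU hz.1
    have h3 : |z.im| < 1 / 20 := abs_lt.2 ⟨by linarith, by linarith⟩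
    rcases lt_or_ge z.re (11 / 20) with h | h
    · apply radial_out hr0 hr (Or.inr ⟨rfl, rfl⟩) hz.2.2 _ h3
      rw [bb_re, abs_lt]
      constructor <;> linarith
    · have := k4 h
      apply radial_out hr0 hr (Or.inl ⟨rfl, rfl⟩) hz.2.1 _ h3
      rw [aa_re, abs_lt]
      constructor <;> linarith
  obtain ⟨T, h1, h2, ⟨x, hx1, hx2⟩, h4⟩ := main
  exact ⟨T ∪ U, h1.union x hx1 hx2 U_preconnected, Or.inl h2, Or.inr two_mem_U,
    union_subset h4 (U_subset hr)⟩

end KConn

open KConn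

theorem KK_connected (C C' : ℝ) : ∃ ε₀ > 0, ∀ ε : ℝ, 0 < ε → ε < ε₀ → ∀ φ₁ φ₂ Z t h₀,
    Surf C ε φ₁ φ₂ Z t h₀ → Est C' ε Z t h₀ → IsConnected (KK ε t) := by
  obtain ⟨e1, he1, kf⟩ := KK_facts C C'
  refine ⟨min e1 (min (1 / 10) (1 / (100 * (|C'| + 1)))), by positivity, ?_⟩
  intro ε hε hlt φ₁ φ₂ Z t h₀ S E
  obtain ⟨lt1, lt2⟩ := lt_min_iff.1 hlt
  obtain ⟨lt2, lt3⟩ := lt_min_iff.1 lt2
  obtain ⟨kW, -, -, kmid, klarge, -, -⟩ := kf ε hε lt1 φ₁ φ₂ Z t h₀ S E
  have hr0 : (0 : ℝ) < ε ^ 2 := by positivity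
  have hr : ε ^ 2 ≤ 1 / 20 := by nlinarith
  have hK0 : K0 (ε ^ 2) ⊆ KK ε t := by
    intro z hz
    obtain ⟨⟨h1, h2, h3⟩, h4, h5⟩ := hz
    have hU : z ∈ Ubar := ⟨h1, h2, by linarith⟩
    exact ⟨hU, h4, h5, (klarge z hU h4 h5 (by linarith)).le⟩
  have h2K : (2 : ℂ) ∈ K0 (ε ^ 2) := U_subset hr two_mem_U
  refine ⟨⟨2, hK0 h2K⟩, isPreconnected_of_forall 2 ?_⟩
  intro z hz
  -- it suffices to reach `K0` inside `KK`
  suffices main : ∃ T, IsPreconnected T ∧ z ∈ T ∧ (T ∩ K0 (ε ^ 2)).Nonempty ∧ T ⊆ KK ε t by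
    obtain ⟨T, h1, h2, ⟨x, hx1, hx2⟩, h4⟩ := main
    obtain ⟨T', g1, g2, g3, g4⟩ := join_K0 hr0 hr hx2
    exact ⟨T ∪ T', union_subset h4 (g4.trans hK0), Or.inr g3, Or.inl h2,
      h1.union x hx1 g2 g1⟩
  have hzz := hz
  obtain ⟨⟨z0, z3, zT⟩, za, zb, zt⟩ := hz
  rcases le_or_gt (1 / 9) (TT z) with hT | hT
  · exact ⟨{z}, isPreconnected_singleton, rfl, ⟨z, rfl, ⟨z0, z3, hT⟩, za, zb⟩,
      singleton_subset_iff.2 hzz⟩
  -- the segment to `2`
  have zR : z ∈ Rect := (kW hzz).1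
  have R2 : (2 : ℂ) ∈ Rect := by
    refine ⟨?_, ?_, ?_⟩ <;> simp <;> norm_num
  have TT2 : TT 2 = 4 / 3 := by simp [TT]; norm_num
  set g : ℝ → ℂ := fun s => z + (s : ℂ) * (2 - z) with hg
  have gcont : Continuous g := by
    rw [hg]
    exact continuous_const.add (Complex.continuous_ofReal.mul continuous_const)
  have hgc : ∀ s ∈ Icc (0 : ℝ) 1, g s = (1 - s) • z + s • (2 : ℂ) := by
    intro s _
    rw [hg]
    simp only [Complex.real_smul]
    push_cast
    ring
  have gR : ∀ s ∈ Icc (0 : ℝ) 1, g s ∈ Rect := by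
    intro s hs
    rw [hgc s hs]
    exact convex_Rect zR R2 (by linarith [hs.2]) hs.1 (by ring)
  have gW : ∀ s ∈ Icc (0 : ℝ) 1, g s ∈ W (TT z) := by
    intro s hs
    rw [hgc s hs]
    refine W_convex (by linarith) (show z ∈ W (TT z) from ⟨z0, z3, le_rfl⟩) ?_
      (by linarith [hs.2]) hs.1 (by ring)
    exact ⟨by simp, by simp; norm_num, by rw [TT2]; linarith⟩
  have TTc : Continuous TT := by unfold TT; fun_prop
  -- the exit time
  obtain ⟨s₀, hs₀, hTs₀⟩ : ∃ s ∈ Icc (0 : ℝ) 1, TT (g s) = 1 / 9 := by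
    have hc : ContinuousOn (fun s => TT (g s)) (Icc 0 1) := (TTc.comp gcont).continuousOn
    have := intermediate_value_Icc (zero_le_one) hc
    apply this
    simp only [hg, Complex.ofReal_zero, zero_mul, add_zero, Complex.ofReal_one, one_mul,
      add_sub_cancel]
    rw [TT2]
    constructor <;> linarith
  have hle : ∀ s ∈ Icc (0 : ℝ) s₀, TT (g s) ≤ 1 / 9 := by
    intro s hs
    by_contra hcon
    push Not at hcon
    have hs1 : s ∈ Icc (0 : ℝ) 1 := ⟨hs.1, hs.2.trans hs₀.2⟩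
    have hs2 : s < s₀ ∨ s = s₀ := lt_or_eq_of_le hs.2
    rcases hs2 with hs2 | hs2
    · have hcv := (TT_convex (c := 1 / 9) (by norm_num)).2
      have m1 : g s ∈ {z : ℂ | 0 < z.re ∧ z.re < 3 ∧ 1 / 9 < TT z} := by
        refine ⟨by linarith [(gR s hs1).1], ?_, hcon⟩
        have h6 := (gW s hs1).2.1
        rcases lt_or_eq_of_le h6 with h | h
        · exact h
        · exfalso
          rw [TT, h] at hcon
          norm_num at hcon
      have m2 : (2 : ℂ) ∈ {z : ℂ | 0 < z.re ∧ z.re < 3 ∧ 1 / 9 < TT z} :=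
        ⟨by simp, by simp; norm_num, by rw [TT2]; norm_num⟩
      have s1 : s < 1 := hs2.trans_le hs₀.2
      have hcomb : g s₀ = ((1 - s₀) / (1 - s)) • g s + ((s₀ - s) / (1 - s)) • (2 : ℂ) := by
        have h7 : (1 : ℂ) - s ≠ 0 := by
          have : (1 - s : ℝ) ≠ 0 := by linarith
          exact_mod_cast this
        rw [hg]
        simp only [Complex.real_smul]
        push_cast
        field_simp
        ring
      have := hcv m1 m2 (a := (1 - s₀) / (1 - s)) (b := (s₀ - s) / (1 - s))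
        (div_nonneg (by linarith [hs₀.2]) (by linarith))
        (div_nonneg (by linarith) (by linarith)) (by
          rw [← add_div]; rw [show (1 - s₀ + (s₀ - s)) = 1 - s by ring]
          exact div_self (by linarith))
      rw [← hcomb] at this
      linarith [this.2.2]
    · rw [hs2, hTs₀] at hcon
      exact lt_irrefl _ hcon
  have gFR : ∀ s ∈ Icc (0 : ℝ) s₀, g s ∈ FR := by
    intro s hs
    have hs1 : s ∈ Icc (0 : ℝ) 1 := ⟨hs.1, hs.2.trans hs₀.2⟩
    refine ⟨gR s hs1, ?_, ?_⟩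
    · by_contra hcon
      push Not at hcon
      have e1 := (Complex.abs_re_le_norm _).trans hcon.le
      have e2 := (Complex.abs_im_le_norm _).trans hcon.le
      simp only [Complex.sub_re, Complex.sub_im, aa_im, sub_zero, aa_re] at e1 e2
      rw [abs_le] at e1
      have := box_b (x := (g s).re) (y := (g s).im) (by linarith) (by linarith) e2
      have h9 := hle s hs
      rw [TT] at h9
      linarith
    · by_contra hcon
      push Not at hcon
      have e1 := (Complex.abs_re_le_norm _).trans hcon.le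
      have e2 := (Complex.abs_im_le_norm _).trans hcon.le
      simp only [Complex.sub_re, Complex.sub_im, bb_im, sub_zero, bb_re] at e1 e2
      rw [abs_le] at e1
      have := box_b (x := (g s).re) (y := (g s).im) (by linarith) (by linarith) e2
      have h9 := hle s hs
      rw [TT] at h9
      linarith
  -- the derivative of `t` along the segment
  have gder : ∀ s : ℝ, HasDerivAt g (2 - z) s := by
    intro s
    have h1 : HasDerivAt (fun s : ℝ => (s : ℂ)) 1 s := Complex.ofRealCLM.hasDerivAt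
    have h2 := (h1.mul_const (2 - z)).const_add z
    simpa [hg] using h2
  have tder : ∀ s ∈ Icc (0 : ℝ) s₀, HasDerivAt (fun s => t (g s)) (fderiv ℝ t (g s) (2 - z)) s := by
    intro s hs
    have hd := (E.dert (g s) (gFR s hs)).1
    exact hd.hasFDerivAt.comp_hasDerivAt s (gder s)
  have hC : 3 * |C'| * ε < 1 / 20 := by
    rw [lt_div_iff₀ (by positivity)] at lt3
    nlinarith [abs_nonneg C']
  have tpos : ∀ s ∈ Ico (0 : ℝ) s₀, 0 ≤ fderiv ℝ t (g s) (2 - z) := by
    intro s hs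
    have hs' : s ∈ Icc (0 : ℝ) s₀ := ⟨hs.1, hs.2.le⟩
    have hs1 : s ∈ Icc (0 : ℝ) 1 := ⟨hs.1, hs'.2.trans hs₀.2⟩
    have s1 : s < 1 := hs.2.trans_le hs₀.2
    obtain ⟨-, hb⟩ := E.dert (g s) (gFR s hs')
    have h2g : 2 - g s = ((1 - s : ℝ) : ℂ) * (2 - z) := by
      rw [hg]; push_cast; ring
    have hre : (g s).re < 3 := by
      have h6 := (gW s hs1).2.1
      rcases lt_or_eq_of_le h6 with h | h
      · exact h
      · exfalso
        have h8 := (gW s hs1).2.2
        rw [TT, TT, h] at h8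
        have : TT z ≤ 0 := by rw [TT]; linarith
        linarith
    have hrad := TT_radial (z := g s) (by linarith [(gR s hs1).1]) hre
      (by linarith [(gW s hs1).2.2]) (by linarith [hle s hs'])
    have n3 : ‖2 - g s‖ ≤ 3 := by
      have := norm_sq (2 - g s)
      simp only [Complex.sub_re, Complex.sub_im, Complex.re_ofNat, Complex.im_ofNat] at this
      obtain ⟨r1, r2, r3⟩ := gR s hs1
      rw [abs_lt] at r3
      by_contra hcon
      push Not at hcon
      nlinarith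
    have hdiff : |fderiv ℝ t (g s) (2 - g s) - ε * fderiv ℝ TT (g s) (2 - g s)| ≤
        C' * ε ^ 2 * 3 := by
      have := (fderiv ℝ t (g s) - ε • fderiv ℝ TT (g s)).le_opNorm (2 - g s)
      simp only [_root_.sub_apply, _root_.smul_apply,
        smul_eq_mul, Real.norm_eq_abs] at this
      refine this.trans (mul_le_mul hb n3 (norm_nonneg _) ((norm_nonneg _).trans hb))
    rw [abs_le] at hdiff
    have hC'' : C' * ε ^ 2 * 3 ≤ ε * (1 / 20) := by
      have := le_abs_self C'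
      nlinarith [mul_pos hε hε]
    have hpos : 0 ≤ fderiv ℝ t (g s) (2 - g s) := by
      have := mul_le_mul_of_nonneg_left hrad hε.le
      linarith [hdiff.1]
    have hsm : fderiv ℝ t (g s) (2 - g s) = (1 - s) * fderiv ℝ t (g s) (2 - z) := by
      rw [h2g, ← Complex.real_smul, map_smul, smul_eq_mul]
    rw [hsm] at hpos
    exact nonneg_of_mul_nonneg_right hpos (by linarith)
  have tmono : MonotoneOn (fun s => t (g s)) (Icc 0 s₀) := by
    apply monotoneOn_of_deriv_nonneg (convex_Icc 0 s₀)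
    · exact fun s hs => (tder s hs).continuousAt.continuousWithinAt
    · intro s hs
      rw [interior_Icc] at hs
      exact (tder s ⟨hs.1.le, hs.2.le⟩).differentiableAt.differentiableWithinAt
    · intro s hs
      rw [interior_Icc] at hs
      rw [(tder s ⟨hs.1.le, hs.2.le⟩).deriv]
      exact tpos s ⟨hs.1.le, hs.2⟩
  refine ⟨g '' Icc 0 s₀, (isPreconnected_Icc).image g gcont.continuousOn, ⟨0, ⟨le_rfl, hs₀.1⟩, by
    simp [hg]⟩, ⟨g s₀, ⟨s₀, ⟨hs₀.1, le_rfl⟩, rfl⟩, ?_⟩, ?_⟩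
  · have h1 := gFR s₀ ⟨hs₀.1, le_rfl⟩
    have h2 := gW s₀ hs₀
    exact ⟨⟨h2.1, h2.2.1, hTs₀.ge⟩, by linarith [h1.2.1], by linarith [h1.2.2]⟩
  · rintro _ ⟨s, hs, rfl⟩
    have hs1 : s ∈ Icc (0 : ℝ) 1 := ⟨hs.1, hs.2.trans hs₀.2⟩
    have h1 := gFR s hs
    have h2 := gW s hs1
    refine ⟨⟨h2.1, h2.2.1, by linarith [h2.2.2]⟩, by linarith [h1.2.1], by linarith [h1.2.2], ?_⟩
    have := tmono ⟨le_rfl, hs₀.1⟩ hs hs.1
    simp only [hg, Complex.ofReal_zero, zero_mul, add_zero] at this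
    exact zt.trans this

end Pool.Agent.MP_49383f_gt
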