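import Pool.Agent.MP_49383f_gt.Inj

/-!
# MP_49383f_gt, module G09 : the two sheets meet only along the neck circle
-/

namespace Pool.Agent.MP_49383f_gt

open scoped ContDiff ComplexConjugate
open MeasureTheory Metric Set

namespace Gap

theorem Est_mono {C C' ε h₀ : ℝ} {Z : ℂ → ℂ} {t : ℂ → ℝ} (hC : C ≤ C') (hε : 0 < ε)
    (E : Est C ε Z t h₀) : Est C' ε Z t h₀ where
  lipZ := fun z hz z' hz' => (E.lipZ z hz z' hz').trans (by gcongr)
  bdZ := fun z hz => (E.bdZ z hz).trans (by gcongr)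
  neckZ := fun z hz => (E.neckZ z hz).trans (by gcongr)
  bdt := fun z hz => (E.bdt z hz).trans (by gcongr)
  neart_a := fun z h1 h2 => (E.neart_a z h1 h2).trans (by gcongr)
  neart_b := fun z h1 h2 => (E.neart_b z h1 h2).trans (by gcongr)
  dert := fun z hz => ⟨(E.dert z hz).1, (E.dert z hz).2.trans (by gcongr)⟩
  Zglue := E.Zglue
  tglue := E.tglue
  catZ := fun z z' h1 h2 h3 h4 => (E.catZ z z' h1 h2 h3 h4).trans (by gcongr)
  catt := fun z z' h1 h2 h3 h4 => (E.catt z z' h1 h2 h3 h4).trans (by gcongr)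

theorem norm_psi {r : ℝ} (p z : ℂ) : ‖((r : ℝ) : ℂ) ^ 2 / conj (z - p)‖ = r ^ 2 / ‖z - p‖ := by
  rw [norm_div, norm_pow, Complex.norm_real, Real.norm_eq_abs, sq_abs, Complex.norm_conj]

/-- the reflection defect -/
theorem defect_eq (ε : ℝ) (Z : ℂ → ℂ) (z w : ℂ) (h : Z z + conj (Z w) = 2) :
    z + conj w - 2 = -(((ε ^ 2 : ℝ) : ℂ) ^ 2 / conj (z - aa) + ((ε ^ 2 : ℝ) : ℂ) ^ 2 / conj (z - bb)
      + conj (((ε ^ 2 : ℝ) : ℂ) ^ 2 / conj (w - aa)) + conj (((ε ^ 2 : ℝ) : ℂ) ^ 2 / conj (w - bb)))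
      - (DZ ε Z z + conj (DZ ε Z w)) := by
  have h1 : conj (DZ ε Z w) = conj (Z w) - conj w - conj (((ε ^ 2 : ℝ) : ℂ) ^ 2 / conj (w - aa))
      - conj (((ε ^ 2 : ℝ) : ℂ) ^ 2 / conj (w - bb)) := by
    rw [DZ, map_sub, map_sub, map_sub]
  rw [h1, DZ, ← h]
  ring

theorem defect_norm (z w : ℂ) : ‖w - (2 - conj z)‖ = ‖z + conj w - 2‖ := by
  rw [← Complex.norm_conj (z + conj w - 2)]
  congr 1
  simp only [map_sub, map_add, Complex.conj_conj, Complex.conj_ofNat]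
  ring

theorem defect_le (ε : ℝ) (Z : ℂ → ℂ) (z w : ℂ) (h : Z z + conj (Z w) = 2) :
    ‖w - (2 - conj z)‖ ≤ ((ε ^ 2) ^ 2 / ‖z - aa‖ + (ε ^ 2) ^ 2 / ‖z - bb‖
      + (ε ^ 2) ^ 2 / ‖w - aa‖ + (ε ^ 2) ^ 2 / ‖w - bb‖)
      + ‖DZ ε Z z + conj (DZ ε Z w)‖ := by
  rw [defect_norm, defect_eq ε Z z w h]
  refine (norm_sub_le _ _).trans ?_
  gcongr
  rw [norm_neg]
  refine (norm_add_le _ _).trans ?_
  rw [Complex.norm_conj, norm_psi]
  gcongr
  refine (norm_add_le _ _).trans ?_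
  rw [Complex.norm_conj, norm_psi]
  gcongr
  refine (norm_add_le _ _).trans ?_
  rw [norm_psi, norm_psi]

/-- `TT` is Lipschitz on bounded sets -/
theorem TT_lip {z w : ℂ} (h1 : |z.re| ≤ 4) (h2 : |z.im| ≤ 2) (h3 : |w.re| ≤ 4) (h4 : |w.im| ≤ 2) :
    TT z - TT w ≤ 56 * ‖z - w‖ := by
  have e : TT z - TT w = (z.re - w.re) * ((z.re + w.re) - (z.re ^ 2 + z.re * w.re + w.re ^ 2) / 3
      + z.im ^ 2) + (z.im - w.im) * ((z.im + w.im) * (w.re - 3)) := by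
    simp only [TT]; ring
  have k1 : |z.re - w.re| ≤ ‖z - w‖ := by
    have := Complex.abs_re_le_norm (z - w); rwa [Complex.sub_re] at this
  have k2 : |z.im - w.im| ≤ ‖z - w‖ := by
    have := Complex.abs_im_le_norm (z - w); rwa [Complex.sub_im] at this
  rw [abs_le] at h1 h2 h3 h4
  have k3 : |(z.re + w.re) - (z.re ^ 2 + z.re * w.re + w.re ^ 2) / 3 + z.im ^ 2| ≤ 28 := by
    rw [abs_le]; constructor <;> nlinarith
  have k4 : |(z.im + w.im) * (w.re - 3)| ≤ 28 := by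
    rw [abs_mul]
    have a1 : |z.im + w.im| ≤ 4 := by rw [abs_le]; constructor <;> linarith
    have a2 : |w.re - 3| ≤ 7 := by rw [abs_le]; constructor <;> linarith
    nlinarith [abs_nonneg (z.im + w.im), abs_nonneg (w.re - 3)]
  rw [e]
  refine (le_abs_self _).trans ((abs_add_le _ _).trans ?_)
  rw [abs_mul, abs_mul]
  have n0 := norm_nonneg (z - w)
  have := mul_le_mul k1 k3 (abs_nonneg _) n0
  have := mul_le_mul k2 k4 (abs_nonneg _) n0
  linarith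

theorem log_ge {x s : ℝ} (hs : 0 ≤ s) (hs' : s ≤ 1 / 2) (hx : 1 - s ≤ x) : -(2 * s) ≤ Real.log x := by
  have hx0 : 0 < x := by linarith
  have h1 := Real.one_sub_inv_le_log_of_pos hx0
  have h2 : x⁻¹ ≤ 1 + 2 * s := by
    rw [inv_le_comm₀ hx0 (by linarith)]
    rw [inv_le_iff_one_le_mul₀ (by linarith)]
    nlinarith
  linarith

/-- the difference of heights -/
theorem height (ε : ℝ) (t : ℂ → ℝ) (z w : ℂ) :
    t z + t w = ε * (TT z + TT w) - 2 * ε ^ 2 * (Real.log ‖z - aa‖ + Real.log ‖z - bb‖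
      + Real.log ‖w - aa‖ + Real.log ‖w - bb‖) + (Dt ε t z + Dt ε t w) := by
  rw [Dt, Dt]; ring

theorem tt_sum {z w : ℂ} (hz : z ∈ Rect) (hw : w ∈ Rect) :
    TT z + TT w ≤ 4 / 3 + 56 * ‖w - (2 - conj z)‖ := by
  obtain ⟨a1, a2, a3⟩ := hz
  obtain ⟨b1, b2, b3⟩ := hw
  have h1 := TT_add_TT z
  have h2 : TT w - TT (2 - conj z) ≤ 56 * ‖w - (2 - conj z)‖ := by
    apply TT_lip
    · rw [abs_le]; constructor <;> linarith
    · linarith
    · simp only [Complex.sub_re, Complex.conj_re, Complex.re_ofNat]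
      rw [abs_le]; constructor <;> linarith
    · simp only [Complex.sub_im, Complex.conj_im, Complex.im_ofNat]
      rw [zero_sub, neg_neg]; linarith
  nlinarith [sq_nonneg z.im]

theorem mem_z0 {ε : ℝ} (hε : 0 < ε) (hε' : ε ≤ 1 / 2) : aa + ((ε ^ 2 : ℝ) : ℂ) ∈ WW ε := by
  have h2 : 0 < ε ^ 2 := by positivity
  have h3 : ε ^ 2 ≤ 1 / 4 := by nlinarith
  refine ⟨⟨?_, ?_, ?_⟩, ?_, ?_⟩
  · simp only [Complex.add_re, aa_re, Complex.ofReal_re]; linarith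
  · simp only [Complex.add_re, aa_re, Complex.ofReal_re]; linarith
  · simp only [Complex.add_im, aa_im, Complex.ofReal_im]; norm_num
  · rw [add_sub_cancel_left, Complex.norm_real, Real.norm_of_nonneg h2.le]
  · have : aa + ((ε ^ 2 : ℝ) : ℂ) - bb = ((1 + ε ^ 2 : ℝ) : ℂ) := by
      rw [add_sub_right_comm, aa_sub_bb]; push_cast; ring
    rw [this, Complex.norm_real, Real.norm_of_nonneg (by linarith)]
    linarith

theorem mem_w0 {ε : ℝ} (hε : 0 < ε) (hε' : ε ≤ 1 / 2) : bb - ((ε ^ 2 : ℝ) : ℂ) ∈ WW ε := by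
  have h2 : 0 < ε ^ 2 := by positivity
  have h3 : ε ^ 2 ≤ 1 / 4 := by nlinarith
  refine ⟨⟨?_, ?_, ?_⟩, ?_, ?_⟩
  · simp only [Complex.sub_re, bb_re, Complex.ofReal_re]; linarith
  · simp only [Complex.sub_re, bb_re, Complex.ofReal_re]; linarith
  · simp only [Complex.sub_im, bb_im, Complex.ofReal_im]; norm_num
  · have : bb - ((ε ^ 2 : ℝ) : ℂ) - aa = -((1 + ε ^ 2 : ℝ) : ℂ) := by
      have := aa_sub_bb
      push_cast
      linear_combination (-1 : ℂ) * this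
    rw [this, norm_neg, Complex.norm_real, Real.norm_of_nonneg (by linarith)]
    linarith
  · rw [sub_sub_cancel_left, norm_neg, Complex.norm_real, Real.norm_of_nonneg h2.le]

theorem norm_z0_aa {ε : ℝ} : ‖aa + ((ε ^ 2 : ℝ) : ℂ) - aa‖ = ε ^ 2 := by
  rw [add_sub_cancel_left, Complex.norm_real, Real.norm_of_nonneg (by positivity)]

theorem norm_z0_bb {ε : ℝ} : ‖aa + ((ε ^ 2 : ℝ) : ℂ) - bb‖ = 1 + ε ^ 2 := by
  have : aa + ((ε ^ 2 : ℝ) : ℂ) - bb = ((1 + ε ^ 2 : ℝ) : ℂ) := by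
    rw [add_sub_right_comm, aa_sub_bb]; push_cast; ring
  rw [this, Complex.norm_real, Real.norm_of_nonneg (by positivity)]

theorem norm_w0_bb {ε : ℝ} : ‖bb - ((ε ^ 2 : ℝ) : ℂ) - bb‖ = ε ^ 2 := by
  rw [sub_sub_cancel_left, norm_neg, Complex.norm_real, Real.norm_of_nonneg (by positivity)]

theorem norm_w0_aa {ε : ℝ} : ‖bb - ((ε ^ 2 : ℝ) : ℂ) - aa‖ = 1 + ε ^ 2 := by
  have : bb - ((ε ^ 2 : ℝ) : ℂ) - aa = -((1 + ε ^ 2 : ℝ) : ℂ) := by
    have := aa_sub_bb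
    push_cast
    linear_combination (-1 : ℂ) * this
  rw [this, norm_neg, Complex.norm_real, Real.norm_of_nonneg (by positivity)]

theorem sg_z0 {ε : ℝ} (hε : 0 < ε) :
    sg (ε ^ 2) aa bb (aa + ((ε ^ 2 : ℝ) : ℂ)) = bb - ((ε ^ 2 : ℝ) : ℂ) := by
  have h2 : ((ε ^ 2 : ℝ) : ℂ) ≠ 0 := by exact_mod_cast (by positivity : ε ^ 2 ≠ 0)
  rw [sg, add_sub_cancel_left, pow_two, mul_div_assoc, div_self h2, mul_one]

theorem z0_refl {ε : ℝ} : bb - ((ε ^ 2 : ℝ) : ℂ) = 2 - conj (aa + ((ε ^ 2 : ℝ) : ℂ)) := by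
  rw [map_add, conj_aa, Complex.conj_ofReal, ← aa_add_bb]; ring

/-- the total height -/
theorem h0_eq {C ε h₀ : ℝ} {Z : ℂ → ℂ} {t : ℂ → ℝ} (hε : 0 < ε) (E : Est C ε Z t h₀) :
    h₀ = ε * (4 / 3) - 4 * ε ^ 2 * Real.log (ε ^ 2) - 4 * ε ^ 2 * Real.log (1 + ε ^ 2)
      + (Dt ε t (aa + ((ε ^ 2 : ℝ) : ℂ)) + Dt ε t (bb - ((ε ^ 2 : ℝ) : ℂ))) := by
  have h2 : 0 < ε ^ 2 := by positivity
  have h := E.tglue (aa + ((ε ^ 2 : ℝ) : ℂ)) (by rw [norm_z0_aa]; linarith)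
    (by rw [norm_z0_aa]; linarith)
  rw [sg_z0 hε, height ε t, norm_z0_aa, norm_z0_bb, norm_w0_aa, norm_w0_bb] at h
  have h3 := TT_add_TT (aa + ((ε ^ 2 : ℝ) : ℂ))
  rw [← z0_refl] at h3
  rw [h3] at h
  simp only [Complex.add_im, aa_im, Complex.ofReal_im] at h
  rw [← h]
  ring

/-- crude bound for the reflection defect -/
theorem defect_crude {C ε h₀ : ℝ} {Z : ℂ → ℂ} {t : ℂ → ℝ} (hε : 0 < ε)
    (hε' : ε ≤ 1 / 2) (E : Est C ε Z t h₀) {z w : ℂ} (hz : z ∈ WW ε) (hw : w ∈ WW ε)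
    (h : Z z + conj (Z w) = 2) : ‖w - (2 - conj z)‖ ≤ (2 * C + 4) * ε := by
  have h2 : 0 < ε ^ 2 := by positivity
  have h0 := defect_le ε Z z w h
  have q : ∀ x : ℝ, ε ^ 2 ≤ x → (ε ^ 2) ^ 2 / x ≤ ε := by
    intro x hx
    rw [div_le_iff₀ (by linarith)]
    have : (ε ^ 2) ^ 2 = ε * ε ^ 2 * ε := by ring
    nlinarith [mul_pos hε h2]
  have a1 := q _ hz.2.1
  have a2 := q _ hz.2.2
  have a3 := q _ hw.2.1
  have a4 := q _ hw.2.2
  have b1 := E.bdZ z hz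
  have b2 := E.bdZ w hw
  have b3 : ‖DZ ε Z z + conj (DZ ε Z w)‖ ≤ 2 * (C * ε) := by
    refine (norm_add_le _ _).trans ?_
    rw [Complex.norm_conj]; linarith
  linarith

theorem near {C : ℝ} (hC : 1 ≤ C) {e1 : ℝ} (he1 : 0 < e1)
    (inj : ∀ ε : ℝ, 0 < ε → ε < e1 → ∀ Z t h₀, Est C ε Z t h₀ →
    ∀ z z' : ℂ, ε ^ 2 / 4 < ‖z - aa‖ → ‖z - aa‖ < 4 * ε ^ 2 → ε ^ 2 / 4 < ‖z' - aa‖ →
      ‖z' - aa‖ < 4 * ε ^ 2 → Z z = Z z' → t z = t z' → z = z') :
    ∃ δ > 0, ∃ ε₀ > 0, ∀ ε : ℝ, 0 < ε → ε < ε₀ → ∀ Z t h₀, Est C ε Z t h₀ →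
      ∀ z ∈ WW ε, ∀ w ∈ WW ε, Z z + conj (Z w) = 2 → t z + t w = h₀ → ‖z - aa‖ ≤ 3 * δ →
        ‖z - aa‖ = ε ^ 2 ∧ w = sg (ε ^ 2) aa bb z := by
  refine ⟨1 / (3000 * C), by positivity, min e1 (1 / (3000 * C * (2 * C + 5))), by positivity, ?_⟩
  intro ε hε hlt Z t h₀ E z hz w hw hZ ht hs
  rw [lt_min_iff] at hlt
  obtain ⟨l1, l2⟩ := hlt
  have h2 : 0 < ε ^ 2 := by positivity
  have hδ : (1 : ℝ) / (3000 * C) ≤ 1 / 3000 := by
    apply one_div_le_one_div_of_le (by norm_num); nlinarith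
  have hεδ : (2 * C + 5) * ε ≤ 1 / (3000 * C) := by
    rw [lt_div_iff₀ (by positivity)] at l2
    rw [le_div_iff₀ (by positivity)]
    nlinarith
  have hε2 : ε ≤ 1 / 1000 := by nlinarith
  have hrε : ε ^ 2 ≤ ε := by nlinarith
  set δ := (1 : ℝ) / (3000 * C) with hδdef
  have hCδ : C * δ = 1 / 3000 := by rw [hδdef]; field_simp
  have crude := defect_crude hε (by linarith) E hz hw hZ
  set s := ‖z - aa‖ with hsdef
  set s' := ‖w - bb‖ with hs'def
  have hs0 : ε ^ 2 ≤ s := hz.2.1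
  have hs'0 : ε ^ 2 ≤ s' := hw.2.2
  have hs' : s' ≤ s + (2 * C + 4) * ε := by
    have e : w - bb = -conj (z - aa) + (w - (2 - conj z)) := by
      rw [map_sub, conj_aa]
      linear_combination (-1 : ℂ) * aa_add_bb
    rw [hs'def, e]
    refine (norm_add_le _ _).trans ?_
    rw [norm_neg, Complex.norm_conj]
    linarith
  have hsum : s + s' + ε ≤ 7 * δ := by nlinarith
  by_cases hc : s < 4 * ε ^ 2 ∧ s' < 4 * ε ^ 2
  · -- the first alternative
    obtain ⟨c1, c2⟩ := hc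
    have hwb : w ≠ bb := by
      intro hh
      rw [hs'def, hh, sub_self, norm_zero] at hs'0
      linarith
    have hzw : sg (ε ^ 2) aa bb (sg (ε ^ 2) bb aa w) = w := sg_sg h2.ne' bb aa hwb
    have n1 : ‖sg (ε ^ 2) bb aa w - aa‖ = (ε ^ 2) ^ 2 / s' := by
      rw [norm_sg_sub]
    have n2 : ε ^ 2 / 4 < ‖sg (ε ^ 2) bb aa w - aa‖ := by
      rw [n1, lt_div_iff₀ (by linarith)]
      nlinarith
    have n3 : ‖sg (ε ^ 2) bb aa w - aa‖ ≤ ε ^ 2 := by
      rw [n1, div_le_iff₀ (by linarith)]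
      nlinarith
    have g1 := E.Zglue (sg (ε ^ 2) bb aa w) n2 (by linarith)
    have g2 := E.tglue (sg (ε ^ 2) bb aa w) n2 (by linarith)
    rw [hzw] at g1 g2
    have key : z = sg (ε ^ 2) bb aa w := by
      apply inj ε hε l1 Z t h₀ E z _ (by linarith) c1 n2 (by linarith)
      · exact add_right_cancel (hZ.trans g1.symm)
      · linarith
    refine ⟨le_antisymm ?_ hs0, ?_⟩
    · rw [hsdef, key]; exact n3
    · rw [key, hzw]
  · exfalso
    have hlog : Real.log 4 ≤ Real.log (s / ε ^ 2) + Real.log (s' / ε ^ 2) := by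
      have p1 : 1 ≤ s / ε ^ 2 := by rw [le_div_iff₀ h2]; linarith
      have p2 : 1 ≤ s' / ε ^ 2 := by rw [le_div_iff₀ h2]; linarith
      have q1 := Real.log_nonneg p1
      have q2 := Real.log_nonneg p2
      rw [not_and_or, not_lt, not_lt] at hc
      rcases hc with hc | hc
      · have : Real.log 4 ≤ Real.log (s / ε ^ 2) := by
          apply Real.log_le_log (by norm_num)
          rw [le_div_iff₀ h2]; linarith
        linarith
      · have : Real.log 4 ≤ Real.log (s' / ε ^ 2) := by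
          apply Real.log_le_log (by norm_num)
          rw [le_div_iff₀ h2]; linarith
        linarith
    rw [Real.log_div (by linarith) h2.ne', Real.log_div (by linarith) h2.ne'] at hlog
    have hlog4 : 1 < Real.log 4 := by
      rw [Real.lt_log_iff_exp_lt (by norm_num)]
      have := Real.exp_one_lt_d9
      linarith
    -- other distances
    have hzb : 1 - s ≤ ‖z - bb‖ := by
      have := norm_sub_norm_le (aa - bb) (aa - z)
      rw [norm_aa_sub_bb, norm_sub_rev aa z, show aa - bb - (aa - z) = z - bb by ring] at this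
      exact this
    have hwa : 1 - s' ≤ ‖w - aa‖ := by
      have := norm_sub_norm_le (bb - aa) (bb - w)
      rw [norm_bb_sub_aa, norm_sub_rev bb w, show bb - aa - (bb - w) = w - aa by ring] at this
      exact this
    have hs7 : s ≤ 7 * δ := by linarith
    have hs'7 : s' ≤ 7 * δ := by linarith
    have L1 := log_ge (by linarith) (by linarith) hzb
    have L2 := log_ge (by linarith) (by linarith) hwa
    have L3 : Real.log (1 + ε ^ 2) ≤ ε := by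
      have := Real.log_le_sub_one_of_pos (show (0 : ℝ) < 1 + ε ^ 2 by linarith)
      linarith
    have N1 := E.neart_a z hs0 (by linarith)
    have N2 := E.neart_b w hs'0 (by linarith)
    rw [abs_le] at N1 N2
    -- the sharp bound for the defect
    have D1 := E.lipZ z hz _ (mem_z0 hε (by linarith))
    have D2 := E.lipZ w hw _ (mem_w0 hε (by linarith))
    have D3 := E.neckZ (aa + ((ε ^ 2 : ℝ) : ℂ)) norm_z0_aa
    rw [sg_z0 hε] at D3
    have d1 : ‖z - (aa + ((ε ^ 2 : ℝ) : ℂ))‖ ≤ s + ε ^ 2 := by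
      rw [← sub_sub]
      refine (norm_sub_le _ _).trans ?_
      rw [Complex.norm_real, Real.norm_of_nonneg h2.le]
    have d2 : ‖w - (bb - ((ε ^ 2 : ℝ) : ℂ))‖ ≤ s' + ε ^ 2 := by
      rw [← sub_add]
      refine (norm_add_le _ _).trans ?_
      rw [Complex.norm_real, Real.norm_of_nonneg h2.le]
    have D4 : ‖DZ ε Z z + conj (DZ ε Z w)‖ ≤ C * ε ^ 4 + C * ε * (s + s' + 2 * ε ^ 2) := by
      have e : DZ ε Z z + conj (DZ ε Z w) = (DZ ε Z (aa + ((ε ^ 2 : ℝ) : ℂ))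
          + conj (DZ ε Z (bb - ((ε ^ 2 : ℝ) : ℂ))))
          + ((DZ ε Z z - DZ ε Z (aa + ((ε ^ 2 : ℝ) : ℂ)))
          + conj (DZ ε Z w - DZ ε Z (bb - ((ε ^ 2 : ℝ) : ℂ)))) := by
        rw [map_sub]; ring
      rw [e]
      refine (norm_add_le _ _).trans ?_
      refine add_le_add D3 ?_
      refine (norm_add_le _ _).trans ?_
      rw [Complex.norm_conj]
      have m1 : C * ε * ‖z - (aa + ((ε ^ 2 : ℝ) : ℂ))‖ ≤ C * ε * (s + ε ^ 2) := by gcongr
      have m2 : C * ε * ‖w - (bb - ((ε ^ 2 : ℝ) : ℂ))‖ ≤ C * ε * (s' + ε ^ 2) := by gcongr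
      linarith
    have F0 := defect_le ε Z z w hZ
    have q : ∀ x : ℝ, ε ^ 2 ≤ x → (ε ^ 2) ^ 2 / x ≤ ε ^ 2 := by
      intro x hx
      rw [div_le_iff₀ (by linarith)]
      nlinarith
    have a1 := q _ hz.2.1
    have a2 := q _ hz.2.2
    have a3 := q _ hw.2.1
    have a4 := q _ hw.2.2
    set F := ‖w - (2 - conj z)‖ with hF
    have F1 : F ≤ 4 * ε ^ 2 + C * ε ^ 4 + C * ε * (s + s' + 2 * ε ^ 2) := by linarith
    have T1 := tt_sum hz.1 hw.1
    have H1 := height ε t z w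
    have H2 := h0_eq hε E
    rw [ht] at H1
    -- assemble
    have G1 : ε * (TT z + TT w) ≤ ε * (4 / 3) + 56 * (ε * F) := by nlinarith
    have G2 : ε * F ≤ ε ^ 2 * ((C + 4 + 2 * C) * ε + C * (s + s')) := by
      have : ε * F ≤ ε * (4 * ε ^ 2 + C * ε ^ 4 + C * ε * (s + s' + 2 * ε ^ 2)) := by gcongr
      refine this.trans ?_
      have e : ε ^ 2 * ((C + 4 + 2 * C) * ε + C * (s + s'))
          - ε * (4 * ε ^ 2 + C * ε ^ 4 + C * ε * (s + s' + 2 * ε ^ 2))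
          = C * ε ^ 3 * (1 - ε ^ 2) + 2 * C * ε ^ 3 * (1 - ε) := by ring
      have : 0 ≤ C * ε ^ 3 * (1 - ε ^ 2) + 2 * C * ε ^ 3 * (1 - ε) := by
        have x1 : 0 ≤ 1 - ε ^ 2 := by linarith
        have x2 : 0 ≤ 1 - ε := by linarith
        positivity
      linarith
    -- `0 = h₀ - t z - t w ≥ ε² (2 log 4 - 400 C (s + s' + ε))`
    have K : ε ^ 2 * (2 * Real.log 4) ≤ ε ^ 2 * (400 * C * (s + s' + ε)) := by
      have y1 : ε ^ 2 * (2 * Real.log 4) ≤ 2 * ε ^ 2 * (Real.log s + Real.log s')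
          - 4 * ε ^ 2 * Real.log (ε ^ 2) := by
        have := mul_le_mul_of_nonneg_left hlog h2.le
        linarith
      have y2 : 2 * ε ^ 2 * (-(2 * s)) ≤ 2 * ε ^ 2 * Real.log ‖z - bb‖ := by gcongr
      have y3 : 2 * ε ^ 2 * (-(2 * s')) ≤ 2 * ε ^ 2 * Real.log ‖w - aa‖ := by gcongr
      have y4 : 4 * ε ^ 2 * Real.log (1 + ε ^ 2) ≤ 4 * ε ^ 2 * ε := by gcongr
      have y5 : ε ^ 2 * (2 * Real.log 4) ≤ 56 * (ε ^ 2 * ((C + 4 + 2 * C) * ε + C * (s + s')))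
          + 4 * ε ^ 2 * ε + 4 * ε ^ 2 * (s + s') + C * ε ^ 2 * (s + ε) + C * ε ^ 2 * (s' + ε) := by
        linarith
      refine y5.trans ?_
      have e : ε ^ 2 * (400 * C * (s + s' + ε)) -
          (56 * (ε ^ 2 * ((C + 4 + 2 * C) * ε + C * (s + s')))
          + 4 * ε ^ 2 * ε + 4 * ε ^ 2 * (s + s') + C * ε ^ 2 * (s + ε) + C * ε ^ 2 * (s' + ε))
          = ε ^ 2 * ((343 * C - 4) * (s + s') + (230 * C - 228) * ε) := by ring
      have : 0 ≤ ε ^ 2 * ((343 * C - 4) * (s + s') + (230 * C - 228) * ε) := by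
        have x1 : 0 ≤ 343 * C - 4 := by linarith
        have x2 : 0 ≤ 230 * C - 228 := by linarith
        have x3 : 0 ≤ s + s' := by linarith
        positivity
      linarith
    have K2 := le_of_mul_le_mul_left K h2
    have : 400 * C * (s + s' + ε) ≤ 400 * C * (7 * δ) := by gcongr
    nlinarith

theorem far {C : ℝ} (hC : 1 ≤ C) {δ : ℝ} (hδ : 0 < δ) :
    ∃ ε₀ > 0, ∀ ε : ℝ, 0 < ε → ε < ε₀ → ∀ Z t h₀, Est C ε Z t h₀ →
      ∀ z ∈ WW ε, ∀ w ∈ WW ε, Z z + conj (Z w) = 2 → t z + t w = h₀ → δ ≤ ‖z - aa‖ →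
        δ ≤ ‖z - bb‖ → δ ≤ ‖w - aa‖ → δ ≤ ‖w - bb‖ → False := by
  set M : ℝ := 56 * (2 * C + 4) + 5 + 4 * C + 8 * |Real.log δ| with hM
  have hM0 : 0 < M := by positivity
  have hMδ : 56 * (2 * C + 4) + 5 + 4 * C - 8 * Real.log δ ≤ M := by
    have := neg_abs_le (Real.log δ)
    linarith
  refine ⟨min (1 / 2) (Real.exp (-M)), lt_min (by norm_num) (Real.exp_pos _), ?_⟩
  intro ε hε hlt Z t h₀ E z hz w hw hZ ht d1 d2 d3 d4
  rw [lt_min_iff] at hlt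
  obtain ⟨l1, l2⟩ := hlt
  have h2 : 0 < ε ^ 2 := by positivity
  have hrε : ε ^ 2 ≤ ε := by nlinarith
  have crude := defect_crude hε (by linarith) E hz hw hZ
  have T1 := tt_sum hz.1 hw.1
  have H1 := height ε t z w
  have H2 := h0_eq hε E
  rw [ht] at H1
  have B1 := E.bdt z hz
  have B2 := E.bdt w hw
  have B3 := E.bdt _ (mem_z0 hε l1.le)
  have B4 := E.bdt _ (mem_w0 hε l1.le)
  rw [abs_le] at B1 B2 B3 B4
  have L1 := Real.log_le_log hδ d1
  have L2 := Real.log_le_log hδ d2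
  have L3 := Real.log_le_log hδ d3
  have L4 := Real.log_le_log hδ d4
  have L5 : Real.log (1 + ε ^ 2) ≤ 1 := by
    have := Real.log_le_sub_one_of_pos (show (0 : ℝ) < 1 + ε ^ 2 by linarith)
    linarith
  have L6 : Real.log (ε ^ 2) ≤ -M := by
    rw [Real.log_le_iff_le_exp h2]
    linarith
  have G1 : ε * (TT z + TT w) ≤ ε * (4 / 3) + 56 * ((2 * C + 4) * ε ^ 2) := by
    have h5 : TT z + TT w ≤ 4 / 3 + 56 * ((2 * C + 4) * ε) := by linarith
    have := mul_le_mul_of_nonneg_left h5 hε.le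
    linarith
  have y1 : 2 * ε ^ 2 * (4 * Real.log δ) ≤ 2 * ε ^ 2 * (Real.log ‖z - aa‖ + Real.log ‖z - bb‖
      + Real.log ‖w - aa‖ + Real.log ‖w - bb‖) := by
    apply mul_le_mul_of_nonneg_left _ (by positivity)
    linarith
  have y2 : 4 * ε ^ 2 * Real.log (ε ^ 2) ≤ 4 * ε ^ 2 * (-M) := by gcongr
  have y3 : 4 * ε ^ 2 * Real.log (1 + ε ^ 2) ≤ 4 * ε ^ 2 * 1 := by gcongr
  have y4 : ε ^ 2 * (56 * (2 * C + 4) + 5 + 4 * C - 8 * Real.log δ) ≤ ε ^ 2 * M := by gcongr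
  have K : ε ^ 2 * (4 * M) ≤ ε ^ 2 * (M - 1) := by
    generalize Dt ε t z = x1 at *
    generalize Dt ε t w = x2 at *
    generalize Dt ε t (aa + ((ε ^ 2 : ℝ) : ℂ)) = x3 at *
    generalize Dt ε t (bb - ((ε ^ 2 : ℝ) : ℂ)) = x4 at *
    linarith [B1.1, B1.2, B2.1, B2.2, B3.1, B3.2, B4.1, B4.2]
  have K2 := le_of_mul_le_mul_left K h2
  linarith

end Gap

theorem gap_of_est (C : ℝ) : ∃ ε₀ > 0, ∀ ε : ℝ, 0 < ε → ε < ε₀ → ∀ Z t h₀, Est C ε Z t h₀ →
    ∀ z ∈ WW ε, ∀ w ∈ WW ε, Z z + conj (Z w) = 2 → t z + t w = h₀ →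
      (‖z - aa‖ = ε ^ 2 ∧ w = sg (ε ^ 2) aa bb z) ∨
      (‖w - aa‖ = ε ^ 2 ∧ z = sg (ε ^ 2) aa bb w) := by
  obtain ⟨e1, he1, inj⟩ := inj_annulus (max C 1)
  have hC : 1 ≤ max C 1 := le_max_right _ _
  obtain ⟨δ, hδ, e2, he2, nr⟩ := Gap.near hC he1 inj
  obtain ⟨e3, he3, fr⟩ := Gap.far hC hδ
  refine ⟨min (min e2 e3) (min (1 / 2) (δ / (2 * max C 1 + 4))), by positivity, ?_⟩
  intro ε hε hlt Z t h₀ E z hz w hw hZ ht
  simp only [lt_min_iff] at hlt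
  obtain ⟨⟨l2, l3⟩, l4, l5⟩ := hlt
  replace E := Gap.Est_mono (le_max_left C 1) hε E
  have hZ' : Z w + conj (Z z) = 2 := by
    have := congrArg conj hZ
    rw [map_add, Complex.conj_conj, Complex.conj_ofNat] at this
    rw [← this, add_comm]
  have ht' : t w + t z = h₀ := by rw [add_comm]; exact ht
  have c1 := Gap.defect_crude hε l4.le E hz hw hZ
  have hsm : (2 * max C 1 + 4) * ε ≤ δ := by
    rw [lt_div_iff₀ (by positivity)] at l5
    linarith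
  have e1 : ‖z - aa‖ ≤ ‖w - bb‖ + δ := by
    have e : z - aa = -conj (w - bb) + conj (w - (2 - conj z)) := by
      simp only [map_sub, conj_bb, Complex.conj_conj, Complex.conj_ofNat]
      linear_combination (-1 : ℂ) * aa_add_bb
    rw [e]
    refine (norm_add_le _ _).trans ?_
    rw [norm_neg, Complex.norm_conj, Complex.norm_conj]
    linarith
  have e1' : ‖z - bb‖ ≤ ‖w - aa‖ + δ := by
    have e : z - bb = -conj (w - aa) + conj (w - (2 - conj z)) := by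
      simp only [map_sub, conj_aa, Complex.conj_conj, Complex.conj_ofNat]
      linear_combination (-1 : ℂ) * aa_add_bb
    rw [e]
    refine (norm_add_le _ _).trans ?_
    rw [norm_neg, Complex.norm_conj, Complex.norm_conj]
    linarith
  have e2 : ‖w - aa‖ ≤ ‖z - bb‖ + δ := by
    have e : w - aa = -conj (z - bb) + (w - (2 - conj z)) := by
      simp only [map_sub, conj_bb]
      linear_combination (-1 : ℂ) * aa_add_bb
    rw [e]
    refine (norm_add_le _ _).trans ?_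
    rw [norm_neg, Complex.norm_conj]
    linarith
  by_cases hA : ‖z - aa‖ ≤ 3 * δ
  · exact Or.inl (nr ε hε l2 Z t h₀ E z hz w hw hZ ht hA)
  by_cases hB : ‖w - aa‖ ≤ 3 * δ
  · exact Or.inr (nr ε hε l2 Z t h₀ E w hw z hz hZ' ht' hB)
  exfalso
  push Not at hA hB
  exact fr ε hε l3 Z t h₀ E z hz w hw hZ ht (by linarith) (by linarith) (by linarith)
    (by linarith)

end Pool.Agent.MP_49383f_gt
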