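import Pool.Agent.MP_49383f_gt.Basic

/-!
# MP_49383f_gt, module G08: injectivity of the parametrisation
-/

namespace Pool.Agent.MP_49383f_gt

open scoped ContDiff ComplexConjugate
open MeasureTheory Metric Set

namespace Inj

/-- difference of the inverse conjugates -/
theorem inv_conj_sub {r : ℝ} {u v : ℂ} (hu : u ≠ 0) (hv : v ≠ 0) :
    ‖(r : ℂ) ^ 2 / conj u - (r : ℂ) ^ 2 / conj v‖ = r ^ 2 / (‖u‖ * ‖v‖) * ‖u - v‖ := by
  have hu' : conj u ≠ 0 := (map_ne_zero _).2 hu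
  have hv' : conj v ≠ 0 := (map_ne_zero _).2 hv
  have : (r : ℂ) ^ 2 / conj u - (r : ℂ) ^ 2 / conj v
      = (r : ℂ) ^ 2 * conj (v - u) / (conj u * conj v) := by
    rw [map_sub]; field_simp
  rw [this, norm_div, norm_mul, norm_mul, norm_pow, Complex.norm_conj, Complex.norm_conj,
    Complex.norm_conj, Complex.norm_real, Real.norm_eq_abs, sq_abs, norm_sub_rev v u]
  ring

/-- the algebraic core of the catenoid estimate -/
theorem cat_core {r : ℝ} (hr : 0 < r) {u v : ℂ} (hu : r / 4 < ‖u‖) (hu' : ‖u‖ < 4 * r)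
    (hv : r / 4 < ‖v‖) (hv' : ‖v‖ < 4 * r) {δ : ℝ}
    (h1 : ‖(u - v) + ((r : ℂ) ^ 2 / conj u - (r : ℂ) ^ 2 / conj v)‖ ≤ δ * ‖u - v‖)
    (h2 : |2 * r * (Real.log ‖u‖ - Real.log ‖v‖)| ≤ δ * ‖u - v‖) :
    ‖u - v‖ ≤ 72 * δ * ‖u - v‖ := by
  set s := ‖u‖ with hs
  set s' := ‖v‖ with hs'
  have s0 : 0 < s := by linarith
  have s0' : 0 < s' := by linarith
  have hu0 : u ≠ 0 := norm_pos_iff.1 s0
  have hv0 : v ≠ 0 := norm_pos_iff.1 s0'
  -- the radial difference
  have hlog : |s - s'| ≤ 2 * (δ * ‖u - v‖) := by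
    have key : ∀ x y : ℝ, 0 < x → 0 < y → x < 4 * r → y ≤ x →
        (x - y) / (4 * r) ≤ Real.log x - Real.log y := by
      intro x y hx hy hx4 hyx
      have := Real.log_le_sub_one_of_pos (show 0 < y / x by positivity)
      rw [Real.log_div hy.ne' hx.ne'] at this
      have h3 : (x - y) / (4 * r) ≤ (x - y) / x := by
        apply div_le_div_of_nonneg_left (by linarith) hx hx4.le
      have h4 : (x - y) / x = 1 - y / x := by field_simp
      linarith
    rw [abs_mul, abs_of_pos (by positivity : (0 : ℝ) < 2 * r)] at h2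
    rcases le_total s' s with h | h
    · have k := key s s' s0 s0' hu' h
      have hl : 0 ≤ Real.log s - Real.log s' := by
        have := Real.log_le_log s0' h
        linarith
      rw [abs_of_nonneg hl] at h2
      rw [abs_of_nonneg (by linarith)]
      have h5 : s - s' ≤ 4 * r * (Real.log s - Real.log s') := by
        rw [div_le_iff₀ (by positivity)] at k
        linarith
      linarith
    · have k := key s' s s0' s0 hv' h
      have hl : Real.log s - Real.log s' ≤ 0 := by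
        have := Real.log_le_log s0 h
        linarith
      rw [abs_of_nonpos hl] at h2
      rw [abs_of_nonpos (by linarith)]
      have h5 : s' - s ≤ 4 * r * (Real.log s' - Real.log s) := by
        rw [div_le_iff₀ (by positivity)] at k
        linarith
      linarith
  -- the directions
  set e : ℂ := u / (s : ℂ) with he
  set e' : ℂ := v / (s' : ℂ) with he'
  have sc : (s : ℂ) ≠ 0 := by exact_mod_cast s0.ne'
  have sc' : (s' : ℂ) ≠ 0 := by exact_mod_cast s0'.ne'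
  have ue : u = s * e := by rw [he]; field_simp
  have ve : v = s' * e' := by rw [he']; field_simp
  have ne : ‖e‖ = 1 := by
    rw [he, norm_div, Complex.norm_real, Real.norm_of_nonneg s0.le, ← hs, div_self s0.ne']
  have ne' : ‖e'‖ = 1 := by
    rw [he', norm_div, Complex.norm_real, Real.norm_of_nonneg s0'.le, ← hs', div_self s0'.ne']
  have cu : (r : ℂ) ^ 2 / conj u = ((r ^ 2 / s : ℝ) : ℂ) * e := by
    have : conj u * u = (s : ℂ) ^ 2 := by
      rw [mul_comm, Complex.mul_conj, Complex.normSq_eq_norm_sq, ← hs]; push_cast; ring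
    have hcu : conj u ≠ 0 := (map_ne_zero _).2 hu0
    rw [div_eq_iff hcu, he]
    push_cast
    field_simp
    linear_combination (-(r : ℂ) ^ 2) * this
  have cv : (r : ℂ) ^ 2 / conj v = ((r ^ 2 / s' : ℝ) : ℂ) * e' := by
    have : conj v * v = (s' : ℂ) ^ 2 := by
      rw [mul_comm, Complex.mul_conj, Complex.normSq_eq_norm_sq, ← hs']; push_cast; ring
    have hcu : conj v ≠ 0 := (map_ne_zero _).2 hv0
    rw [div_eq_iff hcu, he']
    push_cast
    field_simp
    linear_combination (-(r : ℂ) ^ 2) * this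
  have hP : (u - v) + ((r : ℂ) ^ 2 / conj u - (r : ℂ) ^ 2 / conj v)
      = ((s + r ^ 2 / s : ℝ) : ℂ) * (e - e')
        + (((s + r ^ 2 / s) - (s' + r ^ 2 / s') : ℝ) : ℂ) * e' := by
    rw [cu, cv]
    nth_rewrite 1 [ue]
    nth_rewrite 1 [ve]
    push_cast
    ring
  have hge : 2 * r ≤ s + r ^ 2 / s := by
    have h3 : s + r ^ 2 / s - 2 * r = (s - r) ^ 2 / s := by field_simp; ring
    have h4 : 0 ≤ (s - r) ^ 2 / s := by positivity
    linarith
  have hdiff : |(s + r ^ 2 / s) - (s' + r ^ 2 / s')| ≤ 17 * |s - s'| := by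
    have h3 : (s + r ^ 2 / s) - (s' + r ^ 2 / s') = (s - s') * (1 - r ^ 2 / (s * s')) := by
      field_simp; ring
    rw [h3, abs_mul, mul_comm]
    apply mul_le_mul_of_nonneg_right _ (abs_nonneg _)
    have h4 : r ^ 2 / (s * s') ≤ 16 := by
      rw [div_le_iff₀ (by positivity)]
      nlinarith [mul_pos (sub_pos.2 hu) (sub_pos.2 hv)]
    have h5 : 0 ≤ r ^ 2 / (s * s') := by positivity
    rw [abs_le]
    constructor <;> linarith
  have hee : 2 * r * ‖e - e'‖ ≤ δ * ‖u - v‖ + 17 * |s - s'| := by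
    have h3 : ‖((s + r ^ 2 / s : ℝ) : ℂ) * (e - e')‖ ≤ δ * ‖u - v‖ + 17 * |s - s'| := by
      have h4 : ((s + r ^ 2 / s : ℝ) : ℂ) * (e - e')
          = ((u - v) + ((r : ℂ) ^ 2 / conj u - (r : ℂ) ^ 2 / conj v))
            - (((s + r ^ 2 / s) - (s' + r ^ 2 / s') : ℝ) : ℂ) * e' := by rw [hP]; ring
      rw [h4]
      refine (norm_sub_le _ _).trans (add_le_add h1 ?_)
      rw [norm_mul, ne', mul_one, Complex.norm_real, Real.norm_eq_abs]
      exact hdiff
    rw [norm_mul, Complex.norm_real, Real.norm_of_nonneg (by positivity)] at h3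
    exact (mul_le_mul_of_nonneg_right hge (norm_nonneg _)).trans h3
  have huv : ‖u - v‖ ≤ |s - s'| + 4 * r * ‖e - e'‖ := by
    have h3 : u - v = ((s - s' : ℝ) : ℂ) * e + (s' : ℂ) * (e - e') := by
      nth_rewrite 1 [ue]
      nth_rewrite 1 [ve]
      push_cast; ring
    calc ‖u - v‖ = ‖((s - s' : ℝ) : ℂ) * e + (s' : ℂ) * (e - e')‖ := by rw [← h3]
      _ ≤ |s - s'| + s' * ‖e - e'‖ := by
          refine (norm_add_le _ _).trans ?_
          rw [norm_mul, norm_mul, ne, mul_one, Complex.norm_real, Complex.norm_real,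
            Real.norm_eq_abs, Real.norm_of_nonneg s0'.le]
      _ ≤ _ := by
          have := mul_le_mul_of_nonneg_right hv'.le (norm_nonneg (e - e'))
          linarith
  nlinarith

end Inj

open Inj

theorem inj_annulus (C : ℝ) : ∃ ε₀ > 0, ∀ ε : ℝ, 0 < ε → ε < ε₀ → ∀ Z t h₀, Est C ε Z t h₀ →
    ∀ z z' : ℂ, ε ^ 2 / 4 < ‖z - aa‖ → ‖z - aa‖ < 4 * ε ^ 2 → ε ^ 2 / 4 < ‖z' - aa‖ →
      ‖z' - aa‖ < 4 * ε ^ 2 → Z z = Z z' → t z = t z' → z = z' := by
  refine ⟨1 / (73 * (|C| + 1)), by positivity, ?_⟩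
  intro ε hε hlt Z t h₀ E z z' h1 h2 h3 h4 hZ ht
  have c1 := E.catZ z z' h1 h2 h3 h4
  have c2 := E.catt z z' h1 h2 h3 h4
  rw [hZ, sub_self, zero_sub, norm_neg] at c1
  rw [ht, sub_self, zero_add] at c2
  have e1 : z - z' = (z - aa) - (z' - aa) := by ring
  rw [e1] at c1 c2
  have hr : (0 : ℝ) < ε ^ 2 := by positivity
  have key := cat_core hr h1 h2 h3 h4 c1 c2
  by_contra hne
  have hpos : 0 < ‖(z - aa) - (z' - aa)‖ := by
    rw [← e1]; exact norm_pos_iff.2 (sub_ne_zero.2 hne)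
  have h5 : (1 : ℝ) ≤ 72 * (C * ε) := by
    by_contra h6
    push Not at h6
    nlinarith
  have h6 : ε * (73 * (|C| + 1)) < 1 := by
    rw [lt_div_iff₀ (by positivity)] at hlt
    exact hlt
  have h7 := le_abs_self C
  have h8 := abs_nonneg C
  nlinarith

theorem inj_of_est (C : ℝ) : ∃ ε₀ > 0, ∀ ε : ℝ, 0 < ε → ε < ε₀ → ∀ Z t h₀, Est C ε Z t h₀ →
    ∀ z ∈ WW ε, ∀ z' ∈ WW ε, Z z = Z z' → t z = t z' → z = z' := by
  obtain ⟨e1, he1, ann⟩ := inj_annulus C
  refine ⟨min e1 (1 / (11 * (|C| + 1))), by positivity, ?_⟩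
  intro ε hε hlt Z t h₀ E z hz z' hz' hZ ht
  obtain ⟨lt1, lt2⟩ := lt_min_iff.1 hlt
  have A := ann ε hε lt1 Z t h₀ E
  have hr : (0 : ℝ) < ε ^ 2 := by positivity
  have hc : ((ε ^ 2 : ℝ) : ℂ) ≠ 0 := by exact_mod_cast hr.ne'
  obtain ⟨hR, za, zb⟩ := hz
  obtain ⟨hR', za', zb'⟩ := hz'
  by_cases hA : ‖z - aa‖ * ‖z' - aa‖ < 4 * (ε ^ 2) ^ 2
  · -- both near `a`
    apply A z z' (by linarith) _ (by linarith) _ hZ ht
    · by_contra h; push Not at h; nlinarith
    · by_contra h; push Not at h; nlinarith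
  by_cases hB : ‖z - bb‖ * ‖z' - bb‖ < 4 * (ε ^ 2) ^ 2
  · -- both near `b`
    have n1 : ‖z - bb‖ < 4 * ε ^ 2 := by
      by_contra h; push Not at h; nlinarith
    have n2 : ‖z' - bb‖ < 4 * ε ^ 2 := by
      by_contra h; push Not at h; nlinarith
    have zb0 : z ≠ bb := by
      intro h; rw [h, sub_self, norm_zero] at zb; linarith
    have zb0' : z' ≠ bb := by
      intro h; rw [h, sub_self, norm_zero] at zb'; linarith
    set w := sg (ε ^ 2) bb aa z with hw
    set w' := sg (ε ^ 2) bb aa z' with hw'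
    have back : sg (ε ^ 2) aa bb w = z := sg_sg hr.ne' bb aa zb0
    have back' : sg (ε ^ 2) aa bb w' = z' := sg_sg hr.ne' bb aa zb0'
    have nw : ‖w - aa‖ = (ε ^ 2) ^ 2 / ‖z - bb‖ := norm_sg_sub bb aa z
    have nw' : ‖w' - aa‖ = (ε ^ 2) ^ 2 / ‖z' - bb‖ := norm_sg_sub bb aa z'
    have bd : ∀ x : ℝ, ε ^ 2 ≤ x → x < 4 * ε ^ 2 →
        ε ^ 2 / 4 < (ε ^ 2) ^ 2 / x ∧ (ε ^ 2) ^ 2 / x < 4 * ε ^ 2 := by
      intro x hx hx4
      have x0 : 0 < x := by linarith
      constructor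
      · rw [lt_div_iff₀ x0]; nlinarith
      · rw [div_lt_iff₀ x0]; nlinarith
    obtain ⟨b1, b2⟩ := bd _ zb n1
    obtain ⟨b1', b2'⟩ := bd _ zb' n2
    rw [← nw] at b1 b2
    rw [← nw'] at b1' b2'
    have g1 := E.Zglue w b1 b2
    have g1' := E.Zglue w' b1' b2'
    have g2 := E.tglue w b1 b2
    have g2' := E.tglue w' b1' b2'
    rw [back] at g1 g2
    rw [back'] at g1' g2'
    have hww : w = w' := by
      apply A w w' b1 b2 b1' b2'
      · have : Z w + conj (Z z) = Z w' + conj (Z z') := by rw [g1, g1']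
        rw [hZ] at this
        exact add_right_cancel this
      · linarith
    rw [← back, hww, back']
  · -- the generic case
    push Not at hA hB
    have za0 : z - aa ≠ 0 := norm_pos_iff.1 (by linarith)
    have za0' : z' - aa ≠ 0 := norm_pos_iff.1 (by linarith)
    have zb0 : z - bb ≠ 0 := norm_pos_iff.1 (by linarith)
    have zb0' : z' - bb ≠ 0 := norm_pos_iff.1 (by linarith)
    have k1 := inv_conj_sub (r := ε ^ 2) za0 za0'
    have k2 := inv_conj_sub (r := ε ^ 2) zb0 zb0'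
    have l1 := E.lipZ z ⟨hR, za, zb⟩ z' ⟨hR', za', zb'⟩
    have q1 : (ε ^ 2) ^ 2 / (‖z - aa‖ * ‖z' - aa‖) ≤ 1 / 4 := by
      rw [div_le_iff₀ (by nlinarith)]; linarith
    have q2 : (ε ^ 2) ^ 2 / (‖z - bb‖ * ‖z' - bb‖) ≤ 1 / 4 := by
      rw [div_le_iff₀ (by nlinarith)]; linarith
    have e1 : (z - aa) - (z' - aa) = z - z' := by ring
    have e2 : (z - bb) - (z' - bb) = z - z' := by ring
    rw [e1] at k1
    rw [e2] at k2
    have eq : z - z' = -(DZ ε Z z - DZ ε Z z')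
        - (((ε ^ 2 : ℝ) : ℂ) ^ 2 / conj (z - aa) - ((ε ^ 2 : ℝ) : ℂ) ^ 2 / conj (z' - aa))
        - (((ε ^ 2 : ℝ) : ℂ) ^ 2 / conj (z - bb) - ((ε ^ 2 : ℝ) : ℂ) ^ 2 / conj (z' - bb)) := by
      simp only [DZ]
      rw [hZ]
      ring
    have n : ‖z - z'‖ ≤ C * ε * ‖z - z'‖ + 1 / 4 * ‖z - z'‖ + 1 / 4 * ‖z - z'‖ := by
      calc ‖z - z'‖ = ‖-(DZ ε Z z - DZ ε Z z')
            - (((ε ^ 2 : ℝ) : ℂ) ^ 2 / conj (z - aa) - ((ε ^ 2 : ℝ) : ℂ) ^ 2 / conj (z' - aa))
            - (((ε ^ 2 : ℝ) : ℂ) ^ 2 / conj (z - bb)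
              - ((ε ^ 2 : ℝ) : ℂ) ^ 2 / conj (z' - bb))‖ := by rw [← eq]
        _ ≤ ‖DZ ε Z z - DZ ε Z z'‖
            + ‖((ε ^ 2 : ℝ) : ℂ) ^ 2 / conj (z - aa) - ((ε ^ 2 : ℝ) : ℂ) ^ 2 / conj (z' - aa)‖
            + ‖((ε ^ 2 : ℝ) : ℂ) ^ 2 / conj (z - bb)
              - ((ε ^ 2 : ℝ) : ℂ) ^ 2 / conj (z' - bb)‖ := by
            refine (norm_sub_le _ _).trans (add_le_add ?_ le_rfl)
            refine (norm_sub_le _ _).trans (add_le_add ?_ le_rfl)
            rw [norm_neg]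
        _ ≤ _ := by
            rw [k1, k2]
            have p1 := mul_le_mul_of_nonneg_right q1 (norm_nonneg (z - z'))
            have p2 := mul_le_mul_of_nonneg_right q2 (norm_nonneg (z - z'))
            linarith
    by_contra hne
    have hpos : 0 < ‖z - z'‖ := norm_pos_iff.2 (sub_ne_zero.2 hne)
    have h6 : ε * (11 * (|C| + 1)) < 1 := by
      rw [lt_div_iff₀ (by positivity)] at lt2
      exact lt2
    have h7 := le_abs_self C
    have h8 := abs_nonneg C
    have h5 : (1 : ℝ) / 2 ≤ C * ε := by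
      by_contra h9
      push Not at h9
      nlinarith
    nlinarith

end Pool.Agent.MP_49383f_gt
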