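import Pool.Agent.MP_49383f_gt.KFacts
import Pool.Agent.MP_49383f_gt.Inj
import Pool.Agent.MP_49383f_gt.Gap

/-!
# MP_49383f_gt, module G18 : the normal field of the surface
-/

namespace Pool.Agent.MP_49383f_gt

open scoped ContDiff ComplexConjugate
open MeasureTheory Metric Set

namespace NormalAux

theorem RL_continuous : Continuous RL := by
  unfold RL
  refine (PiLp.continuous_toLp 2 _).comp ?_
  refine continuous_pi fun i => ?_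
  fin_cases i <;> simp <;> fun_prop

theorem Nm_continuousOn {φ₁ φ₂ : ℂ → ℂ} {s : Set ℂ} (h1 : ContinuousOn φ₁ s)
    (h2 : ContinuousOn φ₂ s) (h0 : ∀ z ∈ s, φ₁ z ≠ 0) : ContinuousOn (Nm φ₁ φ₂) s := by
  unfold Nm
  have hd : ContinuousOn (fun z => (‖φ₁ z‖ ^ 2 + ‖φ₂ z‖ ^ 2)⁻¹) s := by
    refine ContinuousOn.inv₀ ((h1.norm.pow 2).add (h2.norm.pow 2)) ?_
    intro z hz
    have : 0 < ‖φ₁ z‖ := norm_pos_iff.2 (h0 z hz)
    positivity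
  have hp : ContinuousOn (fun z => -2 * φ₁ z * conj (φ₂ z)) s :=
    (continuousOn_const.mul h1).mul (Complex.continuous_conj.comp_continuousOn h2)
  refine hd.smul ?_
  refine (PiLp.continuous_toLp 2 _).comp_continuousOn ?_
  refine continuousOn_pi.2 fun i => ?_
  fin_cases i
  · exact Complex.continuous_re.comp_continuousOn hp
  · exact Complex.continuous_im.comp_continuousOn hp
  · exact (h1.norm.pow 2).sub (h2.norm.pow 2)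

/-- the gluing of the normals -/
theorem Nm_glue {ε C : ℝ} {φ₁ φ₂ : ℂ → ℂ} (hε : 0 < ε) (S : Core C ε φ₁ φ₂) {z : ℂ}
    (hz : ε ^ 2 / 8 < ‖z - aa‖) (hz' : ‖z - aa‖ < 8 * ε ^ 2) :
    Nm φ₁ φ₂ z = RL (Nm φ₁ φ₂ (sg (ε ^ 2) aa bb z)) := by
  have hr : 0 < ε ^ 2 := by positivity
  have g1 := S.glue₁ z hz hz'
  have g2 := S.glue₂ z hz hz'
  have hza : z - aa ≠ 0 := by
    intro h; rw [h, norm_zero] at hz; linarith
  have hrC : ((ε ^ 2 : ℝ) : ℂ) ≠ 0 := by exact_mod_cast hr.ne'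
  obtain ⟨c, hc⟩ : ∃ c : ℂ, c = ((ε ^ 2 : ℝ) : ℂ) / (z - aa) := ⟨_, rfl⟩
  rw [← hc] at g1 g2
  have hc0 : c ≠ 0 := by rw [hc]; exact div_ne_zero hrC hza
  have hcn : 0 < ‖c‖ := norm_pos_iff.2 hc0
  have hcc : c * conj c = ((‖c‖ ^ 2 : ℝ) : ℂ) := by
    rw [Complex.mul_conj, Complex.normSq_eq_norm_sq]
  obtain ⟨u, hu⟩ : ∃ u, u = φ₁ (sg (ε ^ 2) aa bb z) := ⟨_, rfl⟩
  obtain ⟨v, hv⟩ : ∃ v, v = φ₂ (sg (ε ^ 2) aa bb z) := ⟨_, rfl⟩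
  rw [← hu] at g2
  rw [← hv] at g1
  have n1 : ‖φ₁ z‖ ^ 2 = ‖c‖ ^ 2 * ‖v‖ ^ 2 := by rw [g1, norm_mul, mul_pow]
  have n2 : ‖φ₂ z‖ ^ 2 = ‖c‖ ^ 2 * ‖u‖ ^ 2 := by rw [g2, norm_neg, norm_mul, mul_pow]
  have hp : -2 * φ₁ z * conj (φ₂ z) = ((‖c‖ ^ 2 : ℝ) : ℂ) * -conj (-2 * u * conj v) := by
    rw [← hcc, g1, g2]
    simp only [map_neg, map_mul, Complex.conj_conj, map_ofNat]
    ring
  have hs : (‖φ₁ z‖ ^ 2 + ‖φ₂ z‖ ^ 2)⁻¹ = (‖c‖ ^ 2)⁻¹ * (‖u‖ ^ 2 + ‖v‖ ^ 2)⁻¹ := by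
    rw [n1, n2, ← mul_add, mul_inv, add_comm]
  have hcn2 : (‖c‖ ^ 2)⁻¹ * ‖c‖ ^ 2 = 1 := inv_mul_cancel₀ (by positivity)
  rw [Nm, Nm, hs, hp, n1, n2, ← hu, ← hv]
  ext i
  fin_cases i
  · simp only [RL, Fin.zero_eta, Fin.isValue, PiLp.smul_apply, smul_eq_mul, Matrix.cons_val_zero,
      Complex.re_ofReal_mul, Complex.neg_re, Complex.conj_re]
    linear_combination (-(‖u‖ ^ 2 + ‖v‖ ^ 2)⁻¹ * (-2 * u * conj v).re) * hcn2
  · simp only [RL, Fin.mk_one, Fin.isValue, PiLp.smul_apply, smul_eq_mul, Matrix.cons_val_one,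
      Matrix.cons_val_zero, Complex.im_ofReal_mul, Complex.neg_im, Complex.conj_im]
    linear_combination ((‖u‖ ^ 2 + ‖v‖ ^ 2)⁻¹ * (-2 * u * conj v).im) * hcn2
  · simp only [RL, Fin.reduceFinMk, Fin.isValue, PiLp.smul_apply, smul_eq_mul, Matrix.cons_val]
    linear_combination ((‖u‖ ^ 2 + ‖v‖ ^ 2)⁻¹ * (‖v‖ ^ 2 - ‖u‖ ^ 2)) * hcn2

/-- a map continuous after composition with a continuous map from a compact set is continuous on the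
image -/
theorem continuousOn_image {X : Type*} [TopologicalSpace X] {K : Set X} (hK : IsCompact K)
    {F : X → R3} (hF : ContinuousOn F K) {n : R3 → R3} (hn : ContinuousOn (n ∘ F) K) :
    ContinuousOn n (F '' K) := by
  rw [continuousOn_iff_isClosed]
  intro T hT
  refine ⟨F '' (K ∩ (n ∘ F) ⁻¹' T), ?_, ?_⟩
  · obtain ⟨U, hU, hU'⟩ := continuousOn_iff_isClosed.1 hn T hT
    have : K ∩ (n ∘ F) ⁻¹' T = K ∩ U := by
      rw [inter_comm, hU', inter_comm]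
    rw [this]
    exact ((hK.inter_right hU).image_of_continuousOn (hF.mono inter_subset_left)).isClosed
  · ext p
    constructor
    · rintro ⟨hp, z, hz, rfl⟩
      exact ⟨⟨z, ⟨hz, hp⟩, rfl⟩, ⟨z, hz, rfl⟩⟩
    · rintro ⟨⟨z, ⟨hz, hz'⟩, rfl⟩, -⟩
      exact ⟨hz', ⟨z, hz, rfl⟩⟩

end NormalAux

open NormalAux in
theorem exists_normal (C C' : ℝ) : ∃ ε₀ > 0, ∀ ε : ℝ, 0 < ε → ε < ε₀ → ∀ φ₁ φ₂ Z t h₀,
    Surf C ε φ₁ φ₂ Z t h₀ → Est C' ε Z t h₀ → ∃ n : R3 → R3, ContinuousOn n (SS ε Z t h₀) ∧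
      (∀ z ∈ KK ε t, n (Xm Z t z) = Nm φ₁ φ₂ z) ∧
      (∀ z ∈ KK ε t, n (RR h₀ (Xm Z t z)) = RL (Nm φ₁ φ₂ z)) := by
  classical
  obtain ⟨e1, he1, inj⟩ := inj_of_est C'
  obtain ⟨e2, he2, gap⟩ := gap_of_est C'
  obtain ⟨e3, he3, kf⟩ := KK_facts C C'
  have hC0 : 0 < |C| + 1 := by positivity
  refine ⟨min (min e1 e2) (min e3 (min 1 (1 / (4 * (|C| + 1))))), by positivity, ?_⟩
  intro ε hε hlt φ₁ φ₂ Z t h₀ S E
  simp only [lt_min_iff] at hlt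
  obtain ⟨⟨l1, l2⟩, l3, l4, l5⟩ := hlt
  obtain ⟨kW, kcomp, -, -, -, -, -⟩ := kf ε hε l3 φ₁ φ₂ Z t h₀ S E
  have hr : 0 < ε ^ 2 := by positivity
  have hinj := inj ε hε l1 Z t h₀ E
  have hgap := gap ε hε l2 Z t h₀ E
  have hKOm : KK ε t ⊆ Om ε := kW.trans (WW_subset_Om hε)
  have hKOm0 : KK ε t ⊆ Om0 ε := by
    intro z hz
    have h1 := kW hz
    have h2 := norm_le_of_mem_Rect h1.1
    exact ⟨by linarith, by linarith [h1.2.1], by linarith [h1.2.2]⟩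
  have hX : ContinuousOn (Xm Z t) (KK ε t) :=
    Xm_continuousOn (fun z hz => (S.dZ z (hKOm hz)).continuousAt.continuousWithinAt)
      (fun z hz => (S.dt z (hKOm hz)).continuousAt.continuousWithinAt)
  have hφ : ∀ z ∈ KK ε t, φ₁ z ≠ 0 := by
    intro z hz h0
    have h1 := kW hz
    have h2 := S.est₁ z (norm_le_of_mem_Rect h1.1) h1.2.1 h1.2.2
    rw [h0, zero_sub, norm_neg, norm_one] at h2
    have wa : ε ^ 2 / ‖z - aa‖ ≤ 1 := (div_le_one (hr.trans_le h1.2.1)).2 h1.2.1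
    have wb : ε ^ 2 / ‖z - bb‖ ≤ 1 := (div_le_one (hr.trans_le h1.2.2)).2 h1.2.2
    have wa0 : 0 ≤ ε ^ 2 / ‖z - aa‖ := by positivity
    have wb0 : 0 ≤ ε ^ 2 / ‖z - bb‖ := by positivity
    have h3 : ε ^ 2 + ε * (ε ^ 2 / ‖z - aa‖) + ε * (ε ^ 2 / ‖z - bb‖) ≤ 3 * ε := by nlinarith
    have h4 : 0 ≤ ε ^ 2 + ε * (ε ^ 2 / ‖z - aa‖) + ε * (ε ^ 2 / ‖z - bb‖) := by positivity
    have h5 : C * (ε ^ 2 + ε * (ε ^ 2 / ‖z - aa‖) + ε * (ε ^ 2 / ‖z - bb‖)) ≤ |C| * (3 * ε) := by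
      calc C * (ε ^ 2 + ε * (ε ^ 2 / ‖z - aa‖) + ε * (ε ^ 2 / ‖z - bb‖))
          ≤ |C| * (ε ^ 2 + ε * (ε ^ 2 / ‖z - aa‖) + ε * (ε ^ 2 / ‖z - bb‖)) :=
            mul_le_mul_of_nonneg_right (le_abs_self C) h4
        _ ≤ |C| * (3 * ε) := mul_le_mul_of_nonneg_left h3 (abs_nonneg C)
    rw [lt_div_iff₀ (by positivity)] at l5
    nlinarith [abs_nonneg C]
  have hN : ContinuousOn (Nm φ₁ φ₂) (KK ε t) :=
    Nm_continuousOn (S.smooth₁.continuousOn.mono hKOm0) (S.smooth₂.continuousOn.mono hKOm0) hφ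
  -- the normal field
  let n : R3 → R3 := fun p =>
    if h : ∃ z ∈ KK ε t, Xm Z t z = p then Nm φ₁ φ₂ h.choose
    else if h' : ∃ z ∈ KK ε t, RR h₀ (Xm Z t z) = p then RL (Nm φ₁ φ₂ h'.choose) else 0
  have n1 : ∀ z ∈ KK ε t, n (Xm Z t z) = Nm φ₁ φ₂ z := by
    intro z hz
    have h : ∃ z' ∈ KK ε t, Xm Z t z' = Xm Z t z := ⟨z, hz, rfl⟩
    have e : n (Xm Z t z) = Nm φ₁ φ₂ h.choose := dif_pos h
    have hs := h.choose_spec
    have h2 := Xm_eq_iff.1 hs.2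
    rw [e, hinj _ (kW hs.1) _ (kW hz) h2.1 h2.2]
  have n2 : ∀ z ∈ KK ε t, n (RR h₀ (Xm Z t z)) = RL (Nm φ₁ φ₂ z) := by
    intro z hz
    by_cases h : ∃ z' ∈ KK ε t, Xm Z t z' = RR h₀ (Xm Z t z)
    · obtain ⟨z', hz', e⟩ := h
      have e' := Xm_eq_RR_iff.1 e
      rw [← e, n1 z' hz']
      rcases hgap z' (kW hz') z (kW hz) e'.1 e'.2 with ⟨h1, h2⟩ | ⟨h1, h2⟩
      · rw [h2, Nm_glue hε S.toCore (by rw [h1]; linarith) (by rw [h1]; linarith)]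
      · rw [h2, Nm_glue hε S.toCore (z := z) (by rw [h1]; linarith) (by rw [h1]; linarith), RL_RL]
    · have h' : ∃ z' ∈ KK ε t, RR h₀ (Xm Z t z') = RR h₀ (Xm Z t z) := ⟨z, hz, rfl⟩
      have e : n (RR h₀ (Xm Z t z)) = RL (Nm φ₁ φ₂ h'.choose) := by
        show (if h : ∃ z' ∈ KK ε t, Xm Z t z' = RR h₀ (Xm Z t z) then Nm φ₁ φ₂ h.choose
          else if h' : ∃ z' ∈ KK ε t, RR h₀ (Xm Z t z') = RR h₀ (Xm Z t z) then
            RL (Nm φ₁ φ₂ h'.choose) else 0) = _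
        rw [dif_neg h, dif_pos h']
      have hs := h'.choose_spec
      have h2 : Xm Z t h'.choose = Xm Z t z := by
        rw [← RR_RR h₀ (Xm Z t h'.choose), hs.2, RR_RR]
      have h3 := Xm_eq_iff.1 h2
      rw [e, hinj _ (kW hs.1) _ (kW hz) h3.1 h3.2]
  refine ⟨n, ?_, n1, n2⟩
  have c1 : ContinuousOn n (Xm Z t '' KK ε t) :=
    continuousOn_image kcomp hX (hN.congr n1)
  have hRX : ContinuousOn (fun z => RR h₀ (Xm Z t z)) (KK ε t) :=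
    (RR_continuous h₀).comp_continuousOn hX
  have c2 : ContinuousOn n (RR h₀ '' (Xm Z t '' KK ε t)) := by
    rw [← image_comp]
    exact continuousOn_image kcomp hRX ((RL_continuous.comp_continuousOn hN).congr n2)
  have cl1 : IsClosed (Xm Z t '' KK ε t) := (kcomp.image_of_continuousOn hX).isClosed
  have cl2 : IsClosed (RR h₀ '' (Xm Z t '' KK ε t)) :=
    ((kcomp.image_of_continuousOn hX).image (RR_continuous h₀)).isClosed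
  exact c1.union_of_isClosed c2 cl1 cl2

end Pool.Agent.MP_49383f_gt
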