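import Mathlib

/-!
# MP_49383f_gt, module G19 : a purely topological lemma

On an annulus `A ≃ₜ S¹ × [0,1]` there are no two non-vanishing functions `f, g` and two loops
`α, β` such that `f, g` have winding numbers `1, 0` along `α` and `g` has winding number `1`
along `β`.
-/

namespace Pool.Agent.MP_49383f_gt

open Set

namespace NoAnnulus

/-- continuous logarithm on a simply connected space -/
theorem exists_log {X : Type*} [TopologicalSpace X] [LocallyPathConnectedSpace X]
    [SimplyConnectedSpace X] {f : X → ℂ} (hf : Continuous f) (h0 : ∀ x, f x ≠ 0) :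
    ∃ F : X → ℂ, Continuous F ∧ ∀ x, Complex.exp (F x) = f x := by
  obtain ⟨x₀⟩ : Nonempty X := inferInstance
  obtain ⟨F, ⟨-, hF⟩, -⟩ := Complex.isCoveringMapOn_exp.existsUnique_continuousMap_lifts
    ⟨f, hf⟩ (Complex.exp_log (h0 x₀)) h0
  exact ⟨F, map_continuous F, fun x => congrFun hF x⟩

/-- two continuous logarithms of the same function differ by a constant -/
theorem exists_int {X : Type*} [TopologicalSpace X] [PreconnectedSpace X] {u v : X → ℂ}
    (hu : Continuous u) (hv : Continuous v) (h : ∀ x, Complex.exp (u x) = Complex.exp (v x)) :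
    ∃ n : ℤ, ∀ x, u x = v x + n * (2 * Real.pi * Complex.I) := by
  by_cases hX : Nonempty X
  swap
  · exact ⟨0, fun x => (hX ⟨x⟩).elim⟩
  obtain ⟨x₀⟩ := hX
  have key : ∀ x, ∃ n : ℤ, u x = v x + n * (2 * Real.pi * Complex.I) := fun x =>
    Complex.exp_eq_exp_iff_exists_int.1 (h x)
  choose n hn using key
  have hpi : (2 * Real.pi * Complex.I : ℂ) ≠ 0 := Complex.two_pi_I_ne_zero
  have hcast : Continuous fun x => ((n x : ℤ) : ℂ) := by
    have : (fun x => ((n x : ℤ) : ℂ)) = fun x => (u x - v x) / (2 * Real.pi * Complex.I) := by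
      funext x
      rw [hn x, eq_div_iff hpi]
      ring
    rw [this]
    exact (hu.sub hv).div_const _
  have hcont : Continuous n := by
    have h1 : Continuous fun x => ((n x : ℤ) : ℝ) := by
      have : (fun x => ((n x : ℤ) : ℝ)) = fun x => (((n x : ℤ) : ℂ)).re := by
        funext x; simp
      rw [this]
      exact Complex.continuous_re.comp hcast
    exact Int.isClosedEmbedding_coe_real.isEmbedding.continuous_iff.2 h1
  refine ⟨n x₀, fun x => ?_⟩
  rw [hn x, PreconnectedSpace.constant inferInstance hcont (x := x) (y := x₀)]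

/-- the universal cover of the annulus -/
noncomputable def cov (p : ℝ × ℝ) : Circle × unitInterval :=
  (Circle.exp p.1, projIcc 0 1 zero_le_one p.2)

theorem continuous_cov : Continuous cov := by
  unfold cov
  exact (Circle.exp.continuous.comp continuous_fst).prodMk
    (continuous_projIcc.comp continuous_snd)

/-- the loop `α` in the annulus lifts to a path in the cover; the deck transformation of the loop is
`k`; for any non-vanishing function `f` with winding number `m` along the core of the annulus, the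
logarithm of `f` along the loop increases by `m k (2 π i)`. -/
theorem exists_deck {A : Type*} [TopologicalSpace A] (e : A ≃ₜ Circle × unitInterval)
    {α : Circle → A} (hα : Continuous α) : ∃ (k : ℤ) (γ : ℝ → ℝ × ℝ), Continuous γ ∧
      (∀ t, cov (γ t) = e (α (Circle.exp t))) ∧
      γ (2 * Real.pi) = ((γ 0).1 + k * (2 * Real.pi), (γ 0).2) := by
  have hc : Continuous fun t : ℝ => e (α (Circle.exp t)) :=
    e.continuous.comp (hα.comp Circle.exp.continuous)
  have hc1 : Continuous fun t : ℝ => (((e (α (Circle.exp t))).1 : Circle) : ℂ) :=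
    (continuous_subtype_val : Continuous ((↑) : Circle → ℂ)).comp (continuous_fst.comp hc)
  obtain ⟨Θ, hΘ, hΘe⟩ := exists_log hc1 (fun t => Circle.coe_ne_zero _)
  have hre : ∀ t, (Θ t).re = 0 := by
    intro t
    have h1 : ‖Complex.exp (Θ t)‖ = 1 := by rw [hΘe t]; exact Circle.norm_coe _
    rw [Complex.norm_exp] at h1
    exact Real.exp_eq_one_iff _ |>.1 h1
  have hexp : ∀ t, Circle.exp (Θ t).im = (e (α (Circle.exp t))).1 := by
    intro t
    apply Circle.ext
    rw [Circle.coe_exp, ← hΘe t]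
    congr 1
    apply Complex.ext
    · simp [hre t]
    · simp
  have hper : Circle.exp (2 * Real.pi) = Circle.exp 0 := by
    simp
  obtain ⟨k, hk⟩ : ∃ k : ℤ, (Θ (2 * Real.pi)).im = (Θ 0).im + k * (2 * Real.pi) := by
    have h1 : Circle.exp (Θ (2 * Real.pi)).im = Circle.exp (Θ 0).im := by
      rw [hexp, hexp, hper]
    exact Circle.exp_eq_exp.1 h1
  refine ⟨k, fun t => ((Θ t).im, ((e (α (Circle.exp t))).2 : ℝ)), ?_, ?_, ?_⟩
  · exact (Complex.continuous_im.comp hΘ).prodMk
      (continuous_subtype_val.comp (continuous_snd.comp hc))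
  · intro t
    rw [cov]
    simp only [hexp t]
    ext
    · rfl
    · simp
  · simp only [Prod.mk.injEq]
    exact ⟨hk, by rw [hper]⟩

/-- the logarithm of a non-vanishing function on the annulus, in the cover -/
theorem exists_wind {A : Type*} [TopologicalSpace A] (e : A ≃ₜ Circle × unitInterval)
    {f : A → ℂ} (hf : Continuous f) (hf0 : ∀ x, f x ≠ 0) :
    ∃ (m : ℤ) (F : ℝ × ℝ → ℂ), Continuous F ∧ (∀ p, Complex.exp (F p) = f (e.symm (cov p))) ∧
      ∀ (k : ℤ) (x y : ℝ), F (x + k * (2 * Real.pi), y) = F (x, y) +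
        (k * m : ℤ) * (2 * Real.pi * Complex.I) := by
  obtain ⟨F, hF, hFe⟩ := exists_log (f := fun p : ℝ × ℝ => f (e.symm (cov p)))
    (hf.comp (e.symm.continuous.comp continuous_cov)) (fun p => hf0 _)
  have hs : ∀ p : ℝ × ℝ, cov (p.1 + 2 * Real.pi, p.2) = cov p := by
    intro p
    simp only [cov, Circle.exp_add, Circle.exp_two_pi, mul_one]
  have hcs : Continuous fun p : ℝ × ℝ => F (p.1 + 2 * Real.pi, p.2) := by fun_prop
  obtain ⟨m, hm⟩ := exists_int hcs hF (fun p => by rw [hFe, hFe, hs])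
  refine ⟨m, F, hF, hFe, ?_⟩
  intro k
  induction k using Int.induction_on with
  | zero => intro x y; simp
  | succ i ih =>
    intro x y
    have h1 := hm (x + i * (2 * Real.pi), y)
    have h2 := ih x y
    push_cast at h2 ⊢
    rw [show x + ((i : ℝ) + 1) * (2 * Real.pi) = x + i * (2 * Real.pi) + 2 * Real.pi by ring]
    simp only at h1
    rw [h1, h2]
    ring
  | pred i ih =>
    intro x y
    have h1 := hm (x + (-(i : ℝ) - 1) * (2 * Real.pi), y)
    have h2 := ih x y
    push_cast at h2 ⊢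
    simp only at h1
    rw [show x + (-(i : ℝ) - 1) * (2 * Real.pi) + 2 * Real.pi = x + -(i : ℝ) * (2 * Real.pi) by ring,
      h2] at h1
    rw [← sub_eq_iff_eq_add] at h1
    rw [← h1]
    ring

/-- if `f` is close to a multiple of the identity along the loop, its winding number there is 1 -/
theorem wind_one {A : Type*} [TopologicalSpace A] (e : A ≃ₜ Circle × unitInterval)
    {f : A → ℂ} (hf : Continuous f) {m k : ℤ} {F : ℝ × ℝ → ℂ}
    (hF : Continuous F) (hFe : ∀ p, Complex.exp (F p) = f (e.symm (cov p)))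
    (hFm : ∀ (k : ℤ) (x y : ℝ), F (x + k * (2 * Real.pi), y) = F (x, y) +
        (k * m : ℤ) * (2 * Real.pi * Complex.I))
    {α : Circle → A} (hα : Continuous α) {γ : ℝ → ℝ × ℝ} (hγ : Continuous γ)
    (hγe : ∀ t, cov (γ t) = e (α (Circle.exp t)))
    (hγk : γ (2 * Real.pi) = ((γ 0).1 + k * (2 * Real.pi), (γ 0).2))
    {L : ℝ → ℂ} (hL : Continuous L) (hLe : ∀ t, Complex.exp (L t) = f (α (Circle.exp t))) :
    L (2 * Real.pi) - L 0 = (k * m : ℤ) * (2 * Real.pi * Complex.I) := by
  obtain ⟨n, hn⟩ := exists_int (hF.comp hγ) hL (fun t => by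
    rw [Function.comp, hFe, hγe, hLe, Homeomorph.symm_apply_apply])
  have h1 := hn (2 * Real.pi)
  have h2 := hn 0
  simp only [Function.comp] at h1 h2
  rw [hγk, hFm] at h1
  have h3 : ((γ 0).1, (γ 0).2) = γ 0 := rfl
  rw [h3, h2] at h1
  linear_combination -h1

theorem slit {ρ : ℝ} {z : ℂ} {ζ : Circle} (h : ‖z - ρ * (ζ : ℂ)‖ < ρ) :
    0 < ρ ∧ 0 < (z / (ρ * (ζ : ℂ))).re := by
  have hρ : 0 < ρ := (norm_nonneg _).trans_lt h
  refine ⟨hρ, ?_⟩
  have hζ : (ζ : ℂ) ≠ 0 := Circle.coe_ne_zero ζ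
  have hρ' : (ρ : ℂ) ≠ 0 := by exact_mod_cast hρ.ne'
  have h1 : ‖z / (ρ * (ζ : ℂ)) - 1‖ < 1 := by
    have : z / (ρ * (ζ : ℂ)) - 1 = (z - ρ * (ζ : ℂ)) / (ρ * (ζ : ℂ)) := by
      field_simp
    rw [this, norm_div, norm_mul, Circle.norm_coe, Complex.norm_real, Real.norm_of_nonneg hρ.le,
      mul_one, div_lt_one hρ]
    exact h
  have h2 := (Complex.abs_re_le_norm (z / (ρ * (ζ : ℂ)) - 1)).trans_lt h1
  rw [abs_lt] at h2
  simp only [Complex.sub_re, Complex.one_re] at h2
  linarith [h2.1]

/-- a continuous logarithm along a loop for a function close to a multiple of the identity -/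
theorem exists_L {φ : Circle → ℂ} (hφ : Continuous φ) {ρ : ℝ}
    (h : ∀ ζ, ‖φ ζ - ρ * (ζ : ℂ)‖ < ρ) :
    ∃ L : ℝ → ℂ, Continuous L ∧ (∀ t, Complex.exp (L t) = φ (Circle.exp t)) ∧
      L (2 * Real.pi) - L 0 = 2 * Real.pi * Complex.I := by
  have hρ : 0 < ρ := (slit (h 1)).1
  have hρ' : (ρ : ℂ) ≠ 0 := by exact_mod_cast hρ.ne'
  refine ⟨fun t => Real.log ρ + t * Complex.I +
    Complex.log (φ (Circle.exp t) / (ρ * (Circle.exp t : ℂ))), ?_, ?_, ?_⟩
  · have h1 : Continuous fun t : ℝ => φ (Circle.exp t) / (ρ * (Circle.exp t : ℂ)) := by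
      refine (hφ.comp Circle.exp.continuous).div₀
        (continuous_const.mul ((continuous_subtype_val : Continuous ((↑) : Circle → ℂ)).comp Circle.exp.continuous)) ?_
      intro t
      exact mul_ne_zero hρ' (Circle.coe_ne_zero _)
    refine Continuous.add (by fun_prop) ?_
    exact h1.clog (fun t => Or.inl (slit (h _)).2)
  · intro t
    have hne : φ (Circle.exp t) / (ρ * (Circle.exp t : ℂ)) ≠ 0 := by
      intro h0
      have := (slit (h (Circle.exp t))).2
      rw [h0] at this
      simp at this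
    have hζ : (Circle.exp t : ℂ) ≠ 0 := Circle.coe_ne_zero _
    rw [Complex.exp_add, Complex.exp_add, Complex.exp_log hne, ← Complex.ofReal_exp,
      Real.exp_log hρ, ← Circle.coe_exp]
    field_simp
  · have hper : Circle.exp (2 * Real.pi) = Circle.exp 0 := by
      simp
    simp only [hper]
    push_cast
    ring

end NoAnnulus

open NoAnnulus in
theorem no_annulus {A : Type*} [TopologicalSpace A] (e : A ≃ₜ Circle × unitInterval)
    {f g : A → ℂ} (hf : Continuous f) (hg : Continuous g) (hf0 : ∀ x, f x ≠ 0)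
    (hg0 : ∀ x, g x ≠ 0) {α β : Circle → A} (hα : Continuous α) (hβ : Continuous β) {ρ : ℝ}
    (h1 : ∀ ζ, ‖f (α ζ) - ρ * (ζ : ℂ)‖ < ρ) (h2 : ∀ ζ, 0 < (g (α ζ)).re)
    (h3 : ∀ ζ, (f (β ζ)).re < 0) (h4 : ∀ ζ, ‖g (β ζ) - ρ * (ζ : ℂ)‖ < ρ) : False := by
  obtain ⟨m, F, hF, hFe, hFm⟩ := exists_wind e hf hf0
  obtain ⟨n, G, hG, hGe, hGm⟩ := exists_wind e hg hg0
  obtain ⟨k, γ, hγ, hγe, hγk⟩ := exists_deck e hα
  obtain ⟨l, δ, hδ, hδe, hδk⟩ := exists_deck e hβ
  have hpi : (2 * Real.pi * Complex.I : ℂ) ≠ 0 := Complex.two_pi_I_ne_zero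
  -- winding number of `f` along `α` is `1`
  obtain ⟨L, hL, hLe, hL1⟩ := exists_L (hf.comp hα) h1
  have e1 := wind_one e hf hF hFe hFm hα hγ hγe hγk hL hLe
  rw [hL1] at e1
  have e1' : k * m = 1 := by
    have : ((k * m : ℤ) : ℂ) = 1 := by
      apply mul_right_cancel₀ hpi
      rw [← e1]; ring
    exact_mod_cast this
  -- winding number of `g` along `α` is `0`
  have hg1 : Continuous fun t : ℝ => g (α (Circle.exp t)) :=
    hg.comp (hα.comp Circle.exp.continuous)
  have hper : Circle.exp (2 * Real.pi) = Circle.exp 0 := by simp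
  have e2 := wind_one e hg hG hGe hGm hα hγ hγe hγk
    (L := fun t => Complex.log (g (α (Circle.exp t)))) (hg1.clog fun t => Or.inl (h2 _))
    (fun t => Complex.exp_log (hg0 _))
  simp only [hper, sub_self] at e2
  have e2' : k * n = 0 := by
    have : ((k * n : ℤ) : ℂ) = 0 := by
      have := e2.symm
      rcases mul_eq_zero.1 this with h | h
      · exact h
      · exact absurd h hpi
    exact_mod_cast this
  -- winding number of `g` along `β` is `1`
  obtain ⟨L', hL', hLe', hL1'⟩ := exists_L (hg.comp hβ) h4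
  have e3 := wind_one e hg hG hGe hGm hβ hδ hδe hδk hL' hLe'
  rw [hL1'] at e3
  have e3' : l * n = 1 := by
    have : ((l * n : ℤ) : ℂ) = 1 := by
      apply mul_right_cancel₀ hpi
      rw [← e3]; ring
    exact_mod_cast this
  rcases mul_eq_zero.1 e2' with h | h
  · rw [h, zero_mul] at e1'
    exact zero_ne_one e1'
  · rw [h, mul_zero] at e3'
    exact zero_ne_one e3'

end Pool.Agent.MP_49383f_gt
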