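import Pool.Agent.MP_49383f_gt.KFacts
import Pool.Agent.MP_49383f_gt.NoAnnulus

/-!
# MP_49383f_gt, module G20 : the surface is not an annulus
-/

namespace Pool.Agent.MP_49383f_gt

open scoped ContDiff ComplexConjugate
open MeasureTheory Metric Set

namespace NotAnnulusAux

theorem pl_continuous : Continuous pl := by
  have : pl = fun p : R3 => ((p 0 : ℝ) : ℂ) + ((p 1 : ℝ) : ℂ) * Complex.I := by
    funext p
    apply Complex.ext <;> simp [pl]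
  rw [this]
  fun_prop

theorem pl_RR (h₀ : ℝ) (Z : ℂ → ℂ) (t : ℂ → ℝ) (w : ℂ) :
    pl (RR h₀ (Xm Z t w)) = 2 - conj (Z w) := by
  apply Complex.ext
  · simp [pl, RR, Xm]
  · simp [pl, RR, Xm]

theorem norm_cat {r : ℝ} {u : ℂ} (hu : u ≠ 0) : ‖u‖ ≤ ‖u + (r : ℂ) ^ 2 / conj u‖ := by
  have hc : conj u ≠ 0 := (map_ne_zero _).2 hu
  have hn : 0 < ‖u‖ := norm_pos_iff.2 hu
  have e : u + (r : ℂ) ^ 2 / conj u = u * (((1 + r ^ 2 / ‖u‖ ^ 2 : ℝ)) : ℂ) := by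
    have h1 : u * conj u = ((‖u‖ ^ 2 : ℝ) : ℂ) := by
      rw [Complex.mul_conj, Complex.normSq_eq_norm_sq]
    have h2 : ((‖u‖ : ℝ) : ℂ) ≠ 0 := by exact_mod_cast hn.ne'
    push_cast at h1 ⊢
    field_simp
    linear_combination (r : ℂ) ^ 2 * (-h1)
  rw [e, norm_mul, Complex.norm_real, Real.norm_of_nonneg (by positivity)]
  have : 0 ≤ r ^ 2 / ‖u‖ ^ 2 := by positivity
  nlinarith

/-- the remaining term is small -/
theorem other_small {r s s' : ℝ} (hr : 0 < r) (hr' : r < 1 / 100) (hs : r ≤ s) (hs' : r ≤ s')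
    (hab : 1 ≤ s + s') : r ^ 2 / s' ≤ s / 8 := by
  have hs0 : 0 < s' := hr.trans_le hs'
  rw [div_le_iff₀ hs0]
  rcases le_total (1 / 2) s' with h | h
  · nlinarith
  · have h1 : 1 / 2 ≤ s := by linarith
    nlinarith

end NotAnnulusAux

open NotAnnulusAux in
theorem not_annulus (C C' : ℝ) : ∃ ε₀ > 0, ∀ ε : ℝ, 0 < ε → ε < ε₀ → ∀ φ₁ φ₂ Z t h₀,
    Surf C ε φ₁ φ₂ Z t h₀ → Est C' ε Z t h₀ →
      ¬ Nonempty (SS ε Z t h₀ ≃ₜ Circle × unitInterval) := by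
  obtain ⟨e3, he3, kf⟩ := KK_facts C C'
  refine ⟨min e3 (1 / (100 * (|C'| + 1))), by positivity, ?_⟩
  rintro ε hε hlt φ₁ φ₂ Z t h₀ S E ⟨e⟩
  simp only [lt_min_iff] at hlt
  obtain ⟨l3, l4⟩ := hlt
  obtain ⟨kW, kcomp, -, -, -, kneck, -⟩ := kf ε hε l3 φ₁ φ₂ Z t h₀ S E
  have hC0 : 0 ≤ |C'| := abs_nonneg _
  have hMe : (|C'| + 1) * ε < 1 / 100 := by
    rw [lt_div_iff₀ (by positivity)] at l4
    linarith
  have hCe : |C'| * ε < 1 / 100 := by nlinarith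
  have hε1 : ε < 1 / 100 := by nlinarith
  obtain ⟨r, hrdef⟩ : ∃ r, r = ε ^ 2 := ⟨_, rfl⟩
  have hr0 : 0 < r := by rw [hrdef]; positivity
  have hr1 : r < 1 / 100 := by rw [hrdef]; nlinarith
  have hrC : (r : ℂ) ≠ 0 := by exact_mod_cast hr0.ne'
  have hKOm : KK ε t ⊆ Om ε := kW.trans (WW_subset_Om hε)
  have hX : ContinuousOn (Xm Z t) (KK ε t) :=
    Xm_continuousOn (fun z hz => (S.dZ z (hKOm hz)).continuousAt.continuousWithinAt)
      (fun z hz => (S.dt z (hKOm hz)).continuousAt.continuousWithinAt)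
  rw [← hrdef] at kneck
  -- the base points
  have ma : ‖aa + (r : ℂ) - aa‖ = r := by
    rw [add_sub_cancel_left, Complex.norm_real, Real.norm_of_nonneg hr0.le]
  have mb : ‖bb - (r : ℂ) - bb‖ = r := by
    rw [sub_sub_cancel_left, norm_neg, Complex.norm_real, Real.norm_of_nonneg hr0.le]
  have ka := kneck _ (Or.inl ma)
  have kb := kneck _ (Or.inr mb)
  have hsg : sg r aa bb (aa + (r : ℂ)) = bb - r := by
    rw [sg, add_sub_cancel_left]
    field_simp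
  obtain ⟨D, hD⟩ : ∃ D, D = DZ ε Z (aa + (r : ℂ)) := ⟨_, rfl⟩
  have hDr : conj D = D := by
    have h1 := S.Zsymm _ (hKOm ka.1)
    have h2 : conj (aa + (r : ℂ)) = aa + r := by simp
    rw [h2] at h1
    rw [hD, DZ]
    simp only [map_sub, map_add, map_div₀, map_pow, Complex.conj_ofReal, conj_aa, conj_bb,
      ← h1]
  have hDn : ‖D‖ ≤ 1 / 100 := by
    have h1 := E.bdZ _ (kW ka.1)
    rw [← hD] at h1
    refine h1.trans (le_trans ?_ hCe.le)
    exact mul_le_mul_of_nonneg_right (le_abs_self _) hε.le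
  have hDb : ‖DZ ε Z (bb - (r : ℂ)) + D‖ ≤ r / 100 := by
    have h1 := E.neckZ (aa + (r : ℂ)) (by rw [ma, hrdef])
    rw [← hrdef, hsg, ← hD] at h1
    have h2 : DZ ε Z (bb - (r : ℂ)) + D = conj (D + conj (DZ ε Z (bb - (r : ℂ)))) := by
      rw [map_add, Complex.conj_conj, hDr, add_comm]
    rw [h2, Complex.norm_conj]
    refine h1.trans ?_
    have h3 : C' * ε ^ 4 ≤ |C'| * ε ^ 4 := mul_le_mul_of_nonneg_right (le_abs_self _) (by positivity)
    have h4 : |C'| * ε ^ 4 = (|C'| * ε) * ε * r := by rw [hrdef]; ring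
    have h5 : (|C'| * ε) * ε ≤ 1 / 100 := by nlinarith
    calc C' * ε ^ 4 ≤ (|C'| * ε) * ε * r := h3.trans_eq h4
      _ ≤ 1 / 100 * r := mul_le_mul_of_nonneg_right h5 hr0.le
      _ = r / 100 := by ring
  have hab : ∀ z : ℂ, 1 ≤ ‖z - aa‖ + ‖z - bb‖ := by
    intro z
    have : ‖bb - aa‖ ≤ ‖z - aa‖ + ‖z - bb‖ := by
      calc ‖bb - aa‖ = ‖(z - aa) - (z - bb)‖ := by congr 1; ring
        _ ≤ _ := norm_sub_le _ _
    rwa [norm_bb_sub_aa] at this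
  have lipZ : ∀ z ∈ KK ε t, ∀ z' ∈ KK ε t, ‖DZ ε Z z - DZ ε Z z'‖ ≤ 1 / 100 * ‖z - z'‖ := by
    intro z hz z' hz'
    refine (E.lipZ z (kW hz) z' (kW hz')).trans ?_
    refine mul_le_mul_of_nonneg_right (le_trans ?_ hCe.le) (norm_nonneg _)
    exact mul_le_mul_of_nonneg_right (le_abs_self _) hε.le
  -- expansion at the first neck
  have expa : ∀ z, Z z - (aa + D) = ((z - aa) + (r : ℂ) ^ 2 / conj (z - aa)) +
      ((r : ℂ) ^ 2 / conj (z - bb) + (DZ ε Z z - D)) := by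
    intro z
    rw [DZ, ← hrdef]; ring
  have expb : ∀ z, Z z - (bb - D) = ((z - bb) + (r : ℂ) ^ 2 / conj (z - bb)) +
      ((r : ℂ) ^ 2 / conj (z - aa) + (DZ ε Z z - DZ ε Z (bb - (r : ℂ))) +
        (DZ ε Z (bb - (r : ℂ)) + D)) := by
    intro z
    rw [DZ, ← hrdef]; ring
  have nrm : ∀ u : ℂ, ‖(r : ℂ) ^ 2 / conj u‖ = r ^ 2 / ‖u‖ := by
    intro u
    rw [norm_div, norm_pow, Complex.norm_real, Real.norm_of_nonneg hr0.le, Complex.norm_conj]
  have hKr : ∀ z ∈ KK ε t, r ≤ ‖z - aa‖ ∧ r ≤ ‖z - bb‖ := by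
    intro z hz
    rw [hrdef]
    exact ⟨hz.2.1, hz.2.2.1⟩
  have nea : ∀ z ∈ KK ε t, Z z - (aa + D) ≠ 0 := by
    intro z hz h0
    obtain ⟨ha, hb⟩ := hKr z hz
    have hza : z - aa ≠ 0 := by
      intro h; rw [h, norm_zero] at ha; linarith
    have h1 := norm_cat (r := r) hza
    have h2 : (z - aa) + (r : ℂ) ^ 2 / conj (z - aa) =
        -((r : ℂ) ^ 2 / conj (z - bb) + (DZ ε Z z - D)) := by
      rw [expa z] at h0
      linear_combination h0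
    rw [h2, norm_neg] at h1
    have h3 : ‖(r : ℂ) ^ 2 / conj (z - bb)‖ ≤ ‖z - aa‖ / 8 := by
      rw [nrm]
      exact other_small hr0 hr1 ha hb (hab z)
    have h4 : ‖DZ ε Z z - D‖ ≤ 1 / 100 * (2 * ‖z - aa‖) := by
      rw [hD]
      refine (lipZ z hz _ ka.1).trans (mul_le_mul_of_nonneg_left ?_ (by norm_num))
      calc ‖z - (aa + (r : ℂ))‖ = ‖(z - aa) - (r : ℂ)‖ := by congr 1; ring
        _ ≤ ‖z - aa‖ + ‖(r : ℂ)‖ := norm_sub_le _ _
        _ ≤ 2 * ‖z - aa‖ := by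
          rw [Complex.norm_real, Real.norm_of_nonneg hr0.le]; linarith
    have h5 := h1.trans (norm_add_le _ _)
    linarith
  have neb : ∀ z ∈ KK ε t, Z z - (bb - D) ≠ 0 := by
    intro z hz h0
    obtain ⟨ha, hb⟩ := hKr z hz
    have hzb : z - bb ≠ 0 := by
      intro h; rw [h, norm_zero] at hb; linarith
    have h1 := norm_cat (r := r) hzb
    have h2 : (z - bb) + (r : ℂ) ^ 2 / conj (z - bb) =
        -((r : ℂ) ^ 2 / conj (z - aa) + (DZ ε Z z - DZ ε Z (bb - (r : ℂ))) +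
          (DZ ε Z (bb - (r : ℂ)) + D)) := by
      rw [expb z] at h0
      linear_combination h0
    rw [h2, norm_neg] at h1
    have h3 : ‖(r : ℂ) ^ 2 / conj (z - aa)‖ ≤ ‖z - bb‖ / 8 := by
      rw [nrm]
      exact other_small hr0 hr1 hb ha (by linarith [hab z])
    have h4 : ‖DZ ε Z z - DZ ε Z (bb - (r : ℂ))‖ ≤ 1 / 100 * (2 * ‖z - bb‖) := by
      refine (lipZ z hz _ kb.1).trans (mul_le_mul_of_nonneg_left ?_ (by norm_num))
      calc ‖z - (bb - (r : ℂ))‖ = ‖(z - bb) + (r : ℂ)‖ := by congr 1; ring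
        _ ≤ ‖z - bb‖ + ‖(r : ℂ)‖ := norm_add_le _ _
        _ ≤ 2 * ‖z - bb‖ := by
          rw [Complex.norm_real, Real.norm_of_nonneg hr0.le]; linarith
    have h5 := h1.trans (norm_add₃_le (a := (r : ℂ) ^ 2 / conj (z - aa))
      (b := DZ ε Z z - DZ ε Z (bb - (r : ℂ))) (c := DZ ε Z (bb - (r : ℂ)) + D))
    linarith
  -- the loops
  have hza : ∀ ζ : Circle, ‖aa + (r : ℂ) * (ζ : ℂ) - aa‖ = r := by
    intro ζ
    rw [add_sub_cancel_left, norm_mul, Complex.norm_real, Real.norm_of_nonneg hr0.le,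
      Circle.norm_coe, mul_one]
  have hzb : ∀ ζ : Circle, ‖bb + (r : ℂ) * (ζ : ℂ) - bb‖ = r := by
    intro ζ
    rw [add_sub_cancel_left, norm_mul, Complex.norm_real, Real.norm_of_nonneg hr0.le,
      Circle.norm_coe, mul_one]
  have kza : ∀ ζ : Circle, aa + (r : ℂ) * (ζ : ℂ) ∈ KK ε t := fun ζ =>
    (kneck _ (Or.inl (hza ζ))).1
  have kzb : ∀ ζ : Circle, bb + (r : ℂ) * (ζ : ℂ) ∈ KK ε t := fun ζ =>
    (kneck _ (Or.inr (hzb ζ))).1
  have cat : ∀ ζ : Circle, (r : ℂ) * (ζ : ℂ) + (r : ℂ) ^ 2 / conj ((r : ℂ) * (ζ : ℂ)) =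
      (2 * r : ℝ) * (ζ : ℂ) := by
    intro ζ
    have h1 : (ζ : ℂ) ≠ 0 := Circle.coe_ne_zero ζ
    have h2 : (ζ : ℂ) * conj (ζ : ℂ) = 1 := by
      rw [Complex.mul_conj, Complex.normSq_eq_norm_sq, Circle.norm_coe]; simp
    have h3 : conj (ζ : ℂ) ≠ 0 := (map_ne_zero _).2 h1
    rw [map_mul, Complex.conj_ofReal]
    push_cast
    field_simp
    linear_combination (-1 : ℂ) * h2
  have ea : ∀ ζ : Circle, ‖(Z (aa + (r : ℂ) * (ζ : ℂ)) - (aa + D)) - (2 * r : ℝ) * (ζ : ℂ)‖ < 2 * r := by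
    intro ζ
    set z := aa + (r : ℂ) * (ζ : ℂ) with hz
    have h0 : z - aa = (r : ℂ) * (ζ : ℂ) := by rw [hz]; ring
    have h1 : (Z z - (aa + D)) - (2 * r : ℝ) * (ζ : ℂ) =
        (r : ℂ) ^ 2 / conj (z - bb) + (DZ ε Z z - D) := by
      rw [expa z, h0, cat ζ]; ring
    obtain ⟨ha, hb⟩ := hKr z (kza ζ)
    have h3 : ‖(r : ℂ) ^ 2 / conj (z - bb)‖ ≤ ‖z - aa‖ / 8 := by
      rw [nrm]
      exact other_small hr0 hr1 ha hb (hab z)
    have h4 : ‖DZ ε Z z - D‖ ≤ 1 / 100 * (2 * ‖z - aa‖) := by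
      rw [hD]
      refine (lipZ z (kza ζ) _ ka.1).trans (mul_le_mul_of_nonneg_left ?_ (by norm_num))
      calc ‖z - (aa + (r : ℂ))‖ = ‖(z - aa) - (r : ℂ)‖ := by congr 1; ring
        _ ≤ ‖z - aa‖ + ‖(r : ℂ)‖ := norm_sub_le _ _
        _ ≤ 2 * ‖z - aa‖ := by
          rw [Complex.norm_real, Real.norm_of_nonneg hr0.le]; linarith
    rw [h1]
    have h5 := norm_add_le ((r : ℂ) ^ 2 / conj (z - bb)) (DZ ε Z z - D)
    rw [hza ζ] at h3 h4
    linarith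
  have eb : ∀ ζ : Circle, ‖(Z (bb + (r : ℂ) * (ζ : ℂ)) - (bb - D)) - (2 * r : ℝ) * (ζ : ℂ)‖ < 2 * r := by
    intro ζ
    set z := bb + (r : ℂ) * (ζ : ℂ) with hz
    have h0 : z - bb = (r : ℂ) * (ζ : ℂ) := by rw [hz]; ring
    have h1 : (Z z - (bb - D)) - (2 * r : ℝ) * (ζ : ℂ) =
        (r : ℂ) ^ 2 / conj (z - aa) + (DZ ε Z z - DZ ε Z (bb - (r : ℂ))) +
          (DZ ε Z (bb - (r : ℂ)) + D) := by
      rw [expb z, h0, cat ζ]; ring
    obtain ⟨ha, hb⟩ := hKr z (kzb ζ)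
    have h3 : ‖(r : ℂ) ^ 2 / conj (z - aa)‖ ≤ ‖z - bb‖ / 8 := by
      rw [nrm]
      exact other_small hr0 hr1 hb ha (by linarith [hab z])
    have h4 : ‖DZ ε Z z - DZ ε Z (bb - (r : ℂ))‖ ≤ 1 / 100 * (2 * ‖z - bb‖) := by
      refine (lipZ z (kzb ζ) _ kb.1).trans (mul_le_mul_of_nonneg_left ?_ (by norm_num))
      calc ‖z - (bb - (r : ℂ))‖ = ‖(z - bb) + (r : ℂ)‖ := by congr 1; ring
        _ ≤ ‖z - bb‖ + ‖(r : ℂ)‖ := norm_add_le _ _
        _ ≤ 2 * ‖z - bb‖ := by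
          rw [Complex.norm_real, Real.norm_of_nonneg hr0.le]; linarith
    rw [h1]
    have h5 := norm_add₃_le (a := (r : ℂ) ^ 2 / conj (z - aa))
      (b := DZ ε Z z - DZ ε Z (bb - (r : ℂ))) (c := DZ ε Z (bb - (r : ℂ)) + D)
    rw [hzb ζ] at h3 h4
    linarith
  have n2 : ∀ ζ : Circle, ‖((2 * r : ℝ) : ℂ) * (ζ : ℂ)‖ = 2 * r := by
    intro ζ
    rw [norm_mul, Complex.norm_real, Real.norm_of_nonneg (by linarith), Circle.norm_coe, mul_one]
  -- the functions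
  have hSc : ∀ p ∈ SS ε Z t h₀, pl p - (aa + D) ≠ 0 ∧ pl p - (bb - D) ≠ 0 := by
    rintro p (⟨z, hz, rfl⟩ | ⟨_, ⟨z, hz, rfl⟩, rfl⟩)
    · rw [pl_Xm]
      exact ⟨nea z hz, neb z hz⟩
    · rw [pl_RR]
      have h1 : (2 : ℂ) - conj (Z z) - (aa + D) = -conj (Z z - (bb - D)) := by
        simp only [map_sub, conj_bb, hDr]
        linear_combination -aa_add_bb
      have h2 : (2 : ℂ) - conj (Z z) - (bb - D) = -conj (Z z - (aa + D)) := by
        simp only [map_sub, map_add, conj_aa, hDr]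
        linear_combination -aa_add_bb
      rw [h1, h2]
      exact ⟨neg_ne_zero.2 ((map_ne_zero _).2 (neb z hz)),
        neg_ne_zero.2 ((map_ne_zero _).2 (nea z hz))⟩
  have memS : ∀ z ∈ KK ε t, Xm Z t z ∈ SS ε Z t h₀ := fun z hz => Or.inl ⟨z, hz, rfl⟩
  have hα : Continuous fun ζ : Circle => (⟨Xm Z t (aa + (r : ℂ) * (ζ : ℂ)), memS _ (kza ζ)⟩ :
      SS ε Z t h₀) := by
    refine Continuous.subtype_mk ?_ _
    exact hX.comp_continuous (by fun_prop) kza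
  have hβ : Continuous fun ζ : Circle => (⟨Xm Z t (bb + (r : ℂ) * (ζ : ℂ)), memS _ (kzb ζ)⟩ :
      SS ε Z t h₀) := by
    refine Continuous.subtype_mk ?_ _
    exact hX.comp_continuous (by fun_prop) kzb
  have hdiff : (aa + D) - (bb - D) = 1 + 2 * D := by
    linear_combination aa_sub_bb
  refine no_annulus e (f := fun p => pl p - (aa + D)) (g := fun p => pl p - (bb - D))
    ((pl_continuous.comp continuous_subtype_val).sub continuous_const)
    ((pl_continuous.comp continuous_subtype_val).sub continuous_const)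
    (fun p => (hSc p p.2).1) (fun p => (hSc p p.2).2) hα hβ (ρ := 2 * r) ?_ ?_ ?_ ?_
  · intro ζ
    simp only [pl_Xm]
    exact ea ζ
  · intro ζ
    simp only [pl_Xm]
    set z := aa + (r : ℂ) * (ζ : ℂ)
    have h1 : Z z - (bb - D) - 1 = ((Z z - (aa + D)) - (2 * r : ℝ) * (ζ : ℂ)) +
        (2 * r : ℝ) * (ζ : ℂ) + 2 * D := by
      linear_combination hdiff
    have h2 : ‖Z z - (bb - D) - 1‖ < 1 := by
      rw [h1]
      refine (norm_add₃_le).trans_lt ?_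
      rw [n2, norm_mul, Complex.norm_ofNat]
      linarith [ea ζ]
    have h3 := (Complex.abs_re_le_norm _).trans_lt h2
    rw [abs_lt, Complex.sub_re, Complex.one_re] at h3
    linarith [h3.1]
  · intro ζ
    simp only [pl_Xm]
    set z := bb + (r : ℂ) * (ζ : ℂ)
    have h1 : Z z - (aa + D) + 1 = ((Z z - (bb - D)) - (2 * r : ℝ) * (ζ : ℂ)) +
        (2 * r : ℝ) * (ζ : ℂ) + (-(2 * D)) := by
      linear_combination -hdiff
    have h2 : ‖Z z - (aa + D) + 1‖ < 1 := by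
      rw [h1]
      refine (norm_add₃_le).trans_lt ?_
      rw [n2, norm_neg, norm_mul, Complex.norm_ofNat]
      linarith [eb ζ]
    have h3 := (Complex.abs_re_le_norm _).trans_lt h2
    rw [abs_lt, Complex.add_re, Complex.one_re] at h3
    linarith [h3.2]
  · intro ζ
    simp only [pl_Xm]
    exact eb ζ

end Pool.Agent.MP_49383f_gt
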