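import Pool.Agent.MP_49383f_gt.Primitive

/-!
# MP_49383f_gt, module G03: integration of the spinor equation
-/

namespace Pool.Agent.MP_49383f_gt

open scoped ContDiff ComplexConjugate
open MeasureTheory Metric Set

namespace SurfEx

@[simp] theorem dform_apply (α β u : ℂ) : dform α β u = α * u + β * conj u := by
  simp [dform]

@[simp] theorem reform_apply (α u : ℂ) : reform α u = 2 * (α * u).re := by
  simp [reform]

/-- symmetry of a bilinear map on `ℂ` -/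
theorem symm_of_one_I {F : Type*} [NormedAddCommGroup F] [NormedSpace ℝ F]
    (L : ℂ →L[ℝ] ℂ →L[ℝ] F) (h : L 1 Complex.I = L Complex.I 1) (u v : ℂ) : L u v = L v u := by
  have e : ∀ w : ℂ, w = w.re • (1 : ℂ) + w.im • Complex.I := fun w => by
    simp [Complex.real_smul]
  rw [e u, e v]
  simp only [map_add, map_smul, add_apply, smul_apply, h]
  simp only [smul_add, smul_smul]
  rw [mul_comm v.re u.re, mul_comm v.im u.im, mul_comm v.im u.re, mul_comm v.re u.im]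
  abel

theorem hasFDerivAt_dform {α β : ℂ → ℂ} {α' β' : ℂ →L[ℝ] ℂ} {z : ℂ} (hα : HasFDerivAt α α' z)
    (hβ : HasFDerivAt β β' z) :
    ∃ L : ℂ →L[ℝ] ℂ →L[ℝ] ℂ, HasFDerivAt (fun w => dform (α w) (β w)) L z ∧
      ∀ u v, L u v = α' u * v + β' u * conj v := by
  refine ⟨_, (hα.smul_const (ContinuousLinearMap.id ℝ ℂ)).add
    (hβ.smul_const (Complex.conjCLE : ℂ →L[ℝ] ℂ)), fun u v => ?_⟩
  simp

theorem hasFDerivAt_reform {α : ℂ → ℂ} {α' : ℂ →L[ℝ] ℂ} {z : ℂ} (hα : HasFDerivAt α α' z) :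
    ∃ L : ℂ →L[ℝ] ℂ →L[ℝ] ℝ, HasFDerivAt (fun w => reform (α w)) L z ∧
      ∀ u v, L u v = 2 * (α' u * v).re := by
  have h1 := hα.smul_const (ContinuousLinearMap.id ℝ ℂ)
  have h2 := ((ContinuousLinearMap.compL ℝ ℂ ℂ ℝ Complex.reCLM).hasFDerivAt.comp z h1).const_smul
    (2 : ℝ)
  exact ⟨_, h2, fun u v => by simp⟩

section closed

variable {C ε : ℝ} {φ₁ φ₂ : ℂ → ℂ}

/-- the form `dZ` -/
noncomputable def omZ (φ₁ φ₂ : ℂ → ℂ) (z : ℂ) : ℂ →L[ℝ] ℂ := dform (φ₁ z ^ 2) (-(conj (φ₂ z)) ^ 2)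

/-- the form `dt` -/
noncomputable def omt (φ₁ φ₂ : ℂ → ℂ) (z : ℂ) : ℂ →L[ℝ] ℝ := reform (φ₁ z * φ₂ z)

theorem diff₁ (h : Core C ε φ₁ φ₂) {z : ℂ} (hz : z ∈ Om0 ε) : DifferentiableAt ℝ φ₁ z :=
  (h.smooth₁.contDiffAt ((isOpen_Om0 ε).mem_nhds hz)).differentiableAt (by simp)

theorem diff₂ (h : Core C ε φ₁ φ₂) {z : ℂ} (hz : z ∈ Om0 ε) : DifferentiableAt ℝ φ₂ z :=
  (h.smooth₂.contDiffAt ((isOpen_Om0 ε).mem_nhds hz)).differentiableAt (by simp)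

theorem closedZ (h : Core C ε φ₁ φ₂) {z : ℂ} (hz : z ∈ Om0 ε) :
    DifferentiableAt ℝ (omZ φ₁ φ₂) z ∧
      ∀ u v, fderiv ℝ (omZ φ₁ φ₂) z u v = fderiv ℝ (omZ φ₁ φ₂) z v u := by
  have d1 := (diff₁ h hz).hasFDerivAt
  have d2 := (diff₂ h hz).hasFDerivAt
  have dα : HasFDerivAt (fun w => φ₁ w ^ 2) ((2 * φ₁ z) • fderiv ℝ φ₁ z) z := by
    have := d1.pow 2
    refine this.congr_fderiv ?_
    ext u; simp
  have dc : HasFDerivAt (fun w => conj (φ₂ w)) ((Complex.conjCLE : ℂ →L[ℝ] ℂ).comp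
      (fderiv ℝ φ₂ z)) z := (Complex.conjCLE : ℂ →L[ℝ] ℂ).hasFDerivAt.comp z d2
  have dβ : HasFDerivAt (fun w => -(conj (φ₂ w)) ^ 2)
      (-((2 * conj (φ₂ z)) • (Complex.conjCLE : ℂ →L[ℝ] ℂ).comp (fderiv ℝ φ₂ z))) z := by
    have := (dc.pow 2).neg
    refine this.congr_fderiv ?_
    ext u; simp
  obtain ⟨L, hL, hL'⟩ := hasFDerivAt_dform dα dβ
  have hL2 : HasFDerivAt (omZ φ₁ φ₂) L z := hL
  refine ⟨hL2.differentiableAt, ?_⟩
  rw [hL2.fderiv]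
  refine symm_of_one_I L ?_
  rw [hL', hL']
  have p1 := h.pde₁ z hz
  have p2 := h.pde₂ z hz
  set m : ℝ := ε * (‖φ₁ z‖ ^ 2 + ‖φ₂ z‖ ^ 2) with hm
  rw [dbar] at p1 p2
  have p2' := congrArg conj p2
  simp only [smul_eq_mul, map_mul, map_add, map_neg, Complex.conj_conj, Complex.conj_I,
    Complex.conj_ofReal, map_inv₀, map_ofNat] at p1 p2'
  simp only [smul_apply, neg_apply,
    ContinuousLinearMap.comp_apply, smul_eq_mul, ContinuousLinearEquiv.coe_coe,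
    Complex.conjCLE_apply, Complex.conj_I, map_one]
  linear_combination (4 * φ₁ z * Complex.I) * p1 + (4 * conj (φ₂ z) * Complex.I) * p2' +
    (- 2 * φ₁ z * fderiv ℝ φ₁ z Complex.I + 2 * conj (φ₂ z) *
      conj (fderiv ℝ φ₂ z Complex.I)) * Complex.I_sq

theorem closedt (h : Core C ε φ₁ φ₂) {z : ℂ} (hz : z ∈ Om0 ε) :
    DifferentiableAt ℝ (omt φ₁ φ₂) z ∧
      ∀ u v, fderiv ℝ (omt φ₁ φ₂) z u v = fderiv ℝ (omt φ₁ φ₂) z v u := by
  have d1 := (diff₁ h hz).hasFDerivAt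
  have d2 := (diff₂ h hz).hasFDerivAt
  obtain ⟨L, hL, hL'⟩ := hasFDerivAt_reform (d1.mul d2)
  have hL2 : HasFDerivAt (omt φ₁ φ₂) L z := hL
  refine ⟨hL2.differentiableAt, ?_⟩
  rw [hL2.fderiv]
  refine symm_of_one_I L ?_
  rw [hL', hL']
  have p1 := h.pde₁ z hz
  have p2 := h.pde₂ z hz
  set m : ℝ := ε * (‖φ₁ z‖ ^ 2 + ‖φ₂ z‖ ^ 2) with hm
  rw [dbar] at p1 p2
  simp only [smul_eq_mul] at p1 p2
  have n1 : φ₁ z * conj (φ₁ z) = ((‖φ₁ z‖ ^ 2 : ℝ) : ℂ) := by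
    rw [Complex.mul_conj, Complex.normSq_eq_norm_sq]
  have n2 : φ₂ z * conj (φ₂ z) = ((‖φ₂ z‖ ^ 2 : ℝ) : ℂ) := by
    rw [Complex.mul_conj, Complex.normSq_eq_norm_sq]
  have key : (φ₁ z * fderiv ℝ φ₂ z 1 + φ₂ z * fderiv ℝ φ₁ z 1) * Complex.I -
      (φ₁ z * fderiv ℝ φ₂ z Complex.I + φ₂ z * fderiv ℝ φ₁ z Complex.I) * 1 =
      ((2 * m * (‖φ₂ z‖ ^ 2 - ‖φ₁ z‖ ^ 2) : ℝ) : ℂ) * Complex.I := by
    push_cast at n1 n2 ⊢
    linear_combination (2 * φ₂ z * Complex.I) * p1 + (2 * φ₁ z * Complex.I) * p2 +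
      (-φ₁ z * fderiv ℝ φ₂ z Complex.I - φ₂ z * fderiv ℝ φ₁ z Complex.I) * Complex.I_sq
      + 2 * m * Complex.I * n2 - 2 * m * Complex.I * n1
  have key2 := congrArg Complex.re key
  rw [Complex.sub_re, Complex.re_ofReal_mul, Complex.I_re, mul_zero] at key2
  simp only [add_apply, smul_apply, smul_eq_mul]
  linarith

/-! ### domains -/

theorem RdSq_subset : RdSq (ε ^ 2 / 8) ⊆ Om0 ε := by
  rintro z ⟨h1, h2, h3⟩
  have hn := norm_le_of_mem_Rect h1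
  refine ⟨by linarith, ?_, ?_⟩
  · by_contra hc
    push Not at hc
    have a1 := Complex.abs_re_le_norm (z - aa)
    have a2 := Complex.abs_im_le_norm (z - aa)
    simp only [Complex.sub_re, aa_re, Complex.sub_im, aa_im, sub_zero] at a1 a2
    exact h2 ⟨a1.trans hc, a2.trans hc⟩
  · by_contra hc
    push Not at hc
    have a1 := Complex.abs_re_le_norm (z - bb)
    have a2 := Complex.abs_im_le_norm (z - bb)
    simp only [Complex.sub_re, bb_re, Complex.sub_im, bb_im, sub_zero] at a1 a2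
    exact h3 ⟨a1.trans hc, a2.trans hc⟩

theorem Om_subset (hε : 0 < ε) : Om ε ⊆ RdSq (ε ^ 2 / 8) := by
  rintro z ⟨h1, h2, h3⟩
  have he : 0 < ε ^ 2 := by positivity
  refine ⟨h1, fun h => ?_, fun h => ?_⟩
  · have := Complex.norm_le_abs_re_add_abs_im (z - aa)
    simp only [Complex.sub_re, aa_re, Complex.sub_im, aa_im, sub_zero] at this
    linarith [h.1, h.2]
  · have := Complex.norm_le_abs_re_add_abs_im (z - bb)
    simp only [Complex.sub_re, bb_re, Complex.sub_im, bb_im, sub_zero] at this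
    linarith [h.1, h.2]

theorem Om_subset_Om0 (hε : 0 < ε) : Om ε ⊆ Om0 ε := (Om_subset hε).trans RdSq_subset

theorem circ_mem (hε : 0 < ε) (hε' : ε < 1 / 4) {p : ℂ} (hp : p = aa ∨ p = bb) (θ : ℝ) :
    circleMap p (ε ^ 2) θ ∈ Om0 ε := by
  have he : 0 < ε ^ 2 := by positivity
  have he' : ε ^ 2 < 1 / 16 := by nlinarith
  have h1 : ‖circleMap p (ε ^ 2) θ - p‖ = ε ^ 2 := by
    rw [circleMap_sub_center, norm_circleMap_zero, abs_of_pos he]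
  have h2 : ‖circleMap p (ε ^ 2) θ‖ ≤ ‖circleMap p (ε ^ 2) θ - p‖ + ‖p‖ := by
    have := norm_add_le (circleMap p (ε ^ 2) θ - p) p
    rwa [sub_add_cancel] at this
  rcases hp with rfl | rfl
  · have h3 : ‖aa - bb‖ ≤ ‖circleMap aa (ε ^ 2) θ - aa‖ + ‖circleMap aa (ε ^ 2) θ - bb‖ := by
      rw [norm_sub_rev (circleMap aa (ε ^ 2) θ) aa]
      exact norm_sub_le_norm_sub_add_norm_sub _ _ _
    rw [norm_aa_sub_bb, h1] at h3
    rw [h1, norm_aa] at h2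
    exact ⟨by linarith, by linarith, by linarith⟩
  · have h3 : ‖bb - aa‖ ≤ ‖circleMap bb (ε ^ 2) θ - bb‖ + ‖circleMap bb (ε ^ 2) θ - aa‖ := by
      rw [norm_sub_rev (circleMap bb (ε ^ 2) θ) bb]
      exact norm_sub_le_norm_sub_add_norm_sub _ _ _
    rw [norm_bb_sub_aa, h1] at h3
    rw [h1, norm_bb] at h2
    exact ⟨by linarith, by linarith, by linarith⟩

/-! ### periods -/

/-- the integrand of the period of `dZ` -/
noncomputable def gZ (ε : ℝ) (φ₁ φ₂ : ℂ → ℂ) (p : ℂ) (θ : ℝ) : ℂ :=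
  omZ φ₁ φ₂ (circleMap p (ε ^ 2) θ) (circleMap 0 (ε ^ 2) θ * Complex.I)

/-- the integrand of the period of `dt` -/
noncomputable def gt (ε : ℝ) (φ₁ φ₂ : ℂ → ℂ) (p : ℂ) (θ : ℝ) : ℝ :=
  omt φ₁ φ₂ (circleMap p (ε ^ 2) θ) (circleMap 0 (ε ^ 2) θ * Complex.I)

theorem gZ_periodic (p : ℂ) : Function.Periodic (gZ ε φ₁ φ₂ p) (2 * Real.pi) := fun θ => by
  rw [gZ, periodic_circleMap, periodic_circleMap, gZ]

theorem gt_periodic (p : ℂ) : Function.Periodic (gt ε φ₁ φ₂ p) (2 * Real.pi) := fun θ => by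
  rw [gt, periodic_circleMap, periodic_circleMap, gt]

theorem cont₁ (h : Core C ε φ₁ φ₂) (hε : 0 < ε) (hε' : ε < 1 / 4) {p : ℂ}
    (hp : p = aa ∨ p = bb) : Continuous (fun θ => φ₁ (circleMap p (ε ^ 2) θ)) :=
  continuous_iff_continuousAt.2 fun θ => ContinuousAt.comp
    (f := fun θ => circleMap p (ε ^ 2) θ) (diff₁ h (circ_mem hε hε' hp θ)).continuousAt
    (continuous_circleMap _ _).continuousAt

theorem cont₂ (h : Core C ε φ₁ φ₂) (hε : 0 < ε) (hε' : ε < 1 / 4) {p : ℂ}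
    (hp : p = aa ∨ p = bb) : Continuous (fun θ => φ₂ (circleMap p (ε ^ 2) θ)) :=
  continuous_iff_continuousAt.2 fun θ => ContinuousAt.comp
    (f := fun θ => circleMap p (ε ^ 2) θ) (diff₂ h (circ_mem hε hε' hp θ)).continuousAt
    (continuous_circleMap _ _).continuousAt

theorem perZa (h : Core C ε φ₁ φ₂) (hε : 0 < ε) (hε' : ε < 1 / 4) :
    ∫ θ in (0 : ℝ)..(2 * Real.pi), gZ ε φ₁ φ₂ aa θ = 0 := by
  have hp := h.period
  rw [circleIntegral, circleIntegral] at hp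
  have c1 := cont₁ h hε hε' (Or.inl rfl : aa = aa ∨ aa = bb)
  have c2 := cont₂ h hε hε' (Or.inl rfl : aa = aa ∨ aa = bb)
  have c3 := continuous_circleMap 0 (ε ^ 2)
  have e : ∀ θ, gZ ε φ₁ φ₂ aa θ = deriv (circleMap aa (ε ^ 2)) θ • φ₁ (circleMap aa (ε ^ 2) θ) ^ 2
      - conj (deriv (circleMap aa (ε ^ 2)) θ • φ₂ (circleMap aa (ε ^ 2) θ) ^ 2) := by
    intro θ
    rw [gZ, omZ, dform_apply, deriv_circleMap]
    simp only [smul_eq_mul, map_mul, map_pow]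
    ring
  simp_rw [e]
  rw [intervalIntegral.integral_sub, hp]
  · rw [sub_eq_zero]
    simp only [intervalIntegral, map_sub, integral_conj]
  · apply Continuous.intervalIntegrable
    simp_rw [deriv_circleMap, smul_eq_mul]
    exact (c3.mul continuous_const).mul (c1.pow 2)
  · apply Continuous.intervalIntegrable
    simp_rw [deriv_circleMap, smul_eq_mul]
    exact Complex.continuous_conj.comp ((c3.mul continuous_const).mul (c2.pow 2))

theorem circ_sg (hε : 0 < ε) (θ : ℝ) : sg (ε ^ 2) aa bb (circleMap aa (ε ^ 2) θ) =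
    circleMap bb (ε ^ 2) (Real.pi - θ) := by
  have hne : ((ε ^ 2 : ℝ) : ℂ) ≠ 0 := by
    have : (ε ^ 2 : ℝ) ≠ 0 := by positivity
    exact_mod_cast this
  have h1 : Complex.exp (θ * Complex.I) ≠ 0 := Complex.exp_ne_zero _
  rw [sg, circleMap_sub_center]
  simp only [circleMap, zero_add]
  have h2 : Complex.exp (((Real.pi - θ : ℝ) : ℂ) * Complex.I) =
      -(Complex.exp (θ * Complex.I))⁻¹ := by
    rw [← Complex.exp_neg]
    push_cast
    rw [sub_mul, Complex.exp_sub, Complex.exp_pi_mul_I, Complex.exp_neg]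
    rw [neg_div, one_div]
  rw [h2]
  field_simp
  ring

theorem gZ_b (h : Core C ε φ₁ φ₂) (hε : 0 < ε) (θ : ℝ) :
    gZ ε φ₁ φ₂ bb (Real.pi - θ) = conj (gZ ε φ₁ φ₂ aa θ) := by
  have he : 0 < ε ^ 2 := by positivity
  set z := circleMap aa (ε ^ 2) θ with hz
  have hza : ‖z - aa‖ = ε ^ 2 := by
    rw [hz, circleMap_sub_center, norm_circleMap_zero, abs_of_pos he]
  have g1 := h.glue₁ z (by linarith) (by linarith)
  have g2 := h.glue₂ z (by linarith) (by linarith)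
  rw [hz, circ_sg hε θ, ← hz] at g1 g2
  rw [gZ, gZ, omZ, omZ, dform_apply, dform_apply, ← hz]
  set w := circleMap bb (ε ^ 2) (Real.pi - θ) with hw
  have hzc : z - aa = circleMap 0 (ε ^ 2) θ := by rw [hz, circleMap_sub_center]
  have hne : ((ε ^ 2 : ℝ) : ℂ) ≠ 0 := by
    have : (ε ^ 2 : ℝ) ≠ 0 := by positivity
    exact_mod_cast this
  set E := Complex.exp (θ * Complex.I) with hE
  have hE0 : E ≠ 0 := Complex.exp_ne_zero _
  have hEc : conj E = E⁻¹ := by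
    rw [hE, ← Complex.exp_conj, map_mul, Complex.conj_ofReal, Complex.conj_I, ← Complex.exp_neg]
    congr 1; ring
  have hc1 : circleMap 0 (ε ^ 2) θ = ((ε ^ 2 : ℝ) : ℂ) * E := by simp [circleMap, hE]
  have hc2 : circleMap 0 (ε ^ 2) (Real.pi - θ) = -(((ε ^ 2 : ℝ) : ℂ) * E⁻¹) := by
    simp only [circleMap, zero_add]
    rw [hE, ← Complex.exp_neg]
    push_cast
    rw [sub_mul, Complex.exp_sub, Complex.exp_pi_mul_I, Complex.exp_neg]
    ring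
  rw [hzc, hc1] at g1 g2
  have k1 : φ₂ w = E * φ₁ z := by rw [g1]; field_simp
  have k2 : φ₁ w = -(E * φ₂ z) := by rw [g2]; field_simp
  rw [hc1, hc2, k1, k2]
  simp only [map_mul, map_add, map_neg, map_pow, Complex.conj_conj, Complex.conj_I,
    Complex.conj_ofReal, map_inv₀, hEc, inv_inv]
  field_simp
  ring

theorem perZb (h : Core C ε φ₁ φ₂) (hε : 0 < ε) (hε' : ε < 1 / 4) :
    ∫ θ in (0 : ℝ)..(2 * Real.pi), gZ ε φ₁ φ₂ bb θ = 0 := by
  have h1 : ∫ θ in (0 : ℝ)..(2 * Real.pi), gZ ε φ₁ φ₂ bb (Real.pi - θ) =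
      ∫ θ in (0 : ℝ)..(2 * Real.pi), gZ ε φ₁ φ₂ bb θ := by
    rw [intervalIntegral.integral_comp_sub_left (fun x => gZ ε φ₁ φ₂ bb x)]
    have := (gZ_periodic (ε := ε) (φ₁ := φ₁) (φ₂ := φ₂) bb).intervalIntegral_add_eq
      (Real.pi - 2 * Real.pi) 0
    rw [zero_add] at this
    rw [← this]
    congr 1
    ring
  rw [← h1]
  simp_rw [gZ_b h hε]
  have h2 := perZa h hε hε'
  have h3 := congrArg conj h2
  rw [map_zero] at h3
  rw [← h3]
  simp only [intervalIntegral, map_sub, integral_conj]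

theorem gt_odd (h : Core C ε φ₁ φ₂) (hε : 0 < ε) (hε' : ε < 1 / 4) {p : ℂ}
    (hp : p = aa ∨ p = bb) (θ : ℝ) : gt ε φ₁ φ₂ p (-θ) = -gt ε φ₁ φ₂ p θ := by
  have hpc : conj p = p := by rcases hp with rfl | rfl <;> simp
  have hc : ∀ q : ℂ, conj q = q → circleMap q (ε ^ 2) (-θ) = conj (circleMap q (ε ^ 2) θ) := by
    intro q hq
    simp only [circleMap, map_add, map_mul, ← Complex.exp_conj, Complex.conj_ofReal,
      Complex.conj_I, hq]
    push_cast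
    congr 3
    ring
  rw [gt, gt, omt, omt, hc p hpc, hc 0 (map_zero _), h.symm₁ _ (circ_mem hε hε' hp θ),
    h.symm₂ _ (circ_mem hε hε' hp θ), reform_apply, reform_apply]
  have : conj (φ₁ (circleMap p (ε ^ 2) θ)) * conj (φ₂ (circleMap p (ε ^ 2) θ)) *
      (conj (circleMap 0 (ε ^ 2) θ) * Complex.I) = -conj (φ₁ (circleMap p (ε ^ 2) θ) *
      φ₂ (circleMap p (ε ^ 2) θ) * (circleMap 0 (ε ^ 2) θ * Complex.I)) := by
    simp only [map_mul, Complex.conj_I]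
    ring
  rw [this, Complex.neg_re, Complex.conj_re]
  ring

theorem pert (h : Core C ε φ₁ φ₂) (hε : 0 < ε) (hε' : ε < 1 / 4) {p : ℂ}
    (hp : p = aa ∨ p = bb) : ∫ θ in (0 : ℝ)..(2 * Real.pi), gt ε φ₁ φ₂ p θ = 0 := by
  have h1 : ∫ θ in (0 : ℝ)..(2 * Real.pi), gt ε φ₁ φ₂ p (-θ) =
      ∫ θ in (0 : ℝ)..(2 * Real.pi), gt ε φ₁ φ₂ p θ := by
    rw [intervalIntegral.integral_comp_neg (fun x => gt ε φ₁ φ₂ p x)]
    have := (gt_periodic (ε := ε) (φ₁ := φ₁) (φ₂ := φ₂) p).intervalIntegral_add_eq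
      (-(2 * Real.pi)) 0
    rw [zero_add] at this
    rw [← this]
    congr 1
    ring
  simp_rw [gt_odd h hε hε' hp] at h1
  rw [intervalIntegral.integral_neg] at h1
  linarith

/-! ### primitives -/

theorem exists_Z (h : Core C ε φ₁ φ₂) (hε : 0 < ε) (hε' : ε < 1 / 4) :
    ∃ Z : ℂ → ℂ, ∀ z ∈ Om ε, HasFDerivAt Z (omZ φ₁ φ₂ z) z := by
  have he : 0 < ε ^ 2 := by positivity
  have he' : ε ^ 2 < 1 / 16 := by nlinarith
  obtain ⟨Z, hZ⟩ := exists_primitive (ρ := ε ^ 2 / 8) (r := ε ^ 2) (om := omZ φ₁ φ₂)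
    (by positivity) (by linarith) (by linarith)
    (fun z hz => (closedZ h (RdSq_subset hz)).1.differentiableWithinAt)
    (fun z hz => (closedZ h (RdSq_subset hz)).2) (perZa h hε hε') (perZb h hε hε')
  exact ⟨Z, fun z hz => hZ z (Om_subset hε hz)⟩

theorem exists_t (h : Core C ε φ₁ φ₂) (hε : 0 < ε) (hε' : ε < 1 / 4) :
    ∃ t : ℂ → ℝ, ∀ z ∈ Om ε, HasFDerivAt t (omt φ₁ φ₂ z) z := by
  have he : 0 < ε ^ 2 := by positivity
  have he' : ε ^ 2 < 1 / 16 := by nlinarith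
  obtain ⟨Z, hZ⟩ := exists_primitive (ρ := ε ^ 2 / 8) (r := ε ^ 2) (om := omt φ₁ φ₂)
    (by positivity) (by linarith) (by linarith)
    (fun z hz => (closedt h (RdSq_subset hz)).1.differentiableWithinAt)
    (fun z hz => (closedt h (RdSq_subset hz)).2) (pert h hε hε' (Or.inl rfl))
    (pert h hε hε' (Or.inr rfl))
  exact ⟨Z, fun z hz => hZ z (Om_subset hε hz)⟩

theorem conj_mem {z : ℂ} (hz : z ∈ Om ε) : conj z ∈ Om ε := by
  obtain ⟨⟨h1, h2, h3⟩, h4, h5⟩ := hz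
  refine ⟨⟨by simpa using h1, by simpa using h2, by simpa using h3⟩, ?_, ?_⟩
  · rwa [← conj_aa, ← map_sub, Complex.norm_conj]
  · rwa [← conj_bb, ← map_sub, Complex.norm_conj]

theorem hasFDerivAt_conj (z : ℂ) :
    HasFDerivAt (fun w : ℂ => conj w) (Complex.conjCLE : ℂ →L[ℝ] ℂ) z :=
  (Complex.conjCLE : ℂ →L[ℝ] ℂ).hasFDerivAt

/-- a symmetric primitive -/
theorem exists_Z_symm (h : Core C ε φ₁ φ₂) (hε : 0 < ε) (hε' : ε < 1 / 4) :
    ∃ Z : ℂ → ℂ, (∀ z ∈ Om ε, HasFDerivAt Z (omZ φ₁ φ₂ z) z) ∧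
      ∀ z, Z (conj z) = conj (Z z) := by
  obtain ⟨Z, hZ⟩ := exists_Z h hε hε'
  refine ⟨fun z => (2 : ℝ)⁻¹ • (Z z + conj (Z (conj z))), fun z hz => ?_, fun z => ?_⟩
  · have h1 : HasFDerivAt (fun w => Z (conj w))
        ((omZ φ₁ φ₂ (conj z)).comp (Complex.conjCLE : ℂ →L[ℝ] ℂ)) z :=
      (hZ _ (conj_mem hz)).comp z (hasFDerivAt_conj z)
    have h2 : HasFDerivAt (fun w => conj (Z (conj w)))
        ((Complex.conjCLE : ℂ →L[ℝ] ℂ).comp
          ((omZ φ₁ φ₂ (conj z)).comp (Complex.conjCLE : ℂ →L[ℝ] ℂ))) z :=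
      (hasFDerivAt_conj _).comp z h1
    refine (((hZ z hz).add h2).const_smul (2 : ℝ)⁻¹).congr_fderiv ?_
    have hz0 := Om_subset_Om0 hε hz
    ext u
    simp [omZ, h.symm₁ z hz0, h.symm₂ z hz0]
    ring
  · simp only [Complex.conj_conj, Complex.real_smul, map_mul, map_add, Complex.conj_ofReal]
    ring

/-- a symmetric primitive -/
theorem exists_t_symm (h : Core C ε φ₁ φ₂) (hε : 0 < ε) (hε' : ε < 1 / 4) :
    ∃ t : ℂ → ℝ, (∀ z ∈ Om ε, HasFDerivAt t (omt φ₁ φ₂ z) z) ∧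
      ∀ z, t (conj z) = t z := by
  obtain ⟨t, ht⟩ := exists_t h hε hε'
  refine ⟨fun z => (2 : ℝ)⁻¹ • (t z + t (conj z)), fun z hz => ?_, fun z => ?_⟩
  · have h1 : HasFDerivAt (fun w => t (conj w))
        ((omt φ₁ φ₂ (conj z)).comp (Complex.conjCLE : ℂ →L[ℝ] ℂ)) z :=
      (ht _ (conj_mem hz)).comp z (hasFDerivAt_conj z)
    refine (((ht z hz).add h1).const_smul (2 : ℝ)⁻¹).congr_fderiv ?_
    have hz0 := Om_subset_Om0 hε hz
    ext u
    simp [omt, h.symm₁ z hz0, h.symm₂ z hz0]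
    ring
  · simp only [Complex.conj_conj, smul_eq_mul]
    ring

/-! ### gluing -/

/-- the annulus about the first neck -/
def Ann (ε : ℝ) : Set ℂ := {z | ε ^ 2 / 4 < ‖z - aa‖ ∧ ‖z - aa‖ < 4 * ε ^ 2}

theorem isOpen_Ann (ε : ℝ) : IsOpen (Ann ε) := by
  have h2 : IsOpen {z : ℂ | ε ^ 2 / 4 < ‖z - aa‖} := isOpen_lt (by fun_prop) (by fun_prop)
  have h3 : IsOpen {z : ℂ | ‖z - aa‖ < 4 * ε ^ 2} := isOpen_lt (by fun_prop) (by fun_prop)
  exact h2.inter h3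

theorem Ann_preconn (hε : 0 < ε) : IsPreconnected (Ann ε) := by
  have he : 0 < ε ^ 2 := by positivity
  have hc : Convex ℝ {w : ℂ | Real.log (ε ^ 2 / 4) < w.re ∧ w.re < Real.log (4 * ε ^ 2)} :=
    (convex_halfSpace_re_gt _).inter (convex_halfSpace_re_lt _)
  have himg := hc.isPreconnected.image (fun w => aa + Complex.exp w)
    (Continuous.continuousOn (by fun_prop))
  have e : (fun w => aa + Complex.exp w) ''
      {w : ℂ | Real.log (ε ^ 2 / 4) < w.re ∧ w.re < Real.log (4 * ε ^ 2)} = Ann ε := by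
    ext z
    constructor
    · rintro ⟨w, ⟨h1, h2⟩, rfl⟩
      have e1 : ‖aa + Complex.exp w - aa‖ = Real.exp w.re := by
        rw [add_sub_cancel_left, Complex.norm_exp]
      refine ⟨?_, ?_⟩
      · rw [e1]
        exact (Real.log_lt_iff_lt_exp (by positivity)).1 h1
      · rw [e1]
        exact (Real.lt_log_iff_exp_lt (by positivity)).1 h2
    · rintro ⟨h1, h2⟩
      have h0 : z - aa ≠ 0 := by
        intro h; rw [h, norm_zero] at h1; linarith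
      refine ⟨Complex.log (z - aa), ⟨?_, ?_⟩, ?_⟩
      · rw [Complex.log_re]
        exact Real.log_lt_log (by positivity) h1
      · rw [Complex.log_re]
        exact Real.log_lt_log (by positivity) h2
      · simp only
        rw [Complex.exp_log h0]; ring
  rwa [e] at himg

theorem Ann_subset (hε : 0 < ε) (hε' : ε < 1 / 4) : Ann ε ⊆ Om ε := by
  rintro z ⟨h1, h2⟩
  have he : 0 < ε ^ 2 := by positivity
  have he' : ε ^ 2 < 1 / 16 := by nlinarith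
  have a1 := Complex.abs_re_le_norm (z - aa)
  have a2 := Complex.abs_im_le_norm (z - aa)
  simp only [Complex.sub_re, aa_re, Complex.sub_im, aa_im, sub_zero] at a1 a2
  have a3 := abs_le.1 (a1.trans h2.le)
  have a4 := a2.trans h2.le
  have a5 := Complex.abs_re_le_norm (z - bb)
  simp only [Complex.sub_re, bb_re] at a5
  have a6 := (le_abs_self _).trans a5
  exact ⟨⟨by linarith, by linarith, by linarith⟩, h1, by linarith⟩

theorem sg_mem (hε : 0 < ε) (hε' : ε < 1 / 4) {z : ℂ} (hz : z ∈ Ann ε) :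
    sg (ε ^ 2) aa bb z ∈ Om ε := by
  have he : 0 < ε ^ 2 := by positivity
  have he' : ε ^ 2 < 1 / 16 := by nlinarith
  obtain ⟨h1, h2⟩ := hz
  have hz0 : 0 < ‖z - aa‖ := by linarith
  have hw := norm_sg_sub (r := ε ^ 2) aa bb z
  set w := sg (ε ^ 2) aa bb z with hwdef
  have hw1 : ε ^ 2 / 4 < ‖w - bb‖ := by
    rw [hw, lt_div_iff₀ hz0]; nlinarith
  have hw2 : ‖w - bb‖ < 4 * ε ^ 2 := by
    rw [hw, div_lt_iff₀ hz0]; nlinarith
  have a1 := Complex.abs_re_le_norm (w - bb)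
  have a2 := Complex.abs_im_le_norm (w - bb)
  simp only [Complex.sub_re, bb_re, Complex.sub_im, bb_im, sub_zero] at a1 a2
  have a3 := abs_le.1 (a1.trans hw2.le)
  have a4 := a2.trans hw2.le
  have a5 := Complex.abs_re_le_norm (w - aa)
  simp only [Complex.sub_re, aa_re] at a5
  have a6 := (neg_le_abs _).trans a5
  exact ⟨⟨by linarith, by linarith, by linarith⟩, by linarith, hw1⟩

theorem ne_of_Ann (hε : 0 < ε) {z : ℂ} (hz : z ∈ Ann ε) : z ≠ aa := by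
  have he : 0 < ε ^ 2 := by positivity
  intro h
  have := hz.1
  rw [h, sub_self, norm_zero] at this
  linarith

theorem sq₁ (h : Core C ε φ₁ φ₂) {z : ℂ} (h1 : ε ^ 2 / 8 < ‖z - aa‖) (h2 : ‖z - aa‖ < 8 * ε ^ 2) :
    φ₁ z ^ 2 = ((ε ^ 2 : ℝ) : ℂ) ^ 2 / (z - aa) ^ 2 * φ₂ (sg (ε ^ 2) aa bb z) ^ 2 := by
  rw [h.glue₁ z h1 h2, ← div_pow, ← mul_pow]

theorem sq₂ (h : Core C ε φ₁ φ₂) {z : ℂ} (h1 : ε ^ 2 / 8 < ‖z - aa‖) (h2 : ‖z - aa‖ < 8 * ε ^ 2) :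
    φ₂ z ^ 2 = ((ε ^ 2 : ℝ) : ℂ) ^ 2 / (z - aa) ^ 2 * φ₁ (sg (ε ^ 2) aa bb z) ^ 2 := by
  rw [h.glue₂ z h1 h2, ← div_pow, ← mul_pow, neg_sq]

theorem sq₃ (h : Core C ε φ₁ φ₂) {z : ℂ} (h1 : ε ^ 2 / 8 < ‖z - aa‖) (h2 : ‖z - aa‖ < 8 * ε ^ 2) :
    φ₁ z * φ₂ z = -(((ε ^ 2 : ℝ) : ℂ) ^ 2 / (z - aa) ^ 2 * (φ₁ (sg (ε ^ 2) aa bb z) *
      φ₂ (sg (ε ^ 2) aa bb z))) := by
  rw [h.glue₁ z h1 h2, h.glue₂ z h1 h2, ← div_pow]; ring

theorem hasFDerivAt_sg (hε : 0 < ε) {z : ℂ} (hz : z ∈ Ann ε) :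
    ∃ S : ℂ →L[ℝ] ℂ, HasFDerivAt (sg (ε ^ 2) aa bb) S z ∧
      ∀ u, S u = ((ε ^ 2 : ℝ) : ℂ) ^ 2 / (z - aa) ^ 2 * u :=
  ⟨_, (hasDerivAt_sg (ε ^ 2) aa bb (ne_of_Ann hε hz)).hasFDerivAt.restrictScalars ℝ,
    fun u => by simp [mul_comm]⟩

theorem glue_Z (h : Core C ε φ₁ φ₂) (hε : 0 < ε) (hε' : ε < 1 / 4) {Z : ℂ → ℂ}
    (hZ : ∀ z ∈ Om ε, HasFDerivAt Z (omZ φ₁ φ₂ z) z) (hs : ∀ z, Z (conj z) = conj (Z z)) :
    ∃ c : ℝ, ∀ z ∈ Ann ε, Z z + conj (Z (sg (ε ^ 2) aa bb z)) = c := by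
  have he : 0 < ε ^ 2 := by positivity
  have hd : ∀ z ∈ Ann ε, HasFDerivAt (fun z => Z z + conj (Z (sg (ε ^ 2) aa bb z)))
      (0 : ℂ →L[ℝ] ℂ) z := by
    intro z hz
    obtain ⟨S, hS, hS'⟩ := hasFDerivAt_sg hε hz
    have h1 : HasFDerivAt (fun z => Z (sg (ε ^ 2) aa bb z))
        ((omZ φ₁ φ₂ (sg (ε ^ 2) aa bb z)).comp S) z := (hZ _ (sg_mem hε hε' hz)).comp z hS
    have h2 : HasFDerivAt (fun z => conj (Z (sg (ε ^ 2) aa bb z)))
        ((Complex.conjCLE : ℂ →L[ℝ] ℂ).comp ((omZ φ₁ φ₂ (sg (ε ^ 2) aa bb z)).comp S)) z :=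
      (hasFDerivAt_conj _).comp z h1
    refine ((hZ z (Ann_subset hε hε' hz)).add h2).congr_fderiv ?_
    have b1 : ε ^ 2 / 8 < ‖z - aa‖ := by linarith [hz.1]
    have b2 : ‖z - aa‖ < 8 * ε ^ 2 := by linarith [hz.2]
    have k1 := sq₁ h b1 b2
    have k2 := congrArg conj (sq₂ h b1 b2)
    ext u
    simp only [omZ, add_apply, ContinuousLinearMap.comp_apply, dform_apply, hS',
      ContinuousLinearEquiv.coe_coe, Complex.conjCLE_apply, zero_apply]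
    simp only [map_mul, map_add, map_neg, map_pow, Complex.conj_conj] at k2 ⊢
    linear_combination u * k1 - conj u * k2
  obtain ⟨c, hc⟩ := (isOpen_Ann ε).exists_is_const_of_fderiv_eq_zero (𝕜 := ℝ) (Ann_preconn hε)
    (fun z hz => (hd z hz).differentiableAt.differentiableWithinAt)
    (fun z hz => (hd z hz).fderiv)
  refine ⟨c.re, fun z hz => ?_⟩
  rw [hc z hz]
  -- the constant is real
  have hz0 : aa + ((ε ^ 2 : ℝ) : ℂ) ∈ Ann ε := by
    have : ‖aa + ((ε ^ 2 : ℝ) : ℂ) - aa‖ = ε ^ 2 := by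
      rw [add_sub_cancel_left, Complex.norm_real, Real.norm_eq_abs, abs_of_pos he]
    exact ⟨by rw [this]; linarith, by rw [this]; linarith⟩
  have h3 := hc _ hz0
  have h4 : conj (aa + ((ε ^ 2 : ℝ) : ℂ)) = aa + ((ε ^ 2 : ℝ) : ℂ) := by simp
  have h5 := congrArg conj h3
  rw [map_add, Complex.conj_conj, ← hs, h4] at h5
  have h6 : Z (sg (ε ^ 2) aa bb (aa + ((ε ^ 2 : ℝ) : ℂ))) =
      conj (Z (sg (ε ^ 2) aa bb (aa + ((ε ^ 2 : ℝ) : ℂ)))) := by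
    rw [← hs, ← sg_conj _ conj_aa conj_bb, h4]
  rw [h6, h3] at h5
  exact (Complex.conj_eq_iff_re.1 h5.symm).symm

theorem glue_t (h : Core C ε φ₁ φ₂) (hε : 0 < ε) (hε' : ε < 1 / 4) {t : ℂ → ℝ}
    (ht : ∀ z ∈ Om ε, HasFDerivAt t (omt φ₁ φ₂ z) z) :
    ∃ c : ℝ, ∀ z ∈ Ann ε, t z + t (sg (ε ^ 2) aa bb z) = c := by
  have he : 0 < ε ^ 2 := by positivity
  have hd : ∀ z ∈ Ann ε, HasFDerivAt (fun z => t z + t (sg (ε ^ 2) aa bb z))
      (0 : ℂ →L[ℝ] ℝ) z := by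
    intro z hz
    obtain ⟨S, hS, hS'⟩ := hasFDerivAt_sg hε hz
    have h1 : HasFDerivAt (fun z => t (sg (ε ^ 2) aa bb z))
        ((omt φ₁ φ₂ (sg (ε ^ 2) aa bb z)).comp S) z := (ht _ (sg_mem hε hε' hz)).comp z hS
    refine ((ht z (Ann_subset hε hε' hz)).add h1).congr_fderiv ?_
    have b1 : ε ^ 2 / 8 < ‖z - aa‖ := by linarith [hz.1]
    have b2 : ‖z - aa‖ < 8 * ε ^ 2 := by linarith [hz.2]
    have k1 := sq₃ h b1 b2
    ext u
    simp only [omt, add_apply, ContinuousLinearMap.comp_apply, reform_apply, hS', zero_apply]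
    rw [k1, ← mul_add, ← Complex.add_re]
    have : -(((ε ^ 2 : ℝ) : ℂ) ^ 2 / (z - aa) ^ 2 * (φ₁ (sg (ε ^ 2) aa bb z) *
      φ₂ (sg (ε ^ 2) aa bb z))) * u + φ₁ (sg (ε ^ 2) aa bb z) * φ₂ (sg (ε ^ 2) aa bb z) *
      (((ε ^ 2 : ℝ) : ℂ) ^ 2 / (z - aa) ^ 2 * u) = 0 := by ring
    rw [this]; simp
  exact (isOpen_Ann ε).exists_is_const_of_fderiv_eq_zero (𝕜 := ℝ) (Ann_preconn hε)
    (fun z hz => (hd z hz).differentiableAt.differentiableWithinAt)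
    (fun z hz => (hd z hz).fderiv)

end closed

end SurfEx

open SurfEx in
theorem exists_surf (C : ℝ) : ∃ ε₀ > 0, ∀ ε : ℝ, 0 < ε → ε < ε₀ → ∀ φ₁ φ₂, Core C ε φ₁ φ₂ →
    ∃ Z t h₀, Surf C ε φ₁ φ₂ Z t h₀ := by
  refine ⟨1 / 4, by norm_num, fun ε hε hε' φ₁ φ₂ h => ?_⟩
  obtain ⟨Z, hZ, hZs⟩ := exists_Z_symm h hε hε'
  obtain ⟨t, ht, hts⟩ := exists_t_symm h hε hε'
  obtain ⟨c, hc⟩ := glue_Z h hε hε' hZ hZs
  obtain ⟨d, hd⟩ := glue_t h hε hε' ht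
  refine ⟨fun z => Z z + (((2 - c) / 2 : ℝ) : ℂ), fun z => t z + (ε * (4 / 3) - t 2),
    d + 2 * (ε * (4 / 3) - t 2), ?_⟩
  exact
    { toCore := h
      dZ := fun z hz => (hZ z hz).add_const _
      dt := fun z hz => (ht z hz).add_const _
      Zsymm := fun z _ => by
        simp only [hZs, map_add, Complex.conj_ofReal]
      tsymm := fun z _ => by simp only [hts]
      Zglue := fun z h1 h2 => by
        have := hc z ⟨h1, h2⟩
        simp only [map_add, Complex.conj_ofReal]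
        push_cast
        linear_combination this
      tglue := fun z h1 h2 => by
        have := hd z ⟨h1, h2⟩
        linarith
      tnorm := by ring }

end Pool.Agent.MP_49383f_gt
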