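import Pool.Agent.MP_49383f_gt.CoreEx
import Pool.Agent.MP_49383f_gt.SurfEx
import Pool.Agent.MP_49383f_gt.EstAll
import Pool.Agent.MP_49383f_gt.KFacts
import Pool.Agent.MP_49383f_gt.KConn
import Pool.Agent.MP_49383f_gt.Curve
import Pool.Agent.MP_49383f_gt.Chart
import Pool.Agent.MP_49383f_gt.ChartRR
import Pool.Agent.MP_49383f_gt.Normal
import Pool.Agent.MP_49383f_gt.NotAnnulus

/-!
# MP_49383f_gt, module G21 : assembly of the geometry part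
-/

namespace Pool.Agent.MP_49383f_gt

open scoped ContDiff ComplexConjugate
open MeasureTheory Metric Set

theorem geometry (C : ℝ) : ∃ ε₀ > 0, ∀ ε : ℝ, 0 < ε → ε < ε₀ → ∀ φ₁ φ₂, Core C ε φ₁ φ₂ →
    ∃ (h₁ h₂ : ℝ) (Γ₁ Γ₂ S : Set R3), h₁ ≠ h₂ ∧ IsConvexCurve h₁ Γ₁ ∧ IsConvexCurve h₂ Γ₂ ∧
      IsCMCSurface S (Γ₁ ∪ Γ₂) (-2 * ε) ∧ ¬ Nonempty (S ≃ₜ Circle × unitInterval) := by
  obtain ⟨C', -, e1, he1, est⟩ := est_of_surf C
  obtain ⟨e2, he2, surf⟩ := exists_surf C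
  obtain ⟨e3, he3, kf⟩ := KK_facts C C'
  obtain ⟨e4, he4, kc⟩ := KK_connected C C'
  obtain ⟨e5, he5, gc⟩ := gam_convex C
  obtain ⟨e6, he6, cl⟩ := chart_lower C C'
  obtain ⟨e7, he7, en⟩ := exists_normal C C'
  obtain ⟨e8, he8, na⟩ := not_annulus C C'
  refine ⟨min (min (min e1 e2) (min e3 e4)) (min (min e5 e6) (min e7 e8)), by positivity, ?_⟩
  intro ε hε hlt φ₁ φ₂ core
  simp only [lt_min_iff] at hlt
  obtain ⟨⟨⟨l1, l2⟩, l3, l4⟩, ⟨l5, l6⟩, l7, l8⟩ := hlt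
  obtain ⟨Z, t, h₀, S⟩ := surf ε hε l2 φ₁ φ₂ core
  have E := est ε hε l1 φ₁ φ₂ Z t h₀ S
  obtain ⟨kW, kcomp, hh, -, -, kneck, -⟩ := kf ε hε l3 φ₁ φ₂ Z t h₀ S E
  obtain ⟨g1, g2⟩ := gc ε hε l5 φ₁ φ₂ Z t h₀ S
  obtain ⟨n, nc, n1, n2⟩ := en ε hε l7 φ₁ φ₂ Z t h₀ S E
  have hX : ContinuousOn (Xm Z t) (KK ε t) := by
    have hsub : KK ε t ⊆ Om ε := kW.trans (WW_subset_Om hε)
    exact Xm_continuousOn (fun z hz => (S.dZ z (hsub hz)).continuousAt.continuousWithinAt)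
      (fun z hz => (S.dt z (hsub hz)).continuousAt.continuousWithinAt)
  have hSR : RR h₀ '' SS ε Z t h₀ = SS ε Z t h₀ := by
    rw [SS, image_union, ← image_comp, ← image_comp]
    rw [show (RR h₀ ∘ RR h₀ ∘ Xm Z t) = Xm Z t from funext fun z => RR_RR _ _, union_comm,
      image_comp]
  have hGR : RR h₀ '' (Gam ε Z t ∪ RR h₀ '' Gam ε Z t) = Gam ε Z t ∪ RR h₀ '' Gam ε Z t := by
    rw [image_union, ← image_comp]
    rw [show (RR h₀ ∘ RR h₀) = id from funext fun z => RR_RR _ _, union_comm, image_id]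
  refine ⟨ε / 10, h₀ - ε / 10, Gam ε Z t, RR h₀ '' Gam ε Z t, SS ε Z t h₀, by
    intro h; linarith, g1, g2, ⟨?_, ?_, ?_, n, nc, ?_⟩, na ε hε l8 φ₁ φ₂ Z t h₀ S E⟩
  · exact (kcomp.image_of_continuousOn hX).union
      ((kcomp.image_of_continuousOn hX).image (RR_continuous h₀))
  · have c1 : IsConnected (Xm Z t '' KK ε t) := (kc ε hε l4 φ₁ φ₂ Z t h₀ S E).image _ hX
    have c2 : IsConnected (RR h₀ '' (Xm Z t '' KK ε t)) :=
      c1.image _ (RR_continuous h₀).continuousOn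
    refine c1.union ?_ c2
    have e2pos : 0 < ε ^ 2 := by positivity
    obtain ⟨z1, m1⟩ : ∃ z1, ‖z1 - aa‖ = ε ^ 2 := ⟨aa + ((ε ^ 2 : ℝ) : ℂ), by
      rw [add_sub_cancel_left, Complex.norm_real, Real.norm_of_nonneg e2pos.le]⟩
    have k1 := (kneck _ (Or.inl m1)).1
    have m2 : ‖sg (ε ^ 2) aa bb z1 - bb‖ = ε ^ 2 := by
      rw [sg, show ∀ x : ℂ, bb - x - bb = -x by intro x; ring, norm_neg,
        norm_div, norm_pow, m1, Complex.norm_real, Real.norm_of_nonneg e2pos.le, pow_two (ε ^ 2),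
        mul_div_assoc, div_self e2pos.ne', mul_one]
    have k2 := (kneck _ (Or.inr m2)).1
    have gl1 := S.Zglue z1 (by rw [m1]; linarith) (by rw [m1]; linarith)
    have gl2 := S.tglue z1 (by rw [m1]; linarith) (by rw [m1]; linarith)
    refine ⟨Xm Z t z1, mem_image_of_mem _ k1, ⟨_, mem_image_of_mem _ k2, ?_⟩⟩
    have hre := congrArg Complex.re gl1
    have him := congrArg Complex.im gl1
    simp only [Complex.add_re, Complex.conj_re, Complex.re_ofNat, Complex.add_im, Complex.conj_im,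
      Complex.im_ofNat] at hre him
    ext i
    fin_cases i
    · simp [RR, Xm]; linarith
    · simp [RR, Xm]; linarith
    · simp [RR, Xm]; linarith
  · have hg : Gam ε Z t ⊆ Xm Z t '' KK ε t := image_mono fun z hz => hz.1
    exact union_subset_union hg (image_mono hg)
  · have hn : ∀ p ∈ SS ε Z t h₀, n (RR h₀ p) = RL (n p) := by
      rintro p (⟨z, hz, rfl⟩ | ⟨_, ⟨z, hz, rfl⟩, rfl⟩)
      · rw [n2 z hz, n1 z hz]
      · rw [RR_RR, n2 z hz, n1 z hz, RL_RL]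
    rintro p (⟨z, hz, rfl⟩ | ⟨_, ⟨z, hz, rfl⟩, rfl⟩)
    · exact cl ε hε l6 φ₁ φ₂ Z t h₀ S E n n1 n2 z hz
    · exact (cl ε hε l6 φ₁ φ₂ Z t h₀ S E n n1 n2 z hz).RR hSR hGR hn

end Pool.Agent.MP_49383f_gt

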