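import Pool.Agent.MP_49383f_gt.Basic

/-!
# MP_49383f_gt : the boundary of a bounded open convex set with smooth boundary is a smooth simple
closed curve
-/

namespace Pool.Agent.MP_49383f_gt

open scoped ContDiff ComplexConjugate Topology
open MeasureTheory Metric Set

namespace ParamCurve

noncomputable section

/-- the unit vector `e^{iθ}` -/
def uu (θ : ℝ) : ℂ := Complex.exp (θ * Complex.I)

theorem norm_uu (θ : ℝ) : ‖uu θ‖ = 1 := Complex.norm_exp_ofReal_mul_I θ

theorem uu_ne (θ : ℝ) : uu θ ≠ 0 := Complex.exp_ne_zero _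

theorem uu_contDiff : ContDiff ℝ ∞ uu := by
  unfold uu
  exact (Complex.ofRealCLM.contDiff.mul contDiff_const).cexp

theorem uu_deriv (θ : ℝ) : HasDerivAt uu (uu θ * Complex.I) θ := by
  have h1 : HasDerivAt (fun θ : ℝ => (θ : ℂ) * Complex.I) Complex.I θ := by
    simpa using (Complex.ofRealCLM.hasDerivAt (x := θ)).mul_const Complex.I
  exact h1.cexp

theorem uu_add (θ : ℝ) : uu (θ + 2 * Real.pi) = uu θ := by
  unfold uu
  push_cast
  rw [add_mul, Complex.exp_add, Complex.exp_two_pi_mul_I, mul_one]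

theorem uu_inj {θ θ' : ℝ} (h : θ ∈ Ico 0 (2 * Real.pi)) (h' : θ' ∈ Ico 0 (2 * Real.pi))
    (he : uu θ = uu θ') : θ = θ' := by
  unfold uu at he
  rw [Complex.exp_eq_exp_iff_exists_int] at he
  obtain ⟨n, hn⟩ := he
  have h1 : (θ : ℂ) = θ' + n * (2 * Real.pi) := by
    have hI := Complex.I_ne_zero
    apply mul_right_cancel₀ hI
    rw [hn]; ring
  have h2 : θ = θ' + n * (2 * Real.pi) := by exact_mod_cast h1
  have hpi := Real.pi_pos
  have h3 : (n : ℝ) < 1 := by
    by_contra hc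
    push Not at hc
    nlinarith [h.2, h'.1]
  have h4 : (-1 : ℝ) < n := by
    by_contra hc
    push Not at hc
    nlinarith [h'.2, h.1]
  have h5 : n = 0 := by
    have a1 : n < 1 := by exact_mod_cast h3
    have a2 : -1 < n := by exact_mod_cast h4
    omega
  rw [h2, h5]; simp

/-- a ray from a point of the convex domain meets the boundary transversally -/
theorem transversal {D U : Set ℂ} {ρ : ℂ → ℝ} (hD : IsOpen D) (hc : Convex ℝ D) (hU : IsOpen U)
    {P c : ℂ} (hPU : P ∈ U) (hP : P ∈ frontier D) (hcD : c ∈ D) (hρ : ContDiffOn ℝ ∞ ρ U)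
    (hd : fderiv ℝ ρ P ≠ 0) (h1 : D ∩ U = {Q ∈ U | 0 < ρ Q})
    (h2 : frontier D ∩ U = {Q ∈ U | ρ Q = 0}) : 0 < fderiv ℝ ρ P (c - P) := by
  have hρP : ρ P = 0 := by
    have : P ∈ frontier D ∩ U := ⟨hP, hPU⟩
    rw [h2] at this
    exact this.2
  have hda : DifferentiableAt ℝ ρ P := (hρ.contDiffAt (hU.mem_nhds hPU)).differentiableAt (by simp)
  have key : ∀ Q ∈ D, 0 ≤ fderiv ℝ ρ P (Q - P) := by
    intro Q hQ
    have hline : HasDerivAt (fun t : ℝ => ρ (P + t • (Q - P))) (fderiv ℝ ρ P (Q - P)) 0 := by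
      have h3 : HasDerivAt (fun t : ℝ => P + t • (Q - P)) (Q - P) 0 := by
        simpa using ((hasDerivAt_id (0 : ℝ)).smul_const (Q - P)).const_add P
      have h4 : HasFDerivAt ρ (fderiv ℝ ρ P) (P + (0 : ℝ) • (Q - P)) := by
        simpa using hda.hasFDerivAt
      exact h4.comp_hasDerivAt 0 h3
    have hlim : Filter.Tendsto (slope (fun t : ℝ => ρ (P + t • (Q - P))) 0) (𝓝[>] 0)
        (𝓝 (fderiv ℝ ρ P (Q - P))) :=
      hline.tendsto_slope.mono_left (nhdsWithin_mono _ fun x hx => ne_of_gt hx)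
    refine ge_of_tendsto hlim ?_
    have hcont : Filter.Tendsto (fun t : ℝ => P + t • (Q - P)) (𝓝[>] 0) (𝓝 P) := by
      have : Filter.Tendsto (fun t : ℝ => P + t • (Q - P)) (𝓝 0) (𝓝 (P + (0 : ℝ) • (Q - P))) :=
        (by fun_prop : Continuous fun t : ℝ => P + t • (Q - P)).tendsto 0
      rw [zero_smul, add_zero] at this
      exact this.mono_left nhdsWithin_le_nhds
    filter_upwards [hcont (hU.mem_nhds hPU), self_mem_nhdsWithin,
      Ioo_mem_nhdsGT (show (0 : ℝ) < 1 by norm_num)] with t ht ht0 ht1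
    have hmem : P + t • (Q - P) ∈ D := by
      have hseg : openSegment ℝ P Q ⊆ interior D :=
        hc.openSegment_closure_interior_subset_interior hP.1 (by rwa [hD.interior_eq])
      rw [hD.interior_eq] at hseg
      apply hseg
      refine ⟨1 - t, t, by linarith [ht1.2], ht1.1, by ring, ?_⟩
      module
    have hpos : 0 < ρ (P + t • (Q - P)) := by
      have : P + t • (Q - P) ∈ D ∩ U := ⟨hmem, ht⟩
      rw [h1] at this
      exact this.2
    rw [slope_def_field]
    simp only [zero_smul, add_zero, hρP, sub_zero]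
    exact div_nonneg hpos.le (le_of_lt ht1.1)
  rcases (key c hcD).lt_or_eq with h | h
  · exact h
  exfalso
  obtain ⟨w, hw⟩ : ∃ w, 0 < fderiv ℝ ρ P w := by
    by_contra hcon
    push Not at hcon
    apply hd
    ext w
    have e1 := hcon w
    have e2 := hcon (-w)
    rw [map_neg] at e2
    have : fderiv ℝ ρ P w = 0 := by linarith
    simpa using this
  have hcont : Filter.Tendsto (fun t : ℝ => c - t • w) (𝓝[>] 0) (𝓝 c) := by
    have : Filter.Tendsto (fun t : ℝ => c - t • w) (𝓝 0) (𝓝 (c - (0 : ℝ) • w)) :=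
      (by fun_prop : Continuous fun t : ℝ => c - t • w).tendsto 0
    rw [zero_smul, sub_zero] at this
    exact this.mono_left nhdsWithin_le_nhds
  have hev : ∀ᶠ t in 𝓝[>] (0 : ℝ), c - t • w ∈ D := hcont (hD.mem_nhds hcD)
  obtain ⟨t, ht, ht0⟩ := (hev.and self_mem_nhdsWithin).exists
  have := key _ ht
  rw [show c - t • w - P = (c - P) - t • w by ring, map_sub, map_smul, ← h, smul_eq_mul] at this
  have ht0' : 0 < t := ht0
  nlinarith

/-- **The boundary of a bounded open convex plane set with smooth boundary is a smooth simple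
closed curve.** -/
theorem exists_param {D : Set ℂ} (hD : IsOpen D) (hne : D.Nonempty)
    (hb : Bornology.IsBounded D) (hc : Convex ℝ D)
    (hs : ∀ P ∈ frontier D, ∃ (U : Set ℂ) (ρ : ℂ → ℝ), IsOpen U ∧ P ∈ U ∧ ContDiffOn ℝ ∞ ρ U ∧
      (∀ Q ∈ U, fderiv ℝ ρ Q ≠ 0) ∧ D ∩ U = {Q ∈ U | 0 < ρ Q} ∧
      frontier D ∩ U = {Q ∈ U | ρ Q = 0}) :
    ∃ γ : ℝ → ℂ, ContDiff ℝ ∞ γ ∧ (∀ θ, γ (θ + 2 * Real.pi) = γ θ) ∧
      InjOn γ (Ico 0 (2 * Real.pi)) ∧ (∀ θ, deriv γ θ ≠ 0) ∧ range γ = frontier D := by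
  obtain ⟨c, hcD⟩ := hne
  set D₀ : Set ℂ := (fun x => c + x) ⁻¹' D with hD₀
  have hD₀o : IsOpen D₀ := hD.preimage (by fun_prop)
  have h0 : (0 : ℂ) ∈ D₀ := by simpa [hD₀] using hcD
  have hn0 : D₀ ∈ 𝓝 (0 : ℂ) := hD₀o.mem_nhds h0
  have hc₀ : Convex ℝ D₀ := hc.translate_preimage_right c
  have hfr : ∀ x, x ∈ frontier D₀ ↔ c + x ∈ frontier D := by
    intro x
    have := (Homeomorph.addLeft c).preimage_frontier D
    have h3 : frontier D₀ = (fun x => c + x) ⁻¹' frontier D := this.symm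
    rw [h3]; rfl
  have hb₀ : Bornology.IsBounded D₀ := by
    obtain ⟨R, hR⟩ := hb.subset_closedBall c
    refine isBounded_closedBall.subset (s := D₀) (t := closedBall 0 R) ?_ |>.subset (le_refl _)
    intro x hx
    have := hR hx
    simpa [dist_eq_norm] using this
  have habs : Absorbent ℝ D₀ := absorbent_nhds_zero hn0
  set g := gauge D₀ with hg
  have gpos : ∀ x, x ≠ 0 → 0 < g x := fun x hx =>
    (gauge_pos habs ((NormedSpace.isVonNBounded_iff ℝ).2 hb₀)).2 hx
  have gcont : Continuous g := continuous_gauge hc₀ hn0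
  have gone : ∀ x, g x = 1 ↔ c + x ∈ frontier D := fun x => by
    rw [← hfr]; exact gauge_eq_one_iff_mem_frontier hc₀ hn0
  set s : ℝ → ℝ := fun θ => (g (uu θ))⁻¹ with hsdef
  have spos : ∀ θ, 0 < s θ := fun θ => inv_pos.2 (gpos _ (uu_ne θ))
  have scont : Continuous s :=
    (gcont.comp uu_contDiff.continuous).inv₀ fun θ => (gpos _ (uu_ne θ)).ne'
  have hmem : ∀ θ, c + s θ • uu θ ∈ frontier D := by
    intro θ
    rw [← gone, hg, gauge_smul_of_nonneg (spos θ).le, smul_eq_mul]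
    exact inv_mul_cancel₀ (gpos _ (uu_ne θ)).ne'
  -- smoothness
  have hsmooth : ContDiff ℝ ∞ s := by
    rw [contDiff_iff_contDiffAt]
    intro θ₀
    obtain ⟨U, ρ, hU, hPU, hρ, hdρ, e1, e2⟩ := hs _ (hmem θ₀)
    set P := c + s θ₀ • uu θ₀ with hP
    have htr := transversal hD hc hU hPU (hmem θ₀) hcD hρ (hdρ _ hPU) e1 e2
    set Ψ : ℝ × ℝ → ℝ × ℝ := fun x => (x.1, ρ (c + x.2 • uu x.1)) with hΨ
    have hin : ContDiff ℝ ∞ (fun x : ℝ × ℝ => c + x.2 • uu x.1) :=
      contDiff_const.add (contDiff_snd.smul (uu_contDiff.comp contDiff_fst))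
    have hρP : ContDiffAt ℝ ∞ ρ P := hρ.contDiffAt (hU.mem_nhds hPU)
    have hΨc : ContDiffAt ℝ ∞ Ψ (θ₀, s θ₀) := by
      refine contDiffAt_fst.prodMk ?_
      exact ContDiffAt.comp (g := ρ) (θ₀, s θ₀) hρP hin.contDiffAt
    have hΨd : DifferentiableAt ℝ Ψ (θ₀, s θ₀) := hΨc.differentiableAt (by simp)
    set L := fderiv ℝ Ψ (θ₀, s θ₀) with hL
    have hinner : HasFDerivAt (fun x : ℝ × ℝ => c + x.2 • uu x.1)
        (fderiv ℝ (fun x : ℝ × ℝ => c + x.2 • uu x.1) (θ₀, s θ₀)) (θ₀, s θ₀) :=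
      (hin.differentiable (by simp) _).hasFDerivAt
    have hLf : ∀ x : ℝ × ℝ, (L x).1 = x.1 := by
      intro x
      have : HasFDerivAt (fun x : ℝ × ℝ => (Ψ x).1) ((ContinuousLinearMap.fst ℝ ℝ ℝ).comp L)
        (θ₀, s θ₀) := hΨd.hasFDerivAt.fst
      have h2 : HasFDerivAt (fun x : ℝ × ℝ => (Ψ x).1) (ContinuousLinearMap.fst ℝ ℝ ℝ)
        (θ₀, s θ₀) := (ContinuousLinearMap.fst ℝ ℝ ℝ).hasFDerivAt
      have h3 := this.unique h2
      exact congrArg (fun l => l x) h3
    have hLs : ∀ y : ℝ, (L (0, y)).2 = y * fderiv ℝ ρ P (uu θ₀) := by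
      intro y
      have h1 : HasFDerivAt (fun x : ℝ × ℝ => (Ψ x).2) ((ContinuousLinearMap.snd ℝ ℝ ℝ).comp L)
        (θ₀, s θ₀) := (ContinuousLinearMap.snd ℝ ℝ ℝ).hasFDerivAt.comp _ hΨd.hasFDerivAt
      have hline : HasDerivAt (fun τ : ℝ => ((θ₀, s θ₀) : ℝ × ℝ) + τ • ((0, y) : ℝ × ℝ)) (0, y) 0 := by
        simpa using ((hasDerivAt_id (0 : ℝ)).smul_const ((0, y) : ℝ × ℝ)).const_add (θ₀, s θ₀)
      have h1' : HasFDerivAt (fun x : ℝ × ℝ => (Ψ x).2) ((ContinuousLinearMap.snd ℝ ℝ ℝ).comp L)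
        (((θ₀, s θ₀) : ℝ × ℝ) + (0 : ℝ) • ((0, y) : ℝ × ℝ)) := by simpa using h1
      have h4 := h1'.comp_hasDerivAt 0 hline
      have hline2 : HasDerivAt (fun τ : ℝ => P + τ • (y • uu θ₀)) (y • uu θ₀) 0 := by
        simpa using ((hasDerivAt_id (0 : ℝ)).smul_const (y • uu θ₀)).const_add P
      have hρP' : HasFDerivAt ρ (fderiv ℝ ρ P) (P + (0 : ℝ) • (y • uu θ₀)) := by
        simpa using (hρP.differentiableAt (by simp)).hasFDerivAt
      have h5 := hρP'.comp_hasDerivAt 0 hline2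
      have h6 : (fun x : ℝ × ℝ => (Ψ x).2) ∘ (fun τ : ℝ => ((θ₀, s θ₀) : ℝ × ℝ) + τ • ((0, y) : ℝ × ℝ))
          = ρ ∘ (fun τ : ℝ => P + τ • (y • uu θ₀)) := by
        funext τ
        simp only [hΨ, hP, Function.comp]
        congr 1
        simp only [Prod.mk_add_mk, Prod.smul_mk, smul_zero, add_zero]
        module
      rw [h6] at h4
      have h7 := h4.unique h5
      simp only [ContinuousLinearMap.comp_apply, ContinuousLinearMap.coe_snd', map_smul,
        smul_eq_mul] at h7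
      exact h7
    have hB : fderiv ℝ ρ P (uu θ₀) ≠ 0 := by
      intro h
      rw [hP, show c - (c + s θ₀ • uu θ₀) = -(s θ₀ • uu θ₀) by ring, map_neg, map_smul, ← hP, h]
        at htr
      simp at htr
    have hLinj : Function.Injective L := by
      rw [injective_iff_map_eq_zero]
      rintro ⟨x, y⟩ hxy
      have h1 := hLf (x, y)
      rw [hxy] at h1
      have hx : x = 0 := h1.symm
      subst hx
      have h2 := hLs y
      rw [hxy] at h2
      have hy : y = 0 := by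
        rcases mul_eq_zero.1 h2.symm with h | h
        · exact h
        · exact absurd h hB
      rw [hy]; rfl
    let e : (ℝ × ℝ) ≃L[ℝ] (ℝ × ℝ) :=
      (LinearEquiv.ofInjectiveEndo (L : (ℝ × ℝ) →ₗ[ℝ] (ℝ × ℝ)) hLinj).toContinuousLinearEquiv
    have he : (e : (ℝ × ℝ) →L[ℝ] (ℝ × ℝ)) = L := by
      ext <;> rfl
    have hΨe : HasFDerivAt Ψ (e : (ℝ × ℝ) →L[ℝ] (ℝ × ℝ)) (θ₀, s θ₀) := by
      rw [he]; exact hΨd.hasFDerivAt
    have hn : (∞ : WithTop ℕ∞) ≠ 0 := by simp
    set F := hΨc.toOpenPartialHomeomorph Ψ hΨe hn with hF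
    have hFc : (F : ℝ × ℝ → ℝ × ℝ) = Ψ := rfl
    have hsrc : (θ₀, s θ₀) ∈ F.source := hΨc.mem_toOpenPartialHomeomorph_source hΨe hn
    have hinv : ContDiffAt ℝ ∞ F.symm (Ψ (θ₀, s θ₀)) := hΨc.to_localInverse hΨe hn
    have hρ0 : ∀ θ, c + s θ • uu θ ∈ U → ρ (c + s θ • uu θ) = 0 := by
      intro θ h
      have : c + s θ • uu θ ∈ frontier D ∩ U := ⟨hmem θ, h⟩
      rw [e2] at this
      exact this.2
    have hΨ0 : Ψ (θ₀, s θ₀) = (θ₀, 0) := by
      simp only [hΨ]
      rw [hρ0 θ₀ hPU]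
    rw [hΨ0] at hinv
    have hcomp : ContDiffAt ℝ ∞ (fun θ : ℝ => (F.symm (θ, 0)).2) θ₀ := by
      have h1 : ContDiffAt ℝ ∞ (fun θ : ℝ => ((θ, 0) : ℝ × ℝ)) θ₀ :=
        contDiffAt_id.prodMk contDiffAt_const
      exact contDiff_snd.contDiffAt.comp θ₀ (hinv.comp θ₀ h1)
    refine hcomp.congr_of_eventuallyEq ?_
    have ev1 : ∀ᶠ θ in 𝓝 θ₀, (θ, s θ) ∈ F.source :=
      (continuous_id.prodMk scont).continuousAt (F.open_source.mem_nhds hsrc)
    have ev2 : ∀ᶠ θ in 𝓝 θ₀, c + s θ • uu θ ∈ U := by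
      have : Continuous fun θ => c + s θ • uu θ :=
        continuous_const.add (scont.smul uu_contDiff.continuous)
      exact this.continuousAt (hU.mem_nhds hPU)
    filter_upwards [ev1, ev2] with θ h1 h2
    have h3 : F (θ, s θ) = (θ, 0) := by
      rw [hFc]
      simp only [hΨ]
      rw [hρ0 θ h2]
    rw [← h3, F.left_inv h1]
  refine ⟨fun θ => c + s θ • uu θ, contDiff_const.add (hsmooth.smul uu_contDiff), ?_, ?_, ?_, ?_⟩
  · intro θ
    simp only [hsdef, uu_add]
  · intro θ hθ θ' hθ' he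
    simp only [add_right_inj] at he
    have h1 : s θ = s θ' := by
      have := congrArg norm he
      rwa [norm_smul, norm_smul, norm_uu, norm_uu, mul_one, mul_one,
        Real.norm_of_nonneg (spos θ).le, Real.norm_of_nonneg (spos θ').le] at this
    rw [h1] at he
    exact uu_inj hθ hθ' (smul_right_injective _ (spos θ').ne' he)
  · intro θ h
    have hsd : HasDerivAt s (deriv s θ) θ := ((hsmooth.differentiable (by simp)) θ).hasDerivAt
    have h1 := (hsd.fun_smul (uu_deriv θ)).const_add c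
    rw [h1.deriv] at h
    have h2 : uu θ * (((deriv s θ : ℝ) : ℂ) + s θ * Complex.I) = 0 := by
      rw [← h]
      simp only [Complex.real_smul]
      ring
    rcases mul_eq_zero.1 h2 with h3 | h3
    · exact uu_ne θ h3
    · have := congrArg Complex.im h3
      simp at this
      exact (spos θ).ne' this
  · apply Subset.antisymm
    · rintro _ ⟨θ, rfl⟩
      exact hmem θ
    · intro x hx
      set y := x - c with hy
      have hx' : x = c + y := by rw [hy]; ring
      have hgy : g y = 1 := by rw [gone, ← hx']; exact hx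
      have hy0 : y ≠ 0 := by
        intro h
        rw [h, hg, gauge_zero] at hgy
        norm_num at hgy
      refine ⟨Complex.arg y, ?_⟩
      have h1 : y = ‖y‖ • uu (Complex.arg y) := by
        rw [uu, Complex.real_smul, Complex.norm_mul_exp_arg_mul_I]
      have h2 : ‖y‖ * g (uu (Complex.arg y)) = 1 := by
        rw [← hgy]
        conv_rhs => rw [h1]
        rw [hg, gauge_smul_of_nonneg (norm_nonneg y), smul_eq_mul]
      have h3 : s (Complex.arg y) = ‖y‖ := by
        simp only [hsdef]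
        rw [inv_eq_iff_eq_inv]
        exact eq_inv_of_mul_eq_one_right h2
      show c + s (Complex.arg y) • uu (Complex.arg y) = x
      rw [h3, ← h1, hx']

end

end ParamCurve

end Pool.Agent.MP_49383f_gt
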