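import Pool.Agent.MP_49383f_gt.Basic

/-! # Continuity of `PHI` on the closed domain `GG`, integrability of the density -/

namespace Pool.Agent.MP_49383f_gt

open scoped ContDiff ComplexConjugate
open MeasureTheory Metric Set

namespace PhiCont

theorem sg_continuousOn (r : ℝ) (a b : ℂ) {s : Set ℂ} (hs : ∀ z ∈ s, z ≠ a) :
    ContinuousOn (sg r a b) s := by
  intro z hz
  exact (hasDerivAt_sg r a b (hs z hz)).continuousAt.continuousWithinAt

/-- `σ` maps `{r ≤ ‖z - a‖}` into the closed ball of radius `r`. -/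
theorem sg_mem {r : ℝ} (hr : 0 < r) (a b : ℂ) {z : ℂ} (hz : r ≤ ‖z - a‖) :
    sg r a b z ∈ closedBall b r := by
  rw [mem_closedBall, dist_eq_norm, norm_sg_sub, div_le_iff₀ (by linarith)]
  nlinarith

theorem ne_of_le {r : ℝ} (hr : 0 < r) {a z : ℂ} (hz : r ≤ ‖z - a‖) : z ≠ a := by
  rintro rfl
  simp at hz
  linarith

end PhiCont

open PhiCont

theorem Sol.continuousOn_PHI_GG {ε : ℝ} (hε : 0 < ε) (hε' : ε ≤ 1 / 10) {a b : ℂ}
    {E : ℂ → ℂ × ℂ} {h p q : ℂ → ℂ × ℂ} (s : Sol ε E a b h p q) :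
    ContinuousOn (PHI (ε ^ 2) a b h p q) (GG (ε ^ 2) a b) := by
  have hr : 0 < ε ^ 2 := by positivity
  have hr4 : ε ^ 2 ≤ 1 / 4 := by nlinarith
  have ha : ∀ z ∈ GG (ε ^ 2) a b, z ≠ a := fun z hz => ne_of_le hr hz.2.1
  have hb : ∀ z ∈ GG (ε ^ 2) a b, z ≠ b := fun z hz => ne_of_le hr hz.2.2
  have hp : ContinuousOn (fun z => p (sg (ε ^ 2) a b z)) (GG (ε ^ 2) a b) :=
    s.p_cont.comp (sg_continuousOn _ _ _ ha)
      (fun z hz => closedBall_subset_closedBall hr4 (sg_mem hr a b hz.2.1))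
  have hq : ContinuousOn (fun z => q (sg (ε ^ 2) b a z)) (GG (ε ^ 2) a b) :=
    s.q_cont.comp (sg_continuousOn _ _ _ hb)
      (fun z hz => closedBall_subset_closedBall hr4 (sg_mem hr b a hz.2.2))
  have h1 : ContinuousOn (fun z : ℂ => ((ε ^ 2 : ℝ) : ℂ) / (z - a)) (GG (ε ^ 2) a b) :=
    continuousOn_const.div (by fun_prop) (fun z hz => sub_ne_zero.2 (ha z hz))
  have h2 : ContinuousOn (fun z : ℂ => ((ε ^ 2 : ℝ) : ℂ) / (z - b)) (GG (ε ^ 2) a b) :=
    continuousOn_const.div (by fun_prop) (fun z hz => sub_ne_zero.2 (hb z hz))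
  have h3 : ContinuousOn (fun z => JJ (p (sg (ε ^ 2) a b z))) (GG (ε ^ 2) a b) :=
    continuous_JJ.comp_continuousOn hp
  have h4 : ContinuousOn (fun z => JJ (q (sg (ε ^ 2) b a z))) (GG (ε ^ 2) a b) :=
    continuous_JJ.comp_continuousOn hq
  exact (s.h_cont.continuousOn.add (h1.smul h3)).add (h2.smul h4)

theorem Sol.integrable_density {ε : ℝ} (hε : 0 < ε) (hε' : ε ≤ 1 / 10) {a b : ℂ}
    {E : ℂ → ℂ × ℂ} {h p q : ℂ → ℂ × ℂ} (s : Sol ε E a b h p q) :
    Integrable ((GG (ε ^ 2) a b).indicator (fun ζ => mu ε (PHI (ε ^ 2) a b h p q ζ))) := by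
  rw [integrable_indicator_iff (isClosed_GG _ _ _).measurableSet]
  exact ((continuous_mu ε).comp_continuousOn (s.continuousOn_PHI_GG hε hε')).integrableOn_compact
    (isCompact_GG _ _ _)

end Pool.Agent.MP_49383f_gt
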