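import Pool.Agent.MP_49383f_gt.SolEst

/-!
# M14: estimates for `φ`
-/

namespace Pool.Agent.MP_49383f_gt

open scoped ContDiff ComplexConjugate
open MeasureTheory Metric Set

open SolEst in
theorem phi_est : ∃ C > 0, ∃ ε₀ > 0, ∀ ε : ℝ, 0 < ε → ε < ε₀ → ∀ c ∈ Icc (-1 : ℝ) 1,
    ∀ h p q, Sol ε (EE ε c) aa bb h p q → ∀ z ∈ GG (ε ^ 2) aa bb,
      ‖(PHI (ε ^ 2) aa bb h p q z).1 - 1‖ ≤
        C * (ε ^ 2 + ε * (ε ^ 2 / ‖z - aa‖) + ε * (ε ^ 2 / ‖z - bb‖)) ∧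
      ‖(PHI (ε ^ 2) aa bb h p q z).2 - (ε * (qq z + c * z) - ((ε ^ 2 : ℝ) : ℂ) / (z - aa)
        - ((ε ^ 2 : ℝ) : ℂ) / (z - bb))‖ ≤ C * ε ^ 2 := by
  obtain ⟨C, hC, ε₀, hε₀, H⟩ := sol_est
  refine ⟨10 + 3 * C, by positivity, min ε₀ (1 / 10), by positivity, ?_⟩
  intro ε hε hε' c hc h p q s z hz
  obtain ⟨hh, hp, hq⟩ := H ε hε (hε'.trans_le (min_le_left _ _)) c hc h p q s
  have hε1 : ε ≤ 1 / 10 := (hε'.trans_le (min_le_right _ _)).le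
  have hr : 0 < ε ^ 2 := by positivity
  have hr4 : ε ^ 2 ≤ 1 / 4 := by nlinarith
  have hz4 : z ∈ closedBall (0 : ℂ) 4 := by
    rw [mem_closedBall, dist_zero_right]; exact hz.1
  have hz' : z ∈ GG (ε ^ 2) bb aa := by rwa [GG_swap]
  have hqq : ∀ w : ℂ, ‖w‖ ≤ 2 → ‖(ε : ℂ) * (qq w + c * w)‖ ≤ 10 * ε := by
    intro w hw
    have h1 : ‖qq w + c * w‖ ≤ 10 := by
      rw [qq]
      calc _ ≤ ‖2 * w - w ^ 2 / 2 - conj w‖ + ‖(c : ℂ) * w‖ := norm_add_le _ _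
        _ ≤ (‖2 * w - w ^ 2 / 2‖ + ‖conj w‖) + ‖(c : ℂ) * w‖ := by
          gcongr; exact norm_sub_le _ _
        _ ≤ ((‖2 * w‖ + ‖w ^ 2 / 2‖) + ‖conj w‖) + ‖(c : ℂ) * w‖ := by
          gcongr; exact norm_sub_le _ _
        _ ≤ ((2 * 2 + 2 ^ 2 / 2) + 2) + 1 * 2 := by
          have hc1 : ‖(c : ℂ)‖ ≤ 1 := by
            rw [Complex.norm_real, Real.norm_eq_abs, abs_le]; exact hc
          rw [RCLike.norm_conj, norm_mul, norm_mul, norm_div, norm_pow]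
          have : ‖(2 : ℂ)‖ = 2 := by simp
          rw [this]
          gcongr
        _ = 10 := by norm_num
    rw [norm_mul, Complex.norm_real, Real.norm_eq_abs, abs_of_pos hε]
    nlinarith
  have hp2 : ‖(p (sg (ε ^ 2) aa bb z)).2‖ ≤ (10 + C) * ε := by
    have hmem := sg_mem4 hr hr4 hz
    have h1 := (hp _ hmem).2
    have h2 : ‖sg (ε ^ 2) aa bb z‖ ≤ 2 := by
      rw [mem_closedBall, dist_eq_norm] at hmem
      have h3 : ‖sg (ε ^ 2) aa bb z‖ ≤ ‖sg (ε ^ 2) aa bb z - bb‖ + ‖bb‖ := by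
        calc _ = ‖(sg (ε ^ 2) aa bb z - bb) + bb‖ := by rw [sub_add_cancel]
          _ ≤ _ := norm_add_le _ _
      rw [norm_bb] at h3
      linarith
    have h4 := hqq _ h2
    generalize sg (ε ^ 2) aa bb z = w at *
    calc ‖(p w).2‖ = ‖((p w).2 - ε * (qq w + c * w)) + ε * (qq w + c * w)‖ := by
          rw [sub_add_cancel]
      _ ≤ ‖(p w).2 - ε * (qq w + c * w)‖ + ‖(ε : ℂ) * (qq w + c * w)‖ := norm_add_le _ _
      _ ≤ C * ε ^ 2 + 10 * ε := add_le_add h1 h4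
      _ ≤ _ := by
        have : C * ε ^ 2 ≤ C * ε := mul_le_mul_of_nonneg_left (by nlinarith) hC.le
        linarith
  have hq2 : ‖(q (sg (ε ^ 2) bb aa z)).2‖ ≤ (10 + C) * ε := by
    have hmem := sg_mem4 hr hr4 hz'
    have h1 := (hq _ hmem).2
    have h2 : ‖sg (ε ^ 2) bb aa z‖ ≤ 2 := by
      rw [mem_closedBall, dist_eq_norm] at hmem
      have h3 : ‖sg (ε ^ 2) bb aa z‖ ≤ ‖sg (ε ^ 2) bb aa z - aa‖ + ‖aa‖ := by
        calc _ = ‖(sg (ε ^ 2) bb aa z - aa) + aa‖ := by rw [sub_add_cancel]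
          _ ≤ _ := norm_add_le _ _
      rw [norm_aa] at h3
      linarith
    have h4 := hqq _ h2
    generalize sg (ε ^ 2) bb aa z = w at *
    calc ‖(q w).2‖ = ‖((q w).2 - ε * (qq w + c * w)) + ε * (qq w + c * w)‖ := by
          rw [sub_add_cancel]
      _ ≤ ‖(q w).2 - ε * (qq w + c * w)‖ + ‖(ε : ℂ) * (qq w + c * w)‖ := norm_add_le _ _
      _ ≤ C * ε ^ 2 + 10 * ε := add_le_add h1 h4
      _ ≤ _ := by
        have : C * ε ^ 2 ≤ C * ε := mul_le_mul_of_nonneg_left (by nlinarith) hC.le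
        linarith
  have hwa0 := w_nonneg hr (a := aa) (z := z)
  have hwb0 := w_nonneg hr (a := bb) (z := z)
  have hwa1 := w_le_one hr hz
  have hwb1 := w_le_one hr hz'
  constructor
  · rw [PHI_fst]
    have e : (h z).1 + ((ε ^ 2 : ℝ) : ℂ) / (z - aa) * (p (sg (ε ^ 2) aa bb z)).2 +
        ((ε ^ 2 : ℝ) : ℂ) / (z - bb) * (q (sg (ε ^ 2) bb aa z)).2 - 1 =
        ((h z).1 - 1) + ((ε ^ 2 : ℝ) : ℂ) / (z - aa) * (p (sg (ε ^ 2) aa bb z)).2 +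
        ((ε ^ 2 : ℝ) : ℂ) / (z - bb) * (q (sg (ε ^ 2) bb aa z)).2 := by ring
    rw [e]
    calc _ ≤ _ + _ + _ := norm_add₃_le
      _ ≤ C * ε ^ 2 + (ε ^ 2 / ‖z - aa‖) * ((10 + C) * ε) +
          (ε ^ 2 / ‖z - bb‖) * ((10 + C) * ε) := by
        rw [norm_mul, norm_mul, norm_w hr, norm_w hr]
        exact add_le_add (add_le_add (hh z hz4).1 (mul_le_mul_of_nonneg_left hp2 hwa0))
          (mul_le_mul_of_nonneg_left hq2 hwb0)
      _ ≤ _ := by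
        have h1 : 0 ≤ (ε ^ 2 / ‖z - aa‖) * ε := by positivity
        have h2 : 0 ≤ (ε ^ 2 / ‖z - bb‖) * ε := by positivity
        nlinarith
  · rw [PHI_snd]
    have e : (h z).2 + ((ε ^ 2 : ℝ) : ℂ) / (z - aa) * (-(p (sg (ε ^ 2) aa bb z)).1) +
        ((ε ^ 2 : ℝ) : ℂ) / (z - bb) * (-(q (sg (ε ^ 2) bb aa z)).1) -
        (ε * (qq z + c * z) - ((ε ^ 2 : ℝ) : ℂ) / (z - aa) - ((ε ^ 2 : ℝ) : ℂ) / (z - bb)) =
        ((h z).2 - ε * (qq z + c * z)) +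
        ((ε ^ 2 : ℝ) : ℂ) / (z - aa) * (-((p (sg (ε ^ 2) aa bb z)).1 - 1)) +
        ((ε ^ 2 : ℝ) : ℂ) / (z - bb) * (-((q (sg (ε ^ 2) bb aa z)).1 - 1)) := by ring
    rw [e]
    calc _ ≤ _ + _ + _ := norm_add₃_le
      _ ≤ C * ε ^ 2 + 1 * (C * ε ^ 2) + 1 * (C * ε ^ 2) := by
        rw [norm_mul, norm_mul, norm_w hr, norm_w hr, norm_neg, norm_neg]
        exact add_le_add (add_le_add (hh z hz4).2
          (mul_le_mul hwa1 (hp _ (sg_mem4 hr hr4 hz)).1 (norm_nonneg _) (by norm_num)))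
          (mul_le_mul hwb1 (hq _ (sg_mem4 hr hr4 hz')).1 (norm_nonneg _) (by norm_num))
      _ ≤ _ := by nlinarith

end Pool.Agent.MP_49383f_gt
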