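import Pool.Agent.MP_49383f_gt.Basic

/-!
# MP_49383f_gt, module G02: primitives of closed forms on the rectangle minus two squares
-/

namespace Pool.Agent.MP_49383f_gt

open scoped ContDiff ComplexConjugate
open MeasureTheory Metric Set

/-- the rectangle minus two closed squares -/
def RdSq (ρ : ℝ) : Set ℂ :=
  {z ∈ Rect | ¬ (|z.re - 3 / 2| ≤ ρ ∧ |z.im| ≤ ρ) ∧ ¬ (|z.re - 1 / 2| ≤ ρ ∧ |z.im| ≤ ρ)}

namespace Primitive

variable {F : Type*} [NormedAddCommGroup F] [NormedSpace ℝ F]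

/-- `f` is a primitive of `om` on `S` -/
def Prim (om : ℂ → ℂ →L[ℝ] F) (S : Set ℂ) (f : ℂ → F) : Prop := ∀ z ∈ S, HasFDerivAt f (om z) z

theorem Prim.mono {om : ℂ → ℂ →L[ℝ] F} {S S' : Set ℂ} {f : ℂ → F} (h : Prim om S f)
    (hs : S' ⊆ S) : Prim om S' f := fun z hz => h z (hs hz)

theorem Prim.add_const {om : ℂ → ℂ →L[ℝ] F} {S : Set ℂ} {f : ℂ → F} (h : Prim om S f) (c : F) :
    Prim om S (fun z => f z + c) := fun z hz => (h z hz).add_const c

/-- gluing of two primitives -/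
theorem glue {om : ℂ → ℂ →L[ℝ] F} {S S' : Set ℂ} (hS : IsOpen S) (hS' : IsOpen S')
    {f f' : ℂ → F} (h : Prim om S f) (h' : Prim om S' f') (he : ∀ z ∈ S, z ∈ S' → f z = f' z) :
    ∃ g, Prim om (S ∪ S') g ∧ (∀ z ∈ S, g z = f z) ∧ ∀ z ∈ S', g z = f' z := by
  classical
  let g : ℂ → F := fun z => if z ∈ S then f z else f' z
  have g1 : ∀ z ∈ S, g z = f z := fun z hz => if_pos hz
  have g2 : ∀ z ∈ S', g z = f' z := by
    intro z hz
    by_cases hzS : z ∈ S
    · rw [g1 z hzS, he z hzS hz]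
    · exact if_neg hzS
  refine ⟨g, ?_, g1, g2⟩
  rintro z (hz | hz)
  · exact (h z hz).congr_of_eventuallyEq (Filter.eventually_of_mem (hS.mem_nhds hz) g1)
  · exact (h' z hz).congr_of_eventuallyEq (Filter.eventually_of_mem (hS'.mem_nhds hz) g2)

/-- two primitives on a convex open set differ by a constant -/
theorem const_diff {om : ℂ → ℂ →L[ℝ] F} {S : Set ℂ} (hS : IsOpen S) (hc : Convex ℝ S)
    {f f' : ℂ → F} (h : Prim om S f) (h' : Prim om S f') :
    ∃ c, ∀ z ∈ S, f z = f' z + c := by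
  obtain ⟨a, ha⟩ := hS.exists_eq_add_of_fderiv_eq (𝕜 := ℝ) hc.isPreconnected
    (fun z hz => (h z hz).differentiableAt.differentiableWithinAt)
    (fun z hz => (h' z hz).differentiableAt.differentiableWithinAt)
    (fun z hz => by rw [(h z hz).fderiv, (h' z hz).fderiv])
  exact ⟨a, fun z hz => ha hz⟩

/-- the fundamental theorem of calculus along an arc of a circle -/
theorem ftc_arc [CompleteSpace F] {om : ℂ → ℂ →L[ℝ] F} {S : Set ℂ} {f : ℂ → F} (h : Prim om S f) {p : ℂ}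
    {r α β : ℝ} (hαβ : α ≤ β) (hm : ∀ θ ∈ Icc α β, circleMap p r θ ∈ S)
    (hcont : ∀ θ, ContinuousAt (fun θ => om (circleMap p r θ) (circleMap 0 r θ * Complex.I)) θ) :
    ∫ θ in α..β, om (circleMap p r θ) (circleMap 0 r θ * Complex.I) =
      f (circleMap p r β) - f (circleMap p r α) := by
  refine intervalIntegral.integral_eq_sub_of_hasDerivAt
    (f := fun θ => f (circleMap p r θ)) ?_ ?_
  · intro θ hθ
    rw [uIcc_of_le hαβ] at hθ
    exact (h _ (hm θ hθ)).comp_hasDerivAt θ (hasDerivAt_circleMap p r θ)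
  · exact (continuous_iff_continuousAt.2 hcont).intervalIntegrable _ _

/-- vanishing of the constant from the vanishing of a circle integral -/
theorem const_eq_zero [CompleteSpace F] {om : ℂ → ℂ →L[ℝ] F} {U B U1 U2 : Set ℂ} (hB : IsOpen B)
    (hU1 : IsOpen U1) (hU2 : IsOpen U2) (h1 : U1 ⊆ U) (h2 : U2 ⊆ U) {f g : ℂ → F}
    (hf : Prim om U f) (hg : Prim om B g) {k : F} (e1 : ∀ z ∈ B, z ∈ U1 → g z = f z)
    (e2 : ∀ z ∈ B, z ∈ U2 → f z = g z + k) {p : ℂ} {r : ℝ}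
    (hcont : ∀ θ, ContinuousAt (fun θ => om (circleMap p r θ) (circleMap 0 r θ * Complex.I)) θ)
    (m1 : ∀ θ ∈ Icc 0 Real.pi, circleMap p r θ ∈ U)
    (m2 : ∀ θ ∈ Icc Real.pi (3 * Real.pi / 2), circleMap p r θ ∈ B ∪ U1)
    (m3 : ∀ θ ∈ Icc (3 * Real.pi / 2) (2 * Real.pi), circleMap p r θ ∈ B ∪ U2)
    (n1 : circleMap p r Real.pi ∈ U1) (n2 : circleMap p r (3 * Real.pi / 2) ∈ B)
    (n3 : circleMap p r 0 ∈ U2)
    (hint : ∫ θ in (0 : ℝ)..(2 * Real.pi), om (circleMap p r θ) (circleMap 0 r θ * Complex.I) = 0) :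
    k = 0 := by
  have hpi := Real.pi_pos
  obtain ⟨v, v1, v2, v3⟩ := glue hB hU1 hg (hf.mono h1) e1
  obtain ⟨w, w1, w2, w3⟩ := glue hB hU2 (hg.add_const k) (hf.mono h2)
    (fun z hz hz' => (e2 z hz hz').symm)
  have i1 := ftc_arc hf hpi.le m1 hcont
  have i2 := ftc_arc v1 (by linarith) m2 hcont
  have i3 := ftc_arc w1 (by linarith) m3 hcont
  have ii : ∀ x y : ℝ, IntervalIntegrable
      (fun θ => om (circleMap p r θ) (circleMap 0 r θ * Complex.I)) volume x y := fun x y =>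
    (continuous_iff_continuousAt.2 hcont).intervalIntegrable _ _
  have e0 : circleMap p r (2 * Real.pi) = circleMap p r 0 := by simp [circleMap]
  rw [← intervalIntegral.integral_add_adjacent_intervals (ii 0 (3 * Real.pi / 2)) (ii _ _),
    ← intervalIntegral.integral_add_adjacent_intervals (ii 0 Real.pi) (ii _ _), i1, i2, i3,
    v2 _ n2, v3 _ n1, w2 _ n2, e0, w3 _ n3] at hint
  have : -k = 0 := by
    rw [← hint]; abel
  exact neg_eq_zero.1 this

/-- an open box -/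
def box (a b c d : ℝ) : Set ℂ := {z | a < z.re ∧ z.re < b ∧ c < z.im ∧ z.im < d}

theorem box_open (a b c d : ℝ) : IsOpen (box a b c d) :=
  (isOpen_lt continuous_const Complex.continuous_re).inter
    ((isOpen_lt Complex.continuous_re continuous_const).inter
      ((isOpen_lt continuous_const Complex.continuous_im).inter
        (isOpen_lt Complex.continuous_im continuous_const)))

theorem box_convex (a b c d : ℝ) : Convex ℝ (box a b c d) := by
  have h1 : Convex ℝ {z : ℂ | a < z.re} := convex_halfSpace_re_gt a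
  have h2 : Convex ℝ {z : ℂ | z.re < b} := convex_halfSpace_re_lt b
  have h3 : Convex ℝ {z : ℂ | c < z.im} := convex_halfSpace_im_gt c
  have h4 : Convex ℝ {z : ℂ | z.im < d} := convex_halfSpace_im_lt d
  exact h1.inter (h2.inter (h3.inter h4))

end Primitive

open Primitive in
theorem exists_primitive {F : Type*} [NormedAddCommGroup F] [NormedSpace ℝ F] [CompleteSpace F]
    {ρ r : ℝ} (hρ : 0 < ρ) (hρr : 2 * ρ < r) (hr : r < 1 / 4) {om : ℂ → ℂ →L[ℝ] F}
    (hω : DifferentiableOn ℝ om (RdSq ρ))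
    (hcl : ∀ z ∈ RdSq ρ, ∀ u v, fderiv ℝ om z u v = fderiv ℝ om z v u)
    (pa : ∫ θ in (0 : ℝ)..(2 * Real.pi), om (circleMap aa r θ) (circleMap 0 r θ * Complex.I) = 0)
    (pb : ∫ θ in (0 : ℝ)..(2 * Real.pi), om (circleMap bb r θ) (circleMap 0 r θ * Complex.I) = 0) :
    ∃ f : ℂ → F, ∀ z ∈ RdSq ρ, HasFDerivAt f (om z) z := by
  -- the five pieces
  set T : Set ℂ := box (1 / 20) (33 / 10) ρ (19 / 10) with hT
  set B : Set ℂ := box (1 / 20) (33 / 10) (-(19 / 10)) (-ρ) with hB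
  set L : Set ℂ := box (1 / 20) (1 / 2 - ρ) (-(19 / 10)) (19 / 10) with hL
  set M : Set ℂ := box (1 / 2 + ρ) (3 / 2 - ρ) (-(19 / 10)) (19 / 10) with hM
  set R : Set ℂ := box (3 / 2 + ρ) (33 / 10) (-(19 / 10)) (19 / 10) with hR
  have oT : IsOpen T := box_open _ _ _ _
  have oB : IsOpen B := box_open _ _ _ _
  have oL : IsOpen L := box_open _ _ _ _
  have oM : IsOpen M := box_open _ _ _ _
  have oR : IsOpen R := box_open _ _ _ _
  have cT : Convex ℝ T := box_convex _ _ _ _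
  have cB : Convex ℝ B := box_convex _ _ _ _
  have cL : Convex ℝ L := box_convex _ _ _ _
  have cM : Convex ℝ M := box_convex _ _ _ _
  have cR : Convex ℝ R := box_convex _ _ _ _
  have sT : T ⊆ RdSq ρ := by
    rintro z ⟨h1, h2, h3, h4⟩
    refine ⟨⟨h1, h2, abs_lt.2 ⟨by linarith, h4⟩⟩, fun h => ?_, fun h => ?_⟩ <;>
    linarith [(abs_le.1 h.2).2]
  have sB : B ⊆ RdSq ρ := by
    rintro z ⟨h1, h2, h3, h4⟩
    refine ⟨⟨h1, h2, abs_lt.2 ⟨h3, by linarith⟩⟩, fun h => ?_, fun h => ?_⟩ <;>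
    linarith [(abs_le.1 h.2).1]
  have sL : L ⊆ RdSq ρ := by
    rintro z ⟨h1, h2, h3, h4⟩
    refine ⟨⟨h1, by linarith, abs_lt.2 ⟨h3, h4⟩⟩, fun h => ?_, fun h => ?_⟩ <;>
    linarith [(abs_le.1 h.1).1]
  have sM : M ⊆ RdSq ρ := by
    rintro z ⟨h1, h2, h3, h4⟩
    refine ⟨⟨by linarith, by linarith, abs_lt.2 ⟨h3, h4⟩⟩, fun h => ?_, fun h => ?_⟩
    · linarith [(abs_le.1 h.1).1]
    · linarith [(abs_le.1 h.1).2]
  have sR : R ⊆ RdSq ρ := by
    rintro z ⟨h1, h2, h3, h4⟩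
    refine ⟨⟨by linarith, h2, abs_lt.2 ⟨h3, h4⟩⟩, fun h => ?_, fun h => ?_⟩ <;>
    linarith [(abs_le.1 h.1).2]
  have cover : RdSq ρ ⊆ T ∪ L ∪ M ∪ R ∪ B := by
    rintro z ⟨⟨h1, h2, h3⟩, h4, h5⟩
    obtain ⟨h3a, h3b⟩ := abs_lt.1 h3
    by_cases c1 : ρ < z.im
    · exact Or.inl (Or.inl (Or.inl (Or.inl ⟨h1, h2, c1, h3b⟩)))
    by_cases c2 : z.im < -ρ
    · exact Or.inr ⟨h1, h2, h3a, c2⟩
    have c3 : |z.im| ≤ ρ := abs_le.2 ⟨not_lt.1 c2, not_lt.1 c1⟩
    by_cases c4 : z.re < 1 / 2 - ρ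
    · exact Or.inl (Or.inl (Or.inl (Or.inr ⟨h1, c4, h3a, h3b⟩)))
    by_cases c5 : 3 / 2 + ρ < z.re
    · exact Or.inl (Or.inr ⟨c5, h2, h3a, h3b⟩)
    have c6 : 1 / 2 + ρ < z.re := by
      by_contra hc
      exact h5 ⟨abs_le.2 ⟨by linarith, by linarith⟩, c3⟩
    have c7 : z.re < 3 / 2 - ρ := by
      by_contra hc
      exact h4 ⟨abs_le.2 ⟨by linarith, by linarith⟩, c3⟩
    exact Or.inl (Or.inl (Or.inr ⟨c6, c7, h3a, h3b⟩))
  -- primitives on the pieces
  have ex : ∀ S : Set ℂ, IsOpen S → Convex ℝ S → S ⊆ RdSq ρ → ∃ f, Prim om S f :=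
    fun S hS hc hs => hc.exists_forall_hasFDerivAt_of_fderiv_symmetric hS (hω.mono hs)
      (fun z hz => hcl z (hs hz))
  obtain ⟨fT, hfT⟩ := ex T oT cT sT
  obtain ⟨fL', hfL'⟩ := ex L oL cL sL
  obtain ⟨fM', hfM'⟩ := ex M oM cM sM
  obtain ⟨fR', hfR'⟩ := ex R oR cR sR
  obtain ⟨fB', hfB'⟩ := ex B oB cB sB
  -- adjust
  obtain ⟨cl, hcl'⟩ := const_diff (oT.inter oL) (cT.inter cL) (hfT.mono inter_subset_left)
    (hfL'.mono inter_subset_right)
  obtain ⟨cm, hcm⟩ := const_diff (oT.inter oM) (cT.inter cM) (hfT.mono inter_subset_left)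
    (hfM'.mono inter_subset_right)
  obtain ⟨cr, hcr⟩ := const_diff (oT.inter oR) (cT.inter cR) (hfT.mono inter_subset_left)
    (hfR'.mono inter_subset_right)
  obtain ⟨f1, p1, p1T, p1L⟩ := glue oT oL hfT (hfL'.add_const cl)
    (fun z h1 h2 => hcl' z ⟨h1, h2⟩)
  have nLM : ∀ z, z ∈ L → z ∈ M → False := fun z h1 h2 => by
    linarith [h1.2.1, h2.1]
  have nLR : ∀ z, z ∈ L → z ∈ R → False := fun z h1 h2 => by
    linarith [h1.2.1, h2.1]
  have nMR : ∀ z, z ∈ M → z ∈ R → False := fun z h1 h2 => by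
    linarith [h1.2.1, h2.1]
  obtain ⟨f2, p2, p2a, p2M⟩ := glue (oT.union oL) oM p1 (hfM'.add_const cm) (by
    rintro z (h1 | h1) h2
    · rw [p1T z h1]; exact hcm z ⟨h1, h2⟩
    · exact (nLM z h1 h2).elim)
  obtain ⟨f3, p3, p3a, p3R⟩ := glue ((oT.union oL).union oM) oR p2 (hfR'.add_const cr) (by
    rintro z ((h1 | h1) | h1) h2
    · rw [p2a z (Or.inl h1), p1T z h1]; exact hcr z ⟨h1, h2⟩
    · exact (nLR z h1 h2).elim
    · exact (nMR z h1 h2).elim)
  have p3' := p3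
  have q3L : Prim om L f3 := p3.mono fun z h => Or.inl (Or.inl (Or.inr h))
  have q3M : Prim om M f3 := p3.mono fun z h => Or.inl (Or.inr h)
  have q3R : Prim om R f3 := p3.mono fun z h => Or.inr h
  -- the bottom piece
  obtain ⟨cb, hcb⟩ := const_diff (oB.inter oL) (cB.inter cL) (q3L.mono inter_subset_right)
    (hfB'.mono inter_subset_left)
  set g : ℂ → F := fun z => fB' z + cb with hg
  have pg : Prim om B g := hfB'.add_const cb
  obtain ⟨k1, hk1⟩ := const_diff (oB.inter oM) (cB.inter cM) (q3M.mono inter_subset_right)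
    (pg.mono inter_subset_left)
  obtain ⟨k2, hk2⟩ := const_diff (oB.inter oR) (cB.inter cR) (q3R.mono inter_subset_right)
    (pg.mono inter_subset_left)
  have hr0 : 0 < r := by linarith
  have hpi := Real.pi_pos
  -- points of the circles
  have cre : ∀ (p : ℝ) (θ : ℝ), (circleMap (p : ℂ) r θ).re = p + r * Real.cos θ := by
    intro p θ
    simp [circleMap, Complex.exp_re, Complex.exp_im]
  have cim : ∀ (p : ℝ) (θ : ℝ), (circleMap (p : ℂ) r θ).im = r * Real.sin θ := by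
    intro p θ
    simp [circleMap, Complex.exp_re, Complex.exp_im]
  have trig : ∀ θ : ℝ, |r * Real.sin θ| ≤ ρ → ρ < |r * Real.cos θ| := by
    intro θ h
    have h1 : (r * Real.sin θ) ^ 2 ≤ ρ ^ 2 := sq_le_sq' (by linarith [(abs_le.1 h).1])
      (abs_le.1 h).2
    have h2 : (r * Real.sin θ) ^ 2 + (r * Real.cos θ) ^ 2 = r ^ 2 := by
      have := Real.sin_sq_add_cos_sq θ
      nlinarith
    have h3 : ρ ^ 2 < (r * Real.cos θ) ^ 2 := by nlinarith
    have := sq_lt_sq.1 h3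
    rwa [abs_of_pos hρ] at this
  have bcos : ∀ θ : ℝ, |r * Real.cos θ| ≤ r := by
    intro θ
    rw [abs_mul, abs_of_pos hr0]
    have := Real.abs_cos_le_one θ
    nlinarith [abs_nonneg (Real.cos θ)]
  have bsin : ∀ θ : ℝ, |r * Real.sin θ| ≤ r := by
    intro θ
    rw [abs_mul, abs_of_pos hr0]
    have := Real.abs_sin_le_one θ
    nlinarith [abs_nonneg (Real.sin θ)]
  have oRd : ∀ z ∈ RdSq ρ, RdSq ρ ∈ nhds z := by
    intro z hz
    rcases cover hz with (((h | h) | h) | h) | h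
    · exact Filter.mem_of_superset (oT.mem_nhds h) sT
    · exact Filter.mem_of_superset (oL.mem_nhds h) sL
    · exact Filter.mem_of_superset (oM.mem_nhds h) sM
    · exact Filter.mem_of_superset (oR.mem_nhds h) sR
    · exact Filter.mem_of_superset (oB.mem_nhds h) sB
  -- signs
  have sg1 : ∀ θ ∈ Icc 0 Real.pi, 0 ≤ Real.sin θ := fun θ hθ => Real.sin_nonneg_of_mem_Icc hθ
  have sg2 : ∀ θ ∈ Icc Real.pi (3 * Real.pi / 2), Real.sin θ ≤ 0 ∧ Real.cos θ ≤ 0 := by
    intro θ hθ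
    have e1 : Real.sin θ = -Real.sin (θ - Real.pi) := by rw [Real.sin_sub_pi]; ring
    have e2 : Real.cos θ = -Real.cos (θ - Real.pi) := by rw [Real.cos_sub_pi]; ring
    have h1 : 0 ≤ Real.sin (θ - Real.pi) :=
      Real.sin_nonneg_of_nonneg_of_le_pi (by linarith [hθ.1]) (by linarith [hθ.2])
    have h2 : 0 ≤ Real.cos (θ - Real.pi) :=
      Real.cos_nonneg_of_neg_pi_div_two_le_of_le (by linarith [hθ.1]) (by linarith [hθ.2])
    rw [e1, e2]
    exact ⟨by linarith, by linarith⟩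
  have sg3 : ∀ θ ∈ Icc (3 * Real.pi / 2) (2 * Real.pi), Real.sin θ ≤ 0 ∧ 0 ≤ Real.cos θ := by
    intro θ hθ
    have e1 : Real.sin θ = Real.sin (θ - 2 * Real.pi) := by rw [Real.sin_sub_two_pi]
    have e2 : Real.cos θ = Real.cos (θ - 2 * Real.pi) := by rw [Real.cos_sub_two_pi]
    have h1 : Real.sin (θ - 2 * Real.pi) ≤ 0 :=
      Real.sin_nonpos_of_nonpos_of_neg_pi_le (by linarith [hθ.2]) (by linarith [hθ.1])
    have h2 : 0 ≤ Real.cos (θ - 2 * Real.pi) :=
      Real.cos_nonneg_of_neg_pi_div_two_le_of_le (by linarith [hθ.1]) (by linarith [hθ.2])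
    rw [e1, e2]
    exact ⟨h1, h2⟩
  -- positions
  have tm1 : ∀ p θ : ℝ, 1 / 2 ≤ p → p ≤ 3 / 2 → 0 ≤ Real.sin θ → circleMap (p : ℂ) r θ ∈ T ∨
      (|r * Real.sin θ| ≤ ρ ∧ (ρ < r * Real.cos θ ∨ r * Real.cos θ < -ρ)) := by
    intro p θ h1 h2 h3
    have b1 := abs_le.1 (bcos θ)
    have b2 := abs_le.1 (bsin θ)
    have h4 : 0 ≤ r * Real.sin θ := mul_nonneg hr0.le h3
    by_cases c : ρ < r * Real.sin θ
    · left
      refine ⟨?_, ?_, ?_, ?_⟩
      · rw [cre]; linarith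
      · rw [cre]; linarith
      · rw [cim]; exact c
      · rw [cim]; linarith
    · right
      have h5 : |r * Real.sin θ| ≤ ρ := abs_le.2 ⟨by linarith, not_lt.1 c⟩
      refine ⟨h5, ?_⟩
      rcases lt_abs.1 (trig θ h5) with h | h
      · exact Or.inl h
      · exact Or.inr (by linarith)
  have tm2 : ∀ p θ : ℝ, 1 / 2 ≤ p → p ≤ 3 / 2 → Real.sin θ ≤ 0 → circleMap (p : ℂ) r θ ∈ B ∨
      (|r * Real.sin θ| ≤ ρ ∧ (ρ < r * Real.cos θ ∨ r * Real.cos θ < -ρ)) := by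
    intro p θ h1 h2 h3
    have b1 := abs_le.1 (bcos θ)
    have b2 := abs_le.1 (bsin θ)
    have h4 : r * Real.sin θ ≤ 0 := mul_nonpos_of_nonneg_of_nonpos hr0.le h3
    by_cases c : r * Real.sin θ < -ρ
    · left
      refine ⟨?_, ?_, ?_, ?_⟩
      · rw [cre]; linarith
      · rw [cre]; linarith
      · rw [cim]; linarith
      · rw [cim]; exact c
    · right
      have h5 : |r * Real.sin θ| ≤ ρ := abs_le.2 ⟨not_lt.1 c, by linarith⟩
      refine ⟨h5, ?_⟩
      rcases lt_abs.1 (trig θ h5) with h | h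
      · exact Or.inl h
      · exact Or.inr (by linarith)
  have pL : ∀ θ : ℝ, r * Real.cos θ < -ρ → circleMap ((1 / 2 : ℝ) : ℂ) r θ ∈ L := by
    intro θ h
    have b1 := abs_le.1 (bcos θ)
    have b2 := abs_le.1 (bsin θ)
    refine ⟨?_, ?_, ?_, ?_⟩
    · rw [cre]; linarith
    · rw [cre]; linarith
    · rw [cim]; linarith
    · rw [cim]; linarith
  have pM : ∀ θ : ℝ, ρ < r * Real.cos θ → circleMap ((1 / 2 : ℝ) : ℂ) r θ ∈ M := by
    intro θ h
    have b1 := abs_le.1 (bcos θ)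
    have b2 := abs_le.1 (bsin θ)
    refine ⟨?_, ?_, ?_, ?_⟩
    · rw [cre]; linarith
    · rw [cre]; linarith
    · rw [cim]; linarith
    · rw [cim]; linarith
  have pM' : ∀ θ : ℝ, r * Real.cos θ < -ρ → circleMap ((3 / 2 : ℝ) : ℂ) r θ ∈ M := by
    intro θ h
    have b1 := abs_le.1 (bcos θ)
    have b2 := abs_le.1 (bsin θ)
    refine ⟨?_, ?_, ?_, ?_⟩
    · rw [cre]; linarith
    · rw [cre]; linarith
    · rw [cim]; linarith
    · rw [cim]; linarith
  have pR : ∀ θ : ℝ, ρ < r * Real.cos θ → circleMap ((3 / 2 : ℝ) : ℂ) r θ ∈ R := by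
    intro θ h
    have b1 := abs_le.1 (bcos θ)
    have b2 := abs_le.1 (bsin θ)
    refine ⟨?_, ?_, ?_, ?_⟩
    · rw [cre]; linarith
    · rw [cre]; linarith
    · rw [cim]; linarith
    · rw [cim]; linarith
  have eb : bb = ((1 / 2 : ℝ) : ℂ) := by rw [bb]; push_cast; rfl
  have ea : aa = ((3 / 2 : ℝ) : ℂ) := by rw [aa]; push_cast; rfl
  have inRd : ∀ p : ℝ, p = 1 / 2 ∨ p = 3 / 2 → ∀ θ, circleMap (p : ℂ) r θ ∈ RdSq ρ := by
    intro p hp θ
    have hp1 : 1 / 2 ≤ p := by rcases hp with h | h <;> rw [h] <;> norm_num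
    have hp2 : p ≤ 3 / 2 := by rcases hp with h | h <;> rw [h] <;> norm_num
    have key : circleMap (p : ℂ) r θ ∈ T ∨ circleMap (p : ℂ) r θ ∈ B ∨
        (|r * Real.sin θ| ≤ ρ ∧ (ρ < r * Real.cos θ ∨ r * Real.cos θ < -ρ)) := by
      rcases le_total 0 (Real.sin θ) with h | h
      · rcases tm1 p θ hp1 hp2 h with h | h
        · exact Or.inl h
        · exact Or.inr (Or.inr h)
      · rcases tm2 p θ hp1 hp2 h with h | h
        · exact Or.inr (Or.inl h)
        · exact Or.inr (Or.inr h)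
    rcases key with h | h | ⟨-, h | h⟩
    · exact sT h
    · exact sB h
    · rcases hp with e | e
      · rw [e]; exact sM (pM θ h)
      · rw [e]; exact sR (pR θ h)
    · rcases hp with e | e
      · rw [e]; exact sL (pL θ h)
      · rw [e]; exact sM (pM' θ h)
  have hcont : ∀ p : ℝ, p = 1 / 2 ∨ p = 3 / 2 → ∀ θ, ContinuousAt
      (fun θ => om (circleMap (p : ℂ) r θ) (circleMap 0 r θ * Complex.I)) θ := by
    intro p hp θ
    have h1 : ContinuousAt om (circleMap (p : ℂ) r θ) :=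
      (hω.differentiableAt (oRd _ (inRd p hp θ))).continuousAt
    have h2 : ContinuousAt (fun θ => om (circleMap (p : ℂ) r θ)) θ :=
      ContinuousAt.comp (f := fun θ => circleMap (p : ℂ) r θ) h1
        (continuous_circleMap _ _).continuousAt
    exact h2.clm_apply (((continuous_circleMap 0 r).mul continuous_const).continuousAt)
  have cospi : r * Real.cos Real.pi < -ρ := by rw [Real.cos_pi]; linarith
  have cos0 : ρ < r * Real.cos 0 := by rw [Real.cos_zero]; linarith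
  have n2 : ∀ p : ℝ, 1 / 2 ≤ p → p ≤ 3 / 2 →
      circleMap (p : ℂ) r (3 * Real.pi / 2) ∈ B := by
    intro p hp1 hp2
    have es : Real.sin (3 * Real.pi / 2) = -1 := by
      rw [show 3 * Real.pi / 2 = Real.pi / 2 + Real.pi by ring, Real.sin_add_pi,
        Real.sin_pi_div_two]
    have b1 := abs_le.1 (bcos (3 * Real.pi / 2))
    refine ⟨?_, ?_, ?_, ?_⟩
    · rw [cre]; linarith
    · rw [cre]; linarith
    · rw [cim, es]; linarith
    · rw [cim, es]; linarith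
  -- the constants vanish
  have k1z : k1 = 0 := by
    rw [eb] at pb
    refine const_eq_zero (U := T ∪ L ∪ M ∪ R) (U1 := L) (U2 := M) (p := ((1 / 2 : ℝ) : ℂ))
      (r := r) oB oL oM
      (fun z h => Or.inl (Or.inl (Or.inr h))) (fun z h => Or.inl (Or.inr h)) p3 pg
      (fun z h h' => (hcb z ⟨h, h'⟩).symm) (fun z h h' => hk1 z ⟨h, h'⟩)
      (hcont _ (Or.inl rfl)) ?_ ?_ ?_ (pL _ cospi) (n2 _ (by norm_num) (by norm_num))
      (pM _ cos0) pb
    · intro θ hθ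
      rcases tm1 (1 / 2) θ (by norm_num) (by norm_num) (sg1 θ hθ) with h | ⟨-, h | h⟩
      · exact Or.inl (Or.inl (Or.inl h))
      · exact Or.inl (Or.inr (pM θ h))
      · exact Or.inl (Or.inl (Or.inr (pL θ h)))
    · intro θ hθ
      obtain ⟨s1, s2⟩ := sg2 θ hθ
      rcases tm2 (1 / 2) θ (by norm_num) (by norm_num) s1 with h | ⟨-, h | h⟩
      · exact Or.inl h
      · exfalso; nlinarith
      · exact Or.inr (pL θ h)
    · intro θ hθ
      obtain ⟨s1, s2⟩ := sg3 θ hθ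
      rcases tm2 (1 / 2) θ (by norm_num) (by norm_num) s1 with h | ⟨-, h | h⟩
      · exact Or.inl h
      · exact Or.inr (pM θ h)
      · exfalso; nlinarith
  have k2z : k2 = 0 := by
    rw [ea] at pa
    refine const_eq_zero (U := T ∪ L ∪ M ∪ R) (U1 := M) (U2 := R) (p := ((3 / 2 : ℝ) : ℂ))
      (r := r) oB oM oR
      (fun z h => Or.inl (Or.inr h)) (fun z h => Or.inr h) p3 pg
      (fun z h h' => ?_) (fun z h h' => hk2 z ⟨h, h'⟩)
      (hcont _ (Or.inr rfl)) ?_ ?_ ?_ (pM' _ cospi) (n2 _ (by norm_num) (by norm_num))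
      (pR _ cos0) pa
    · have := hk1 z ⟨h, h'⟩
      rw [k1z, add_zero] at this
      exact this.symm
    · intro θ hθ
      rcases tm1 (3 / 2) θ (by norm_num) (by norm_num) (sg1 θ hθ) with h | ⟨-, h | h⟩
      · exact Or.inl (Or.inl (Or.inl h))
      · exact Or.inr (pR θ h)
      · exact Or.inl (Or.inr (pM' θ h))
    · intro θ hθ
      obtain ⟨s1, s2⟩ := sg2 θ hθ
      rcases tm2 (3 / 2) θ (by norm_num) (by norm_num) s1 with h | ⟨-, h | h⟩
      · exact Or.inl h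
      · exfalso; nlinarith
      · exact Or.inr (pM' θ h)
    · intro θ hθ
      obtain ⟨s1, s2⟩ := sg3 θ hθ
      rcases tm2 (3 / 2) θ (by norm_num) (by norm_num) s1 with h | ⟨-, h | h⟩
      · exact Or.inl h
      · exact Or.inr (pR θ h)
      · exfalso; nlinarith
  obtain ⟨f, pf, -, -⟩ := glue (((oT.union oL).union oM).union oR) oB p3 pg (by
    rintro z (((h | h) | h) | h) h'
    · exfalso; linarith [h.2.2.1, h'.2.2.2]
    · exact hcb z ⟨h', h⟩
    · have := hk1 z ⟨h', h⟩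
      rwa [k1z, add_zero] at this
    · have := hk2 z ⟨h', h⟩
      rwa [k2z, add_zero] at this)
  exact ⟨f, fun z hz => pf z (cover hz)⟩

end Pool.Agent.MP_49383f_gt
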