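import Pool.Agent.MP_49383f_gt.Reg1
import Pool.Agent.MP_49383f_gt.CauchyDeriv

/-!
# MP_49383f_gt, module M08: the derivatives satisfy an equation of the same form
-/

namespace Pool.Agent.MP_49383f_gt

open scoped ContDiff ComplexConjugate Topology
open MeasureTheory Metric Set

section
variable {V : Type*} [NormedAddCommGroup V] [NormedSpace ℂ V] [CompleteSpace V]

/-- the right-hand side of the enlarged system -/
noncomputable def Qext (Q : V → V) (x : V × V × V) : V × V × V :=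
  (Q x.1, fderiv ℝ Q x.1 x.2.1, fderiv ℝ Q x.1 x.2.2)

namespace Reg2

/-- Cauchy transform of a triple. -/
theorem cauchyT_triple {f1 f2 f3 : ℂ → V} {z : ℂ}
    (h1 : Integrable (fun ζ => (z - ζ)⁻¹ • f1 ζ)) (h2 : Integrable (fun ζ => (z - ζ)⁻¹ • f2 ζ))
    (h3 : Integrable (fun ζ => (z - ζ)⁻¹ • f3 ζ)) :
    cauchyT (fun ζ => (f1 ζ, f2 ζ, f3 ζ)) z = (cauchyT f1 z, cauchyT f2 z, cauchyT f3 z) := by
  have e : (fun ζ => (z - ζ)⁻¹ • ((f1 ζ, f2 ζ, f3 ζ) : V × V × V)) =
      fun ζ => ((z - ζ)⁻¹ • f1 ζ, ((z - ζ)⁻¹ • f2 ζ, (z - ζ)⁻¹ • f3 ζ)) := by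
    funext ζ; simp
  rw [cauchyT, e, integral_pair h1 (h2.prodMk h3), integral_pair h2 h3]
  simp [cauchyT]

/-- A compactly supported continuous function and its restriction to a ball. -/
theorem split_ball {G : ℂ → V} (hG : Continuous G) {z₀ : ℂ} {ρ ρ' : ℝ}
    (hs : ∀ ζ ∉ closedBall z₀ ρ, G ζ = 0) :
    DifferentiableOn ℂ (fun z => cauchyT ((ball z₀ ρ')ᶜ.indicator G) z) (ball z₀ ρ') ∧
      (∀ z, Integrable (fun ζ => (z - ζ)⁻¹ • (ball z₀ ρ').indicator G ζ)) ∧
      ∀ z, cauchyT G z = cauchyT ((ball z₀ ρ')ᶜ.indicator G) z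
        + cauchyT ((ball z₀ ρ').indicator G) z := by
  obtain ⟨M, hM⟩ := (isCompact_closedBall z₀ ρ).exists_bound_of_continuousOn hG.continuousOn
  have hM' : ∀ ζ, ‖G ζ‖ ≤ max M 0 := fun ζ => by
    by_cases h : ζ ∈ closedBall z₀ ρ
    · exact (hM ζ h).trans (le_max_left _ _)
    · rw [hs ζ h, norm_zero]; exact le_max_right _ _
  have hm : ∀ s : Set ℂ, MeasurableSet s → AEStronglyMeasurable (s.indicator G) :=
    fun s h => hG.aestronglyMeasurable.indicator h
  have hb : ∀ s : Set ℂ, ∀ ζ, ‖s.indicator G ζ‖ ≤ max M 0 := fun s ζ =>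
    (norm_indicator_le_norm_self G ζ).trans (hM' ζ)
  have hss : ∀ s : Set ℂ, ∀ ζ ∉ closedBall z₀ ρ, s.indicator G ζ = 0 := fun s ζ hζ => by
    by_cases h : ζ ∈ s
    · rw [indicator_of_mem h, hs ζ hζ]
    · rw [indicator_of_notMem h]
  refine ⟨?_, fun z => cauchy_integrable (hm _ measurableSet_ball) (hb _) (hss _) z, fun z => ?_⟩
  · refine cauchyT_differentiableOn (Reg1.integrable_of_bounded (hm _ measurableSet_ball.compl)
      (hb _) (hss _)) fun ζ hζ => ?_
    rw [indicator_of_notMem]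
    exact fun h => h hζ
  · rw [← cauchyT_add (cauchy_integrable (hm _ measurableSet_ball.compl) (hb _) (hss _) z)
      (cauchy_integrable (hm _ measurableSet_ball) (hb _) (hss _) z)]
    congr 1
    funext ζ
    rw [add_comm]
    exact (congrFun (indicator_self_add_compl (ball z₀ ρ') G) ζ).symm

end Reg2

theorem LR.deriv {Ω : Set ℂ} (hΩ : IsOpen Ω) {Q : V → V} (hQ : ContDiff ℝ 2 Q)
    {u : ℂ → V} (hu : LR Ω Q u) :
    LR Ω (Qext Q) (fun z => (u z, fderiv ℝ u z 1, fderiv ℝ u z Complex.I)) := by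
  have hQ1 : ContDiff ℝ 1 Q := hQ.of_le (by norm_num)
  obtain ⟨hC1, -⟩ := hu.contDiffOn_one hΩ hQ1
  have hcont : ContinuousOn u Ω := hu.1
  have hfc : ContinuousOn (fderiv ℝ u) Ω := hC1.continuousOn_fderiv_of_isOpen hΩ le_rfl
  have hfc1 : ∀ e : ℂ, ContinuousOn (fun z => fderiv ℝ u z e) Ω := fun e =>
    hfc.clm_apply continuousOn_const
  refine ⟨hcont.prodMk ((hfc1 1).prodMk (hfc1 Complex.I)), fun z₀ hz₀ => ?_⟩
  obtain ⟨ρ, hρ, hsub, h, hh, hrepr⟩ := hu.2 z₀ hz₀
  have hsubB : ball z₀ ρ ⊆ Ω := ball_subset_closedBall.trans hsub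
  have hf : ContinuousOn (fun ζ => Q (u ζ)) (closedBall z₀ ρ) :=
    hQ.continuous.comp_continuousOn (hcont.mono hsub)
  -- the cut-off
  let χ : ContDiffBump z₀ := ⟨ρ / 4, ρ / 2, by linarith, by linarith⟩
  have hχ1 : ∀ z ∈ ball z₀ (ρ / 4), χ z = 1 := fun z hz =>
    χ.one_of_mem_closedBall (ball_subset_closedBall hz)
  obtain ⟨H, hH, hHu⟩ := Reg1.split (χ := fun z => χ z) (ρ' := ρ / 4) (by linarith) (by linarith)
    hf hh hrepr χ.continuous (fun z => χ.nonneg) (fun z => χ.le_one) hχ1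
  set g : ℂ → V := fun ζ => χ ζ • (ball z₀ ρ).indicator (fun ζ => Q (u ζ)) ζ with hgdef
  have hgs : ∀ ζ ∉ closedBall z₀ (ρ / 2), g ζ = 0 := fun ζ hζ => by
    have : χ ζ = 0 := by
      apply χ.zero_of_le_dist
      exact (not_le.1 hζ).le
    simp only [hgdef, this, zero_smul]
  have hgcs : HasCompactSupport g :=
    HasCompactSupport.intro (isCompact_closedBall z₀ (ρ / 2)) hgs
  have hgC1 : ContDiff ℝ 1 g := by
    rw [contDiff_iff_contDiffAt]
    intro z
    by_cases hz : z ∈ ball z₀ ρ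
    · have h1 : ContDiffAt ℝ 1 (fun ζ => χ ζ • Q (u ζ)) z :=
        χ.contDiffAt.smul (hQ1.contDiffAt.comp z (hC1.contDiffAt (hΩ.mem_nhds (hsubB hz))))
      refine h1.congr_of_eventuallyEq ?_
      filter_upwards [isOpen_ball.mem_nhds hz] with w hw
      simp only [hgdef, indicator_of_mem hw]
    · have h2 : z ∈ (closedBall z₀ (ρ / 2))ᶜ := fun h3 =>
        hz (closedBall_subset_ball (by linarith) h3)
      have h3 : g =ᶠ[𝓝 z] fun _ => 0 := by
        filter_upwards [isClosed_closedBall.isOpen_compl.mem_nhds h2] with w hw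
        exact hgs w hw
      exact contDiffAt_const.congr_of_eventuallyEq h3
  obtain ⟨hCd, hCf⟩ := fderiv_cauchyT hgC1 hgcs
  -- the derivative of `g` on the small ball
  have hg' : ∀ z ∈ ball z₀ (ρ / 4), ∀ e, fderiv ℝ g z e =
      fderiv ℝ Q (u z) (fderiv ℝ u z e) := by
    intro z hz e
    have hzB : z ∈ ball z₀ ρ := ball_subset_ball (by linarith) hz
    have h1 : g =ᶠ[𝓝 z] fun ζ => Q (u ζ) := by
      filter_upwards [isOpen_ball.mem_nhds hz] with w hw
      have hwB : w ∈ ball z₀ ρ := ball_subset_ball (by linarith) hw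
      simp only [hgdef, indicator_of_mem hwB, hχ1 w hw, one_smul]
    rw [h1.fderiv_eq]
    have h2 := fderiv_comp z (hQ1.differentiable (by norm_num) (u z))
      ((hC1.contDiffAt (hΩ.mem_nhds (hsubB hzB))).differentiableAt (by norm_num))
    have h3 : (fun ζ => Q (u ζ)) = Q ∘ u := rfl
    rw [h3, h2]
    rfl
  -- continuity and support of the directional derivatives of `g`
  have hDc : ∀ e : ℂ, Continuous (fun ζ => fderiv ℝ g ζ e) := fun e =>
    (hgC1.continuous_fderiv (by norm_num)).clm_apply continuous_const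
  have hDs : ∀ e : ℂ, ∀ ζ ∉ closedBall z₀ (ρ / 2), fderiv ℝ g ζ e = 0 := fun e ζ hζ => by
    have h3 : g =ᶠ[𝓝 ζ] fun _ => 0 := by
      filter_upwards [isClosed_closedBall.isOpen_compl.mem_nhds hζ] with w hw
      exact hgs w hw
    rw [h3.fderiv_eq]
    simp
  obtain ⟨a1, b1, c1⟩ := Reg2.split_ball (ρ' := ρ / 4) hgC1.continuous hgs
  have hsp := fun e => Reg2.split_ball (ρ' := ρ / 4) (hDc e) (hDs e)
  -- derivative of `u` on the small ball
  have hder : ∀ z ∈ ball z₀ (ρ / 4), ∀ e : ℂ, fderiv ℝ u z e =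
      e • _root_.deriv H z + cauchyT (fun ζ => fderiv ℝ g ζ e) z := by
    intro z hz e
    have hnh : ball z₀ (ρ / 4) ∈ 𝓝 z := isOpen_ball.mem_nhds hz
    have heq : u =ᶠ[𝓝 z] fun z => H z + cauchyT g z := Filter.eventually_of_mem hnh hHu
    have hHd : HasFDerivAt H ((fderiv ℂ H z).restrictScalars ℝ) z :=
      (hH.differentiableAt hnh).hasFDerivAt.restrictScalars ℝ
    have hadd : HasFDerivAt (fun z => H z + cauchyT g z)
        ((fderiv ℂ H z).restrictScalars ℝ + fderiv ℝ (cauchyT g) z) z :=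
      hHd.add (hCd z).hasFDerivAt
    rw [heq.fderiv_eq, hadd.fderiv, add_apply, hCf z e]
    congr 1
    rw [ContinuousLinearMap.coe_restrictScalars', ← fderiv_apply_one_eq_deriv, ← map_smul]
    simp
  have hHder : DifferentiableOn ℂ (_root_.deriv H) (ball z₀ (ρ / 4)) := hH.deriv isOpen_ball
  refine ⟨ρ / 4, by linarith, (closedBall_subset_closedBall (by linarith)).trans hsub,
    fun z => (H z + cauchyT ((ball z₀ (ρ / 4))ᶜ.indicator g) z,
      (1 : ℂ) • _root_.deriv H z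
        + cauchyT ((ball z₀ (ρ / 4))ᶜ.indicator (fun ζ => fderiv ℝ g ζ 1)) z,
      Complex.I • _root_.deriv H z
        + cauchyT ((ball z₀ (ρ / 4))ᶜ.indicator (fun ζ => fderiv ℝ g ζ Complex.I)) z), ?_, ?_⟩
  · exact (hH.add a1).prodMk (((hHder.const_smul _).add (hsp 1).1).prodMk
      ((hHder.const_smul _).add (hsp Complex.I).1))
  · intro z hz
    have e0 : (ball z₀ (ρ / 4)).indicator g = (ball z₀ (ρ / 4)).indicator (fun ζ => Q (u ζ)) := by
      funext ζ
      by_cases hζ : ζ ∈ ball z₀ (ρ / 4)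
      · have hζB : ζ ∈ ball z₀ ρ := ball_subset_ball (by linarith) hζ
        simp only [indicator_of_mem hζ, hgdef, indicator_of_mem hζB, hχ1 ζ hζ, one_smul]
      · simp only [indicator_of_notMem hζ]
    have e1 : ∀ e : ℂ, (ball z₀ (ρ / 4)).indicator (fun ζ => fderiv ℝ g ζ e) =
        (ball z₀ (ρ / 4)).indicator (fun ζ => fderiv ℝ Q (u ζ) (fderiv ℝ u ζ e)) := by
      intro e
      funext ζ
      by_cases hζ : ζ ∈ ball z₀ (ρ / 4)
      · simp only [indicator_of_mem hζ, hg' ζ hζ e]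
      · simp only [indicator_of_notMem hζ]
    have e2 : (ball z₀ (ρ / 4)).indicator (fun ζ => Qext Q
        ((fun z => (u z, fderiv ℝ u z 1, fderiv ℝ u z Complex.I)) ζ)) =
        fun ζ => ((ball z₀ (ρ / 4)).indicator g ζ,
          (ball z₀ (ρ / 4)).indicator (fun ζ => fderiv ℝ g ζ 1) ζ,
          (ball z₀ (ρ / 4)).indicator (fun ζ => fderiv ℝ g ζ Complex.I) ζ) := by
      rw [e0, e1 1, e1 Complex.I]
      funext ζ
      by_cases hζ : ζ ∈ ball z₀ (ρ / 4)
      · simp only [indicator_of_mem hζ, Qext]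
      · simp only [indicator_of_notMem hζ]; rfl
    rw [e2, Reg2.cauchyT_triple (b1 z) ((hsp 1).2.1 z) ((hsp Complex.I).2.1 z)]
    refine Prod.ext ?_ (Prod.ext ?_ ?_)
    · show u z = H z + cauchyT ((ball z₀ (ρ / 4))ᶜ.indicator g) z
        + cauchyT ((ball z₀ (ρ / 4)).indicator g) z
      rw [hHu z hz, c1 z, add_assoc]
    · show fderiv ℝ u z 1 = (1 : ℂ) • _root_.deriv H z
        + cauchyT ((ball z₀ (ρ / 4))ᶜ.indicator (fun ζ => fderiv ℝ g ζ 1)) z
        + cauchyT ((ball z₀ (ρ / 4)).indicator (fun ζ => fderiv ℝ g ζ 1)) z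
      rw [hder z hz 1, (hsp 1).2.2 z, add_assoc]
    · show fderiv ℝ u z Complex.I = Complex.I • _root_.deriv H z
        + cauchyT ((ball z₀ (ρ / 4))ᶜ.indicator (fun ζ => fderiv ℝ g ζ Complex.I)) z
        + cauchyT ((ball z₀ (ρ / 4)).indicator (fun ζ => fderiv ℝ g ζ Complex.I)) z
      rw [hder z hz Complex.I, (hsp Complex.I).2.2 z, add_assoc]

end

end Pool.Agent.MP_49383f_gt
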