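import Pool.Agent.MP_49383f_gt.ParamCurve

/-!
# MP_49383f_gt : homotheties and change of orientation
-/

namespace Pool.Agent.MP_49383f_gt

open scoped ContDiff ComplexConjugate Topology Pointwise
open MeasureTheory Metric Set

/-- `Γ` is a convex curve in the horizontal plane `x₃ = h`: the image of a smooth (`C^∞`) simple
closed regular plane curve `γ`, of period `2π`, which is the boundary of a non-empty bounded open
convex set `D` of the plane. -/
def IsConvexPlaneCurve (h : ℝ) (Γ : Set R3) : Prop :=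
  ∃ (γ : ℝ → ℂ) (D : Set ℂ), ContDiff ℝ ∞ γ ∧ (∀ θ, γ (θ + 2 * Real.pi) = γ θ) ∧
    InjOn γ (Ico 0 (2 * Real.pi)) ∧ (∀ θ, deriv γ θ ≠ 0) ∧
    IsOpen D ∧ D.Nonempty ∧ Bornology.IsBounded D ∧ Convex ℝ D ∧
    range γ = frontier D ∧ Γ = {p | pl p ∈ range γ ∧ p 2 = h}

theorem IsConvexCurve.param {h : ℝ} {Γ : Set R3} (hΓ : IsConvexCurve h Γ) :
    IsConvexPlaneCurve h Γ := by
  obtain ⟨D, h1, h2, h3, h4, h5, h6⟩ := hΓ
  obtain ⟨γ, g1, g2, g3, g4, g5⟩ := ParamCurve.exists_param h1 h2 h3 h4 h6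
  exact ⟨γ, D, g1, g2, g3, g4, h1, h2, h3, h4, g5, by rw [h5, g5]⟩

namespace Scale

theorem fd_smul (X : ℂ → R3) (c : ℝ) (z : ℂ) :
    fderiv ℝ (fun z => c • X z) z = c • fderiv ℝ X z := by
  have := congrFun (fderiv_const_smul_field (𝕜 := ℝ) (f := X) c) z
  exact this

theorem px_smul (X : ℂ → R3) (c : ℝ) : px (fun z => c • X z) = fun z => c • px X z := by
  funext z
  rw [px, px, fd_smul]
  rfl

theorem py_smul (X : ℂ → R3) (c : ℝ) : py (fun z => c • X z) = fun z => c • py X z := by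
  funext z
  rw [py, py, fd_smul]
  rfl

theorem meanCurvature_smul {X : ℂ → R3} {n : R3} {H : ℝ} {z : ℂ} (h : HasMeanCurvatureAt X n H z)
    {c : ℝ} (hc : 0 < c) : HasMeanCurvatureAt (fun z => c • X z) n (H / c) z := by
  obtain ⟨h1, h2, h3, h4⟩ := h
  refine ⟨h1, ?_, ?_, ?_⟩
  · rw [px_smul, inner_smul_left, h2]; simp
  · rw [py_smul, inner_smul_left, h3]; simp
  · rw [px_smul, py_smul, px_smul, py_smul, py_smul]
    simp only [inner_smul_left, inner_smul_right, RCLike.conj_to_real]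
    have e : 2 * (H / c) * (c * (c * inner ℝ (px X z) (px X z)) *
        (c * (c * inner ℝ (py X z) (py X z))) - (c * (c * inner ℝ (px X z) (py X z))) ^ 2) =
        c ^ 3 * (2 * H * (inner ℝ (px X z) (px X z) * inner ℝ (py X z) (py X z)
          - inner ℝ (px X z) (py X z) ^ 2)) := by
      field_simp
    rw [e, ← h4]
    ring

theorem meanCurvature_neg {X : ℂ → R3} {n : R3} {H : ℝ} {z : ℂ} (h : HasMeanCurvatureAt X n H z) :
    HasMeanCurvatureAt X (-n) (-H) z := by
  obtain ⟨h1, h2, h3, h4⟩ := h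
  refine ⟨by rwa [norm_neg], by rw [inner_neg_right, h2, neg_zero],
    by rw [inner_neg_right, h3, neg_zero], ?_⟩
  rw [inner_neg_right, inner_neg_right, inner_neg_right]
  linarith

theorem cmc_neg {S Γ : Set R3} {H : ℝ} (h : IsCMCSurface S Γ H) : IsCMCSurface S Γ (-H) := by
  obtain ⟨h1, h2, h3, n, h4, h5⟩ := h
  refine ⟨h1, h2, h3, fun p => - n p, h4.neg, fun p hp => ?_⟩
  obtain ⟨V, U, X, ρ, k1, k2, k3, k4, k5, k6, k7, k8, k9, k10, k11⟩ := h5 p hp
  exact ⟨V, U, X, ρ, k1, k2, k3, k4, k5, k6, k7, k8, k9, k10, fun z hz hρ =>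
    meanCurvature_neg (k11 z hz hρ)⟩

theorem cmc_smul {S Γ : Set R3} {H : ℝ} (h : IsCMCSurface S Γ H) {c : ℝ} (hc : 0 < c) :
    IsCMCSurface ((fun p => c • p) '' S) ((fun p => c • p) '' Γ) (H / c) := by
  obtain ⟨h1, h2, h3, n, h4, h5⟩ := h
  have hcont : Continuous fun p : R3 => c • p := continuous_const_smul c
  have hinj : Function.Injective fun p : R3 => c • p := smul_right_injective _ hc.ne'
  have hback : ∀ p : R3, c⁻¹ • (c • p) = p := fun p => inv_smul_smul₀ hc.ne' p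
  refine ⟨h1.image hcont, h2.image _ hcont.continuousOn, image_mono h3,
    fun p => n (c⁻¹ • p), ?_, ?_⟩
  · apply h4.comp (continuous_const_smul _).continuousOn
    rintro _ ⟨p, hp, rfl⟩
    simpa [hback] using hp
  · rintro _ ⟨p, hp, rfl⟩
    obtain ⟨V, U, X, ρ, k1, k2, k3, k4, k5, k6, k7, k8, k9, k10, k11⟩ := h5 p hp
    have himg : ∀ A : Set R3, (fun p : R3 => c • p) '' A ∩ (fun p : R3 => c • p) '' U =
        (fun p : R3 => c • p) '' (A ∩ U) := fun A => (image_inter hinj).symm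
    have himgX : ∀ W : Set ℂ, (fun p : R3 => c • p) '' (X '' W) = (fun z => c • X z) '' W :=
      fun W => by rw [← image_comp]; rfl
    refine ⟨V, (fun p => c • p) '' U, fun z => c • X z, ρ, k1,
      (Homeomorph.smulOfNeZero c hc.ne').isOpenMap U k2, mem_image_of_mem _ k3,
      k4.const_smul c, k5, ?_, ?_, k8, ?_, ?_, ?_⟩
    · exact (Homeomorph.smulOfNeZero c hc.ne').isEmbedding.comp k6
    · intro z hz
      rw [fd_smul]
      intro u v huv
      apply k7 z hz
      exact smul_right_injective _ hc.ne' huv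
    · rw [himg, k9, himgX]
    · rw [himg, k10, himgX]
    · intro z hz hρ
      simp only [hback]
      exact meanCurvature_smul (k11 z hz hρ) hc

theorem convexCurve_smul {h : ℝ} {Γ : Set R3} (hΓ : IsConvexPlaneCurve h Γ) {c : ℝ} (hc : 0 < c) :
    IsConvexPlaneCurve (c * h) ((fun p => c • p) '' Γ) := by
  obtain ⟨γ, D, g1, g2, g3, g4, g5, g6, g7, g8, g9, g10⟩ := hΓ
  have hinj : Function.Injective fun P : ℂ => c • P := smul_right_injective _ hc.ne'
  have hr : range (fun θ => c • γ θ) = (fun P : ℂ => c • P) '' range γ := by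
    rw [← range_comp]; rfl
  refine ⟨fun θ => c • γ θ, (fun P => c • P) '' D, g1.const_smul c, ?_, ?_, ?_, ?_, ?_, ?_,
    ?_, ?_, ?_⟩
  · intro θ; simp only [g2]
  · intro θ hθ θ' hθ' he
    exact g3 hθ hθ' (hinj he)
  · intro θ he
    have hd : DifferentiableAt ℝ γ θ := (g1.differentiable (by simp)) θ
    rw [deriv_fun_const_smul c hd] at he
    exact g4 θ ((smul_eq_zero.1 he).resolve_left hc.ne')
  · exact (Homeomorph.smulOfNeZero c hc.ne').isOpenMap D g5
  · exact g6.image _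
  · obtain ⟨R, hR⟩ := g7.subset_closedBall 0
    refine (isBounded_closedBall (x := (0 : ℂ)) (r := c * R)).subset ?_
    rintro _ ⟨P, hP, rfl⟩
    have := hR hP
    rw [mem_closedBall_zero_iff] at this ⊢
    rw [norm_smul, Real.norm_of_nonneg hc.le]
    gcongr
  · exact g8.smul c
  · rw [hr, g9]
    exact (Homeomorph.smulOfNeZero c hc.ne').image_frontier D
  · rw [hr, g10]
    ext p
    constructor
    · rintro ⟨q, ⟨hq1, hq2⟩, rfl⟩
      refine ⟨⟨pl q, hq1, ?_⟩, ?_⟩
      · apply Complex.ext <;> simp [pl]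
      · simp [hq2]
    · rintro ⟨⟨Q, hQ, hQp⟩, hp2⟩
      refine ⟨c⁻¹ • p, ⟨?_, ?_⟩, smul_inv_smul₀ hc.ne' p⟩
      · have : pl (c⁻¹ • p) = Q := by
          have h1 : pl (c⁻¹ • p) = c⁻¹ • pl p := by apply Complex.ext <;> simp [pl]
          rw [h1, ← hQp]
          exact inv_smul_smul₀ hc.ne' Q
        rw [this]; exact hQ
      · simp [hp2, hc.ne']

theorem not_annulus_smul {S : Set R3} {c : ℝ} (hc : 0 < c)
    (h : ¬ Nonempty (S ≃ₜ Circle × unitInterval)) :
    ¬ Nonempty (((fun p : R3 => c • p) '' S : Set R3) ≃ₜ Circle × unitInterval) := by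
  rintro ⟨e⟩
  exact h ⟨((Homeomorph.smulOfNeZero c hc.ne').image S).trans e⟩

end Scale

end Pool.Agent.MP_49383f_gt
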