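import Pool.Agent.MP_49383f_gt.LRint
import Pool.Agent.MP_49383f_gt.DiscFormula
import Pool.Agent.MP_49383f_gt.CauchyC1
import Pool.Agent.MP_49383f_gt.SolEst
import Pool.Agent.MP_49383f_gt.PhiEst

/-!
# MP_49383f_gt, module M22 : derivative estimates away from the necks
-/

namespace Pool.Agent.MP_49383f_gt

open scoped ContDiff ComplexConjugate
open MeasureTheory Metric Set

namespace SolDer

open Glue

/-- a fixed smooth cut-off -/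
theorem exists_bump : ∃ K₀ > 0, ∃ η : ℂ → ℝ, (∀ x, 0 ≤ η x ∧ η x ≤ 1) ∧
    (∀ x ∈ ball (0 : ℂ) (1 / 200), η x = 1) ∧ (∀ x ∉ ball (0 : ℂ) (1 / 100), η x = 0) ∧
    Continuous η ∧ ∀ x y, |η x - η y| ≤ K₀ * ‖x - y‖ := by
  let f : ContDiffBump (0 : ℂ) := ⟨1 / 200, 1 / 100, by norm_num, by norm_num⟩
  have hc : ContDiff ℝ 1 f := f.contDiff
  obtain ⟨C, hC⟩ := hc.lipschitzWith_of_hasCompactSupport f.hasCompactSupport (by norm_num)
  refine ⟨C + 1, by positivity, f, fun x => ⟨f.nonneg, f.le_one⟩, ?_, ?_, f.continuous, ?_⟩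
  · intro x hx
    exact f.one_of_mem_closedBall (ball_subset_closedBall hx)
  · intro x hx
    apply f.zero_of_le_dist
    have : (1 / 100 : ℝ) ≤ dist x 0 := by simpa using hx
    exact this
  · intro x y
    have := hC.dist_le_mul x y
    rw [Real.dist_eq, dist_eq_norm] at this
    refine this.trans ?_
    gcongr
    linarith

theorem integrable_of_bdd {ν : ℂ → ℂ} {z₀ : ℂ} {M R : ℝ} (hν : AEStronglyMeasurable ν)
    (hb : ∀ ζ, ‖ν ζ‖ ≤ M) (hs : ∀ ζ ∉ closedBall z₀ R, ν ζ = 0) : Integrable ν := by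
  have : IntegrableOn ν (closedBall z₀ R) :=
    Measure.integrableOn_of_bounded (measure_closedBall_lt_top (x := z₀) (r := R)).ne hν
      (M := M) (Filter.Eventually.of_forall hb)
  rw [← integrable_indicator_iff measurableSet_closedBall] at this
  refine this.congr (Filter.Eventually.of_forall fun ζ => ?_)
  by_cases hζ : ζ ∈ closedBall z₀ R
  · simp only [indicator_of_mem hζ]
  · simp only [indicator_of_notMem hζ, hs ζ hζ]

theorem key : ∃ K > 0, ∀ (ν : ℂ → ℂ) (z₁ : ℂ) (m M : ℝ), AEStronglyMeasurable ν →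
    (∀ ζ, ‖ν ζ‖ ≤ M) → (∀ ζ ∉ closedBall (0 : ℂ) 4, ν ζ = 0) →
    (∀ ζ ∈ closedBall z₁ (1 / 80), ‖ν ζ‖ ≤ m) →
    (∀ ζ ∈ closedBall z₁ (1 / 80), ∀ ζ' ∈ closedBall z₁ (1 / 80),
      ‖ν ζ - ν ζ'‖ ≤ m * ‖ζ - ζ'‖ ^ (1 / 2 : ℝ)) →
    (∀ z ∈ closedBall z₁ (1 / 80), ‖cauchyT ν z‖ ≤ m) →
    DifferentiableAt ℝ (cauchyT ν) z₁ ∧ ‖fderiv ℝ (cauchyT ν) z₁‖ ≤ K * m := by
  obtain ⟨K₀, hK₀, η, h01, hη1, hη0, hηc, hηL⟩ := exists_bump
  refine ⟨8 * (K₀ + 21) + 400 * (3 + (K₀ + 21)), by positivity, ?_⟩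
  intro ν z₁ m M hν hM hsupp hm hH hC
  have hm0 : 0 ≤ m := (norm_nonneg _).trans (hm z₁ (mem_closedBall_self (by norm_num)))
  set g : ℂ → ℂ := fun ζ => (η (ζ - z₁) : ℂ) * ν ζ with hg
  have hg0 : ∀ ζ ∉ ball z₁ (1 / 100), g ζ = 0 := by
    intro ζ hζ
    have : η (ζ - z₁) = 0 := hη0 _ (by simpa [dist_eq_norm] using hζ)
    simp [hg, this]
  have hgle : ∀ ζ, ‖g ζ‖ ≤ ‖ν ζ‖ := by
    intro ζ
    rw [hg]
    simp only [norm_mul, Complex.norm_real, Real.norm_of_nonneg (h01 _).1]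
    calc η (ζ - z₁) * ‖ν ζ‖ ≤ 1 * ‖ν ζ‖ := by gcongr; exact (h01 _).2
      _ = ‖ν ζ‖ := one_mul _
  -- one point in the small ball
  have half : ∀ ζ ∈ ball z₁ (1 / 100), ∀ ζ', ‖g ζ - g ζ'‖ ≤
      (K₀ + 21) * m * ‖ζ - ζ'‖ ^ (1 / 2 : ℝ) := by
    intro ζ hζ ζ'
    have hζ8 : ζ ∈ closedBall z₁ (1 / 80) :=
      closedBall_subset_closedBall (by norm_num) (ball_subset_closedBall hζ)
    have hpow0 : 0 ≤ ‖ζ - ζ'‖ ^ (1 / 2 : ℝ) := by positivity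
    by_cases hζ' : ζ' ∈ closedBall z₁ (1 / 80)
    · have h1 : g ζ - g ζ' = (η (ζ - z₁) - η (ζ' - z₁) : ℝ) * ν ζ +
          (η (ζ' - z₁) : ℂ) * (ν ζ - ν ζ') := by
        simp only [hg]; push_cast; ring
      have h2 : ‖ζ - ζ'‖ ≤ ‖ζ - ζ'‖ ^ (1 / 2 : ℝ) := by
        have h3 : ‖ζ - ζ'‖ ≤ 1 := by
          have e1 := mem_closedBall.1 hζ8
          have e2 := mem_closedBall.1 hζ'
          have := dist_triangle_right ζ ζ' z₁
          rw [← dist_eq_norm]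
          linarith
        calc ‖ζ - ζ'‖ = ‖ζ - ζ'‖ ^ (1 : ℝ) := (Real.rpow_one _).symm
          _ ≤ ‖ζ - ζ'‖ ^ (1 / 2 : ℝ) := by
            rcases (norm_nonneg (ζ - ζ')).eq_or_lt with h0 | h0
            · rw [← h0]; simp
            · exact Real.rpow_le_rpow_of_exponent_ge h0 h3 (by norm_num)
      rw [h1]
      refine (norm_add_le _ _).trans ?_
      rw [norm_mul, norm_mul, Complex.norm_real, Complex.norm_real,
        Real.norm_of_nonneg (h01 _).1, Real.norm_eq_abs]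
      have h4 := hηL (ζ - z₁) (ζ' - z₁)
      rw [show ζ - z₁ - (ζ' - z₁) = ζ - ζ' by ring] at h4
      calc |η (ζ - z₁) - η (ζ' - z₁)| * ‖ν ζ‖ + η (ζ' - z₁) * ‖ν ζ - ν ζ'‖
          ≤ (K₀ * ‖ζ - ζ'‖) * m + 1 * (m * ‖ζ - ζ'‖ ^ (1 / 2 : ℝ)) := by
            gcongr
            · exact hm ζ hζ8
            · exact (h01 _).2
            · exact hH ζ hζ8 ζ' hζ'
        _ ≤ (K₀ * ‖ζ - ζ'‖ ^ (1 / 2 : ℝ)) * m + 1 * (m * ‖ζ - ζ'‖ ^ (1 / 2 : ℝ)) := by gcongr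
        _ ≤ (K₀ + 21) * m * ‖ζ - ζ'‖ ^ (1 / 2 : ℝ) := by
            nlinarith [mul_nonneg hm0 hpow0]
    · have hz : g ζ' = 0 := hg0 ζ' fun h => hζ'
        (closedBall_subset_closedBall (by norm_num) (ball_subset_closedBall h))
      rw [hz, sub_zero]
      have h5 : 1 / 400 ≤ ‖ζ - ζ'‖ := by
        have e1 := mem_ball.1 hζ
        have e2 : 1 / 80 < dist ζ' z₁ := by simpa using hζ'
        have := dist_triangle_left ζ' z₁ ζ
        rw [← dist_eq_norm]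
        linarith
      have h6 : 1 / 20 ≤ ‖ζ - ζ'‖ ^ (1 / 2 : ℝ) := by
        have : (1 / 400 : ℝ) ^ (1 / 2 : ℝ) = 1 / 20 := by
          rw [show (1 / 400 : ℝ) = (1 / 20) ^ (2 : ℝ) by norm_num, ← Real.rpow_mul (by norm_num)]
          norm_num
        rw [← this]
        exact Real.rpow_le_rpow (by norm_num) h5 (by norm_num)
      calc ‖g ζ‖ ≤ m := (hgle ζ).trans (hm ζ hζ8)
        _ ≤ 20 * m * (1 / 20) := by linarith
        _ ≤ (K₀ + 21) * m * ‖ζ - ζ'‖ ^ (1 / 2 : ℝ) := by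
            gcongr
            nlinarith
  have hgH : ∀ z w, ‖g z - g w‖ ≤ ((K₀ + 21) * m) * ‖z - w‖ ^ (1 / 2 : ℝ) := by
    intro z w
    by_cases hz : z ∈ ball z₁ (1 / 100)
    · exact half z hz w
    by_cases hw : w ∈ ball z₁ (1 / 100)
    · rw [norm_sub_rev, norm_sub_rev z w]
      exact half w hw z
    · rw [hg0 z hz, hg0 w hw, sub_zero, norm_zero]
      positivity
  obtain ⟨c1, -, c3⟩ := cauchyT_C1 (R := 1) (z₀ := z₁) one_pos hgH fun ζ hζ => hg0 ζ fun h =>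
    hζ (ball_subset_closedBall (ball_subset_ball (by norm_num) h))
  have c3' := c3 z₁ (mem_closedBall_self (by norm_num))
  rw [Real.one_rpow, mul_one] at c3'
  -- measurability and the splitting
  have hgm : AEStronglyMeasurable g := by
    have : Continuous fun ζ : ℂ => (η (ζ - z₁) : ℂ) := by fun_prop
    exact this.aestronglyMeasurable.mul hν
  have hgM : ∀ ζ, ‖g ζ‖ ≤ M := fun ζ => (hgle ζ).trans (hM ζ)
  have hgm1 : ∀ ζ, ‖g ζ‖ ≤ m := by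
    intro ζ
    by_cases hζ : ζ ∈ ball z₁ (1 / 100)
    · exact (hgle ζ).trans (hm ζ (closedBall_subset_closedBall (by norm_num)
        (ball_subset_closedBall hζ)))
    · rw [hg0 ζ hζ, norm_zero]; exact hm0
  have hgs : ∀ ζ ∉ closedBall (0 : ℂ) 4, g ζ = 0 := fun ζ hζ => by simp [hg, hsupp ζ hζ]
  have hgs1 : ∀ ζ ∉ closedBall z₁ 1, g ζ = 0 := fun ζ hζ => hg0 ζ fun h =>
    hζ (ball_subset_closedBall (ball_subset_ball (by norm_num) h))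
  set k : ℂ → ℂ := fun ζ => ν ζ - g ζ with hk
  have hi1 : ∀ z, Integrable fun ζ => (z - ζ)⁻¹ • ν ζ := fun z =>
    cauchy_integrable hν hM hsupp z
  have hi2 : ∀ z, Integrable fun ζ => (z - ζ)⁻¹ • g ζ := fun z =>
    cauchy_integrable hgm hgM hgs z
  have hsplit : ∀ z, cauchyT ν z = cauchyT g z + cauchyT k z := by
    intro z
    rw [hk, cauchyT_sub (hi1 z) (hi2 z)]
    ring
  have hki : Integrable k := (integrable_of_bdd hν hM hsupp).sub (integrable_of_bdd hgm hgM hgs)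
  have hk0 : ∀ ζ ∈ ball z₁ (1 / 200), k ζ = 0 := by
    intro ζ hζ
    have : η (ζ - z₁) = 1 := hη1 _ (by simpa [dist_eq_norm] using hζ)
    simp [hk, hg, this]
  have hkd := cauchyT_differentiableOn hki hk0
  have hCg : ∀ z, ‖cauchyT g z‖ ≤ 3 * m := by
    intro z
    have := norm_cauchyT_le (R := 1) (by norm_num) hgm hgm1 hgs1 z
    norm_num at this
    exact this
  have hCk : ∀ z ∈ closedBall z₁ (1 / 400), ‖cauchyT k z‖ ≤ 4 * m := by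
    intro z hz
    have h1 := hsplit z
    have h2 : cauchyT k z = cauchyT ν z - cauchyT g z := by rw [h1]; ring
    rw [h2]
    calc ‖cauchyT ν z - cauchyT g z‖ ≤ ‖cauchyT ν z‖ + ‖cauchyT g z‖ := norm_sub_le _ _
      _ ≤ m + 3 * m := add_le_add (hC z (closedBall_subset_closedBall (by norm_num) hz)) (hCg z)
      _ = 4 * m := by ring
  have hdk : ‖deriv (cauchyT k) z₁‖ ≤ 4 * m / (1 / 400) := by
    apply Complex.norm_deriv_le_of_forall_mem_sphere_norm_le (by norm_num)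
    · refine ⟨hkd.mono (ball_subset_ball (by norm_num)), ?_⟩
      rw [closure_ball _ (by norm_num)]
      exact hkd.continuousOn.mono (closedBall_subset_ball (by norm_num))
    · intro z hz
      exact hCk z (sphere_subset_closedBall hz)
  have hkda : DifferentiableAt ℂ (cauchyT k) z₁ :=
    hkd.differentiableAt (isOpen_ball.mem_nhds (mem_ball_self (by norm_num)))
  have hgda : DifferentiableAt ℝ (cauchyT g) z₁ := (c1.differentiable (by norm_num)) z₁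
  have heq : cauchyT ν = fun z => cauchyT g z + cauchyT k z := funext hsplit
  have hkf : HasFDerivAt (𝕜 := ℝ) (cauchyT k) ((ContinuousLinearMap.smulRight
      (1 : ℂ →L[ℂ] ℂ) (deriv (cauchyT k) z₁)).restrictScalars ℝ) z₁ :=
    hkda.hasDerivAt.hasFDerivAt.restrictScalars ℝ
  have htot := hgda.hasFDerivAt.fun_add hkf
  rw [heq]
  refine ⟨htot.differentiableAt, ?_⟩
  rw [htot.fderiv]
  refine (norm_add_le _ _).trans ?_
  have hn : ‖(ContinuousLinearMap.smulRight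
      (1 : ℂ →L[ℂ] ℂ) (deriv (cauchyT k) z₁)).restrictScalars ℝ‖ ≤ 4 * m / (1 / 400) := by
    rw [ContinuousLinearMap.norm_restrictScalars]
    refine (ContinuousLinearMap.opNorm_le_bound _ (by positivity) fun x => ?_)
    rw [ContinuousLinearMap.smulRight_apply, norm_smul]
    simp only [one_apply_eq_self]
    rw [mul_comm]
    gcongr
  calc _ ≤ 8 * ((K₀ + 21) * m) + 4 * m / (1 / 400) := add_le_add c3' hn
    _ ≤ (8 * (K₀ + 21) + 400 * (3 + (K₀ + 21))) * m := by nlinarith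

/-- Lipschitz bound for the cubic nonlinearity -/
theorem cubic_lip {x y : ℂ × ℂ} (hx : ‖x‖ ≤ 2) (hy : ‖y‖ ≤ 2) :
    ‖(((‖x.1‖ ^ 2 + ‖x.2‖ ^ 2 : ℝ) : ℂ)) * conj x.1 - ((‖y.1‖ ^ 2 + ‖y.2‖ ^ 2 : ℝ) : ℂ) * conj y.1‖
      ≤ 24 * ‖x - y‖ ∧
    ‖(((‖x.1‖ ^ 2 + ‖x.2‖ ^ 2 : ℝ) : ℂ)) * conj x.2 - ((‖y.1‖ ^ 2 + ‖y.2‖ ^ 2 : ℝ) : ℂ) * conj y.2‖
      ≤ 24 * ‖x - y‖ := by
  have x1 : ‖x.1‖ ≤ 2 := (norm_fst_le x).trans hx
  have x2 : ‖x.2‖ ≤ 2 := (norm_snd_le x).trans hx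
  have y1 : ‖y.1‖ ≤ 2 := (norm_fst_le y).trans hy
  have y2 : ‖y.2‖ ≤ 2 := (norm_snd_le y).trans hy
  have d1 : ‖x.1 - y.1‖ ≤ ‖x - y‖ := norm_fst_le (x - y)
  have d2 : ‖x.2 - y.2‖ ≤ ‖x - y‖ := norm_snd_le (x - y)
  have e1 : |‖x.1‖ - ‖y.1‖| ≤ ‖x - y‖ := (abs_norm_sub_norm_le _ _).trans d1
  have e2 : |‖x.2‖ - ‖y.2‖| ≤ ‖x - y‖ := (abs_norm_sub_norm_le _ _).trans d2
  have hd : |(‖x.1‖ ^ 2 + ‖x.2‖ ^ 2) - (‖y.1‖ ^ 2 + ‖y.2‖ ^ 2)| ≤ 8 * ‖x - y‖ := by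
    have h1 : (‖x.1‖ ^ 2 + ‖x.2‖ ^ 2) - (‖y.1‖ ^ 2 + ‖y.2‖ ^ 2) =
      (‖x.1‖ - ‖y.1‖) * (‖x.1‖ + ‖y.1‖) + (‖x.2‖ - ‖y.2‖) * (‖x.2‖ + ‖y.2‖) := by ring
    rw [h1]
    refine (abs_add_le _ _).trans ?_
    rw [abs_mul, abs_mul, abs_of_nonneg (add_nonneg (norm_nonneg x.1) (norm_nonneg y.1)),
      abs_of_nonneg (add_nonneg (norm_nonneg x.2) (norm_nonneg y.2))]
    calc _ ≤ ‖x - y‖ * (2 + 2) + ‖x - y‖ * (2 + 2) := by gcongr
      _ = 8 * ‖x - y‖ := by ring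
  have hB : |‖y.1‖ ^ 2 + ‖y.2‖ ^ 2| ≤ 8 := by
    rw [abs_of_nonneg (by positivity)]
    nlinarith [norm_nonneg y.1, norm_nonneg y.2]
  have key : ∀ u v : ℂ, ‖u‖ ≤ 2 → ‖u - v‖ ≤ ‖x - y‖ →
      ‖(((‖x.1‖ ^ 2 + ‖x.2‖ ^ 2 : ℝ) : ℂ)) * conj u - ((‖y.1‖ ^ 2 + ‖y.2‖ ^ 2 : ℝ) : ℂ) * conj v‖
        ≤ 24 * ‖x - y‖ := by
    intro u v hu huv
    have h1 : (((‖x.1‖ ^ 2 + ‖x.2‖ ^ 2 : ℝ) : ℂ)) * conj u -
        ((‖y.1‖ ^ 2 + ‖y.2‖ ^ 2 : ℝ) : ℂ) * conj v =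
        (((‖x.1‖ ^ 2 + ‖x.2‖ ^ 2) - (‖y.1‖ ^ 2 + ‖y.2‖ ^ 2) : ℝ) : ℂ) * conj u +
        ((‖y.1‖ ^ 2 + ‖y.2‖ ^ 2 : ℝ) : ℂ) * conj (u - v) := by
      rw [map_sub]; push_cast; ring
    rw [h1]
    refine (norm_add_le _ _).trans ?_
    rw [norm_mul, norm_mul, RCLike.norm_conj, RCLike.norm_conj, Complex.norm_real,
      Complex.norm_real, Real.norm_eq_abs, Real.norm_eq_abs]
    calc _ ≤ (8 * ‖x - y‖) * 2 + 8 * ‖x - y‖ := by gcongr
      _ = 24 * ‖x - y‖ := by ring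
  exact ⟨key _ _ x1 d1, key _ _ x2 d2⟩

/-- a bounded holomorphic function on a ball has a controlled derivative at the centre -/
theorem hol_der {f : ℂ → ℂ} {z₁ : ℂ} {m : ℝ} (hf : DifferentiableOn ℂ f (ball z₁ (1 / 40)))
    (hm : ∀ z ∈ ball z₁ (1 / 40), ‖f z‖ ≤ m) :
    DifferentiableAt ℝ f z₁ ∧ ‖fderiv ℝ f z₁‖ ≤ 80 * m := by
  have hda : DifferentiableAt ℂ f z₁ :=
    hf.differentiableAt (isOpen_ball.mem_nhds (mem_ball_self (by norm_num)))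
  have hd : ‖deriv f z₁‖ ≤ m / (1 / 80) := by
    apply Complex.norm_deriv_le_of_forall_mem_sphere_norm_le (by norm_num)
    · refine ⟨hf.mono (ball_subset_ball (by norm_num)), ?_⟩
      rw [closure_ball _ (by norm_num)]
      exact hf.continuousOn.mono (closedBall_subset_ball (by norm_num))
    · intro z hz
      exact hm z (closedBall_subset_ball (by norm_num) (sphere_subset_closedBall hz))
  have hkf : HasFDerivAt (𝕜 := ℝ) f ((ContinuousLinearMap.smulRight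
      (1 : ℂ →L[ℂ] ℂ) (deriv f z₁)).restrictScalars ℝ) z₁ :=
    hda.hasDerivAt.hasFDerivAt.restrictScalars ℝ
  refine ⟨hkf.differentiableAt, ?_⟩
  rw [hkf.fderiv, ContinuousLinearMap.norm_restrictScalars]
  have hm0 : 0 ≤ m := (norm_nonneg _).trans (hm z₁ (mem_ball_self (by norm_num)))
  refine (ContinuousLinearMap.opNorm_le_bound _ (by positivity) fun x => ?_)
  rw [ContinuousLinearMap.smulRight_apply, norm_smul]
  simp only [one_apply_eq_self]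
  rw [mul_comm]
  gcongr
  linarith

/-- a bounded holomorphic function is Lipschitz on the smaller ball -/
theorem hol_lip {f : ℂ → ℂ × ℂ} {z₁ : ℂ} {m : ℝ} (hf : DifferentiableOn ℂ f (ball z₁ (1 / 40)))
    (hm : ∀ z ∈ ball z₁ (1 / 40), ‖f z‖ ≤ m) {ζ ζ' : ℂ} (hζ : ζ ∈ closedBall z₁ (1 / 80))
    (hζ' : ζ' ∈ closedBall z₁ (1 / 80)) : ‖f ζ - f ζ'‖ ≤ 160 * m * ‖ζ - ζ'‖ := by
  apply (convex_closedBall z₁ (1 / 80)).norm_image_sub_le_of_norm_deriv_le (𝕜 := ℂ) _ _ hζ' hζ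
  · intro x hx
    exact hf.differentiableAt (isOpen_ball.mem_nhds (closedBall_subset_ball (by norm_num) hx))
  · intro x hx
    rw [mem_closedBall] at hx
    have hsub : closedBall x (1 / 160) ⊆ ball z₁ (1 / 40) := by
      apply closedBall_subset_ball'
      linarith
    have : ‖deriv f x‖ ≤ m / (1 / 160) := by
      apply Complex.norm_deriv_le_of_forall_mem_sphere_norm_le (by norm_num)
      · refine ⟨hf.mono (ball_subset_closedBall.trans hsub), ?_⟩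
        rw [closure_ball _ (by norm_num)]
        exact hf.continuousOn.mono hsub
      · intro z hz
        exact hm z (hsub (sphere_subset_closedBall hz))
    linarith

end SolDer
namespace SolDer

open Glue LRint

theorem rpow_half_ge {x : ℝ} (h0 : 0 ≤ x) (h1 : x ≤ 1) : x ≤ x ^ (1 / 2 : ℝ) := by
  calc x = x ^ (1 : ℝ) := (Real.rpow_one _).symm
    _ ≤ x ^ (1 / 2 : ℝ) := by
      rcases h0.eq_or_lt with h | h
      · rw [← h]; simp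
      · exact Real.rpow_le_rpow_of_exponent_ge h h1 (by norm_num)

theorem norm_qq_le {z : ℂ} {c : ℝ} (hz : ‖z‖ ≤ 4) (hc : |c| ≤ 1) : ‖qq z + c * z‖ ≤ 24 := by
  have h1 : ‖2 * z‖ ≤ 8 := by rw [norm_mul]; norm_num; linarith
  have h2 : ‖z ^ 2 / 2‖ ≤ 8 := by
    rw [norm_div, norm_pow]; norm_num
    nlinarith [norm_nonneg z]
  have h3 : ‖(c : ℂ) * z‖ ≤ 4 := by
    rw [norm_mul, Complex.norm_real, Real.norm_eq_abs]
    nlinarith [norm_nonneg z, abs_nonneg c]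
  have h4 : ‖conj z‖ ≤ 4 := by rw [RCLike.norm_conj]; exact hz
  calc ‖qq z + c * z‖ ≤ ‖qq z‖ + ‖(c : ℂ) * z‖ := norm_add_le _ _
    _ ≤ (‖2 * z‖ + ‖z ^ 2 / 2‖ + ‖conj z‖) + ‖(c : ℂ) * z‖ := by
        gcongr
        unfold qq
        exact (norm_sub_le _ _).trans (add_le_add_left (norm_sub_le _ _) _)
    _ ≤ (8 + 8 + 4) + 4 := by linarith
    _ = 24 := by norm_num

theorem abs_le_of_mem {c : ℝ} (hc : c ∈ Icc (-1 : ℝ) 1) : |c| ≤ 1 := abs_le.2 hc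

theorem facts : ∃ K > 0, ∃ ε₀ > 0, ∀ ε : ℝ, 0 < ε → ε < ε₀ → ε ≤ 1 / 10 ∧ ∀ c ∈ Icc (-1 : ℝ) 1,
    ∀ h p q, Sol ε (EE ε c) aa bb h p q →
      (∀ z : ℂ, ‖z‖ ≤ 4 → 1 / 40 ≤ ‖z - aa‖ → 1 / 40 ≤ ‖z - bb‖ →
        ‖PHI (ε ^ 2) aa bb h p q z - (1, 0)‖ ≤ K * ε ∧ ‖PHI (ε ^ 2) aa bb h p q z‖ ≤ 2) ∧
      (∀ w ∈ closedBall bb (1 / 4), ‖p w‖ ≤ 2) ∧ (∀ w ∈ closedBall aa (1 / 4), ‖q w‖ ≤ 2) ∧
      (∀ z ∈ closedBall (0 : ℂ) 4, ‖(h z).1 - 1‖ ≤ K * ε ^ 2 ∧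
        ‖(h z).2 - ε * (qq z + c * z)‖ ≤ K * ε ^ 2) := by
  obtain ⟨C1, hC1, e1, he1, est1⟩ := sol_est
  obtain ⟨C2, hC2, e2, he2, est2⟩ := phi_est
  refine ⟨81 * C2 + 104 + C1, by positivity,
    min (min e1 e2) (min (1 / 100) (1 / (81 * C2 + 104 + C1))), by positivity, ?_⟩
  intro ε hε hlt
  simp only [lt_min_iff] at hlt
  obtain ⟨⟨l1, l2⟩, l3, l4⟩ := hlt
  have hKpos : 0 < 81 * C2 + 104 + C1 := by positivity
  have hKε : (81 * C2 + 104 + C1) * ε ≤ 1 := by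
    rw [lt_div_iff₀ hKpos] at l4; linarith
  have e2 : 0 < ε ^ 2 := by positivity
  have e2s : ε ^ 2 ≤ 1 / 10000 := by nlinarith
  have e2ε : ε ^ 2 ≤ ε / 100 := by nlinarith
  refine ⟨by linarith, fun c hc h p q s => ?_⟩
  obtain ⟨s1, s2, s3⟩ := est1 ε hε l1 c hc h p q s
  have hc1 := abs_le_of_mem hc
  have pq : ∀ (f : ℂ → ℂ × ℂ) (z : ℂ), ‖z‖ ≤ 4 → ‖(f z).1 - 1‖ ≤ C1 * ε ^ 2 →
      ‖(f z).2 - ε * (qq z + c * z)‖ ≤ C1 * ε ^ 2 → ‖f z‖ ≤ 2 := by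
    intro f z hz h1 h2
    have h3 : C1 * ε ^ 2 ≤ 1 / 100 := by
      have : C1 * ε ≤ 1 := by nlinarith
      nlinarith
    rw [Prod.norm_def, max_le_iff]
    constructor
    · calc ‖(f z).1‖ = ‖((f z).1 - 1) + 1‖ := by ring_nf
        _ ≤ ‖(f z).1 - 1‖ + ‖(1 : ℂ)‖ := norm_add_le _ _
        _ ≤ 2 := by rw [norm_one]; linarith
    · calc ‖(f z).2‖ = ‖((f z).2 - ε * (qq z + c * z)) + ε * (qq z + c * z)‖ := by ring_nf
        _ ≤ ‖(f z).2 - ε * (qq z + c * z)‖ + ‖(ε : ℂ) * (qq z + c * z)‖ := norm_add_le _ _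
        _ ≤ 1 / 100 + ε * 24 := by
            rw [norm_mul, Complex.norm_real, Real.norm_of_nonneg hε.le]
            exact add_le_add (h2.trans h3) (mul_le_mul_of_nonneg_left (norm_qq_le hz hc1) hε.le)
        _ ≤ 2 := by linarith
  refine ⟨?_, ?_, ?_, ?_⟩
  · intro z hz ha hb
    have hG : z ∈ GG (ε ^ 2) aa bb := ⟨hz, by linarith, by linarith⟩
    obtain ⟨f1, f2⟩ := est2 ε hε l2 c hc h p q s z hG
    have ra : ε ^ 2 / ‖z - aa‖ ≤ 40 * ε ^ 2 := by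
      rw [div_le_iff₀ (by linarith)]; nlinarith
    have rb : ε ^ 2 / ‖z - bb‖ ≤ 40 * ε ^ 2 := by
      rw [div_le_iff₀ (by linarith)]; nlinarith
    have g1 : ‖(PHI (ε ^ 2) aa bb h p q z).1 - 1‖ ≤ (81 * C2 + 104 + C1) * ε := by
      refine f1.trans ?_
      have : ε ^ 2 + ε * (ε ^ 2 / ‖z - aa‖) + ε * (ε ^ 2 / ‖z - bb‖) ≤ 81 * ε := by
        have : ε * (ε ^ 2 / ‖z - aa‖) ≤ ε * (40 * ε ^ 2) := by gcongr
        have : ε * (ε ^ 2 / ‖z - bb‖) ≤ ε * (40 * ε ^ 2) := by gcongr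
        nlinarith
      calc _ ≤ C2 * (81 * ε) := by gcongr
        _ ≤ (81 * C2 + 104 + C1) * ε := by nlinarith
    have g2 : ‖(PHI (ε ^ 2) aa bb h p q z).2 - 0‖ ≤ (81 * C2 + 104 + C1) * ε := by
      have na : ‖((ε ^ 2 : ℝ) : ℂ) / (z - aa)‖ ≤ 40 * ε ^ 2 := by
        rwa [norm_div, Complex.norm_real, Real.norm_of_nonneg e2.le]
      have nb : ‖((ε ^ 2 : ℝ) : ℂ) / (z - bb)‖ ≤ 40 * ε ^ 2 := by
        rwa [norm_div, Complex.norm_real, Real.norm_of_nonneg e2.le]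
      have nq : ‖(ε : ℂ) * (qq z + c * z)‖ ≤ ε * 24 := by
        rw [norm_mul, Complex.norm_real, Real.norm_of_nonneg hε.le]
        exact mul_le_mul_of_nonneg_left (norm_qq_le hz hc1) hε.le
      rw [sub_zero]
      calc ‖(PHI (ε ^ 2) aa bb h p q z).2‖ = ‖((PHI (ε ^ 2) aa bb h p q z).2 -
            (ε * (qq z + c * z) - ((ε ^ 2 : ℝ) : ℂ) / (z - aa) - ((ε ^ 2 : ℝ) : ℂ) / (z - bb))) +
            (ε * (qq z + c * z) - ((ε ^ 2 : ℝ) : ℂ) / (z - aa) -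
              ((ε ^ 2 : ℝ) : ℂ) / (z - bb))‖ := by ring_nf
        _ ≤ C2 * ε ^ 2 + (ε * 24 + 40 * ε ^ 2 + 40 * ε ^ 2) := by
            refine (norm_add_le _ _).trans (add_le_add f2 ?_)
            refine (norm_sub_le _ _).trans (add_le_add ?_ nb)
            exact (norm_sub_le _ _).trans (add_le_add nq na)
        _ ≤ (81 * C2 + 104 + C1) * ε := by nlinarith
    have g3 : ‖PHI (ε ^ 2) aa bb h p q z - (1, 0)‖ ≤ (81 * C2 + 104 + C1) * ε := by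
      rw [Prod.norm_def, max_le_iff]
      exact ⟨g1, g2⟩
    refine ⟨g3, ?_⟩
    calc ‖PHI (ε ^ 2) aa bb h p q z‖ = ‖(PHI (ε ^ 2) aa bb h p q z - (1, 0)) + (1, 0)‖ := by
          rw [sub_add_cancel]
      _ ≤ (81 * C2 + 104 + C1) * ε + ‖((1, 0) : ℂ × ℂ)‖ := (norm_add_le _ _).trans
          (add_le_add_left g3 _)
      _ ≤ 2 := by
          have : ‖((1, 0) : ℂ × ℂ)‖ = 1 := by simp [Prod.norm_def]
          rw [this]; linarith
  · intro w hw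
    have hw4 : ‖w‖ ≤ 4 := by
      rw [mem_closedBall, dist_eq_norm] at hw
      calc ‖w‖ = ‖(w - bb) + bb‖ := by ring_nf
        _ ≤ ‖w - bb‖ + ‖bb‖ := norm_add_le _ _
        _ ≤ 4 := by rw [norm_bb]; linarith
    exact pq p w hw4 (s2 w hw).1 (s2 w hw).2
  · intro w hw
    have hw4 : ‖w‖ ≤ 4 := by
      rw [mem_closedBall, dist_eq_norm] at hw
      calc ‖w‖ = ‖(w - aa) + aa‖ := by ring_nf
        _ ≤ ‖w - aa‖ + ‖aa‖ := norm_add_le _ _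
        _ ≤ 4 := by rw [norm_aa]; linarith
    exact pq q w hw4 (s3 w hw).1 (s3 w hw).2
  · intro z hz
    obtain ⟨t1, t2⟩ := s1 z hz
    have : C1 * ε ^ 2 ≤ (81 * C2 + 104 + C1) * ε ^ 2 := by gcongr; linarith
    exact ⟨t1.trans this, t2.trans this⟩

/-- the neck term: holomorphic and small away from the neck -/
theorem term_facts {ε : ℝ} (hε : 0 < ε) (hε' : ε ≤ 1 / 10) {a b : ℂ} {p : ℂ → ℂ × ℂ}
    (hp : DifferentiableOn ℂ p (ball b (ε ^ 2))) (hp2 : ∀ w ∈ closedBall b (1 / 4), ‖p w‖ ≤ 2)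
    {z₁ : ℂ} (ha : 1 / 20 ≤ ‖z₁ - a‖) :
    DifferentiableOn ℂ (fun z => (((ε ^ 2 : ℝ) : ℂ) / (z - a)) • JJ (p (sg (ε ^ 2) a b z)))
      (ball z₁ (1 / 40)) ∧
    ∀ z ∈ ball z₁ (1 / 40), ‖(((ε ^ 2 : ℝ) : ℂ) / (z - a)) • JJ (p (sg (ε ^ 2) a b z))‖
      ≤ 80 * ε ^ 2 := by
  have e2 : 0 < ε ^ 2 := by positivity
  have e2s : ε ^ 2 ≤ 1 / 100 := by nlinarith
  have hd : ∀ z ∈ ball z₁ (1 / 40), 1 / 40 ≤ ‖z - a‖ := by
    intro z hz
    rw [mem_ball, dist_eq_norm] at hz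
    have : ‖z₁ - a‖ ≤ ‖z - a‖ + ‖z - z₁‖ := by
      rw [show z₁ - a = (z - a) - (z - z₁) by ring]; exact norm_sub_le _ _
    linarith
  constructor
  · apply term_differentiableOn hp isOpen_ball
    intro z hz
    have h0 := hd z hz
    refine ⟨fun h => by rw [h, sub_self, norm_zero] at h0; linarith, sg_mem_ball (by linarith) ?_⟩
    nlinarith
  · intro z hz
    have h0 := hd z hz
    rw [norm_smul, norm_JJ, norm_div, Complex.norm_real, Real.norm_of_nonneg e2.le]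
    have h1 : ε ^ 2 / ‖z - a‖ ≤ 40 * ε ^ 2 := by
      rw [div_le_iff₀ (by linarith)]; nlinarith
    have h2 : ‖p (sg (ε ^ 2) a b z)‖ ≤ 2 := hp2 _ (sg_mem (by linarith) (by nlinarith))
    calc _ ≤ (40 * ε ^ 2) * 2 := by gcongr
      _ = 80 * ε ^ 2 := by ring

theorem differentiable_EE (ε c : ℝ) : Differentiable ℂ (EE ε c) := by
  unfold EE
  fun_prop

theorem EE_lip {ε c : ℝ} (hε : 0 < ε) (hc : |c| ≤ 1) {ζ ζ' : ℂ} (h : ‖ζ‖ ≤ 4) (h' : ‖ζ'‖ ≤ 4) :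
    ‖EE ε c ζ - EE ε c ζ'‖ ≤ 7 * ε * ‖ζ - ζ'‖ := by
  have h1 : EE ε c ζ - EE ε c ζ' = (0, ε * ((2 + c - (ζ + ζ') / 2) * (ζ - ζ'))) := by
    unfold EE
    ext
    · simp
    · simp; ring
  rw [h1, Prod.norm_def, norm_zero, max_le_iff]
  refine ⟨by positivity, ?_⟩
  rw [norm_mul, norm_mul, Complex.norm_real, Real.norm_of_nonneg hε.le]
  have h2 : ‖2 + (c : ℂ) - (ζ + ζ') / 2‖ ≤ 7 := by
    calc ‖2 + (c : ℂ) - (ζ + ζ') / 2‖ ≤ ‖(2 : ℂ)‖ + ‖(c : ℂ)‖ + ‖(ζ + ζ') / 2‖ :=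
          (norm_sub_le _ _).trans (add_le_add_left (norm_add_le _ _) _)
      _ ≤ 2 + 1 + 4 := by
          gcongr
          · simp
          · rw [Complex.norm_real, Real.norm_eq_abs]; exact hc
          · rw [norm_div]; norm_num
            have := norm_add_le ζ ζ'
            linarith
      _ = 7 := by norm_num
  calc _ ≤ ε * (7 * ‖ζ - ζ'‖) := by gcongr
    _ = 7 * ε * ‖ζ - ζ'‖ := by ring

/-- Hoelder continuity of the solution away from the necks -/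
theorem phi_holder {ε : ℝ} (hε : 0 < ε) (hε' : ε ≤ 1 / 10) {c : ℝ} (hc : |c| ≤ 1)
    {h p q : ℂ → ℂ × ℂ} (s : Sol ε (EE ε c) aa bb h p q)
    (hp2 : ∀ w ∈ closedBall bb (1 / 4), ‖p w‖ ≤ 2) (hq2 : ∀ w ∈ closedBall aa (1 / 4), ‖q w‖ ≤ 2)
    {z₁ : ℂ} (h0 : ‖z₁‖ ≤ 39 / 10) (ha : 1 / 20 ≤ ‖z₁ - aa‖) (hb : 1 / 20 ≤ ‖z₁ - bb‖) {ζ ζ' : ℂ}
    (hζ : ζ ∈ closedBall z₁ (1 / 80)) (hζ' : ζ' ∈ closedBall z₁ (1 / 80)) :
    ‖PHI (ε ^ 2) aa bb h p q ζ - PHI (ε ^ 2) aa bb h p q ζ'‖ ≤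
      (10 ^ 6 * ε) * ‖ζ - ζ'‖ ^ (1 / 2 : ℝ) := by
  obtain ⟨-, -, hp, hq⟩ := sol_hol hε hε' norm_aa_sub_bb (differentiable_EE ε c) s
  obtain ⟨ta1, ta2⟩ := term_facts hε hε' hp hp2 ha
  obtain ⟨tb1, tb2⟩ := term_facts hε hε' hq hq2 hb
  have la := hol_lip ta1 ta2 hζ hζ'
  have lb := hol_lip tb1 tb2 hζ hζ'
  have n1 : ∀ x ∈ closedBall z₁ (1 / 80), ‖x‖ ≤ 4 := by
    intro x hx
    rw [mem_closedBall, dist_eq_norm] at hx
    calc ‖x‖ = ‖(x - z₁) + z₁‖ := by ring_nf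
      _ ≤ ‖x - z₁‖ + ‖z₁‖ := norm_add_le _ _
      _ ≤ 4 := by linarith
  have lE := EE_lip hε hc (n1 ζ hζ) (n1 ζ' hζ')
  have lC := cauchyT_holder (z₀ := 0) (R := 4) (by norm_num) (nu_aesm hε hε' s) (nu_bound hε s)
    (fun ζ hζ => nu_support4 hζ) ζ ζ'
  have hle : ‖ζ - ζ'‖ ≤ ‖ζ - ζ'‖ ^ (1 / 2 : ℝ) := by
    apply rpow_half_ge (norm_nonneg _)
    have e1 := mem_closedBall.1 hζ
    have e2 := mem_closedBall.1 hζ'
    have := dist_triangle_right ζ ζ' z₁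
    rw [← dist_eq_norm]
    linarith
  have e2 : ε ^ 2 ≤ ε := by nlinarith
  have hdec : PHI (ε ^ 2) aa bb h p q ζ - PHI (ε ^ 2) aa bb h p q ζ' =
      (EE ε c ζ - EE ε c ζ') + (cauchyT (nu ε aa bb h p q) ζ - cauchyT (nu ε aa bb h p q) ζ') +
      ((((ε ^ 2 : ℝ) : ℂ) / (ζ - aa)) • JJ (p (sg (ε ^ 2) aa bb ζ)) -
        (((ε ^ 2 : ℝ) : ℂ) / (ζ' - aa)) • JJ (p (sg (ε ^ 2) aa bb ζ'))) +
      ((((ε ^ 2 : ℝ) : ℂ) / (ζ - bb)) • JJ (q (sg (ε ^ 2) bb aa ζ)) -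
        (((ε ^ 2 : ℝ) : ℂ) / (ζ' - bb)) • JJ (q (sg (ε ^ 2) bb aa ζ'))) := by
    rw [PHI, PHI, s.h_eq ζ, s.h_eq ζ', nu]
    abel
  rw [hdec]
  have hx : 0 ≤ ‖ζ - ζ'‖ ^ (1 / 2 : ℝ) := by positivity
  calc _ ≤ 7 * ε * ‖ζ - ζ'‖ + (8 + 2 * 4 ^ 2) * (16000 * ε) * ‖ζ - ζ'‖ ^ (1 / 2 : ℝ) +
        160 * (80 * ε ^ 2) * ‖ζ - ζ'‖ + 160 * (80 * ε ^ 2) * ‖ζ - ζ'‖ := by
        refine (norm_add_le _ _).trans (add_le_add ((norm_add_le _ _).trans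
          (add_le_add ((norm_add_le _ _).trans (add_le_add lE lC)) la)) lb)
    _ ≤ 7 * ε * ‖ζ - ζ'‖ ^ (1 / 2 : ℝ) +
        (8 + 2 * 4 ^ 2) * (16000 * ε) * ‖ζ - ζ'‖ ^ (1 / 2 : ℝ) +
        160 * (80 * ε) * ‖ζ - ζ'‖ ^ (1 / 2 : ℝ) + 160 * (80 * ε) * ‖ζ - ζ'‖ ^ (1 / 2 : ℝ) := by
        gcongr
    _ ≤ (10 ^ 6 * ε) * ‖ζ - ζ'‖ ^ (1 / 2 : ℝ) := by nlinarith [mul_nonneg hε.le hx]

end SolDer
namespace SolDer

open Glue LRint

theorem differentiable_qq : Differentiable ℝ qq := by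
  unfold qq
  have : Differentiable ℝ (fun z : ℂ => conj z) := Complex.conjCLE.differentiable
  fun_prop

end SolDer

open Glue LRint SolDer in
theorem sol_der : ∃ C > 0, ∃ ε₀ > 0, ∀ ε : ℝ, 0 < ε → ε < ε₀ → ∀ c ∈ Icc (-1 : ℝ) 1,
    ∀ h p q, Sol ε (EE ε c) aa bb h p q → ∀ z : ℂ, ‖z‖ ≤ 39 / 10 → 1 / 20 ≤ ‖z - aa‖ →
      1 / 20 ≤ ‖z - bb‖ →
      ‖fderiv ℝ (fun w => (PHI (ε ^ 2) aa bb h p q w).1) z‖ ≤ C * ε ∧
      ‖fderiv ℝ (fun w => (PHI (ε ^ 2) aa bb h p q w).2 - ε * (qq w + c * w)) z‖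
        ≤ C * ε ^ 2 := by
  obtain ⟨K, hK, ε₀, hε₀, fac⟩ := facts
  obtain ⟨L, hL, ky⟩ := SolDer.key
  refine ⟨L * (24 * 10 ^ 6 + 24 * K + K) + 80 * 80 * 2, by positivity, ε₀, hε₀, ?_⟩
  intro ε hε hlt c hc h p q s z₁ h0 ha hb
  obtain ⟨hε', fac⟩ := fac ε hε hlt
  obtain ⟨f1, f2, f3, f4⟩ := fac c hc h p q s
  have hc1 := abs_le_of_mem hc
  obtain ⟨-, -, hp, hq⟩ := sol_hol hε hε' norm_aa_sub_bb (differentiable_EE ε c) s
  obtain ⟨ta1, ta2⟩ := term_facts hε hε' hp f2 ha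
  obtain ⟨tb1, tb2⟩ := term_facts hε hε' hq f3 hb
  have hol : ∀ {ζ ζ' : ℂ}, ζ ∈ closedBall z₁ (1 / 80) → ζ' ∈ closedBall z₁ (1 / 80) →
      ‖PHI (ε ^ 2) aa bb h p q ζ - PHI (ε ^ 2) aa bb h p q ζ'‖ ≤
      (10 ^ 6 * ε) * ‖ζ - ζ'‖ ^ (1 / 2 : ℝ) := fun hζ hζ' =>
    phi_holder hε hε' hc1 s f2 f3 h0 ha hb hζ hζ'
  set φ := PHI (ε ^ 2) aa bb h p q with hφ
  have e2 : 0 < ε ^ 2 := by positivity
  have e2s : ε ^ 2 ≤ 1 / 100 := by nlinarith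
  have e2ε : ε ^ 2 ≤ ε := by nlinarith
  -- points of the small ball
  have n1 : ∀ x ∈ closedBall z₁ (1 / 80), ‖x‖ < 4 ∧ 1 / 40 ≤ ‖x - aa‖ ∧ 1 / 40 ≤ ‖x - bb‖ := by
    intro x hx
    rw [mem_closedBall, dist_eq_norm] at hx
    refine ⟨?_, ?_, ?_⟩
    · calc ‖x‖ = ‖(x - z₁) + z₁‖ := by ring_nf
        _ ≤ ‖x - z₁‖ + ‖z₁‖ := norm_add_le _ _
        _ < 4 := by linarith
    · have : ‖z₁ - aa‖ ≤ ‖x - aa‖ + ‖x - z₁‖ := by
        rw [show z₁ - aa = (x - aa) - (x - z₁) by ring]; exact norm_sub_le _ _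
      linarith
    · have : ‖z₁ - bb‖ ≤ ‖x - bb‖ + ‖x - z₁‖ := by
        rw [show z₁ - bb = (x - bb) - (x - z₁) by ring]; exact norm_sub_le _ _
      linarith
  have hG : ∀ x ∈ closedBall z₁ (1 / 80), x ∈ GG (ε ^ 2) aa bb := fun x hx =>
    ⟨(n1 x hx).1.le, by linarith [(n1 x hx).2.1], by linarith [(n1 x hx).2.2]⟩
  have hφ1 : ∀ x ∈ closedBall z₁ (1 / 80), ‖φ x - (1, 0)‖ ≤ K * ε ∧ ‖φ x‖ ≤ 2 := fun x hx =>
    f1 x (n1 x hx).1.le (n1 x hx).2.1 (n1 x hx).2.2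
  have h10 : ‖((1, 0) : ℂ × ℂ)‖ ≤ 2 := by simp [Prod.norm_def]
  -- densities
  set ν := nu ε aa bb h p q with hν
  have hνm := nu_aesm hε hε' s
  have hνi : ∀ z, Integrable (fun ζ => (z - ζ)⁻¹ • ν ζ) := fun z =>
    cauchy_integrable hνm (nu_bound hε s) (fun ζ hζ => nu_support4 hζ) z
  have hνeq : ∀ x ∈ closedBall z₁ (1 / 80), ν x = mu ε (φ x) := fun x hx => by
    rw [hν, nu, indicator_of_mem (hG x hx)]
  have hheq : ∀ z, h z = EE ε c z + cauchyT ν z := fun z => s.h_eq z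
  -- neck terms, componentwise
  have dfst : ∀ {f : ℂ → ℂ × ℂ}, DifferentiableOn ℂ f (ball z₁ (1 / 40)) →
      DifferentiableOn ℂ (fun z => (f z).1) (ball z₁ (1 / 40)) := fun hf => hf.fst
  have dsnd : ∀ {f : ℂ → ℂ × ℂ}, DifferentiableOn ℂ f (ball z₁ (1 / 40)) →
      DifferentiableOn ℂ (fun z => (f z).2) (ball z₁ (1 / 40)) := fun hf => hf.snd
  obtain ⟨a1, a2⟩ := hol_der (dfst ta1) fun z hz => (norm_fst_le _).trans (ta2 z hz)
  obtain ⟨a3, a4⟩ := hol_der (dsnd ta1) fun z hz => (norm_snd_le _).trans (ta2 z hz)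
  obtain ⟨b1, b2⟩ := hol_der (dfst tb1) fun z hz => (norm_fst_le _).trans (tb2 z hz)
  obtain ⟨b3, b4⟩ := hol_der (dsnd tb1) fun z hz => (norm_snd_le _).trans (tb2 z hz)
  constructor
  · -- first component
    have kk := ky (fun ζ => (ν ζ).1) z₁ ((24 * 10 ^ 6 + 24 * K + K) * ε) (16000 * ε)
      (continuous_fst.comp_aestronglyMeasurable hνm)
      (fun ζ => (norm_fst_le _).trans (nu_bound hε s ζ))
      (fun ζ hζ => by simp only [hν]; rw [nu_support4 hζ]; rfl)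
    obtain ⟨k1, k2⟩ := by
      refine kk ?_ ?_ ?_
      · intro ζ hζ
        have := (cubic_lip (hφ1 ζ hζ).2 h10).2
        simp only [norm_one, norm_zero, map_zero, mul_zero, sub_zero] at this
        simp only [hνeq ζ hζ, mu]
        rw [Complex.ofReal_mul, mul_assoc, norm_mul, Complex.norm_real, Real.norm_of_nonneg hε.le]
        have h2 := (hφ1 ζ hζ).1
        have h3 : ε * (24 * (K * ε)) ≤ (24 * 10 ^ 6 + 24 * K + K) * ε := by
          have : ε * (24 * (K * ε)) ≤ 24 * K * ε := by nlinarith [mul_pos hK hε]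
          nlinarith
        calc _ ≤ ε * (24 * (K * ε)) := by gcongr; linarith
          _ ≤ _ := h3
      · intro ζ hζ ζ' hζ'
        have := (cubic_lip (hφ1 ζ hζ).2 (hφ1 ζ' hζ').2).2
        have hh := hol hζ hζ'
        simp only [hνeq ζ hζ, hνeq ζ' hζ', mu]
        rw [Complex.ofReal_mul, Complex.ofReal_mul, mul_assoc, mul_assoc, ← mul_sub, norm_mul,
          Complex.norm_real, Real.norm_of_nonneg hε.le]
        have hx : 0 ≤ ‖ζ - ζ'‖ ^ (1 / 2 : ℝ) := by positivity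
        calc _ ≤ ε * (24 * ((10 ^ 6 * ε) * ‖ζ - ζ'‖ ^ (1 / 2 : ℝ))) := by
              gcongr
              exact this.trans (by gcongr)
          _ = (24 * 10 ^ 6 * ε ^ 2) * ‖ζ - ζ'‖ ^ (1 / 2 : ℝ) := by ring
          _ ≤ ((24 * 10 ^ 6 + 24 * K + K) * ε) * ‖ζ - ζ'‖ ^ (1 / 2 : ℝ) := by
              gcongr
              nlinarith [mul_pos hK hε]
      · intro z hz
        have h5 := (f4 z (by simpa using (n1 z hz).1.le)).1
        have h6 : cauchyT (fun ζ => (ν ζ).1) z = (h z).1 - 1 := by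
          rw [hheq z, Prod.fst_add, cauchyT_fst (hνi z)]
          simp [EE]
        rw [h6]
        refine h5.trans ?_
        nlinarith [mul_pos hK hε]
    have hdec : (fun w => (φ w).1) = fun w => ((1 + cauchyT (fun ζ => (ν ζ).1) w) +
        ((((ε ^ 2 : ℝ) : ℂ) / (w - aa)) • JJ (p (sg (ε ^ 2) aa bb w))).1) +
        ((((ε ^ 2 : ℝ) : ℂ) / (w - bb)) • JJ (q (sg (ε ^ 2) bb aa w))).1 := by
      funext w
      rw [hφ, PHI, hheq w, Prod.fst_add, Prod.fst_add, Prod.fst_add, cauchyT_fst (hνi w)]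
      rfl
    rw [hdec, (((k1.hasFDerivAt.const_add 1).fun_add a1.hasFDerivAt).fun_add
      b1.hasFDerivAt).fderiv]
    calc _ ≤ L * ((24 * 10 ^ 6 + 24 * K + K) * ε) + 80 * (80 * ε ^ 2) + 80 * (80 * ε ^ 2) :=
          (norm_add_le _ _).trans (add_le_add ((norm_add_le _ _).trans (add_le_add k2 a2)) b2)
      _ ≤ (L * (24 * 10 ^ 6 + 24 * K + K) + 80 * 80 * 2) * ε := by nlinarith
  · -- second component
    set ν' : ℂ → ℂ := fun ζ => (ν ζ).2 + (ball (0 : ℂ) 4).indicator (fun _ => (ε : ℂ)) ζ with hν'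
    have hν'eq : ∀ x ∈ closedBall z₁ (1 / 80), ν' x =
        -(ε * ((((‖(φ x).1‖ ^ 2 + ‖(φ x).2‖ ^ 2 : ℝ) : ℂ)) * conj (φ x).1 - 1)) := by
      intro x hx
      have : x ∈ ball (0 : ℂ) 4 := by simpa using (n1 x hx).1
      simp only [hν', hνeq x hx, indicator_of_mem this, mu]
      push_cast
      ring
    have him : AEStronglyMeasurable ((ball (0 : ℂ) 4).indicator (fun _ => (ε : ℂ))) :=
      aestronglyMeasurable_const.indicator measurableSet_ball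
    have hib : ∀ ζ, ‖(ball (0 : ℂ) 4).indicator (fun _ => (ε : ℂ)) ζ‖ ≤ ε := by
      intro ζ
      refine (norm_indicator_le_norm_self _ _).trans ?_
      rw [Complex.norm_real, Real.norm_of_nonneg hε.le]
    have his : ∀ ζ ∉ closedBall (0 : ℂ) 4, (ball (0 : ℂ) 4).indicator (fun _ => (ε : ℂ)) ζ = 0 :=
      fun ζ hζ => indicator_of_notMem (fun h => hζ (ball_subset_closedBall h)) _
    have hii : ∀ z, Integrable (fun ζ => (z - ζ)⁻¹ •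
        (ball (0 : ℂ) 4).indicator (fun _ => (ε : ℂ)) ζ) := fun z =>
      cauchy_integrable him hib his z
    have hν2i : ∀ z, Integrable (fun ζ => (z - ζ)⁻¹ • (ν ζ).2) := fun z =>
      cauchy_integrable (z₀ := 0) (R := 4) (continuous_snd.comp_aestronglyMeasurable hνm)
        (fun ζ => (norm_snd_le _).trans (nu_bound hε s ζ))
        (fun ζ hζ => by rw [nu_support4 hζ]; rfl) z
    have hCν' : ∀ z, ‖z‖ < 4 → cauchyT ν' z = (h z).2 - ε * (qq z + c * z) := by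
      intro z hz
      rw [hν', cauchyT_add (hν2i z) (hii z), cauchyT_indicator_ball 0 (by norm_num), if_pos
        (by simpa using hz.le), hheq z, Prod.snd_add, cauchyT_snd (hνi z)]
      simp only [EE, qq, smul_eq_mul, sub_zero]
      ring
    have kk := ky ν' z₁ ((24 * 10 ^ 6 + 24 * K + K) * ε ^ 2) (16000 * ε + ε)
      ((continuous_snd.comp_aestronglyMeasurable hνm).add him)
      (fun ζ => (norm_add_le _ _).trans
        (add_le_add ((norm_snd_le _).trans (nu_bound hε s ζ)) (hib ζ)))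
      (fun ζ hζ => by
        simp only [hν']; rw [hν, nu_support4 hζ, his ζ hζ]; simp)
    obtain ⟨k1, k2⟩ := by
      refine kk ?_ ?_ ?_
      · intro ζ hζ
        have := (cubic_lip (hφ1 ζ hζ).2 h10).1
        simp only [norm_one, norm_zero, map_one] at this
        norm_num at this
        rw [hν'eq ζ hζ, norm_neg, norm_mul, Complex.norm_real, Real.norm_of_nonneg hε.le]
        have h2 := (hφ1 ζ hζ).1
        push_cast
        calc _ ≤ ε * (24 * (K * ε)) := by gcongr; exact this.trans (by gcongr)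
          _ ≤ _ := by nlinarith [mul_pos hK e2]
      · intro ζ hζ ζ' hζ'
        have := (cubic_lip (hφ1 ζ hζ).2 (hφ1 ζ' hζ').2).1
        have hh := hol hζ hζ'
        rw [hν'eq ζ hζ, hν'eq ζ' hζ']
        rw [show ∀ u v : ℂ, -((ε : ℂ) * (u - 1)) - -((ε : ℂ) * (v - 1)) = -(ε * (u - v)) by
          intro u v; ring, norm_neg, norm_mul, Complex.norm_real, Real.norm_of_nonneg hε.le]
        have hx : 0 ≤ ‖ζ - ζ'‖ ^ (1 / 2 : ℝ) := by positivity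
        calc _ ≤ ε * (24 * ((10 ^ 6 * ε) * ‖ζ - ζ'‖ ^ (1 / 2 : ℝ))) := by
              gcongr
              exact this.trans (by gcongr)
          _ = (24 * 10 ^ 6 * ε ^ 2) * ‖ζ - ζ'‖ ^ (1 / 2 : ℝ) := by ring
          _ ≤ ((24 * 10 ^ 6 + 24 * K + K) * ε ^ 2) * ‖ζ - ζ'‖ ^ (1 / 2 : ℝ) := by
              gcongr
              linarith
      · intro z hz
        rw [hCν' z (n1 z hz).1]
        have h5 := (f4 z (by simpa using (n1 z hz).1.le)).2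
        refine h5.trans ?_
        nlinarith [mul_pos hK e2]
    have hdec : (fun w => (φ w).2 - ε * (qq w + c * w)) =ᶠ[nhds z₁] fun w =>
        (cauchyT ν' w + ((((ε ^ 2 : ℝ) : ℂ) / (w - aa)) • JJ (p (sg (ε ^ 2) aa bb w))).2) +
        ((((ε ^ 2 : ℝ) : ℂ) / (w - bb)) • JJ (q (sg (ε ^ 2) bb aa w))).2 := by
      have : ∀ᶠ w in nhds z₁, ‖w‖ < 4 :=
        (isOpen_lt continuous_norm continuous_const).mem_nhds (by
          show ‖z₁‖ < 4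
          linarith)
      filter_upwards [this] with w hw
      rw [hCν' w hw, hφ, PHI, Prod.snd_add, Prod.snd_add]
      ring
    rw [hdec.fderiv_eq, ((k1.hasFDerivAt.fun_add a3.hasFDerivAt).fun_add
      b3.hasFDerivAt).fderiv]
    calc _ ≤ L * ((24 * 10 ^ 6 + 24 * K + K) * ε ^ 2) + 80 * (80 * ε ^ 2) +
          80 * (80 * ε ^ 2) :=
          (norm_add_le _ _).trans (add_le_add ((norm_add_le _ _).trans (add_le_add k2 a4)) b4)
      _ = (L * (24 * 10 ^ 6 + 24 * K + K) + 80 * 80 * 2) * ε ^ 2 := by ring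

end Pool.Agent.MP_49383f_gt
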