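import Pool.Agent.MP_49383f_gt.ExistsSol

/-!
# MP_49383f_gt, module M11: stability of the solution in the parameter
-/

namespace Pool.Agent.MP_49383f_gt

open scoped ContDiff ComplexConjugate
open MeasureTheory Metric Set

namespace Stable

open ExistsSol

lemma le_norm_sub {a b w : ℂ} (hab : ‖a - b‖ = 1) (hw : w ∈ closedBall b (1 / 4)) :
    3 / 4 ≤ ‖w - a‖ := by
  rw [mem_closedBall, dist_eq_norm] at hw
  have h1 : ‖a - b‖ ≤ ‖w - a‖ + ‖w - b‖ := by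
    calc ‖a - b‖ = ‖(w - b) - (w - a)‖ := by congr 1; ring
      _ ≤ _ := by rw [add_comm]; exact norm_sub_le _ _
  linarith

lemma coef_le {ε : ℝ} (hε : 0 < ε) (hε' : ε ≤ 1 / 10) {a b w : ℂ} (hab : ‖a - b‖ = 1)
    (hw : w ∈ closedBall b (1 / 4)) : ‖((ε ^ 2 : ℝ) : ℂ) / (w - a)‖ ≤ 1 / 10 := by
  have h2 := le_norm_sub hab hw
  rw [norm_div, Complex.norm_real, Real.norm_of_nonneg (by positivity),
    div_le_iff₀ (by linarith)]
  nlinarith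

lemma sg_mem' {ε : ℝ} (hε : 0 < ε) (hε' : ε ≤ 1 / 10) {a b w : ℂ} (hab : ‖a - b‖ = 1)
    (hw : w ∈ closedBall b (1 / 4)) : sg (ε ^ 2) a b w ∈ closedBall b (1 / 4) :=
  sg_mem (by positivity) (by nlinarith) (by have := le_norm_sub hab hw; nlinarith)

/-- the density of a solution -/
noncomputable def nuS (ε : ℝ) (a b : ℂ) (h p q : ℂ → ℂ × ℂ) : ℂ → ℂ × ℂ :=
  (GG (ε ^ 2) a b).indicator (fun ζ => mu ε (PHI (ε ^ 2) a b h p q ζ))

section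
variable {ε : ℝ} {E : ℂ → ℂ × ℂ} {a b : ℂ} {h p q : ℂ → ℂ × ℂ}

lemma sol_PHI_continuousOn (hε : 0 < ε) (hε' : ε ≤ 1 / 10)
    (s : Sol ε E a b h p q) : ContinuousOn (PHI (ε ^ 2) a b h p q) (GG (ε ^ 2) a b) := by
  have hr : 0 < ε ^ 2 := by positivity
  have hr' : ε ^ 2 ≤ 1 / 4 := by nlinarith
  have h1 : ContinuousOn h (GG (ε ^ 2) a b) := s.h_cont.continuousOn
  have h2 : ContinuousOn (fun z => p (sg (ε ^ 2) a b z)) (GG (ε ^ 2) a b) :=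
    s.p_cont.comp ((sg_continuousOn hr a b).mono fun z hz => hz.2.1)
      (fun z hz => sg_mem hr hr' hz.2.1)
  have h3 : ContinuousOn (fun z => q (sg (ε ^ 2) b a z)) (GG (ε ^ 2) a b) :=
    s.q_cont.comp ((sg_continuousOn hr b a).mono fun z hz => hz.2.2)
      (fun z hz => sg_mem hr hr' hz.2.2)
  have h4 : ContinuousOn (fun z : ℂ => ((ε ^ 2 : ℝ) : ℂ) / (z - a)) (GG (ε ^ 2) a b) :=
    (div_continuousOn hr a).mono fun z hz => hz.2.1
  have h5 : ContinuousOn (fun z : ℂ => ((ε ^ 2 : ℝ) : ℂ) / (z - b)) (GG (ε ^ 2) a b) :=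
    (div_continuousOn hr b).mono fun z hz => hz.2.2
  exact (h1.add (h4.smul (continuous_JJ.comp_continuousOn h2))).add
    (h5.smul (continuous_JJ.comp_continuousOn h3))

lemma nuS_meas (hε : 0 < ε) (hε' : ε ≤ 1 / 10) (s : Sol ε E a b h p q) :
    AEStronglyMeasurable (nuS ε a b h p q) := by
  have hG : MeasurableSet (GG (ε ^ 2) a b) := (isClosed_GG _ _ _).measurableSet
  rw [nuS, aestronglyMeasurable_indicator_iff hG]
  exact ((continuous_mu ε).comp_continuousOn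
    (sol_PHI_continuousOn hε hε' s)).aestronglyMeasurable hG

lemma nuS_bound (hε : 0 < ε) (s : Sol ε E a b h p q) (ζ : ℂ) :
    ‖nuS ε a b h p q ζ‖ ≤ 6 * 20 ^ 3 * ε := by
  by_cases hζ : ζ ∈ GG (ε ^ 2) a b
  · rw [nuS, indicator_of_mem hζ]
    exact norm_mu_le hε.le (s.bd ζ hζ)
  · rw [nuS, indicator_of_notMem hζ, norm_zero]
    positivity

lemma nuS_support (ζ : ℂ) (hζ : ζ ∉ closedBall (0 : ℂ) 4) :
    nuS ε a b h p q ζ = 0 :=
  indicator_of_notMem (fun h => hζ (by simpa using h.1)) _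

end

/-- General stability estimate. -/
theorem stable_gen {ε : ℝ} (hε : 0 < ε) (hε' : ε < 1 / 1000000) {E E' : ℂ → ℂ × ℂ} {a b : ℂ}
    (hab : ‖a - b‖ = 1) (ha : ‖a‖ ≤ 2) (hb : ‖b‖ ≤ 2) {D : ℝ}
    (hE : ∀ z ∈ closedBall (0 : ℂ) 4, ‖E z - E' z‖ ≤ D) {h p q h' p' q' : ℂ → ℂ × ℂ}
    (s : Sol ε E a b h p q) (s' : Sol ε E' a b h' p' q') :
    (∀ z ∈ closedBall (0 : ℂ) 4, ‖h z - h' z‖ ≤ 2 * D) ∧
      (∀ z ∈ closedBall b (1 / 4), ‖p z - p' z‖ ≤ 4 * D) ∧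
      (∀ z ∈ closedBall a (1 / 4), ‖q z - q' z‖ ≤ 4 * D) := by
  have hε10 : ε ≤ 1 / 10 := by linarith
  have hba : ‖b - a‖ = 1 := by rwa [norm_sub_rev]
  have hsub : ∀ a : ℂ, ‖a‖ ≤ 2 → closedBall a (1 / 4) ⊆ closedBall (0 : ℂ) 4 := by
    intro a ha w hw
    rw [mem_closedBall, dist_eq_norm] at hw
    rw [mem_closedBall, dist_zero_right]
    calc ‖w‖ = ‖(w - a) + a‖ := by congr 1; ring
      _ ≤ ‖w - a‖ + ‖a‖ := norm_add_le _ _
      _ ≤ 4 := by linarith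
  obtain ⟨z₁, hz₁, hmax⟩ := (isCompact_closedBall (0 : ℂ) 4).exists_isMaxOn
    ⟨0, mem_closedBall_self (by norm_num)⟩
    ((s.h_cont.sub s'.h_cont).norm.continuousOn)
  obtain ⟨w₁, hw₁, hmaxp⟩ := (isCompact_closedBall b (1 / 4)).exists_isMaxOn
    ⟨b, mem_closedBall_self (by norm_num)⟩ ((s.p_cont.sub s'.p_cont).norm)
  obtain ⟨v₁, hv₁, hmaxq⟩ := (isCompact_closedBall a (1 / 4)).exists_isMaxOn
    ⟨a, mem_closedBall_self (by norm_num)⟩ ((s.q_cont.sub s'.q_cont).norm)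
  set H := ‖h z₁ - h' z₁‖ with hHdef
  have hH : ∀ z ∈ closedBall (0 : ℂ) 4, ‖h z - h' z‖ ≤ H := fun z hz => hmax hz
  have hH0 : 0 ≤ H := norm_nonneg _
  have hP : ∀ z ∈ closedBall b (1 / 4), ‖p z - p' z‖ ≤ ‖p w₁ - p' w₁‖ := fun z hz => hmaxp hz
  have hQ : ∀ z ∈ closedBall a (1 / 4), ‖q z - q' z‖ ≤ ‖q v₁ - q' v₁‖ := fun z hz => hmaxq hz
  have hP2 : ‖p w₁ - p' w₁‖ ≤ 2 * H := by
    have e : p w₁ - p' w₁ = (h w₁ - h' w₁) + (((ε ^ 2 : ℝ) : ℂ) / (w₁ - a)) •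
        JJ (p (sg (ε ^ 2) a b w₁) - p' (sg (ε ^ 2) a b w₁)) := by
      rw [s.p_eq w₁ hw₁, s'.p_eq w₁ hw₁, add_sub_add_comm, ← smul_sub, ← JJ_sub]
    have h1 := hH w₁ (hsub b hb hw₁)
    have h2 := coef_le hε hε10 hab hw₁
    have h3 := hP _ (sg_mem' hε hε10 hab hw₁)
    have h4 := mul_le_mul h2 h3 (norm_nonneg _) (by norm_num)
    have h5 := norm_add_le (h w₁ - h' w₁) ((((ε ^ 2 : ℝ) : ℂ) / (w₁ - a)) •
        JJ (p (sg (ε ^ 2) a b w₁) - p' (sg (ε ^ 2) a b w₁)))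
    rw [← e, norm_smul, norm_JJ] at h5
    linarith
  have hQ2 : ‖q v₁ - q' v₁‖ ≤ 2 * H := by
    have e : q v₁ - q' v₁ = (h v₁ - h' v₁) + (((ε ^ 2 : ℝ) : ℂ) / (v₁ - b)) •
        JJ (q (sg (ε ^ 2) b a v₁) - q' (sg (ε ^ 2) b a v₁)) := by
      rw [s.q_eq v₁ hv₁, s'.q_eq v₁ hv₁, add_sub_add_comm, ← smul_sub, ← JJ_sub]
    have h1 := hH v₁ (hsub a ha hv₁)
    have h2 := coef_le hε hε10 hba hv₁
    have h3 := hQ _ (sg_mem' hε hε10 hba hv₁)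
    have h4 := mul_le_mul h2 h3 (norm_nonneg _) (by norm_num)
    have h5 := norm_add_le (h v₁ - h' v₁) ((((ε ^ 2 : ℝ) : ℂ) / (v₁ - b)) •
        JJ (q (sg (ε ^ 2) b a v₁) - q' (sg (ε ^ 2) b a v₁)))
    rw [← e, norm_smul, norm_JJ] at h5
    linarith
  have hr : 0 < ε ^ 2 := by positivity
  have hr' : ε ^ 2 ≤ 1 / 4 := by nlinarith
  have hnu : ∀ ζ, ‖(nuS ε a b h p q - nuS ε a b h' p' q') ζ‖ ≤ 6 * 20 ^ 2 * ε * (3 * (2 * H)) := by
    intro ζ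
    rw [Pi.sub_apply]
    by_cases hζ : ζ ∈ GG (ε ^ 2) a b
    · rw [nuS, nuS, indicator_of_mem hζ, indicator_of_mem hζ]
      refine (norm_mu_sub_le hε.le (s.bd ζ hζ) (s'.bd ζ hζ)).trans ?_
      refine mul_le_mul_of_nonneg_left ?_ (by positivity)
      exact norm_PHI_sub_le hr hζ ((hH ζ (by simpa using hζ.1)).trans (by linarith))
        ((hP _ (sg_mem hr hr' hζ.2.1)).trans hP2) ((hQ _ (sg_mem hr hr' hζ.2.2)).trans hQ2)
    · rw [nuS, nuS, indicator_of_notMem hζ, indicator_of_notMem hζ, sub_zero, norm_zero]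
      positivity
  have hHD : H ≤ D + 18 * (6 * 20 ^ 2 * ε * (3 * (2 * H))) := by
    have e : h z₁ - h' z₁ = (E z₁ - E' z₁) +
        cauchyT (nuS ε a b h p q - nuS ε a b h' p' q') z₁ := by
      have := cauchyT_sub (cauchy_integrable (nuS_meas hε hε10 s) (nuS_bound hε s)
        nuS_support z₁) (cauchy_integrable (nuS_meas hε hε10 s') (nuS_bound hε s')
        nuS_support z₁)
      rw [s.h_eq z₁, s'.h_eq z₁, add_sub_add_comm]
      congr 1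
      exact this.symm
    have h2 := norm_cauchyT_le (z₀ := 0) (R := 4) (by norm_num)
      ((nuS_meas hε hε10 s).sub (nuS_meas hε hε10 s')) hnu
      (fun ζ hζ => by rw [Pi.sub_apply, nuS_support ζ hζ, nuS_support ζ hζ, sub_zero]) z₁
    have h1 := hE z₁ hz₁
    have h3 := norm_add_le (E z₁ - E' z₁) (cauchyT (nuS ε a b h p q - nuS ε a b h' p' q') z₁)
    rw [← e] at h3
    have h4 : (2 + (4 : ℝ) ^ 2) = 18 := by norm_num
    rw [h4] at h2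
    linarith
  have hH2 : H ≤ 2 * D := by nlinarith
  exact ⟨fun z hz => (hH z hz).trans hH2, fun z hz => (hP z hz).trans (by linarith),
    fun z hz => (hQ z hz).trans (by linarith)⟩

end Stable

theorem sol_stable : ∃ ε₀ > 0, ∀ ε : ℝ, 0 < ε → ε < ε₀ → ∀ c ∈ Icc (-1 : ℝ) 1,
    ∀ c' ∈ Icc (-1 : ℝ) 1, ∀ h p q h' p' q', Sol ε (EE ε c) aa bb h p q →
    Sol ε (EE ε c') aa bb h' p' q' →
      (∀ z ∈ closedBall (0 : ℂ) 4, ‖h z - h' z‖ ≤ 16 * ε * |c - c'|) ∧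
      (∀ z ∈ closedBall bb (1 / 4), ‖p z - p' z‖ ≤ 16 * ε * |c - c'|) ∧
      (∀ z ∈ closedBall aa (1 / 4), ‖q z - q' z‖ ≤ 16 * ε * |c - c'|) := by
  refine ⟨1 / 1000000, by norm_num, fun ε hε hε' c hc c' hc' h p q h' p' q' s s' => ?_⟩
  have hE : ∀ z ∈ closedBall (0 : ℂ) 4, ‖EE ε c z - EE ε c' z‖ ≤ 4 * ε * |c - c'| := by
    intro z hz
    rw [mem_closedBall, dist_zero_right] at hz
    rw [EE, EE, Prod.mk_sub_mk, Prod.norm_def]
    refine max_le ?_ ?_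
    · simp only [sub_self, norm_zero]; positivity
    · have : (ε : ℂ) * ((2 + c) * z - z ^ 2 / 2) - ε * ((2 + c') * z - z ^ 2 / 2) =
          ((ε * (c - c') : ℝ) : ℂ) * z := by push_cast; ring
      simp only [this]
      rw [norm_mul, Complex.norm_real, Real.norm_eq_abs, abs_mul, abs_of_pos hε]
      nlinarith [mul_nonneg hε.le (abs_nonneg (c - c'))]
  obtain ⟨h1, h2, h3⟩ := Stable.stable_gen hε hε' norm_aa_sub_bb (by rw [norm_aa]; norm_num)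
    (by rw [norm_bb]; norm_num) hE s s'
  have hn : 0 ≤ ε * |c - c'| := mul_nonneg hε.le (abs_nonneg _)
  exact ⟨fun z hz => (h1 z hz).trans (by linarith), fun z hz => (h2 z hz).trans (by linarith),
    fun z hz => (h3 z hz).trans (by linarith)⟩

end Pool.Agent.MP_49383f_gt
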